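import Pool.Agent.Lib.MP_9dc04a_an.A2Def

set_option autoImplicit false

namespace Pool.Agent.Lib.MP_9dc04a_an.A2

open Finset

variable {ι : Type} [Fintype ι] [DecidableEq ι] {m : ℕ}

omit [Fintype ι] [DecidableEq ι] in
theorem wt_cons (t : ι → ℝ) (a : ι → ℝ) (r : Fin m → ι → ℝ) (y : ι) (q : Fin m → ι) :
    wt t (Fin.cons a r : Fin (m + 1) → ι → ℝ) (Fin.cons y q) =
      a y * (∏ k, sn (t (q k) - t y)) * wt t r q := by
  unfold wt
  rw [Fin.prod_univ_succ, Fin.prod_univ_succ, Fin.prod_Ioi_zero]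
  simp only [Fin.cons_zero, Fin.cons_succ, Fin.prod_Ioi_succ]
  ring

theorem prod_Ioi_ite {n : ℕ} (j : Fin n) (f : Fin n → ℝ) :
    ∏ k ∈ Ioi j, f k = ∏ k, if j < k then f k else 1 := by
  rw [← prod_filter]
  refine prod_congr ?_ fun _ _ => rfl
  ext k
  simp

omit [Fintype ι] [DecidableEq ι] in
theorem wt_append {n : ℕ} (t : ι → ℝ) (r : Fin m → ι → ℝ) (r' : Fin n → ι → ℝ) (q : Fin m → ι)
    (q' : Fin n → ι) : wt t (Fin.append r r') (Fin.append q q') =
      wt t r q * wt t r' q' * ∏ j, ∏ k, sn (t (q' k) - t (q j)) := by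
  unfold wt
  simp only [prod_Ioi_ite, Fin.prod_univ_add, Fin.append_left, Fin.append_right]
  have e1 : ∀ (j k : Fin m), (Fin.castAdd n j < Fin.castAdd n k) = (j < k) := fun j k => by
    simp only [Fin.lt_def, Fin.val_castAdd]
  have e2 : ∀ (j : Fin m) (k : Fin n), (Fin.castAdd n j < Fin.natAdd m k) = True := fun j k => by
    simp only [Fin.lt_def, Fin.val_castAdd, Fin.val_natAdd, eq_iff_iff, iff_true]
    omega
  have e3 : ∀ (j : Fin n) (k : Fin m), (Fin.natAdd m j < Fin.castAdd n k) = False := fun j k => by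
    simp only [Fin.lt_def, Fin.val_castAdd, Fin.val_natAdd, eq_iff_iff, iff_false]
    omega
  have e4 : ∀ (j k : Fin n), (Fin.natAdd m j < Fin.natAdd m k) = (j < k) := fun j k => by
    simp only [Fin.lt_def, Fin.val_natAdd, add_lt_add_iff_left]
  simp only [e1, e2, e3, e4, if_true, if_false, prod_const_one, one_mul, prod_mul_distrib]
  ring

theorem One.zs_ne {t : ι → ℝ} {r : Fin m → ι → ℝ} (h : One t r) :
    Zs t r ≠ 0 ↔ ∃ q, wt t r q ≠ 0 := by
  unfold Zs
  rw [← not_forall, not_iff_not]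
  rcases h with h | h
  · rw [sum_eq_zero_iff_of_nonneg fun q _ => h q]
    simp
  · rw [sum_eq_zero_iff_of_nonpos fun q _ => h q]
    simp

theorem One.abs {t : ι → ℝ} {r : Fin m → ι → ℝ} (h : One t r) : ∑ q, |wt t r q| = |Zs t r| := by
  unfold Zs
  rcases h with h | h
  · rw [abs_of_nonneg (sum_nonneg fun q _ => h q)]
    exact sum_congr rfl fun q _ => abs_of_nonneg (h q)
  · rw [abs_of_nonpos (sum_nonpos fun q _ => h q), ← sum_neg_distrib]
    exact sum_congr rfl fun q _ => abs_of_nonpos (h q)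

omit [Fintype ι] [DecidableEq ι] in
theorem Win.cs_pos {t : ι → ℝ} (w : Win t) (i j : ι) : 0 < Real.cos ((t i - t j) / 4) := by
  have h1 := w i j
  have h2 := w j i
  exact Real.cos_pos_of_mem_Ioo ⟨by linarith, by linarith⟩

theorem sn_eq (u : ℝ) : sn u = 2 * Real.cos (u / 4) * Real.sin (u / 4) := by
  unfold sn
  rw [show u / 2 = 2 * (u / 4) by ring, Real.sin_two_mul]
  ring

omit [Fintype ι] [DecidableEq ι] in
theorem sn_dt_same (t : ι → ℝ) (i j : ι) (b : Bool) :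
    sn (dt t (i, b) - dt t (j, b)) = Real.sin ((t i - t j) / 4) := by
  unfold sn dt
  congr 1
  ring

omit [Fintype ι] [DecidableEq ι] in
theorem sn_dt_tf (t : ι → ℝ) (i j : ι) :
    sn (dt t (i, true) - dt t (j, false)) = Real.cos ((t i - t j) / 4) := by
  unfold sn dt
  rw [← Real.sin_add_pi_div_two]
  congr 1
  simp only [if_true, Bool.false_eq_true, if_false]
  ring

omit [Fintype ι] [DecidableEq ι] in
theorem sn_dt_ft (t : ι → ℝ) (i j : ι) :
    sn (dt t (i, false) - dt t (j, true)) = -Real.cos ((t i - t j) / 4) := by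
  unfold sn dt
  rw [← Real.sin_sub_pi_div_two]
  congr 1
  simp only [if_true, Bool.false_eq_true, if_false]
  ring

omit [Fintype ι] [DecidableEq ι] in
theorem wt_half {t : ι → ℝ} (w : Win t) (r : Fin m → ι → ℝ) (q : Fin m → ι) :
    ∃ A : ℝ, 0 < A ∧ ∀ (b : Bool) (ρ : Fin m → ι × Bool → ℝ), (∀ j i, ρ j (i, b) = r j i) →
      wt (dt t) ρ (fun j => (q j, b)) = A * wt t r q := by
  have hA : 0 < ∏ j, ∏ k ∈ Ioi j, 2 * Real.cos ((t (q k) - t (q j)) / 4) :=
    prod_pos fun j _ => prod_pos fun k _ => mul_pos two_pos (w.cs_pos _ _)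
  refine ⟨_, inv_pos.2 hA, fun b ρ h => ?_⟩
  rw [eq_inv_mul_iff_mul_eq₀ hA.ne']
  unfold wt
  simp only [sn_dt_same, h]
  simp only [sn_eq, prod_mul_distrib]
  ring

omit [Fintype ι] [DecidableEq ι] in
theorem wt_dbl {t : ι → ℝ} (w : Win t) (r : Fin (m + 1) → ι → ℝ) (y : ι) (b : Bool)
    (q q' : Fin m → ι) : ∃ P : ℝ, 0 < P ∧
      wt (dt t) (dr r) (Fin.cons (y, b) (Fin.append (fun j => (q j, false)) fun j => (q' j, true))) =
        P * (wt t r (Fin.cons y (if b then q' else q)) * wt t (Fin.tail r) (if b then q else q')) := by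
  obtain ⟨A, hA, eA⟩ := wt_half w (Fin.tail r) q
  obtain ⟨B, hB, eB⟩ := wt_half w (Fin.tail r) q'
  have hC : 0 < ∏ j, ∏ k, Real.cos ((t (q' k) - t (q j)) / 4) :=
    prod_pos fun j _ => prod_pos fun k _ => w.cs_pos _ _
  have hD : ∀ p : Fin m → ι, 0 < ∏ j, Real.cos ((t (p j) - t y) / 4) := fun p =>
    prod_pos fun j _ => w.cs_pos _ _
  have e0 : ∀ p : Fin m → ι, wt t r (Fin.cons y p) = r 0 y * (2 ^ m *
      (∏ j, Real.cos ((t (p j) - t y) / 4)) * ∏ j, Real.sin ((t (p j) - t y) / 4)) *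
        wt t (Fin.tail r) p := fun p => by
    conv_lhs => rw [← Fin.cons_self_tail r]
    rw [wt_cons]
    simp only [sn_eq, prod_mul_distrib, prod_const, card_univ, Fintype.card_fin]
  unfold dr
  rw [wt_cons, wt_append, Fin.prod_univ_add,
    eA false _ (fun j i => by simp [Fin.tail]), eB true _ (fun j i => by simp [Fin.tail])]
  simp only [Fin.append_left, Fin.append_right, sn_dt_tf]
  have h2 : (0 : ℝ) < 2 ^ m := by positivity
  cases b
  · refine ⟨A * B * (∏ j, ∏ k, Real.cos ((t (q' k) - t (q j)) / 4)) *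
      (∏ j, Real.cos ((t (q' j) - t y) / 4)) / (2 ^ m * ∏ j, Real.cos ((t (q j) - t y) / 4)),
      div_pos (mul_pos (mul_pos (mul_pos hA hB) hC) (hD _)) (mul_pos h2 (hD _)), ?_⟩
    simp only [sn_dt_same, sn_dt_tf, Bool.false_eq_true, if_false, e0]
    have := (hD q).ne'
    field_simp
  · refine ⟨A * B * (∏ j, ∏ k, Real.cos ((t (q' k) - t (q j)) / 4)) *
      (∏ j, Real.cos ((t (q j) - t y) / 4)) / (2 ^ m * ∏ j, Real.cos ((t (q' j) - t y) / 4)),
      div_pos (mul_pos (mul_pos (mul_pos hA hB) hC) (hD _)) (mul_pos h2 (hD _)), ?_⟩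
    have e1 : ∏ j, -Real.cos ((t (q j) - t y) / 4) =
        (-1) ^ m * ∏ j, Real.cos ((t (q j) - t y) / 4) := by
      rw [prod_neg]
      simp
    have e2 : ((-1 : ℝ) ^ m) ^ 2 = 1 := by
      rw [← pow_mul, mul_comm, pow_mul]
      simp
    simp only [sn_dt_same, sn_dt_ft, if_true, e0, e1]
    have := (hD q').ne'
    field_simp
    rw [e2]
    ring

omit [Fintype ι] [DecidableEq ι] in
theorem wt_dbl_all {t : ι → ℝ} (w : Win t) (r : Fin (m + 1) → ι → ℝ)
    (X : Fin (m + m + 1) → ι × Bool) : ∃ (P : ℝ) (Q : Fin (m + 1) → ι) (q : Fin m → ι), 0 ≤ P ∧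
      wt (dt t) (dr r) X = P * (wt t r Q * wt t (Fin.tail r) q) := by
  by_cases hX : wt (dt t) (dr r) X = 0
  · exact ⟨0, fun _ => (X 0).1, fun _ => (X 0).1, le_rfl, by rw [hX, zero_mul]⟩
  have h1 : ∀ j, dr r j (X j) ≠ 0 := fun j =>
    prod_ne_zero_iff.1 (left_ne_zero_of_mul hX) j (mem_univ _)
  have hf : ∀ j : Fin m, (X (Fin.castAdd m j).succ).2 = false := fun j => by
    have := h1 (Fin.castAdd m j).succ
    unfold dr at this
    rw [Fin.cons_succ, Fin.append_left] at this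
    by_contra hb
    rw [Bool.not_eq_false] at hb
    exact this (if_pos hb)
  have ht : ∀ j : Fin m, (X (Fin.natAdd m j).succ).2 = true := fun j => by
    have := h1 (Fin.natAdd m j).succ
    unfold dr at this
    rw [Fin.cons_succ, Fin.append_right] at this
    by_contra hb
    exact this (if_neg hb)
  have e : X = Fin.cons ((X 0).1, (X 0).2) (Fin.append (fun j => ((X (Fin.castAdd m j).succ).1, false))
      fun j => ((X (Fin.natAdd m j).succ).1, true)) := by
    funext j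
    refine Fin.cases rfl (fun j => ?_) j
    rw [Fin.cons_succ]
    refine Fin.addCases (fun j => ?_) (fun j => ?_) j
    · rw [Fin.append_left, ← hf j]
    · rw [Fin.append_right, ← ht j]
  obtain ⟨P, hP, eP⟩ := wt_dbl w r (X 0).1 (X 0).2 (fun j => (X (Fin.castAdd m j).succ).1)
    fun j => (X (Fin.natAdd m j).succ).1
  exact ⟨P, _, _, hP.le, by rw [← eP, ← e]⟩

theorem dbl {t : ι → ℝ} (w : Win t) (r : Fin (m + 1) → ι → ℝ) (h1 : One t r) (h0 : One t (Fin.tail r)) :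
    One (dt t) (dr r) ∧ (Zs t r ≠ 0 → Zs t (Fin.tail r) ≠ 0 → Zs (dt t) (dr r) ≠ 0) := by
  have h : One (dt t) (dr r) := by
    rcases h1 with h1 | h1 <;> rcases h0 with h0 | h0
    · refine Or.inl fun X => ?_
      obtain ⟨P, Q, q, hP, e⟩ := wt_dbl_all w r X
      exact e ▸ mul_nonneg hP (mul_nonneg (h1 Q) (h0 q))
    · refine Or.inr fun X => ?_
      obtain ⟨P, Q, q, hP, e⟩ := wt_dbl_all w r X
      exact e ▸ mul_nonpos_of_nonneg_of_nonpos hP (mul_nonpos_of_nonneg_of_nonpos (h1 Q) (h0 q))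
    · refine Or.inr fun X => ?_
      obtain ⟨P, Q, q, hP, e⟩ := wt_dbl_all w r X
      exact e ▸ mul_nonpos_of_nonneg_of_nonpos hP (mul_nonpos_of_nonpos_of_nonneg (h1 Q) (h0 q))
    · refine Or.inl fun X => ?_
      obtain ⟨P, Q, q, hP, e⟩ := wt_dbl_all w r X
      exact e ▸ mul_nonneg hP (mul_nonneg_of_nonpos_of_nonpos (h1 Q) (h0 q))
  refine ⟨h, fun z1 z0 => ?_⟩
  obtain ⟨Q, hQ⟩ := h1.zs_ne.1 z1
  obtain ⟨q, hq⟩ := h0.zs_ne.1 z0
  obtain ⟨P, hP, e⟩ := wt_dbl w r (Q 0) false (Fin.tail Q) q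
  refine h.zs_ne.2 ⟨_, e ▸ mul_ne_zero hP.ne' (mul_ne_zero ?_ hq)⟩
  simpa using hQ

end Pool.Agent.Lib.MP_9dc04a_an.A2
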