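import Pool.Agent.Lib.MP_9dc04a_an.A2Det
import Pool.Agent.Lib.MP_9dc04a_an.A2Dbl

set_option autoImplicit false
set_option linter.unusedSectionVars false

namespace Pool.Agent.Lib.MP_9dc04a_an.A2

open Finset

variable {ι : Type} [Fintype ι] [DecidableEq ι] {m : ℕ}

theorem st_add (x y : ℝ) : ex (x + y) = ex x * ex y := by
  simp only [ex, Complex.ofReal_add, add_mul, Complex.exp_add]

theorem st_pi : ex Real.pi = -1 := Complex.exp_pi_mul_I

theorem st_zero : ex 0 = 1 := by simp [ex]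

theorem st_nat (n : ℕ) (x : ℝ) : ex (n * x) = ex x ^ n := by
  induction n with
  | zero => simp [st_zero]
  | succ n ih => rw [Nat.cast_succ, add_mul, one_mul, st_add, ih, pow_succ]

theorem st_conj (x : ℝ) : (starRingEnd ℂ) (ex x) * ex x = 1 := by
  rw [mul_comm, Complex.mul_conj, Complex.normSq_eq_norm_sq, ex, Complex.norm_exp_ofReal_mul_I]
  simp

theorem st_negpi (n : ℕ) : ex (-(n : ℝ) * Real.pi) = (-1) ^ n := by
  have h : ex (-(n : ℝ) * Real.pi) * (-1) ^ n = 1 := by
    rw [← st_pi, ← st_nat, ← st_add]; simp [st_zero]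
  have h2 : ((-1 : ℂ) ^ n) * (-1) ^ n = 1 := by rw [← mul_pow]; simp
  calc ex (-(n : ℝ) * Real.pi) = ex (-(n : ℝ) * Real.pi) * ((-1) ^ n * (-1) ^ n) := by rw [h2, mul_one]
    _ = (-1) ^ n := by rw [← mul_assoc, h, one_mul]

theorem st_f (t : ι → ℝ) (i : ι) : ex (dt t (i, false)) = ex (t i / 2) := by simp [dt]

theorem st_t (t : ι → ℝ) (i : ι) : ex (dt t (i, true)) = -ex (t i / 2) := by
  simp [dt, st_add, st_pi]

theorem st_sq (x : ℝ) : ex (x / 2) ^ 2 = ex x := by
  rw [sq, ← st_add]; congr 1; ring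

theorem st_pf (t : ι → ℝ) (i : ι) :
    ex (-(((m + m + 1 : ℕ) : ℝ) - 1) / 2 * dt t (i, false)) = ex (-(m : ℝ) / 2 * t i) := by
  congr 1; simp only [dt]; push_cast; simp; ring

theorem st_pt (t : ι → ℝ) (i : ι) :
    ex (-(((m + m + 1 : ℕ) : ℝ) - 1) / 2 * dt t (i, true)) =
      (-1) ^ m * ex (-(m : ℝ) / 2 * t i) := by
  rw [← st_negpi, ← st_add]; congr 1; simp only [dt]; push_cast; simp; ring

/-- the doubled rows kill `E` as soon as three families of sums vanish -/
theorem st_kill {t : ι → ℝ} {r : Fin (m + 1) → ι → ℝ} {E : Polynomial ℂ}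
    (h0 : ∑ i, (r 0 i : ℂ) * ex (-(m : ℝ) / 2 * t i) *
      (E.eval (ex (t i / 2)) + E.eval (-ex (t i / 2))) = 0)
    (h1 : ∀ j : Fin m, ∑ i, (r j.succ i : ℂ) * ex (-(m : ℝ) / 2 * t i) * E.eval (ex (t i / 2)) = 0)
    (h2 : ∀ j : Fin m, ∑ i, (r j.succ i : ℂ) * ex (-(m : ℝ) / 2 * t i) * E.eval (-ex (t i / 2)) = 0) :
    Kill (dt t) (dr r) E := by
  have h2' : ((-1 : ℂ) ^ m) * (-1) ^ m = 1 := by rw [← mul_pow]; simp
  intro j
  rw [Fintype.sum_prod_type]
  simp only [Fintype.sum_bool, st_pf, st_pt, st_f, st_t]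
  refine Fin.cases ?_ (fun j => ?_) j
  · rw [← h0]
    refine sum_congr rfl fun i _ => ?_
    simp only [dr, Fin.cons_zero, if_true, Bool.false_eq_true, if_false]
    push_cast
    linear_combination (r 0 i * ex (-(m : ℝ) / 2 * t i) * E.eval (-ex (t i / 2))) * h2'
  · refine Fin.addCases (fun j => ?_) (fun j => ?_) j
    · rw [← h1 j]
      refine sum_congr rfl fun i _ => ?_
      simp only [dr, Fin.cons_succ, Fin.append_left, if_true, Bool.false_eq_true, if_false]
      push_cast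
      ring
    · have := h2 j
      rw [← mul_zero ((-1 : ℂ) ^ m), ← this, mul_sum]
      refine sum_congr rfl fun i _ => ?_
      simp only [dr, Fin.cons_succ, Fin.append_right, if_true, Bool.false_eq_true, if_false]
      push_cast
      ring

theorem kill_odd {t : ι → ℝ} {r : Fin (m + 1) → ι → ℝ} {E : Polynomial ℂ} (h : Kill t (Fin.tail r) E) :
    Kill (dt t) (dr r) (Polynomial.X * E.comp (Polynomial.X ^ 2)) := by
  have e (i : ι) : ex (-(m : ℝ) / 2 * t i) * ex (t i / 2) = ex (-((m : ℝ) - 1) / 2 * t i) := by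
    rw [← st_add]; congr 1; ring
  refine st_kill ?_ (fun j => ?_) (fun j => ?_)
  · refine sum_eq_zero fun i _ => ?_
    simp [Polynomial.eval_comp]
  · rw [← h j]
    refine sum_congr rfl fun i _ => ?_
    simp only [Polynomial.eval_mul, Polynomial.eval_X, Polynomial.eval_comp, Polynomial.eval_pow,
      st_sq, Fin.tail, ← e]
    ring
  · rw [← neg_zero, ← h j, ← sum_neg_distrib]
    refine sum_congr rfl fun i _ => ?_
    simp only [Polynomial.eval_mul, Polynomial.eval_X, Polynomial.eval_comp, Polynomial.eval_pow,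
      neg_sq, st_sq, Fin.tail, ← e]
    ring

theorem kill_even {t : ι → ℝ} {r : Fin (m + 1) → ι → ℝ} {E : Polynomial ℂ} (h : Kill t r E) :
    Kill (dt t) (dr r) (E.comp (Polynomial.X ^ 2)) := by
  have h' (j : Fin (m + 1)) :
      ∑ i, (r j i : ℂ) * ex (-(m : ℝ) / 2 * t i) * E.eval (ex (t i)) = 0 := by
    have := h j
    push_cast at this
    simpa only [add_sub_cancel_right] using this
  refine st_kill ?_ (fun j => ?_) (fun j => ?_)
  · rw [← mul_zero (2 : ℂ), ← h' 0, mul_sum]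
    refine sum_congr rfl fun i _ => ?_
    simp only [Polynomial.eval_X, Polynomial.eval_comp, Polynomial.eval_pow, neg_sq, st_sq]
    ring
  · simpa only [Polynomial.eval_X, Polynomial.eval_comp, Polynomial.eval_pow, st_sq] using h' j.succ
  · simpa only [Polynomial.eval_X, Polynomial.eval_comp, Polynomial.eval_pow, neg_sq, st_sq]
      using h' j.succ

section gen
open Polynomial

/-- the monic polynomial of a choice -/
noncomputable def stP (t : ι → ℝ) (q : Fin m → ι) : ℂ[X] := ∏ k, (X - C (ex (t (q k))))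

/-- the sum of the points of a choice -/
noncomputable def stS (t : ι → ℝ) (q : Fin m → ι) : ℂ := ∑ k, ex (t (q k))

theorem stP_deg (t : ι → ℝ) (q : Fin m → ι) : (stP t q).natDegree = m := by
  simp [stP, natDegree_finsetProd_X_sub_C_eq_card]

theorem stP_top (t : ι → ℝ) (q : Fin m → ι) : (stP t q).coeff m = 1 := by
  have h : (stP t q).Monic := monic_prod_of_monic _ _ fun k _ => monic_X_sub_C _
  have := h.coeff_natDegree
  rwa [stP_deg] at this

theorem stP_hi (t : ι → ℝ) (q : Fin m → ι) {k : ℕ} (h : m < k) : (stP t q).coeff k = 0 :=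
  coeff_eq_zero_of_natDegree_lt (by rwa [stP_deg])

theorem stP_next (t : ι → ℝ) (q : Fin (m + 1) → ι) : (stP t q).coeff m = -stS t q := by
  have := prod_X_sub_C_coeff_card_pred (univ : Finset (Fin (m + 1))) (fun k => ex (t (q k))) (by simp)
  simpa [stP, stS] using this

theorem stP_eval (t : ι → ℝ) (q : Fin m → ι) (z : ℂ) :
    (stP t q).eval z = ∏ k, (z - ex (t (q k))) := by
  simp [stP, eval_prod]

theorem st_sub {t : ι → ℝ} {r : Fin m → ι → ℝ} {A B : ℂ[X]} (hA : Kill t r A) (hB : Kill t r B)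
    (a b : ℂ) : Kill t r (C a * A - C b * B) := by
  intro j
  have : a * (∑ i, (r j i : ℂ) * ex (-((m : ℝ) - 1) / 2 * t i) * A.eval (ex (t i))) -
      b * ∑ i, (r j i : ℂ) * ex (-((m : ℝ) - 1) / 2 * t i) * B.eval (ex (t i)) = 0 := by
    rw [hA j, hB j]; ring
  rw [← this, mul_sum, mul_sum, ← sum_sub_distrib]
  refine sum_congr rfl fun i _ => ?_
  simp only [eval_sub, eval_mul, eval_C]
  ring

theorem st_A (t : ι → ℝ) (r : Fin m → ι → ℝ) : Kill t r (∑ q, C (wt t r q : ℂ) * stP t q) := by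
  intro j
  rw [← kill_sym t r 1 (fun _ => 0) j]
  refine sum_congr rfl fun i _ => ?_
  simp [eval_finsetSum, stP_eval]

theorem st_B (t : ι → ℝ) (r : Fin m → ι → ℝ) :
    Kill t r (∑ q, C (wt t r q : ℂ) * (X * stP t q + C (stS t q) * stP t q)) := by
  intro j
  rw [← kill_sym t r 0 (fun i => ex (t i)) j]
  refine sum_congr rfl fun i _ => ?_
  simp only [eval_finsetSum, eval_mul, eval_add, eval_C, eval_X, stP_eval, stS, zero_add, add_mul]

theorem st_C (t : ι → ℝ) (r : Fin m → ι → ℝ) (G : ℂ[X])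
    (h : ∑ q, C (wt t r q : ℂ) * (stP t q + C ((starRingEnd ℂ) (stS t q)) * (X * stP t q)) = X * G) :
    Kill t r G := by
  intro j
  rw [← kill_sym t r 0 (fun i => (starRingEnd ℂ) (ex (t i))) j]
  refine sum_congr rfl fun i _ => ?_
  congr 1
  have h1 := congrArg (eval (ex (t i))) h
  simp only [eval_finsetSum, eval_mul, eval_add, eval_C, eval_X, stP_eval] at h1
  have h2 := st_conj (t i)
  calc G.eval (ex (t i)) = (starRingEnd ℂ) (ex (t i)) * (ex (t i) * G.eval (ex (t i))) := by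
        rw [← mul_assoc, h2, one_mul]
    _ = _ := by
        rw [← h1, mul_sum]
        refine sum_congr rfl fun q _ => ?_
        rw [zero_add, ← map_sum (starRingEnd ℂ) (fun k => ex (t (q k)))]
        change _ = _ * ((_ + (starRingEnd ℂ) (stS t q)) * _)
        linear_combination ((wt t r q : ℂ) * (starRingEnd ℂ) (stS t q) *
          ∏ k, (ex (t i) - ex (t (q k)))) * h2

/-- second moment: if the mean of the sum and of the constant term vanish, the mean of the squared
modulus of the sum is one -/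
theorem st_mom {t : ι → ℝ} {r : Fin (m + 1) → ι → ℝ} (hZ : Zs t r ≠ 0)
    (h0 : ∑ q, (wt t r q : ℂ) * (stP t q).coeff 0 = 0) (h1 : ∑ q, (wt t r q : ℂ) * stS t q = 0) :
    ∑ q, wt t r q * ‖stS t q‖ ^ 2 = Zs t r := by
  set F : ℂ[X] := ∑ q, C (wt t r q : ℂ) *
    (stP t q + C ((starRingEnd ℂ) (stS t q)) * (X * stP t q)) with hF
  have c0 : F.coeff 0 = 0 := by
    rw [← h0, hF, finsetSum_coeff]
    refine sum_congr rfl fun q _ => ?_
    simp
  have cs (k : ℕ) : F.coeff (k + 1) = ∑ q, (wt t r q : ℂ) * ((stP t q).coeff (k + 1) +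
      (starRingEnd ℂ) (stS t q) * (stP t q).coeff k) := by
    rw [hF, finsetSum_coeff]
    refine sum_congr rfl fun q _ => ?_
    simp only [coeff_C_mul, coeff_add, coeff_X_mul]
  have hX : F = X * F.divX := by
    have := X_mul_divX_add F
    rw [c0] at this
    simpa using this.symm
  have hd : F.divX.degree < (m + 1 : ℕ) := by
    rw [degree_lt_iff_coeff_zero]
    intro k hk
    rw [coeff_divX, cs]
    rcases hk.eq_or_lt with rfl | hk
    · have := congrArg (starRingEnd ℂ) h1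
      rw [map_sum, map_zero] at this
      rw [← this]
      refine sum_congr rfl fun q _ => ?_
      rw [stP_hi t q (by omega), stP_top]
      simp
    · refine sum_eq_zero fun q _ => ?_
      rw [stP_hi t q (by omega), stP_hi t q hk]
      simp
  have hz := kill_zero hZ hd (st_C t r _ hX)
  have := cs m
  rw [hX, hz, mul_zero, coeff_zero] at this
  have e : ((Zs t r - ∑ q, wt t r q * ‖stS t q‖ ^ 2 : ℝ) : ℂ) = 0 := by
    rw [this, Zs, ← sum_sub_distrib]
    push_cast
    refine sum_congr rfl fun q _ => ?_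
    rw [stP_top, stP_next, ← Complex.conj_mul']
    ring
  have := Complex.ofReal_eq_zero.1 e
  linarith

theorem st_bd {t : ι → ℝ} {r : Fin m → ι → ℝ} (h : One t r)
    (e : ∑ q, wt t r q * ‖stS t q‖ ^ 2 = Zs t r) :
    ‖∑ q, (wt t r q : ℂ) * stS t q ^ 2‖ ≤ |Zs t r| := by
  refine (norm_sum_le _ _).trans ?_
  simp only [norm_mul, norm_pow, Complex.norm_real, Real.norm_eq_abs]
  rcases h with h | h
  · refine le_trans (le_of_eq ?_) (le_abs_self _)
    rw [← e]
    exact sum_congr rfl fun q _ => by rw [abs_of_nonneg (h q)]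
  · refine le_trans (le_of_eq ?_) (neg_le_abs _)
    rw [← e, ← sum_neg_distrib]
    exact sum_congr rfl fun q _ => by rw [abs_of_nonpos (h q)]; ring

theorem st_ev (E : ℂ[X]) (k : ℕ) : (E.comp (X ^ 2)).coeff (k + k) = E.coeff k := by
  rw [← expand_eq_comp_X_pow, coeff_expand (by norm_num), if_pos (by omega)]
  congr 1; omega

theorem st_od (E : ℂ[X]) (k : ℕ) : (E.comp (X ^ 2)).coeff (k + k + 1) = 0 := by
  rw [← expand_eq_comp_X_pow, coeff_expand (by norm_num), if_neg (by omega)]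

theorem st_hi {E : ℂ[X]} {n k : ℕ} (h : E.natDegree ≤ n) (hk : n + n < k) :
    (E.comp (X ^ 2)).coeff k = 0 := by
  rw [← expand_eq_comp_X_pow, coeff_expand (by norm_num)]
  split_ifs with h2
  · exact coeff_eq_zero_of_natDegree_lt (by omega)
  · rfl

theorem st_null {t : ι → ℝ} {r : Fin m → ι → ℝ} (h : One t r) (hZ : Zs t r = 0) : Ns t r = 0 := by
  have : ¬ ∃ q, wt t r q ≠ 0 := fun h' => (h.zs_ne.2 h') hZ
  push Not at this
  simp [Ns, this]

/-- the two identities behind the one step lemma; no sign condition is used -/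
theorem st_key {t : ι → ℝ} (r : Fin (m + 1) → ι → ℝ) (z0 : Zs t (Fin.tail r) ≠ 0)
    (hZ : Zs (dt t) (dr r) ≠ 0) :
    ∑ q, wt (dt t) (dr r) q * ‖stS (dt t) q‖ ^ 2 = Zs (dt t) (dr r) ∧
    (Zs (dt t) (dr r) : ℂ) * ((Zs t (Fin.tail r) : ℂ) * Ns t r - Zs t r * Ns t (Fin.tail r)) =
      Zs t r * Zs t (Fin.tail r) * ∑ q, (wt (dt t) (dr r) q : ℂ) * stS (dt t) q ^ 2 := by
  obtain ⟨E0, d0, k0, t0, n0, -⟩ := kill_ex t (Fin.tail r)
  obtain ⟨E1, d1, k1, t1, n1, -⟩ := kill_ex t r
  replace n1 := n1 m rfl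
  have z0' : (Zs t (Fin.tail r) : ℂ) ≠ 0 := Complex.ofReal_ne_zero.2 z0
  have sZ : ∑ q, (wt (dt t) (dr r) q : ℂ) = Zs (dt t) (dr r) := by simp [Zs]
  -- (i)
  have hA : C (Zs t (Fin.tail r) : ℂ) * (∑ q, C (wt (dt t) (dr r) q : ℂ) * stP (dt t) q) -
      C (Zs (dt t) (dr r) : ℂ) * (X * E0.comp (X ^ 2)) = 0 := by
    refine kill_zero hZ ?_ (st_sub (st_A _ _) (kill_odd k0) _ _)
    rw [degree_lt_iff_coeff_zero]
    intro k hk
    obtain ⟨k, rfl⟩ : ∃ l, k = l + 1 := ⟨k - 1, by omega⟩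
    simp only [coeff_sub, coeff_C_mul, finsetSum_coeff, coeff_X_mul]
    rcases hk.eq_or_lt with e | hk
    · obtain rfl : k = m + m := by omega
      simp only [stP_top, mul_one, sZ, st_ev, t0]
      ring
    · rw [st_hi d0 (by omega), sum_eq_zero fun q _ => by rw [stP_hi _ q hk, mul_zero]]
      ring
  have a0 : ∑ q, (wt (dt t) (dr r) q : ℂ) * (stP (dt t) q).coeff 0 = 0 := by
    have := congrArg (coeff · 0) hA
    simp only [coeff_sub, coeff_C_mul, finsetSum_coeff, coeff_X_mul_zero, coeff_zero, mul_zero,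
      sub_zero] at this
    exact (mul_eq_zero.1 this).resolve_left z0'
  have a1 : ∑ q, (wt (dt t) (dr r) q : ℂ) * stS (dt t) q = 0 := by
    have := congrArg (coeff · (m + m)) hA
    have e : (X * E0.comp (X ^ 2)).coeff (m + m) = 0 := by
      rcases m with _ | m
      · exact coeff_X_mul_zero _
      · rw [show m + 1 + (m + 1) = (m + m + 1) + 1 by ring, coeff_X_mul, st_od]
    simp only [coeff_sub, coeff_C_mul, finsetSum_coeff, coeff_zero, e, mul_zero, sub_zero,
      stP_next, mul_neg, sum_neg_distrib, neg_eq_zero] at this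
    exact (mul_eq_zero.1 this).resolve_left z0'
  have a2 : (Zs t (Fin.tail r) : ℂ) * ∑ q, (wt (dt t) (dr r) q : ℂ) *
      (X * stP (dt t) q).coeff (m + m) = -(Zs (dt t) (dr r) * Ns t (Fin.tail r)) := by
    rcases m with _ | m
    · simp [Ns]
    · have := congrArg (coeff · (m + m + 1)) hA
      simp only [coeff_sub, coeff_C_mul, finsetSum_coeff, coeff_zero, coeff_X_mul, st_ev,
        n0 m rfl] at this
      have e (P : ℂ[X]) : (X * P).coeff (m + 1 + (m + 1)) = P.coeff (m + m + 1) := by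
        rw [show m + 1 + (m + 1) = (m + m + 1) + 1 by ring, coeff_X_mul]
      simp only [e]
      linear_combination this
  -- (ii)
  have hB : C (Zs t r : ℂ) * (∑ q, C (wt (dt t) (dr r) q : ℂ) *
      (X * stP (dt t) q + C (stS (dt t) q) * stP (dt t) q)) -
      C (Zs (dt t) (dr r) : ℂ) * E1.comp (X ^ 2) = 0 := by
    refine kill_zero hZ ?_ (st_sub (st_B _ _) (kill_even k1) _ _)
    rw [degree_lt_iff_coeff_zero]
    intro k hk
    obtain ⟨k, rfl⟩ : ∃ l, k = l + 1 := ⟨k - 1, by omega⟩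
    simp only [coeff_sub, coeff_C_mul, finsetSum_coeff, coeff_X_mul, coeff_add]
    rcases hk.eq_or_lt with e | hk
    · obtain rfl : k = m + m := by omega
      simp only [stP_top, stP_next, st_od, mul_one, neg_add_cancel, mul_zero, sum_const_zero,
        sub_zero]
    · rcases (Nat.succ_le_of_lt hk).eq_or_lt with e | hk2
      · obtain rfl : k = m + m + 1 := by omega
        have e2 : (E1.comp (X ^ 2)).coeff (m + m + 1 + 1) = Zs t r := by
          rw [show m + m + 1 + 1 = (m + 1) + (m + 1) by ring, st_ev, t1]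
        have e3 (q : Fin (m + m + 1) → ι × Bool) : (stP (dt t) q).coeff (m + m + 1 + 1) = 0 :=
          stP_hi _ q (by omega)
        simp only [stP_top, e2, e3, mul_zero, add_zero, mul_one, sZ]
        ring
      · rw [st_hi d1 (by omega), sum_eq_zero fun q _ => by
          rw [stP_hi _ q hk, stP_hi _ q (by omega), mul_zero, add_zero, mul_zero]]
        ring
  have b2 := congrArg (coeff · (m + m)) hB
  simp only [coeff_sub, coeff_C_mul, finsetSum_coeff, coeff_zero, coeff_add, st_ev, n1, stP_next,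
    mul_add, sum_add_distrib] at b2
  have key : (Zs (dt t) (dr r) : ℂ) *
      ((Zs t (Fin.tail r) : ℂ) * Ns t r - Zs t r * Ns t (Fin.tail r)) =
      Zs t r * Zs t (Fin.tail r) * ∑ q, (wt (dt t) (dr r) q : ℂ) * stS (dt t) q ^ 2 := by
    have e : ∑ q, (wt (dt t) (dr r) q : ℂ) * (stS (dt t) q * -stS (dt t) q) =
        -∑ q, (wt (dt t) (dr r) q : ℂ) * stS (dt t) q ^ 2 := by
      rw [← sum_neg_distrib]
      exact sum_congr rfl fun q _ => by ring
    rw [e] at b2
    linear_combination (Zs t (Fin.tail r) : ℂ) * b2 - (Zs t r : ℂ) * a2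
  exact ⟨st_mom hZ a0 a1, key⟩

theorem st_fin {t : ι → ℝ} (r : Fin (m + 1) → ι → ℝ) (z0 : Zs t (Fin.tail r) ≠ 0)
    (hZ : Zs (dt t) (dr r) ≠ 0)
    (bd : ‖∑ q, (wt (dt t) (dr r) q : ℂ) * stS (dt t) q ^ 2‖ ≤ |Zs (dt t) (dr r)|) :
    ‖(Zs t (Fin.tail r) : ℂ) * Ns t r - Zs t r * Ns t (Fin.tail r)‖ ≤
      |Zs t r| * |Zs t (Fin.tail r)| := by
  have kn := congrArg norm (st_key r z0 hZ).2
  simp only [norm_mul, Complex.norm_real, Real.norm_eq_abs] at kn
  have pos : 0 < |Zs (dt t) (dr r)| := abs_pos.2 hZ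
  refine le_of_mul_le_mul_left ?_ pos
  rw [kn, mul_comm |Zs (dt t) (dr r)|]
  exact mul_le_mul_of_nonneg_left bd (by positivity)

theorem step {t : ι → ℝ} (w : Win t) (r : Fin (m + 1) → ι → ℝ) (h1 : One t r)
    (h0 : One t (Fin.tail r)) :
    ‖(Zs t (Fin.tail r) : ℂ) * Ns t r - Zs t r * Ns t (Fin.tail r)‖ ≤
      |Zs t r| * |Zs t (Fin.tail r)| := by
  by_cases z0 : Zs t (Fin.tail r) = 0
  · simp [z0, st_null h0 z0]
  by_cases z1 : Zs t r = 0
  · simp [z1, st_null h1 z1]
  obtain ⟨o, hZ⟩ := dbl w r h1 h0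
  replace hZ := hZ z1 z0
  exact st_fin r z0 hZ (st_bd o (st_key r z0 hZ).1)

end gen

end Pool.Agent.Lib.MP_9dc04a_an.A2
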