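import Pool.Agent.Lib.MP_9dc04a_an.A2Det

set_option autoImplicit false

namespace Pool.Agent.Lib.MP_9dc04a_an.A2

open Finset Polynomial

variable {ι : Type} [Fintype ι] [DecidableEq ι] {m : ℕ}

theorem tp_ex_add (a b : ℝ) : ex (a + b) = ex a * ex b := by
  simp [ex, add_mul, Complex.exp_add]

theorem tp_ex_ne (a : ℝ) : ex a ≠ 0 := Complex.exp_ne_zero _

theorem tp_ex_zero : ex 0 = 1 := by simp [ex]

theorem tp_ex_norm (a : ℝ) : ‖ex a‖ = 1 := Complex.norm_exp_ofReal_mul_I a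

theorem tp_ex_neg (a : ℝ) : ex (-a) = (ex a)⁻¹ := by
  simp [ex, Complex.exp_neg]

theorem tp_ex_sum {κ : Type} (s : Finset κ) (f : κ → ℝ) : ex (∑ k ∈ s, f k) = ∏ k ∈ s, ex (f k) := by
  classical
  induction s using Finset.induction_on with
  | empty => simp [tp_ex_zero]
  | insert a s ha ih => rw [sum_insert ha, prod_insert ha, tp_ex_add, ih]

theorem tp_ex_sub (a b : ℝ) :
    ex a - ex b = 2 * Complex.I * (sn (a - b) : ℂ) * ex ((a + b) / 2) := by
  have h1 : ex a = ex ((a - b) / 2) * ex ((a + b) / 2) := by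
    rw [← tp_ex_add]; congr 1; ring
  have h2 : ex b = ex (-((a - b) / 2)) * ex ((a + b) / 2) := by
    rw [← tp_ex_add]; congr 1; ring
  have h3 : ex ((a - b) / 2) - ex (-((a - b) / 2)) = 2 * Complex.I * (sn (a - b) : ℂ) := by
    unfold ex sn
    generalize (a - b) / 2 = x
    rw [Complex.ofReal_neg, Complex.exp_mul_I, Complex.exp_mul_I, Complex.cos_neg, Complex.sin_neg,
      Complex.ofReal_sin]
    ring
  rw [← h3, sub_mul, ← h1, ← h2]

omit [Fintype ι] [DecidableEq ι] in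
theorem tp_sn_ne {t : ι → ℝ} (w : Win t) (it : Function.Injective t) {i j : ι} (h : i ≠ j) :
    sn (t i - t j) ≠ 0 := by
  unfold sn
  have h1 := w i j
  have h2 := w j i
  intro h0
  have := (Real.sin_eq_zero_iff_of_lt_of_lt (by linarith) (by linarith)).1 h0
  exact h (it (by linarith))

omit [Fintype ι] [DecidableEq ι] in
theorem tp_inj {t : ι → ℝ} (w : Win t) (it : Function.Injective t) :
    Function.Injective fun j => ex (t j) := by
  intro i j h
  by_contra hij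
  have h1 := tp_ex_sub (t i) (t j)
  have h2 : ex (t i) - ex (t j) = 0 := sub_eq_zero.2 h
  rw [h2] at h1
  refine mul_ne_zero (mul_ne_zero (mul_ne_zero two_ne_zero Complex.I_ne_zero) ?_) (tp_ex_ne _) h1.symm
  exact_mod_cast tp_sn_ne w it hij

theorem tp_prod_sub {κ : Type} (s : Finset κ) (f : κ → ℝ) (x : ℝ) :
    ∏ k ∈ s, (ex x - ex (f k)) =
      (2 * Complex.I) ^ #s * ((∏ k ∈ s, sn (x - f k) : ℝ) : ℂ) *
        ex (#s * x / 2 + (∑ k ∈ s, f k) / 2) := by
  have h : (#s : ℝ) * x / 2 + (∑ k ∈ s, f k) / 2 = ∑ k ∈ s, (x + f k) / 2 := by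
    rw [← sum_div, sum_add_distrib, sum_const, nsmul_eq_mul]; ring
  rw [h, tp_ex_sum, Complex.ofReal_prod, ← prod_const, ← prod_mul_distrib, ← prod_mul_distrib]
  exact prod_congr rfl fun k _ => tp_ex_sub _ _

omit [Fintype ι] in
/-- the ratio of the two products, in the sine form -/
theorem tp_ratio {κ : Type} [Fintype κ] {t : ι → ℝ} (w : Win t) (it : Function.Injective t)
    (τ : κ → ℝ) (s : Finset ι) :
    ∃ C : ℂ, C ≠ 0 ∧ ∀ j ∈ s, (∏ k, (ex (t j) - ex (τ k))) / ∏ i ∈ s.erase j, (ex (t j) - ex (t i)) =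
      C * (((∏ k, sn (t j - τ k)) / ∏ i ∈ s.erase j, sn (t j - t i) : ℝ) : ℂ) *
        ex (((Fintype.card κ : ℝ) - #s + 2) / 2 * t j) := by
  have hI : (2 * Complex.I : ℂ) ≠ 0 := mul_ne_zero two_ne_zero Complex.I_ne_zero
  refine ⟨(2 * Complex.I) ^ (Fintype.card κ) / (2 * Complex.I) ^ (#s - 1) *
    ex ((∑ k, τ k) / 2 - (∑ i ∈ s, t i) / 2),
    mul_ne_zero (div_ne_zero (pow_ne_zero _ hI) (pow_ne_zero _ hI)) (tp_ex_ne _), fun j hj => ?_⟩
  rw [tp_prod_sub, tp_prod_sub, card_erase_of_mem hj, card_univ]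
  have h1 : 1 ≤ #s := card_pos.2 ⟨j, hj⟩
  have hs : ∑ i ∈ s.erase j, t i = ∑ i ∈ s, t i - t j := by
    rw [← add_sum_erase s t hj]; ring
  have he : ex ((Fintype.card κ : ℝ) * t j / 2 + (∑ k, τ k) / 2) =
      ex ((∑ k, τ k) / 2 - (∑ i ∈ s, t i) / 2) * ex (((Fintype.card κ : ℝ) - #s + 2) / 2 * t j) *
        ex (((#s - 1 : ℕ) : ℝ) * t j / 2 + (∑ i ∈ s.erase j, t i) / 2) := by
    rw [← tp_ex_add, ← tp_ex_add, hs, Nat.cast_sub h1]
    congr 1; push_cast; ring
  have hp : ((∏ i ∈ s.erase j, sn (t j - t i) : ℝ) : ℂ) ≠ 0 := by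
    exact_mod_cast prod_ne_zero_iff.2 fun i hi => tp_sn_ne w it (ne_of_mem_erase hi).symm
  have h2 := tp_ex_ne (((#s - 1 : ℕ) : ℝ) * t j / 2 + (∑ i ∈ s.erase j, t i) / 2)
  have h3 := pow_ne_zero (#s - 1) hI
  rw [he, Complex.ofReal_div]
  generalize ex (((#s - 1 : ℕ) : ℝ) * t j / 2 + (∑ i ∈ s.erase j, t i) / 2) = u at *
  field_simp

/-- the two top coefficients of a product with linear factors -/
theorem tp_coeff {κ : Type} (s : Finset κ) (a : κ → ℂ) {E : ℂ[X]} (hE : E.natDegree ≤ m) :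
    ((∏ k ∈ s, (X - C (a k))) * E).natDegree ≤ #s + m ∧
    ((∏ k ∈ s, (X - C (a k))) * E).coeff (#s + m) = E.coeff m ∧
    (X * ((∏ k ∈ s, (X - C (a k))) * E)).coeff (#s + m) =
      (X * E).coeff m - (∑ k ∈ s, a k) * E.coeff m := by
  classical
  induction s using Finset.induction_on with
  | empty => simpa using hE
  | insert b s hb ih =>
    obtain ⟨h1, h2, h3⟩ := ih
    rw [prod_insert hb, sum_insert hb, card_insert_of_notMem hb, mul_assoc]
    have e : #s + 1 + m = #s + m + 1 := by ring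
    rw [e]
    generalize (∏ k ∈ s, (X - C (a k))) * E = Q at *
    have h4 : Q.coeff (#s + m + 1) = 0 := coeff_eq_zero_of_natDegree_lt (by omega)
    refine ⟨?_, ?_, ?_⟩
    · refine natDegree_mul_le.trans ?_
      rw [natDegree_X_sub_C]; omega
    · rw [sub_mul, coeff_sub, coeff_X_mul, coeff_C_mul, h4, h2]; ring
    · rw [coeff_X_mul, sub_mul, coeff_sub, coeff_C_mul, h3, h2]; ring

/-- Lagrange sum of a polynomial whose degree is at most the number of nodes -/
theorem tp_lag {κ : Type} [DecidableEq κ] (s : Finset κ) {v : κ → ℂ} (hv : Set.InjOn v s) {Q : ℂ[X]}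
    (hQ : Q.natDegree ≤ #s) :
    ∑ j ∈ s, Q.eval (v j) / ∏ i ∈ s.erase j, (v j - v i) =
      (X * Q).coeff #s + Q.coeff #s * ∑ j ∈ s, v j := by
  rcases Nat.eq_zero_or_pos #s with h0 | h0
  · rw [h0, card_eq_zero.1 h0]; simp
  obtain ⟨n, hn⟩ : ∃ n, #s = n + 1 := ⟨#s - 1, by omega⟩
  obtain ⟨h1, h2, h3⟩ := tp_coeff (m := 0) s v (E := 1) (by simp)
  simp only [mul_one, add_zero, coeff_one_zero, coeff_X_zero, zero_sub] at h1 h2 h3
  have hP : ∀ j ∈ s, (∏ k ∈ s, (X - C (v k))).eval (v j) = 0 := fun j hj => by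
    rw [eval_prod]; exact prod_eq_zero hj (by simp)
  generalize (∏ k ∈ s, (X - C (v k))) = P at *
  have hd : (Q - C (Q.coeff #s) * P).degree < #s := by
    rw [degree_lt_iff_coeff_zero]
    intro k hk
    rw [coeff_sub, coeff_C_mul]
    rcases eq_or_lt_of_le hk with h | h
    · rw [← h, h2]; ring
    · rw [coeff_eq_zero_of_natDegree_lt (lt_of_le_of_lt hQ h),
        coeff_eq_zero_of_natDegree_lt (lt_of_le_of_lt h1 h)]; ring
  have h := Lagrange.coeff_eq_sum hv hd
  rw [hn, coeff_X_mul] at h3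
  rw [sum_congr rfl fun j hj => by rw [eval_sub, eval_mul, hP j hj, mul_zero, sub_zero]] at h
  rw [← h, coeff_sub, coeff_C_mul, hn, coeff_X_mul, Nat.add_sub_cancel, h3]
  ring

omit [DecidableEq ι] in
theorem tp_abs {t : ι → ℝ} {r : Fin m → ι → ℝ} (h : One t r) : ∑ q, |wt t r q| = |Zs t r| := by
  rcases h with h | h
  · rw [Zs, abs_of_nonneg (sum_nonneg fun q _ => h q)]
    exact sum_congr rfl fun q _ => abs_of_nonneg (h q)
  · rw [Zs, abs_of_nonpos (sum_nonpos fun q _ => h q), ← sum_neg_distrib]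
    exact sum_congr rfl fun q _ => abs_of_nonpos (h q)

theorem top {κ : Type} [Fintype κ] {t : ι → ℝ} (w : Win t) (it : Function.Injective t) {τ : κ → ℝ}
    (iτ : Function.Injective fun k => ex (τ k)) (hτt : ∀ k j, ex (τ k) ≠ ex (t j))
    (hc : Fintype.card κ + m + 3 = Fintype.card ι) {D : ι → ℂ} (h0 : ∑ j, D j = 0)
    (hg : ∑ j, D j * ex (-t j) = 0) (hτ : ∀ k, ∑ j, D j / (ex (τ k) - ex (t j)) = 0)
    {θ : Fin m → ι → ℝ} (hθ : ∀ B, ∑ j, (θ B j : ℂ) * D j = 0) (hZ : Zs t (row t τ θ ∅) ≠ 0) :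
    (∑ j, D j * ex (t j) ^ 2) * Zs t (row t τ θ ∅) =
      (∑ j, D j * ex (t j)) * ((∑ j, ex (t j) - ∑ k, ex (τ k)) * Zs t (row t τ θ ∅) -
        Ns t (row t τ θ ∅)) := by
  classical
  have ie := tp_inj w it
  have hne : ∀ j, ∏ i ∈ univ.erase j, (ex (t j) - ex (t i)) ≠ 0 := fun j =>
    prod_ne_zero_iff.2 fun i hi => sub_ne_zero.2 fun h => (ne_of_mem_erase hi) (ie h).symm
  set A : ℂ[X] := ∑ j, C (D j) * ∏ i ∈ univ.erase j, (X - C (ex (t i))) with hA
  have hAe : ∀ j, A.eval (ex (t j)) = D j * ∏ i ∈ univ.erase j, (ex (t j) - ex (t i)) := by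
    intro j
    rw [hA, eval_finsetSum, sum_eq_single j]
    · simp [eval_prod]
    · intro k _ hk
      rw [eval_mul, eval_prod, prod_eq_zero (i := j) (by simp [Ne.symm hk]) (by simp), mul_zero]
    · simp
  have hAz : ∀ z : ℂ, (∀ j, z ≠ ex (t j)) → ∑ j, D j / (z - ex (t j)) = 0 → A.eval z = 0 := by
    intro z hz h
    have : A.eval z = (∑ j, D j / (z - ex (t j))) * ∏ i, (z - ex (t i)) := by
      rw [hA, eval_finsetSum, sum_mul]
      refine sum_congr rfl fun j _ => ?_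
      have := sub_ne_zero.2 (hz j)
      rw [← mul_prod_erase univ (fun i => z - ex (t i)) (mem_univ j)]
      simp only [eval_mul, eval_C, eval_prod, eval_sub, eval_X]
      field_simp
    rw [this, h, zero_mul]
  have hAd : A.natDegree ≤ Fintype.card κ + m + 1 := by
    have hj : ∀ j : ι, #(univ.erase j) = Fintype.card κ + m + 2 := fun j => by
      rw [card_erase_of_mem (mem_univ j), card_univ]; omega
    rw [natDegree_le_iff_coeff_eq_zero]
    intro N hN
    rw [hA, finsetSum_coeff]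
    rcases eq_or_lt_of_le (Nat.succ_le_of_lt hN) with h | h
    · rw [← h0]
      refine sum_congr rfl fun j _ => ?_
      obtain ⟨-, h2, -⟩ := tp_coeff (m := 0) (univ.erase j) (fun i => ex (t i)) (E := 1) (by simp)
      simp only [mul_one, add_zero, coeff_one_zero, hj] at h2
      rw [coeff_C_mul, ← h, h2, mul_one]
    · refine sum_eq_zero fun j _ => ?_
      obtain ⟨h1, -, -⟩ := tp_coeff (m := 0) (univ.erase j) (fun i => ex (t i)) (E := 1) (by simp)
      simp only [mul_one, add_zero, hj] at h1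
      rw [coeff_C_mul, coeff_eq_zero_of_natDegree_lt (lt_of_le_of_lt h1 h), mul_zero]
  set T : ℂ[X] := ∏ k, (X - C (ex (τ k))) with hT
  have hTm : T.Monic := monic_prod_of_monic _ _ fun k _ => monic_X_sub_C _
  have hTd : T.natDegree = Fintype.card κ := by
    rw [hT, natDegree_prod_of_monic _ _ fun k _ => monic_X_sub_C _]; simp
  have hdv : X * T ∣ A := by
    refine IsCoprime.mul_dvd ?_ ?_ ?_
    · refine IsCoprime.prod_right fun k _ => ?_
      have := isCoprime_X_sub_C_of_isUnit_sub (a := (0 : ℂ)) (b := ex (τ k))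
        (isUnit_iff_ne_zero.2 (by simpa using tp_ex_ne _))
      simpa using this
    · rw [X_dvd_iff, coeff_zero_eq_eval_zero]
      refine hAz 0 (fun j => (tp_ex_ne _).symm) ?_
      rw [← neg_eq_zero, ← sum_neg_distrib]
      refine Eq.trans (sum_congr rfl fun j _ => ?_) hg
      rw [tp_ex_neg, zero_sub, div_neg, neg_neg, div_eq_mul_inv]
    · refine Finset.prod_dvd_of_coprime (fun k _ l _ hkl => ?_) fun k _ => ?_
      · exact isCoprime_X_sub_C_of_isUnit_sub (isUnit_iff_ne_zero.2 (sub_ne_zero.2 fun h => hkl (iτ h)))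
      · exact dvd_iff_isRoot.2 (hAz _ (hτt k) (hτ k))
  obtain ⟨E, hE⟩ := hdv
  have hEd : E.natDegree ≤ m := by
    rcases eq_or_ne E 0 with h | h
    · simp [h]
    · have h1 := (monic_X.mul hTm).natDegree_mul' h
      rw [← hE, monic_X.natDegree_mul hTm, natDegree_X, hTd] at h1
      omega
  obtain ⟨Cc, hC, hrat⟩ := tp_ratio w it τ univ
  have hD : ∀ j, D j = Cc * (rho t τ j * ex (-((m : ℝ) - 1) / 2 * t j) * E.eval (ex (t j))) := by
    intro j
    have h1 := hAe j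
    have h2 := hrat j (mem_univ j)
    have h3 : ex (-((m : ℝ) - 1) / 2 * t j) =
        ex (t j) * ex (((Fintype.card κ : ℝ) - #(univ : Finset ι) + 2) / 2 * t j) := by
      rw [← tp_ex_add, card_univ, ← hc]; congr 1; push_cast; ring
    rw [hE, eval_mul, eval_mul, eval_X, hT, eval_prod] at h1
    simp only [eval_sub, eval_X, eval_C] at h1
    rw [div_eq_iff (hne j)] at h2
    refine mul_right_cancel₀ (hne j) ?_
    rw [← h1, h2, h3, rho]; ring
  have hK : Kill t (row t τ θ ∅) E := by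
    intro B
    refine mul_left_cancel₀ hC ?_
    rw [mul_zero, ← hθ B, mul_sum]
    refine sum_congr rfl fun j _ => ?_
    rw [hD j, row, prod_empty]; push_cast; ring
  obtain ⟨k1, k2⟩ := kill_uniq hZ hEd hK
  obtain ⟨c1, c2, c3⟩ := tp_coeff univ (fun k => ex (τ k)) hEd
  rw [← hT, card_univ] at c1 c2 c3
  have hN : #(univ : Finset ι) = Fintype.card κ + m + 1 + 1 + 1 := by rw [card_univ]; omega
  have hQ2 : (X * (X * A)).natDegree ≤ #(univ : Finset ι) := by
    refine natDegree_mul_le.trans ?_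
    have := natDegree_mul_le (p := (X : ℂ[X])) (q := A)
    rw [natDegree_X] at *; omega
  have hQ1 : (X * A).natDegree ≤ Fintype.card κ + m + 1 + 1 := by
    have := natDegree_mul_le (p := (X : ℂ[X])) (q := A)
    rw [natDegree_X] at *; omega
  have m1 := tp_lag univ (v := fun j => ex (t j)) ie.injOn (Q := X * A) (by omega)
  have m2 := tp_lag univ (v := fun j => ex (t j)) ie.injOn hQ2
  have e2 : (X * A).coeff (Fintype.card κ + m + 1) = (X * (T * E)).coeff (Fintype.card κ + m) := by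
    rw [coeff_X_mul, hE, mul_assoc]
  have e3 : A.coeff (Fintype.card κ + m + 1) = E.coeff m := by
    rw [hE, mul_assoc, coeff_X_mul, c2]
  rw [hN, coeff_eq_zero_of_natDegree_lt (p := X * A) (by omega), zero_mul, add_zero, coeff_X_mul,
    coeff_X_mul, e3] at m1
  rw [hN, coeff_X_mul, coeff_X_mul, e2, c3, coeff_X_mul, coeff_X_mul, e3] at m2
  have s1 : ∑ j, D j * ex (t j) = E.coeff m := by
    rw [← m1]
    refine sum_congr rfl fun j _ => ?_
    have := hne j
    rw [eval_mul, eval_X, hAe]; field_simp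
  have s2 : ∑ j, D j * ex (t j) ^ 2 = (X * E).coeff m - (∑ k, ex (τ k)) * E.coeff m +
      E.coeff m * ∑ j, ex (t j) := by
    rw [← m2]
    refine sum_congr rfl fun j _ => ?_
    have := hne j
    rw [eval_mul, eval_mul, eval_X, hAe]; field_simp
  have k3 : (X * E).coeff m * Zs t (row t τ θ ∅) = -(E.coeff m * Ns t (row t τ θ ∅)) := by
    rcases Nat.eq_zero_or_pos m with h | h
    · rw [k1 h]; subst h; simp
    · obtain ⟨n, hn⟩ : ∃ n, m = n + 1 := ⟨m - 1, by omega⟩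
      rw [← k2 n hn]; subst hn; rw [coeff_X_mul]
  rw [s1, s2]
  linear_combination k3

theorem bot {κ : Type} [Fintype κ] {t : ι → ℝ} (w : Win t) (it : Function.Injective t) {τ : κ → ℝ}
    (hc : Fintype.card κ + m + 3 = Fintype.card ι) {θ : Fin m → ι → ℝ} {J : Finset ι} (hJ : #J = 3)
    {r₀ : ι → ℝ} {c : ℝ}
    (hr : ∀ j, (1 - ∑ B, θ B j) * rho t τ j * ∏ y ∈ J, sn (t j - t y) = c * r₀ j)
    (h : One t (Fin.cons r₀ (row t τ θ J) : Fin (m + 1) → ι → ℝ)) :
    ‖(∑ j ∈ Jᶜ, ex (t j) - ∑ k, ex (τ k)) *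
        Zs t (Fin.cons r₀ (row t τ θ J) : Fin (m + 1) → ι → ℝ) -
      Ns t (Fin.cons r₀ (row t τ θ J) : Fin (m + 1) → ι → ℝ)‖ ≤
      |Zs t (Fin.cons r₀ (row t τ θ J) : Fin (m + 1) → ι → ℝ)| := by
  classical
  have ie := tp_inj w it
  have habs := tp_abs h
  obtain ⟨E, hEd, hK, e1, e2, e0⟩ :=
    kill_ex t (Fin.cons r₀ (row t τ θ J) : Fin (m + 1) → ι → ℝ)
  replace e2 := e2 m rfl
  have hsum : ∑ j, ((rho t τ j * ∏ y ∈ J, sn (t j - t y) : ℝ) : ℂ) *
      ex (-(((m + 1 : ℕ) : ℝ) - 1) / 2 * t j) * E.eval (ex (t j)) = 0 := by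
    have k0 := hK 0
    have kB : ∑ B : Fin m, ∑ j, ((row t τ θ J B j : ℝ) : ℂ) *
        ex (-(((m + 1 : ℕ) : ℝ) - 1) / 2 * t j) * E.eval (ex (t j)) = 0 :=
      sum_eq_zero fun B _ => by simpa using hK B.succ
    simp only [Fin.cons_zero] at k0
    have : ∀ j, rho t τ j * ∏ y ∈ J, sn (t j - t y) = c * r₀ j + ∑ B, row t τ θ J B j := by
      intro j
      rw [← hr j]
      simp only [row]
      rw [← sum_mul, ← sum_mul]; ring
    rw [sum_comm] at kB
    have h2 := congrArg ((c : ℂ) * ·) k0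
    simp only [mul_zero, mul_sum] at h2
    rw [← add_zero (0 : ℂ)]
    nth_rewrite 2 [← h2]
    rw [← kB, ← sum_add_distrib]
    refine sum_congr rfl fun j _ => ?_
    rw [this j, ← sum_mul, ← sum_mul]; push_cast; ring
  have hP : ‖Ps t (Fin.cons r₀ (row t τ θ J) : Fin (m + 1) → ι → ℝ)‖ ≤
      |Zs t (Fin.cons r₀ (row t τ θ J) : Fin (m + 1) → ι → ℝ)| := by
    rw [← habs, Ps]
    refine (norm_sum_le _ _).trans (le_of_eq (sum_congr rfl fun q _ => ?_))
    rw [norm_mul, norm_prod, Complex.norm_real, Real.norm_eq_abs]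
    simp [tp_ex_norm]
  generalize Zs t (Fin.cons r₀ (row t τ θ J) : Fin (m + 1) → ι → ℝ) = Z at *
  generalize Ns t (Fin.cons r₀ (row t τ θ J) : Fin (m + 1) → ι → ℝ) = N at *
  generalize Ps t (Fin.cons r₀ (row t τ θ J) : Fin (m + 1) → ι → ℝ) = P0 at *
  have hn : #Jᶜ = Fintype.card κ + m := by rw [card_compl]; omega
  obtain ⟨c1, c2, c3⟩ := tp_coeff univ (fun k => ex (τ k)) hEd
  rw [card_univ, coeff_X_mul, e1, e2] at c3
  rw [card_univ, e1] at c2
  rw [card_univ] at c1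
  obtain ⟨p1, p2, -⟩ := tp_coeff (m := 0) Jᶜ (fun i => ex (t i)) (E := 1) (by simp)
  simp only [mul_one, add_zero, coeff_one_zero] at p1 p2
  have hPz : ∀ j ∈ Jᶜ, (∏ k ∈ Jᶜ, (X - C (ex (t k)))).eval (ex (t j)) = 0 := fun j hj => by
    rw [eval_prod]; exact prod_eq_zero hj (by simp)
  have hP0 : ‖(∏ k ∈ Jᶜ, (X - C (ex (t k))) : ℂ[X]).eval 0‖ = 1 := by
    rw [eval_prod, norm_prod]; simp [tp_ex_norm]
  have hQ0 : ‖((∏ k, (X - C (ex (τ k))) : ℂ[X]) * E).eval 0‖ = ‖P0‖ := by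
    rw [eval_mul, eval_prod, norm_mul, norm_prod, ← coeff_zero_eq_eval_zero, e0]
    simp [tp_ex_norm]
  have hQe : ∀ z, ((∏ k, (X - C (ex (τ k))) : ℂ[X]) * E).eval z = (∏ k, (z - ex (τ k))) * E.eval z := by
    intro z; simp [eval_prod]
  generalize (∏ k ∈ Jᶜ, (X - C (ex (t k))) : ℂ[X]) = P at *
  generalize (∏ k, (X - C (ex (τ k))) : ℂ[X]) * E = Q at *
  have hP1 : P.eval 0 ≠ 0 := fun h0 => by simp [h0] at hP0
  obtain ⟨R, hR⟩ : X ∣ Q - C (Q.eval 0 / P.eval 0) * P := by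
    rw [X_dvd_iff, coeff_zero_eq_eval_zero, eval_sub, eval_mul, eval_C]; field_simp; ring
  have hRc : R.coeff (Fintype.card κ + m) = Z := by
    rw [← coeff_X_mul, ← hR, coeff_sub, coeff_C_mul, add_assoc, c2,
      coeff_eq_zero_of_natDegree_lt (p := P) (by omega)]; ring
  have hRd : R.natDegree ≤ #Jᶜ := by
    rw [natDegree_le_iff_coeff_eq_zero]
    intro k hk
    rw [← coeff_X_mul, ← hR, coeff_sub, coeff_C_mul, coeff_eq_zero_of_natDegree_lt (p := P) (by omega),
      coeff_eq_zero_of_natDegree_lt (p := Q) (by omega)]; ring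
  have hl := tp_lag Jᶜ (v := fun j => ex (t j)) ie.injOn hRd
  rw [← add_assoc, coeff_X_mul] at c3
  rw [← hR, coeff_sub, coeff_C_mul, p2, hn, c3, hRc] at hl
  obtain ⟨Cc, hC, hrat⟩ := tp_ratio w it τ Jᶜ
  have hz : ∑ j ∈ Jᶜ, R.eval (ex (t j)) / ∏ i ∈ Jᶜ.erase j, (ex (t j) - ex (t i)) = 0 := by
    rw [← mul_zero Cc, ← hsum, ← sum_add_sum_compl J, sum_eq_zero (s := J), zero_add, mul_sum]
    · refine sum_congr rfl fun j hj => ?_
      have h1 := congrArg (eval (ex (t j))) hR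
      rw [eval_sub, eval_mul, hPz j hj, mul_zero, sub_zero, eval_mul, eval_X, hQe] at h1
      have h3 : ex (((Fintype.card κ : ℝ) - #Jᶜ + 2) / 2 * t j) =
          ex (t j) * ex (-(((m + 1 : ℕ) : ℝ) - 1) / 2 * t j) := by
        rw [← tp_ex_add, hn]; congr 1; push_cast; ring
      have h4 : rho t τ j * ∏ y ∈ J, sn (t j - t y) =
          (∏ k, sn (t j - τ k)) / ∏ i ∈ Jᶜ.erase j, sn (t j - t i) := by
        have hu : univ.erase j = J ∪ Jᶜ.erase j := by
          ext i; have := mem_compl.1 hj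
          simp only [mem_erase, mem_univ, mem_union, mem_compl]
          constructor
          · intro h; tauto
          · rintro (h | h)
            · exact ⟨fun e => this (e ▸ h), trivial⟩
            · exact ⟨h.1, trivial⟩
        have hd : Disjoint J (Jᶜ.erase j) := disjoint_compl_right.mono_right (erase_subset _ _)
        have h5 : ∏ y ∈ J, sn (t j - t y) ≠ 0 :=
          prod_ne_zero_iff.2 fun i hi => tp_sn_ne w it fun e => mem_compl.1 hj (e ▸ hi)
        rw [rho, hu, prod_union hd]; field_simp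
      have h2 := hrat j hj
      rw [h3, ← h4] at h2
      refine mul_left_cancel₀ (tp_ex_ne (t j)) ?_
      rw [← mul_div_assoc, ← h1, mul_div_right_comm, h2]; ring
    · intro j hj
      rw [prod_eq_zero hj (by simp [sn])]; simp
  rw [hz] at hl
  have : (∑ j ∈ Jᶜ, ex (t j) - ∑ k, ex (τ k)) * (Z : ℂ) - N = Q.eval 0 / P.eval 0 := by
    linear_combination -hl
  rw [this, norm_div, hP0, hQ0, div_one]
  exact hP

end Pool.Agent.Lib.MP_9dc04a_an.A2
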