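import Pool.Agent.Lib.MP_9dc04a_an.A2Dbl
import Pool.Agent.Lib.MP_9dc04a_an.A2Step
import Pool.Agent.Lib.MP_9dc04a_an.A2Top

set_option autoImplicit false

namespace Pool.Agent.Lib.MP_9dc04a_an.A2

open Finset

variable {ι : Type} [Fintype ι] [DecidableEq ι] {m : ℕ}

omit [Fintype ι] [DecidableEq ι] in
theorem wt_mul_sn (t : ι → ℝ) (r : Fin m → ι → ℝ) (y : ι) (q : Fin m → ι) :
    wt t (fun B j => r B j * sn (t j - t y)) q = (∏ k, sn (t (q k) - t y)) * wt t r q := by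
  simp only [wt, prod_mul_distrib]
  ring

omit [DecidableEq ι] in
theorem sum_cons_choice {M : Type} [AddCommMonoid M] (f : (Fin (m + 1) → ι) → M) :
    ∑ q, f q = ∑ y, ∑ q : Fin m → ι, f (Fin.cons y q) := by
  rw [← Fintype.sum_prod_type']
  exact (Fintype.sum_equiv (Fin.consEquiv fun _ => ι) _ _ fun x => rfl).symm

theorem wt_pt (t : ι → ℝ) (r : Fin m → ι → ℝ) (y z : ι) (q : Fin m → ι) :
    wt t (Fin.cons (Pi.single y 1) r : Fin (m + 1) → ι → ℝ) (Fin.cons z q) =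
      if z = y then wt t (fun B j => r B j * sn (t j - t y)) q else 0 := by
  rw [wt_cons, wt_mul_sn]
  by_cases h : z = y
  · subst h
    simp
  · simp [h]

theorem step_pt {t : ι → ℝ} (w : Win t) (r : Fin m → ι → ℝ) (y : ι) (h0 : One t r)
    (h1 : One t fun B j => r B j * sn (t j - t y)) :
    ‖(Zs t r : ℂ) * (Ns t (fun B j => r B j * sn (t j - t y)) +
        ex (t y) * Zs t fun B j => r B j * sn (t j - t y)) -
      (Zs t fun B j => r B j * sn (t j - t y)) * Ns t r‖ ≤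
      |Zs t fun B j => r B j * sn (t j - t y)| * |Zs t r| := by
  have hw : ∀ q : Fin (m + 1) → ι, wt t (Fin.cons (Pi.single y 1) r : Fin (m + 1) → ι → ℝ) q =
      if q 0 = y then wt t (fun B j => r B j * sn (t j - t y)) (Fin.tail q) else 0 := by
    intro q
    conv_lhs => rw [← Fin.cons_self_tail q]
    exact wt_pt t r y (q 0) (Fin.tail q)
  have o1 : One t (Fin.cons (Pi.single y 1) r : Fin (m + 1) → ι → ℝ) := by
    rcases h1 with h | h
    · refine Or.inl fun q => ?_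
      rw [hw]
      split_ifs
      · exact h _
      · exact le_rfl
    · refine Or.inr fun q => ?_
      rw [hw]
      split_ifs
      · exact h _
      · exact le_rfl
  have hZ : Zs t (Fin.cons (Pi.single y 1) r : Fin (m + 1) → ι → ℝ) =
      Zs t fun B j => r B j * sn (t j - t y) := by
    unfold Zs
    rw [sum_cons_choice, Finset.sum_eq_single y]
    · exact Finset.sum_congr rfl fun q _ => by rw [wt_pt, if_pos rfl]
    · intro z _ hz
      exact Finset.sum_eq_zero fun q _ => by rw [wt_pt, if_neg hz]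
    · intro h
      exact absurd (mem_univ y) h
  have hN : Ns t (Fin.cons (Pi.single y 1) r : Fin (m + 1) → ι → ℝ) =
      Ns t (fun B j => r B j * sn (t j - t y)) +
        ex (t y) * Zs t fun B j => r B j * sn (t j - t y) := by
    unfold Ns Zs
    rw [sum_cons_choice, Finset.sum_eq_single y]
    · rw [Complex.ofReal_sum, Finset.mul_sum, ← Finset.sum_add_distrib]
      refine Finset.sum_congr rfl fun q _ => ?_
      rw [wt_pt, if_pos rfl, Fin.sum_univ_succ]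
      simp only [Fin.cons_zero, Fin.cons_succ]
      ring
    · intro z _ hz
      exact Finset.sum_eq_zero fun q _ => by rw [wt_pt, if_neg hz]; simp
    · intro h
      exact absurd (mem_univ y) h
  have := step w (Fin.cons (Pi.single y 1) r : Fin (m + 1) → ι → ℝ) o1 (by simpa using h0)
  rw [hZ, hN, Fin.tail_cons] at this
  exact this

theorem quot_le {Z Z' : ℝ} {N N' e : ℂ} (hZ : Z ≠ 0) (hZ' : Z' ≠ 0)
    (h : ‖(Z : ℂ) * (N' + e * Z') - Z' * N‖ ≤ |Z'| * |Z|) : ‖N' / Z' + e - N / Z‖ ≤ 1 := by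
  have a : (Z : ℂ) ≠ 0 := Complex.ofReal_ne_zero.mpr hZ
  have b : (Z' : ℂ) ≠ 0 := Complex.ofReal_ne_zero.mpr hZ'
  have e1 : N' / Z' + e - N / Z = ((Z : ℂ) * (N' + e * Z') - Z' * N) / (Z' * Z) := by
    field_simp
  rw [e1, norm_div, norm_mul, Complex.norm_real, Complex.norm_real, Real.norm_eq_abs,
    Real.norm_eq_abs]
  exact div_le_one_of_le₀ h (by positivity)

omit [Fintype ι] in
theorem row_insert {κ : Type} [Fintype κ] [Fintype ι] (t : ι → ℝ) (τ : κ → ℝ) (θ : Fin m → ι → ℝ)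
    {J : Finset ι} {y : ι} (hy : y ∉ J) :
    row t τ θ (insert y J) = fun B j => row t τ θ J B j * sn (t j - t y) := by
  funext B j
  simp only [row, prod_insert hy]
  ring

theorem core {κ : Type} [Fintype κ] {t : ι → ℝ} (w : Win t) (it : Function.Injective t) {τ : κ → ℝ}
    (iτ : Function.Injective fun k => ex (τ k)) (hτt : ∀ k j, ex (τ k) ≠ ex (t j))
    (hc : Fintype.card κ + m + 3 = Fintype.card ι) {D : ι → ℂ} (h0 : ∑ j, D j = 0)
    (hg : ∑ j, D j * ex (-t j) = 0) (hτ : ∀ k, ∑ j, D j / (ex (τ k) - ex (t j)) = 0)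
    {θ : Fin m → ι → ℝ} (hθ : ∀ B, ∑ j, (θ B j : ℂ) * D j = 0)
    {y₁ y₂ y₃ : ι} (n12 : y₁ ≠ y₂) (n13 : y₁ ≠ y₃) (n23 : y₂ ≠ y₃) {r₀ : ι → ℝ} {c : ℝ}
    (hr : ∀ j, (1 - ∑ B, θ B j) * rho t τ j * ∏ y ∈ ({y₁, y₂, y₃} : Finset ι), sn (t j - t y) = c * r₀ j)
    (s0 : One t (row t τ θ ∅)) (s1 : One t (row t τ θ {y₁})) (s2 : One t (row t τ θ {y₁, y₂}))
    (s3 : One t (row t τ θ {y₁, y₂, y₃}))
    (s4 : One t (Fin.cons r₀ (row t τ θ {y₁, y₂, y₃}) : Fin (m + 1) → ι → ℝ))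
    (nz : ∃ q, wt t (Fin.cons r₀ (row t τ θ {y₁, y₂, y₃}) : Fin (m + 1) → ι → ℝ) q ≠ 0) :
    ‖∑ j, D j * ex (t j) ^ 2‖ ≤ 5 * ‖∑ j, D j * ex (t j)‖ := by
  have e1 : row t τ θ {y₁} = fun B j => row t τ θ ∅ B j * sn (t j - t y₁) := by
    rw [← row_insert t τ θ (notMem_empty y₁)]
    rfl
  have e2 : row t τ θ {y₁, y₂} = fun B j => row t τ θ {y₁} B j * sn (t j - t y₂) := by
    rw [← row_insert t τ θ (by simpa using n12.symm), pair_comm]
  have e3 : row t τ θ {y₁, y₂, y₃} = fun B j => row t τ θ {y₁, y₂} B j * sn (t j - t y₃) := by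
    rw [← row_insert t τ θ (by simp [n13.symm, n23.symm])]
    congr 1
    ext x
    simp only [mem_insert, mem_singleton]
    tauto
  have Z4 := s4.zs_ne.mpr nz
  obtain ⟨q, hq⟩ := nz
  rw [← Fin.cons_self_tail q, wt_cons] at hq
  have q3 := right_ne_zero_of_mul hq
  have q2 : wt t (row t τ θ {y₁, y₂}) (Fin.tail q) ≠ 0 := by
    rw [e3, wt_mul_sn] at q3
    exact right_ne_zero_of_mul q3
  have q1 : wt t (row t τ θ {y₁}) (Fin.tail q) ≠ 0 := by
    rw [e2, wt_mul_sn] at q2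
    exact right_ne_zero_of_mul q2
  have q0 : wt t (row t τ θ ∅) (Fin.tail q) ≠ 0 := by
    rw [e1, wt_mul_sn] at q1
    exact right_ne_zero_of_mul q1
  have Z3 := s3.zs_ne.mpr ⟨_, q3⟩
  have Z2 := s2.zs_ne.mpr ⟨_, q2⟩
  have Z1 := s1.zs_ne.mpr ⟨_, q1⟩
  have Z0 := s0.zs_ne.mpr ⟨_, q0⟩
  have p1 := step_pt w (row t τ θ ∅) y₁ s0 (e1 ▸ s1)
  have p2 := step_pt w (row t τ θ {y₁}) y₂ s1 (e2 ▸ s2)
  have p3 := step_pt w (row t τ θ {y₁, y₂}) y₃ s2 (e3 ▸ s3)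
  rw [← e1] at p1
  rw [← e2] at p2
  rw [← e3] at p3
  have p4 := step w (Fin.cons r₀ (row t τ θ {y₁, y₂, y₃}) : Fin (m + 1) → ι → ℝ) s4
    (by simpa using s3)
  rw [Fin.tail_cons] at p4
  have hJ : #({y₁, y₂, y₃} : Finset ι) = 3 := card_eq_three.mpr ⟨y₁, y₂, y₃, n12, n13, n23, rfl⟩
  have p5 := bot w it hc hJ hr s4
  have p0 := top w it iτ hτt hc h0 hg hτ hθ Z0
  have b1 := quot_le Z0 Z1 p1
  have b2 := quot_le Z1 Z2 p2
  have b3 := quot_le Z2 Z3 p3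
  have b4 := quot_le (e := 0) Z3 Z4 (by simpa using p4)
  have hs : ∑ j, ex (t j) = ∑ j ∈ ({y₁, y₂, y₃} : Finset ι)ᶜ, ex (t j) +
      (ex (t y₁) + (ex (t y₂) + ex (t y₃))) := by
    rw [← sum_compl_add_sum ({y₁, y₂, y₃} : Finset ι), sum_insert (by simp [n12, n13]),
      sum_pair n23]
  generalize Zs t (Fin.cons r₀ (row t τ θ {y₁, y₂, y₃}) : Fin (m + 1) → ι → ℝ) = z4 at *
  generalize Ns t (Fin.cons r₀ (row t τ θ {y₁, y₂, y₃}) : Fin (m + 1) → ι → ℝ) = n4 at *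
  generalize Ns t (row t τ θ {y₁, y₂, y₃}) / (Zs t (row t τ θ {y₁, y₂, y₃}) : ℂ) = x3 at *
  generalize Ns t (row t τ θ {y₁, y₂}) / (Zs t (row t τ θ {y₁, y₂}) : ℂ) = x2 at *
  generalize Ns t (row t τ θ {y₁}) / (Zs t (row t τ θ {y₁}) : ℂ) = x1 at *
  generalize Zs t (row t τ θ ∅) = z0 at *
  generalize Ns t (row t τ θ ∅) = n0 at *
  generalize ∑ j ∈ ({y₁, y₂, y₃} : Finset ι)ᶜ, ex (t j) = sc at *
  generalize ∑ k, ex (τ k) = st at *
  have a0 : (z0 : ℂ) ≠ 0 := Complex.ofReal_ne_zero.mpr Z0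
  have a4 : (z4 : ℂ) ≠ 0 := Complex.ofReal_ne_zero.mpr Z4
  have b5 : ‖sc - st - n4 / z4‖ ≤ 1 := by
    have : sc - st - n4 / z4 = ((sc - st) * z4 - n4) / z4 := by field_simp
    rw [this, norm_div, Complex.norm_real, Real.norm_eq_abs]
    exact div_le_one_of_le₀ p5 (abs_nonneg _)
  have key : ∑ j, D j * ex (t j) ^ 2 = (∑ j, D j * ex (t j)) *
      ((sc - st - n4 / z4) + (n4 / z4 + 0 - x3) + (x3 + ex (t y₃) - x2) + (x2 + ex (t y₂) - x1) +
        (x1 + ex (t y₁) - n0 / z0)) := by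
    apply mul_right_cancel₀ a0
    rw [p0, hs]
    field_simp
    ring
  rw [key, norm_mul, mul_comm]
  refine mul_le_mul_of_nonneg_right ?_ (norm_nonneg _)
  have c1 := norm_add_le ((sc - st - n4 / z4) + (n4 / z4 + 0 - x3) + (x3 + ex (t y₃) - x2) +
    (x2 + ex (t y₂) - x1)) (x1 + ex (t y₁) - n0 / z0)
  have c2 := norm_add_le ((sc - st - n4 / z4) + (n4 / z4 + 0 - x3) + (x3 + ex (t y₃) - x2))
    (x2 + ex (t y₂) - x1)
  have c3 := norm_add_le ((sc - st - n4 / z4) + (n4 / z4 + 0 - x3)) (x3 + ex (t y₃) - x2)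
  have c4 := norm_add_le (sc - st - n4 / z4) (n4 / z4 + 0 - x3)
  linarith

end Pool.Agent.Lib.MP_9dc04a_an.A2
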