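import Pool.Agent.Lib.MP_9dc04a_an.A2CoreP

set_option autoImplicit false
set_option linter.unusedSectionVars false

namespace Pool.Agent.Lib.MP_9dc04a_an.A2

open Finset

variable {ι : Type} [Fintype ι] [DecidableEq ι] {m : ℕ}

noncomputable def rw3 {κ : Type} [Fintype κ] (t : ι → ℝ) (τ : κ → ℝ) (θ : Fin m → ι → ℝ) (y : Fin 3 → ℝ)
    (J : Finset (Fin 3)) (B : Fin m) (j : ι) : ℝ :=
  θ B j * (rho t τ j * ∏ i ∈ J, sn (t j - y i))

open Polynomial in
/-- bottom level with an exact ones row -/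
theorem r1_bot {κ : Type} [Fintype κ] {t : ι → ℝ} (w : Win t) (it : Function.Injective t) {τ : κ → ℝ}
    (hn : #(univ : Finset ι) = Fintype.card κ + m) {r : Fin (m + 1) → ι → ℝ}
    (hr : ∀ j, r 0 j = -rho t τ j) (h : Pos t r) :
    ‖(∑ j, ex (t j) - ∑ k, ex (τ k)) * Zs t r - Ns t r‖ ≤ |Zs t r| := by
  classical
  have ie := tp_inj w it
  obtain ⟨E, hEd, hK, e1, e2, e0⟩ := kill_ex t r
  replace e2 := e2 m rfl
  have hsum : ∑ j, ((rho t τ j : ℝ) : ℂ) *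
      ex (-(((m + 1 : ℕ) : ℝ) - 1) / 2 * t j) * E.eval (ex (t j)) = 0 := by
    rw [← neg_zero, ← hK 0, ← sum_neg_distrib]
    refine sum_congr rfl fun j _ => ?_
    rw [hr j]; push_cast; ring
  have hP : ‖Ps t r‖ ≤ |Zs t r| := by
    have b := h.bound (G := fun q => ∏ j, ex (t (q j))) (F := fun _ => 1)
      (fun s q => Equiv.prod_comp s fun k => ex (t (q k))) (fun _ _ => rfl) fun q => by
        simp [norm_prod, tp_ex_norm]
    simpa only [mul_one, Ps, Zs] using b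
  generalize Zs t r = Z at *
  generalize Ns t r = N at *
  generalize Ps t r = P0 at *
  obtain ⟨c1, c2, c3⟩ := tp_coeff univ (fun k => ex (τ k)) hEd
  rw [card_univ, coeff_X_mul, e1, e2] at c3
  rw [card_univ, e1] at c2
  rw [card_univ] at c1
  obtain ⟨p1, p2, -⟩ := tp_coeff (m := 0) (univ : Finset ι) (fun i => ex (t i)) (E := 1) (by simp)
  simp only [mul_one, add_zero, coeff_one_zero] at p1 p2
  have hPz : ∀ j ∈ (univ : Finset ι), (∏ k ∈ (univ : Finset ι), (X - C (ex (t k)))).eval (ex (t j)) = 0 := fun j hj => by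
    rw [eval_prod]; exact prod_eq_zero hj (by simp)
  have hP0 : ‖(∏ k ∈ (univ : Finset ι), (X - C (ex (t k))) : ℂ[X]).eval 0‖ = 1 := by
    rw [eval_prod, norm_prod]; simp [tp_ex_norm]
  have hQ0 : ‖((∏ k, (X - C (ex (τ k))) : ℂ[X]) * E).eval 0‖ = ‖P0‖ := by
    rw [eval_mul, eval_prod, norm_mul, norm_prod, ← coeff_zero_eq_eval_zero, e0]
    simp [tp_ex_norm]
  have hQe : ∀ z, ((∏ k, (X - C (ex (τ k))) : ℂ[X]) * E).eval z = (∏ k, (z - ex (τ k))) * E.eval z := by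
    intro z; simp [eval_prod]
  generalize (∏ k ∈ (univ : Finset ι), (X - C (ex (t k))) : ℂ[X]) = P at *
  generalize (∏ k, (X - C (ex (τ k))) : ℂ[X]) * E = Q at *
  have hP1 : P.eval 0 ≠ 0 := fun h0 => by simp [h0] at hP0
  obtain ⟨R, hR⟩ : X ∣ Q - C (Q.eval 0 / P.eval 0) * P := by
    rw [X_dvd_iff, coeff_zero_eq_eval_zero, eval_sub, eval_mul, eval_C]; field_simp; ring
  have hRc : R.coeff (Fintype.card κ + m) = Z := by
    rw [← coeff_X_mul, ← hR, coeff_sub, coeff_C_mul, add_assoc, c2,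
      coeff_eq_zero_of_natDegree_lt (p := P) (by omega)]; ring
  have hRd : R.natDegree ≤ #(univ : Finset ι) := by
    rw [natDegree_le_iff_coeff_eq_zero]
    intro k hk
    rw [← coeff_X_mul, ← hR, coeff_sub, coeff_C_mul, coeff_eq_zero_of_natDegree_lt (p := P) (by omega),
      coeff_eq_zero_of_natDegree_lt (p := Q) (by omega)]; ring
  have hl := tp_lag (univ : Finset ι) (v := fun j => ex (t j)) ie.injOn hRd
  rw [← add_assoc, coeff_X_mul] at c3
  rw [← hR, coeff_sub, coeff_C_mul, p2, hn, c3, hRc] at hl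
  obtain ⟨Cc, hC, hrat⟩ := tp_ratio w it τ (univ : Finset ι)
  have hz : ∑ j ∈ (univ : Finset ι), R.eval (ex (t j)) / ∏ i ∈ (univ : Finset ι).erase j, (ex (t j) - ex (t i)) = 0 := by
    rw [← mul_zero Cc, ← hsum, mul_sum]
    refine sum_congr rfl fun j hj => ?_
    have h1 := congrArg (eval (ex (t j))) hR
    rw [eval_sub, eval_mul, hPz j hj, mul_zero, sub_zero, eval_mul, eval_X, hQe] at h1
    have h3 : ex (((Fintype.card κ : ℝ) - #(univ : Finset ι) + 2) / 2 * t j) =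
        ex (t j) * ex (-(((m + 1 : ℕ) : ℝ) - 1) / 2 * t j) := by
      rw [← tp_ex_add, hn]; congr 1; push_cast; ring
    have h2 := hrat j hj
    rw [h3] at h2
    refine mul_left_cancel₀ (tp_ex_ne (t j)) ?_
    rw [← mul_div_assoc, ← h1, mul_div_right_comm, h2, rho]; ring
  rw [hz] at hl
  have : (∑ j ∈ (univ : Finset ι), ex (t j) - ∑ k, ex (τ k)) * (Z : ℂ) - N = Q.eval 0 / P.eval 0 := by
    linear_combination -hl
  rw [this, norm_div, hP0, hQ0, div_one]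
  exact hP

/-- rows extended by zero -/
def r1_ext (r : Fin m → ι → ℝ) (B : Fin m) : ι ⊕ Fin 3 → ℝ := Sum.elim (r B) 0

theorem r1_sum {R : Type} [CommRing R] [Algebra ℝ R] (t : ι → ℝ) (y : Fin 3 → ℝ) (r : Fin m → ι → ℝ)
    (F : (Fin m → ι ⊕ Fin 3) → R) :
    ∑ q, algebraMap ℝ R (wt (Sum.elim t y) (r1_ext r) q) * F q =
      ∑ q, algebraMap ℝ R (wt t r q) * F (Sum.inl ∘ q) := by
  symm
  refine sum_of_injOn (fun q : Fin m → ι => (Sum.inl ∘ q : Fin m → ι ⊕ Fin 3))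
    (fun a _ b _ e => funext fun k => Sum.inl_injective (congrFun e k)) (fun _ _ => mem_univ _)
    (fun q _ hq => ?_) fun q _ => rfl
  have : ∃ k i, q k = Sum.inr i := by
    by_contra hc
    push Not at hc
    have h2 (k : Fin m) : ∃ a, q k = Sum.inl a := by
      rcases h : q k with a | i
      · exact ⟨a, rfl⟩
      · exact absurd h (hc k i)
    choose a ha using h2
    exact hq ⟨a, by simp, funext fun k => (ha k).symm⟩
  obtain ⟨k, i, e⟩ := this
  rw [wt, prod_eq_zero (mem_univ k) (by rw [e]; rfl), zero_mul, map_zero, zero_mul]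

theorem r1_Z (t : ι → ℝ) (y : Fin 3 → ℝ) (r : Fin m → ι → ℝ) :
    Zs (Sum.elim t y) (r1_ext r) = Zs t r := by
  simpa [Zs] using r1_sum t y r (R := ℝ) fun _ => 1

theorem r1_N (t : ι → ℝ) (y : Fin 3 → ℝ) (r : Fin m → ι → ℝ) :
    Ns (Sum.elim t y) (r1_ext r) = Ns t r :=
  r1_sum t y r (R := ℂ) fun q => ∑ j, ex (Sum.elim t y (q j))

theorem r1_P {t : ι → ℝ} (y : Fin 3 → ℝ) {r : Fin m → ι → ℝ} (h : Pos t r) :
    Pos (Sum.elim t y) (r1_ext r) := by
  obtain ⟨e, he, h⟩ := h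
  refine ⟨e, he, fun F hF F0 => ?_⟩
  have := r1_sum t y r (R := ℝ) F
  simp only [Algebra.algebraMap_self, RingHom.id_apply] at this
  rw [this]
  exact h (fun q => F (Sum.inl ∘ q)) (fun s q => hF s (Sum.inl ∘ q)) fun q => F0 _

theorem r1_pt {t : ι → ℝ} {y : Fin 3 → ℝ} (w : Win (Sum.elim t y)) {r r' : Fin m → ι → ℝ} (i : Fin 3)
    (e : ∀ B j, r' B j = r B j * sn (t j - y i)) (h0 : Pos t r) (h1 : Pos t r') :
    ‖(Zs t r : ℂ) * (Ns t r' + ex (y i) * Zs t r') - Zs t r' * Ns t r‖ ≤ |Zs t r'| * |Zs t r| := by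
  have e' : (fun B j => r1_ext r B j * sn (Sum.elim t y j - Sum.elim t y (Sum.inr i))) = r1_ext r' := by
    funext B j
    rcases j with j | j
    · exact (e B j).symm
    · simp [r1_ext]
  have := Pos.step_pt w (r1_ext r) (Sum.inr i) (r1_P y h0) (e' ▸ r1_P y h1)
  rw [e', r1_Z, r1_Z, r1_N, r1_N] at this
  exact this

theorem core2 {κ : Type} [Fintype κ] {t : ι → ℝ} {y : Fin 3 → ℝ} (w : Win (Sum.elim t y))
    (it : Function.Injective (Sum.elim t y)) {τ : κ → ℝ}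
    (iτ : Function.Injective fun k => ex (τ k)) (hτt : ∀ k j, ex (τ k) ≠ ex (t j))
    (hc : Fintype.card κ + m + 3 = Fintype.card ι) {D : ι → ℂ} (h0 : ∑ j, D j = 0)
    (hg : ∑ j, D j * ex (-t j) = 0) (hτ : ∀ k, ∑ j, D j / (ex (τ k) - ex (t j)) = 0)
    {θ : Fin m → ι → ℝ} (hθ : ∀ B, ∑ j, (θ B j : ℂ) * D j = 0)
    (s : ∀ J, Pos t (rw3 t τ θ y J) ∧ Zs t (rw3 t τ θ y J) ≠ 0)
    (s4 : Pos t (Fin.cons (fun j => -(rho t τ j * ∏ i, sn (t j - y i))) (rw3 t τ θ y univ) :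
      Fin (m + 1) → ι → ℝ))
    (Z4 : Zs t (Fin.cons (fun j => -(rho t τ j * ∏ i, sn (t j - y i))) (rw3 t τ θ y univ) :
      Fin (m + 1) → ι → ℝ) ≠ 0) :
    ‖∑ j, D j * ex (t j) ^ 2‖ ≤ 5 * ‖∑ j, D j * ex (t j)‖ := by
  have w' : Win t := fun i j => w (Sum.inl i) (Sum.inl j)
  have it' : Function.Injective t := fun a b e => Sum.inl_injective (it (a₁ := Sum.inl a) (a₂ := Sum.inl b) e)
  have e0 : row t τ θ ∅ = rw3 t τ θ y ∅ := by
    funext B j; simp [row, rw3]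
  obtain ⟨s0, Z0⟩ := s ∅
  obtain ⟨s1, Z1⟩ := s {0}
  obtain ⟨s2, Z2⟩ := s {0, 1}
  obtain ⟨s3, Z3⟩ := s univ
  have p1 := r1_pt w 0 (fun B j => by simp [rw3]; ring) s0 s1
  have p2 := r1_pt w 1 (fun B j => by simp [rw3]; ring) s1 s2
  have p3 := r1_pt w 2 (fun B j => by simp [rw3, Fin.prod_univ_three]; ring) s2 s3
  have p4 := Pos.step w' _ s4 (by simpa using s3)
  rw [Fin.tail_cons] at p4
  have p5 := r1_bot w' it' (τ := Sum.elim τ y) (by simp [card_univ]; omega) (fun j => by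
    simp only [Fin.cons_zero, rho, Fintype.prod_sum_type, Sum.elim_inl, Sum.elim_inr]; ring) s4
  simp only [Fintype.sum_sum_type, Sum.elim_inl, Sum.elim_inr, Fin.sum_univ_three] at p5
  have p0 := top w' it' iτ hτt hc h0 hg hτ hθ (e0 ▸ Z0)
  rw [e0] at p0
  have b1 := quot_le Z0 Z1 p1
  have b2 := quot_le Z1 Z2 p2
  have b3 := quot_le Z2 Z3 p3
  have b4 := quot_le (e := 0) Z3 Z4 (by simpa using p4)
  generalize Zs t (Fin.cons (fun j => -(rho t τ j * ∏ i, sn (t j - y i))) (rw3 t τ θ y univ) :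
      Fin (m + 1) → ι → ℝ) = z4 at *
  generalize Ns t (Fin.cons (fun j => -(rho t τ j * ∏ i, sn (t j - y i))) (rw3 t τ θ y univ) :
      Fin (m + 1) → ι → ℝ) = n4 at *
  generalize Ns t (rw3 t τ θ y univ) / (Zs t (rw3 t τ θ y univ) : ℂ) = x3 at *
  generalize Ns t (rw3 t τ θ y {0, 1}) / (Zs t (rw3 t τ θ y {0, 1}) : ℂ) = x2 at *
  generalize Ns t (rw3 t τ θ y {0}) / (Zs t (rw3 t τ θ y {0}) : ℂ) = x1 at *
  generalize Zs t (rw3 t τ θ y ∅) = z0 at *
  generalize Ns t (rw3 t τ θ y ∅) = n0 at *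
  generalize ∑ j, ex (t j) = sc at *
  generalize ∑ k, ex (τ k) = st at *
  have a0 : (z0 : ℂ) ≠ 0 := Complex.ofReal_ne_zero.mpr Z0
  have a4 : (z4 : ℂ) ≠ 0 := Complex.ofReal_ne_zero.mpr Z4
  generalize hu : sc - (st + (ex (y 0) + ex (y 1) + ex (y 2))) = u at p5
  have b5 : ‖u - n4 / z4‖ ≤ 1 := by
    have : u - n4 / z4 = (u * z4 - n4) / z4 := by field_simp
    rw [this, norm_div, Complex.norm_real, Real.norm_eq_abs]
    exact div_le_one_of_le₀ p5 (abs_nonneg _)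
  have key : ∑ j, D j * ex (t j) ^ 2 = (∑ j, D j * ex (t j)) *
      ((u - n4 / z4) + (n4 / z4 + 0 - x3) + (x3 + ex (y 2) - x2) + (x2 + ex (y 1) - x1) +
        (x1 + ex (y 0) - n0 / z0)) := by
    apply mul_right_cancel₀ a0
    rw [p0, ← hu]
    field_simp
    ring
  rw [key, norm_mul, mul_comm]
  refine mul_le_mul_of_nonneg_right ?_ (norm_nonneg _)
  have c1 := norm_add_le ((u - n4 / z4) + (n4 / z4 + 0 - x3) + (x3 + ex (y 2) - x2) +
    (x2 + ex (y 1) - x1)) (x1 + ex (y 0) - n0 / z0)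
  have c2 := norm_add_le ((u - n4 / z4) + (n4 / z4 + 0 - x3) + (x3 + ex (y 2) - x2))
    (x2 + ex (y 1) - x1)
  have c3 := norm_add_le ((u - n4 / z4) + (n4 / z4 + 0 - x3)) (x3 + ex (y 2) - x2)
  have c4 := norm_add_le (u - n4 / z4) (n4 / z4 + 0 - x3)
  linarith

end Pool.Agent.Lib.MP_9dc04a_an.A2
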