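import Pool.Agent.Lib.MP_9dc04a_an.A2Dbl

set_option autoImplicit false

namespace Pool.Agent.Lib.MP_9dc04a_an.A2

open Finset

variable {ι : Type} [Fintype ι] [DecidableEq ι] {m : ℕ}

/-- the symmetrised weights have one sign -/
def Pos (t : ι → ℝ) (r : Fin m → ι → ℝ) : Prop :=
  ∃ e : ℝ, (e = 1 ∨ e = -1) ∧ ∀ F : (Fin m → ι) → ℝ,
    (∀ (s : Equiv.Perm (Fin m)) q, F (q ∘ s) = F q) → (∀ q, 0 ≤ F q) → 0 ≤ e * ∑ q, wt t r q * F q

theorem One.pos {t : ι → ℝ} {r : Fin m → ι → ℝ} (h : One t r) : Pos t r := by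
  rcases h with h | h
  · exact ⟨1, Or.inl rfl, fun F _ hF => by
      rw [one_mul]; exact sum_nonneg fun q _ => mul_nonneg (h q) (hF q)⟩
  · exact ⟨-1, Or.inr rfl, fun F _ hF => by
      rw [neg_one_mul, neg_nonneg]
      exact sum_nonpos fun q _ => mul_nonpos_of_nonpos_of_nonneg (h q) (hF q)⟩

theorem Pos.bound {t : ι → ℝ} {r : Fin m → ι → ℝ} (h : Pos t r) {G : (Fin m → ι) → ℂ}
    {F : (Fin m → ι) → ℝ} (hG : ∀ (s : Equiv.Perm (Fin m)) q, G (q ∘ s) = G q)
    (hF : ∀ (s : Equiv.Perm (Fin m)) q, F (q ∘ s) = F q) (hb : ∀ q, ‖G q‖ ≤ F q) :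
    ‖∑ q, (wt t r q : ℂ) * G q‖ ≤ |∑ q, wt t r q * F q| := by
  obtain ⟨e, he, h⟩ := h
  obtain ⟨u, hu, eu⟩ := Complex.exists_norm_eq_mul_self (∑ q, (wt t r q : ℂ) * G q)
  have e1 : |e| = 1 := by rcases he with rfl | rfl <;> simp
  have e2 : e * e = 1 := by rcases he with rfl | rfl <;> simp
  have key := h (fun q => F q - e * (u * G q).re) (fun s q => by simp only [hG, hF]) fun q => by
    have h1 : |e * (u * G q).re| ≤ F q := by
      rw [abs_mul, e1, one_mul]
      refine (Complex.abs_re_le_norm _).trans ?_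
      rw [norm_mul, hu, one_mul]
      exact hb q
    linarith [le_abs_self (e * (u * G q).re)]
  have e3 : ∑ q, wt t r q * (F q - e * (u * G q).re) =
      ∑ q, wt t r q * F q - e * ‖∑ q, (wt t r q : ℂ) * G q‖ := by
    have := congrArg Complex.re eu
    rw [Complex.ofReal_re] at this
    rw [this, mul_sum, Complex.re_sum, mul_sum, ← sum_sub_distrib]
    refine sum_congr rfl fun q _ => ?_
    rw [mul_left_comm u, Complex.re_ofReal_mul]
    ring
  rw [e3, mul_sub, ← mul_assoc, e2, one_mul] at key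
  have := le_abs_self (e * ∑ q, wt t r q * F q)
  rw [abs_mul, e1, one_mul] at this
  linarith

theorem Pos.zero {t : ι → ℝ} {r : Fin m → ι → ℝ} (h : Pos t r) (hZ : Zs t r = 0)
    {G : (Fin m → ι) → ℂ} (hG : ∀ (s : Equiv.Perm (Fin m)) q, G (q ∘ s) = G q) :
    ∑ q, (wt t r q : ℂ) * G q = 0 := by
  have := h.bound (F := fun _ => ∑ q, ‖G q‖) hG (fun _ _ => rfl) fun q =>
    single_le_sum (f := fun q => ‖G q‖) (fun _ _ => norm_nonneg _) (mem_univ q)
  rw [← sum_mul, show ∑ q, wt t r q = 0 from hZ, zero_mul, abs_zero] at this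
  exact norm_le_zero_iff.1 this

noncomputable def cq {k : ℕ} (t : ι → ℝ) (Q : Fin k → ι) : ℝ :=
  ∏ j, ∏ l ∈ Ioi j, 2 * Real.cos ((t (Q l) - t (Q j)) / 4)

noncomputable def mq (t : ι → ℝ) (Q : Fin (m + 1) → ι) (p : Fin m → ι) : ℝ :=
  (∏ j, ∏ l, Real.cos ((t (p l) - t (Q j)) / 4)) / (cq t Q * cq t p)

omit [Fintype ι] [DecidableEq ι] in
theorem cq_pos {k : ℕ} {t : ι → ℝ} (w : Win t) (Q : Fin k → ι) : 0 < cq t Q :=
  prod_pos fun _ _ => prod_pos fun _ _ => mul_pos two_pos (w.cs_pos _ _)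

theorem cos_swap (a b : ℝ) : Real.cos ((a - b) / 4) = Real.cos ((b - a) / 4) := by
  rw [← Real.cos_neg]
  congr 1
  ring

omit [Fintype ι] [DecidableEq ι] in
theorem cq_sq {k : ℕ} (t : ι → ℝ) (Q : Fin k → ι) :
    cq t Q ^ 2 * 2 ^ k = ∏ j, ∏ l, 2 * Real.cos ((t (Q l) - t (Q j)) / 4) := by
  have h := prod_prod_Ioi_mul_eq_prod_prod_off_diag
    (fun l j : Fin k => 2 * Real.cos ((t (Q l) - t (Q j)) / 4))
  have e : ∀ j, ∏ l, 2 * Real.cos ((t (Q l) - t (Q j)) / 4) =
      (∏ l ∈ ({j} : Finset (Fin k))ᶜ, 2 * Real.cos ((t (Q l) - t (Q j)) / 4)) * 2 := fun j => by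
    rw [← prod_compl_mul_prod ({j} : Finset (Fin k))]
    simp
  simp only [e]
  rw [prod_mul_distrib, ← h, prod_const, card_univ, Fintype.card_fin, cq, sq, ← prod_mul_distrib]
  congr 1
  refine prod_congr rfl fun j _ => ?_
  rw [← prod_mul_distrib]
  exact prod_congr rfl fun l _ => by rw [cos_swap (t (Q j))]

omit [Fintype ι] [DecidableEq ι] in
theorem cq_perm {k : ℕ} {t : ι → ℝ} (w : Win t) (s : Equiv.Perm (Fin k)) (Q : Fin k → ι) :
    cq t (Q ∘ s) = cq t Q := by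
  have h : cq t (Q ∘ s) ^ 2 * 2 ^ k = cq t Q ^ 2 * 2 ^ k := by
    rw [cq_sq, cq_sq, ← Equiv.prod_comp s fun j => ∏ l, 2 * Real.cos ((t (Q l) - t (Q j)) / 4)]
    refine prod_congr rfl fun j _ => ?_
    exact Equiv.prod_comp s fun l => 2 * Real.cos ((t (Q l) - t (Q (s j))) / 4)
  exact (pow_left_inj₀ (cq_pos w _).le (cq_pos w _).le two_ne_zero).1
    (mul_right_cancel₀ (by positivity) h)

omit [Fintype ι] [DecidableEq ι] in
theorem mq_pos {t : ι → ℝ} (w : Win t) (Q : Fin (m + 1) → ι) (p : Fin m → ι) : 0 < mq t Q p :=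
  div_pos (prod_pos fun _ _ => prod_pos fun _ _ => w.cs_pos _ _) (mul_pos (cq_pos w _) (cq_pos w _))

omit [Fintype ι] [DecidableEq ι] in
theorem mq_perm {t : ι → ℝ} (w : Win t) (s : Equiv.Perm (Fin (m + 1))) (s' : Equiv.Perm (Fin m))
    (Q : Fin (m + 1) → ι) (p : Fin m → ι) : mq t (Q ∘ s) (p ∘ s') = mq t Q p := by
  unfold mq
  rw [cq_perm w, cq_perm w, ← Equiv.prod_comp s fun j => ∏ l, Real.cos ((t (p l) - t (Q j)) / 4)]
  refine congrArg (· / (cq t Q * cq t p)) (prod_congr rfl fun j _ => ?_)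
  exact Equiv.prod_comp s' fun l => Real.cos ((t (p l) - t (Q (s j))) / 4)

/-- positions of the two groups inside the doubled choice -/
def tb (m : ℕ) (b : Bool) : Fin (m + m + 1) → Fin (m + 1) ⊕ Fin m :=
  Fin.cons (Sum.inl 0) (if b then Fin.append Sum.inr fun j => Sum.inl j.succ
    else Fin.append (fun j => Sum.inl j.succ) Sum.inr)

theorem tb_bij (m : ℕ) (b : Bool) : Function.Bijective (tb m b) := by
  refine (Fintype.bijective_iff_surjective_and_card _).2 ⟨?_, by simp; omega⟩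
  rintro (j | j)
  · refine Fin.cases ⟨0, rfl⟩ (fun j => ?_) j
    cases b
    · exact ⟨(Fin.castAdd m j).succ, by simp [tb, -Fin.natAdd_eq_addNat]⟩
    · exact ⟨(Fin.natAdd m j).succ, by simp [tb, -Fin.natAdd_eq_addNat]⟩
  · cases b
    · exact ⟨(Fin.natAdd m j).succ, by simp [tb, -Fin.natAdd_eq_addNat]⟩
    · exact ⟨(Fin.castAdd m j).succ, by simp [tb, -Fin.natAdd_eq_addNat]⟩

def eb (b : Bool) (Q : Fin (m + 1) → ι) (p : Fin m → ι) : Fin (m + m + 1) → ι × Bool :=
  Sum.elim (fun j => (Q j, b)) (fun j => (p j, !b)) ∘ tb m b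

omit [Fintype ι] [DecidableEq ι] in
theorem eb_eq (b : Bool) (Q : Fin (m + 1) → ι) (p : Fin m → ι) : eb b Q p =
    Fin.cons (Q 0, b) (Fin.append (fun j => ((if b then p else Fin.tail Q) j, false))
      fun j => ((if b then Fin.tail Q else p) j, true)) := by
  funext j
  refine Fin.cases rfl (fun j => ?_) j
  refine Fin.addCases (fun j => ?_) (fun j => ?_) j <;> cases b <;> 
    simp [eb, tb, Fin.tail, -Fin.natAdd_eq_addNat]

omit [Fintype ι] [DecidableEq ι] in
theorem eb_perm {β : Type} {F : (Fin (m + m + 1) → ι × Bool) → β}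
    (hF : ∀ (s : Equiv.Perm (Fin (m + m + 1))) q, F (q ∘ s) = F q) (b : Bool)
    (s : Equiv.Perm (Fin (m + 1))) (s' : Equiv.Perm (Fin m)) (Q : Fin (m + 1) → ι) (p : Fin m → ι) :
    F (eb b (Q ∘ s) (p ∘ s')) = F (eb b Q p) := by
  rw [← hF (((Equiv.ofBijective _ (tb_bij m b)).trans (Equiv.sumCongr s s')).trans
    (Equiv.ofBijective _ (tb_bij m b)).symm) (eb b Q p)]
  congr 1
  funext j
  simp only [eb, Function.comp_apply, Equiv.trans_apply, Equiv.ofBijective_apply,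
    Equiv.ofBijective_apply_symm_apply]
  cases tb m b j <;> rfl

omit [Fintype ι] [DecidableEq ι] in
theorem wt_half' {t : ι → ℝ} (w : Win t) (r : Fin m → ι → ℝ) (q : Fin m → ι) (b : Bool)
    (ρ : Fin m → ι × Bool → ℝ) (h : ∀ j i, ρ j (i, b) = r j i) :
    wt (dt t) ρ (fun j => (q j, b)) = wt t r q / cq t q := by
  rw [eq_div_iff (cq_pos w q).ne']
  unfold wt cq
  simp only [sn_dt_same, h]
  simp only [sn_eq, prod_mul_distrib]
  ring

omit [Fintype ι] [DecidableEq ι] in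
theorem wt_eb {t : ι → ℝ} (w : Win t) (r : Fin (m + 1) → ι → ℝ) (b : Bool) (Q : Fin (m + 1) → ι)
    (p : Fin m → ι) : wt (dt t) (dr r) (eb b Q p) = mq t Q p * (wt t r Q * wt t (Fin.tail r) p) := by
  obtain ⟨y, q, rfl⟩ : ∃ y q, Q = Fin.cons y q := ⟨_, _, (Fin.cons_self_tail Q).symm⟩
  have hD : 0 < ∏ j, Real.cos ((t (q j) - t y) / 4) := prod_pos fun j _ => w.cs_pos _ _
  have e0 : wt t r (Fin.cons y q) = r 0 y * (2 ^ m *
      (∏ j, Real.cos ((t (q j) - t y) / 4)) * ∏ j, Real.sin ((t (q j) - t y) / 4)) *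
        wt t (Fin.tail r) q := by
    conv_lhs => rw [← Fin.cons_self_tail r]
    rw [wt_cons]
    simp only [sn_eq, prod_mul_distrib, prod_const, card_univ, Fintype.card_fin]
  have e1 : cq t (Fin.cons y q : Fin (m + 1) → ι) =
      2 ^ m * (∏ j, Real.cos ((t (q j) - t y) / 4)) * cq t q := by
    unfold cq
    rw [Fin.prod_univ_succ, Fin.prod_Ioi_zero]
    simp only [Fin.cons_zero, Fin.cons_succ, Fin.prod_Ioi_succ]
    rw [prod_mul_distrib, prod_const, card_univ, Fintype.card_fin]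
  have h1 := hD.ne'
  have h2 := (cq_pos w q).ne'
  have h3 := (cq_pos w p).ne'
  rw [eb_eq, mq, e0, e1, Fin.prod_univ_succ]
  unfold dr
  rw [wt_cons, wt_append, Fin.prod_univ_add,
    wt_half' w (Fin.tail r) _ false _ (fun j i => by simp [Fin.tail]),
    wt_half' w (Fin.tail r) _ true _ (fun j i => by simp [Fin.tail])]
  simp only [Fin.append_left, Fin.append_right, sn_dt_tf, Fin.cons_zero, Fin.cons_succ, Fin.tail_cons]
  cases b
  · simp only [sn_dt_same, sn_dt_tf, Bool.false_eq_true, if_false]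
    field_simp
  · have e2 : ∏ j, -Real.cos ((t (p j) - t y) / 4) =
        (-1) ^ m * ∏ j, Real.cos ((t (p j) - t y) / 4) := by
      rw [prod_neg]
      simp
    have e3 : ((-1 : ℝ) ^ m) ^ 2 = 1 := by
      rw [← pow_mul, mul_comm, pow_mul]
      simp
    have e4 : ∏ j, ∏ k, Real.cos ((t (q k) - t (p j)) / 4) =
        ∏ j, ∏ k, Real.cos ((t (p k) - t (q j)) / 4) := by
      rw [prod_comm]
      exact prod_congr rfl fun _ _ => prod_congr rfl fun _ _ => cos_swap _ _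
    simp only [sn_dt_same, sn_dt_ft, if_true, e2, e4]
    field_simp
    rw [e3]
    ring

omit [Fintype ι] [DecidableEq ι] in
theorem eb_range {t : ι → ℝ} (r : Fin (m + 1) → ι → ℝ) {X : Fin (m + m + 1) → ι × Bool}
    (hX : wt (dt t) (dr r) X ≠ 0) : ∃ b Q p, eb b Q p = X := by
  have h1 : ∀ j, dr r j (X j) ≠ 0 := fun j =>
    prod_ne_zero_iff.1 (left_ne_zero_of_mul hX) j (mem_univ _)
  have hf : ∀ j : Fin m, (X (Fin.castAdd m j).succ).2 = false := fun j => by
    have := h1 (Fin.castAdd m j).succ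
    unfold dr at this
    rw [Fin.cons_succ, Fin.append_left] at this
    by_contra hb
    rw [Bool.not_eq_false] at hb
    exact this (if_pos hb)
  have ht : ∀ j : Fin m, (X (Fin.natAdd m j).succ).2 = true := fun j => by
    have := h1 (Fin.natAdd m j).succ
    unfold dr at this
    rw [Fin.cons_succ, Fin.append_right] at this
    by_contra hb
    exact this (if_neg hb)
  have e : X = Fin.cons ((X 0).1, (X 0).2) (Fin.append (fun j => ((X (Fin.castAdd m j).succ).1, false))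
      fun j => ((X (Fin.natAdd m j).succ).1, true)) := by
    funext j
    refine Fin.cases rfl (fun j => ?_) j
    rw [Fin.cons_succ]
    refine Fin.addCases (fun j => ?_) (fun j => ?_) j
    · rw [Fin.append_left, ← hf j]
    · rw [Fin.append_right, ← ht j]
  cases hb : (X 0).2
  · refine ⟨false, Fin.cons (X 0).1 fun j => (X (Fin.castAdd m j).succ).1,
      fun j => (X (Fin.natAdd m j).succ).1, ?_⟩
    rw [eb_eq]
    refine Eq.trans ?_ e.symm
    rw [hb]
    simp [-Fin.natAdd_eq_addNat]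
  · refine ⟨true, Fin.cons (X 0).1 fun j => (X (Fin.natAdd m j).succ).1,
      fun j => (X (Fin.castAdd m j).succ).1, ?_⟩
    rw [eb_eq]
    refine Eq.trans ?_ e.symm
    rw [hb]
    simp [-Fin.natAdd_eq_addNat]

/-- the doubled average as an iterated average -/
theorem sum_dbl {β : Type} [CommRing β] [Algebra ℝ β] {t : ι → ℝ} (w : Win t)
    (r : Fin (m + 1) → ι → ℝ) (F : (Fin (m + m + 1) → ι × Bool) → β) :
    ∑ X, wt (dt t) (dr r) X • F X = ∑ Q, wt t r Q • ∑ p, wt t (Fin.tail r) p •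
      (mq t Q p • (F (eb false Q p) + F (eb true Q p))) := by
  have inj : Function.Injective
      fun x : (Fin (m + 1) → ι) × (Fin m → ι) × Bool => eb x.2.2 x.1 x.2.1 := by
    rintro ⟨Q, p, b⟩ ⟨Q', p', b'⟩ h
    have hb : b = b' := congrArg Prod.snd (congrFun h 0)
    subst hb
    have h' := (tb_bij m b).2.injective_comp_right h
    have hQ : Q = Q' := funext fun j => congrArg Prod.fst (congrFun h' (Sum.inl j))
    have hp : p = p' := funext fun j => congrArg Prod.fst (congrFun h' (Sum.inr j))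
    rw [hQ, hp]
  rw [← Fintype.sum_of_injective _ inj (fun x => wt (dt t) (dr r) (eb x.2.2 x.1 x.2.1) •
    F (eb x.2.2 x.1 x.2.1)) _ (fun X hX => ?_) fun _ => rfl]
  · rw [Fintype.sum_prod_type]
    refine sum_congr rfl fun Q _ => ?_
    rw [Fintype.sum_prod_type, smul_sum]
    refine sum_congr rfl fun p _ => ?_
    rw [Fintype.sum_bool, wt_eb w, wt_eb w, smul_smul, smul_smul, smul_add, add_comm]
    congr 2 <;> ring
  · by_cases h : wt (dt t) (dr r) X = 0
    · rw [h, zero_smul]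
    · obtain ⟨b, Q, p, e⟩ := eb_range r h
      exact absurd ⟨(Q, p, b), e⟩ hX

theorem Pos.dbl {t : ι → ℝ} (w : Win t) (r : Fin (m + 1) → ι → ℝ) (h1 : Pos t r)
    (h0 : Pos t (Fin.tail r)) :
    Pos (dt t) (dr r) ∧ (Zs t r ≠ 0 → Zs t (Fin.tail r) ≠ 0 → Zs (dt t) (dr r) ≠ 0) := by
  obtain ⟨e1, he1, h1⟩ := h1
  obtain ⟨e0, he0, h0⟩ := h0
  have two : ∀ M : (Fin (m + 1) → ι) → (Fin m → ι) → ℝ,
      (∀ (s : Equiv.Perm (Fin (m + 1))) (s' : Equiv.Perm (Fin m)) Q p, M (Q ∘ s) (p ∘ s') = M Q p) →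
      (∀ Q p, 0 ≤ M Q p) →
      0 ≤ e1 * e0 * ∑ Q, wt t r Q * ∑ p, wt t (Fin.tail r) p * M Q p := fun M hs hM => by
    have := h1 (fun Q => e0 * ∑ p, wt t (Fin.tail r) p * M Q p)
      (fun s Q => by
        have : ∀ p, M (Q ∘ s) p = M Q p := fun p => hs s 1 Q p
        simp only [this])
      fun Q => h0 (M Q) (fun s p => hs 1 s Q p) (hM Q)
    rw [mul_assoc, mul_sum]
    refine this.trans_eq ?_
    congr 1
    exact sum_congr rfl fun Q _ => by ring
  refine ⟨⟨e1 * e0, by rcases he1 with rfl | rfl <;> rcases he0 with rfl | rfl <;> simp,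
    fun F hs hF => ?_⟩, fun z1 z0 => ?_⟩
  · have := sum_dbl w r F
    simp only [smul_eq_mul] at this
    rw [this]
    exact two _ (fun s s' Q p => by rw [mq_perm w, eb_perm hs, eb_perm hs])
      fun Q p => mul_nonneg (mq_pos w Q p).le (add_nonneg (hF _) (hF _))
  · obtain ⟨c, hc, hm⟩ : ∃ c, 0 < c ∧ ∀ x : (Fin (m + 1) → ι) × (Fin m → ι), c ≤ mq t x.1 x.2 := by
      rcases isEmpty_or_nonempty ((Fin (m + 1) → ι) × (Fin m → ι)) with h | h
      · exact ⟨1, one_pos, isEmptyElim⟩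
      · obtain ⟨a, ha⟩ := Finite.exists_min fun x : (Fin (m + 1) → ι) × (Fin m → ι) => mq t x.1 x.2
        exact ⟨_, mq_pos w _ _, ha⟩
    have e := sum_dbl w r fun _ => (1 : ℝ)
    simp only [smul_eq_mul, mul_one] at e
    have k := two (fun Q p => mq t Q p * (1 + 1) - c) (fun s s' Q p => by rw [mq_perm w])
      fun Q p => by linarith [hm (Q, p)]
    have k1 := h1 (fun _ => 1) (fun _ _ => rfl) fun _ => zero_le_one
    have k0 := h0 (fun _ => 1) (fun _ _ => rfl) fun _ => zero_le_one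
    simp only [mul_one] at k1 k0
    have n1 : e1 ≠ 0 := by rcases he1 with rfl | rfl <;> simp
    have n0 : e0 ≠ 0 := by rcases he0 with rfl | rfl <;> simp
    have p1 : 0 < e1 * Zs t r := lt_of_le_of_ne k1 (mul_ne_zero n1 z1).symm
    have p0 : 0 < e0 * Zs t (Fin.tail r) := lt_of_le_of_ne k0 (mul_ne_zero n0 z0).symm
    have e' : ∑ Q, wt t r Q * ∑ p, wt t (Fin.tail r) p * (mq t Q p * (1 + 1) - c) =
        Zs (dt t) (dr r) - c * (Zs t r * Zs t (Fin.tail r)) := by
      unfold Zs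
      rw [e, sum_mul, mul_sum, ← sum_sub_distrib]
      refine sum_congr rfl fun Q _ => ?_
      simp only [mul_sub, sum_sub_distrib, ← sum_mul]
      ring
    intro hz
    rw [e', hz] at k
    nlinarith [mul_pos hc (mul_pos p1 p0)]

end Pool.Agent.Lib.MP_9dc04a_an.A2
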