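import Pool.Agent.Lib.MP_9dc04a_an.A2Core
import Pool.Agent.Lib.MP_9dc04a_an.A2Pos

set_option autoImplicit false
set_option linter.unusedSectionVars false

namespace Pool.Agent.Lib.MP_9dc04a_an.A2

open Finset

variable {ι : Type} [Fintype ι] [DecidableEq ι] {m : ℕ}

theorem stS_perm (t : ι → ℝ) (s : Equiv.Perm (Fin m)) (q : Fin m → ι) : stS t (q ∘ s) = stS t q :=
  Equiv.sum_comp s fun k => ex (t (q k))

theorem Pos.null {t : ι → ℝ} {r : Fin m → ι → ℝ} (h : Pos t r) (hZ : Zs t r = 0) : Ns t r = 0 := by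
  have b := h.bound (G := stS t) (F := fun _ => (m : ℝ)) (stS_perm t) (fun _ _ => rfl) fun q =>
    (norm_sum_le _ _).trans (by simp [ex, Complex.norm_exp_ofReal_mul_I])
  rw [← sum_mul, show ∑ q, wt t r q = Zs t r from rfl, hZ, zero_mul, abs_zero] at b
  exact norm_le_zero_iff.1 b

/-- the one step lemma when only the symmetrised weights have one sign -/
theorem Pos.step {t : ι → ℝ} (w : Win t) (r : Fin (m + 1) → ι → ℝ) (h1 : Pos t r)
    (h0 : Pos t (Fin.tail r)) :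
    ‖(Zs t (Fin.tail r) : ℂ) * Ns t r - Zs t r * Ns t (Fin.tail r)‖ ≤
      |Zs t r| * |Zs t (Fin.tail r)| := by
  by_cases z0 : Zs t (Fin.tail r) = 0
  · simp [z0, h0.null z0]
  by_cases z1 : Zs t r = 0
  · simp [z1, h1.null z1]
  obtain ⟨o, hZ⟩ := Pos.dbl w r h1 h0
  replace hZ := hZ z1 z0
  refine st_fin r z0 hZ ?_
  rw [← (st_key r z0 hZ).1]
  exact o.bound (G := fun q => stS (dt t) q ^ 2) (F := fun q => ‖stS (dt t) q‖ ^ 2)
    (fun s q => by rw [stS_perm]) (fun s q => by rw [stS_perm]) fun q => (norm_pow _ _).le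

theorem Pos.step_pt {t : ι → ℝ} (w : Win t) (r : Fin m → ι → ℝ) (y : ι) (h0 : Pos t r)
    (h1 : Pos t fun B j => r B j * sn (t j - t y)) :
    ‖(Zs t r : ℂ) * (Ns t (fun B j => r B j * sn (t j - t y)) +
        ex (t y) * Zs t fun B j => r B j * sn (t j - t y)) -
      (Zs t fun B j => r B j * sn (t j - t y)) * Ns t r‖ ≤
      |Zs t fun B j => r B j * sn (t j - t y)| * |Zs t r| := by
  have o1 : Pos t (Fin.cons (Pi.single y 1) r : Fin (m + 1) → ι → ℝ) := by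
    obtain ⟨e, he, h⟩ := h1
    refine ⟨e, he, fun F hF F0 => ?_⟩
    rw [sum_cons_choice, Finset.sum_eq_single y]
    · have := h (fun q => F (Fin.cons y q)) (fun s q => ?_) fun q => F0 _
      · simpa only [wt_pt, if_true] using this
      · rw [← hF (Equiv.Perm.decomposeFin.symm (0, s)) (Fin.cons y q)]
        congr 1
        funext k
        refine Fin.cases ?_ (fun k => ?_) k <;> simp
    · intro z _ hz
      exact Finset.sum_eq_zero fun q _ => by rw [wt_pt, if_neg hz, zero_mul]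
    · intro h
      exact absurd (mem_univ y) h
  have hZ : Zs t (Fin.cons (Pi.single y 1) r : Fin (m + 1) → ι → ℝ) =
      Zs t fun B j => r B j * sn (t j - t y) := by
    unfold Zs
    rw [sum_cons_choice, Finset.sum_eq_single y]
    · exact Finset.sum_congr rfl fun q _ => by rw [wt_pt, if_pos rfl]
    · intro z _ hz
      exact Finset.sum_eq_zero fun q _ => by rw [wt_pt, if_neg hz]
    · intro h
      exact absurd (mem_univ y) h
  have hN : Ns t (Fin.cons (Pi.single y 1) r : Fin (m + 1) → ι → ℝ) =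
      Ns t (fun B j => r B j * sn (t j - t y)) +
        ex (t y) * Zs t fun B j => r B j * sn (t j - t y) := by
    unfold Ns Zs
    rw [sum_cons_choice, Finset.sum_eq_single y]
    · rw [Complex.ofReal_sum, Finset.mul_sum, ← Finset.sum_add_distrib]
      refine Finset.sum_congr rfl fun q _ => ?_
      rw [wt_pt, if_pos rfl, Fin.sum_univ_succ]
      simp only [Fin.cons_zero, Fin.cons_succ]
      ring
    · intro z _ hz
      exact Finset.sum_eq_zero fun q _ => by rw [wt_pt, if_neg hz]; simp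
    · intro h
      exact absurd (mem_univ y) h
  have := Pos.step w (Fin.cons (Pi.single y 1) r : Fin (m + 1) → ι → ℝ) o1 (by simpa using h0)
  rw [hZ, hN, Fin.tail_cons] at this
  exact this

open Polynomial in
theorem Pos.bot {κ : Type} [Fintype κ] {t : ι → ℝ} (w : Win t) (it : Function.Injective t) {τ : κ → ℝ}
    (hc : Fintype.card κ + m + 3 = Fintype.card ι) {θ : Fin m → ι → ℝ} {J : Finset ι} (hJ : #J = 3)
    {r₀ : ι → ℝ} {c : ℝ}
    (hr : ∀ j, (1 - ∑ B, θ B j) * rho t τ j * ∏ y ∈ J, sn (t j - t y) = c * r₀ j)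
    (h : Pos t (Fin.cons r₀ (row t τ θ J) : Fin (m + 1) → ι → ℝ)) :
    ‖(∑ j ∈ Jᶜ, ex (t j) - ∑ k, ex (τ k)) *
        Zs t (Fin.cons r₀ (row t τ θ J) : Fin (m + 1) → ι → ℝ) -
      Ns t (Fin.cons r₀ (row t τ θ J) : Fin (m + 1) → ι → ℝ)‖ ≤
      |Zs t (Fin.cons r₀ (row t τ θ J) : Fin (m + 1) → ι → ℝ)| := by
  classical
  have ie := tp_inj w it
  obtain ⟨E, hEd, hK, e1, e2, e0⟩ :=
    kill_ex t (Fin.cons r₀ (row t τ θ J) : Fin (m + 1) → ι → ℝ)
  replace e2 := e2 m rfl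
  have hsum : ∑ j, ((rho t τ j * ∏ y ∈ J, sn (t j - t y) : ℝ) : ℂ) *
      ex (-(((m + 1 : ℕ) : ℝ) - 1) / 2 * t j) * E.eval (ex (t j)) = 0 := by
    have k0 := hK 0
    have kB : ∑ B : Fin m, ∑ j, ((row t τ θ J B j : ℝ) : ℂ) *
        ex (-(((m + 1 : ℕ) : ℝ) - 1) / 2 * t j) * E.eval (ex (t j)) = 0 :=
      sum_eq_zero fun B _ => by simpa using hK B.succ
    simp only [Fin.cons_zero] at k0
    have : ∀ j, rho t τ j * ∏ y ∈ J, sn (t j - t y) = c * r₀ j + ∑ B, row t τ θ J B j := by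
      intro j
      rw [← hr j]
      simp only [row]
      rw [← sum_mul, ← sum_mul]; ring
    rw [sum_comm] at kB
    have h2 := congrArg ((c : ℂ) * ·) k0
    simp only [mul_zero, mul_sum] at h2
    rw [← add_zero (0 : ℂ)]
    nth_rewrite 2 [← h2]
    rw [← kB, ← sum_add_distrib]
    refine sum_congr rfl fun j _ => ?_
    rw [this j, ← sum_mul, ← sum_mul]; push_cast; ring
  have hP : ‖Ps t (Fin.cons r₀ (row t τ θ J) : Fin (m + 1) → ι → ℝ)‖ ≤
      |Zs t (Fin.cons r₀ (row t τ θ J) : Fin (m + 1) → ι → ℝ)| := by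
    have b := h.bound (G := fun q => ∏ j, ex (t (q j))) (F := fun _ => 1)
      (fun s q => Equiv.prod_comp s fun k => ex (t (q k))) (fun _ _ => rfl) fun q => by
        simp [norm_prod, tp_ex_norm]
    simpa only [mul_one, Ps, Zs] using b
  generalize Zs t (Fin.cons r₀ (row t τ θ J) : Fin (m + 1) → ι → ℝ) = Z at *
  generalize Ns t (Fin.cons r₀ (row t τ θ J) : Fin (m + 1) → ι → ℝ) = N at *
  generalize Ps t (Fin.cons r₀ (row t τ θ J) : Fin (m + 1) → ι → ℝ) = P0 at *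
  have hn : #Jᶜ = Fintype.card κ + m := by rw [card_compl]; omega
  obtain ⟨c1, c2, c3⟩ := tp_coeff univ (fun k => ex (τ k)) hEd
  rw [card_univ, coeff_X_mul, e1, e2] at c3
  rw [card_univ, e1] at c2
  rw [card_univ] at c1
  obtain ⟨p1, p2, -⟩ := tp_coeff (m := 0) Jᶜ (fun i => ex (t i)) (E := 1) (by simp)
  simp only [mul_one, add_zero, coeff_one_zero] at p1 p2
  have hPz : ∀ j ∈ Jᶜ, (∏ k ∈ Jᶜ, (X - C (ex (t k)))).eval (ex (t j)) = 0 := fun j hj => by
    rw [eval_prod]; exact prod_eq_zero hj (by simp)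
  have hP0 : ‖(∏ k ∈ Jᶜ, (X - C (ex (t k))) : ℂ[X]).eval 0‖ = 1 := by
    rw [eval_prod, norm_prod]; simp [tp_ex_norm]
  have hQ0 : ‖((∏ k, (X - C (ex (τ k))) : ℂ[X]) * E).eval 0‖ = ‖P0‖ := by
    rw [eval_mul, eval_prod, norm_mul, norm_prod, ← coeff_zero_eq_eval_zero, e0]
    simp [tp_ex_norm]
  have hQe : ∀ z, ((∏ k, (X - C (ex (τ k))) : ℂ[X]) * E).eval z = (∏ k, (z - ex (τ k))) * E.eval z := by
    intro z; simp [eval_prod]
  generalize (∏ k ∈ Jᶜ, (X - C (ex (t k))) : ℂ[X]) = P at *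
  generalize (∏ k, (X - C (ex (τ k))) : ℂ[X]) * E = Q at *
  have hP1 : P.eval 0 ≠ 0 := fun h0 => by simp [h0] at hP0
  obtain ⟨R, hR⟩ : X ∣ Q - C (Q.eval 0 / P.eval 0) * P := by
    rw [X_dvd_iff, coeff_zero_eq_eval_zero, eval_sub, eval_mul, eval_C]; field_simp; ring
  have hRc : R.coeff (Fintype.card κ + m) = Z := by
    rw [← coeff_X_mul, ← hR, coeff_sub, coeff_C_mul, add_assoc, c2,
      coeff_eq_zero_of_natDegree_lt (p := P) (by omega)]; ring
  have hRd : R.natDegree ≤ #Jᶜ := by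
    rw [natDegree_le_iff_coeff_eq_zero]
    intro k hk
    rw [← coeff_X_mul, ← hR, coeff_sub, coeff_C_mul, coeff_eq_zero_of_natDegree_lt (p := P) (by omega),
      coeff_eq_zero_of_natDegree_lt (p := Q) (by omega)]; ring
  have hl := tp_lag Jᶜ (v := fun j => ex (t j)) ie.injOn hRd
  rw [← add_assoc, coeff_X_mul] at c3
  rw [← hR, coeff_sub, coeff_C_mul, p2, hn, c3, hRc] at hl
  obtain ⟨Cc, hC, hrat⟩ := tp_ratio w it τ Jᶜ
  have hz : ∑ j ∈ Jᶜ, R.eval (ex (t j)) / ∏ i ∈ Jᶜ.erase j, (ex (t j) - ex (t i)) = 0 := by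
    rw [← mul_zero Cc, ← hsum, ← sum_add_sum_compl J, sum_eq_zero (s := J), zero_add, mul_sum]
    · refine sum_congr rfl fun j hj => ?_
      have h1 := congrArg (eval (ex (t j))) hR
      rw [eval_sub, eval_mul, hPz j hj, mul_zero, sub_zero, eval_mul, eval_X, hQe] at h1
      have h3 : ex (((Fintype.card κ : ℝ) - #Jᶜ + 2) / 2 * t j) =
          ex (t j) * ex (-(((m + 1 : ℕ) : ℝ) - 1) / 2 * t j) := by
        rw [← tp_ex_add, hn]; congr 1; push_cast; ring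
      have h4 : rho t τ j * ∏ y ∈ J, sn (t j - t y) =
          (∏ k, sn (t j - τ k)) / ∏ i ∈ Jᶜ.erase j, sn (t j - t i) := by
        have hu : univ.erase j = J ∪ Jᶜ.erase j := by
          ext i; have := mem_compl.1 hj
          simp only [mem_erase, mem_univ, mem_union, mem_compl]
          constructor
          · intro h; tauto
          · rintro (h | h)
            · exact ⟨fun e => this (e ▸ h), trivial⟩
            · exact ⟨h.1, trivial⟩
        have hd : Disjoint J (Jᶜ.erase j) := disjoint_compl_right.mono_right (erase_subset _ _)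
        have h5 : ∏ y ∈ J, sn (t j - t y) ≠ 0 :=
          prod_ne_zero_iff.2 fun i hi => tp_sn_ne w it fun e => mem_compl.1 hj (e ▸ hi)
        rw [rho, hu, prod_union hd]; field_simp
      have h2 := hrat j hj
      rw [h3, ← h4] at h2
      refine mul_left_cancel₀ (tp_ex_ne (t j)) ?_
      rw [← mul_div_assoc, ← h1, mul_div_right_comm, h2]; ring
    · intro j hj
      rw [prod_eq_zero hj (by simp [sn])]; simp
  rw [hz] at hl
  have : (∑ j ∈ Jᶜ, ex (t j) - ∑ k, ex (τ k)) * (Z : ℂ) - N = Q.eval 0 / P.eval 0 := by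
    linear_combination -hl
  rw [this, norm_div, hP0, hQ0, div_one]
  exact hP

theorem Pos.core {κ : Type} [Fintype κ] {t : ι → ℝ} (w : Win t) (it : Function.Injective t) {τ : κ → ℝ}
    (iτ : Function.Injective fun k => ex (τ k)) (hτt : ∀ k j, ex (τ k) ≠ ex (t j))
    (hc : Fintype.card κ + m + 3 = Fintype.card ι) {D : ι → ℂ} (h0 : ∑ j, D j = 0)
    (hg : ∑ j, D j * ex (-t j) = 0) (hτ : ∀ k, ∑ j, D j / (ex (τ k) - ex (t j)) = 0)
    {θ : Fin m → ι → ℝ} (hθ : ∀ B, ∑ j, (θ B j : ℂ) * D j = 0)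
    {y₁ y₂ y₃ : ι} (n12 : y₁ ≠ y₂) (n13 : y₁ ≠ y₃) (n23 : y₂ ≠ y₃) {r₀ : ι → ℝ} {c : ℝ}
    (hr : ∀ j, (1 - ∑ B, θ B j) * rho t τ j * ∏ y ∈ ({y₁, y₂, y₃} : Finset ι), sn (t j - t y) = c * r₀ j)
    (s0 : Pos t (row t τ θ ∅)) (s1 : Pos t (row t τ θ {y₁})) (s2 : Pos t (row t τ θ {y₁, y₂}))
    (s3 : Pos t (row t τ θ {y₁, y₂, y₃}))
    (s4 : Pos t (Fin.cons r₀ (row t τ θ {y₁, y₂, y₃}) : Fin (m + 1) → ι → ℝ))
    (Z0 : Zs t (row t τ θ ∅) ≠ 0) (Z1 : Zs t (row t τ θ {y₁}) ≠ 0)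
    (Z2 : Zs t (row t τ θ {y₁, y₂}) ≠ 0) (Z3 : Zs t (row t τ θ {y₁, y₂, y₃}) ≠ 0)
    (Z4 : Zs t (Fin.cons r₀ (row t τ θ {y₁, y₂, y₃}) : Fin (m + 1) → ι → ℝ) ≠ 0) :
    ‖∑ j, D j * ex (t j) ^ 2‖ ≤ 5 * ‖∑ j, D j * ex (t j)‖ := by
  have e1 : row t τ θ {y₁} = fun B j => row t τ θ ∅ B j * sn (t j - t y₁) := by
    rw [← row_insert t τ θ (notMem_empty y₁)]
    rfl
  have e2 : row t τ θ {y₁, y₂} = fun B j => row t τ θ {y₁} B j * sn (t j - t y₂) := by
    rw [← row_insert t τ θ (by simpa using n12.symm), pair_comm]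
  have e3 : row t τ θ {y₁, y₂, y₃} = fun B j => row t τ θ {y₁, y₂} B j * sn (t j - t y₃) := by
    rw [← row_insert t τ θ (by simp [n13.symm, n23.symm])]
    congr 1
    ext x
    simp only [mem_insert, mem_singleton]
    tauto
  have p1 := Pos.step_pt w (row t τ θ ∅) y₁ s0 (e1 ▸ s1)
  have p2 := Pos.step_pt w (row t τ θ {y₁}) y₂ s1 (e2 ▸ s2)
  have p3 := Pos.step_pt w (row t τ θ {y₁, y₂}) y₃ s2 (e3 ▸ s3)
  rw [← e1] at p1
  rw [← e2] at p2
  rw [← e3] at p3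
  have p4 := Pos.step w (Fin.cons r₀ (row t τ θ {y₁, y₂, y₃}) : Fin (m + 1) → ι → ℝ) s4
    (by simpa using s3)
  rw [Fin.tail_cons] at p4
  have hJ : #({y₁, y₂, y₃} : Finset ι) = 3 := card_eq_three.mpr ⟨y₁, y₂, y₃, n12, n13, n23, rfl⟩
  have p5 := Pos.bot w it hc hJ hr s4
  have p0 := top w it iτ hτt hc h0 hg hτ hθ Z0
  have b1 := quot_le Z0 Z1 p1
  have b2 := quot_le Z1 Z2 p2
  have b3 := quot_le Z2 Z3 p3
  have b4 := quot_le (e := 0) Z3 Z4 (by simpa using p4)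
  have hs : ∑ j, ex (t j) = ∑ j ∈ ({y₁, y₂, y₃} : Finset ι)ᶜ, ex (t j) +
      (ex (t y₁) + (ex (t y₂) + ex (t y₃))) := by
    rw [← sum_compl_add_sum ({y₁, y₂, y₃} : Finset ι), sum_insert (by simp [n12, n13]),
      sum_pair n23]
  generalize Zs t (Fin.cons r₀ (row t τ θ {y₁, y₂, y₃}) : Fin (m + 1) → ι → ℝ) = z4 at *
  generalize Ns t (Fin.cons r₀ (row t τ θ {y₁, y₂, y₃}) : Fin (m + 1) → ι → ℝ) = n4 at *
  generalize Ns t (row t τ θ {y₁, y₂, y₃}) / (Zs t (row t τ θ {y₁, y₂, y₃}) : ℂ) = x3 at *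
  generalize Ns t (row t τ θ {y₁, y₂}) / (Zs t (row t τ θ {y₁, y₂}) : ℂ) = x2 at *
  generalize Ns t (row t τ θ {y₁}) / (Zs t (row t τ θ {y₁}) : ℂ) = x1 at *
  generalize Zs t (row t τ θ ∅) = z0 at *
  generalize Ns t (row t τ θ ∅) = n0 at *
  generalize ∑ j ∈ ({y₁, y₂, y₃} : Finset ι)ᶜ, ex (t j) = sc at *
  generalize ∑ k, ex (τ k) = st at *
  have a0 : (z0 : ℂ) ≠ 0 := Complex.ofReal_ne_zero.mpr Z0
  have a4 : (z4 : ℂ) ≠ 0 := Complex.ofReal_ne_zero.mpr Z4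
  have b5 : ‖sc - st - n4 / z4‖ ≤ 1 := by
    have : sc - st - n4 / z4 = ((sc - st) * z4 - n4) / z4 := by field_simp
    rw [this, norm_div, Complex.norm_real, Real.norm_eq_abs]
    exact div_le_one_of_le₀ p5 (abs_nonneg _)
  have key : ∑ j, D j * ex (t j) ^ 2 = (∑ j, D j * ex (t j)) *
      ((sc - st - n4 / z4) + (n4 / z4 + 0 - x3) + (x3 + ex (t y₃) - x2) + (x2 + ex (t y₂) - x1) +
        (x1 + ex (t y₁) - n0 / z0)) := by
    apply mul_right_cancel₀ a0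
    rw [p0, hs]
    field_simp
    ring
  rw [key, norm_mul, mul_comm]
  refine mul_le_mul_of_nonneg_right ?_ (norm_nonneg _)
  have c1 := norm_add_le ((sc - st - n4 / z4) + (n4 / z4 + 0 - x3) + (x3 + ex (t y₃) - x2) +
    (x2 + ex (t y₂) - x1)) (x1 + ex (t y₁) - n0 / z0)
  have c2 := norm_add_le ((sc - st - n4 / z4) + (n4 / z4 + 0 - x3) + (x3 + ex (t y₃) - x2))
    (x2 + ex (t y₂) - x1)
  have c3 := norm_add_le ((sc - st - n4 / z4) + (n4 / z4 + 0 - x3)) (x3 + ex (t y₃) - x2)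
  have c4 := norm_add_le (sc - st - n4 / z4) (n4 / z4 + 0 - x3)
  linarith

end Pool.Agent.Lib.MP_9dc04a_an.A2
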