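import Mathlib

set_option autoImplicit false

namespace Pool.Agent.Lib.MP_9dc04a_an.A2

open Finset

variable {ι : Type} [Fintype ι] [DecidableEq ι] {m : ℕ}

/-- the point of the unit circle with angle x -/
noncomputable def ex (x : ℝ) : ℂ := Complex.exp (x * Complex.I)

/-- sine of the half angle -/
noncomputable def sn (x : ℝ) : ℝ := Real.sin (x / 2)

/-- weight of the choice q of one point per row -/
noncomputable def wt (t : ι → ℝ) (r : Fin m → ι → ℝ) (q : Fin m → ι) : ℝ :=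
  (∏ j, r j (q j)) * ∏ j, ∏ k ∈ Ioi j, sn (t (q k) - t (q j))

noncomputable def Zs (t : ι → ℝ) (r : Fin m → ι → ℝ) : ℝ := ∑ q, wt t r q

noncomputable def Ns (t : ι → ℝ) (r : Fin m → ι → ℝ) : ℂ :=
  ∑ q, (wt t r q : ℂ) * ∑ j, ex (t (q j))

noncomputable def Ps (t : ι → ℝ) (r : Fin m → ι → ℝ) : ℂ :=
  ∑ q, (wt t r q : ℂ) * ∏ j, ex (t (q j))

/-- all weights have one sign -/
def One (t : ι → ℝ) (r : Fin m → ι → ℝ) : Prop := (∀ q, 0 ≤ wt t r q) ∨ ∀ q, wt t r q ≤ 0

/-- all angles lie in a window of length less than 2 pi -/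
def Win (t : ι → ℝ) : Prop := ∀ i j, t i - t j < 2 * Real.pi

/-- the rows kill the polynomial E -/
def Kill (t : ι → ℝ) (r : Fin m → ι → ℝ) (E : Polynomial ℂ) : Prop :=
  ∀ j, ∑ i, (r j i : ℂ) * ex (-((m : ℝ) - 1) / 2 * t i) * E.eval (ex (t i)) = 0

/-- residue factor of the pole j -/
noncomputable def rho {κ : Type} [Fintype κ] (t : ι → ℝ) (τ : κ → ℝ) (j : ι) : ℝ :=
  (∏ k, sn (t j - τ k)) / ∏ i ∈ univ.erase j, sn (t j - t i)

/-- rows after removing the poles in the set J -/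
noncomputable def row {κ : Type} [Fintype κ] (t : ι → ℝ) (τ : κ → ℝ) (θ : Fin m → ι → ℝ)
    (J : Finset ι) (B : Fin m) (j : ι) : ℝ :=
  θ B j * rho t τ j * ∏ y ∈ J, sn (t j - t y)

/-- doubled angles: the two square roots -/
noncomputable def dt (t : ι → ℝ) (x : ι × Bool) : ℝ := t x.1 / 2 + if x.2 then Real.pi else 0

/-- doubled rows -/
noncomputable def dr (r : Fin (m + 1) → ι → ℝ) : Fin (m + m + 1) → ι × Bool → ℝ :=
  Fin.cons (fun x => (if x.2 then (-1) ^ m else 1) * r 0 x.1)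
    (Fin.append (fun j x => if x.2 then 0 else r j.succ x.1) fun j x => if x.2 then r j.succ x.1 else 0)

end Pool.Agent.Lib.MP_9dc04a_an.A2
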