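import Pool.Agent.Lib.MP_9dc04a_an.A2Def

set_option autoImplicit false
set_option linter.unusedSectionVars false

namespace Pool.Agent.Lib.MP_9dc04a_an.A2

open Finset

variable {ι : Type} [Fintype ι] [DecidableEq ι] {m : ℕ}

theorem ex_add (a b : ℝ) : ex (a + b) = ex a * ex b := by
  simp only [ex, Complex.ofReal_add, add_mul, Complex.exp_add]

theorem ex_zero : ex 0 = 1 := by simp [ex]

theorem ex_sum {α : Type} (s : Finset α) (f : α → ℝ) : ex (∑ a ∈ s, f a) = ∏ a ∈ s, ex (f a) := by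
  simp only [ex, Complex.ofReal_sum, sum_mul, Complex.exp_sum]

theorem ex_nat (n : ℕ) (a : ℝ) : ex (n * a) = ex a ^ n := by
  rw [ex, ex, ← Complex.exp_nat_mul]
  congr 1
  push_cast
  ring

theorem ex_sub (a b : ℝ) : ex a - ex b = 2 * Complex.I * (sn (a - b) : ℂ) * ex ((a + b) / 2) := by
  have e1 : ex a = ex ((a - b) / 2) * ex ((a + b) / 2) := by rw [← ex_add]; congr 1; ring
  have e2 : ex b = ex (-((a - b) / 2)) * ex ((a + b) / 2) := by rw [← ex_add]; congr 1; ring
  rw [e1, e2, ← sub_mul]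
  congr 1
  simp only [ex, sn, Complex.exp_mul_I, Complex.ofReal_neg, Complex.cos_neg, Complex.sin_neg,
    Complex.ofReal_sin]
  ring

theorem sn_neg (a : ℝ) : sn (-a) = -sn a := by rw [sn, sn, neg_div, Real.sin_neg]

omit [DecidableEq ι] in
/-- multilinearity in the rows -/
theorem det_rows (r : Fin m → ι → ℂ) (f : Fin m → ι → ℂ) :
    (Matrix.of fun j c => ∑ i, r j i * f c i).det =
      ∑ q : Fin m → ι, (∏ j, r j (q j)) * (Matrix.of fun j c => f c (q j)).det := by
  have e : (Matrix.of fun j c => ∑ i, r j i * f c i) =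
      fun j => ∑ i, r j i • fun c => f c i := by
    funext j c
    simp
  have h := (Matrix.detRowAlternating (n := Fin m) (R := ℂ)).toMultilinearMap.map_sum
    (fun j i => r j i • fun c => f c i)
  refine (congrArg Matrix.det e).trans (h.trans (sum_congr rfl fun q _ => ?_))
  exact (Matrix.detRowAlternating (n := Fin m) (R := ℂ)).toMultilinearMap.map_smul_univ
    (fun j => r j (q j)) fun j c => f c (q j)

theorem sum_pairs (x : Fin m → ℝ) :
    ∑ j, ∑ k ∈ Ioi j, (x k + x j) / 2 = ∑ j, ((m : ℝ) - 1) / 2 * x j := by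
  have a : ∑ j, ∑ k ∈ Ioi j, x k = ∑ k, ∑ _j ∈ Iio k, x k :=
    sum_comm' fun j k => by simp
  simp only [add_div, sum_add_distrib, ← sum_div, a]
  rw [← add_div, ← sum_add_distrib, sum_div]
  refine sum_congr rfl fun j _ => ?_
  have := j.2
  simp only [sum_const, Fin.card_Iio, Fin.card_Ioi, nsmul_eq_mul]
  rw [Nat.cast_sub (by omega), Nat.cast_sub (by omega)]
  push_cast
  ring

/-- centred Vandermonde determinant -/
theorem det_ctr (x : Fin m → ℝ) :
    (Matrix.of fun j (c : Fin m) => ex ((((c : ℕ) : ℝ) - ((m : ℝ) - 1) / 2) * x j)).det =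
      ∏ j, ∏ k ∈ Ioi j, (2 * Complex.I * (sn (x k - x j) : ℂ)) := by
  have e : (Matrix.of fun j (c : Fin m) => ex ((((c : ℕ) : ℝ) - ((m : ℝ) - 1) / 2) * x j)) =
      Matrix.of fun j c => ex (-(((m : ℝ) - 1) / 2 * x j)) *
        Matrix.vandermonde (fun j => ex (x j)) j c := by
    ext j c
    simp only [Matrix.of_apply, Matrix.vandermonde_apply, ← ex_nat, ← ex_add]
    congr 1
    ring
  rw [e, Matrix.det_mul_column, Matrix.det_vandermonde]
  simp only [ex_sub, prod_mul_distrib (g := fun k => ex ((x k + _) / 2)), ← ex_sum]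
  rw [prod_mul_distrib, ← ex_sum, sum_pairs, mul_left_comm, ← ex_add, ← sum_add_distrib]
  simp [ex_zero]

/-- the sine Vandermonde product -/
noncomputable def sv (x : Fin m → ℝ) : ℝ := ∏ j, ∏ k ∈ Ioi j, sn (x k - x j)

/-- the constant factor -/
noncomputable def cI (m : ℕ) : ℂ := ∏ j : Fin m, ∏ _k ∈ Ioi j, 2 * Complex.I

theorem cI_ne (m : ℕ) : cI m ≠ 0 :=
  prod_ne_zero_iff.2 fun _ _ => prod_ne_zero_iff.2 fun _ _ => mul_ne_zero two_ne_zero Complex.I_ne_zero

theorem det_sv (x : Fin m → ℝ) :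
    (Matrix.of fun j (c : Fin m) => ex ((((c : ℕ) : ℝ) - ((m : ℝ) - 1) / 2) * x j)).det =
      cI m * sv x := by
  rw [det_ctr, cI, sv]
  push_cast
  simp only [← prod_mul_distrib]

theorem sv_swap (x : Fin m → ℝ) {a b : Fin m} (h : a ≠ b) : sv (x ∘ Equiv.swap a b) = -sv x := by
  have e := Matrix.det_permute (Equiv.swap a b)
    (Matrix.of fun j (c : Fin m) => ex ((((c : ℕ) : ℝ) - ((m : ℝ) - 1) / 2) * x j))
  rw [det_sv, Equiv.Perm.sign_swap h] at e
  have e2 := (det_sv (x ∘ Equiv.swap a b)).symm.trans e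
  have : (sv (x ∘ Equiv.swap a b) : ℂ) = -sv x :=
    mul_left_cancel₀ (cI_ne m) (e2.trans (by simp))
  exact_mod_cast this

/-- two equal rows kill every symmetric function -/
theorem wt_sym (t : ι → ℝ) (R : Fin m → ι → ℝ) {a b : Fin m} (h : a ≠ b) (e : R a = R b)
    (Φ : (Fin m → ι) → ℂ) (hΦ : ∀ p, Φ (p ∘ Equiv.swap a b) = Φ p) :
    ∑ p, (wt t R p : ℂ) * Φ p = 0 := by
  have w : ∀ p, wt t R (p ∘ Equiv.swap a b) = -wt t R p := fun p => by
    have a1 : ∏ j, R j ((p ∘ Equiv.swap a b) j) = ∏ j, R j (p j) := by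
      rw [← Equiv.prod_comp (Equiv.swap a b) fun j => R j (p j)]
      refine prod_congr rfl fun j _ => ?_
      have : R (Equiv.swap a b j) = R j := by
        rw [Equiv.swap_apply_def]
        split_ifs with h1 h2
        exacts [h1 ▸ e.symm, h2 ▸ e, rfl]
      rw [this]
      rfl
    have a2 := sv_swap (t ∘ p) h
    change _ * sv ((t ∘ p) ∘ Equiv.swap a b) = -(_ * sv (t ∘ p))
    rw [a1, a2, mul_neg]
  have s := Equiv.sum_comp ((Equiv.swap a b).arrowCongr (Equiv.refl ι))
    fun p => (wt t R p : ℂ) * Φ p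
  have s2 : ∀ p : Fin m → ι, (Equiv.swap a b).arrowCongr (Equiv.refl ι) p = p ∘ Equiv.swap a b :=
    fun p => rfl
  simp only [s2, w, hΦ, Complex.ofReal_neg, neg_mul, sum_neg_distrib] at s
  linear_combination -s / 2

omit [Fintype ι] [DecidableEq ι] in
theorem wt_cons1 (t : ι → ℝ) (a : ι → ℝ) (r : Fin m → ι → ℝ) (y : ι) (q : Fin m → ι) :
    wt t (Fin.cons a r : Fin (m + 1) → ι → ℝ) (Fin.cons y q) =
      a y * (∏ k, sn (t (q k) - t y)) * wt t r q := by
  simp only [wt, Fin.prod_univ_succ, Fin.cons_zero, Fin.cons_succ, Fin.prod_Ioi_zero, Fin.prod_Ioi_succ]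
  ring

/-- antisymmetry -/
theorem kill_sym (t : ι → ℝ) (r : Fin m → ι → ℝ) (a : ℂ) (g : ι → ℂ) (j : Fin m) :
    ∑ i, (r j i : ℂ) * ex (-((m : ℝ) - 1) / 2 * t i) *
      ∑ q, (wt t r q : ℂ) * ((a + g i + ∑ k, g (q k)) * ∏ k, (ex (t i) - ex (t (q k)))) = 0 := by
  have s := wt_sym t (Fin.cons (r j) r : Fin (m + 1) → ι → ℝ) (a := 0) (b := j.succ)
    (Fin.succ_ne_zero j).symm rfl
    (fun p => (-(2 * Complex.I)) ^ m * ex (∑ k, t (p k) / 2) * (a + ∑ k, g (p k))) fun p => by
      rw [← Equiv.sum_comp (Equiv.swap 0 j.succ) fun k => t (p k) / 2,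
        ← Equiv.sum_comp (Equiv.swap 0 j.succ) fun k => g (p k)]
      rfl
  rw [← (Fin.consEquiv fun _ => ι).sum_comp, Fintype.sum_prod_type] at s
  refine Eq.trans (sum_congr rfl fun i _ => ?_) s
  rw [mul_sum]
  refine sum_congr rfl fun q _ => ?_
  have e : ∀ k, ex (t i) - ex (t (q k)) = -(2 * Complex.I) * (sn (t (q k) - t i) : ℂ) *
      (ex (t i / 2) * ex (t (q k) / 2)) := fun k => by
    rw [ex_sub, ← neg_sub (t (q k)), sn_neg, add_div, ex_add]
    push_cast
    ring
  have e2 : ex (-((m : ℝ) - 1) / 2 * t i) * ex (t i / 2) ^ m = ex (t i / 2) := by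
    rw [← ex_nat, ← ex_add]
    congr 1
    ring
  rw [show (Fin.consEquiv fun _ => ι) (i, q) = Fin.cons i q from rfl]
  simp only [wt_cons1, Fin.sum_univ_succ, Fin.cons_zero, Fin.cons_succ, e,
    prod_mul_distrib, prod_const, card_univ, Fintype.card_fin, ex_add, ex_sum]
  push_cast
  linear_combination (r j i : ℂ) * wt t r q * (a + g i + ∑ k, g (q k)) * (-(2 * Complex.I)) ^ m *
    (∏ k, (sn (t (q k) - t i) : ℂ)) * (∏ k, ex (t (q k) / 2)) * e2

/-- uniqueness -/
theorem kill_zero {t : ι → ℝ} {r : Fin m → ι → ℝ} (hZ : Zs t r ≠ 0) {E : Polynomial ℂ}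
    (hd : E.degree < m) (hK : Kill t r E) : E = 0 := by
  by_contra hE
  have hn := (Polynomial.natDegree_lt_iff_degree_lt hE).2 hd
  have d := det_rows (fun j i => (r j i : ℂ))
    fun (c : Fin m) i => ex ((((c : ℕ) : ℝ) - ((m : ℝ) - 1) / 2) * t i)
  simp only [det_sv] at d
  have d2 : (Matrix.of fun j (c : Fin m) => ∑ i, (r j i : ℂ) *
      ex ((((c : ℕ) : ℝ) - ((m : ℝ) - 1) / 2) * t i)).det = cI m * Zs t r := by
    rw [d, Zs]
    push_cast
    rw [mul_sum]
    refine sum_congr rfl fun q _ => ?_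
    simp only [wt, sv]
    push_cast
    ring
  have z := Matrix.eq_zero_of_mulVec_eq_zero (v := fun c : Fin m => E.coeff c)
    (d2 ▸ mul_ne_zero (cI_ne m) (Complex.ofReal_ne_zero.2 hZ)) (funext fun j => by
      refine Eq.trans ?_ (hK j)
      simp only [Matrix.mulVec, dotProduct, Matrix.of_apply, sum_mul,
        Polynomial.eval_eq_sum_range' hn, sum_range, mul_sum]
      rw [sum_comm]
      refine sum_congr rfl fun i _ => sum_congr rfl fun c _ => ?_
      rw [← ex_nat, show (((c : ℕ) : ℝ) - ((m : ℝ) - 1) / 2) * t i =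
        -((m : ℝ) - 1) / 2 * t i + (c : ℕ) * t i by ring, ex_add]
      ring)
  exact hE (Polynomial.leadingCoeff_eq_zero.1 (congrFun z ⟨_, hn⟩))

/-- the averaged polynomial is killed by the rows -/
theorem kill_ex (t : ι → ℝ) (r : Fin m → ι → ℝ) :
    ∃ E : Polynomial ℂ, E.natDegree ≤ m ∧ Kill t r E ∧ E.coeff m = Zs t r ∧
      (∀ n, m = n + 1 → E.coeff n = -Ns t r) ∧ E.coeff 0 = (-1) ^ m * Ps t r := by
  have dg : ∀ q : Fin m → ι,
      (∏ j, (Polynomial.X - Polynomial.C (ex (t (q j))))).natDegree = m := fun q => by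
    rw [Polynomial.natDegree_finsetProd_X_sub_C_eq_card, card_univ, Fintype.card_fin]
  refine ⟨∑ q, Polynomial.C (wt t r q : ℂ) * ∏ j, (Polynomial.X - Polynomial.C (ex (t (q j)))),
    Polynomial.natDegree_sum_le_of_forall_le _ _ fun q _ =>
      (Polynomial.natDegree_C_mul_le _ _).trans (dg q).le, fun j => ?_, ?_, fun n hn => ?_, ?_⟩
  · simpa [Polynomial.eval_finsetSum, Polynomial.eval_prod] using kill_sym t r 1 0 j
  · rw [Polynomial.finsetSum_coeff, Zs]
    push_cast
    refine sum_congr rfl fun q _ => ?_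
    have := (Polynomial.monic_prod_X_sub_C (fun j => ex (t (q j))) univ).coeff_natDegree
    rw [dg] at this
    rw [Polynomial.coeff_C_mul, this, mul_one]
  · rw [Polynomial.finsetSum_coeff, Ns, ← sum_neg_distrib]
    refine sum_congr rfl fun q _ => ?_
    have := Polynomial.prod_X_sub_C_coeff_card_pred univ (fun j => ex (t (q j))) (by simp [hn])
    rw [card_univ, Fintype.card_fin, show m - 1 = n by omega] at this
    rw [Polynomial.coeff_C_mul, this, mul_neg]
  · rw [Polynomial.finsetSum_coeff, Ps, mul_sum]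
    refine sum_congr rfl fun q _ => ?_
    rw [Polynomial.coeff_C_mul, Polynomial.coeff_zero_eq_eval_zero, Polynomial.eval_prod]
    simp only [Polynomial.eval_sub, Polynomial.eval_X, Polynomial.eval_C, zero_sub]
    rw [prod_neg, card_univ, Fintype.card_fin]
    ring

/-- the killed polynomial of degree at most m is unique up to a factor -/
theorem kill_uniq {t : ι → ℝ} {r : Fin m → ι → ℝ} (hZ : Zs t r ≠ 0) {E : Polynomial ℂ}
    (hd : E.natDegree ≤ m) (hK : Kill t r E) :
    (m = 0 → Ns t r = 0) ∧ ∀ n, m = n + 1 → E.coeff n * Zs t r = -(E.coeff m * Ns t r) := by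
  refine ⟨fun h => by subst h; simp [Ns], fun n hn => ?_⟩
  obtain ⟨F, f1, f2, f3, f4, -⟩ := kill_ex t r
  have z := kill_zero hZ (E := Polynomial.C (Zs t r : ℂ) * E - Polynomial.C (E.coeff m) * F)
    ((Polynomial.degree_lt_iff_coeff_zero _ _).2 fun k hk => by
      rw [Polynomial.coeff_sub, Polynomial.coeff_C_mul, Polynomial.coeff_C_mul]
      rcases hk.eq_or_lt with rfl | hk
      · rw [f3]; ring
      · rw [Polynomial.coeff_eq_zero_of_natDegree_lt (hd.trans_lt hk),
          Polynomial.coeff_eq_zero_of_natDegree_lt (f1.trans_lt hk)]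
        ring) fun j => by
      have a1 := hK j
      have a2 := f2 j
      simp only [Polynomial.eval_sub, Polynomial.eval_mul, Polynomial.eval_C, mul_sub,
        sum_sub_distrib, mul_left_comm _ (Zs t r : ℂ), mul_left_comm _ (E.coeff m), ← mul_sum]
      rw [a1, a2]
      ring
  have := congrArg (Polynomial.coeff · n) z
  simp only [Polynomial.coeff_sub, Polynomial.coeff_C_mul, f4 n hn, Polynomial.coeff_zero] at this
  linear_combination this

end Pool.Agent.Lib.MP_9dc04a_an.A2
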