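import Pool.Agent.Lib.MP_9dc04a_an.A2Pos
import Pool.Agent.Lib.MP_9dc04a_an.A2Det

set_option autoImplicit false

namespace Pool.Agent.Lib.MP_9dc04a_an.A2

open Finset

variable {ι : Type} [Fintype ι] [DecidableEq ι] {m : ℕ}

theorem r2_sv (x : Fin m → ℝ) (s : Equiv.Perm (Fin m)) :
    sv (x ∘ s) = ((Equiv.Perm.sign s : ℤ) : ℝ) * sv x := by
  have e := Matrix.det_permute s
    (Matrix.of fun j (c : Fin m) => ex ((((c : ℕ) : ℝ) - ((m : ℝ) - 1) / 2) * x j))
  rw [det_sv] at e
  have e2 := (det_sv (x ∘ s)).symm.trans e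
  rw [mul_left_comm] at e2
  exact_mod_cast mul_left_cancel₀ (cI_ne m) e2

theorem r2_sq (s : Equiv.Perm (Fin m)) :
    ((Equiv.Perm.sign s : ℤ) : ℝ) * ((Equiv.Perm.sign s : ℤ) : ℝ) = 1 := by
  rcases Int.units_eq_one_or (Equiv.Perm.sign s) with h | h <;> simp [h]

theorem pos_of_minor {n : ℕ} {t : Fin n → ℝ} (w : Win t) (tm : StrictMono t) (A : Fin m → Fin n → ℝ) {e : ℝ}
    (he : e = 1 ∨ e = -1)
    (h : ∀ q : Fin m → Fin n, StrictMono q → 0 ≤ e * (Matrix.of fun i k => A i (q k)).det) :
    Pos t A := by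
  refine ⟨e, he, fun F hF F0 => ?_⟩
  have u : ∀ q : Fin m → Fin n, 0 ≤ e * (Matrix.of fun i k => A i (q k)).det * sv (t ∘ q) := by
    intro q
    by_cases iq : Function.Injective q
    · have sm : StrictMono (q ∘ Tuple.sort q) :=
        (Tuple.monotone_sort q).strictMono_of_injective (iq.comp (Tuple.sort q).injective)
      have h1 := h _ sm
      have h2 : 0 ≤ sv ((t ∘ q) ∘ Tuple.sort q) := prod_nonneg fun j _ => prod_nonneg fun k hk =>
        Real.sin_nonneg_of_nonneg_of_le_pi
          (by have := tm (sm (mem_Ioi.1 hk)); simp only [Function.comp] at this ⊢; linarith)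
          (by have := w (q (Tuple.sort q k)) (q (Tuple.sort q j)); simp only [Function.comp]; linarith)
      have h3 := Matrix.det_permute' (Tuple.sort q) (Matrix.of fun i k => A i (q k))
      have h4 := mul_nonneg h1 h2
      rw [r2_sv] at h4
      change (Matrix.of fun i k => A i ((q ∘ Tuple.sort q) k)).det = _ at h3
      rw [h3] at h4
      have h5 := r2_sq (Tuple.sort q)
      generalize ((Equiv.Perm.sign (Tuple.sort q) : ℤ) : ℝ) = z at h4 h5
      rwa [show e * (z * (Matrix.of fun i k => A i (q k)).det) * (z * sv (t ∘ q)) =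
        z * z * (e * (Matrix.of fun i k => A i (q k)).det * sv (t ∘ q)) by ring, h5, one_mul] at h4
    · obtain ⟨a, b, hab, ne⟩ := Function.not_injective_iff.1 iq
      rw [Matrix.det_zero_of_column_eq ne fun k => by simp [hab]]
      simp
  have k : ∀ s : Equiv.Perm (Fin m), ∑ q, wt t A q * F q =
      ∑ q : Fin m → Fin n, ((Equiv.Perm.sign s : ℤ) : ℝ) * (∏ i, A i (q (s i))) * (sv (t ∘ q) * F q) := by
    intro s
    rw [← Equiv.sum_comp (s.symm.arrowCongr (Equiv.refl (Fin n)))]
    refine sum_congr rfl fun q _ => ?_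
    change (∏ i, A i (q (s i))) * sv ((t ∘ q) ∘ s) * F (q ∘ s) = _
    rw [r2_sv, hF]; ring
  have c : (Fintype.card (Equiv.Perm (Fin m)) : ℝ) * (e * ∑ q, wt t A q * F q) =
      ∑ q : Fin m → Fin n, e * (Matrix.of fun i k => A i (q k)).det * sv (t ∘ q) * F q := by
    rw [mul_left_comm, ← nsmul_eq_mul, ← card_univ, ← sum_const, sum_congr rfl fun s _ => k s, sum_comm,
      mul_sum]
    refine sum_congr rfl fun q _ => ?_
    rw [← sum_mul, ← Matrix.det_transpose, Matrix.det_apply']
    simp only [Matrix.transpose_apply, Matrix.of_apply]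
    ring
  refine nonneg_of_mul_nonneg_right ?_ (a := (Fintype.card (Equiv.Perm (Fin m)) : ℝ)) ?_
  · rw [c]; exact sum_nonneg fun q _ => mul_nonneg (u q) (F0 q)
  · exact_mod_cast Fintype.card_pos

theorem Pos.zs_ne {t : ι → ℝ} (w : Win t) (it : Function.Injective t) {A : Fin m → ι → ℝ} (p : Pos t A)
    (J : ι → Fin m → ℝ) (h : (Matrix.of fun i c => ∑ j, A i j * J j c).det ≠ 0) : Zs t A ≠ 0 := by
  intro hZ
  have z := p.zero hZ (G := fun q => (((Matrix.of fun k c => J (q k) c).det / sv (t ∘ q) : ℝ) : ℂ))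
    fun s q => by
      have h3 := Matrix.det_permute s (Matrix.of fun k c => J (q k) c)
      change (Matrix.of fun k c => J ((q ∘ s) k) c).det = _ at h3
      rw [h3, ← Function.comp_assoc, r2_sv, mul_div_mul_left]
      exact left_ne_zero_of_mul_eq_one (r2_sq s)
  have d := det_rows (fun j i => (A j i : ℂ)) fun c i => (J i c : ℂ)
  have cst : ∀ M : Matrix (Fin m) (Fin m) ℝ, (Matrix.of fun i c => (M i c : ℂ)).det = (M.det : ℝ) :=
    fun M => (Complex.ofRealHom.map_det M).symm
  apply h
  rw [← Complex.ofReal_eq_zero, ← cst, ← z]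
  simp only [Matrix.of_apply, Complex.ofReal_sum, Complex.ofReal_mul]
  rw [d]
  refine sum_congr rfl fun q _ => ?_
  have e := cst (Matrix.of fun k c => J (q k) c)
  simp only [Matrix.of_apply] at e
  rw [e, ← Complex.ofReal_prod, ← Complex.ofReal_mul, ← Complex.ofReal_mul]
  congr 1
  by_cases iq : Function.Injective q
  · have s : sv (t ∘ q) ≠ 0 := prod_ne_zero_iff.2 fun j _ => prod_ne_zero_iff.2 fun k hk s => by
      have := (Real.sin_eq_zero_iff_of_lt_of_lt
        (by have := w (q j) (q k); simp only [Function.comp]; linarith)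
        (by have := w (q k) (q j); simp only [Function.comp]; linarith)).1 s
      exact (mem_Ioi.1 hk).ne' (iq (it (by simp only [Function.comp] at this; linarith)))
    change _ = (∏ j, A j (q j)) * sv (t ∘ q) * _
    rw [mul_assoc, mul_div_cancel₀ _ s]
  · obtain ⟨a, b, hab, ne⟩ := Function.not_injective_iff.1 iq
    rw [Matrix.det_zero_of_row_eq ne (by funext c; simp [hab])]
    simp

end Pool.Agent.Lib.MP_9dc04a_an.A2
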