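import Pool.Agent.Lib.MP_9dc04a_an.O3Top

set_option autoImplicit false

open Metric Complex Filter Topology
open scoped ComplexConjugate

namespace Pool.Agent.Lib.MP_9dc04a_an

lemma b3_sp {φ : ℂ → ℂ} (hd : DifferentiableOn ℂ φ (ball 0 1))
    (hb : ∀ z ∈ ball (0:ℂ) 1, ‖φ z‖ ≤ 1) : ‖deriv φ 0‖ ≤ 1 - ‖φ 0‖ ^ 2 := by
  have m0 : (0:ℂ) ∈ ball (0:ℂ) 1 := mem_ball_self one_pos
  have nb : ball (0:ℂ) 1 ∈ 𝓝 (0:ℂ) := isOpen_ball.mem_nhds m0
  rcases (hb 0 m0).eq_or_lt with e | lt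
  · have hm : IsMaxOn (norm ∘ φ) (ball (0:ℂ) 1) 0 := fun z hz => by
      show ‖φ z‖ ≤ ‖φ 0‖
      rw [e]; exact hb z hz
    have := Complex.eqOn_of_isPreconnected_of_isMaxOn_norm (convex_ball (0:ℂ) 1).isPreconnected
      isOpen_ball hd m0 hm
    have ev : φ =ᶠ[𝓝 0] Function.const ℂ (φ 0) := by
      filter_upwards [nb] with z hz using this hz
    rw [ev.deriv_eq, e]
    have : deriv (Function.const ℂ (φ 0)) 0 = 0 := deriv_const _ _
    rw [this]; simp
  · set a := φ 0 with ha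
    have den : ∀ z ∈ ball (0:ℂ) 1, 1 - conj a * φ z ≠ 0 := by
      intro z hz h0
      have h1 : conj a * φ z = 1 := by linear_combination -h0
      have h2 : ‖a‖ * ‖φ z‖ = 1 := by
        have := congrArg norm h1
        simpa using this
      nlinarith [hb z hz, norm_nonneg a, norm_nonneg (φ z)]
    have dψ : DifferentiableOn ℂ (fun z => (φ z - a) / (1 - conj a * φ z)) (ball 0 1) :=
      (hd.sub_const a).div ((hd.const_mul _).const_sub 1) den
    have mp : Set.MapsTo (fun z => (φ z - a) / (1 - conj a * φ z)) (ball 0 1)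
        (closedBall ((fun z => (φ z - a) / (1 - conj a * φ z)) 0) 1) := by
      intro z hz
      have e0 : (fun z => (φ z - a) / (1 - conj a * φ z)) 0 = 0 := by simp [← ha]
      rw [e0, mem_closedBall_zero_iff, norm_div, div_le_one (norm_pos_iff.2 (den z hz))]
      have h1 : ‖φ z‖ ^ 2 ≤ 1 := by nlinarith [hb z hz, norm_nonneg (φ z)]
      have h2 : ‖a‖ ^ 2 ≤ 1 := by nlinarith [norm_nonneg a]
      rw [← sq_le_sq₀ (norm_nonneg _) (norm_nonneg _)]
      rw [Complex.sq_norm, Complex.normSq_apply] at h1 h2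
      rw [Complex.sq_norm, Complex.sq_norm, Complex.normSq_apply, Complex.normSq_apply]
      simp only [sub_re, sub_im, mul_re, mul_im, conj_re, conj_im, one_re, one_im]
      nlinarith [mul_nonneg (sub_nonneg.2 h1) (sub_nonneg.2 h2)]
    have hs := Complex.norm_deriv_le_one_of_mapsTo_ball dψ mp one_pos
    have d0 : HasDerivAt φ (deriv φ 0) 0 := (hd.differentiableAt nb).hasDerivAt
    have aa : conj a * a = ((‖a‖ ^ 2 : ℝ) : ℂ) := by
      rw [mul_comm, Complex.mul_conj, Complex.normSq_eq_norm_sq]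
    have pos : 0 < 1 - ‖a‖ ^ 2 := by nlinarith [norm_nonneg a]
    have dd : deriv (fun z => (φ z - a) / (1 - conj a * φ z)) 0 =
        deriv φ 0 / ((1 - ‖a‖ ^ 2 : ℝ) : ℂ) := by
      have := ((d0.sub_const a).div ((d0.const_mul (conj a)).const_sub 1) (den 0 m0)).deriv
      refine Eq.trans this ?_
      rw [← ha, aa]
      have ne : (1 - ((‖a‖ ^ 2 : ℝ) : ℂ)) ≠ 0 := by exact_mod_cast pos.ne'
      push_cast at ne ⊢
      field_simp
      ring
    rw [dd, norm_div, Complex.norm_real, Real.norm_of_nonneg pos.le, div_le_one pos] at hs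
    exact hs

lemma b3_sum {A B : ℂ} {c : ℝ} (h : ∀ lam : ℂ, ‖lam‖ ≤ 1 → ‖A + lam * B‖ ≤ c) :
    ‖A‖ + ‖B‖ ≤ c := by
  rcases eq_or_ne A 0 with rfl | hA
  · simpa using h 1 (by simp)
  rcases eq_or_ne B 0 with rfl | hB
  · simpa using h 1 (by simp)
  have pA : (0:ℝ) < ‖A‖ := norm_pos_iff.2 hA
  have pB : (0:ℝ) < ‖B‖ := norm_pos_iff.2 hB
  have := h (A / B * ((‖B‖ / ‖A‖ : ℝ) : ℂ)) (by
    rw [norm_mul, norm_div, Complex.norm_real, Real.norm_of_nonneg (by positivity)]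
    apply le_of_eq; field_simp)
  have e : A + A / B * ((‖B‖ / ‖A‖ : ℝ) : ℂ) * B = A * ((1 + ‖B‖ / ‖A‖ : ℝ) : ℂ) := by
    push_cast; field_simp
  rw [e, norm_mul, Complex.norm_real, Real.norm_of_nonneg (by positivity)] at this
  have e2 : ‖A‖ * (1 + ‖B‖ / ‖A‖) = ‖A‖ + ‖B‖ := by field_simp
  linarith

theorem b3_bound {h g : ℂ → ℂ} (hh : DifferentiableOn ℂ h (ball 0 1))
    (hg : DifferentiableOn ℂ g (ball 0 1)) (h1 : deriv h 0 = 1) (g1 : deriv g 0 = 0)
    (inj : Set.InjOn (fun z => h z + (starRingEnd ℂ) (g z)) (ball 0 1))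
    (jac : ∀ z ∈ ball (0:ℂ) 1, ‖deriv g z‖ < ‖deriv h z‖) :
    ‖iteratedDeriv 3 g 0‖ ≤ 10 := by
  have m0 : (0:ℂ) ∈ ball (0:ℂ) 1 := mem_ball_self one_pos
  have nb : ball (0:ℂ) 1 ∈ 𝓝 (0:ℂ) := isOpen_ball.mem_nhds m0
  have dh : DifferentiableOn ℂ (deriv h) (ball 0 1) := hh.deriv isOpen_ball
  have dg : DifferentiableOn ℂ (deriv g) (ball 0 1) := hg.deriv isOpen_ball
  have hne : ∀ z ∈ ball (0:ℂ) 1, deriv h z ≠ 0 := fun z hz =>
    norm_pos_iff.1 ((norm_nonneg _).trans_lt (jac z hz))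
  set ω : ℂ → ℂ := fun z => deriv g z / deriv h z with hω
  have dω : DifferentiableOn ℂ ω (ball 0 1) := dg.div dh hne
  have ω0 : ω 0 = 0 := by simp [hω, g1]
  have mp : Set.MapsTo ω (ball 0 1) (closedBall (ω 0) 1) := by
    intro z hz
    rw [ω0, mem_closedBall_zero_iff, hω]
    show ‖deriv g z / deriv h z‖ ≤ 1
    rw [norm_div, div_le_one (norm_pos_iff.2 (hne z hz))]
    exact (jac z hz).le
  set φ : ℂ → ℂ := dslope ω 0 with hφ
  have dφ : DifferentiableOn ℂ φ (ball 0 1) := (Complex.differentiableOn_dslope nb).2 dω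
  have bφ : ∀ z ∈ ball (0:ℂ) 1, ‖φ z‖ ≤ 1 := fun z hz => by
    simpa using Complex.norm_dslope_le_div_of_mapsTo_ball dω mp hz
  set k : ℂ → ℂ := fun z => φ z * deriv h z with hk
  have dk : DifferentiableOn ℂ k (ball 0 1) := dφ.mul dh
  have e1 : ∀ z ∈ ball (0:ℂ) 1, deriv g z = z * k z := by
    intro z hz
    have := sub_smul_dslope ω 0 z
    rw [ω0, sub_zero, sub_zero, smul_eq_mul] at this
    show deriv g z = z * (φ z * deriv h z)
    rw [← mul_assoc, hφ, this, hω]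
    exact (div_mul_cancel₀ _ (hne z hz)).symm
  have e2 : ∀ z ∈ ball (0:ℂ) 1, deriv (deriv g) z = k z + z * deriv k z := by
    intro z hz
    have n := isOpen_ball.mem_nhds hz
    have ev : deriv g =ᶠ[𝓝 z] fun w => w * k w := by
      filter_upwards [n] with w hw using e1 w hw
    rw [ev.deriv_eq]
    have := ((hasDerivAt_id z).mul (dk.differentiableAt n).hasDerivAt).deriv
    refine Eq.trans this ?_
    simp
  have e3 : deriv (deriv (deriv g)) 0 = 2 * deriv k 0 := by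
    have ev : deriv (deriv g) =ᶠ[𝓝 0] fun w => k w + w * deriv k w := by
      filter_upwards [nb] with w hw using e2 w hw
    rw [ev.deriv_eq]
    have := ((dk.differentiableAt nb).hasDerivAt.add ((hasDerivAt_id (0:ℂ)).mul
      ((dk.deriv isOpen_ball).differentiableAt nb).hasDerivAt)).deriv
    refine Eq.trans this ?_
    simp; ring
  have e4 : deriv k 0 = deriv φ 0 + φ 0 * deriv (deriv h) 0 := by
    have := ((dφ.differentiableAt nb).hasDerivAt.mul (dh.differentiableAt nb).hasDerivAt).deriv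
    refine Eq.trans this ?_
    rw [h1, mul_one]
  have e5 : deriv (deriv g) 0 = φ 0 := by
    rw [e2 0 m0]; simp [hk, h1]
  have i2 : ∀ p : ℂ → ℂ, iteratedDeriv 2 p 0 = deriv (deriv p) 0 := fun p => by
    rw [iteratedDeriv_succ, iteratedDeriv_one]
  have i3 : iteratedDeriv 3 g 0 = deriv (deriv (deriv g)) 0 := by
    rw [iteratedDeriv_succ, iteratedDeriv_succ, iteratedDeriv_one]
  have s : ‖deriv (deriv h) 0‖ + ‖φ 0‖ ≤ 6 := b3_sum fun lam hl => by
    have := order3 hh hg inj jac lam hl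
    rw [i2, i2, h1, g1, e5] at this
    simpa using this
  have sp := b3_sp dφ bφ
  have x1 := bφ 0 m0
  have x0 := norm_nonneg (φ 0)
  rw [i3, e3, e4, norm_mul]
  have t := norm_add_le (deriv φ 0) (φ 0 * deriv (deriv h) 0)
  rw [norm_mul] at t
  have u : ‖φ 0‖ * ‖deriv (deriv h) 0‖ ≤ ‖φ 0‖ * (6 - ‖φ 0‖) :=
    mul_le_mul_of_nonneg_left (by linarith) x0
  have n2 : ‖(2:ℂ)‖ = 2 := by simp
  rw [n2]
  nlinarith [mul_nonneg (sub_nonneg.2 x1) (sub_nonneg.2 (x1.trans one_le_two))]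

end Pool.Agent.Lib.MP_9dc04a_an
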