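import Mathlib

set_option autoImplicit false

namespace Pool.Agent.Lib.MP_9dc04a_an

open Complex Finset
open scoped Real

/-- Complex balls in fixed point with scale `2 ^ 40`. -/
structure Bl where
  re : ℤ
  im : ℤ
  rad : ℤ

def SS : ℤ := 1099511627776

namespace Bl

noncomputable def ctr (b : Bl) : ℂ := (b.re : ℂ) + (b.im : ℂ) * I

def Mem (z : ℂ) (b : Bl) : Prop := ‖z * (SS : ℂ) - b.ctr‖ ≤ (b.rad : ℝ)

def oct (b : Bl) : ℤ := max |b.re| |b.im| + min |b.re| |b.im| / 2 + 1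

def add (a b : Bl) : Bl := ⟨a.re + b.re, a.im + b.im, a.rad + b.rad⟩
def neg (a : Bl) : Bl := ⟨-a.re, -a.im, a.rad⟩
def smul (k : ℕ) (a : Bl) : Bl := ⟨k * a.re, k * a.im, k * a.rad⟩
def dv (a : Bl) (k : ℤ) : Bl := ⟨a.re / k, a.im / k, a.rad / k + 3⟩
def mul (a b : Bl) : Bl :=
  dv ⟨a.re * b.re - a.im * b.im, a.re * b.im + a.im * b.re,
    a.oct * b.rad + b.oct * a.rad + a.rad * b.rad⟩ SS
def one : Bl := ⟨SS, 0, 0⟩

def nw (x y : ℤ) : ℤ := (y + x / y) / 2
def rt (b : Bl) : ℤ :=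
  let x := b.re * b.re + b.im * b.im
  nw x (nw x (nw x (nw x (nw x b.oct))))
def up (b : Bl) : ℤ :=
  let y := b.rt + 1
  if 0 ≤ y ∧ b.re * b.re + b.im * b.im ≤ y * y then y + b.rad else b.oct + b.rad
def lo (b : Bl) : ℤ :=
  let y := b.rt - 1
  if y * y ≤ b.re * b.re + b.im * b.im then y - b.rad else -b.rad

def horner (h : Bl) : ℕ → ℕ → Bl
  | 0, _ => one
  | n + 1, k => add one (dv (mul h (horner h n (k + 1))) (k : ℤ))

def ex (h : Bl) : Bl :=
  let e := horner h 12 1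
  ⟨e.re, e.im, e.rad + 1000⟩

lemma norm_ctr_sq (b : Bl) : ‖b.ctr‖ ^ 2 = ((b.re * b.re + b.im * b.im : ℤ) : ℝ) := by
  rw [← normSq_eq_norm_sq, normSq_apply]
  simp [ctr]

lemma norm_ctr_le (b : Bl) : ‖b.ctr‖ ≤ (b.oct : ℝ) := by
  have key : ∀ x y : ℤ, 0 ≤ y → y ≤ x → x * x + y * y ≤ (x + y / 2 + 1) * (x + y / 2 + 1) ∧
      0 ≤ x + y / 2 + 1 := by
    intro x y hy hxy
    have h1 : y ≤ 2 * (y / 2) + 1 := by omega
    have h2 : 0 ≤ y / 2 := by omega
    constructor <;> nlinarith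
  have h : b.re * b.re + b.im * b.im ≤ b.oct * b.oct ∧ 0 ≤ b.oct := by
    unfold oct
    rw [← abs_mul_abs_self b.re, ← abs_mul_abs_self b.im]
    rcases le_total |b.re| |b.im| with h | h
    · rw [max_eq_right h, min_eq_left h, add_comm (|b.re| * |b.re|)]
      exact key _ _ (abs_nonneg _) h
    · rw [max_eq_left h, min_eq_right h]
      exact key _ _ (abs_nonneg _) h
  have h0 : (0:ℝ) ≤ b.oct := by exact_mod_cast h.2
  refine abs_le_of_sq_le_sq' ?_ h0 |>.2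
  rw [norm_ctr_sq, sq]
  exact_mod_cast h.1

lemma Mem.rad_nonneg {z : ℂ} {a : Bl} (h : Mem z a) : (0:ℝ) ≤ a.rad := (norm_nonneg _).trans h

lemma mem_one : Mem 1 one := by simp [Mem, one, ctr]

lemma Mem.add {z w : ℂ} {a b : Bl} (ha : Mem z a) (hb : Mem w b) : Mem (z + w) (a.add b) := by
  unfold Mem at *
  have : (z + w) * (SS : ℂ) - (a.add b).ctr = (z * SS - a.ctr) + (w * SS - b.ctr) := by
    simp [Bl.add, ctr]; ring
  rw [this]
  refine (norm_add_le _ _).trans ?_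
  simp only [Bl.add]; push_cast; linarith

lemma Mem.neg {z : ℂ} {a : Bl} (ha : Mem z a) : Mem (-z) a.neg := by
  unfold Mem at *
  have : (-z) * (SS : ℂ) - a.neg.ctr = -(z * SS - a.ctr) := by
    simp [Bl.neg, ctr]; ring
  rw [this, norm_neg]
  exact ha

lemma Mem.smul {z : ℂ} {a : Bl} (ha : Mem z a) (k : ℕ) : Mem (k * z) (a.smul k) := by
  unfold Mem at *
  have : (k * z) * (SS : ℂ) - (a.smul k).ctr = k * (z * SS - a.ctr) := by
    simp [Bl.smul, ctr]; ring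
  rw [this, norm_mul]
  simp only [Bl.smul, Complex.norm_natCast]; push_cast
  gcongr

lemma floor_err (a k : ℤ) (hk : 0 < k) : |(a:ℝ) / k - ((a / k : ℤ) : ℝ)| ≤ 1 := by
  have hk' : (0:ℝ) < k := by exact_mod_cast hk
  have h1 : k * (a / k) ≤ a := Int.mul_ediv_self_le hk.ne'
  have h2 : a < k * (a / k) + k := Int.lt_mul_ediv_self_add hk
  have h1' : (k:ℝ) * ((a / k : ℤ) : ℝ) ≤ a := by exact_mod_cast h1
  have h2' : (a:ℝ) < k * ((a / k : ℤ) : ℝ) + k := by exact_mod_cast h2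
  rw [abs_le]
  constructor
  · have : ((a / k : ℤ) : ℝ) ≤ a / k := by rw [le_div_iff₀ hk']; linarith
    linarith
  · have : (a:ℝ) / k ≤ ((a / k : ℤ) : ℝ) + 1 := by rw [div_le_iff₀ hk']; linarith
    linarith

lemma dv_gen {w : ℂ} {a : Bl} (h : ‖w - a.ctr‖ ≤ (a.rad : ℝ)) {k : ℤ} (hk : 0 < k) :
    ‖w / k - (a.dv k).ctr‖ ≤ ((a.dv k).rad : ℝ) := by
  have hk' : (0:ℝ) < k := by exact_mod_cast hk
  have hkc : (k:ℂ) ≠ 0 := by exact_mod_cast hk.ne'
  have e : w / k - (a.dv k).ctr = (w - a.ctr) / k +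
      ((((a.re:ℝ) / k - ((a.re / k : ℤ) : ℝ) : ℝ) : ℂ) +
        (((a.im:ℝ) / k - ((a.im / k : ℤ) : ℝ) : ℝ) : ℂ) * I) := by
    simp only [dv, ctr]; push_cast; field_simp; ring
  rw [e]
  have h1 : ‖(w - a.ctr) / k‖ ≤ (a.rad:ℝ) / k := by
    rw [norm_div, Complex.norm_intCast, abs_of_pos hk']
    gcongr
  have h2 := floor_err a.re k hk
  have h3 := floor_err a.im k hk
  have h4 := floor_err a.rad k hk
  refine (norm_add_le _ _).trans ?_
  have h5 := norm_add_le (((a.re:ℝ) / k - ((a.re / k : ℤ) : ℝ) : ℝ) : ℂ)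
    ((((a.im:ℝ) / k - ((a.im / k : ℤ) : ℝ) : ℝ) : ℂ) * I)
  rw [norm_mul, norm_I, mul_one, Complex.norm_real, Complex.norm_real, Real.norm_eq_abs,
    Real.norm_eq_abs] at h5
  simp only [dv]; push_cast
  have := (abs_le.1 h4).2
  push_cast at h5 ⊢
  linarith

lemma Mem.dv {z : ℂ} {a : Bl} (ha : Mem z a) {k : ℤ} (hk : 0 < k) : Mem (z / k) (a.dv k) := by
  have := dv_gen ha hk
  unfold Mem
  rwa [div_mul_eq_mul_div]

lemma SS_pos : 0 < SS := by decide

lemma Mem.mul {z w : ℂ} {a b : Bl} (ha : Mem z a) (hb : Mem w b) : Mem (z * w) (a.mul b) := by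
  have hS : (SS:ℂ) ≠ 0 := by exact_mod_cast SS_pos.ne'
  have ra := ha.rad_nonneg
  have rb := hb.rad_nonneg
  unfold Mem at *
  have := dv_gen (w := (z * SS) * (w * SS))
    (a := ⟨a.re * b.re - a.im * b.im, a.re * b.im + a.im * b.re,
      a.oct * b.rad + b.oct * a.rad + a.rad * b.rad⟩) ?_ SS_pos
  · have e : z * SS * (w * SS) / SS = z * w * (SS:ℂ) := by field_simp
    rw [e] at this
    exact this
  · have e : z * SS * (w * SS) - ctr ⟨a.re * b.re - a.im * b.im, a.re * b.im + a.im * b.re,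
        a.oct * b.rad + b.oct * a.rad + a.rad * b.rad⟩ =
        a.ctr * (w * SS - b.ctr) + b.ctr * (z * SS - a.ctr) +
          (z * SS - a.ctr) * (w * SS - b.ctr) := by
      simp only [ctr]; push_cast
      linear_combination ((a.im:ℂ) * b.im) * I_mul_I
    rw [e]
    refine (norm_add₃_le).trans ?_
    rw [norm_mul, norm_mul, norm_mul]
    have h1 := a.norm_ctr_le
    have h2 := b.norm_ctr_le
    push_cast
    gcongr
    · exact (norm_nonneg _).trans h1
    · exact (norm_nonneg _).trans h2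

lemma Mem.le_up {z : ℂ} {a : Bl} (ha : Mem z a) : ‖z‖ * SS ≤ (a.up : ℝ) := by
  have hS : (0:ℝ) < SS := by exact_mod_cast SS_pos
  have h1 : ‖z‖ * SS ≤ ‖a.ctr‖ + a.rad := by
    have : ‖z * (SS:ℂ)‖ = ‖z‖ * SS := by rw [norm_mul, Complex.norm_intCast, abs_of_pos hS]
    rw [← this]
    have := norm_le_insert' (z * (SS:ℂ)) a.ctr
    unfold Mem at ha
    linarith
  unfold up
  simp only
  split_ifs with h
  · have h0 : (0:ℝ) ≤ (a.rt + 1 : ℤ) := by exact_mod_cast h.1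
    have : ‖a.ctr‖ ≤ ((a.rt + 1 : ℤ) : ℝ) := by
      refine abs_le_of_sq_le_sq' ?_ h0 |>.2
      rw [norm_ctr_sq, sq]
      exact_mod_cast h.2
    push_cast at this ⊢
    linarith
  · have := a.norm_ctr_le
    push_cast
    linarith

lemma Mem.lo_le {z : ℂ} {a : Bl} (ha : Mem z a) : (a.lo : ℝ) ≤ ‖z‖ * SS := by
  have hS : (0:ℝ) < SS := by exact_mod_cast SS_pos
  have h1 : ‖a.ctr‖ - a.rad ≤ ‖z‖ * SS := by
    have : ‖z * (SS:ℂ)‖ = ‖z‖ * SS := by rw [norm_mul, Complex.norm_intCast, abs_of_pos hS]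
    rw [← this]
    have := norm_le_insert (z * (SS:ℂ)) a.ctr
    unfold Mem at ha
    linarith
  unfold lo
  simp only
  split_ifs with h
  · have : ((a.rt - 1 : ℤ) : ℝ) ≤ ‖a.ctr‖ := by
      refine le_trans (le_abs_self _) (abs_le_of_sq_le_sq ?_ (norm_nonneg _))
      rw [norm_ctr_sq, sq]
      exact_mod_cast h
    push_cast at this ⊢
    linarith
  · have := norm_nonneg a.ctr
    push_cast
    linarith

noncomputable def hor (h : ℂ) : ℕ → ℕ → ℂ
  | 0, _ => 1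
  | n + 1, k => 1 + h * hor h n (k + 1) / ((k : ℤ) : ℂ)

lemma Mem.horner {z : ℂ} {a : Bl} (ha : Mem z a) (n : ℕ) :
    ∀ k : ℕ, 0 < k → Mem (hor z n k) (horner a n k) := by
  induction n with
  | zero => intro k _; exact mem_one
  | succ n ih =>
    intro k hk
    exact mem_one.add ((ha.mul (ih (k + 1) (by omega))).dv (by exact_mod_cast hk))

lemma Mem.ex {z : ℂ} {a : Bl} (ha : Mem z a) (hz : ‖z‖ ≤ 1) : Mem (exp z) a.ex := by
  have h1 := ha.horner 12 1 one_pos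
  have h2 := Complex.exp_bound hz (n := 13) (by norm_num)
  have e : hor z 12 1 = ∑ m ∈ range 13, z ^ m / m.factorial := by
    simp only [hor, sum_range_succ, Nat.factorial]
    push_cast
    simp only [range_zero, sum_empty]
    ring
  rw [← e] at h2
  have h3 : ‖z‖ ^ 13 ≤ 1 := pow_le_one₀ (norm_nonneg _) hz
  unfold Mem at *
  have e2 : cexp z * (SS:ℂ) - a.ex.ctr =
      (hor z 12 1 * SS - (Bl.horner a 12 1).ctr) + (cexp z - hor z 12 1) * SS := by
    simp only [Bl.ex, ctr]; ring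
  rw [e2]
  refine (norm_add_le _ _).trans ?_
  rw [norm_mul, Complex.norm_intCast]
  have h4 : ‖cexp z - hor z 12 1‖ ≤ 1 / 5000000000 := by
    refine h2.trans ?_
    norm_num [Nat.factorial]
    linarith
  have h5 : |(SS:ℝ)| = 1099511627776 := by norm_num [SS]
  simp only [Bl.ex]; push_cast
  rw [h5]
  linarith

end Bl

end Pool.Agent.Lib.MP_9dc04a_an
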