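import Pool.Agent.Lib.MP_9dc04a_an.Ball

set_option autoImplicit false

namespace Pool.Agent.Lib.MP_9dc04a_an

open Complex Finset
open scoped Real

def ab : ℕ → ℚ
  | 0 => 1
  | 1 => 0
  | 2 => 2219 / 250000
  | 3 => 11 / 5000
  | 4 => 7091 / 10000000
  | 5 => 2047 / 25000000
  | 6 => 69 / 5000000
  | 7 => 2557 / 1000000000
  | 8 => 123 / 250000000
  | 9 => 7781 / 100000000000
  | 10 => 153 / 12500000000
  | 11 => 1969 / 1000000000000
  | 12 => 1599 / 5000000000000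
  | 13 => 627 / 12500000000000
  | 14 => 77 / 10000000000000
  | 15 => 1173 / 1000000000000000
  | 16 => 889 / 5000000000000000
  | _ => 182 / 1000000000000000

def LQ (M : ℕ → ℚ) (N ch : ℚ) (e : ℕ) : ℚ :=
  ∑ k ∈ range 18, ab k * (if e + k < 6 then M (e + k) else ch * N ^ (e + k + 1) / (e + k + 1))

def piB : Bl := ⟨0, 3454217483000, 1100000⟩

def pwB (Z : Bl) : ℕ → Bl
  | 0 => Bl.one
  | k + 1 => (pwB Z k).mul Z

def mB (Z Sh Ch : Bl) : ℕ → Bl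
  | 0 => Sh.neg
  | k + 1 => ((pwB Z (k + 1)).mul (if (k + 1) % 2 = 0 then Sh else Ch)).neg.add
      ((mB Z Sh Ch k).smul (k + 1)).neg

def rup (x d : ℤ) : ℚ := ((x * d / SS + 1 : ℤ) : ℚ) / d
def rdn (x d : ℤ) : ℚ := ((x * d / SS : ℤ) : ℚ) / d

def fin (m0 m1 m2 m3 m4 m5 N ch : ℚ) : Bool :=
  let M : ℕ → ℚ := fun k => match k with
    | 0 => 0 | 1 => m1 | 2 => m2 | 3 => m3 | 4 => m4 | _ => m5
  let t := m0 - LQ M N ch 0 - ch * N ^ 6 / 780000
  decide (N ≤ 81 / 20) && decide (0 < t) &&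
    decide ((LQ M N ch 1) ^ 2 + (LQ M N ch 2 / 13) ^ 2 + (LQ M N ch 3 / 169) ^ 2 +
      (LQ M N ch 4 / 2197) ^ 2 < 169 * t ^ 2)

def boxB (q i j : ℤ) : Bl :=
  ⟨(2 * i + 1) * q * 4294967296, (2 * j + 1) * q * 4294967296, 6074001000 * q⟩

def evalB (c : Bl) : Bool :=
  let E1 := c.ex
  let E2 := c.neg.ex
  let Sh := E1.add E2.neg
  let Ch := E1.add E2
  let Z := piB.add c
  fin (rdn (mB Z Sh Ch 0).lo 65536) (rup (mB Z Sh Ch 1).up 65536) (rup (mB Z Sh Ch 2).up 65536)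
    (rup (mB Z Sh Ch 3).up 65536) (rup (mB Z Sh Ch 4).up 65536) (rup (mB Z Sh Ch 5).up 65536)
    (rup Z.up 1024) (rup (E1.up + E2.up) 1024)

def far (q i j : ℤ) : Bool :=
  let n2 := 100000000 * (q * q * ((2 * i + 1) * (2 * i + 1) + (2 * j + 1) * (2 * j + 1)))
  decide (n2 < (2176000 - 14143 * q) * (2176000 - 14143 * q)) ||
    decide ((2176000 + 14143 * q) * (2176000 + 14143 * q) < n2)

def tryP : ℕ → ℤ → ℤ → Bool
  | 3, _, j => decide (j < 1)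
  | 2, _, j => decide (j < 11)
  | 1, i, j => decide (j < 39) || (decide (-19 < i) && decide (i < 18))
  | _, _, _ => true

def chk : ℕ → ℤ → ℤ → Bool
  | 0, i, j => far 1 i j || evalB (boxB 1 i j)
  | d + 1, i, j => far (2 ^ (d + 1)) i j || (tryP (d + 1) i j && evalB (boxB (2 ^ (d + 1)) i j)) ||
      (chk d (2 * i) (2 * j) && chk d (2 * i + 1) (2 * j) && chk d (2 * i) (2 * j + 1) &&
        chk d (2 * i + 1) (2 * j + 1))

def row (j : ℕ) : Bool := (List.range 28).all fun i => chk 3 ((i:ℤ) - 14) ((j:ℤ) - 14)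

end Pool.Agent.Lib.MP_9dc04a_an
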