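import Pool.Agent.Lib.MP_9dc04a_an.ChkDef

set_option autoImplicit false

namespace Pool.Agent.Lib.MP_9dc04a_an

theorem row0 : row 0 = true := by decide +kernel
theorem row1 : row 1 = true := by decide +kernel
theorem row2 : row 2 = true := by decide +kernel
theorem row3 : row 3 = true := by decide +kernel
theorem row4 : row 4 = true := by decide +kernel
theorem row5 : row 5 = true := by decide +kernel
theorem row6 : row 6 = true := by decide +kernel
theorem row7 : row 7 = true := by decide +kernel
theorem row8 : row 8 = true := by decide +kernel
theorem row9 : row 9 = true := by decide +kernel
theorem row10 : row 10 = true := by decide +kernel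
theorem row11 : row 11 = true := by decide +kernel
theorem row12 : row 12 = true := by decide +kernel
theorem row13 : row 13 = true := by decide +kernel
theorem row14 : row 14 = true := by decide +kernel
theorem row15 : row 15 = true := by decide +kernel
theorem row16 : row 16 = true := by decide +kernel
theorem row17 : row 17 = true := by decide +kernel
theorem row18 : row 18 = true := by decide +kernel
theorem row19 : row 19 = true := by decide +kernel
theorem row20 : row 20 = true := by decide +kernel
theorem row21 : row 21 = true := by decide +kernel
theorem row22 : row 22 = true := by decide +kernel
theorem row23 : row 23 = true := by decide +kernel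
theorem row24 : row 24 = true := by decide +kernel
theorem row25 : row 25 = true := by decide +kernel
theorem row26 : row 26 = true := by decide +kernel
theorem row27 : row 27 = true := by decide +kernel

theorem row_all (a : ℕ) (ha : a < 28) : row a = true := by
  interval_cases a
  · exact row0
  · exact row1
  · exact row2
  · exact row3
  · exact row4
  · exact row5
  · exact row6
  · exact row7
  · exact row8
  · exact row9
  · exact row10
  · exact row11
  · exact row12
  · exact row13
  · exact row14
  · exact row15
  · exact row16
  · exact row17
  · exact row18
  · exact row19
  · exact row20
  · exact row21
  · exact row22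
  · exact row23
  · exact row24
  · exact row25
  · exact row26
  · exact row27

theorem chk_all (i j : ℤ) (hi : -14 ≤ i) (hi' : i < 14) (hj : -14 ≤ j) (hj' : j < 14) :
    chk 3 i j = true := by
  have h1 := row_all (j + 14).toNat (by omega)
  simp only [row, List.all_eq_true, List.mem_range] at h1
  have h2 := h1 (i + 14).toNat (by omega)
  have e1 : (((i + 14).toNat : ℕ) : ℤ) - 14 = i := by omega
  have e2 : (((j + 14).toNat : ℕ) : ℤ) - 14 = j := by omega
  rwa [e1, e2] at h2

end Pool.Agent.Lib.MP_9dc04a_an
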