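import Pool.Agent.Lib.MP_9dc04a_an.Model

set_option autoImplicit false

namespace Pool.Agent.Lib.MP_9dc04a_an

open Complex hiding sin cos exp log log_one log_exp log_mul log_inv exp_log
open Metric Filter Topology Real Set
open scoped Real

lemma loc_inv {f : ℂ → ℂ} {x : ℂ} (hf : AnalyticAt ℂ f x) (h : deriv f x ≠ 0) :
    ∃ χ : ℂ → ℂ, AnalyticAt ℂ χ (f x) ∧ χ (f x) = x ∧ ∀ᶠ y in 𝓝 (f x), f (χ y) = y :=
  ⟨_, hf.analyticAt_localInverse h, HasStrictFDerivAt.localInverse_apply_image ..,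
    HasStrictDerivAt.eventually_right_inverse ..⟩

lemma an_of {f f' : ℂ → ℂ} {x : ℂ} (h : ∀ᶠ z in 𝓝 x, HasDerivAt f (f' z) z) : AnalyticAt ℂ f x :=
  analyticAt_iff_eventually_differentiableAt.2 (h.mono fun _ hz => hz.differentiableAt)

lemma an_dslope {f : ℂ → ℂ} {x : ℂ} (h : AnalyticAt ℂ f x) : AnalyticAt ℂ (dslope f x) x := by
  obtain ⟨p, hp⟩ := h
  exact ⟨_, hp.has_fpower_series_dslope_fslope⟩

lemma sq_factor {F u : ℂ → ℂ} {x : ℂ} (h0 : F x = 0)
    (h : ∀ᶠ z in 𝓝 x, HasDerivAt F ((z - x) * u z) z) (hu : ContinuousAt u x) :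
    ∃ k : ℂ → ℂ, AnalyticAt ℂ k x ∧ (∀ z, F z = (z - x) ^ 2 * k z) ∧ 2 * k x = u x := by
  have an := an_of h
  have ak := an_dslope (an_dslope an)
  set k := dslope (dslope F x) x with hk
  have e : ∀ z, F z = (z - x) ^ 2 * k z := fun z => by
    have a := sub_smul_dslope F x z
    have b := sub_smul_dslope (dslope F x) x z
    rw [dslope_same, h.self_of_nhds.deriv] at b
    simp only [smul_eq_mul, h0, sub_zero, sub_self, zero_mul] at a b
    rw [← a, ← b, hk]; ring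
  refine ⟨k, ak, e, ?_⟩
  have t1 : Tendsto (fun z => 2 * k z + (z - x) * deriv k z) (𝓝[≠] x) (𝓝 (2 * k x)) := by
    have : ContinuousAt (fun z => 2 * k z + (z - x) * deriv k z) x :=
      (ak.continuousAt.const_mul 2).add
        ((continuousAt_id.sub continuousAt_const).mul ak.deriv.continuousAt)
    simpa using this.tendsto.mono_left nhdsWithin_le_nhds
  refine tendsto_nhds_unique t1 ((hu.tendsto.mono_left nhdsWithin_le_nhds).congr' ?_)
  filter_upwards [self_mem_nhdsWithin, nhdsWithin_le_nhds h,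
    nhdsWithin_le_nhds ak.eventually_analyticAt] with z hz h1 h2
  have d : HasDerivAt F (2 * (z - x) * k z + (z - x) ^ 2 * deriv k z) z := by
    rw [funext e]
    exact ((((hasDerivAt_id' z).sub_const x).pow 2).mul
      h2.differentiableAt.hasDerivAt).congr_deriv (by simp)
  refine mul_left_cancel₀ (sub_ne_zero.2 hz) ?_
  rw [h1.unique d]; ring

lemma Dom.ev {z : ℂ} (h : Dom z) : ∀ᶠ w in 𝓝 z, Dom w := isOpen_Dom.mem_nhds h

lemma an_sg {z : ℂ} (h : Dom z) : AnalyticAt ℂ sg z :=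
  an_of (h.ev.mono fun _ hw => (d_sg hw).hasDerivAt)

lemma an_Lg {z : ℂ} (h : Dom z) : AnalyticAt ℂ Lg z :=
  an_of (h.ev.mono fun _ hw => (d_Lg hw).hasDerivAt)

/-- second order expansion of the model in the coordinate `σ` -/
lemma expand {z : ℂ} (h : Dom z) (h' : 0 < z.im) : ∃ χ : ℂ → ℂ, ContinuousAt χ 0 ∧ χ 0 = z ∧
    (∀ᶠ ζ in 𝓝 0, sg (χ ζ) = sg z + ζ) ∧ HasDerivAt (fun ζ => Lg (χ ζ)) (z * sg' z)⁻¹ 0 ∧
    ∃ c : ℂ, 0 ≤ c.re ∧ ∀ κ > 0, ∀ᶠ ζ in 𝓝 (0:ℂ), VV (χ ζ) - VV z ≤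
      -2 * (Lg z).im * ζ.re + -2 * log ‖z‖ * ζ.im + (c * ζ ^ 2).re + κ * ‖ζ‖ ^ 2 := by
  have p := zsg_im h h'
  have n : z * sg' z ≠ 0 := by rintro e; simp [e] at p
  have n' : sg' z ≠ 0 := right_ne_zero_of_mul n
  obtain ⟨χ, a1, a2, a3⟩ := loc_inv (f := fun w => sg w - sg z) (x := z)
    ((an_sg h).sub analyticAt_const) (by rwa [((d_sg h).hasDerivAt.sub_const _).deriv])
  simp only [sub_self] at a1 a2 a3
  have ed : ∀ᶠ ζ in 𝓝 0, Dom (χ ζ) := a1.continuousAt.eventually (by rw [a2]; exact h.ev)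
  have dχ : ∀ᶠ ζ in 𝓝 0, HasDerivAt χ (deriv χ ζ) ζ ∧ sg' (χ ζ) * deriv χ ζ = 1 := by
    filter_upwards [ed, a1.eventually_analyticAt, a3.eventually_nhds] with ζ h1 h2 h3
    have d := h2.differentiableAt.hasDerivAt
    refine ⟨d, ?_⟩
    exact ((HasDerivAt.comp ζ (h₂ := sg) (d_sg h1).hasDerivAt d).sub_const (sg z)).unique
      ((hasDerivAt_id' ζ).congr_of_eventuallyEq h3)
  have dL : HasDerivAt (fun ζ => Lg (χ ζ)) (z * sg' z)⁻¹ 0 := by
    obtain ⟨d, e⟩ := dχ.self_of_nhds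
    refine (HasDerivAt.comp 0 (h₂ := Lg) (d_Lg ed.self_of_nhds).hasDerivAt d).congr_deriv ?_
    rw [a2] at e ⊢
    rw [eq_inv_of_mul_eq_one_right e, mul_inv, one_div]
  have aL : AnalyticAt ℂ (fun ζ => Lg (χ ζ)) 0 :=
    AnalyticAt.comp (g := Lg) (an_Lg ed.self_of_nhds) a1
  refine ⟨χ, a1.continuousAt, a2, a3.mono fun ζ e => sub_eq_iff_eq_add'.1 e, dL, ?_⟩
  obtain ⟨k, k1, k2, k3⟩ := sq_factor (F := fun ζ => La (χ ζ) - La z + Lg z * ζ) (x := 0)
    (u := fun ζ => -dslope (fun ζ => Lg (χ ζ)) 0 ζ) (by simp [a2]) (by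
      filter_upwards [ed, dχ] with ζ h1 h2
      refine (((HasDerivAt.comp ζ (h₂ := La) (d_La h1) h2.1).sub_const _).add
        ((hasDerivAt_id' ζ).const_mul _)).congr_deriv ?_
      have := sub_smul_dslope (fun ζ => Lg (χ ζ)) 0 ζ
      simp only [smul_eq_mul, a2] at this
      rw [mul_assoc, h2.2, mul_neg, this]; ring) (an_dslope aL).continuousAt.neg
  rw [dslope_same, dL.deriv] at k3
  refine ⟨-2 * I * k 0, ?_, fun κ hκ => ?_⟩
  · have : -2 * I * k 0 = I * (z * sg' z)⁻¹ := by linear_combination (-I) * k3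
    rw [this, mul_re, I_re, I_im, inv_im]
    have := normSq_nonneg (z * sg' z)
    have : 0 ≤ (z * sg' z).im / normSq (z * sg' z) := by positivity
    rw [neg_div]; linarith
  · have c : ContinuousAt (fun ζ => 2 * ‖k ζ - k 0‖) 0 :=
      ((k1.continuousAt.sub continuousAt_const).norm).const_mul 2
    filter_upwards [c.eventually_lt continuousAt_const (by simpa using hκ)] with ζ hζ
    have e : La (χ ζ) - La z = -(Lg z * ζ) + ζ ^ 2 * k 0 + ζ ^ 2 * (k ζ - k 0) := by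
      have := k2 ζ
      simp only [sub_zero] at this
      linear_combination this
    have b : (ζ ^ 2 * (k ζ - k 0)).im ≤ ‖ζ‖ ^ 2 * ‖k ζ - k 0‖ := by
      rw [← norm_pow, ← norm_mul]; exact (le_abs_self _).trans (abs_im_le_norm _)
    have e2 : (-2 * I * k 0 * ζ ^ 2).re = 2 * (ζ ^ 2 * k 0).im := by
      rw [mul_comm (ζ ^ 2), mul_assoc, mul_assoc]
      generalize k 0 * ζ ^ 2 = w
      simp
    have e3 := congrArg im e
    rw [sub_im, add_im, add_im, neg_im, mul_im (Lg z), Lg_re] at e3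
    unfold VV
    rw [e2]
    nlinarith [sq_nonneg ‖ζ‖]

lemma sq_surj {F k : ℂ → ℂ} {x : ℝ} (ak : AnalyticAt ℂ k x) (e : ∀ z, F z = (z - x) ^ 2 * k z)
    (k0 : k x ≠ 0) (ki : (k x).im = 0) (hr : ∀ᶠ z in 𝓝 (x:ℂ), z.im = 0 → (F z).im = 0)
    {U : Set ℂ} (hU : U ∈ 𝓝 (x:ℂ)) : ∀ᶠ ζ in 𝓝 (0:ℂ), ∃ z ∈ U, 0 ≤ z.im ∧ F z = ζ := by
  have s1 : k x / k x ∈ slitPlane := by rw [div_self k0]; exact one_mem_slitPlane
  have a1 : AnalyticAt ℂ (fun z => cexp (Complex.log (k z / k x) / 2)) x :=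
    ((ak.div_const.clog s1).div_const).cexp'
  have v1 : cexp (Complex.log (k x / k x) / 2) = 1 := by simp [k0]
  set ψ : ℂ → ℂ := fun z => (z - x) * cexp (Complex.log (k z / k x) / 2) with hψ
  have dψ : HasDerivAt ψ 1 x :=
    (((hasDerivAt_id' (x:ℂ)).sub_const _).mul a1.differentiableAt.hasDerivAt).congr_deriv
      (by simp [k0])
  have aψ : AnalyticAt ℂ ψ x := (analyticAt_id.sub analyticAt_const).mul a1
  obtain ⟨χ, b1, b2, b3⟩ := loc_inv aψ (by rw [dψ.deriv]; exact one_ne_zero)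
  have ψ0 : ψ x = 0 := by simp [hψ]
  rw [ψ0] at b1 b2 b3
  have dχ : HasDerivAt χ 1 0 := by
    have d := b1.differentiableAt.hasDerivAt
    have := (HasDerivAt.comp (0:ℂ) (h₂ := ψ) (by rw [b2]; exact dψ) d).unique
      ((hasDerivAt_id' 0).congr_of_eventuallyEq b3)
    exact d.congr_deriv (by rwa [one_mul] at this)
  have c1 : ∀ᶠ z in 𝓝 (x:ℂ), ‖k z / k x - 1‖ < 1 :=
    ((ak.continuousAt.div_const _).sub continuousAt_const).norm.eventually_lt continuousAt_const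
      (by simp [k0])
  have c2 : ∀ᶠ z in 𝓝 (x:ℂ), F z = k x * ψ z ^ 2 ∧ (z.im = 0 → (ψ z).im = 0) := by
    filter_upwards [c1, hr] with z h1 h2
    have p : 0 < (k z / k x).re := by
      have := (abs_lt.1 ((abs_re_le_norm _).trans_lt h1)).1
      simp only [sub_re, one_re] at this; linarith
    refine ⟨?_, fun hz => ?_⟩
    · rw [e, hψ]
      simp only
      rw [mul_pow, ← Complex.exp_nat_mul, Nat.cast_ofNat, mul_div_cancel₀ _ two_ne_zero,
        Complex.exp_log (ne_of_re p)]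
      field_simp
    · by_cases zx : z = x
      · simp [hψ, zx]
      have r : (k z).im = 0 := by
        have a := h2 hz
        have b : z - x = ((z.re - x : ℝ) : ℂ) := Complex.ext (by simp) (by simpa using hz)
        rw [e, b, ← ofReal_pow, im_ofReal_mul, mul_eq_zero] at a
        refine a.resolve_left (pow_ne_zero _ fun h0 => zx ?_)
        rw [h0] at b; exact sub_eq_zero.1 b
      have : arg (k z / k x) = 0 := arg_eq_zero_iff.2 ⟨p.le, by simp [div_im, r, ki]⟩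
      simp [hψ, exp_im, log_im, this, hz]
  have c3 : ∀ᶠ p in 𝓝 (0:ℂ), ‖χ p - x - p‖ ≤ 1 / 2 * ‖p‖ := by
    simpa [b2] using (hasDerivAt_iff_isLittleO_nhds_zero.1 dχ).def (c := 1 / 2) (by norm_num)
  have t : Tendsto χ (𝓝 0) (𝓝 x) := by simpa [ContinuousAt, b2] using b1.continuousAt
  obtain ⟨ρ, ρ0, hρ⟩ := Metric.eventually_nhds_iff.1 ((((b3.and c3).and (t.eventually c2)).and
    (t.eventually hU)).and b1.eventually_continuousAt)
  have c4 : ∀ᶠ ζ in 𝓝 (0:ℂ), ‖ζ / k x‖ < ρ ^ 2 :=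
    (continuousAt_id.div_const _).norm.eventually_lt continuousAt_const (by simpa using pow_pos ρ0 2)
  filter_upwards [c4] with ζ hζ
  obtain ⟨p, p1, p2⟩ : ∃ p : ℂ, p ^ 2 = ζ / k x ∧ 0 ≤ p.im := by
    obtain ⟨p, hp⟩ := IsAlgClosed.exists_pow_nat_eq (ζ / k x) two_pos
    rcases le_total 0 p.im with c | c
    · exact ⟨p, hp, c⟩
    · exact ⟨-p, by simpa using hp, by simpa using c⟩
  have np : ‖p‖ < ρ := by
    rw [← p1, norm_pow] at hζ
    exact lt_of_pow_lt_pow_left₀ 2 ρ0.le hζ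
  obtain ⟨⟨⟨⟨h1, h2⟩, h3⟩, h4⟩, -⟩ := hρ (y := p) (by rwa [dist_zero_right])
  refine ⟨χ p, h4, ?_, by rw [h3.1, h1, p1, mul_div_cancel₀ _ k0]⟩
  by_contra hc
  push Not at hc
  have p0 : 0 < ‖p‖ := norm_pos_iff.2 fun e0 => by simp [e0, b2] at hc
  set q : ℝ → ℂ := fun τ => (1 - τ : ℝ) * p + (τ * ‖p‖ : ℝ) * I with hq
  have nq : ∀ τ ∈ Icc (0:ℝ) 1, dist (q τ) 0 < ρ := fun τ hτ => by
    rw [dist_zero_right]
    refine ((norm_add_le _ _).trans (le_of_eq ?_)).trans_lt np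
    rw [norm_mul, norm_mul, norm_I, Complex.norm_real, Complex.norm_real,
      Real.norm_of_nonneg (by linarith [hτ.2]), Real.norm_of_nonneg (mul_nonneg hτ.1 p0.le)]
    ring
  have cq : ContinuousOn (fun τ => (χ (q τ)).im) (Icc 0 1) := fun τ hτ =>
    (continuous_im.continuousAt.comp (ContinuousAt.comp (f := q) (hρ (nq τ hτ)).2
      (by simp only [hq]; fun_prop))).continuousWithinAt
  have q0 : (χ (q 0)).im < 0 := by simpa [hq] using hc
  have q1 : 0 < (χ (q 1)).im := by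
    have := (hρ (nq 1 (by simp))).1.1.1.2
    have e1 : q 1 = ‖p‖ * I := by simp [hq]
    rw [e1] at this ⊢
    have a := (abs_le.1 ((abs_im_le_norm _).trans this)).1
    simp at a
    linarith
  obtain ⟨τ, hτ, e0⟩ := intermediate_value_Icc zero_le_one cq ⟨q0.le, q1.le⟩
  simp only at e0
  obtain ⟨⟨⟨⟨g1, -⟩, g3⟩, -⟩, -⟩ := hρ (nq τ hτ)
  have := g3.2 e0
  rw [g1] at this
  have τ0 : τ = 0 := by
    simp [hq] at this
    have a := mul_nonneg (sub_nonneg.2 hτ.2) p2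
    have b := mul_nonneg hτ.1 p0.le
    exact (mul_eq_zero.1 (by linarith : τ * ‖p‖ = 0)).resolve_right p0.ne'
  rw [τ0] at e0
  exact q0.ne e0

lemma sg'_eq {z : ℂ} (h : Dom z) : sg' z = 2 * (z ^ 2 + 3 * z + 1) / (z * ((1 + z) * (1 - z))) := by
  have := h.ne; have := ne_of_re (strip_p h.1); have := ne_of_re (strip_m h.1)
  rw [sg']; field_simp; ring

/-- the tip of the slit -/
lemma tip {x : ℝ} (x0 : x < 0) (x1 : -1 < x) (h : sg' x = 0) {κ : ℝ} (hκ : 0 < κ) :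
    ∀ᶠ ζ in 𝓝 (0:ℂ), ∃ z, SS z ∧ sg z = sg x + ζ ∧
      VV z - VV x ≤ -2 * π * ζ.re + -2 * log ‖(x:ℂ)‖ * ζ.im + κ * ‖ζ‖ := by
  have d : Dom x := ⟨by simp [abs_lt]; constructor <;> linarith, Or.inr (by simpa using x0.ne)⟩
  have n0 := d.ne
  have n1 := ne_of_re (strip_p d.1)
  have n2 := ne_of_re (strip_m d.1)
  have q : (x:ℂ) ^ 2 + 3 * x + 1 = 0 := by
    rw [sg'_eq d, div_eq_zero_iff] at h
    simpa [n0, n1, n2] using h
  set u : ℂ → ℂ := fun z => 2 * (z + x + 3) / (z * ((1 + z) * (1 - z))) with hu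
  have cu : ContinuousAt u x := ContinuousAt.div (by fun_prop) (by fun_prop) (by simp [n0, n1, n2])
  have eu : ∀ z, Dom z → sg' z = (z - x) * u z := fun z hz => by
    rw [sg'_eq hz, hu, ← mul_div_assoc]; congr 1; linear_combination 2 * q
  obtain ⟨k, k1, k2, k3⟩ := sq_factor (F := fun z => sg z - sg x) (x := x) (u := u) (sub_self _)
    (d.ev.mono fun z hz => ((d_sg hz).hasDerivAt.sub_const _).congr_deriv (eu z hz)) cu
  obtain ⟨b, b1, b2, b3⟩ := sq_factor (F := fun z => La z - La x + Lg x * (sg z - sg x)) (x := x)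
    (u := fun z => (Lg x - Lg z) * u z) (by simp)
    (d.ev.mono fun z hz => (((d_La hz).sub_const _).add (((d_sg hz).hasDerivAt.sub_const
      _).const_mul _)).congr_deriv (by rw [eu z hz]; ring))
    ((continuousAt_const.sub (an_Lg d).continuousAt).mul cu)
  have ux : u x = ((2 * (x + x + 3) / (x * ((1 + x) * (1 - x))) : ℝ) : ℂ) := by simp [hu]
  have k0 : k x ≠ 0 := fun e => by
    rw [e, mul_zero, ux, eq_comm, ofReal_eq_zero, div_eq_zero_iff] at k3
    rcases k3 with a | a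
    · linarith
    · exact mul_ne_zero x0.ne (mul_pos (by linarith) (by linarith)).ne' a
  have ki : (k x).im = 0 := by
    have := congrArg im k3
    rw [ux, ofReal_im] at this
    simpa using this
  have b0 : b x = 0 := by simpa using b3
  have neg : ∀ᶠ z in 𝓝 (x:ℂ), z.re < 0 :=
    continuous_re.continuousAt.eventually_lt continuousAt_const (by simpa using x0)
  have lt1 : ∀ᶠ z in 𝓝 (x:ℂ), ‖z‖ < 1 :=
    continuous_norm.continuousAt.eventually_lt continuousAt_const (by simpa using d.1)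
  have bk : ∀ᶠ z in 𝓝 (x:ℂ), 2 * ‖b z‖ < κ * ‖k z‖ :=
    (b1.continuousAt.norm.const_mul 2).eventually_lt (k1.continuousAt.norm.const_mul κ)
      (by simp [b0, hκ, k0])
  have := sq_surj k1 k2 k0 ki (by
    filter_upwards [d.ev, neg] with z h1 h2 h3
    rw [sub_im, (real_neg h1.1 h3 h2).1, (real_neg d.1 (by simp) (by simpa using x0)).1, sub_self])
    ((neg.and lt1).and bk)
  filter_upwards [this]
  rintro ζ ⟨z, ⟨⟨h1, h2⟩, h3⟩, h4, h5⟩
  refine ⟨z, ⟨h2.le, h4, ?_, ?_, ?_⟩, by rw [← h5]; ring, ?_⟩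
  · rintro rfl; simp at h1
  · rintro rfl; simp at h2
  · rintro rfl; simp at h2
  · have e := b2 z
    have e' := k2 z
    simp only [h5] at e e'
    have a : 2 * ((z - x) ^ 2 * b z).im ≤ κ * ‖ζ‖ := by
      have := (le_abs_self _).trans (abs_im_le_norm ((z - x) ^ 2 * b z))
      rw [norm_mul] at this
      rw [e', norm_mul]
      nlinarith [norm_nonneg ((z - x) ^ 2)]
    rw [← e, add_im, sub_im, mul_im, Lg_re, Lg_im_neg (by simp) (by simpa using x0)] at a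
    unfold VV
    linarith

end Pool.Agent.Lib.MP_9dc04a_an
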