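import Pool.Agent.Lib.MP_9dc04a_an.Touch
import Pool.Agent.Lib.MP_9dc04a_an.Loc

set_option autoImplicit false

namespace Pool.Agent.Lib.MP_9dc04a_an

open Complex hiding sin cos exp log log_one log_exp log_mul log_inv exp_log
open Metric Filter Topology Real Set
open scoped Real

variable {F1 F2 F3 : ℂ → ℝ}

lemma ends {v : ℝ → ℝ → ℝ} (E1 : ∀ ε > 0, ∃ s1, ∀ s, s1 ≤ s → ∀ t, 0 ≤ t → v s t ≤ ε)
    (E2 : ∀ ε > 0, ∃ s1, ∀ s, s ≤ s1 → ∀ t, 0 ≤ t → v s t ≤ -s * t + ε ∧ v s t ≤ -2 * π * s + ε)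
    {γ : ℝ} (hγ : 0 < γ) : ∃ ρ > 0, ∀ z, SS z → (‖z‖ < ρ ∨ ‖z - 1‖ < ρ ∨ ‖z + 1‖ < ρ) →
      v (sg z).re (sg z).im - VV z ≤ γ := by
  obtain ⟨s1, h1⟩ := E1 (γ / 2) (by positivity)
  obtain ⟨s2, h2⟩ := E2 (γ / 2) (by positivity)
  have cph : ContinuousAt ph 0 := (d_ph (by simp)).hasDerivAt.continuousAt
  have a1 : ∀ᶠ z in 𝓝 (0:ℂ), -(γ / 2) < (ph z).re * (ph z).im + 2 * (LL z).im := by
    refine continuousAt_const.eventually_lt ?_ (by simpa [ph0, LL0] using hγ)
    exact ((continuous_re.continuousAt.comp cph).mul (continuous_im.continuousAt.comp cph)).add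
      ((continuous_im.continuousAt.comp d_LL0.continuousAt).const_mul 2)
  have a2 : ∀ᶠ z in 𝓝 (0:ℂ), (ph z).re < 1 :=
    (continuous_re.continuousAt.comp cph).eventually_lt continuousAt_const (by simp [ph0])
  obtain ⟨δ, δ0, hδ⟩ := Metric.eventually_nhds_iff.1 (a1.and a2)
  refine ⟨min (min (min δ (exp ((s2 - 1) / 2))) (min (1 / 2) (γ / 200)))
    (min (exp (-(s1 + 2) / 5)) (exp s2)), by positivity, fun z hz h => ?_⟩
  have t0 := hz.t_mem.1
  simp only [lt_min_iff] at h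
  rcases h with ⟨⟨⟨b1, b2⟩, -⟩, -⟩ | ⟨⟨-, b1, b2⟩, b3, -⟩ | ⟨⟨-, b1, b2⟩, -, b3⟩
  · obtain ⟨c1, c2⟩ := hδ (y := z) (by rwa [dist_zero_right])
    rw [← Real.log_lt_iff_lt_exp (norm_pos_iff.2 hz.2.2.1)] at b2
    have := (h2 (sg z).re (by rw [sg_re]; linarith) _ t0).1
    rw [VV_eq]; linarith
  · have c1 := near_one hz b1
    have c2 : z.im ≤ ‖z - 1‖ := by simpa using (le_abs_self _).trans (abs_im_le_norm (z - 1))
    have c3 := (abs_lt.1 ((abs_re_le_norm _).trans_lt b1)).1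
    simp only [sub_re, one_re] at c3
    have c4 := (neg_log_mem hz.1 (by linarith [re_le_norm z])).2
    have c5 : 0 ≤ log ‖1 + z‖ := log_nonneg (by have := re_le_norm (1 + z); simp at this; linarith)
    rw [norm_sub_rev, ← Real.log_lt_iff_lt_exp (norm_pos_iff.2 (ne_of_re (strip_m hz.dom.1)))] at b3
    have := h1 (sg z).re (by rw [sg_re, ph_re]; linarith) _ t0
    linarith
  · have c1 := near_neg hz b1
    have c2 : z.im ≤ ‖z + 1‖ := by simpa using (le_abs_self _).trans (abs_im_le_norm (z + 1))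
    have c3 := (abs_lt.1 ((abs_re_le_norm _).trans_lt b1)).2
    simp only [add_re, one_re] at c3
    have c4 := log_nonpos (norm_nonneg z) hz.1
    have c5 : 0 ≤ log ‖1 - z‖ := log_nonneg (by have := re_le_norm (1 - z); simp at this; linarith)
    rw [add_comm, ← Real.log_lt_iff_lt_exp (norm_pos_iff.2 (ne_of_re (strip_p hz.dom.1)))] at b3
    have := (h2 (sg z).re (by rw [sg_re, ph_re]; linarith) _ t0).2
    linarith

lemma ex_max {Φ g : ℂ → ℝ} (c : ContinuousOn Φ {z | SS z}) (cg : ContinuousOn g {z | SS z})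
    {ρ a : ℝ} (ρ0 : 0 < ρ) (h : ∀ z, SS z → (‖z‖ < ρ ∨ ‖z - 1‖ < ρ ∨ ‖z + 1‖ < ρ) → Φ z ≤ a)
    {z1 : ℂ} (h1 : SS z1) (h2 : a < Φ z1) :
    ∃ z, SS z ∧ (∀ w, SS w → Φ w ≤ Φ z) ∧ ∀ w, SS w → Φ w = Φ z → g w ≤ g z := by
  set K : Set ℂ := {z | ‖z‖ ≤ 1 ∧ 0 ≤ z.im ∧ ρ ≤ ‖z‖ ∧ ρ ≤ ‖z - 1‖ ∧ ρ ≤ ‖z + 1‖} with hK
  have cl : IsClosed K :=
    (isClosed_le (by fun_prop) (by fun_prop)).and ((isClosed_le (by fun_prop) (by fun_prop)).and
      ((isClosed_le (by fun_prop) (by fun_prop)).and ((isClosed_le (by fun_prop) (by fun_prop)).and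
      (isClosed_le (by fun_prop) (by fun_prop)))))
  have cp : IsCompact K := (isCompact_closedBall (0:ℂ) 1).of_isClosed_subset cl
    fun z hz => mem_closedBall_zero_iff.2 hz.1
  have sub : K ⊆ {z | SS z} := fun z hz => by
    refine ⟨hz.1, hz.2.1, ?_, ?_, ?_⟩ <;> rintro rfl
    · exact absurd hz.2.2.1 (by simpa using ρ0)
    · exact absurd hz.2.2.2.1 (by simpa using ρ0)
    · exact absurd hz.2.2.2.2 (by simpa using ρ0)
  have mem : ∀ w, SS w → a < Φ w → w ∈ K := fun w hw h' => by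
    by_contra hc
    refine absurd (h w hw ?_) (not_le.2 h')
    by_contra hn
    push Not at hn
    exact hc ⟨hw.1, hw.2.1, hn⟩
  obtain ⟨z0, m0, h0⟩ := cp.exists_isMaxOn ⟨z1, mem z1 h1 h2⟩ (c.mono sub)
  have l0 : a < Φ z0 := h2.trans_le (h0 (mem z1 h1 h2))
  have cp2 : IsCompact (K ∩ Φ ⁻¹' {Φ z0}) := cp.of_isClosed_subset
    ((c.mono sub).preimage_isClosed_of_isClosed cl isClosed_singleton) inter_subset_left
  obtain ⟨z, ⟨m1, m2⟩, hz⟩ := cp2.exists_isMaxOn ⟨z0, m0, rfl⟩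
    (cg.mono (inter_subset_left.trans sub))
  have m2 : Φ z = Φ z0 := m2
  refine ⟨z, sub m1, fun w hw => ?_, fun w hw e => hz ⟨mem w hw (by rw [e, m2]; exact l0), e.trans m2⟩⟩
  rw [m2]
  by_contra hc
  push Not at hc
  exact absurd (h0 (mem w hw (l0.trans hc))) (not_le.2 hc)

theorem SD.compare (S : SD F1 F2 F3)
    (H1 : ∀ lo hi s : ℝ, 0 < lo → lo < hi →
      (∀ θ : ℝ, hi ≤ F1 (s + θ * I) ∧ F2 (s + θ * I) - F1 (s + θ * I) ≤ lo) → False)
    (H2 : ∀ Λ s : ℝ, 0 < Λ → (∀ θ : ℝ, Λ < F2 (s + θ * I) - F1 (s + θ * I) ∧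
      F3 (s + θ * I) - F2 (s + θ * I) < Λ) → ∫ θ in (0:ℝ)..2 * π, F2 (s + θ * I) = -2 * π * s)
    (E1 : ∀ ε > 0, ∃ s1, ∀ s, s1 ≤ s → ∀ t, 0 ≤ t → vv F1 F2 F3 s t ≤ ε)
    (E2 : ∀ ε > 0, ∃ s1, ∀ s, s ≤ s1 → ∀ t, 0 ≤ t →
      vv F1 F2 F3 s t ≤ -s * t + ε ∧ vv F1 F2 F3 s t ≤ -2 * π * s + ε)
    {z1 : ℂ} (h1 : SS z1) : vv F1 F2 F3 (sg z1).re (sg z1).im ≤ VV z1 := by
  by_contra hc
  push Not at hc
  set v := vv F1 F2 F3 with hv
  set ε := (v (sg z1).re (sg z1).im - VV z1) / 160 with hε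
  have ε0 : 0 < ε := by rw [hε]; linarith
  obtain ⟨ρ, ρ0, hρ⟩ := ends E1 E2 (γ := 40 * ε) (by positivity)
  have qb : ∀ z, SS z → |qq ε (sg z).im| ≤ 40 * ε := fun z hz => qq_bd ε0 hz.t_mem.1 hz.t_mem.2
  have csg : ContinuousOn sg {z | SS z} := fun z hz =>
    (d_sg hz.dom).hasDerivAt.continuousAt.continuousWithinAt
  have cLa : ContinuousOn La {z | SS z} := fun z hz =>
    (d_La hz.dom).continuousAt.continuousWithinAt
  have cre : ContinuousOn (fun z => (sg z).re) {z | SS z} := continuous_re.comp_continuousOn csg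
  have cim : ContinuousOn (fun z => (sg z).im) {z | SS z} := continuous_im.comp_continuousOn csg
  have cq : Continuous (qq ε) := by unfold qq; fun_prop
  obtain ⟨z, hz, M1, M2⟩ := ex_max (Φ := fun z => v (sg z).re (sg z).im - VV z - qq ε (sg z).im)
    (g := fun z => (sg z).re) (a := 80 * ε)
    (((S.v_cont.comp (cre.prodMk cim) fun z hz => hz.t_mem.1).sub
      ((continuous_im.comp_continuousOn cLa).const_smul (2:ℝ))).sub (cq.comp_continuousOn cim)) cre ρ0
    (fun z hz h => by linarith [hρ z hz h, (abs_le.1 (qb z hz)).1]) h1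
    (by linarith [(abs_le.1 (qb z1 h1)).2])
  have big : 0 < v (sg z).re (sg z).im - VV z := by
    linarith [M1 z1 h1, (abs_le.1 (qb z1 h1)).2, (abs_le.1 (qb z hz)).1]
  set s := (sg z).re with hs
  set t := (sg z).im with ht
  have Maj : ∀ w ζ, SS w → sg w = sg z + ζ → v (s + ζ.re) (t + ζ.im) ≤
      v s t + (VV w - VV z) + (qq ε (t + ζ.im) - qq ε t) := fun w ζ hw e => by
    have := M1 w hw
    rw [e, add_re, add_im] at this
    linarith
  have l0 : 0 ≤ -2 * log ‖z‖ := by linarith [log_nonpos (norm_nonneg z) hz.1]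
  rcases hz.2.1.eq_or_lt with im0 | im0
  · have rz : z.re ≠ 0 := hz.dom.2.resolve_left (by rw [← im0]; exact lt_irrefl _)
    rcases lt_or_gt_of_ne rz with x0 | x0
    swap
    · obtain ⟨a, b⟩ := real_pos hz.dom.1 im0.symm x0
      rw [ht, a, b, hv, S.v_zero] at big
      simp at big
    obtain ⟨t2, V2⟩ := real_neg hz.dom.1 im0.symm x0
    have ez : z = (z.re : ℂ) := Complex.ext (by simp) (by simpa using im0.symm)
    have x1 := (abs_lt.1 hz.dom.1).1
    by_cases tp : sg' z.re = 0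
    · obtain ⟨b, b1, b2⟩ := qq_kink ε0 (Or.inr t2)
      have := S.touchK H1 H2 (s := s) (t := t) (α := -2 * π) (b := -2 * log ‖z‖ + b) (η := ε / 10)
        (by rw [ht, t2]; positivity) (by positivity) (by linarith) (by
          filter_upwards [tip x0 x1 tp (κ := ε / 10 / 4) (by positivity)]
          rintro ζ ⟨w, w1, w2, w3⟩
          rw [← ez] at w2 w3
          linarith [Maj w ζ w1 w2, b2 ζ.im])
      rw [hv, this.2.1, V2] at big
      simp [hs] at big
    · have d := (d_sg (ez ▸ hz.dom)).real_of_complex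
      have n : (sg' z.re).re ≠ 0 := fun e => tp (Complex.ext e (by
        rw [show sg' z.re = ((2 / z.re + (1 / (1 + z.re) + 5 / (1 - z.re)) : ℝ) : ℂ) by
          simp [sg'], ofReal_im]; rfl))
      have m := d.map_nhds_eq n
      rw [← ez] at m
      have u : (fun x : ℝ => (sg x).re) '' Ioo (-1) 0 ∈ 𝓝 s := by
        rw [hs, ← m]; exact image_mem_map (Ioo_mem_nhds x1 x0)
      obtain ⟨δ, δ0, hδ⟩ := Metric.mem_nhds_iff.1 u
      have k : ∀ y, |y| < δ → v (s + y) (2 * π) ≤ v s (2 * π) - 2 * π * y ∧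
          (0 < y → v (s + y) (2 * π) < v s (2 * π) - 2 * π * y) := by
        intro y hy
        obtain ⟨x, hx, e⟩ := hδ (a := s + y) (by simpa using hy)
        have r1 : |(x:ℂ).re| < 1 := by simpa [abs_lt] using ⟨hx.1, hx.2.trans one_pos⟩
        have sx : SS x := ⟨by simpa using r1.le, by simp, by exact_mod_cast hx.2.ne,
          by exact_mod_cast (hx.2.trans one_pos).ne, by exact_mod_cast hx.1.ne'⟩
        obtain ⟨a, b⟩ := real_neg r1 (by simp) (by simpa using hx.2)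
        have c1 := M1 x sx
        have c2 := M2 x sx
        simp only at e
        simp only [e, a, b, V2, ← hs, ht, t2] at c1 c2
        refine ⟨by linarith, fun y0 => lt_of_le_of_ne (by linarith) fun e' => ?_⟩
        linarith [c2 (by linarith)]
      have r0 : 0 < δ / 2 := by positivity
      have ab : ∀ φ, |δ / 2 * cos φ| < δ := fun φ => by
        rw [abs_mul, abs_of_pos r0]; nlinarith [abs_cos_le_one φ]
      have a := S.conv s (t := 2 * π) (by positivity) r0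
      have b := intervalIntegral.integral_lt_integral_of_continuousOn_of_le_of_exists_lt
        (f := fun φ => v (s + δ / 2 * cos φ) (2 * π))
        (g := fun φ => v s (2 * π) + (-2 * π * (δ / 2)) * cos φ + 0 * sin φ ^ 2)
        (by positivity : (0:ℝ) < 2 * π)
        ((S.v_cont_s (by positivity)).comp (by fun_prop)).continuousOn (by fun_prop)
        (fun φ _ => by linarith [(k _ (ab φ)).1])
        ⟨0, ⟨le_rfl, by positivity⟩, by linarith [(k _ (ab 0)).2 (by simpa using δ0)]⟩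
      rw [int_n] at b
      linarith
  obtain ⟨χ, c1, c2, c3, c4, c, c5, c6⟩ := expand hz.dom im0
  have e1 : ∀ᶠ ζ in 𝓝 0, 0 < (χ ζ).im :=
    continuousAt_const.eventually_lt (continuous_im.continuousAt.comp c1) (by rwa [c2])
  have ss : ∀ w : ℂ, ‖w‖ ≤ 1 → 0 < w.im → SS w := fun w a b => by
    refine ⟨a, b.le, ?_, ?_, ?_⟩ <;> rintro rfl <;> simp at b
  have c7 : ∀ κ > 0, ∀ᶠ ζ in 𝓝 (0:ℂ), VV (χ ζ) - VV z ≤
      -2 * (Lg z).im * ζ.re + -2 * log ‖z‖ * ζ.im + κ * ‖ζ‖ := fun κ hκ => by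
    have : ∀ᶠ ζ in 𝓝 (0:ℂ), (‖c‖ + 1) * ‖ζ‖ < κ :=
      ContinuousAt.eventually_lt (by fun_prop) continuousAt_const (by simpa using hκ)
    filter_upwards [this, c6 1 one_pos] with ζ a b
    have := re_le_norm (c * ζ ^ 2)
    rw [norm_mul, norm_pow] at this
    nlinarith [norm_nonneg ζ]
  obtain ⟨b, b1, b2⟩ := qq_inc ε0 hz.t_mem.2
  rcases hz.1.eq_or_lt with n1 | n1
  · have p := zsg_im hz.dom im0
    have p' := zsg_re hz.dom n1
    have d1 : HasDerivAt (fun x : ℝ => (Lg (χ (-(x * I)))).re) ((z * sg' z)⁻¹ * -(1 * I)).re 0 := by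
      refine HasDerivAt.real_of_complex (e := fun x : ℂ => Lg (χ (-(x * I)))) ?_
      exact HasDerivAt.comp (h₂ := fun ζ => Lg (χ ζ)) _ (by simpa using c4)
        ((hasDerivAt_id' _).mul_const I).neg
    have d2 : ((z * sg' z)⁻¹ * -(1 * I)).re < 0 := by
      have := normSq_pos.2 (show z * sg' z ≠ 0 by rintro e; simp [e] at p)
      have : 0 < (z * sg' z).im / normSq (z * sg' z) := by positivity
      simp only [one_mul, mul_neg, neg_re, mul_re, I_re, mul_zero, I_im, mul_one, zero_sub, neg_neg,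
        inv_im, neg_div]
      linarith
    have d3 : ∀ᶠ x : ℝ in 𝓝[>] 0, (Lg (χ (-(x * I)))).re < 0 := by
      have := (hasDerivAt_iff_tendsto_slope_zero.1 d1).eventually (gt_mem_nhds d2)
      filter_upwards [self_mem_nhdsWithin, nhdsWithin_mono _ (fun x hx => ne_of_gt hx) this]
        with x hx h
      simp only [zero_add, ofReal_zero, zero_mul, neg_zero, c2, Lg_re, n1, log_one, sub_zero,
        smul_eq_mul] at h
      rw [Lg_re]
      exact neg_of_mul_neg_right h (inv_pos.2 hx).le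
    have tz : Tendsto (fun x : ℝ => -((x:ℂ) * I)) (𝓝[>] 0) (𝓝 0) := by
      have : Continuous fun x : ℝ => -((x:ℂ) * I) := by fun_prop
      simpa using (this.tendsto 0).mono_left nhdsWithin_le_nhds
    obtain ⟨x, ⟨⟨⟨⟨⟨x0, x1⟩, x2⟩, x3⟩, x4⟩, x5⟩⟩ := ((((eventually_mem_nhdsWithin.and d3).and (tz.eventually e1)).and
      (tz.eventually c3)).and (tz.eventually (c7 (ε / 8) (by positivity))) |>.and
      (S.neum s (t := t) (Λ := ε / 16) (by positivity) (arc_t n1 im0).ge)).exists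
    have x0 : 0 < x := x0
    rw [Lg_re] at x1
    have := Maj _ _ (ss _ ((log_nonpos_iff (norm_nonneg _)).1 x1.le) x2) x3
    have q := b2 (-x)
    simp only [neg_re, mul_re, ofReal_re, I_re, mul_zero, ofReal_im, I_im, mul_one, sub_self,
      neg_zero, add_zero, neg_im, mul_im, n1, log_one, zero_mul, norm_neg, norm_mul, norm_I,
      Complex.norm_real, Real.norm_of_nonneg x0.le, ← sub_eq_add_neg] at this x4 q
    nlinarith [mul_pos ε0 x0, mul_nonneg ε0.le (sq_nonneg x), mul_le_mul_of_nonneg_right b1 x0.le]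
  have e2 : ∀ᶠ ζ in 𝓝 0, SS (χ ζ) := by
    filter_upwards [e1, c1.norm.eventually_lt continuousAt_const (by rwa [c2] : ‖χ 0‖ < 1)]
      with ζ a b using ss _ b.le a
  have t0 := hz.t_pos im0
  by_cases kk : t = π ∨ t = 2 * π
  · obtain ⟨b, b1, b2⟩ := qq_kink ε0 kk
    obtain ⟨t2, a1, a2⟩ := S.touchK H1 H2 (s := s) (t := t) (α := -2 * (Lg z).im)
      (b := -2 * log ‖z‖ + b) (η := ε / 10) t0 (by positivity) (by linarith) (by
        filter_upwards [e2, c3, c7 (ε / 10 / 4) (by positivity)] with ζ w1 w2 w3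
        linarith [Maj _ ζ w1 w2, b2 ζ.im])
    have A := (Lg_im_mem' im0).2
    have tz : Tendsto (fun x : ℝ => -(x:ℂ)) (𝓝[>] 0) (𝓝 0) := by
      have : Continuous fun x : ℝ => -(x:ℂ) := by fun_prop
      simpa using (this.tendsto 0).mono_left nhdsWithin_le_nhds
    have tz' : Tendsto (fun x : ℝ => s - x) (𝓝[>] 0) (𝓝 s) := by
      have : Continuous fun x : ℝ => s - x := by fun_prop
      simpa using (this.tendsto 0).mono_left nhdsWithin_le_nhds
    obtain ⟨x, ⟨⟨⟨x0, x1⟩, x2⟩, x3⟩, x4⟩ := ((((eventually_mem_nhdsWithin.and (tz.eventually e2)).and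
      (tz.eventually c3)).and (tz.eventually (c7 (π - (Lg z).im) (by linarith)))).and
      (tz'.eventually a2)).exists
    have x0 : 0 < x := x0
    have := Maj _ _ x1 x2
    simp only [neg_re, ofReal_re, neg_im, ofReal_im, neg_zero, add_zero, sub_self, mul_zero,
      norm_neg, Complex.norm_real, Real.norm_of_nonneg x0.le, ← sub_eq_add_neg] at this x3
    rw [hv, a1] at this
    nlinarith [mul_pos x0 (sub_pos.2 A)]
  · push Not at kk
    refine S.touchG (s := s) (α := -2 * (Lg z).im) (b := -2 * log ‖z‖ + b) (δ := ε / 200) t0 kk.1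
      kk.2 (by linarith) (by positivity) c5 ?_
    filter_upwards [e2, c3, c6 (ε / 200 / 4) (by positivity)] with ζ w1 w2 w3
    linarith [Maj _ ζ w1 w2, b2 ζ.im]

end Pool.Agent.Lib.MP_9dc04a_an
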