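import Mathlib

set_option autoImplicit false

namespace Pool.Agent.Lib.MP_9dc04a_an

open Complex Metric Finset
open scoped Real ComplexConjugate

/-- Taylor coefficient at the origin. -/
noncomputable def co (n : ℕ) (F : ℂ → ℂ) : ℂ := iteratedDeriv n F 0 / (n.factorial : ℂ)

lemma fac_ne (n : ℕ) : (n.factorial : ℂ) ≠ 0 := by exact_mod_cast n.factorial_ne_zero

lemma co_zero (F : ℂ → ℂ) : co 0 F = F 0 := by simp [co]

lemma co_one (F : ℂ → ℂ) : co 1 F = deriv F 0 := by simp [co]

lemma co_congr {F G : ℂ → ℂ} (h : F =ᶠ[nhds 0] G) (n : ℕ) : co n F = co n G := by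
  unfold co; rw [h.iteratedDeriv_eq n]

lemma co_deriv (n : ℕ) (F : ℂ → ℂ) : co n (deriv F) = (n + 1) * co (n + 1) F := by
  unfold co
  rw [iteratedDeriv_succ', Nat.factorial_succ]
  have := fac_ne n
  have h2 : ((n : ℂ) + 1) ≠ 0 := by exact_mod_cast Nat.succ_ne_zero n
  push_cast
  field_simp

lemma co_mul {F G : ℂ → ℂ} (hF : AnalyticAt ℂ F 0) (hG : AnalyticAt ℂ G 0) (n : ℕ) :
    co n (fun z => F z * G z) = ∑ i ∈ range (n + 1), co i F * co (n - i) G := by
  unfold co
  rw [iteratedDeriv_fun_mul hF.contDiffAt hG.contDiffAt, sum_div]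
  refine sum_congr rfl fun i hi => ?_
  have hi' : i ≤ n := Nat.lt_succ_iff.1 (mem_range.1 hi)
  have h := Nat.choose_mul_factorial_mul_factorial hi'
  have h' : (n.factorial : ℂ) = n.choose i * i.factorial * (n - i).factorial := by
    exact_mod_cast h.symm
  have h3 : ((n.choose i : ℕ) : ℂ) ≠ 0 := by exact_mod_cast (Nat.choose_pos hi').ne'
  rw [h']
  have := fac_ne i
  have := fac_ne (n - i)
  field_simp

lemma co_add {F G : ℂ → ℂ} (hF : AnalyticAt ℂ F 0) (hG : AnalyticAt ℂ G 0) (n : ℕ) :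
    co n (fun z => F z + G z) = co n F + co n G := by
  unfold co
  rw [iteratedDeriv_fun_add hF.contDiffAt hG.contDiffAt, add_div]

lemma co_pow (n j : ℕ) (a : ℂ) : co n (fun z => a * z ^ j) = if n = j then a else 0 := by
  unfold co
  rw [iteratedDeriv_const_mul_field, iteratedDeriv_pow]
  split_ifs with h
  · subst h
    have := fac_ne n
    simp [Nat.descFactorial_self]
    field_simp
  · rcases lt_or_gt_of_ne h with h | h
    · have : j - n ≠ 0 := by omega
      simp [this]
    · simp [Nat.descFactorial_of_lt h]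

lemma co_sum (n m : ℕ) (c : ℕ → ℂ) (hn : n < m) :
    co n (fun z => ∑ j ∈ range m, c j * z ^ j) = c n := by
  have : ∀ m, co n (fun z => ∑ j ∈ range m, c j * z ^ j) = if n < m then c n else 0 := by
    intro m
    induction m with
    | zero =>
      have := co_pow n 0 0
      simpa using this
    | succ m ih =>
      simp_rw [sum_range_succ]
      rw [co_add (by fun_prop) (by fun_prop), ih, co_pow]
      rcases lt_trichotomy n m with h | h | h
      · simp [h, h.ne, Nat.lt_succ_of_lt h]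
      · simp [h]
      · have h1 : ¬ n < m := by omega
        have h2 : ¬ n < m + 1 := by omega
        simp [h1, h2, h.ne']
  rw [this, if_pos hn]

lemma hasSum_co {F : ℂ → ℂ} {R : ℝ} (hF : DifferentiableOn ℂ F (ball 0 R)) {z : ℂ}
    (hz : z ∈ ball (0:ℂ) R) : HasSum (fun n => co n F * z ^ n) (F z) := by
  have := Complex.hasSum_taylorSeries_on_ball hF hz
  have e : (fun n => co n F * z ^ n) =
      fun n : ℕ => (n.factorial : ℂ)⁻¹ • (z - 0) ^ n • iteratedDeriv n F 0 := by
    funext n
    simp only [co, smul_eq_mul, sub_zero]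
    ring
  rw [e]; exact this

lemma cm_mem {R R' : ℝ} (h0 : 0 < R) (h : R < R') (θ : ℝ) :
    circleMap 0 R θ ∈ ball (0:ℂ) R' := by
  simp [abs_of_pos h0, h]

lemma cont_cm {F : ℂ → ℂ} {R R' : ℝ} (hF : DifferentiableOn ℂ F (ball 0 R')) (h0 : 0 < R)
    (h : R < R') : Continuous fun θ : ℝ => F (circleMap 0 R θ) :=
  hF.continuousOn.comp_continuous (continuous_circleMap 0 R) (cm_mem h0 h)

lemma key {F : ℂ → ℂ} {R R' : ℝ} (hF : DifferentiableOn ℂ F (ball 0 R')) (h0 : 0 < R)
    (h : R < R') (n : ℕ) :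
    ∫ θ in (0:ℝ)..2 * π, F (circleMap 0 R θ) * conj (circleMap 0 R θ ^ n) =
      2 * π * co n F * (R:ℂ) ^ (2 * n) := by
  have h1 := (hF.mono (closedBall_subset_ball h)).circleIntegral_one_div_sub_center_pow_smul h0 n
  rw [circleIntegral] at h1
  have h2 : ∀ θ : ℝ, F (circleMap 0 R θ) * conj (circleMap 0 R θ ^ n) =
      ((R:ℂ) ^ (2 * n) / I) * (deriv (circleMap 0 R) θ •
        (1 / (circleMap 0 R θ - 0) ^ (n + 1)) • F (circleMap 0 R θ)) := by
    intro θ
    have hz : circleMap 0 R θ ≠ 0 := circleMap_ne_center h0.ne'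
    have hn : circleMap 0 R θ * conj (circleMap 0 R θ) = (R:ℂ) ^ 2 := by
      rw [mul_conj, normSq_eq_norm_sq]
      simp [abs_of_pos h0]
    rw [deriv_circleMap, map_pow, pow_mul, ← hn]
    simp only [smul_eq_mul, sub_zero, mul_pow]
    field_simp
    ring
  simp_rw [h2]
  rw [intervalIntegral.integral_const_mul, h1]
  simp only [co, smul_eq_mul]
  have := fac_ne n
  field_simp

lemma carath {F : ℂ → ℂ} {R R' B : ℝ} (hF : DifferentiableOn ℂ F (ball 0 R')) (h0 : 0 < R)
    (h : R < R') (hB : ∀ z : ℂ, ‖z‖ = R → (F z).re ≤ B) {n : ℕ} (hn : n ≠ 0) :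
    ‖co n F‖ * R ^ n ≤ 2 * (B - (F 0).re) := by
  have hc := cont_cm hF h0 h
  have hcm : Continuous (circleMap 0 R) := continuous_circleMap 0 R
  have k1 := key hF h0 h n
  have k2 := key (F := fun z => F z * z ^ n) (hF.mul (by fun_prop)) h0 h 0
  have k3 := key (F := fun z => (B:ℂ) * z ^ 0) (R' := R') (by fun_prop) h0 h n
  have k4 := key hF h0 h 0
  rw [co_pow, if_neg hn] at k3
  simp only [co_zero, pow_zero, map_one, mul_one, mul_zero, zero_pow hn, zero_mul] at k2 k3 k4
  have k2' : ∫ θ in (0:ℝ)..2 * π, conj (F (circleMap 0 R θ)) * conj (circleMap 0 R θ ^ n) = 0 := by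
    have := intervalIntegral.intervalIntegral_conj (μ := MeasureTheory.volume)
      (f := fun θ => F (circleMap 0 R θ) * circleMap 0 R θ ^ n) (a := 0) (b := 2 * π)
    simp only [map_mul] at this
    rw [this, k2, map_zero]
  have hconj : Continuous (conj : ℂ → ℂ) := continuous_conj
  have hcn : Continuous fun θ : ℝ => conj (circleMap 0 R θ ^ n) := by fun_prop
  have hre : Continuous fun θ : ℝ => (F (circleMap 0 R θ)).re := continuous_re.comp hc
  have e1 : ∫ θ in (0:ℝ)..2 * π, (2 * ((B - (F (circleMap 0 R θ)).re : ℝ) : ℂ)) *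
      conj (circleMap 0 R θ ^ n) = -(2 * π * co n F * (R:ℂ) ^ (2 * n)) := by
    have : ∀ θ : ℝ, (2 * ((B - (F (circleMap 0 R θ)).re : ℝ) : ℂ)) * conj (circleMap 0 R θ ^ n) =
        2 * (B * conj (circleMap 0 R θ ^ n)) - F (circleMap 0 R θ) * conj (circleMap 0 R θ ^ n)
          - conj (F (circleMap 0 R θ)) * conj (circleMap 0 R θ ^ n) := by
      intro θ
      have := add_conj (F (circleMap 0 R θ))
      push_cast at this ⊢
      linear_combination (conj (circleMap 0 R θ ^ n)) * this
    simp_rw [this]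
    rw [intervalIntegral.integral_sub, intervalIntegral.integral_sub,
      intervalIntegral.integral_const_mul, k1, k2', k3]
    · ring
    · exact (continuous_const.mul (continuous_const.mul hcn)).intervalIntegrable _ _
    · exact (hc.mul hcn).intervalIntegrable _ _
    · exact ((continuous_const.mul (continuous_const.mul hcn)).sub
        (hc.mul hcn)).intervalIntegrable _ _
    · exact ((hconj.comp hc).mul hcn).intervalIntegrable _ _
  have e2 : ∫ θ in (0:ℝ)..2 * π, (F (circleMap 0 R θ)).re = 2 * π * (F 0).re := by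
    have := (reCLM.intervalIntegral_comp_comm (μ := MeasureTheory.volume)
      (hc.intervalIntegrable 0 (2 * π)))
    simp only [reCLM_apply] at this
    rw [this, k4]
    simp
  have e3 : ‖∫ θ in (0:ℝ)..2 * π, (2 * ((B - (F (circleMap 0 R θ)).re : ℝ) : ℂ)) *
      conj (circleMap 0 R θ ^ n)‖ ≤
      ∫ θ in (0:ℝ)..2 * π, 2 * R ^ n * (B - (F (circleMap 0 R θ)).re) := by
    refine intervalIntegral.norm_integral_le_of_norm_le (by positivity) ?_
      ((continuous_const.mul (continuous_const.sub hre)).intervalIntegrable _ _)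
    refine Filter.Eventually.of_forall fun θ _ => ?_
    have hb := hB (circleMap 0 R θ) (by simp [abs_of_pos h0])
    rw [norm_mul, norm_mul, Complex.norm_real, Real.norm_of_nonneg (by linarith)]
    simp [abs_of_pos h0]
    apply le_of_eq; ring
  rw [e1, intervalIntegral.integral_const_mul, intervalIntegral.integral_sub (by simp)
    (hre.intervalIntegrable _ _), e2] at e3
  simp only [norm_neg, norm_mul, norm_pow, Complex.norm_real, Real.norm_of_nonneg h0.le,
    Real.norm_of_nonneg Real.pi_pos.le, intervalIntegral.integral_const, sub_zero, smul_eq_mul,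
    Complex.norm_ofNat] at e3
  have hp : 0 < 2 * π * R ^ n := by positivity
  have : 2 * π * R ^ n * (‖co n F‖ * R ^ n) ≤ 2 * π * R ^ n * (2 * (B - (F 0).re)) := by
    calc _ = 2 * π * ‖co n F‖ * R ^ (2 * n) := by ring
      _ ≤ _ := e3
      _ = _ := by ring
  exact le_of_mul_le_mul_left this hp

lemma bessel_lt {F : ℂ → ℂ} {R R' : ℝ} (hF : DifferentiableOn ℂ F (ball 0 R')) (h0 : 0 < R)
    (h : R < R') (hB : ∀ z ∈ ball (0:ℂ) R', ‖F z‖ ≤ 1) (m : ℕ) :
    ∑ n ∈ range m, (‖co n F‖ * R ^ n) ^ 2 ≤ 1 := by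
  have hcm : Continuous (circleMap 0 R) := continuous_circleMap 0 R
  have hconj : Continuous (conj : ℂ → ℂ) := continuous_conj
  set T : ℂ → ℂ := fun z => ∑ j ∈ range m, co j F * z ^ j with hT
  set S : ℝ := ∑ n ∈ range m, (‖co n F‖ * R ^ n) ^ 2 with hS
  have gen : ∀ G : ℂ → ℂ, DifferentiableOn ℂ G (ball 0 R') → (∀ n < m, co n G = co n F) →
      ∫ θ in (0:ℝ)..2 * π, G (circleMap 0 R θ) * conj (T (circleMap 0 R θ)) =
        ((2 * π * S : ℝ) : ℂ) := by
    intro G hG hco
    have hc := cont_cm hG h0 h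
    have : ∀ θ : ℝ, G (circleMap 0 R θ) * conj (T (circleMap 0 R θ)) =
        ∑ j ∈ range m, conj (co j F) * (G (circleMap 0 R θ) * conj (circleMap 0 R θ ^ j)) := by
      intro θ
      simp only [hT, map_sum, map_mul, mul_sum]
      exact sum_congr rfl fun j _ => by ring
    simp_rw [this]
    have hi : ∀ j ∈ range m, IntervalIntegrable (fun θ : ℝ => conj (co j F) *
        (G (circleMap 0 R θ) * conj (circleMap 0 R θ ^ j))) MeasureTheory.volume 0 (2 * π) := by
      intro j _
      have hcn : Continuous fun θ : ℝ => conj (circleMap 0 R θ ^ j) := by fun_prop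
      exact (continuous_const.mul (hc.mul hcn)).intervalIntegrable _ _
    rw [intervalIntegral.integral_finsetSum hi]
    simp only [hS, mul_sum]
    push_cast
    refine sum_congr rfl fun j hj => ?_
    rw [intervalIntegral.integral_const_mul, key hG h0 h, hco j (mem_range.1 hj)]
    have := mul_conj (co j F)
    rw [normSq_eq_norm_sq] at this
    push_cast at this
    rw [mul_pow, ← this]
    ring
  have hTd : DifferentiableOn ℂ T (ball 0 R') := by
    simp only [hT]; fun_prop
  have g1 := gen F hF fun _ _ => rfl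
  have g2 := gen T hTd fun n hn => co_sum n m _ hn
  have hcT := cont_cm hTd h0 h
  have g3 : ∫ θ in (0:ℝ)..2 * π, ‖T (circleMap 0 R θ)‖ ^ 2 = 2 * π * S := by
    have : ∀ θ : ℝ, T (circleMap 0 R θ) * conj (T (circleMap 0 R θ)) =
        ((‖T (circleMap 0 R θ)‖ ^ 2 : ℝ) : ℂ) := by
      intro θ; rw [mul_conj, normSq_eq_norm_sq]
    simp_rw [this] at g2
    rw [intervalIntegral.integral_ofReal] at g2
    exact_mod_cast g2
  have e3 : ‖∫ θ in (0:ℝ)..2 * π, F (circleMap 0 R θ) * conj (T (circleMap 0 R θ))‖ ≤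
      ∫ θ in (0:ℝ)..2 * π, (1 / 2 + 1 / 2 * ‖T (circleMap 0 R θ)‖ ^ 2) := by
    refine intervalIntegral.norm_integral_le_of_norm_le (by positivity) ?_
      (Continuous.intervalIntegrable (by fun_prop) _ _)
    refine Filter.Eventually.of_forall fun θ _ => ?_
    have hb := hB _ (cm_mem h0 h θ)
    rw [norm_mul, Complex.norm_conj]
    nlinarith [norm_nonneg (T (circleMap 0 R θ)), norm_nonneg (F (circleMap 0 R θ)),
      sq_nonneg (‖T (circleMap 0 R θ)‖ - 1)]
  rw [g1, intervalIntegral.integral_add (by simp)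
    (Continuous.intervalIntegrable (by fun_prop) _ _), intervalIntegral.integral_const_mul,
    g3] at e3
  have hS0 : 0 ≤ S := sum_nonneg fun _ _ => sq_nonneg _
  rw [Complex.norm_real, Real.norm_of_nonneg (by positivity)] at e3
  simp only [intervalIntegral.integral_const, sub_zero, smul_eq_mul] at e3
  nlinarith [Real.pi_pos]

lemma bessel {F : ℂ → ℂ} {R' : ℝ} (hF : DifferentiableOn ℂ F (ball 0 R')) (h0 : 0 < R')
    (hB : ∀ z ∈ ball (0:ℂ) R', ‖F z‖ ≤ 1) (m : ℕ) :
    ∑ n ∈ range m, (‖co n F‖ * R' ^ n) ^ 2 ≤ 1 := by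
  have hc : Continuous fun R : ℝ => ∑ n ∈ range m, (‖co n F‖ * R ^ n) ^ 2 := by fun_prop
  have ht := (hc.tendsto R').mono_left (nhdsWithin_le_nhds (s := Set.Iio R'))
  refine le_of_tendsto ht ?_
  filter_upwards [Ioo_mem_nhdsLT h0] with R hR
  exact bessel_lt hF hR.1 hR.2 hB m

end Pool.Agent.Lib.MP_9dc04a_an
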