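import Pool.Agent.Lib.MP_9dc04a_an.Core

set_option autoImplicit false

namespace Pool.Agent.Lib.MP_9dc04a_an

open Complex Metric Finset
open scoped Real ComplexConjugate

lemma an0 {F : ℂ → ℂ} {R : ℝ} (hR : 0 < R) (hF : DifferentiableOn ℂ F (ball 0 R)) :
    AnalyticAt ℂ F 0 := hF.analyticAt (ball_mem_nhds 0 hR)

section phi

variable {Φ : ℂ → ℂ} (hΦ : DifferentiableOn ℂ Φ (ball 0 13)) (h0 : co 0 Φ = 1)
  (hA : ∀ k, (k < 17 → ‖co k Φ‖ ≤ ab k) ∧ ‖co k Φ‖ ≤ (1 / 6) ^ k)

include hΦ hA in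
lemma phi_tail {z : ℂ} (hz : ‖z‖ ≤ 81 / 20) :
    ‖Φ z - ∑ n ∈ range 17, co n Φ * z ^ n‖ ≤ (ab 17 : ℝ) * ‖z‖ ^ 17 := by
  refine (tail hΦ 17 (T := 6) (by norm_num) (fun n _ => (hA n).2) hz (by norm_num)
    (by norm_num)).trans ?_
  have : (0:ℝ) ≤ ‖z‖ ^ 17 := by positivity
  rw [div_pow]
  simp only [ab]
  push_cast
  norm_num
  linarith

include hΦ hA in
lemma phi_le {z : ℂ} (hz : ‖z‖ ≤ 81 / 20) : ‖Φ z‖ ≤ 19 / 10 := by
  have h1 := phi_tail hΦ hA hz
  have h2 : ‖∑ n ∈ range 17, co n Φ * z ^ n‖ ≤ ∑ n ∈ range 17, (ab n : ℝ) * (81 / 20) ^ n := by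
    refine (norm_sum_le _ _).trans (sum_le_sum fun n hn => ?_)
    rw [norm_mul, norm_pow]
    have : (0:ℝ) ≤ ab n := by exact_mod_cast ab_nonneg n
    gcongr
    exact (hA n).1 (mem_range.1 hn)
  have h3 : (ab 17 : ℝ) * ‖z‖ ^ 17 ≤ (ab 17 : ℝ) * (81 / 20) ^ 17 := by
    have : (0:ℝ) ≤ ab 17 := by exact_mod_cast ab_nonneg 17
    gcongr
  have h4 : ∑ n ∈ range 18, ab n * (81 / 20) ^ n ≤ 19 / 10 := by decide +kernel
  have h5 : ((∑ n ∈ range 18, ab n * (81 / 20) ^ n : ℚ) : ℝ) ≤ ((19 / 10 : ℚ) : ℝ) :=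
    Rat.cast_le.2 h4
  rw [sum_range_succ] at h5
  push_cast at h5
  have := norm_le_insert' (Φ z) (∑ n ∈ range 17, co n Φ * z ^ n)
  linarith

include hΦ h0 hA in
lemma phi_J {h : ℂ} (hZ : ‖π * I + h‖ ≤ 81 / 20) (e : ℕ) :
    ‖JJ h (fun z => z ^ e * Φ z) - (if e = 0 then mm h 0 else 0)‖ ≤ LL h e := by
  have hZ' : ‖π * I + h‖ < 13 := hZ.trans_lt (by norm_num)
  set c : ℕ → ℂ := fun k => if e + k < 6 then co k Φ else 0 with hc
  set R : ℂ → ℂ := fun z => z ^ e * Φ z - ∑ k ∈ range 18, c k * z ^ (e + k) with hR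
  have cΦ := hΦ.continuousOn
  have e1 : JJ h (fun z => z ^ e * Φ z) = ∑ k ∈ range 18, c k * mm h (e + k) + JJ h R := by
    have : (fun z => z ^ e * Φ z) = fun z => (∑ k ∈ range 18, c k * z ^ (e + k)) + R z := by
      funext z; simp [hR]
    rw [this, JJ_add hZ' (by fun_prop) (by simp only [hR]; fun_prop),
      JJ_sum hZ' (A := fun k z => c k * z ^ (e + k)) (fun _ => by fun_prop)]
    simp only [JJ_mul, JJ_pow hZ']
  have e2 : ‖JJ h R‖ ≤ ∑ k ∈ range 18, (if e + k < 6 then 0 else (ab k : ℝ)) *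
      ((‖exp h‖ + ‖exp (-h)‖) * ‖π * I + h‖ ^ (e + k + 1) / ((e + k : ℕ) + 1)) := by
    refine JJ_le (p := fun k => e + k) fun z hz => ?_
    have t := phi_tail hΦ hA (hz.trans hZ)
    have : R z = (∑ k ∈ range 17, (if e + k < 6 then 0 else co k Φ) * z ^ (e + k)) +
        z ^ e * (Φ z - ∑ n ∈ range 17, co n Φ * z ^ n) := by
      have c17 : c 17 = 0 := by simp [hc]
      simp only [hR]
      rw [sum_range_succ, c17, mul_sub, mul_sum]
      have : ∑ i ∈ range 17, z ^ e * (co i Φ * z ^ i) = ∑ k ∈ range 17, c k * z ^ (e + k) +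
          ∑ k ∈ range 17, (if e + k < 6 then 0 else co k Φ) * z ^ (e + k) := by
        rw [← sum_add_distrib]
        refine sum_congr rfl fun k _ => ?_
        simp only [hc]
        split_ifs <;> ring
      rw [this]; ring
    rw [this, sum_range_succ _ 17]
    refine (norm_add_le _ _).trans (add_le_add ((norm_sum_le _ _).trans
      (sum_le_sum fun k hk => ?_)) ?_)
    · rw [norm_mul, norm_pow]
      gcongr
      split_ifs
      · simp
      · exact (hA k).1 (mem_range.1 hk)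
    · rw [if_neg (by omega), norm_mul, norm_pow, pow_add]
      calc _ ≤ ‖z‖ ^ e * ((ab 17 : ℝ) * ‖z‖ ^ 17) := by gcongr
        _ = _ := by ring
  have e3 : ‖∑ k ∈ range 18, c k * mm h (e + k) - (if e = 0 then mm h 0 else 0)‖ ≤
      ∑ k ∈ range 18, (if e + k < 6 then (ab k : ℝ) * Mz h (e + k) else 0) := by
    have : ∑ k ∈ range 18, c k * mm h (e + k) - (if e = 0 then mm h 0 else 0) =
        ∑ k ∈ range 18, c k * (if e + k = 0 then 0 else mm h (e + k)) := by
      rw [sum_range_succ' _ 17, sum_range_succ' _ 17]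
      by_cases he : e = 0
      · simp [he, hc, h0]
      · simp [he]
    rw [this]
    refine (norm_sum_le _ _).trans (sum_le_sum fun k hk => ?_)
    rw [norm_mul]
    simp only [hc, Mz]
    split_ifs with a b
    · simp
    · gcongr
      exact (hA k).1 (by omega)
    · simp
    · simp
  rw [e1, add_sub_right_comm]
  refine (norm_add_le _ _).trans ((add_le_add e3 e2).trans (le_of_eq ?_))
  rw [← sum_add_distrib]
  unfold LL LR
  refine sum_congr rfl fun k _ => ?_
  split_ifs <;> push_cast <;> ring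

end phi

lemma mul_slit {u v : ℂ} (hu : 0 < u.re) (hv : 0 < v.re) : u * v ∈ slitPlane := by
  rw [mem_slitPlane_iff]
  by_cases h : (u * v).im = 0
  · left
    simp only [mul_im, mul_re] at h ⊢
    have : u.re * (u.re * v.re - u.im * v.im) = v.re * (u.re ^ 2 + u.im ^ 2) := by
      linear_combination (-u.im) * h
    have h2 : 0 < v.re * (u.re ^ 2 + u.im ^ 2) := by positivity
    rw [← this] at h2
    exact (mul_pos_iff_of_pos_left hu).1 h2
  · exact Or.inr h

lemma div_re_pos {a b : ℂ} (h : ‖a - b‖ < ‖b‖) : 0 < (a / b).re := by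
  have hb : b ≠ 0 := by rintro rfl; simp at h; linarith [norm_nonneg a]
  have h1 : ‖a / b - 1‖ < 1 := by
    rw [div_sub_one hb, norm_div, div_lt_one (norm_pos_iff.2 hb)]; exact h
  have := (abs_le.1 (abs_re_le_norm (a / b - 1))).1
  simp only [sub_re, one_re] at this
  linarith

lemma mm0_near {h : ℂ} (hh : ‖h‖ = 17 / 20) : ‖mm h 0 - -2 * h‖ < ‖-2 * h‖ := by
  have a := Complex.exp_bound (x := h) (by rw [hh]; norm_num) (n := 3) (by norm_num)
  have b := Complex.exp_bound (x := -h) (by rw [norm_neg, hh]; norm_num) (n := 3) (by norm_num)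
  rw [norm_neg] at b
  rw [hh] at a b
  have e : mm h 0 - -2 * h = (exp (-h) - ∑ m ∈ range 3, (-h) ^ m / m.factorial) -
      (exp h - ∑ m ∈ range 3, h ^ m / m.factorial) := by
    simp [mm, sum_range_succ]; ring
  rw [e, norm_mul, hh]
  refine (norm_sub_le _ _).trans_lt ?_
  norm_num [Nat.factorial] at a b ⊢
  linarith

theorem core {H G σ δ : ℂ → ℂ} {s : ℝ} (hH : DifferentiableOn ℂ H (ball 0 13))
    (hG : DifferentiableOn ℂ G (ball 0 13)) (hσ : DifferentiableOn ℂ σ (ball 0 13))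
    (hδ : DifferentiableOn ℂ δ (ball 0 13))
    (h2 : ∀ z ∈ ball (0:ℂ) 13, deriv (deriv H) z = (1 + δ z) * deriv H z) (h1 : deriv H 0 = 1)
    (hG' : ∀ z ∈ ball (0:ℂ) 13, deriv G z = s * z * σ z * deriv H z) (hs0 : 0 ≤ s)
    (hs : s ≤ 1 / 13) (hσ1 : ∀ z ∈ ball (0:ℂ) 13, ‖σ z‖ ≤ 1) (hd : ∀ n, ‖co n δ‖ ≤ db n)
    (hinj : Set.InjOn (fun z => H z + conj (G z)) (ball 0 13)) : False := by
  set Φ : ℂ → ℂ := fun z => deriv H z * exp (-z) with hΦd
  have hH' : DifferentiableOn ℂ (deriv H) (ball 0 13) := hH.deriv isOpen_ball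
  have hΦ : DifferentiableOn ℂ Φ (ball 0 13) := hH'.mul (by fun_prop)
  have p13 : (0:ℝ) < 13 := by norm_num
  have h0 : co 0 Φ = 1 := by simp [co_zero, hΦd, h1]
  have hΦ' : deriv Φ =ᶠ[nhds 0] fun z => δ z * Φ z := by
    filter_upwards [ball_mem_nhds (0:ℂ) p13] with z hz
    have a := (hH'.differentiableAt (isOpen_ball.mem_nhds hz)).hasDerivAt
    have b : HasDerivAt (fun z : ℂ => exp (-z)) (exp (-z) * -1) z := (hasDerivAt_neg z).cexp
    have c : HasDerivAt Φ _ z := a.mul b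
    rw [c.deriv, h2 z hz]
    simp only [hΦd]; ring
  have hA := coef_bound (A := fun k => co k Φ) (d := fun k => co k δ) h0 hd fun k => by
    rw [← co_deriv, co_congr hΦ', co_mul (an0 p13 hδ) (an0 p13 hΦ)]
  have hexp : ∀ z, deriv H z = exp z * Φ z := fun z => by
    simp only [hΦd]; rw [exp_neg]; have := exp_ne_zero z; field_simp
  set D : ℂ → ℂ := fun h => H (π * I + h) - H (-(π * I + h)) +
    conj (G (π * I + h) - G (-(π * I + h))) with hD
  have hZb : ∀ h ∈ ball (0:ℂ) 1, π * I + h ∈ ball (0:ℂ) 13 := by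
    intro h hh
    rw [mem_ball_zero_iff] at hh ⊢
    have := norm_add_le ((π:ℂ) * I) h
    rw [norm_mul, norm_I, Complex.norm_real, Real.norm_of_nonneg Real.pi_pos.le] at this
    linarith [Real.pi_lt_four]
  have hZb' : ∀ h ∈ ball (0:ℂ) 1, -(π * I + h) ∈ ball (0:ℂ) 13 := fun h hh => by
    rw [mem_ball_zero_iff, norm_neg, ← mem_ball_zero_iff]; exact hZb h hh
  refine degree (D := fun h => -D h) ?_ ?_ (r := 17 / 20) (by norm_num) (by norm_num) ?_
  · have a1 := hH.continuousOn.comp (f := fun h : ℂ => π * I + h) (by fun_prop) hZb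
    have a2 := hH.continuousOn.comp (f := fun h : ℂ => -(π * I + h)) (by fun_prop) hZb'
    have a3 := hG.continuousOn.comp (f := fun h : ℂ => π * I + h) (by fun_prop) hZb
    have a4 := hG.continuousOn.comp (f := fun h : ℂ => -(π * I + h)) (by fun_prop) hZb'
    exact ((a1.sub a2).add (continuous_conj.comp_continuousOn (a3.sub a4))).neg
  · intro h hh e
    have := hinj (hZb h hh) (hZb' h hh) (by
      simp only [hD, map_sub, neg_eq_zero] at e ⊢
      linear_combination e)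
    have e2 : h = -(π * I) := by linear_combination this / 2
    rw [mem_ball_zero_iff, e2, norm_neg, norm_mul, norm_I, Complex.norm_real,
      Real.norm_of_nonneg Real.pi_pos.le] at hh
    linarith [Real.pi_gt_three]
  intro h hh
  obtain ⟨hZ, hg⟩ := good hh
  have hZ' : ‖π * I + h‖ < 13 := hZ.trans_lt (by norm_num)
  have cΦ := hΦ.continuousOn
  have cσ := hσ.continuousOn
  have j1 : H (π * I + h) - H (-(π * I + h)) = JJ h fun z => z ^ 0 * Φ z := by
    refine (JJ_ftc hZ' (by fun_prop) fun z hz => ?_).symm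
    rw [pow_zero, one_mul, ← hexp]
    exact (hH.differentiableAt (isOpen_ball.mem_nhds hz)).hasDerivAt
  set ρ : ℂ → ℂ := fun z => z * (σ z - ∑ n ∈ range 4, co n σ * z ^ n) * Φ z with hρ
  have j2 : G (π * I + h) - G (-(π * I + h)) =
      s * (∑ n ∈ range 4, co n σ * JJ h (fun z => z ^ (n + 1) * Φ z) + JJ h ρ) := by
    simp_rw [← JJ_mul]
    rw [← JJ_sum hZ' (A := fun n z => co n σ * (z ^ (n + 1) * Φ z)) (fun _ => by fun_prop),
      ← JJ_add hZ' (by fun_prop) (by simp only [hρ]; fun_prop), ← JJ_mul]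
    refine (JJ_ftc hZ' (by simp only [hρ]; fun_prop) fun z hz => ?_).symm
    refine (hG.differentiableAt (isOpen_ball.mem_nhds hz)).hasDerivAt.congr_deriv ?_
    rw [hG' z hz, hexp]
    simp only [hρ, sum_range_succ, range_zero, sum_empty]
    ring
  have hb := bessel hσ p13 hσ1
  have j3 : ‖JJ h ρ‖ ≤ (‖exp h‖ + ‖exp (-h)‖) * ‖π * I + h‖ ^ 6 / 60000 := by
    have := JJ_le (h := h) (Θ := ρ) (b := fun _ => 1 / 10000) (p := fun _ => 5) (m := 1)
      fun z hz => by
        have t := tail hσ 4 p13 (fun n _ => by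
          have h3 := (single_le_sum (f := fun n => (‖co n σ‖ * 13 ^ n) ^ 2)
            (fun _ _ => sq_nonneg _) (self_mem_range_succ n)).trans (hb (n + 1))
          have h4 : ‖co n σ‖ * 13 ^ n ≤ 1 := by
            rw [sq] at h3
            exact (le_abs_self _).trans (abs_le_one_iff_mul_self_le_one.2 h3)
          rw [one_div, inv_pow, ← one_div, le_div_iff₀ (by positivity)]
          exact h4) (hz.trans hZ) (by norm_num) (by norm_num)
        have u := phi_le hΦ hA (hz.trans hZ)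
        simp only [hρ, norm_mul, sum_range_succ, range_zero, sum_empty] at t ⊢
        calc _ ≤ ‖z‖ * ((‖z‖ / 13) ^ 4 / (1 - 81 / 20 / 13)) * (19 / 10) := by gcongr
          _ = (19 / 10 / 13 ^ 4 / (1 - 81 / 20 / 13)) * ‖z‖ ^ 5 := by ring
          _ ≤ _ := by
            rw [zero_add]
            exact mul_le_mul_of_nonneg_right (by norm_num) (by positivity)
    simp only [sum_range_succ, range_zero, sum_empty] at this
    refine this.trans (le_of_eq ?_)
    push_cast; ring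
  have j4 : ‖∑ n ∈ range 4, co n σ * JJ h (fun z => z ^ (n + 1) * Φ z)‖ ≤
      ∑ n ∈ range 4, (‖co n σ‖ * 13 ^ n) * (LL h (n + 1) / 13 ^ n) := by
    refine (norm_sum_le _ _).trans (sum_le_sum fun n _ => ?_)
    have := phi_J hΦ h0 hA hZ (n + 1)
    rw [if_neg (by omega), sub_zero] at this
    rw [norm_mul]
    calc _ ≤ ‖co n σ‖ * LL h (n + 1) := by gcongr
      _ = _ := by field_simp
  have j5 := phi_J hΦ h0 hA hZ 0
  rw [if_pos rfl, ← j1] at j5
  have j6 := hg _ (hb 4)
  have j7 : ‖D h - mm h 0‖ < ‖mm h 0‖ := by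
    have e : D h - mm h 0 = (H (π * I + h) - H (-(π * I + h)) - mm h 0) +
        conj (G (π * I + h) - G (-(π * I + h))) := by simp only [hD]; ring
    rw [e]
    refine (norm_add_le _ _).trans_lt ?_
    rw [Complex.norm_conj, j2, norm_mul, Complex.norm_real, Real.norm_of_nonneg hs0]
    have k := norm_add_le (∑ n ∈ range 4, co n σ * JJ h (fun z => z ^ (n + 1) * Φ z)) (JJ h ρ)
    have k2 := mul_le_mul hs (k.trans (add_le_add j4 j3)) (norm_nonneg _) (by norm_num)
    linarith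
  have k1 := div_re_pos j7
  have k2 := div_re_pos (mm0_near hh)
  have hm : mm h 0 ≠ 0 := by
    intro e; rw [e] at j7; simp at j7; linarith [norm_nonneg (D h)]
  have hh0 : h ≠ 0 := by rintro rfl; norm_num at hh
  have k3 : 0 < (2 * (mm h 0 / (-2 * h))).re := by
    generalize mm h 0 / (-2 * h) = u at k2 ⊢
    simpa using k2
  have := mul_slit k1 k3
  convert this using 1
  field_simp

end Pool.Agent.Lib.MP_9dc04a_an
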