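import Mathlib

set_option autoImplicit false

namespace Pool.Agent.Lib.MP_9dc04a_an

open Finset

def Con (E : ℤ → Prop) (a b : ℤ) : Prop := a < b ∧ E a ∧ E b ∧ ∀ x, a < x → x < b → ¬ E x

lemma per_mul {α : Type} {f : ℤ → α} {N : ℕ} (h : ∀ j, f (j + N) = f j) (k j : ℤ) :
    f (j + N * k) = f j := by
  have : Function.Periodic f (N:ℤ) := h
  simpa [mul_comm] using this.int_mul k j

lemma per_dvd {α : Type} {f : ℤ → α} {N : ℕ} (h : ∀ j, f (j + N) = f j) {i j : ℤ}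
    (d : (N:ℤ) ∣ i - j) : f i = f j := by
  obtain ⟨k, hk⟩ := d
  rw [← per_mul h k j]; congr 1; linarith

structure Bas (N : ℕ) (E : ℤ → Prop) (s : ℤ → ℝ) : Prop where
  N0 : 0 < N
  pE : ∀ j, E (j + N) = E j
  ps : ∀ j, s (j + N) = s j
  sgn : ∀ j, s j = 1 ∨ s j = -1
  alt : ∀ a b, Con E a b → s b = -s a

structure Str (N : ℕ) (E : ℤ → Prop) (s : ℤ → ℝ) (rf : ℤ → Prop) (blk : ℤ → ℕ) (c : ℤ → ℝ) : Prop
    extends Bas N E s where
  prf : ∀ j, rf (j + N) = rf j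
  pb : ∀ j, blk (j + N) = blk j
  rE : ∀ j, rf j → E j
  rb : ∀ j, rf j → blk j ≠ 0
  ru : ∀ i j, rf i → rf j → blk i = blk j → (N:ℤ) ∣ i - j
  hr : ∀ j, E j → blk j ≠ 0 → ∃ r, rf r ∧ blk r = blk j ∧ s r = s j
  nc : ∀ a b c d : ℤ, a < b → b < c → c < d → d < a + N → E a → E b → E c → E d →
    blk a = blk c → blk b = blk d → blk a = blk b
  pi : ∀ a b, Con E a b → ¬(blk a = 0 ∧ blk b = 0) →
    ∃ b' a', Con E b' a' ∧ blk b' = blk b ∧ blk a' = blk a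
  iq : ∀ j r, E j → rf r → blk j = blk r → s r * c j ≤ s r * c r

variable {N : ℕ} {E : ℤ → Prop} {s : ℤ → ℝ} {rf : ℤ → Prop} {blk : ℤ → ℕ} {c : ℤ → ℝ}

lemma Con.le {a b x : ℤ} (h : Con E a b) (hx : E x) (ax : a < x) : b ≤ x := by
  by_contra hc; exact h.2.2.2 x ax (not_le.1 hc) hx

lemma Con.ge {a b x : ℤ} (h : Con E a b) (hx : E x) (xb : x < b) : x ≤ a := by
  by_contra hc; exact h.2.2.2 x (not_le.1 hc) xb hx

lemma Con.uniq {a b b' : ℤ} (h : Con E a b) (h' : Con E a b') : b = b' :=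
  le_antisymm (h.le h'.2.2.1 h'.1) (h'.le h.2.2.1 h.1)

lemma Con.uniq' {a a' b : ℤ} (h : Con E a b) (h' : Con E a' b) : a = a' :=
  le_antisymm (h'.ge h.2.1 h.1) (h.ge h'.2.1 h'.1)

lemma Bas.shift (B : Bas N E s) {a b : ℤ} (h : Con E a b) (k : ℤ) :
    Con E (a + N * k) (b + N * k) := by
  refine ⟨by linarith [h.1], by rw [per_mul B.pE]; exact h.2.1, by rw [per_mul B.pE]; exact h.2.2.1,
    fun x h1 h2 hx => h.2.2.2 (x + N * (-k)) (by linarith) (by linarith) ?_⟩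
  rwa [per_mul B.pE]

lemma Bas.ne (B : Bas N E s) (j : ℤ) : s j ≠ -s j := by
  rcases B.sgn j with h | h <;> rw [h] <;> norm_num

lemma Bas.nd (B : Bas N E s) {i j : ℤ} (h : s i = -s j) : ¬(N:ℤ) ∣ i - j := fun d =>
  B.ne j ((per_dvd B.ps d).symm.trans h)

lemma Bas.next (B : Bas N E s) {a : ℤ} (ha : E a) : ∃ b, Con E a b := by
  obtain ⟨b, ⟨h1, h2⟩, h3⟩ := Int.exists_least_of_bdd (P := fun x => a < x ∧ E x)
    ⟨a, fun x hx => hx.1.le⟩ ⟨a + N, by have := B.N0; omega, by rwa [B.pE]⟩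
  exact ⟨b, h1, ha, h2, fun x a1 a2 a3 => absurd (h3 x ⟨a1, a3⟩) (not_le.2 a2)⟩

lemma Bas.prev (B : Bas N E s) {b : ℤ} (hb : E b) : ∃ a, Con E a b := by
  obtain ⟨a, ⟨h1, h2⟩, h3⟩ := Int.exists_greatest_of_bdd (P := fun x => x < b ∧ E x)
    ⟨b, fun x hx => hx.1.le⟩ ⟨b - N, by have := B.N0; omega, by rwa [← B.pE, sub_add_cancel]⟩
  exact ⟨a, h1, h2, hb, fun x a1 a2 a3 => absurd (h3 x ⟨a2, a3⟩) (not_le.2 a1)⟩

lemma con_neg {a b : ℤ} : Con (fun j => E (-j)) a b ↔ Con E (-b) (-a) := by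
  refine ⟨fun h => ⟨by linarith [h.1], h.2.2.1, h.2.1, fun x h1 h2 hx =>
    h.2.2.2 (-x) (by linarith) (by linarith) (by simpa using hx)⟩,
    fun h => ⟨by linarith [h.1], h.2.2.1, h.2.1, fun x h1 h2 hx =>
    h.2.2.2 (-x) (by linarith) (by linarith) hx⟩⟩

lemma per_neg {α : Type} {f : ℤ → α} (h : ∀ j, f (j + N) = f j) (j : ℤ) :
    f (-(j + N)) = f (-j) := by rw [← h]; congr 1; ring

lemma Bas.neg (B : Bas N E s) : Bas N (fun j => E (-j)) (fun j => s (-j)) :=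
  ⟨B.N0, per_neg B.pE, per_neg B.ps, fun _ => B.sgn _, fun a b h => by
    have := B.alt _ _ (con_neg.1 h); linarith⟩

lemma Str.neg (S : Str N E s rf blk c) : Str N (fun j => E (-j)) (fun j => s (-j))
    (fun j => rf (-j)) (fun j => blk (-j)) (fun j => c (-j)) := by
  refine ⟨S.toBas.neg, per_neg S.prf, per_neg S.pb, fun _ => S.rE _, fun _ => S.rb _,
    fun i j a b e => ?_, fun j a b => ?_, fun a b c d h1 h2 h3 h4 a1 a2 a3 a4 e1 e2 => ?_,
    fun a b h h' => ?_, fun _ _ => S.iq _ _⟩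
  · have := (S.ru _ _ a b e).neg_right
    rwa [show -(-i - -j) = i - j by ring] at this
  · obtain ⟨r, hr⟩ := S.hr _ a b
    exact ⟨-r, by simpa using hr⟩
  · have := S.nc (-d) (-c) (-b) (-a) (by linarith) (by linarith) (by linarith) (by linarith)
      a4 a3 a2 a1 e2.symm e1.symm
    exact e1.trans (this.symm.trans e2.symm)
  · obtain ⟨b', a', h1, h2, h3⟩ := S.pi _ _ (con_neg.1 h) (by tauto)
    exact ⟨-a', -b', con_neg.2 (by simpa using h1), by simpa using h3, by simpa using h2⟩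

lemma Str.mono (S : Str N E s rf blk c) {i j : ℤ} (hi : E i) (hj : E j) (e : blk i = blk j)
    (n : blk j ≠ 0) : s i = s j := by
  obtain ⟨r, r1, r2, r3⟩ := S.hr i hi (e ▸ n)
  obtain ⟨r', r1', r2', r3'⟩ := S.hr j hj n
  rw [← r3, ← r3']
  exact per_dvd S.ps (S.ru _ _ r1 r1' (by rw [r2, r2', e]))

lemma Str.pi' (S : Str N E s rf blk c) {a b : ℤ} (h : Con E a b) (n : ¬(blk a = 0 ∧ blk b = 0)) :
    ∃ b' a', Con E b' a' ∧ blk b' = blk b ∧ blk a' = blk a ∧ s b' = s b := by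
  obtain ⟨b', a', h1, h2, h3⟩ := S.pi a b h n
  refine ⟨b', a', h1, h2, h3, ?_⟩
  by_cases hb : blk b = 0
  · have := S.mono h1.2.2.1 h.2.1 h3 fun ha => n ⟨ha, hb⟩
    linarith [S.alt _ _ h1, S.alt _ _ h]
  · exact S.mono h1.2.1 h.2.2.1 h2 hb

def Del (N : ℕ) (E : ℤ → Prop) (P Q : ℤ) (j : ℤ) : Prop :=
  E j ∧ ¬(N:ℤ) ∣ j - P ∧ ¬(N:ℤ) ∣ j - Q

structure Four (N : ℕ) (E : ℤ → Prop) (X P Q Y : ℤ) : Prop where
  h1 : Con E X P
  h2 : Con E P Q
  h3 : Con E Q Y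
  ne : ¬(N:ℤ) ∣ X - Q

variable {X P Q Y : ℤ}

lemma dvd_sh (j P k : ℤ) : ((N:ℤ) ∣ j + N * k - P) = ((N:ℤ) ∣ j - P) := by
  rw [show j + N * k - P = j - P + N * k by ring]
  exact propext (dvd_add_left (dvd_mul_right _ _))

lemma dvd_sh' (j P : ℤ) : ((N:ℤ) ∣ j + N - P) = ((N:ℤ) ∣ j - P) := by
  simpa using dvd_sh (N := N) j P 1

lemma Bas.pD (B : Bas N E s) (P Q j : ℤ) : Del N E P Q (j + N) = Del N E P Q j := by
  simp only [Del, B.pE, dvd_sh']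

lemma Four.sh (F : Four N E X P Q Y) (B : Bas N E s) (k : ℤ) :
    Four N E (X + N * k) (P + N * k) (Q + N * k) (Y + N * k) :=
  ⟨B.shift F.h1 k, B.shift F.h2 k, B.shift F.h3 k, by simpa using F.ne⟩

lemma Four.dX (F : Four N E X P Q Y) (B : Bas N E s) : Del N E P Q X :=
  ⟨F.h1.2.1, B.nd (by rw [B.alt _ _ F.h1, neg_neg]), F.ne⟩

lemma Four.dY (F : Four N E X P Q Y) (B : Bas N E s) : Del N E P Q Y := by
  refine ⟨F.h3.2.2.1, fun d => F.ne ?_, B.nd (B.alt _ _ F.h3)⟩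
  obtain ⟨k, hk⟩ := d
  have a := B.shift F.h1 k
  rw [show P + N * k = Y by linarith] at a
  exact ⟨-k, by linarith [a.uniq' F.h3]⟩

lemma Four.gap (F : Four N E X P Q Y) (B : Bas N E s) (k : ℤ) {x : ℤ} (hx : Del N E P Q x)
    (h : X + N * k < x) : Y + N * k ≤ x := by
  have G := F.sh B k
  have a := G.h1.le hx.1 h
  have b := G.h2.le hx.1 (lt_of_le_of_ne a fun e => hx.2.1 ⟨k, by linarith⟩)
  exact G.h3.le hx.1 (lt_of_le_of_ne b fun e => hx.2.2 ⟨k, by linarith⟩)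

lemma Four.lt (F : Four N E X P Q Y) : X < P ∧ P < Q ∧ Q < Y := ⟨F.h1.1, F.h2.1, F.h3.1⟩

lemma Four.cXY (F : Four N E X P Q Y) (B : Bas N E s) : Con (Del N E P Q) X Y :=
  ⟨by linarith [F.lt.1, F.lt.2.1, F.lt.2.2], F.dX B, F.dY B, fun x h1 h2 hx =>
    absurd (F.gap B 0 hx (by simpa using h1)) (by simpa using h2)⟩

lemma Con.del {a b : ℤ} (h : Con E a b) (ha : Del N E P Q a) (hb : Del N E P Q b) :
    Con (Del N E P Q) a b := ⟨h.1, ha, hb, fun x h1 h2 hx => h.2.2.2 x h1 h2 hx.1⟩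

lemma Four.cases (F : Four N E X P Q Y) (B : Bas N E s) {a b : ℤ} (h : Con (Del N E P Q) a b) :
    Con E a b ∨ ∃ k, a = X + N * k ∧ b = Y + N * k := by
  by_cases hc : ∃ x, a < x ∧ x < b ∧ E x
  · obtain ⟨x, h1, h2, h3⟩ := hc
    obtain ⟨k, k1, k2⟩ : ∃ k, X + N * k < x ∧ x < Y + N * k := by
      have := h.2.2.2 x h1 h2
      simp only [Del, h3, true_and, not_and_or, not_not] at this
      rcases this with ⟨k, hk⟩ | ⟨k, hk⟩ <;>
        exact ⟨k, by linarith [F.lt.1, F.lt.2.1], by linarith [F.lt.2.1, F.lt.2.2]⟩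
    have dX : Del N E P Q (X + N * k) := by rw [per_mul (B.pD P Q)]; exact F.dX B
    have dY : Del N E P Q (Y + N * k) := by rw [per_mul (B.pD P Q)]; exact F.dY B
    have e1 : a = X + N * k := le_antisymm
      (not_lt.1 fun hl => by linarith [F.gap B k h.2.1 hl]) (h.ge dX (by linarith))
    refine Or.inr ⟨k, e1, le_antisymm (h.le dY (by linarith)) (F.gap B k h.2.2.1 (by linarith))⟩
  · exact Or.inl ⟨h.1, h.2.1.1, h.2.2.1.1, fun x h1 h2 h3 => hc ⟨x, h1, h2, h3⟩⟩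

lemma Four.cls (F : Four N E X P Q Y) (B : Bas N E s) {a b : ℤ} (h : Con E a b) :
    (Del N E P Q a ∧ Del N E P Q b) ∨ (∃ k, a = X + N * k ∧ b = P + N * k) ∨
    (∃ k, a = P + N * k ∧ b = Q + N * k) ∨ ∃ k, a = Q + N * k ∧ b = Y + N * k := by
  by_cases a1 : (N:ℤ) ∣ a - P
  · obtain ⟨k, hk⟩ := a1
    obtain rfl : a = P + N * k := by linarith
    exact Or.inr (Or.inr (Or.inl ⟨k, rfl, h.uniq (F.sh B k).h2⟩))
  by_cases a2 : (N:ℤ) ∣ a - Q
  · obtain ⟨k, hk⟩ := a2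
    obtain rfl : a = Q + N * k := by linarith
    exact Or.inr (Or.inr (Or.inr ⟨k, rfl, h.uniq (F.sh B k).h3⟩))
  by_cases b1 : (N:ℤ) ∣ b - P
  · obtain ⟨k, hk⟩ := b1
    obtain rfl : b = P + N * k := by linarith
    exact Or.inr (Or.inl ⟨k, h.uniq' (F.sh B k).h1, rfl⟩)
  by_cases b2 : (N:ℤ) ∣ b - Q
  · obtain ⟨k, hk⟩ := b2
    obtain rfl : b = Q + N * k := by linarith
    exact Or.inr (Or.inr (Or.inl ⟨k, h.uniq' (F.sh B k).h2, rfl⟩))
  exact Or.inl ⟨⟨h.2.1, a1, a2⟩, h.2.2.1, b1, b2⟩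

lemma Four.bas (F : Four N E X P Q Y) (B : Bas N E s) : Bas N (Del N E P Q) s := by
  refine ⟨B.N0, B.pD P Q, B.ps, B.sgn, fun a b h => ?_⟩
  rcases F.cases B h with h | ⟨k, rfl, rfl⟩
  · exact B.alt _ _ h
  · rw [per_mul B.ps, per_mul B.ps]
    linarith [B.alt _ _ F.h1, B.alt _ _ F.h2, B.alt _ _ F.h3]

lemma ex_win (hN : 0 < N) (x b : ℤ) : ∃ k : ℤ, b ≤ x + N * k ∧ x + N * k < b + N := by
  have p : (0:ℤ) < N := by exact_mod_cast hN
  refine ⟨-((x - b) / N), ?_, ?_⟩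
  · linarith [Int.emod_nonneg (x - b) p.ne', Int.emod_add_mul_ediv (x - b) N]
  · linarith [Int.emod_lt_of_pos (x - b) p, Int.emod_add_mul_ediv (x - b) N]

/-- deleting a convex and a reflex neighbour -/
theorem Str.merge (S : Str N E s rf blk c) (h1 : Con E X P) (h2 : Con E P Q) (h3 : Con E Q Y)
    (rP : ¬rf P) (rQ : rf Q) (ne : blk X ≠ blk Q) (hc : s X * c Q ≤ s X * c X) :
    Str N (Del N E P Q) s (fun j => rf j ∧ Del N E P Q j)
      (fun j => if blk j = blk Q then blk X else blk j) c := by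
  have B := S.toBas
  have F : Four N E X P Q Y := ⟨h1, h2, h3, fun d => ne (per_dvd S.pb d)⟩
  have sP := S.alt _ _ h1
  have sQ : s Q = s X := by linarith [S.alt _ _ h2]
  have sY : s Y = -s X := by linarith [S.alt _ _ h3]
  have β0 := S.rb Q rQ
  have bP : blk P ≠ blk Q := fun e =>
    B.ne X (by linarith [S.mono h1.2.2.1 h2.2.2.1 e β0])
  have nr : ∀ r, rf r → blk r ≠ blk Q → Del N E P Q r := fun r a b =>
    ⟨S.rE r a, fun d => rP (per_dvd S.prf d ▸ a), fun d => b (per_dvd S.pb d)⟩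
  have rn : ∀ r, rf r → Del N E P Q r → blk r ≠ blk Q := fun r a b e => b.2.2 (S.ru _ _ a rQ e)
  set m : ℤ → ℕ := fun j => if blk j = blk Q then blk X else blk j with hm
  have m1 : ∀ j, blk j ≠ blk Q → m j = blk j := fun j h => if_neg h
  have m2 : ∀ j, blk j = blk Q → m j = blk X := fun j h => if_pos h
  have m3 : ∀ i j, blk i = blk j → m i = m j := fun i j h => by simp only [hm, h]
  have sep : ∀ b d p q : ℤ, b < p → p < d → d < q → q < b + N → Del N E P Q b → Del N E P Q d →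
      E p → E q → blk b = blk d → m b ≠ blk X → m p = blk X → m q = blk X → False := by
    intro b d p q l1 l2 l3 l4 db dd ep eq e n mp mq
    have n1 : blk b ≠ blk Q := fun h => n (m2 b h)
    rw [m1 b n1] at n
    have k : ∀ j, m j = blk X → blk j = blk X ∨ blk j = blk Q := fun j h => by
      by_cases h' : blk j = blk Q
      · exact Or.inr h'
      · exact Or.inl (m1 j h' ▸ h)
    obtain ⟨k, k1, k2⟩ := ex_win S.N0 X b
    have bX : blk (X + N * k) = blk X := per_mul S.pb k X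
    have bQ : blk (Q + N * k) = blk Q := per_mul S.pb k Q
    have G := F.sh B k
    have k3 : b < X + N * k := lt_of_le_of_ne k1 fun h => n (by rw [h, bX])
    rcases lt_trichotomy (X + N * k) d with h | h | h
    · have := F.gap B k dd h
      rcases ‹∀ j, m j = blk X → _› q mq with a | a
      · exact n ((S.nc b _ d q k3 h l3 l4 db.1 G.h1.2.1 dd.1 eq e (bX.trans a.symm)).trans bX)
      · exact n1 ((S.nc b _ d q (by linarith [G.lt.1, G.lt.2.1]) (by linarith [G.lt.2.2]) l3 l4 db.1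
          G.h3.2.1 dd.1 eq e (bQ.trans a.symm)).trans bQ)
    · exact n (by rw [e, ← h, bX])
    · have := F.gap B k (x := b + N) (by rwa [B.pD]) k2
      rcases ‹∀ j, m j = blk X → _› p mp with a | a
      · exact n ((S.nc b p d _ l1 l2 h k2 db.1 ep dd.1 G.h1.2.1 e (a.trans bX.symm)).trans a)
      · exact n1 ((S.nc b p d _ l1 l2 (by linarith [G.lt.1, G.lt.2.1]) (by linarith [G.lt.2.2]) db.1
          ep dd.1 G.h3.2.1 e (a.trans bQ.symm)).trans a)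
  have mix : ∀ i j, m i = m j → blk i ≠ blk j → m i = blk X := fun i j h n => by
    by_cases a : blk i = blk Q
    · exact m2 i a
    · by_cases b : blk j = blk Q
      · rw [h, m2 j b]
      · exact absurd (by rwa [m1 i a, m1 j b] at h) n
  have mX : m X = blk X := m1 X ne
  have mP : m P = blk P := m1 P bP
  have up : ¬(blk X = 0 ∧ blk P = 0) →
      ∃ b' a', Con (Del N E P Q) b' a' ∧ m b' = blk P ∧ m a' = blk X := fun n => by
    obtain ⟨b', a', c1, c2, c3, c4⟩ := S.pi' h1 n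
    rcases F.cls B c1 with d | ⟨k, rfl, rfl⟩ | ⟨k, rfl, rfl⟩ | ⟨k, rfl, rfl⟩
    · exact ⟨b', a', c1.del d.1 d.2, (m3 _ _ c2).trans mP, (m3 _ _ c3).trans mX⟩
    · rw [per_mul S.ps] at c4; exact absurd (c4.trans sP) (B.ne X)
    · rw [per_mul S.pb] at c3; exact absurd c3.symm ne
    · rw [per_mul S.ps] at c4; exact absurd (sQ.symm.trans (c4.trans sP)) (B.ne X)
  have dn : ∃ b' a', Con (Del N E P Q) b' a' ∧ m b' = blk X ∧ m a' = blk P := by
    obtain ⟨b', a', c1, c2, c3, c4⟩ := S.pi' h2 fun h => β0 h.2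
    rcases F.cls B c1 with d | ⟨k, rfl, rfl⟩ | ⟨k, rfl, rfl⟩ | ⟨k, rfl, rfl⟩
    · exact ⟨b', a', c1.del d.1 d.2, m2 _ c2, (m3 _ _ c3).trans mP⟩
    · rw [per_mul S.pb] at c2; exact absurd c2 ne
    · rw [per_mul S.ps] at c4; exact absurd (sQ.symm.trans (c4.symm.trans sP)) (B.ne X)
    · rw [per_mul S.pb] at c3; exact ⟨X, Y, F.cXY B, mX, (m3 _ _ c3).trans mP⟩
  refine ⟨F.bas B, fun j => by rw [S.prf, B.pD], fun j => m3 _ _ (S.pb j), fun j h => h.2,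
    fun j h => ?_, fun i j hi hj e => ?_, fun j hj n => ?_,
    fun a b c d l1 l2 l3 l4 ea eb ec ed e1 e2 => ?_, fun a b h n => ?_, fun j r hj hr e => ?_⟩
  · rw [m1 j (rn j h.1 h.2)]; exact S.rb j h.1
  · rw [m1 i (rn i hi.1 hi.2), m1 j (rn j hj.1 hj.2)] at e
    exact S.ru _ _ hi.1 hj.1 e
  · by_cases e : blk j = blk Q
    · rw [m2 j e] at n ⊢
      obtain ⟨r, r1, r2, r3⟩ := S.hr X h1.2.1 n
      exact ⟨r, ⟨r1, nr r r1 (r2 ▸ ne)⟩, (m1 r (r2 ▸ ne)).trans r2,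
        by rw [r3, ← sQ, S.mono hj.1 h2.2.2.1 e β0]⟩
    · rw [m1 j e] at n
      obtain ⟨r, r1, r2, r3⟩ := S.hr j hj.1 n
      exact ⟨r, ⟨r1, nr r r1 (r2 ▸ e)⟩, m3 _ _ r2, r3⟩
  · by_contra n
    by_cases x1 : blk a = blk c
    · by_cases x2 : blk b = blk d
      · exact n (m3 _ _ (S.nc a b c d l1 l2 l3 l4 ea.1 eb.1 ec.1 ed.1 x1 x2))
      · have := mix b d e2 x2
        exact sep a c b d l1 l2 l3 l4 ea ec eb.1 ed.1 x1 (this ▸ n) this (e2 ▸ this)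
    · have := mix a c e1 x1
      by_cases x2 : blk b = blk d
      · exact sep b d c (a + N) l2 l3 l4 (by linarith) eb ed ec.1 (by rw [S.pE]; exact ea.1) x2
          (fun h => n (this.trans h.symm)) (e1 ▸ this) ((m3 _ _ (S.pb a)).trans this)
      · exact n (this.trans (mix b d e2 x2).symm)
  · rcases F.cases B h with h' | ⟨k, rfl, rfl⟩
    · obtain ⟨b', a', c1, c2, c3⟩ := S.pi a b h' fun z =>
        n ⟨(m1 a (z.1 ▸ β0.symm)).trans z.1, (m1 b (z.2 ▸ β0.symm)).trans z.2⟩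
      rcases F.cls B c1 with d | ⟨k, rfl, rfl⟩ | ⟨k, rfl, rfl⟩ | ⟨k, rfl, rfl⟩
      · exact ⟨b', a', c1.del d.1 d.2, m3 _ _ c2, m3 _ _ c3⟩
      · rw [per_mul S.pb] at c2 c3
        rw [← m3 _ _ c2, ← m3 _ _ c3, mX, mP]; exact dn
      · rw [per_mul S.pb] at c2 c3
        rw [← m3 _ _ c2, mP, m2 a c3.symm] at n ⊢
        exact up n
      · rw [per_mul S.pb] at c2 c3
        exact ⟨X, Y, F.cXY B, mX.trans (m2 b c2.symm).symm, m3 _ _ c3⟩
    · rw [m3 _ _ (per_mul S.pb k X), m3 _ _ (per_mul S.pb k Y), mX] at n ⊢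
      obtain ⟨b', a', c1, c2, c3, c4⟩ := S.pi' h3 fun h => β0 h.1
      rcases F.cls B c1 with d | ⟨k, rfl, rfl⟩ | ⟨k, rfl, rfl⟩ | ⟨k, rfl, rfl⟩
      · exact ⟨b', a', c1.del d.1 d.2, m3 _ _ c2, m2 _ c3⟩
      · rw [per_mul S.ps] at c4; exact absurd (c4.trans sY) (B.ne X)
      · rw [per_mul S.pb] at c2
        rw [← m3 _ _ c2, mP] at n ⊢
        exact up n
      · rw [per_mul S.ps] at c4; exact absurd (sQ.symm.trans (c4.trans sY)) (B.ne X)
  · rw [m1 r (rn r hr.1 hr.2)] at e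
    by_cases e' : blk j = blk Q
    · rw [m2 j e'] at e
      have a := S.iq j Q hj.1 rQ e'
      have b := S.iq X r h1.2.1 hr.1 e
      rw [← S.mono h1.2.1 hr.2.1 e (S.rb r hr.1)] at b ⊢
      rw [sQ] at a
      linarith
    · rw [m1 j e'] at e
      exact S.iq j r hj.1 hr.1 e

/-- inserting a convex and a reflex neighbour -/
theorem Four.insert (F : Four N E X P Q Y) (B : Bas N E s) (prf : ∀ j, rf (j + N) = rf j)
    (rE : ∀ j, rf j → E j) (pc : ∀ j, c (j + N) = c j) (rP : ¬rf P) (rQ : rf Q)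
    (hc : s Y * c P ≤ s Y * c Y)
    (S : Str N (Del N E P Q) s (fun j => rf j ∧ Del N E P Q j) blk c) :
    ∃ blk', Str N E s rf blk' c := by
  classical
  obtain ⟨M, hM⟩ : ∃ M, ∀ j, blk j < M := by
    refine ⟨(Ico (0:ℤ) N).sup blk + 1, fun j => Nat.lt_succ_of_le ?_⟩
    obtain ⟨k, k1, k2⟩ := ex_win B.N0 j 0
    rw [← per_mul S.pb k j]
    exact le_sup (f := blk) (mem_Ico.2 ⟨k1, by simpa using k2⟩)
  have sP := B.alt _ _ F.h1
  have sQ : s Q = s X := by linarith [B.alt _ _ F.h2]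
  have sY : s Y = -s X := by linarith [B.alt _ _ F.h3]
  have PQ : ¬(N:ℤ) ∣ P - Q := B.nd (by rw [sQ, sP])
  set φ : ℤ → ℤ := fun j => if (N:ℤ) ∣ j - P then j + (Y - P) else j with hφ
  set m : ℤ → ℕ := fun j => if (N:ℤ) ∣ j - Q then M else blk (φ j) with hm
  have φp : ∀ j, φ (j + N) = φ j + N := fun j => by
    simp only [hφ, dvd_sh']; split_ifs <;> ring
  have φ1 : ∀ j, ¬(N:ℤ) ∣ j - P → φ j = j := fun j h => if_neg h
  have φ2 : ∀ k, φ (P + N * k) = Y + N * k := fun k => by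
    rw [hφ]; simp only; rw [if_pos ⟨k, by ring⟩]; ring
  have φD : ∀ j, E j → ¬(N:ℤ) ∣ j - Q → Del N E P Q (φ j) := fun j a b => by
    by_cases d : (N:ℤ) ∣ j - P
    · obtain ⟨k, hk⟩ := d
      rw [show j = P + N * k by linarith, φ2, per_mul (B.pD P Q)]; exact F.dY B
    · rw [φ1 j d]; exact ⟨a, d, b⟩
  have φs : ∀ j, s (φ j) = s j := fun j => by
    by_cases d : (N:ℤ) ∣ j - P
    · obtain ⟨k, hk⟩ := d
      rw [show j = P + N * k by linarith, φ2, per_mul B.ps, per_mul B.ps, sY, sP]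
    · rw [φ1 j d]
  have φl : ∀ j, j ≤ φ j := fun j => by
    simp only [hφ]; split_ifs <;> linarith [F.lt.2.1, F.lt.2.2]
  have φm : ∀ i j, i < j → E j → ¬(N:ℤ) ∣ j - Q → φ i ≤ φ j := fun i j l a b => by
    by_cases d : (N:ℤ) ∣ i - P
    · obtain ⟨k, hk⟩ := d
      rw [show i = P + N * k by linarith, φ2]
      exact F.gap B k (φD j a b) (by linarith [φl j, F.lt.1])
    · rw [φ1 i d]; linarith [φl j]
  have m1 : ∀ j, ¬(N:ℤ) ∣ j - Q → m j = blk (φ j) := fun j h => if_neg h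
  have m2 : ∀ j, (N:ℤ) ∣ j - Q → m j = M := fun j h => if_pos h
  have m3 : ∀ j, Del N E P Q j → m j = blk j := fun j h => by rw [m1 j h.2.2, φ1 j h.2.1]
  have m4 : ∀ i j, m i = m j → (N:ℤ) ∣ i - Q → (N:ℤ) ∣ j - Q := fun i j e d => by
    by_contra n
    rw [m2 i d, m1 j n] at e
    exact (hM _).ne' e
  have pm : ∀ j, m (j + N) = m j := fun j => by simp only [hm, dvd_sh', φp, S.pb]
  have mP : m P = blk Y := by simpa using (m1 P PQ).trans (congrArg blk (by simpa using φ2 0))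
  have rD : ∀ r, rf r → ¬(N:ℤ) ∣ r - Q → Del N E P Q r := fun r a b =>
    ⟨rE r a, fun d => rP (per_dvd prf d ▸ a), b⟩
  have win : ∀ i j : ℤ, i < j → j < i + N → (N:ℤ) ∣ i - Q → ¬(N:ℤ) ∣ j - Q := fun i j a b d d' => by
    have := Int.le_of_dvd (by linarith : 0 < j - Q - (i - Q)) (d'.sub d)
    linarith
  refine ⟨m, B, prf, pm, rE, fun j h => ?_, fun i j hi hj e => ?_, fun j hj n => ?_,
    fun a b c d l1 l2 l3 l4 ea eb ec ed e1 e2 => ?_, fun a b h n => ?_, fun j r hj hr e => ?_⟩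
  · by_cases d : (N:ℤ) ∣ j - Q
    · rw [m2 j d]; exact (Nat.zero_lt_of_lt (hM 0)).ne'
    · rw [m3 j (rD j h d)]; exact S.rb j ⟨h, rD j h d⟩
  · by_cases d : (N:ℤ) ∣ i - Q
    · simpa using d.sub (m4 i j e d)
    · have d' : ¬(N:ℤ) ∣ j - Q := fun x => d (m4 j i e.symm x)
      rw [m3 i (rD i hi d), m3 j (rD j hj d')] at e
      exact S.ru i j ⟨hi, rD i hi d⟩ ⟨hj, rD j hj d'⟩ e
  · by_cases d : (N:ℤ) ∣ j - Q
    · exact ⟨j, per_dvd prf d ▸ rQ, rfl, rfl⟩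
    · rw [m1 j d] at n ⊢
      obtain ⟨r, r1, r2, r3⟩ := S.hr _ (φD j hj d) n
      exact ⟨r, r1.1, (m3 r r1.2).trans r2, r3.trans (φs j)⟩
  · have na : ¬(N:ℤ) ∣ a - Q := fun x => win a c (by linarith) (by linarith) x (m4 a c e1 x)
    have nb : ¬(N:ℤ) ∣ b - Q := fun x => win b d (by linarith) (by linarith) x (m4 b d e2 x)
    have nc : ¬(N:ℤ) ∣ c - Q := fun x => na (m4 c a e1.symm x)
    have nd : ¬(N:ℤ) ∣ d - Q := fun x => nb (m4 d b e2.symm x)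
    rw [m1 _ na, m1 _ nc] at e1
    rw [m1 _ nb, m1 _ nd] at e2
    rw [m1 _ na, m1 _ nb]
    rcases (φm a b l1 eb nb).eq_or_lt with x1 | x1
    · rw [x1]
    rcases (φm b c l2 ec nc).eq_or_lt with x2 | x2
    · rw [e1, x2]
    rcases (φm c d l3 ed nd).eq_or_lt with x3 | x3
    · rw [e1, e2, x3]
    rcases (φm d (a + N) l4 (by rwa [B.pE]) (by rwa [dvd_sh'])).eq_or_lt with x4 | x4
    · rw [e2, x4, φp, S.pb]
    exact S.nc _ _ _ _ x1 x2 x3 (by rwa [φp] at x4) (φD a ea na) (φD b eb nb) (φD c ec nc)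
      (φD d ed nd) e1 e2
  · rcases F.cls B h with d | ⟨k, rfl, rfl⟩ | ⟨k, rfl, rfl⟩ | ⟨k, rfl, rfl⟩
    · rw [m3 a d.1, m3 b d.2] at n ⊢
      obtain ⟨b', a', c1, c2, c3⟩ := S.pi a b (h.del d.1 d.2) n
      rcases F.cases B c1 with h' | ⟨k, rfl, rfl⟩
      · exact ⟨b', a', h', (m3 _ c1.2.1).trans c2, (m3 _ c1.2.2.1).trans c3⟩
      · rw [per_mul S.pb] at c2 c3
        exact ⟨X, P, F.h1, (m3 _ (F.dX B)).trans c2, mP.trans c3⟩
    · rw [per_mul pm, per_mul pm, mP, m3 X (F.dX B)] at n ⊢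
      obtain ⟨b', a', c1, c2, c3, c4⟩ := S.pi' (F.cXY B) n
      rcases F.cases B c1 with h' | ⟨k, rfl, rfl⟩
      · exact ⟨b', a', h', (m3 _ c1.2.1).trans c2, (m3 _ c1.2.2.1).trans c3⟩
      · rw [per_mul B.ps] at c4; exact absurd (c4.trans sY) (B.ne X)
    · rw [per_mul pm, per_mul pm]
      exact ⟨Q, Y, F.h3, rfl, (m3 _ (F.dY B)).trans mP.symm⟩
    · rw [per_mul pm, per_mul pm]
      exact ⟨P, Q, F.h2, mP.trans (m3 _ (F.dY B)).symm, rfl⟩
  · by_cases d : (N:ℤ) ∣ r - Q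
    · rw [per_dvd pc (show (N:ℤ) ∣ j - r by simpa using (m4 r j e.symm d).sub d)]
    · have d' : ¬(N:ℤ) ∣ j - Q := fun x => d (m4 j r e x)
      rw [m1 j d', m3 r (rD r hr d)] at e
      refine le_trans ?_ (S.iq _ r (φD j hj d') ⟨hr, rD r hr d⟩ e)
      by_cases d2 : (N:ℤ) ∣ j - P
      · obtain ⟨k, hk⟩ := d2
        obtain rfl : j = P + N * k := by linarith
        rw [φ2] at e ⊢
        rw [per_mul S.pb] at e
        rw [per_mul pc, per_mul pc, ← S.mono (F.dY B) (rD r hr d) e (S.rb r ⟨hr, rD r hr d⟩)]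
        exact hc
      · rw [φ1 j d2]

end Pool.Agent.Lib.MP_9dc04a_an
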