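import Pool.Agent.Lib.MP_9dc04a_an.Num
import Pool.Agent.Lib.MP_9dc04a_an.Coef

set_option autoImplicit false

namespace Pool.Agent.Lib.MP_9dc04a_an

open Complex Metric Finset
open scoped Real ComplexConjugate

lemma degree {D : ℂ → ℂ} (hc : ContinuousOn D (ball 0 1)) (h0 : ∀ h ∈ ball (0:ℂ) 1, D h ≠ 0)
    {r : ℝ} (hr0 : 0 < r) (hr : r < 1) (hs : ∀ h : ℂ, ‖h‖ = r → D h / h ∈ slitPlane) : False := by
  have hsc : IsSimplyConnected (ball (0:ℂ) 1) := by
    have := (convex_ball (0:ℂ) 1).contractibleSpace (nonempty_ball.2 one_pos)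
    exact SimplyConnectedSpace.ofContractible _
  obtain ⟨L, hL, hLe⟩ := Complex.exists_continuousOn_eqOn_exp_comp hsc isOpen_ball hc
    (by rintro ⟨h, hh, e⟩; exact h0 h hh e)
  have hm := cm_mem hr0 hr
  have hn : ∀ θ : ℝ, ‖circleMap 0 r θ‖ = r := fun θ => by simp [abs_of_pos hr0]
  have hz : ∀ θ : ℝ, circleMap 0 r θ ≠ 0 := fun θ => circleMap_ne_center hr0.ne'
  set φ : ℝ → ℂ := fun θ => L (circleMap 0 r θ) - θ * I - Real.log r -
    log (D (circleMap 0 r θ) / circleMap 0 r θ) with hφ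
  have hcm := continuous_circleMap 0 r
  have c1 : Continuous fun θ => L (circleMap 0 r θ) := hL.comp_continuous hcm hm
  have c2 : Continuous fun θ => D (circleMap 0 r θ) := hc.comp_continuous hcm hm
  have c3 : Continuous fun θ => log (D (circleMap 0 r θ) / circleMap 0 r θ) :=
    (c2.div hcm hz).clog fun θ => hs _ (hn θ)
  have cφ : Continuous φ := ((c1.sub (by fun_prop)).sub continuous_const).sub c3
  have e1 : ∀ θ, exp (φ θ) = 1 := by
    intro θ
    have a := hLe (hm θ)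
    simp only [Function.comp] at a
    have hD := h0 _ (hm θ)
    have hz' := hz θ
    simp only [hφ, exp_sub, a, exp_log (div_ne_zero hD hz')]
    rw [← ofReal_exp, Real.exp_log hr0]
    have : circleMap 0 r θ = r * exp (θ * I) := by simp [circleMap]
    have hr' : (r:ℂ) ≠ 0 := by exact_mod_cast hr0.ne'
    have he := exp_ne_zero (θ * I)
    field_simp
    rw [this]; ring
  have e2 : φ (2 * π) = φ 0 - 2 * π * I := by
    have : circleMap 0 r (2 * π) = circleMap 0 r 0 := by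
      simpa using periodic_circleMap 0 r 0
    simp only [hφ, this]; push_cast; ring
  have ci : Continuous fun θ => (φ θ).im := continuous_im.comp cφ
  have hmem : (φ 0).im - π ∈ Set.Icc (φ (2 * π)).im (φ 0).im := by
    rw [e2]
    have := Real.pi_pos
    constructor <;> simp <;> linarith
  obtain ⟨θ, -, hθ⟩ := intermediate_value_Icc' (by positivity : (0:ℝ) ≤ 2 * π)
    ci.continuousOn hmem
  obtain ⟨n, hn1⟩ := exp_eq_one_iff.1 (e1 θ)
  obtain ⟨m, hm1⟩ := exp_eq_one_iff.1 (e1 0)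
  simp only [hn1, hm1] at hθ
  simp at hθ
  have h3 : ((2 * n : ℤ) : ℝ) = ((2 * m - 1 : ℤ) : ℝ) := by
    push_cast
    have := Real.pi_pos
    apply mul_right_cancel₀ this.ne'
    linarith
  have := Int.cast_injective h3
  omega

lemma tail {F : ℂ → ℂ} {R T ρ : ℝ} (hF : DifferentiableOn ℂ F (ball 0 R)) (m : ℕ) (hT : 0 < T)
    (hc : ∀ n, m ≤ n → ‖co n F‖ ≤ (1 / T) ^ n) {z : ℂ} (hz : ‖z‖ ≤ ρ) (hR : ρ < R) (hρ : ρ < T) :
    ‖F z - ∑ n ∈ range m, co n F * z ^ n‖ ≤ (‖z‖ / T) ^ m / (1 - ρ / T) := by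
  have h1 := hasSum_co hF (z := z) (by simpa using hz.trans_lt hR)
  have h2 := (hasSum_nat_add_iff' m).2 h1
  have q0 : 0 ≤ ρ / T := div_nonneg ((norm_nonneg _).trans hz) hT.le
  have q1 : ρ / T < 1 := (div_lt_one hT).2 hρ
  have h3 := (hasSum_geometric_of_lt_one q0 q1).mul_left ((‖z‖ / T) ^ m)
  rw [div_eq_mul_inv]
  refine h2.norm_le_of_bounded h3 fun n => ?_
  rw [norm_mul, norm_pow]
  calc ‖co (n + m) F‖ * ‖z‖ ^ (n + m) ≤ (1 / T) ^ (n + m) * ‖z‖ ^ (n + m) := by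
        gcongr; exact hc _ (by omega)
    _ = (‖z‖ / T) ^ m * (‖z‖ / T) ^ n := by rw [← mul_pow, ← pow_add, add_comm m n]; congr 1; ring
    _ ≤ _ := by gcongr

def db : ℕ → ℚ
  | 0 => 0
  | 1 => 3 / 169
  | 2 => 29 / 4394
  | 3 => 3 / 1120
  | 4 => 5 / 16038
  | 5 => 11 / 345000
  | n + 6 => 11 / 2 / 11 ^ (n + 6)

lemma db_nonneg (n : ℕ) : 0 ≤ db n := by
  unfold db; split <;> positivity

lemma db_sum (k : ℕ) : ∑ i ∈ range (k + 6), db i * 6 ^ i ≤ 2 - 121 / 10 * (6 / 11) ^ (k + 6) := by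
  induction k with
  | zero => simp only [sum_range_succ, db]; norm_num
  | succ k ih =>
    rw [show k + 1 + 6 = k + 6 + 1 from rfl, sum_range_succ]
    have : db (k + 6) * 6 ^ (k + 6) = 11 / 2 * (6 / 11) ^ (k + 6) := by
      simp only [db, div_pow]; ring
    rw [this, pow_succ _ (k + 6)]
    linarith

lemma ab_rec : ∀ k < 16, ∑ i ∈ range (k + 1), db i * ab (k - i) ≤ (k + 1) * ab (k + 1) := by
  decide +kernel

lemma ab_six : ∀ k < 17, ab k ≤ (1 / 6) ^ k := by decide +kernel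

lemma coef_bound {A d : ℕ → ℂ} (h0 : A 0 = 1) (hd : ∀ n, ‖d n‖ ≤ db n)
    (hr : ∀ k : ℕ, ((k:ℂ) + 1) * A (k + 1) = ∑ i ∈ range (k + 1), d i * A (k - i)) (k : ℕ) :
    (k < 17 → ‖A k‖ ≤ ab k) ∧ ‖A k‖ ≤ (1 / 6) ^ k := by
  induction k using Nat.strong_induction_on with
  | _ k ih =>
  have six : (k < 17 → ‖A k‖ ≤ ab k) → k < 17 → ‖A k‖ ≤ (1 / 6) ^ k := fun a b =>
    (a b).trans (by
      have : ((ab k : ℚ) : ℝ) ≤ (((1 / 6) ^ k : ℚ) : ℝ) := Rat.cast_le.2 (ab_six k b)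
      simpa using this)
  rcases k with _ | k
  · simp [h0, ab]
  have hk : (0:ℝ) < k + 1 := by positivity
  have hn : (k + 1) * ‖A (k + 1)‖ ≤ ∑ i ∈ range (k + 1), (db i : ℝ) * ‖A (k - i)‖ := by
    have : ‖((k:ℂ) + 1) * A (k + 1)‖ = (k + 1) * ‖A (k + 1)‖ := by
      rw [norm_mul]; congr 1; exact_mod_cast Complex.norm_natCast (k + 1)
    rw [← this, hr]
    refine (norm_sum_le _ _).trans (sum_le_sum fun i _ => ?_)
    rw [norm_mul]; gcongr; exact hd i
  have a : k + 1 < 17 → ‖A (k + 1)‖ ≤ ab (k + 1) := by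
    intro hk'
    have h1 : ((∑ i ∈ range (k + 1), db i * ab (k - i) : ℚ) : ℝ) ≤
        (((k + 1) * ab (k + 1) : ℚ) : ℝ) := Rat.cast_le.2 (ab_rec k (by omega))
    push_cast at h1
    refine le_of_mul_le_mul_left (hn.trans (le_trans (sum_le_sum fun i _ => ?_) h1)) hk
    have : (0:ℝ) ≤ db i := by exact_mod_cast db_nonneg i
    gcongr
    exact (ih _ (by omega)).1 (by omega)
  refine ⟨a, ?_⟩
  by_cases hk' : k + 1 < 17
  · exact six a hk'
  obtain ⟨j, rfl⟩ : ∃ j, k = j + 5 := ⟨k - 5, by omega⟩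
  have h1 : ((∑ i ∈ range (j + 6), db i * 6 ^ i : ℚ) : ℝ) ≤ ((2 : ℚ) : ℝ) :=
    Rat.cast_le.2 ((db_sum j).trans (by have : (0:ℚ) ≤ (6 / 11) ^ (j + 6) := by positivity
                                        linarith))
  push_cast at h1 hk hn
  have h2 : ∑ i ∈ range (j + 5 + 1), (db i : ℝ) * ‖A (j + 5 - i)‖ ≤
      (1 / 6) ^ (j + 5) * ∑ i ∈ range (j + 6), (db i : ℝ) * 6 ^ i := by
    rw [mul_sum]
    refine sum_le_sum fun i hi => ?_
    have hi' : i ≤ j + 5 := by simpa [Nat.lt_succ_iff] using hi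
    have : (0:ℝ) ≤ db i := by exact_mod_cast db_nonneg i
    have e : ((1:ℝ) / 6) ^ (j + 5) * (db i * 6 ^ i) = db i * (1 / 6) ^ (j + 5 - i) := by
      obtain ⟨u, hu⟩ := Nat.exists_eq_add_of_le hi'
      rw [hu, Nat.add_sub_cancel_left, pow_add]
      have : ((1:ℝ) / 6) ^ i * 6 ^ i = 1 := by rw [← mul_pow]; norm_num
      linear_combination (db i * (1 / 6) ^ u) * this
    rw [e]; gcongr
    exact (ih _ (by omega)).2
  have hj : (11:ℝ) ≤ j := by exact_mod_cast (by omega : 11 ≤ j)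
  have hp : (0:ℝ) < (1 / 6) ^ (j + 5) := by positivity
  refine le_of_mul_le_mul_left ((hn.trans h2).trans ?_) hk
  rw [pow_succ _ (j + 5)]
  nlinarith

noncomputable def JJ (h : ℂ) (Θ : ℂ → ℂ) : ℂ :=
  ∫ t in (0:ℝ)..1, (π * I + h) * (exp (t * (π * I + h)) * Θ (t * (π * I + h)) +
    exp (-(t * (π * I + h))) * Θ (-(t * (π * I + h))))

lemma seg_norm {Z : ℂ} {t : ℝ} (ht : t ∈ Set.uIcc (0:ℝ) 1) : ‖(t:ℂ) * Z‖ = t * ‖Z‖ ∧
    t * ‖Z‖ ≤ ‖Z‖ := by
  rw [Set.uIcc_of_le zero_le_one] at ht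
  rw [norm_mul, Complex.norm_real, Real.norm_of_nonneg ht.1]
  exact ⟨rfl, mul_le_of_le_one_left (norm_nonneg _) ht.2⟩

lemma JJ_int {h : ℂ} (hZ : ‖π * I + h‖ < 13) {Θ : ℂ → ℂ} (hΘ : ContinuousOn Θ (ball 0 13)) :
    IntervalIntegrable (fun t : ℝ => (π * I + h) * (exp (t * (π * I + h)) * Θ (t * (π * I + h)) +
      exp (-(t * (π * I + h))) * Θ (-(t * (π * I + h))))) MeasureTheory.volume 0 1 := by
  apply ContinuousOn.intervalIntegrable
  have c1 : ContinuousOn (fun t : ℝ => Θ (t * (π * I + h))) (Set.uIcc 0 1) :=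
    hΘ.comp (by fun_prop) fun t ht => by
      have := seg_norm (Z := π * I + h) ht
      rw [mem_ball_zero_iff]; linarith [this.1, this.2]
  have c2 : ContinuousOn (fun t : ℝ => Θ (-(t * (π * I + h)))) (Set.uIcc 0 1) :=
    hΘ.comp (by fun_prop) fun t ht => by
      have := seg_norm (Z := π * I + h) ht
      rw [mem_ball_zero_iff, norm_neg]; linarith [this.1, this.2]
  exact continuousOn_const.mul ((ContinuousOn.mul (by fun_prop) c1).add
    (ContinuousOn.mul (by fun_prop) c2))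

lemma JJ_add {h : ℂ} (hZ : ‖π * I + h‖ < 13) {A B : ℂ → ℂ} (hA : ContinuousOn A (ball 0 13))
    (hB : ContinuousOn B (ball 0 13)) : JJ h (fun z => A z + B z) = JJ h A + JJ h B := by
  unfold JJ
  rw [← intervalIntegral.integral_add (JJ_int hZ hA) (JJ_int hZ hB)]
  congr 1; funext t; ring

lemma JJ_mul (h c : ℂ) (A : ℂ → ℂ) : JJ h (fun z => c * A z) = c * JJ h A := by
  unfold JJ
  rw [← intervalIntegral.integral_const_mul]
  congr 1; funext t; ring

lemma JJ_sum {h : ℂ} (hZ : ‖π * I + h‖ < 13) {A : ℕ → ℂ → ℂ}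
    (hA : ∀ n, ContinuousOn (A n) (ball 0 13)) (m : ℕ) :
    JJ h (fun z => ∑ n ∈ range m, A n z) = ∑ n ∈ range m, JJ h (A n) := by
  induction m with
  | zero => simp [JJ]
  | succ m ih =>
    simp_rw [sum_range_succ]
    rw [JJ_add hZ (continuousOn_finsetSum _ fun n _ => hA n) (hA m), ih]

lemma JJ_ftc {h : ℂ} (hZ : ‖π * I + h‖ < 13) {W Θ : ℂ → ℂ} (hΘ : ContinuousOn Θ (ball 0 13))
    (hW : ∀ z ∈ ball (0:ℂ) 13, HasDerivAt W (exp z * Θ z) z) :
    JJ h Θ = W (π * I + h) - W (-(π * I + h)) := by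
  have := intervalIntegral.integral_eq_sub_of_hasDerivAt
    (f := fun t : ℝ => W (t * (π * I + h)) - W (-(t * (π * I + h)))) ?_ (JJ_int hZ hΘ)
  · simpa [JJ] using this
  intro t ht
  have hs := seg_norm (Z := π * I + h) ht
  have a1 : HasDerivAt (fun u : ℂ => u * (π * I + h)) (π * I + h) (t:ℂ) := by
    simpa using (hasDerivAt_id (t:ℂ)).mul_const (π * I + h)
  have b1 := ((hW _ (by rw [mem_ball_zero_iff]; linarith [hs.1, hs.2])).comp (t:ℂ) a1)
  have b2 := ((hW (-(t * (π * I + h)))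
    (by rw [mem_ball_zero_iff, norm_neg]; linarith [hs.1, hs.2])).comp (t:ℂ) a1.neg)
  have := (b1.sub b2).comp_ofReal
  exact this.congr_deriv (by ring)

lemma JJ_pow {h : ℂ} (hZ : ‖π * I + h‖ < 13) (k : ℕ) : JJ h (fun z => z ^ k) = mm h k := by
  have e1 : exp (π * I + h) = -exp h := by rw [exp_add, exp_pi_mul_I]; ring
  have e2 : exp (-(π * I + h)) = -exp (-h) := by
    rw [neg_add, exp_add, exp_neg, exp_pi_mul_I]; ring
  induction k with
  | zero =>
    rw [JJ_ftc hZ (W := exp) (by fun_prop) fun z _ => by simpa using hasDerivAt_exp z, e1, e2, mm]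
    ring
  | succ k ih =>
    have a := JJ_ftc hZ (W := fun z => z ^ (k + 1) * exp z)
      (Θ := fun z => z ^ (k + 1) + ((k + 1 : ℕ) : ℂ) * z ^ k) (by fun_prop) fun z _ => by
        refine ((hasDerivAt_pow (k + 1) z).mul (hasDerivAt_exp z)).congr_deriv ?_
        simp only [Nat.add_sub_cancel]; ring
    rw [JJ_add hZ (by fun_prop) (by fun_prop), JJ_mul, ih, e1, e2] at a
    rw [mm, eq_sub_of_add_eq a]
    split_ifs with hk
    · rw [Even.neg_pow (Nat.even_iff.2 hk)]; ring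
    · rw [Odd.neg_pow (Nat.odd_iff.2 (by omega))]; ring

lemma JJ_le {h : ℂ} {Θ : ℂ → ℂ} {b : ℕ → ℝ} {p : ℕ → ℕ} {m : ℕ}
    (hb : ∀ z : ℂ, ‖z‖ ≤ ‖π * I + h‖ → ‖Θ z‖ ≤ ∑ k ∈ range m, b k * ‖z‖ ^ p k) :
    ‖JJ h Θ‖ ≤ ∑ k ∈ range m, b k * ((‖exp h‖ + ‖exp (-h)‖) * ‖π * I + h‖ ^ (p k + 1) /
      (p k + 1)) := by
  set Z := π * I + h with hZ
  set ch := ‖exp h‖ + ‖exp (-h)‖ with hch
  have e : ∑ k ∈ range m, b k * (ch * ‖Z‖ ^ (p k + 1) / (p k + 1)) =
      ∫ t in (0:ℝ)..1, ∑ k ∈ range m, (b k * ch * ‖Z‖ ^ (p k + 1)) * t ^ p k := by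
    rw [intervalIntegral.integral_finsetSum
      fun k _ => Continuous.intervalIntegrable (by fun_prop) _ _]
    refine sum_congr rfl fun k _ => ?_
    rw [intervalIntegral.integral_const_mul, integral_pow]
    simp; ring
  rw [e]
  refine intervalIntegral.norm_integral_le_of_norm_le zero_le_one ?_
    (Continuous.intervalIntegrable (by fun_prop) _ _)
  refine Filter.Eventually.of_forall fun t ht => ?_
  have hs := seg_norm (Z := Z) (t := t) (by rw [Set.uIcc_of_le zero_le_one]; exact ⟨ht.1.le, ht.2⟩)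
  have b1 := hb (t * Z) (by linarith [hs.1, hs.2])
  have b2 := hb (-(t * Z)) (by rw [norm_neg]; linarith [hs.1, hs.2])
  rw [norm_neg] at b2
  rw [hs.1] at b1 b2
  have c : ‖exp (t * Z)‖ + ‖exp (-(t * Z))‖ ≤ ch := by
    have : Real.cosh (t * h.re) ≤ Real.cosh h.re := by
      rw [Real.cosh_le_cosh, abs_mul, abs_of_pos ht.1]
      exact mul_le_of_le_one_left (abs_nonneg _) ht.2
    rw [Real.cosh_eq, Real.cosh_eq] at this
    simp only [hch, hZ, norm_exp]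
    simp
    linarith
  set S := ∑ k ∈ range m, b k * (t * ‖Z‖) ^ p k with hS
  have e2 : ∑ k ∈ range m, (b k * ch * ‖Z‖ ^ (p k + 1)) * t ^ p k = ‖Z‖ * (ch * S) := by
    simp only [hS, mul_sum]
    exact sum_congr rfl fun k _ => by ring
  rw [e2, norm_mul]
  have hS0 : 0 ≤ S := (norm_nonneg _).trans b1
  gcongr
  refine (norm_add_le _ _).trans ?_
  rw [norm_mul, norm_mul]
  calc _ ≤ ‖exp (t * Z)‖ * S + ‖exp (-(t * Z))‖ * S := by gcongr
    _ ≤ _ := by rw [← add_mul]; gcongr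

end Pool.Agent.Lib.MP_9dc04a_an
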