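import Mathlib

namespace Pool.Agent.Lib.MP_9dc04a_an.Diff

open Real Set

noncomputable def dl : ℝ := arctan (1 / 8)

theorem dl_pos : 0 < dl := arctan_pos.mpr (by norm_num)

theorem dl_lt : dl < π / 4 := by
  rw [← arctan_one]; exact arctan_strictMono (by norm_num)

theorem cos_dl_pos : 0 < cos dl := cos_arctan_pos _

theorem sin_dl : sin dl = cos dl / 8 := by
  have h : tan dl = 1 / 8 := tan_arctan _
  rw [tan_eq_sin_div_cos, div_eq_iff cos_dl_pos.ne'] at h
  linarith

noncomputable def A (s : ℝ) : ℝ := cos (5 / 2 * s - dl)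
noncomputable def B (s : ℝ) : ℝ := sin (9 / 4 * s - π / 4 - dl)
noncomputable def T (s : ℝ) : ℝ := A s * exp (-(10 / 9) * log (B s))

theorem T_deriv (s : ℝ) (hB : B s ≠ 0) :
    HasDerivAt T (-(5 / 2) * cos (s / 4 + π / 4) * exp (-(10 / 9) * log (B s)) / B s) s := by
  have hA : HasDerivAt A (-sin (5 / 2 * s - dl) * (5 / 2)) s := by
    have := ((hasDerivAt_id s).const_mul (5 / 2 : ℝ)).sub_const dl
    have h := this.cos
    simp only [id, mul_one] at h
    exact h
  have hB' : HasDerivAt B (cos (9 / 4 * s - π / 4 - dl) * (9 / 4)) s := by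
    have := (((hasDerivAt_id s).const_mul (9 / 4 : ℝ)).sub_const (π / 4)).sub_const dl
    have h := this.sin
    simp only [id, mul_one] at h
    exact h
  have h1 := ((hB'.log hB).const_mul (-(10 / 9) : ℝ)).exp
  have h2 := hA.mul h1
  refine h2.congr_deriv ?_
  have e : cos (s / 4 + π / 4) =
      cos (5 / 2 * s - dl) * cos (9 / 4 * s - π / 4 - dl) +
        sin (5 / 2 * s - dl) * sin (9 / 4 * s - π / 4 - dl) := by
    rw [← cos_sub]; congr 1; ring
  rw [e]
  field_simp
  unfold A B
  ring_nf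

noncomputable def s1 : ℝ := 4 / 9 * (π / 4 + dl)
noncomputable def s3 : ℝ := 4 / 9 * (5 * π / 4 + dl)

theorem B_neg1 {s : ℝ} (h : s ∈ Ico 0 s1) : B s < 0 := by
  obtain ⟨h0, h1⟩ := h
  have := dl_pos; have := dl_lt; have := pi_pos
  unfold s1 at h1
  apply sin_neg_of_neg_of_neg_pi_lt <;> linarith

theorem B_pos2 {s : ℝ} (h : s ∈ Ioo s1 s3) : 0 < B s := by
  obtain ⟨h0, h1⟩ := h
  unfold s1 at h0; unfold s3 at h1
  apply sin_pos_of_pos_of_lt_pi <;> linarith

theorem B_neg3 {s : ℝ} (h : s ∈ Ioc s3 π) : B s < 0 := by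
  obtain ⟨h0, h1⟩ := h
  have := dl_pos; have := dl_lt; have := pi_pos
  unfold s3 at h0
  unfold B
  rw [← sin_sub_two_pi]
  apply sin_neg_of_neg_of_neg_pi_lt <;> linarith

theorem B_s1 : B s1 = 0 := by
  unfold B s1
  rw [show 9 / 4 * (4 / 9 * (π / 4 + dl)) - π / 4 - dl = 0 by ring, sin_zero]

theorem B_s3 : B s3 = 0 := by
  unfold B s3
  rw [show 9 / 4 * (4 / 9 * (5 * π / 4 + dl)) - π / 4 - dl = π by ring, sin_pi]

theorem A_s1 : 0 < A s1 := by
  have := dl_pos; have := dl_lt; have := pi_pos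
  unfold A s1
  apply cos_pos_of_mem_Ioo
  constructor <;> linarith

theorem A_s3 : A s3 < 0 := by
  have := dl_pos; have := dl_lt; have := pi_pos
  unfold A s3
  apply cos_neg_of_pi_div_two_lt_of_lt <;> linarith

theorem cos_pos_aux {s : ℝ} (h0 : 0 < s) (h1 : s < π) : 0 < cos (s / 4 + π / 4) := by
  have := pi_pos
  apply cos_pos_of_mem_Ioo
  constructor <;> linarith

theorem s1_pos : 0 < s1 := by
  have := dl_pos; have := pi_pos; unfold s1; linarith
theorem s1_lt : s1 < s3 := by
  have := pi_pos; unfold s1 s3; linarith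
theorem s3_lt : s3 < π := by
  have := dl_lt; have := pi_pos; unfold s3; linarith

theorem mono1 : StrictMonoOn T (Ico 0 s1) := by
  apply strictMonoOn_of_deriv_pos (convex_Ico _ _)
  · exact fun s hs => (T_deriv s (B_neg1 hs).ne).continuousAt.continuousWithinAt
  · intro s hs
    rw [interior_Ico] at hs
    have hb := B_neg1 (Ioo_subset_Ico_self hs)
    rw [(T_deriv s hb.ne).deriv]
    have hc := cos_pos_aux hs.1 (by linarith [hs.2, s1_lt, s3_lt])
    apply div_pos_of_neg_of_neg _ hb
    have := mul_pos hc (exp_pos (-(10 / 9) * log (B s)))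
    linarith

theorem mono3 : StrictMonoOn T (Ioc s3 π) := by
  apply strictMonoOn_of_deriv_pos (convex_Ioc _ _)
  · exact fun s hs => (T_deriv s (B_neg3 hs).ne).continuousAt.continuousWithinAt
  · intro s hs
    rw [interior_Ioc] at hs
    have hb := B_neg3 (Ioo_subset_Ioc_self hs)
    rw [(T_deriv s hb.ne).deriv]
    have hc := cos_pos_aux (by linarith [hs.1, s1_lt, s1_pos]) hs.2
    apply div_pos_of_neg_of_neg _ hb
    have := mul_pos hc (exp_pos (-(10 / 9) * log (B s)))
    linarith

theorem anti2 : StrictAntiOn T (Ioo s1 s3) := by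
  apply strictAntiOn_of_deriv_neg (convex_Ioo _ _)
  · exact fun s hs => (T_deriv s (B_pos2 hs).ne').continuousAt.continuousWithinAt
  · intro s hs
    rw [interior_Ioo] at hs
    have hb := B_pos2 hs
    rw [(T_deriv s hb.ne').deriv]
    have hc := cos_pos_aux (s := s) (by linarith [hs.1, s1_pos]) (by linarith [hs.2, s3_lt])
    apply div_neg_of_neg_of_pos _ hb
    have := mul_pos hc (exp_pos (-(10 / 9) * log (B s)))
    linarith

theorem ends : T π ≤ T 0 := by
  have hc := cos_dl_pos
  have hs : 0 < sin dl := by rw [sin_dl]; positivity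
  have hA1 : A π = sin dl := by
    unfold A
    rw [show 5 / 2 * π - dl = (π / 2 - dl) + 2 * π by ring, cos_add_two_pi, cos_pi_div_two_sub]
  have hB1 : B π = -sin dl := by
    unfold B
    rw [show 9 / 4 * π - π / 4 - dl = 2 * π - dl by ring, sin_two_pi_sub]
  have hA0 : A 0 = cos dl := by unfold A; simp
  have hB0 : B 0 = -(√2 / 2 * (9 / 8) * cos dl) := by
    unfold B
    rw [show 9 / 4 * 0 - π / 4 - dl = -(π / 4 + dl) by ring, sin_neg, sin_add, sin_pi_div_four,
      cos_pi_div_four, sin_dl]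
    ring
  have hS : 0 < √2 / 2 * (9 / 8) * cos dl := by positivity
  unfold T
  rw [hA1, hB1, hA0, hB0, log_neg_eq_log, log_neg_eq_log]
  set S := √2 / 2 * (9 / 8) * cos dl with hSdef
  have key : S ^ 10 ≤ cos dl ^ 9 * sin dl := by
    have h2 : (√2) ^ 10 = 32 := by
      rw [show (√2) ^ 10 = ((√2) ^ 2) ^ 5 by ring, sq_sqrt (by norm_num)]; norm_num
    have e : S ^ 10 = (√2) ^ 10 / 2 ^ 10 * (9 / 8) ^ 10 * cos dl ^ 10 := by rw [hSdef]; ring
    rw [e, h2, sin_dl]
    have : 0 < cos dl ^ 10 := by positivity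
    have e2 : cos dl ^ 9 * (cos dl / 8) = cos dl ^ 10 / 8 := by ring
    rw [e2]
    linarith
  have hl : 10 * log S ≤ 9 * log (cos dl) + log (sin dl) := by
    have := log_le_log (by positivity) key
    rw [log_mul (by positivity) hs.ne', log_pow, log_pow] at this
    exact_mod_cast this
  have e1 : sin dl * exp (-(10 / 9) * log (sin dl)) =
      exp (log (sin dl) + -(10 / 9) * log (sin dl)) := by rw [exp_add, exp_log hs]
  have e2 : cos dl * exp (-(10 / 9) * log S) = exp (log (cos dl) + -(10 / 9) * log S) := by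
    rw [exp_add, exp_log hc]
  rw [e1, e2]
  apply exp_le_exp.mpr
  linarith

theorem cases5 {s : ℝ} (h0 : 0 < s) (h1 : s < π) :
    s ∈ Ico 0 s1 ∨ s = s1 ∨ s ∈ Ioo s1 s3 ∨ s = s3 ∨ s ∈ Ioc s3 π := by
  rcases lt_trichotomy s s1 with h | h | h
  · exact Or.inl ⟨h0.le, h⟩
  · exact Or.inr (Or.inl h)
  · rcases lt_trichotomy s s3 with g | g | g
    · exact Or.inr (Or.inr (Or.inl ⟨h, g⟩))
    · exact Or.inr (Or.inr (Or.inr (Or.inl g)))
    · exact Or.inr (Or.inr (Or.inr (Or.inr ⟨g, h1.le⟩)))

theorem cross {s t : ℝ} (hs0 : 0 < s) (hs : s ∈ Ico 0 s1) (ht : t ∈ Ioc s3 π) (ht1 : t < π) :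
    T t < T s := by
  have h1 : T 0 < T s := mono1 ⟨le_rfl, s1_pos⟩ hs hs0
  have h2 : T t < T π := mono3 ht ⟨s3_lt, le_rfl⟩ ht1
  linarith [ends]

theorem inj {s t x y : ℝ} (hs0 : 0 < s) (hs1 : s < π) (ht0 : 0 < t) (ht1 : t < π)
    (hA : exp (5 / 2 * x) * A s = exp (5 / 2 * y) * A t)
    (hB : exp (9 / 4 * x) * B s = exp (9 / 4 * y) * B t) : s = t ∧ x = y := by
  have ex := exp_pos (9 / 4 * x)
  have ey := exp_pos (9 / 4 * y)
  have fx := exp_pos (5 / 2 * x)
  have fy := exp_pos (5 / 2 * y)
  have sgn_neg : B s < 0 ↔ B t < 0 := by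
    constructor
    · intro h
      have : exp (9 / 4 * y) * B t < 0 := by rw [← hB]; exact mul_neg_of_pos_of_neg ex h
      exact neg_of_mul_neg_right this ey.le
    · intro h
      have : exp (9 / 4 * x) * B s < 0 := by rw [hB]; exact mul_neg_of_pos_of_neg ey h
      exact neg_of_mul_neg_right this ex.le
  have sgn_pos : 0 < B s ↔ 0 < B t := by
    constructor
    · intro h
      have : 0 < exp (9 / 4 * y) * B t := by rw [← hB]; exact mul_pos ex h
      exact pos_of_mul_pos_right this ey.le
    · intro h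
      have : 0 < exp (9 / 4 * x) * B s := by rw [hB]; exact mul_pos ey h
      exact pos_of_mul_pos_right this ex.le
  have sA : 0 < A s ↔ 0 < A t := by
    constructor
    · intro h
      have : 0 < exp (5 / 2 * y) * A t := by rw [← hA]; exact mul_pos fx h
      exact pos_of_mul_pos_right this fy.le
    · intro h
      have : 0 < exp (5 / 2 * x) * A s := by rw [hA]; exact mul_pos fy h
      exact pos_of_mul_pos_right this fx.le
  have hT : B s ≠ 0 → B t ≠ 0 → T s = T t := by
    intro h1 h2
    have hl := congrArg log hB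
    rw [log_mul ex.ne' h1, log_mul ey.ne' h2, log_exp, log_exp] at hl
    have e1 : -(10 / 9) * log (B s) = 5 / 2 * x + (-(5 / 2 * y) + -(10 / 9) * log (B t)) := by
      linarith
    unfold T
    rw [e1, exp_add, exp_add, exp_neg, ← mul_assoc, mul_comm (A s), hA]
    field_simp
  have hst : s = t := by
    rcases cases5 hs0 hs1 with a | a | a | a | a <;> rcases cases5 ht0 ht1 with b | b | b | b | b
    all_goals first
      | exact mono1.injOn a b (hT (B_neg1 a).ne (B_neg1 b).ne)
      | exact anti2.injOn a b (hT (B_pos2 a).ne' (B_pos2 b).ne')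
      | exact mono3.injOn a b (hT (B_neg3 a).ne (B_neg3 b).ne)
      | exact a.trans b.symm
      | exact absurd (hT (B_neg1 a).ne (B_neg3 b).ne) (cross hs0 a b ht1).ne'
      | exact absurd (hT (B_neg3 a).ne (B_neg1 b).ne) (cross ht0 b a hs1).ne
      | (exfalso
         have q1 := B_s1
         have q3 := B_s3
         have r1 := A_s1
         have r3 := A_s3
         first
          | (have := sgn_neg.mp (B_neg1 a); first | (rw [b] at this; linarith) | linarith [B_pos2 b])
          | (have := sgn_neg.mp (B_neg3 a); first | (rw [b] at this; linarith) | linarith [B_pos2 b])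
          | (have := sgn_pos.mp (B_pos2 a); first | (rw [b] at this; linarith) | linarith [B_neg1 b] | linarith [B_neg3 b])
          | (have := sgn_neg.mpr (B_neg1 b); rw [a] at this; linarith)
          | (have := sgn_neg.mpr (B_neg3 b); rw [a] at this; linarith)
          | (have := sgn_pos.mpr (B_pos2 b); rw [a] at this; linarith)
          | (rw [a, b] at sA; have := sA.mp r1; linarith)
          | (rw [a, b] at sA; have := sA.mpr r1; linarith))
  refine ⟨hst, ?_⟩
  subst hst
  by_cases hb : B s = 0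
  · have ha : A s ≠ 0 := by
      rcases cases5 hs0 hs1 with a | a | a | a | a
      · exact absurd hb (B_neg1 a).ne
      · rw [a]; exact A_s1.ne'
      · exact absurd hb (B_pos2 a).ne'
      · rw [a]; exact A_s3.ne
      · exact absurd hb (B_neg3 a).ne
    have := exp_injective (mul_right_cancel₀ ha hA)
    linarith
  · have := exp_injective (mul_right_cancel₀ hb hB)
    linarith

end Pool.Agent.Lib.MP_9dc04a_an.Diff
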