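import Mathlib

namespace Pool.Agent.Lib.MP_9dc04a_an.Diff

/-- Pairs of consecutive Taylor coefficients of `((1+z)/(1-z))^a`. -/
def pr (a : ℚ) : ℕ → ℚ × ℚ
  | 0 => (1, 2 * a)
  | n + 1 => match pr a n with
    | (x, y) => (y, (2 * a * y + n * x) / (n + 2))

def cq (a : ℚ) (n : ℕ) : ℚ := (pr a n).1

theorem pr_snd (a : ℚ) (n : ℕ) : (pr a n).2 = cq a (n + 1) := by
  simp [cq, pr]

theorem cq_zero (a : ℚ) : cq a 0 = 1 := rfl
theorem cq_one (a : ℚ) : cq a 1 = 2 * a := rfl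
theorem cq_rec (a : ℚ) (n : ℕ) :
    cq a (n + 2) = (2 * a * cq a (n + 1) + n * cq a n) / (n + 2) := by
  rw [← pr_snd a (n + 1), ← pr_snd a n]
  simp [cq, pr]

def p (n : ℕ) : ℚ := cq (5 / 2) n / 5
def q (n : ℕ) : ℚ := cq (9 / 4) n * (2 / 9)

theorem p_rec (n : ℕ) : p (n + 2) = (5 * p (n + 1) + n * p n) / (n + 2) := by
  unfold p; rw [cq_rec]; field_simp
theorem q_rec (n : ℕ) : q (n + 2) = (9 / 2 * q (n + 1) + n * q n) / (n + 2) := by
  unfold q; rw [cq_rec]; field_simp; ring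

theorem small : ∀ n < 83, 2 ≤ n → 3 * n * (p n - q n) < p n * q n - (n : ℚ) ^ 2 := by
  decide +kernel

theorem base : (3 / 5 : ℚ) * 84 ^ 5 ≤ q 81 ^ 4 ∧ (3 / 5 : ℚ) * 85 ^ 5 ≤ q 82 ^ 4 := by
  decide +kernel

theorem p_one : p 1 = 1 := by decide +kernel
theorem q_one : q 1 = 1 := by decide +kernel
theorem p_two : p 2 = 5 / 2 := by decide +kernel
theorem q_two : q 2 = 9 / 4 := by decide +kernel

/-- positivity, monotonicity and the ratio bound for `q`. -/
theorem q_mono (n : ℕ) : 0 < q (n + 1) ∧ q (n + 1) ≤ q (n + 2) ∧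
    ((n : ℚ) + 2) * q (n + 2) ≤ (n + 9 / 2) * q (n + 1) := by
  induction n with
  | zero => simp [q_one, q_two]; norm_num
  | succ n ih =>
    obtain ⟨h0, h1, h2⟩ := ih
    have hn : (0 : ℚ) ≤ n := Nat.cast_nonneg n
    have hr := q_rec (n + 1)
    have hr' : ((n : ℚ) + 3) * q (n + 1 + 2) = 9 / 2 * q (n + 2) + (n + 1) * q (n + 1) := by
      rw [hr]; push_cast; field_simp; ring
    refine ⟨by linarith, ?_, ?_⟩
    · have h3 : (0 : ℚ) < (n + 3) * (n + 9 / 2) := by positivity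
      have h4 : ((n : ℚ) + 3) * (n + 9 / 2) * q (n + 2) ≤
          (n + 3) * (n + 9 / 2) * q (n + 1 + 2) := by
        have e : ((n : ℚ) + 3) * (n + 9 / 2) * q (n + 1 + 2) =
            (n + 9 / 2) * (9 / 2 * q (n + 2)) + (n + 1) * ((n + 9 / 2) * q (n + 1)) := by
          rw [mul_comm ((n : ℚ) + 3), mul_assoc, hr']; ring
        rw [e]
        have h5 : ((n : ℚ) + 1) * ((n + 2) * q (n + 2)) ≤ (n + 1) * ((n + 9 / 2) * q (n + 1)) :=
          mul_le_mul_of_nonneg_left h2 (by positivity)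
        have h6 : 0 < q (n + 2) := by linarith
        nlinarith
      exact le_of_mul_le_mul_left h4 h3
    · push_cast
      have : ((n : ℚ) + 1) * q (n + 1) ≤ (n + 1) * q (n + 2) :=
        mul_le_mul_of_nonneg_left h1 (by positivity)
      have e : ((n : ℚ) + 1 + 2) = n + 3 := by ring
      rw [e, hr']
      have e2 : q (n + 1 + 1) = q (n + 2) := rfl
      rw [e2]
      linarith

theorem q_le_p (n : ℕ) : q (n + 1) ≤ p (n + 1) ∧ q (n + 2) ≤ p (n + 2) := by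
  induction n with
  | zero => simp [q_one, q_two, p_one, p_two]; norm_num
  | succ n ih =>
    obtain ⟨h1, h2⟩ := ih
    refine ⟨h2, ?_⟩
    rw [q_rec, p_rec]
    have h0 := (q_mono (n + 1)).1
    have hn : (0 : ℚ) ≤ ((n + 1 : ℕ) : ℚ) := Nat.cast_nonneg _
    apply div_le_div_of_nonneg_right _ (by positivity)
    have : ((n + 1 : ℕ) : ℚ) * q (n + 1) ≤ ((n + 1 : ℕ) : ℚ) * p (n + 1) :=
      mul_le_mul_of_nonneg_left h1 hn
    have e2 : q (n + 1 + 1) = q (n + 2) := rfl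
    have e3 : p (n + 1 + 1) = p (n + 2) := rfl
    rw [e2] at h0
    rw [e2, e3]
    linarith

theorem poly_step (m : ℚ) (hm : 81 ≤ m) :
    16 * (m + 2) ^ 4 * (m + 5) ^ 5 ≤ (2 * m + 9) ^ 4 * (m + 3) ^ 5 := by
  obtain ⟨k, hk, rfl⟩ : ∃ k, 0 ≤ k ∧ m = k + 81 := ⟨m - 81, by linarith, by ring⟩
  ring_nf
  have := pow_nonneg hk 2
  have := pow_nonneg hk 3
  have := pow_nonneg hk 4
  have := pow_nonneg hk 5
  have := pow_nonneg hk 6
  have := pow_nonneg hk 7
  have := pow_nonneg hk 8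
  linarith

theorem large_aux (k : ℕ) : (3 / 5 : ℚ) * ((k : ℚ) + 84) ^ 5 ≤ q (k + 81) ^ 4 ∧
    (3 / 5 : ℚ) * ((k : ℚ) + 85) ^ 5 ≤ q (k + 82) ^ 4 := by
  induction k with
  | zero => simpa using base
  | succ k ih =>
    obtain ⟨h1, h2⟩ := ih
    constructor
    · push_cast
      have e : ((k : ℚ) + 1 + 84) = k + 85 := by ring
      rw [e]; exact h2
    · push_cast
      have hk : (0 : ℚ) ≤ k := Nat.cast_nonneg k
      have hr := q_rec (k + 81)
      obtain ⟨h0, hm, -⟩ := q_mono (k + 80)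
      have e1 : q (k + 1 + 82) = q (k + 81 + 2) := rfl
      have e2 : q (k + 80 + 1) = q (k + 81) := rfl
      have e3 : q (k + 80 + 2) = q (k + 81 + 1) := rfl
      rw [e2] at h0
      rw [e2, e3] at hm
      rw [e1]
      set m : ℚ := (k : ℚ) + 81 with hmdef
      have hm0 : 81 ≤ m := by rw [hmdef]; linarith
      have hc : ((k + 81 : ℕ) : ℚ) = m := by push_cast; rfl
      rw [hc] at hr
      have hl : (2 * m + 9) / (2 * (m + 2)) * q (k + 81) ≤ q (k + 81 + 2) := by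
        rw [hr, div_mul_eq_mul_div, div_le_div_iff₀ (by positivity) (by positivity)]
        have : 0 ≤ (m + 2) * (q (k + 81 + 1) - q (k + 81)) := by
          apply mul_nonneg <;> linarith
        nlinarith
      have hp : ((2 * m + 9) / (2 * (m + 2)) * q (k + 81)) ^ 4 ≤ q (k + 81 + 2) ^ 4 :=
        pow_le_pow_left₀ (by positivity) hl 4
      refine le_trans ?_ hp
      have e4 : ((k : ℚ) + 1 + 85) = m + 5 := by rw [hmdef]; ring
      have e5 : ((k : ℚ) + 84) = m + 3 := by rw [hmdef]; ring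
      rw [e4]
      rw [e5] at h1
      rw [mul_pow, div_pow]
      have hs := poly_step m hm0
      have h7 : (2 * m + 9) ^ 4 / (2 * (m + 2)) ^ 4 * (3 / 5 * (m + 3) ^ 5) ≤
          (2 * m + 9) ^ 4 / (2 * (m + 2)) ^ 4 * q (k + 81) ^ 4 :=
        mul_le_mul_of_nonneg_left h1 (by positivity)
      refine le_trans ?_ h7
      rw [div_mul_eq_mul_div ((2 * m + 9) ^ 4), le_div_iff₀ (by positivity)]
      have e6 : (2 * (m + 2)) ^ 4 = 16 * (m + 2) ^ 4 := by ring
      rw [e6]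
      linarith

theorem large (n : ℕ) (hn : 81 ≤ n) : (3 / 5 : ℚ) * (n : ℚ) ^ 5 ≤ q n ^ 4 := by
  obtain ⟨k, rfl⟩ := Nat.exists_eq_add_of_le' hn
  refine le_trans ?_ (large_aux k).1
  push_cast
  have hk : (0 : ℚ) ≤ k := Nat.cast_nonneg k
  have : ((k : ℚ) + 81) ^ 5 ≤ ((k : ℚ) + 84) ^ 5 := pow_le_pow_left₀ (by positivity) (by linarith) 5
  linarith

end Pool.Agent.Lib.MP_9dc04a_an.Diff
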