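import Mathlib
import Pool.Agent.Lib.MP_9dc04a_an.DSeq

namespace Pool.Agent.Lib.MP_9dc04a_an.Diff

open Complex Metric Set

noncomputable def L (z : ℂ) : ℂ := log ((1 + z) / (1 - z))

theorem one_sub_ne {z : ℂ} (hz : z ∈ ball (0 : ℂ) 1) : 1 - z ≠ 0 := by
  intro h
  have : z = 1 := by linear_combination -h
  simp [this] at hz

theorem one_add_ne {z : ℂ} (hz : z ∈ ball (0 : ℂ) 1) : 1 + z ≠ 0 := by
  intro h
  have : z = -1 := by linear_combination h
  simp [this] at hz

theorem one_sub_sq_ne {z : ℂ} (hz : z ∈ ball (0 : ℂ) 1) : 1 - z ^ 2 ≠ 0 := by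
  have : 1 - z ^ 2 = (1 - z) * (1 + z) := by ring
  rw [this]; exact mul_ne_zero (one_sub_ne hz) (one_add_ne hz)

theorem re_pos {z : ℂ} (hz : z ∈ ball (0 : ℂ) 1) : 0 < ((1 + z) / (1 - z)).re := by
  have h1 : 0 < normSq (1 - z) := normSq_pos.mpr (one_sub_ne hz)
  have h2 : normSq z < 1 := by
    rw [normSq_eq_norm_sq]
    have : ‖z‖ < 1 := by simpa using hz
    nlinarith [norm_nonneg z]
  rw [div_re, ← add_div]
  apply div_pos _ h1
  rw [normSq_apply] at h2
  simp
  nlinarith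

theorem L_im {z : ℂ} (hz : z ∈ ball (0 : ℂ) 1) : |(L z).im| < Real.pi / 2 := by
  unfold L
  rw [log_im]
  exact abs_arg_lt_pi_div_two_iff.mpr (Or.inl (re_pos hz))

theorem L_zero : L 0 = 0 := by simp [L]

theorem L_deriv {z : ℂ} (hz : z ∈ ball (0 : ℂ) 1) : HasDerivAt L (2 / (1 - z ^ 2)) z := by
  have h1 : HasDerivAt (fun z : ℂ => 1 + z) 1 z := (hasDerivAt_id z).const_add 1
  have h2 : HasDerivAt (fun z : ℂ => 1 - z) (-1) z := (hasDerivAt_id z).const_sub 1
  have h3 := (h1.div h2 (one_sub_ne hz)).clog (Or.inl (re_pos hz))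
  refine h3.congr_deriv ?_
  have := one_sub_ne hz
  have := one_add_ne hz
  have := one_sub_sq_ne hz
  simp only [Pi.div_apply]
  field_simp
  ring

theorem L_inj {z w : ℂ} (hz : z ∈ ball (0 : ℂ) 1) (hw : w ∈ ball (0 : ℂ) 1) (h : L z = L w) :
    z = w := by
  have h1 := congrArg exp h
  unfold L at h1
  rw [exp_log (div_ne_zero (one_add_ne hz) (one_sub_ne hz)),
    exp_log (div_ne_zero (one_add_ne hw) (one_sub_ne hw)),
    div_eq_div_iff (one_sub_ne hz) (one_sub_ne hw)] at h1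
  linear_combination h1 / 2

noncomputable def E (a : ℚ) (z : ℂ) : ℂ := exp (a * L z)

theorem E_zero (a : ℚ) : E a 0 = 1 := by simp [E, L_zero]

theorem E_deriv (a : ℚ) {z : ℂ} (hz : z ∈ ball (0 : ℂ) 1) :
    HasDerivAt (E a) (2 * a * E a z / (1 - z ^ 2)) z := by
  have h := ((L_deriv hz).const_mul (a : ℂ)).cexp
  refine h.congr_deriv ?_
  unfold E
  ring

theorem E_an (a : ℚ) : AnalyticOnNhd ℂ (E a) (ball 0 1) :=
  DifferentiableOn.analyticOnNhd
    (fun _ hz => (E_deriv a hz).differentiableAt.differentiableWithinAt) isOpen_ball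

theorem D_deriv (a : ℚ) (n : ℕ) {z : ℂ} (hz : z ∈ ball (0 : ℂ) 1) :
    HasDerivAt (iteratedDeriv n (E a)) (iteratedDeriv (n + 1) (E a) z) z := by
  have h : DifferentiableAt ℂ (iteratedDeriv n (E a)) z := by
    rw [iteratedDeriv_eq_iterate]
    exact ((E_an a).iterated_deriv n z hz).differentiableAt
  rw [iteratedDeriv_succ]
  exact h.hasDerivAt

theorem ode (a : ℚ) (n : ℕ) : ∀ z ∈ ball (0 : ℂ) 1,
    (1 - z ^ 2) * iteratedDeriv (n + 2) (E a) z - 2 * (n + 1) * z * iteratedDeriv (n + 1) (E a) z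
      - (n + 1) * n * iteratedDeriv n (E a) z - 2 * a * iteratedDeriv (n + 1) (E a) z = 0 := by
  have base : ∀ z ∈ ball (0 : ℂ) 1,
      (1 - z ^ 2) * iteratedDeriv 1 (E a) z - 2 * a * iteratedDeriv 0 (E a) z = 0 := by
    intro z hz
    rw [iteratedDeriv_one, (E_deriv a hz).deriv, iteratedDeriv_zero]
    have := one_sub_sq_ne hz
    field_simp
    ring
  have sq : ∀ z : ℂ, HasDerivAt (fun z : ℂ => 1 - z ^ 2) (-(2 * z)) z := by
    intro z
    have := (hasDerivAt_pow 2 z).const_sub 1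
    simpa using this
  induction n with
  | zero =>
    intro z hz
    have h1 := ((sq z).mul (D_deriv a 1 hz)).sub ((D_deriv a 0 hz).const_mul (2 * (a : ℂ)))
    have h2 : HasDerivAt (fun _ : ℂ => (0 : ℂ)) _ z := h1.congr_of_eventuallyEq (by
      filter_upwards [isOpen_ball.mem_nhds hz] with w hw
      exact (base w hw).symm)
    have h3 := h2.unique (hasDerivAt_const z 0)
    simp only [Nat.cast_zero, zero_add] at h3 ⊢
    linear_combination h3
  | succ n ih =>
    intro z hz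
    have h1 := ((((sq z).mul (D_deriv a (n + 2) hz)).sub
      (((hasDerivAt_id z).const_mul (2 * ((n : ℂ) + 1))).mul (D_deriv a (n + 1) hz))).sub
      ((D_deriv a n hz).const_mul (((n : ℂ) + 1) * n))).sub
      ((D_deriv a (n + 1) hz).const_mul (2 * (a : ℂ)))
    have h2 : HasDerivAt (fun _ : ℂ => (0 : ℂ)) _ z := h1.congr_of_eventuallyEq (by
      filter_upwards [isOpen_ball.mem_nhds hz] with w hw
      exact (ih w hw).symm)
    have h3 := h2.unique (hasDerivAt_const z 0)
    simp only [id] at h3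
    push_cast
    linear_combination h3

theorem coef_aux (a : ℚ) (n : ℕ) :
    iteratedDeriv n (E a) 0 = (n.factorial : ℂ) * (cq a n : ℂ) ∧
      iteratedDeriv (n + 1) (E a) 0 = ((n + 1).factorial : ℂ) * (cq a (n + 1) : ℂ) := by
  have h0 : (0 : ℂ) ∈ ball (0 : ℂ) 1 := by simp
  induction n with
  | zero =>
    constructor
    · simp [E_zero, cq_zero]
    · rw [zero_add, iteratedDeriv_one, (E_deriv a h0).deriv]
      simp [E_zero, cq_one]
  | succ n ih =>
    refine ⟨ih.2, ?_⟩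
    have h := ode a n 0 h0
    rw [ih.1, ih.2] at h
    have e : iteratedDeriv (n + 1 + 1) (E a) 0 = iteratedDeriv (n + 2) (E a) 0 := rfl
    have e2 : cq a (n + 1 + 1) = cq a (n + 2) := rfl
    rw [e, e2, cq_rec, Nat.factorial_succ (n + 1), Nat.factorial_succ n]
    rw [Nat.factorial_succ n] at h
    have hn : ((n : ℂ) + 2) ≠ 0 := by exact_mod_cast (by omega : n + 2 ≠ 0)
    push_cast at h ⊢
    have e3 : ((n : ℂ) + 1 + 1) = n + 2 := by ring
    rw [e3]
    field_simp
    linear_combination h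

theorem coef (a b : ℚ) (u v c : ℂ) (n : ℕ) (hn : 0 < n) :
    iteratedDeriv n (fun z => c + (u * E a z + v * E b z)) 0 / (n.factorial : ℂ) =
      u * (cq a n : ℂ) + v * (cq b n : ℂ) := by
  have h0 : (0 : ℂ) ∈ ball (0 : ℂ) 1 := by simp
  have ha : ContDiffAt ℂ n (E a) 0 := (E_an a 0 h0).contDiffAt
  have hb : ContDiffAt ℂ n (E b) 0 := (E_an b 0 h0).contDiffAt
  rw [iteratedDeriv_const_add hn]
  have h1 : iteratedDeriv n (fun z => u * E a z + v * E b z) 0 =
      iteratedDeriv n (fun z => u * E a z) 0 + iteratedDeriv n (fun z => v * E b z) 0 :=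
    iteratedDeriv_add (contDiffAt_const.mul ha) (contDiffAt_const.mul hb)
  rw [h1, iteratedDeriv_const_mul u ha, iteratedDeriv_const_mul v hb, (coef_aux a n).1,
    (coef_aux b n).1]
  have : (n.factorial : ℂ) ≠ 0 := by exact_mod_cast n.factorial_ne_zero
  field_simp

end Pool.Agent.Lib.MP_9dc04a_an.Diff
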