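import Mathlib
import Pool.Agent.Lib.MP_9dc04a_an.DPow
import Pool.Agent.Lib.MP_9dc04a_an.DInj

namespace Pool.Agent.Lib.MP_9dc04a_an.Diff

open Complex Metric Set

noncomputable def al : ℝ := Real.pi / 4 - dl
noncomputable def be : ℝ := -(Real.pi / 8) - dl
noncomputable def ga : ℝ := 3 * Real.pi / 8
noncomputable def cc : ℝ := Real.cos ga

theorem cc_pos : 0 < cc := by
  have := Real.pi_pos
  apply Real.cos_pos_of_mem_Ioo
  unfold ga
  constructor <;> linarith

theorem cc_sq : cc ^ 2 = (2 - √2) / 4 := by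
  unfold cc
  rw [Real.cos_sq, show 2 * ga = Real.pi - Real.pi / 4 by unfold ga; ring, Real.cos_pi_sub,
    Real.cos_pi_div_four]
  ring

theorem cc_sq_ge : (146 / 1000 : ℝ) ≤ cc ^ 2 := by
  rw [cc_sq]
  have : √2 ≤ 1415 / 1000 := by
    rw [Real.sqrt_le_iff]; constructor <;> norm_num
  linarith

noncomputable def cis (t : ℝ) : ℂ := exp (t * I)

theorem cis_add (s t : ℝ) : cis (s + t) = cis s * cis t := by
  unfold cis; rw [← exp_add]; congr 1; push_cast; ring
theorem cis_zero : cis 0 = 1 := by simp [cis]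
theorem cis_conj (t : ℝ) : (starRingEnd ℂ) (cis t) = cis (-t) := by
  unfold cis; rw [← exp_conj]; congr 1; simp
theorem cis_re (t : ℝ) : (cis t).re = Real.cos t := exp_ofReal_mul_I_re t
theorem cis_im (t : ℝ) : (cis t).im = Real.sin t := exp_ofReal_mul_I_im t
theorem cis_norm (t : ℝ) : ‖cis t‖ = 1 := norm_exp_ofReal_mul_I t
theorem cis_ne (t : ℝ) : cis t ≠ 0 := exp_ne_zero _

theorem E_polar (a : ℚ) (z : ℂ) :
    E a z = (Real.exp (a * (L z).re) : ℂ) * cis (a * (L z).im) := by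
  unfold E cis
  rw [ofReal_exp, ← exp_add]
  congr 1
  apply Complex.ext <;> simp

noncomputable def la : ℂ := cis ga / (2 * cc)
noncomputable def lb : ℂ := cis (-ga) / (2 * cc)
noncomputable def mu : ℂ := cis (al + be) / (2 * cc)

theorem la_add_lb : la + lb = 1 := by
  have hc : (cc : ℂ) ≠ 0 := by exact_mod_cast cc_pos.ne'
  have : cis ga + cis (-ga) = 2 * cc := by
    rw [show (2 * cc : ℂ) = ((2 * cc : ℝ) : ℂ) by push_cast; rfl]
    apply Complex.ext
    · rw [add_re, cis_re, cis_re, ofReal_re, Real.cos_neg, cc]; ring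
    · rw [add_im, cis_im, cis_im, ofReal_im, Real.sin_neg]; ring
  unfold la lb
  rw [← add_div, this]
  field_simp

noncomputable def hh (z : ℂ) : ℂ :=
  -(la / 5 + lb * (2 / 9)) + (la / 5 * E (5 / 2) z + lb * (2 / 9) * E (9 / 4) z)
noncomputable def gg (z : ℂ) : ℂ :=
  -(mu / 5 - mu * (2 / 9)) + (mu / 5 * E (5 / 2) z + -(mu * (2 / 9)) * E (9 / 4) z)

theorem hh_deriv {z : ℂ} (hz : z ∈ ball (0 : ℂ) 1) :
    HasDerivAt hh ((la * E (5 / 2) z + lb * E (9 / 4) z) / (1 - z ^ 2)) z := by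
  have h := (((E_deriv (5 / 2) hz).const_mul (la / 5)).add
    ((E_deriv (9 / 4) hz).const_mul (lb * (2 / 9)))).const_add (-(la / 5 + lb * (2 / 9)))
  refine h.congr_deriv ?_
  push_cast
  ring

theorem gg_deriv {z : ℂ} (hz : z ∈ ball (0 : ℂ) 1) :
    HasDerivAt gg ((mu * E (5 / 2) z - mu * E (9 / 4) z) / (1 - z ^ 2)) z := by
  have h := (((E_deriv (5 / 2) hz).const_mul (mu / 5)).add
    ((E_deriv (9 / 4) hz).const_mul (-(mu * (2 / 9))))).const_add (-(mu / 5 - mu * (2 / 9)))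
  refine h.congr_deriv ?_
  push_cast
  ring

/-- the basic norm identity -/
theorem norm_id (x y t : ℝ) :
    ‖cis ga * (x * cis t) + cis (-ga) * y‖ ^ 2 =
      ‖(x * cis t - y : ℂ)‖ ^ 2 + 4 * x * y * (Real.cos (ga + t) * cc) := by
  rw [← normSq_eq_norm_sq, ← normSq_eq_norm_sq, normSq_apply, normSq_apply]
  simp only [add_re, add_im, mul_re, mul_im, sub_re, sub_im, ofReal_re, ofReal_im, cis_re, cis_im,
    Real.cos_neg, Real.sin_neg, Real.cos_add, cc]
  have h1 := Real.sin_sq_add_cos_sq ga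
  have h2 := Real.sin_sq_add_cos_sq t
  linear_combination
    (x ^ 2 * (Real.cos t ^ 2 + Real.sin t ^ 2) + y ^ 2 - 2 * x * y * Real.cos t) * h1

theorem jac {z : ℂ} (hz : z ∈ ball (0 : ℂ) 1) : ‖deriv gg z‖ < ‖deriv hh z‖ := by
  rw [(gg_deriv hz).deriv, (hh_deriv hz).deriv, norm_div, norm_div]
  apply div_lt_div_of_pos_right _ (norm_pos_iff.mpr (one_sub_sq_ne hz))
  have hE : E (5 / 2) z = E (9 / 4) z * E (1 / 4) z := by
    unfold E; rw [← exp_add]; congr 1; push_cast; ring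
  have hc : (0 : ℝ) < cc := cc_pos
  have hc' : (cc : ℂ) ≠ 0 := by exact_mod_cast hc.ne'
  set x : ℝ := Real.exp (((1 / 4 : ℚ) : ℝ) * (L z).re) with hx
  set t : ℝ := ((1 / 4 : ℚ) : ℝ) * (L z).im with ht
  have hW : E (1 / 4) z = x * cis t := E_polar _ z
  have e1 : mu * E (5 / 2) z - mu * E (9 / 4) z =
      (E (9 / 4) z / (2 * cc)) * (cis (al + be) * (x * cis t - (1 : ℝ))) := by
    rw [hE, hW]; unfold mu; push_cast; field_simp
  have e2 : la * E (5 / 2) z + lb * E (9 / 4) z =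
      (E (9 / 4) z / (2 * cc)) * (cis ga * (x * cis t) + cis (-ga) * (1 : ℝ)) := by
    rw [hE, hW]; unfold la lb; push_cast; field_simp
  rw [e1, e2, norm_mul, norm_mul, norm_mul, cis_norm, one_mul]
  apply mul_lt_mul_of_pos_left _ (norm_pos_iff.mpr (div_ne_zero (exp_ne_zero _) (by simp [hc'])))
  apply lt_of_pow_lt_pow_left₀ 2 (norm_nonneg _)
  rw [norm_id]
  have hx0 : 0 < x := Real.exp_pos _
  have him := abs_lt.mp (L_im hz)
  have hcos : 0 < Real.cos (ga + t) := by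
    apply Real.cos_pos_of_mem_Ioo
    have := Real.pi_pos
    rw [ht]; unfold ga
    push_cast
    constructor <;> linarith [him.1, him.2]
  have : 0 < 4 * x * 1 * (Real.cos (ga + t) * cc) := by positivity
  linarith

theorem key (z : ℂ) :
    cis al * cc * (hh z + (starRingEnd ℂ) (gg z)) =
      cis ga * ((cis al * ((E (5 / 2) z - 1) / 5)).re : ℝ) +
        I * ((cis be * ((E (9 / 4) z - 1) * (2 / 9))).im : ℝ) := by
  have hc' : (cc : ℂ) ≠ 0 := by exact_mod_cast cc_pos.ne'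
  have hga : ga = al + -be := by unfold ga al be; ring
  have ha := cis_ne al
  have hb := cis_ne be
  have na : cis (-al) = (cis al)⁻¹ := by
    apply eq_inv_of_mul_eq_one_left; rw [← cis_add, neg_add_cancel, cis_zero]
  have nb : cis (-be) = (cis be)⁻¹ := by
    apply eq_inv_of_mul_eq_one_left; rw [← cis_add, neg_add_cancel, cis_zero]
  have e1 : cis ga = cis al * (cis be)⁻¹ := by rw [hga, cis_add, nb]
  have e2 : cis (-ga) = (cis al)⁻¹ * cis be := by
    rw [show -ga = -al + be by rw [hga]; ring, cis_add, na]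
  have e3 : (starRingEnd ℂ) mu = (cis al)⁻¹ * (cis be)⁻¹ / (2 * cc) := by
    unfold mu
    rw [map_div₀, cis_conj, neg_add, cis_add, na, nb]
    simp [conj_ofNat]
  rw [re_eq_add_conj, im_eq_sub_conj]
  unfold hh gg la lb
  simp only [map_add, map_mul, map_neg, map_sub, map_div₀, e3, cis_conj, na, nb, e1, e2, conj_ofNat,
    map_one]
  have hI : (I : ℂ) ≠ 0 := I_ne_zero
  field_simp
  ring

theorem injOn : InjOn (fun z => hh z + (starRingEnd ℂ) (gg z)) (ball (0 : ℂ) 1) := by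
  intro z hz w hw h
  have h1 := key z
  have h' : hh z + (starRingEnd ℂ) (gg z) = hh w + (starRingEnd ℂ) (gg w) := h
  rw [h', key w] at h1
  have hre := congrArg Complex.re h1
  have him := congrArg Complex.im h1
  simp only [add_re, add_im, mul_re (cis ga), mul_im (cis ga), mul_re I, mul_im I, ofReal_re,
    ofReal_im, I_re, I_im, cis_re, cis_im] at hre him
  have hc : 0 < Real.cos ga := cc_pos
  have hU : (cis al * ((E (5 / 2) w - 1) / 5)).re = (cis al * ((E (5 / 2) z - 1) / 5)).re := by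
    apply mul_left_cancel₀ hc.ne'
    linarith
  have hV : (cis be * ((E (9 / 4) w - 1) * (2 / 9))).im =
      (cis be * ((E (9 / 4) z - 1) * (2 / 9))).im := by
    rw [hU] at him
    linarith
  have fU : ∀ z : ℂ, (cis al * ((E (5 / 2) z - 1) / 5)).re =
      (-(Real.exp (5 / 2 * (L z).re) * A ((L z).im + Real.pi / 2)) - Real.cos al) / 5 := by
    intro z
    have e : cis al * ((E (5 / 2) z - 1) / 5) =
        ((Real.exp (5 / 2 * (L z).re) : ℝ) * cis (al + 5 / 2 * (L z).im) - cis al) / (5 : ℝ) := by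
      rw [E_polar, cis_add]; push_cast; ring
    rw [e, div_ofReal_re, sub_re, re_ofReal_mul, cis_re, cis_re]
    unfold A
    rw [show 5 / 2 * ((L z).im + Real.pi / 2) - dl = (al + 5 / 2 * (L z).im) + Real.pi by
      unfold al; ring, Real.cos_add_pi]
    ring
  have fV : ∀ z : ℂ, (cis be * ((E (9 / 4) z - 1) * (2 / 9))).im =
      (-(Real.exp (9 / 4 * (L z).re) * B ((L z).im + Real.pi / 2)) - Real.sin be) / (9 / 2) := by
    intro z
    have e : cis be * ((E (9 / 4) z - 1) * (2 / 9)) =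
        ((Real.exp (9 / 4 * (L z).re) : ℝ) * cis (be + 9 / 4 * (L z).im) - cis be) /
          ((9 / 2 : ℝ) : ℂ) := by
      rw [E_polar, cis_add]; push_cast; ring
    rw [e, div_ofReal_im, sub_im, im_ofReal_mul, cis_im, cis_im]
    unfold B
    rw [show 9 / 4 * ((L z).im + Real.pi / 2) - Real.pi / 4 - dl =
      (be + 9 / 4 * (L z).im) + Real.pi by unfold be; ring, Real.sin_add_pi]
    ring
  rw [fU, fU] at hU
  rw [fV, fV] at hV
  have iz := abs_lt.mp (L_im hz)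
  have iw := abs_lt.mp (L_im hw)
  have := inj (s := (L z).im + Real.pi / 2) (t := (L w).im + Real.pi / 2) (x := (L z).re)
    (y := (L w).re) (by linarith [iz.1]) (by linarith [iz.2]) (by linarith [iw.1])
    (by linarith [iw.2]) (by linarith) (by linarith)
  apply L_inj hz hw
  apply Complex.ext this.2
  linarith [this.1]

theorem norms (n : ℕ) (hn : 0 < n) :
    ‖iteratedDeriv n gg 0 / (n.factorial : ℂ)‖ = ((p n : ℝ) - q n) / (2 * cc) ∧
    ‖iteratedDeriv n hh 0 / (n.factorial : ℂ)‖ ^ 2 =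
      (((p n : ℝ) - q n) / (2 * cc)) ^ 2 + (p n : ℝ) * q n := by
  have hc : (0 : ℝ) < cc := cc_pos
  have hc' : (cc : ℂ) ≠ 0 := by exact_mod_cast hc.ne'
  obtain ⟨m, rfl⟩ : ∃ m, n = m + 1 := ⟨n - 1, by omega⟩
  have hpq : (q (m + 1) : ℝ) ≤ p (m + 1) := by exact_mod_cast (q_le_p m).1
  have h2 : ‖(2 * cc : ℂ)‖ = 2 * cc := by
    rw [show (2 * cc : ℂ) = ((2 * cc : ℝ) : ℂ) by push_cast; rfl, norm_real,
      Real.norm_of_nonneg (by positivity)]
  constructor
  · have h := coef (5 / 2) (9 / 4) (mu / 5) (-(mu * (2 / 9))) (-(mu / 5 - mu * (2 / 9))) (m + 1) hn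
    have e : mu / 5 * (cq (5 / 2) (m + 1) : ℂ) + -(mu * (2 / 9)) * (cq (9 / 4) (m + 1) : ℂ) =
        cis (al + be) * (((p (m + 1) : ℝ) - q (m + 1) : ℝ) : ℂ) / (2 * cc) := by
      unfold mu p q; push_cast; field_simp; ring
    have h' : iteratedDeriv (m + 1) gg 0 / ((m + 1).factorial : ℂ) = _ := h
    rw [h', e, norm_div, norm_mul, cis_norm, one_mul, h2, norm_real,
      Real.norm_of_nonneg (by linarith)]
  · have h := coef (5 / 2) (9 / 4) (la / 5) (lb * (2 / 9)) (-(la / 5 + lb * (2 / 9))) (m + 1) hn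
    have e : la / 5 * (cq (5 / 2) (m + 1) : ℂ) + lb * (2 / 9) * (cq (9 / 4) (m + 1) : ℂ) =
        (cis ga * (((p (m + 1) : ℝ) : ℂ) * cis 0) + cis (-ga) * ((q (m + 1) : ℝ) : ℂ)) /
          (2 * cc) := by
      rw [cis_zero]; unfold la lb p q; push_cast; field_simp
    have h' : iteratedDeriv (m + 1) hh 0 / ((m + 1).factorial : ℂ) = _ := h
    rw [h', e, norm_div, div_pow, norm_id, cis_zero, mul_one, h2, add_zero, ← ofReal_sub, norm_real,
      Real.norm_of_nonneg (by linarith)]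
    have : Real.cos ga = cc := rfl
    rw [this]
    field_simp
    ring

theorem gap (n : ℕ) (hn : 2 ≤ n) :
    max (n : ℝ) ((n : ℝ) ^ (5 / 4 : ℝ) / 3) <
      ‖iteratedDeriv n hh 0 / (n.factorial : ℂ)‖ - ‖iteratedDeriv n gg 0 / (n.factorial : ℂ)‖ := by
  obtain ⟨hb, ha⟩ := norms n (by omega)
  have hc : (0 : ℝ) < cc := cc_pos
  have hc2 := cc_sq_ge
  have hc1 : cc ≤ 1 := Real.cos_le_one _
  have hc3 : 1 / 3 ≤ cc := by nlinarith
  obtain ⟨m, hm⟩ : ∃ m, n = m + 1 := ⟨n - 1, by omega⟩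
  have hpq : (q n : ℝ) ≤ p n := by rw [hm]; exact_mod_cast (q_le_p m).1
  have hq : (0 : ℝ) < q n := by rw [hm]; exact_mod_cast (q_mono m).1
  have hn0 : (0 : ℝ) < n := by exact_mod_cast (by omega : 0 < n)
  set a := ‖iteratedDeriv n hh 0 / (n.factorial : ℂ)‖ with hadef
  have ha0 : 0 ≤ a := norm_nonneg _
  rw [hb]
  set b := ((p n : ℝ) - q n) / (2 * cc) with hbdef
  have hb0 : 0 ≤ b := div_nonneg (by linarith) (by positivity)
  have hbc : b * (2 * cc) = (p n : ℝ) - q n := by rw [hbdef]; field_simp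
  have h4 : ((n : ℝ) ^ (5 / 4 : ℝ)) ^ 4 = (n : ℝ) ^ 5 := by
    rw [← Real.rpow_natCast, ← Real.rpow_mul hn0.le]; norm_num
  have hr0 : 0 ≤ (n : ℝ) ^ (5 / 4 : ℝ) := by positivity
  rcases lt_or_ge n 81 with h | h
  · have hs : (3 : ℝ) * n * (p n - q n) < p n * q n - (n : ℝ) ^ 2 := by
      exact_mod_cast small n (by omega) hn
    have h81 : (n : ℝ) ≤ 81 := by exact_mod_cast h.le
    have hmax : (n : ℝ) ^ (5 / 4 : ℝ) / 3 ≤ n := by
      have : (n : ℝ) ^ (5 / 4 : ℝ) ≤ 3 * n := by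
        apply le_of_pow_le_pow_left₀ (n := 4) (by norm_num) (by positivity)
        rw [h4]
        have : 0 ≤ (n : ℝ) ^ 4 * (81 - n) := mul_nonneg (by positivity) (by linarith)
        linarith
      linarith
    rw [max_eq_left hmax]
    have h1 : 2 * b ≤ 3 * ((p n : ℝ) - q n) := by
      rw [← hbc]
      have : 0 ≤ b * (cc - 1 / 3) := mul_nonneg hb0 (by linarith)
      linarith
    have h2 : (n : ℝ) * (2 * b) ≤ n * (3 * ((p n : ℝ) - q n)) := mul_le_mul_of_nonneg_left h1 hn0.le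
    have h3 : (n + b) ^ 2 < a ^ 2 := by rw [ha]; linarith
    have := lt_of_pow_lt_pow_left₀ 2 ha0 h3
    linarith
  · have hl : (3 / 5 : ℝ) * (n : ℝ) ^ 5 ≤ (q n : ℝ) ^ 4 := by
      have := large n h
      have h2 : (((3 / 5 : ℚ) * (n : ℚ) ^ 5 : ℚ) : ℝ) ≤ ((q n ^ 4 : ℚ) : ℝ) := by exact_mod_cast this
      push_cast at h2
      exact h2
    have h81 : (81 : ℝ) ≤ n := by exact_mod_cast h
    have hmax : (n : ℝ) ≤ (n : ℝ) ^ (5 / 4 : ℝ) / 3 := by
      have : 3 * (n : ℝ) ≤ (n : ℝ) ^ (5 / 4 : ℝ) := by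
        apply le_of_pow_le_pow_left₀ (n := 4) (by norm_num) hr0
        rw [h4]
        have : 0 ≤ (n : ℝ) ^ 4 * (n - 81) := mul_nonneg (by positivity) (by linarith)
        linarith
      linarith
    rw [max_eq_right hmax]
    have h1 : (cc * q n + b) ^ 2 ≤ a ^ 2 := by
      rw [ha]
      have e : (cc * q n + b) ^ 2 = cc ^ 2 * (q n : ℝ) ^ 2 + (q n : ℝ) * (b * (2 * cc)) + b ^ 2 := by
        ring
      rw [e, hbc]
      have : 0 ≤ (1 - cc ^ 2) * (q n : ℝ) ^ 2 := mul_nonneg (by nlinarith) (by positivity)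
      linarith
    have h2 := le_of_pow_le_pow_left₀ (by norm_num) ha0 h1
    have h3 : (n : ℝ) ^ (5 / 4 : ℝ) < 3 * (cc * q n) := by
      apply lt_of_pow_lt_pow_left₀ 4 (by positivity)
      rw [h4]
      have e : (3 * (cc * q n)) ^ 4 = 81 * (cc ^ 2) ^ 2 * (q n : ℝ) ^ 4 := by ring
      have h5 : (146 / 1000 : ℝ) ^ 2 ≤ (cc ^ 2) ^ 2 := pow_le_pow_left₀ (by norm_num) hc2 2
      have h6 : 81 * (146 / 1000 : ℝ) ^ 2 * (q n : ℝ) ^ 4 ≤ 81 * (cc ^ 2) ^ 2 * (q n : ℝ) ^ 4 :=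
        mul_le_mul_of_nonneg_right (by linarith) (by positivity)
      have h7 : (0 : ℝ) < (n : ℝ) ^ 5 := by positivity
      rw [e]
      linarith
    linarith

theorem final : ∃ h g : ℂ → ℂ,
      DifferentiableOn ℂ h (Metric.ball (0:ℂ) 1) ∧
      DifferentiableOn ℂ g (Metric.ball (0:ℂ) 1) ∧
      h 0 = 0 ∧ deriv h 0 = 1 ∧ g 0 = 0 ∧ deriv g 0 = 0 ∧
      Set.InjOn (fun z => h z + starRingEnd ℂ (g z)) (Metric.ball (0:ℂ) 1) ∧
      (∀ z ∈ Metric.ball (0:ℂ) 1, ‖deriv g z‖ < ‖deriv h z‖) ∧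
      ∀ n : ℕ, 2 ≤ n →
        max (n : ℝ) ((n : ℝ) ^ (5 / 4 : ℝ) / 3) <
          ‖iteratedDeriv n h 0 / (n.factorial : ℂ)‖ - ‖iteratedDeriv n g 0 / (n.factorial : ℂ)‖ := by
  have h0 : (0 : ℂ) ∈ ball (0 : ℂ) 1 := by simp
  refine ⟨hh, gg, fun z hz => (hh_deriv hz).differentiableAt.differentiableWithinAt,
    fun z hz => (gg_deriv hz).differentiableAt.differentiableWithinAt, ?_, ?_, ?_, ?_, injOn,
    fun z hz => jac hz, gap⟩
  · simp [hh, E_zero]
  · rw [(hh_deriv h0).deriv]; simp [E_zero, la_add_lb]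
  · simp only [gg, E_zero]; ring
  · rw [(gg_deriv h0).deriv]; simp [E_zero]

end Pool.Agent.Lib.MP_9dc04a_an.Diff
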