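import Pool.Agent.Lib.MP_9dc04a_an.Jen

set_option autoImplicit false

namespace Pool.Agent.Lib.MP_9dc04a_an

open Complex hiding sin cos sin_add_two_pi cos_add_two_pi exp log log_one log_exp log_mul log_inv exp_log
open Metric Filter Topology Real MeasureTheory Polynomial Finset
open scoped Real

variable {d : ℕ} {P D1 : ℂ[X]}

lemma SD.v_bd {F1 F2 F3 : ℂ → ℝ} (S : SD F1 F2 F3) {s ε t : ℝ} (hs : s ≤ 0) (hε : 0 ≤ ε)
    (ht : 0 ≤ t) (H : ∀ θ : ℝ, F1 (s + θ * I) ≤ -s / 2 + ε ∧ F3 (s + θ * I) ≤ -s + ε) :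
    vv F1 F2 F3 s t ≤ -s * t + 2 * π * ε ∧ vv F1 F2 F3 s t ≤ -2 * π * s + 2 * π * ε := by
  have k : ∀ e, Adm e → ∀ θ : ℝ,
      WW F1 F2 F3 e θ (s + θ * I) ≤ -s / 2 * (e.a θ + e.b θ) + ε := fun e he θ => by
    obtain ⟨a, b⟩ := H θ
    have := mul_le_mul_of_nonneg_left a (sub_nonneg.2 (he.ba θ))
    have := mul_le_mul_of_nonneg_left ((S.l23 _).trans b) (sub_nonneg.2 (he.cb θ))
    have := mul_le_mul_of_nonneg_left b (he.c0 θ)
    have := mul_le_of_le_one_left hε (he.a1 θ)
    unfold WW; linarith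
  refine ⟨v_le ht fun e he hc => ?_, v_le ht fun e he hc => ?_⟩
  · have := intervalIntegral.integral_mono_on (by positivity : (0:ℝ) ≤ 2 * π)
      (S.ival he.toPre s _ _) (((he.icost _ _).const_mul (-s / 2)).add
        (intervalIntegrable_const (c := ε))) fun θ _ => (k e he θ).trans (by
          have := mul_nonneg (neg_nonneg.2 hs) (he.c0 θ)
          linarith)
    rw [intervalIntegral.integral_add ((he.icost _ _).const_mul _) intervalIntegrable_const,
      intervalIntegral.integral_const_mul, intervalIntegral.integral_const, smul_eq_mul] at this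
    have := mul_le_mul_of_nonneg_left hc (by linarith : 0 ≤ -s / 2)
    unfold cost at this
    unfold val; linarith
  · have := intervalIntegral.integral_mono_on (by positivity : (0:ℝ) ≤ 2 * π)
      (S.ival he.toPre s _ _) (intervalIntegrable_const (c := -s + ε))
        fun θ _ => (k e he θ).trans (by
          have := mul_le_mul_of_nonneg_left
            (by linarith [he.a1 θ, he.ba θ] : e.a θ + e.b θ ≤ 2) (by linarith : 0 ≤ -s / 2)
          linarith)
    rw [intervalIntegral.integral_const, smul_eq_mul] at this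
    unfold val; linarith

lemma norm_cexp_neg (s θ : ℝ) : ‖cexp (-(s + θ * I))‖ = exp (-s) := by
  rw [Complex.norm_exp]; simp

lemma TB.end1 (h : TB d P D1) (S : SD (FF d P D1 1) (FF d P D1 2) (FF d P D1 d)) {ε : ℝ}
    (hε : 0 < ε) : ∃ s1, ∀ s, s1 ≤ s → ∀ t, 0 ≤ t →
      vv (FF d P D1 1) (FF d P D1 2) (FF d P D1 d) s t ≤ ε := by
  have z : GG d (rt d P (X ^ 2 * D1) 0) = 0 := by
    rw [GG_top]
    refine sum_eq_zero fun i _ => (posLog_eq_zero_iff _).2 ?_
    rw [abs_norm]
    by_contra hc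
    push Not at hc
    have := h.pd.root 0 i (norm_pos_iff.1 (by linarith))
    rw [zero_mul] at this
    exact h.nP _ (by rw [norm_inv]; exact inv_lt_one_of_one_lt₀ hc) this
  have e0 : 0 < ε / (2 * π) := by positivity
  obtain ⟨ρ, ρ0, hρ⟩ := Metric.eventually_nhds_iff.1
    ((h.pd.cont d).continuousAt.eventually_lt continuousAt_const (z.trans_lt e0))
  refine ⟨-log ρ + 1, fun s hs t ht => v_le ht fun e he _ => ?_⟩
  have := intervalIntegral.integral_mono_on (by positivity : (0:ℝ) ≤ 2 * π)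
    (S.ival he.toPre s _ _) (intervalIntegrable_const (c := ε / (2 * π)))
      fun θ _ => (S.Wle' he.toPre _ _).trans (hρ (by
        rw [dist_zero_right, norm_cexp_neg, ← Real.lt_log_iff_exp_lt ρ0]; linarith)).le
  rwa [intervalIntegral.integral_const, smul_eq_mul, sub_zero,
    mul_div_cancel₀ _ (by positivity)] at this

lemma TB.end2a (h : TB d P D1) {ε : ℝ} (hε : 0 < ε) :
    ∃ s1, ∀ s : ℝ, s ≤ s1 → ∀ θ : ℝ, FF d P D1 1 (s + θ * I) ≤ -s / 2 + ε := by
  have a : ∀ᶠ z in 𝓝 (0:ℂ), exp (-ε) < ‖P.eval z‖ :=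
    continuousAt_const.eventually_lt (by fun_prop) (by simpa [h.pd.P0] using hε)
  have b : ∀ᶠ z in 𝓝 (0:ℂ), ‖D1.eval z‖ < exp ε :=
    ContinuousAt.eventually_lt (by fun_prop) continuousAt_const (by simpa [h.c1] using hε)
  obtain ⟨δ, δ0, hδ⟩ := Metric.eventually_nhds_iff.1 (a.and b)
  refine ⟨min 0 (2 * log δ), fun s hs θ => ?_⟩
  have s0 : s ≤ 0 := hs.trans (min_le_left _ _)
  have s1 : s ≤ 2 * log δ := hs.trans (min_le_right _ _)
  obtain ⟨i, -, -, e, -⟩ := GG_sorted h.d2 (rt d P (X ^ 2 * D1) (cexp (-(s + θ * I))))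
  unfold FF
  rw [e, posLog_apply, max_le_iff]
  refine ⟨by linarith, ?_⟩
  have r := h.pd.root (cexp (-(s + θ * I))) i
  set w := rt d P (X ^ 2 * D1) (cexp (-(s + θ * I))) i
  by_cases w0 : w = 0
  · rw [w0, norm_zero, Real.log_zero]; linarith
  have wp : 0 < ‖w‖ := norm_pos_iff.2 w0
  by_cases c : ‖w⁻¹‖ < δ
  · obtain ⟨c1, c2⟩ := hδ (y := w⁻¹) (by rwa [dist_zero_right])
    rw [r w0, norm_mul, norm_cexp_neg, eval_mul, eval_pow, eval_X, norm_mul, norm_pow,
      norm_inv] at c1
    have : exp (-ε) ≤ exp (-s) * (‖w‖⁻¹ ^ 2 * exp ε) := c1.le.trans (by gcongr)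
    have := Real.log_le_log (exp_pos _) this
    rw [log_mul (by positivity) (by positivity), log_mul (by positivity) (by positivity), log_pow,
      log_inv, log_exp, log_exp, log_exp] at this
    push_cast at this
    linarith
  · have := Real.log_le_log δ0 (not_lt.1 c)
    rw [norm_inv, log_inv] at this
    linarith

lemma TB.end2b (h : TB d P D1) {ε : ℝ} (hε : 0 < ε) :
    ∃ s1, ∀ s : ℝ, s ≤ s1 → ∀ θ : ℝ, FF d P D1 d (s + θ * I) ≤ -s + ε := by
  set Λ := ε / (2 * (d + 1)) with hΛ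
  have Λ0 : 0 < Λ := by positivity
  have dΛ : d * Λ ≤ ε / 2 := by
    rw [hΛ, ← mul_div_assoc, div_le_div_iff₀ (by positivity) (by positivity)]; nlinarith
  set r := exp (-Λ) with hr
  have r0 : 0 < r := exp_pos _
  have r1 : r < 1 := by simpa [hr] using Λ0
  set D := X ^ 2 * D1 with hD
  have nD : ∀ z ∈ sphere (0:ℂ) r, D.eval z ≠ 0 := fun z hz => by
    rw [mem_sphere_zero_iff_norm] at hz
    exact h.nD' (by rw [hz]; exact r0) (by rw [hz]; exact r1)
  obtain ⟨M, hM⟩ := (isCompact_sphere (0:ℂ) r).exists_bound_of_continuousOn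
    (f := fun z => P.eval z / D.eval z) (ContinuousOn.div (by fun_prop) (by fun_prop) nD)
  set η := min (ε / 2) (1 / 2) with hη
  have η0 : 0 < η := by positivity
  refine ⟨log (η / (|M| + 1)), fun s hs θ => ?_⟩
  rw [Real.le_log_iff_exp_le (by positivity), le_div_iff₀ (by positivity)] at hs
  set μ := cexp (-(s + θ * I)) with hμ
  have nμ : ‖μ‖ = exp (-s) := norm_cexp_neg s θ
  have μ0 : μ ≠ 0 := Complex.exp_ne_zero _
  have k : ∀ z : ℂ, ‖z‖ = r → P.eval z - μ * D.eval z ≠ 0 ∧
      log ‖P.eval z - μ * D.eval z‖ ≤ -s + ε / 2 + log ‖D.eval z‖ := by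
    intro z hz
    have z1 : z ∈ sphere (0:ℂ) r := mem_sphere_zero_iff_norm.2 hz
    have q0 := nD z z1
    set x := P.eval z / D.eval z / μ with hx
    have e : P.eval z - μ * D.eval z = μ * D.eval z * (x - 1) := by rw [hx]; field_simp
    have nx : ‖x‖ ≤ η := by
      rw [hx, norm_div, nμ, Real.exp_neg, div_inv_eq_mul]
      have := (hM z z1).trans (le_abs_self M)
      nlinarith [exp_pos s]
    have x1 : x - 1 ≠ 0 := fun h0 => by
      rw [sub_eq_zero.1 h0, norm_one] at nx
      linarith [min_le_right (ε / 2) (1 / 2)]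
    rw [e]
    refine ⟨mul_ne_zero (mul_ne_zero μ0 q0) x1, ?_⟩
    rw [norm_mul, norm_mul, log_mul (by positivity) (by positivity),
      log_mul (by positivity) (by positivity), nμ, log_exp]
    have := Real.log_le_sub_one_of_pos (norm_pos_iff.2 x1)
    have := norm_sub_le x 1
    rw [norm_one] at this
    linarith [min_le_left (ε / 2) (1 / 2)]
  have j := h.pd.jensen μ r0 fun z hz => (k z hz).1
  have iD : CircleIntegrable (fun z => log ‖D.eval z‖) 0 r :=
    ContinuousOn.circleIntegrable r0.le (ContinuousOn.log (by fun_prop)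
      fun z hz => norm_ne_zero_iff.2 (nD z hz))
  have m := circleAverage_mono (c := 0) (R := r) (f₁ := fun z => log ‖P.eval z - μ * D.eval z‖)
    (f₂ := fun z => -s + ε / 2 + log ‖D.eval z‖)
    (ContinuousOn.circleIntegrable r0.le (ContinuousOn.log (by fun_prop)
      fun z hz => norm_ne_zero_iff.2 (k z (by simpa using hz)).1))
    ((circleIntegrable_const _ _ _).add iD)
    fun z hz => (k z (by simpa [abs_of_pos r0] using hz)).2
  rw [j, circleAverage_fun_add (circleIntegrable_const _ _ _) iD, circleAverage_const,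
    h.avgD r0 r1, hr, log_exp] at m
  simp only [posLog_exp_mul Λ0.le (norm_nonneg _)] at m
  unfold FF
  rw [GG_top]
  have : ∑ i, log⁺ ‖rt d P D μ i‖ ≤ ∑ i, (max (log⁺ ‖rt d P D μ i‖ - Λ) 0 + Λ) :=
    sum_le_sum fun i _ => by linarith [le_max_left (log⁺ ‖rt d P D μ i‖ - Λ) 0]
  rw [sum_add_distrib, sum_const, card_univ, Fintype.card_fin, nsmul_eq_mul] at this
  linarith

lemma TB.end2 (h : TB d P D1) (S : SD (FF d P D1 1) (FF d P D1 2) (FF d P D1 d)) {ε : ℝ}
    (hε : 0 < ε) : ∃ s1, ∀ s, s ≤ s1 → ∀ t, 0 ≤ t →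
      vv (FF d P D1 1) (FF d P D1 2) (FF d P D1 d) s t ≤ -s * t + ε ∧
      vv (FF d P D1 1) (FF d P D1 2) (FF d P D1 d) s t ≤ -2 * π * s + ε := by
  have e0 : 0 < ε / (2 * π) := by positivity
  obtain ⟨a, ha⟩ := h.end2a e0
  obtain ⟨b, hb⟩ := h.end2b e0
  refine ⟨min 0 (min a b), fun s hs t ht => ?_⟩
  simp only [le_min_iff] at hs
  have := S.v_bd hs.1 e0.le ht fun θ => ⟨ha s hs.2.1 θ, hb s hs.2.2 θ⟩
  rwa [mul_div_cancel₀ _ (by positivity)] at this

lemma TB.end3 (h : TB d P D1) (S : SD (FF d P D1 1) (FF d P D1 2) (FF d P D1 d)) {ε : ℝ}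
    (hε : 0 < ε) : ∀ᶠ ρ in 𝓝[>] (0:ℝ), -2 * π * log ρ +
      2 * ‖(derivative D1).eval 0 / D1.eval 0 - (derivative P).eval 0‖ * ρ - ε * ρ ≤
      vv (FF d P D1 1) (FF d P D1 2) (FF d P D1 d) (2 * log ρ) π := by
  set c := D1.eval 0 with hc
  have c0 : c ≠ 0 := h.nD 0 (by simp)
  set a := ((derivative D1).eval 0 / c - (derivative P).eval 0) / 2 with ha
  set k : ℂ → ℂ := fun z => (Complex.log (D1.eval z / c) - Complex.log (P.eval z)) / 2 with hk
  have sl1 : D1.eval 0 / c ∈ slitPlane := by rw [← hc, div_self c0]; exact one_mem_slitPlane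
  have sl2 : P.eval 0 ∈ slitPlane := by rw [h.pd.P0]; exact one_mem_slitPlane
  have dk : HasStrictDerivAt k a 0 := by
    refine (((((D1.hasStrictDerivAt 0).div_const c).clog sl1).sub
      ((P.hasStrictDerivAt 0).clog sl2)).div_const 2).congr_deriv ?_
    rw [← hc, div_self c0, h.pd.P0, ha]; simp
  have k0 : k 0 = 0 := by simp [hk, ← hc, c0, h.pd.P0]
  have dG : HasStrictDerivAt (fun z => z * cexp (k z)) 1 0 :=
    ((hasStrictDerivAt_id 0).mul dk.cexp).congr_deriv (by simp [k0])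
  set χ := dG.localInverse _ _ _ one_ne_zero with hχ
  have G0 : (0:ℂ) * cexp (k 0) = 0 := zero_mul _
  have ri : ∀ᶠ p in 𝓝 (0:ℂ), χ p * cexp (k (χ p)) = p := by
    have := dG.eventually_right_inverse one_ne_zero
    rwa [G0] at this
  have dχ : HasStrictDerivAt χ 1 0 := by
    have := dG.to_localInverse one_ne_zero
    rwa [G0, inv_one] at this
  have χ0 : χ 0 = 0 := by
    have := ri.self_of_nhds
    simpa using this
  have dkχ : HasDerivAt (fun p => k (χ p)) a 0 := by
    exact (HasDerivAt.comp (0:ℂ) (h₂ := k) (by rw [χ0]; exact dk.hasDerivAt)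
      dχ.hasDerivAt).congr_deriv (mul_one _)
  have e0 : 0 < ε / (2 * π) := by positivity
  have lo := (hasDerivAt_iff_isLittleO_nhds_zero.1 dkχ).def e0
  have b1 : ∀ᶠ p in 𝓝 (0:ℂ), ‖χ p‖ < 1 :=
    dχ.hasDerivAt.continuousAt.norm.eventually_lt continuousAt_const (by simp [χ0])
  obtain ⟨δ, δ0, hδ⟩ := Metric.eventually_nhds_iff.1 ((ri.and lo).and b1)
  filter_upwards [Ioo_mem_nhdsGT δ0] with ρ hρ
  have ρ0 : 0 < ρ := hρ.1
  set s := 2 * log ρ with hs
  set θ0 := arg c - 2 * arg a with hθ0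
  have key : ∀ ψ : ℝ, -log ρ + ‖a‖ * ρ * cos (ψ / 2) - ε / (2 * π) * ρ ≤
      FF d P D1 1 (s + (ψ + θ0 : ℝ) * I) := by
    intro ψ
    set p : ℂ := ρ * cexp ((ψ / 2 - arg a : ℝ) * I) with hp
    have np : ‖p‖ = ρ := by rw [hp, norm_mul, norm_exp_ofReal_mul_I]; simp [ρ0.le]
    obtain ⟨⟨r1, r2⟩, r3⟩ := hδ (y := p) (by rw [dist_zero_right, np]; exact hρ.2)
    simp only [zero_add, χ0, k0, sub_zero, smul_eq_mul, np] at r2
    set z := χ p with hz
    have z0 : z ≠ 0 := fun h0 => by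
      rw [h0, zero_mul] at r1
      rw [← r1, norm_zero] at np
      exact ρ0.ne np
    have l1 : log ‖z‖ + (k z).re = log ρ := by
      rw [← np, ← r1, norm_mul, Complex.norm_exp, log_mul (by positivity) (by positivity), log_exp]
    have l2 : (p * a).re = ‖a‖ * ρ * cos (ψ / 2) := by
      have : p * a = (‖a‖ * ρ : ℝ) * cexp ((ψ / 2 : ℝ) * I) := by
        conv_lhs => rw [← norm_mul_exp_arg_mul_I a, hp]
        rw [mul_mul_mul_comm, ← Complex.exp_add]
        push_cast
        congr 1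
        · ring
        · congr 1; ring
      rw [this, re_ofReal_mul, exp_ofReal_mul_I_re]
    have l3 := (abs_le.1 ((abs_re_le_norm _).trans r2)).1
    rw [sub_re, l2] at l3
    have root : P.eval z - cexp (-(s + (ψ + θ0 : ℝ) * I)) * (X ^ 2 * D1).eval z = 0 := by
      have e1 : cexp (k z) ^ 2 * P.eval z = D1.eval z / c := by
        rw [← Complex.exp_nat_mul, hk]
        simp only [Nat.cast_ofNat, mul_div_cancel₀ _ (two_ne_zero (α := ℂ))]
        rw [Complex.exp_sub, Complex.exp_log (div_ne_zero (h.nD z r3) c0),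
          Complex.exp_log (h.nP z r3), div_mul_cancel₀ _ (h.nP z r3)]
      have e2 : cexp (-(s + (ψ + θ0 : ℝ) * I)) * (p ^ 2 * c) = 1 := by
        have : (ρ:ℂ) = cexp (log ρ : ℝ) := by rw [← ofReal_exp, exp_log ρ0]
        conv_lhs => rw [← norm_mul_exp_arg_mul_I c, h.c1, hp, this]
        rw [ofReal_one, one_mul, ← Complex.exp_add, ← Complex.exp_nat_mul, ← Complex.exp_add,
          ← Complex.exp_add, ← Complex.exp_zero, hs, hθ0]
        congr 1; push_cast; ring
      rw [eq_div_iff c0] at e1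
      rw [eval_mul, eval_pow, eval_X, ← e1]
      rw [← r1] at e2
      linear_combination (-P.eval z) * e2
    rw [h.pd.ev] at root
    obtain ⟨i, -, hi⟩ := prod_eq_zero_iff.1 root
    have l4 := le_GG (k := 1) (rt d P (X ^ 2 * D1) (cexp (-(s + (ψ + θ0 : ℝ) * I))))
      (I := {i}) (by simp)
    rw [sum_singleton, eq_inv_of_mul_eq_one_left (sub_eq_zero.1 hi).symm, norm_inv,
      posLog_apply, log_inv] at l4
    unfold FF
    linarith [le_max_right 0 (-log ‖z‖)]
  have c1 : Continuous fun θ : ℝ => FF d P D1 1 (s + θ * I) := (h.cont 1).comp (by fun_prop)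
  have i1 := intervalIntegral.integral_mono_on (μ := volume) (by linarith [pi_pos] : -π ≤ π)
    (Continuous.intervalIntegrable (by fun_prop) _ _)
    ((c1.comp (continuous_add_right θ0)).intervalIntegrable _ _) fun ψ _ => key ψ
  have i2 : ∫ ψ in -π..π, cos (ψ / 2) = 4 := by
    rw [intervalIntegral.integral_comp_div (f := cos) two_ne_zero, integral_cos, neg_div, Real.sin_neg,
      Real.sin_pi_div_two]
    norm_num
  rw [intervalIntegral.integral_sub (Continuous.intervalIntegrable (by fun_prop) _ _)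
    intervalIntegrable_const, intervalIntegral.integral_add intervalIntegrable_const
    (Continuous.intervalIntegrable (by fun_prop) _ _), intervalIntegral.integral_const_mul, i2] at i1
  simp only [intervalIntegral.integral_const, smul_eq_mul, Function.comp] at i1
  rw [intervalIntegral.integral_comp_add_right (fun θ : ℝ => FF d P D1 1 (s + θ * I)),
    show π + θ0 = -π + θ0 + 2 * π by ring, (per_F S.p1 s).intervalIntegral_add_eq _ 0, zero_add] at i1
  have v := S.le_v (adm_const le_rfl le_rfl zero_le_one le_rfl) (t := π)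
    (by rw [cost_const]; linarith) s
  simp only [val, WW, sub_zero, one_mul, zero_mul, add_zero] at v
  have na : ‖(derivative D1).eval 0 / c - (derivative P).eval 0‖ = 2 * ‖a‖ := by
    rw [ha, norm_div]; simp; ring
  have : (π - -π) * (ε / (2 * π) * ρ) = ε * ρ := by field_simp; ring
  rw [na]
  linarith

end Pool.Agent.Lib.MP_9dc04a_an
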