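import Pool.Agent.Lib.MP_9dc04a_an.Local
import Pool.Agent.Lib.MP_9dc04a_an.Coll

set_option autoImplicit false

namespace Pool.Agent.Lib.MP_9dc04a_an

open Complex Metric Finset Filter Topology
open scoped Real ComplexConjugate

structure Cls (h g : ℂ → ℂ) : Prop where
  dh : DifferentiableOn ℂ h (ball 0 1)
  dg : DifferentiableOn ℂ g (ball 0 1)
  inj : Set.InjOn (fun z => h z + conj (g z)) (ball 0 1)
  jac : ∀ z ∈ ball (0:ℂ) 1, ‖deriv g z‖ < ‖deriv h z‖

noncomputable def PP (h g : ℂ → ℂ) (z : ℂ) : ℂ :=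
  (deriv (deriv h) z * conj (deriv h z) - deriv (deriv g) z * conj (deriv g z)) /
    ((‖deriv h z‖ ^ 2 - ‖deriv g z‖ ^ 2 : ℝ) : ℂ)

noncomputable def QQ (h g : ℂ → ℂ) (z : ℂ) : ℂ :=
  ((1 - ‖z‖ ^ 2 : ℝ) : ℂ) * PP h g z - 2 * conj z

lemma Cls.ne {h g : ℂ → ℂ} (c : Cls h g) {z : ℂ} (hz : z ∈ ball (0:ℂ) 1) : deriv h z ≠ 0 := by
  intro e
  have := c.jac z hz
  rw [e, norm_zero] at this
  exact absurd this (not_lt.2 (norm_nonneg _))

lemma Cls.om_diff {h g : ℂ → ℂ} (c : Cls h g) :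
    DifferentiableOn ℂ (fun z => deriv g z / deriv h z) (ball 0 1) :=
  (c.dg.deriv isOpen_ball).div (c.dh.deriv isOpen_ball) fun _ hz => c.ne hz

lemma Cls.om_lt {h g : ℂ → ℂ} (c : Cls h g) {z : ℂ} (hz : z ∈ ball (0:ℂ) 1) :
    ‖deriv g z / deriv h z‖ < 1 := by
  rw [norm_div, div_lt_one (norm_pos_iff.2 (c.ne hz))]
  exact c.jac z hz

lemma Cls.om_le {h g : ℂ → ℂ} (c : Cls h g) (g0 : deriv g 0 = 0) {z : ℂ}
    (hz : z ∈ ball (0:ℂ) 1) : ‖deriv g z / deriv h z‖ ≤ ‖z‖ :=
  norm_le_norm_of_mapsTo_ball c.om_diff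
    (fun _ hw => mem_closedBall_zero_iff.2 (c.om_lt hw).le) (by simp [g0])
    (mem_ball_zero_iff.1 hz)

lemma Cls.PP_eq {h g : ℂ → ℂ} (c : Cls h g) {z : ℂ} (hz : z ∈ ball (0:ℂ) 1) :
    PP h g z = deriv (deriv h) z / deriv h z -
      conj (deriv g z / deriv h z) * deriv (fun z => deriv g z / deriv h z) z /
        ((1 - ‖deriv g z / deriv h z‖ ^ 2 : ℝ) : ℂ) := by
  have n := isOpen_ball.mem_nhds hz
  have a := ((c.dh.deriv isOpen_ball).differentiableAt n).hasDerivAt
  have b := ((c.dg.deriv isOpen_ball).differentiableAt n).hasDerivAt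
  have h0 := c.ne hz
  have h0' : conj (deriv h z) ≠ 0 := by simpa using h0
  have d := (b.fun_div a h0).deriv
  rw [d, PP]
  have j := c.jac z hz
  have p : (0:ℝ) < ‖deriv h z‖ ^ 2 - ‖deriv g z‖ ^ 2 := by
    nlinarith [norm_nonneg (deriv g z)]
  have e1 : ((‖deriv h z‖ ^ 2 - ‖deriv g z‖ ^ 2 : ℝ) : ℂ) =
      deriv h z * conj (deriv h z) - deriv g z * conj (deriv g z) := by
    rw [mul_conj, mul_conj, normSq_eq_norm_sq, normSq_eq_norm_sq]; push_cast; ring
  have e2 : ((1 - ‖deriv g z / deriv h z‖ ^ 2 : ℝ) : ℂ) =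
      (deriv h z * conj (deriv h z) - deriv g z * conj (deriv g z)) /
        (deriv h z * conj (deriv h z)) := by
    rw [mul_conj, mul_conj, normSq_eq_norm_sq, normSq_eq_norm_sq, norm_div]
    have : ((‖deriv h z‖ : ℝ) : ℂ) ≠ 0 := by simpa using h0
    push_cast; field_simp
  have p' : deriv h z * conj (deriv h z) - deriv g z * conj (deriv g z) ≠ 0 := by
    rw [← e1]; exact_mod_cast p.ne'
  rw [e1, e2, map_div₀]
  generalize hD : deriv h z * conj (deriv h z) - deriv g z * conj (deriv g z) = D at p' ⊢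
  field_simp
  rw [← hD]; ring

lemma db_cast (n : ℕ) : ((db (n + 6) : ℚ) : ℝ) = 11 / 2 / 11 ^ (n + 6) := by
  simp [db]

theorem ext {h g : ℂ → ℂ} {A : ℝ} (c : Cls h g) (h1 : deriv h 0 = 1) (g0 : deriv g 0 = 0)
    (h2 : deriv (deriv h) 0 = A) (hA : 13 ≤ A) (hQ : ∀ z ∈ ball (0:ℂ) 1, ‖QQ h g z‖ ≤ A) :
    False := by
  set ω : ℂ → ℂ := fun z => deriv g z / deriv h z with hω
  set σ : ℂ → ℂ := dslope ω 0 with hσ
  set p : ℂ → ℂ := fun z => deriv (deriv h) z / deriv h z with hp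
  have ω0 : ω 0 = 0 := by simp [hω, g0]
  have dσ : DifferentiableOn ℂ σ (ball 0 1) :=
    (differentiableOn_dslope (ball_mem_nhds 0 one_pos)).2 c.om_diff
  have σ1 : ∀ z ∈ ball (0:ℂ) 1, ‖σ z‖ ≤ 1 := fun z hz => by
    have := norm_dslope_le_div_of_mapsTo_ball (R₂ := 1) c.om_diff
      (fun w hw => by
        show ω w ∈ closedBall (ω 0) 1
        rw [ω0]; exact mem_closedBall_zero_iff.2 (c.om_lt hw).le) hz
    simpa using this
  have eω : ∀ z, ω z = z * σ z := fun z => by
    have := sub_smul_dslope ω 0 z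
    rw [ω0, sub_zero, sub_zero, smul_eq_mul] at this
    exact this.symm
  have dω : ∀ z ∈ ball (0:ℂ) 1, deriv ω z = σ z + z * deriv σ z := fun z hz => by
    have : ω = fun z => z * σ z := funext eω
    rw [this]
    have := ((hasDerivAt_id' z).fun_mul
      (dσ.differentiableAt (isOpen_ball.mem_nhds hz)).hasDerivAt).deriv
    rw [this, one_mul]
  have dp : DifferentiableOn ℂ p (ball 0 1) :=
    ((c.dh.deriv isOpen_ball).deriv isOpen_ball).div (c.dh.deriv isOpen_ball) fun _ hz => c.ne hz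
  have p0 : p 0 = A := by simp [hp, h1, h2]
  have bs := bessel dσ one_pos σ1 2
  simp only [sum_range_succ, sum_range_zero, co_zero, co_one, one_pow, mul_one, zero_add] at bs
  have lc := local_coef (an0 one_pos dp) (an0 one_pos dσ) p0 bs (by
    filter_upwards [ball_mem_nhds (0:ℂ) one_pos] with z hz
    have := (re_le_norm _).trans (hQ z hz)
    rw [QQ, c.PP_eq hz] at this
    rw [← dω z hz, ← eω z]
    exact this)
  have rep : ∀ z ∈ ball (0:ℂ) 1, (1 - ‖z‖ ^ 2) * (p z).re ≤ A + ‖z‖ + 2 * z.re := fun z hz => by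
    have a := (re_le_norm _).trans (hQ z hz)
    rw [QQ, c.PP_eq hz] at a
    have hz' := mem_ball_zero_iff.1 hz
    have sp := schwarz_pick c.om_diff (fun w hw => c.om_lt hw) hz'
    have q1 := one_sub_sq_pos (c.om_lt hz)
    have q2 := one_sub_sq_pos hz'
    have b : ‖((1 - ‖z‖ ^ 2 : ℝ) : ℂ) * (conj (ω z) * deriv ω z / ((1 - ‖ω z‖ ^ 2 : ℝ) : ℂ))‖ ≤
        ‖z‖ := by
      rw [norm_mul, norm_div, norm_mul, Complex.norm_real, Complex.norm_real,
        Real.norm_of_nonneg q1.le, Real.norm_of_nonneg q2.le, Complex.norm_conj, ← mul_div_assoc,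
        div_le_iff₀ q1]
      have := c.om_le g0 hz
      calc _ = ‖ω z‖ * ((1 - ‖z‖ ^ 2) * ‖deriv ω z‖) := by ring
        _ ≤ ‖z‖ * (1 - ‖ω z‖ ^ 2) := mul_le_mul this sp (by positivity) (norm_nonneg _)
    have b' := (re_le_norm _).trans b
    rw [mul_sub, sub_re, sub_re, re_ofReal_mul] at a
    have : (2 * conj z).re = 2 * z.re := by simp
    rw [this] at a
    have e : (((1 - ‖z‖ ^ 2 : ℝ) : ℂ) * (conj (deriv g z / deriv h z) *
      deriv (fun z => deriv g z / deriv h z) z / ((1 - ‖deriv g z / deriv h z‖ ^ 2 : ℝ) : ℂ))).re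
      ≤ ‖z‖ := b'
    show (1 - ‖z‖ ^ 2) * (deriv (deriv h) z / deriv h z).re ≤ _
    linarith
  have A0 : 0 < A := by linarith
  set s : ℝ := 1 / A with hs
  have s0 : 0 < s := by positivity
  have s1 : s ≤ 1 / 13 := one_div_le_one_div_of_le (by norm_num) hA
  have sA : s * A = 1 := by rw [hs]; field_simp
  have sA' : (A:ℂ) * s = 1 := by rw [mul_comm]; exact_mod_cast sA
  have mem : ∀ z ∈ ball (0:ℂ) 13, (s:ℂ) * z ∈ ball (0:ℂ) 1 := fun z hz => by
    rw [mem_ball_zero_iff] at hz ⊢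
    rw [norm_mul, Complex.norm_real, Real.norm_of_nonneg s0.le]
    nlinarith [norm_nonneg z]
  have cmp : ∀ F : ℂ → ℂ, DifferentiableOn ℂ F (ball 0 1) →
      DifferentiableOn ℂ (fun z => F (s * z)) (ball 0 13) := fun F hF =>
    hF.comp (by fun_prop) mem
  have der : ∀ F : ℂ → ℂ, deriv (fun z => (A:ℂ) * F (s * z)) = fun z => deriv F (s * z) := by
    intro F; funext z
    rw [deriv_const_mul_field, deriv_comp_mul_left, smul_eq_mul, ← mul_assoc, sA', one_mul]
  set δ : ℂ → ℂ := fun z => s * p (s * z) - 1 with hδ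
  have dδ : DifferentiableOn ℂ δ (ball 0 13) := ((cmp p dp).const_mul _).sub_const _
  have δ0 : δ 0 = 0 := by simp only [hδ, mul_zero, p0]; rw [mul_comm, sA']; simp
  have coδ : ∀ n, n ≠ 0 → co n δ = s ^ (n + 1) * co n p := fun n hn => by
    have a : AnalyticAt ℂ (fun z => (s:ℂ) * p (s * z)) 0 :=
      an0 (by norm_num) ((cmp p dp).const_mul _)
    have := co_add a (G := fun z => (-1) * z ^ 0) (by fun_prop) n
    rw [co_pow, if_neg hn, co_const_mul, co_scale] at this
    have e : δ = fun z => s * p (s * z) + (-1) * z ^ 0 := by funext z; simp [hδ]; ring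
    rw [e, this]; ring
  have car : ∀ (T : ℝ) (n : ℕ), 0 < T → T < 13 → 2 ≤ n →
      ‖co n δ‖ ≤ 2 * (T * (1 + T) / (169 - T ^ 2)) / T ^ n := fun T n T0 T1 hn => by
    have sT : s * T < 1 := by nlinarith
    have q : 0 < 1 - (s * T) ^ 2 := by nlinarith [mul_pos s0 T0]
    set k : ℝ := 2 * s ^ 2 / (1 - (s * T) ^ 2) with hk
    have := carath (F := fun z => δ z + (-k) * z ^ 1) (B := T * (1 + T) / (169 - T ^ 2))
      (dδ.add (by fun_prop)) T0 T1 (fun z hz => by
        have hz' : z ∈ ball (0:ℂ) 13 := mem_ball_zero_iff.2 (by linarith)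
        have r := rep _ (mem z hz')
        rw [norm_mul, Complex.norm_real, Real.norm_of_nonneg s0.le, hz, re_ofReal_mul] at r
        have e : (δ z + (-k) * z ^ 1).re = s * (p (s * z)).re - 1 - k * z.re := by
          simp only [hδ, pow_one, neg_mul, add_re, sub_re, neg_re, re_ofReal_mul, one_re]; ring
        rw [e]
        have kk : k * (1 - (s * T) ^ 2) = 2 * s ^ 2 := div_mul_cancel₀ _ q.ne'
        have q2 : 0 < 169 - T ^ 2 := by nlinarith
        have a1 : (1 - (s * T) ^ 2) * (s * (p (s * z)).re - 1 - k * z.re) ≤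
            s ^ 2 * (T * (1 + T)) := by
          have := mul_le_mul_of_nonneg_left r s0.le
          have e2 : (1 - (s * T) ^ 2) * (s * (p (s * z)).re - 1 - k * z.re) =
            s * ((1 - (s * T) ^ 2) * (p (s * z)).re) - (1 - (s * T) ^ 2) - 2 * s ^ 2 * z.re := by
            rw [← kk]; ring
          rw [e2]
          nlinarith
        have a2 : s ^ 2 * (T * (1 + T)) ≤ (1 - (s * T) ^ 2) * (T * (1 + T) / (169 - T ^ 2)) := by
          rw [← mul_div_assoc, le_div_iff₀ q2]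
          have : s ^ 2 * 169 ≤ 1 := by nlinarith
          have t : 0 ≤ T * (1 + T) := by positivity
          nlinarith [mul_nonneg t (sub_nonneg.2 this)]
        exact le_of_mul_le_mul_left (a1.trans a2) q) (n := n) (by omega)
    rw [co_add (an0 (by norm_num) dδ) (by fun_prop), co_pow, if_neg (by omega), add_zero] at this
    simp only [δ0, pow_one, mul_zero, add_zero, zero_re, sub_zero] at this
    rw [le_div_iff₀ (by positivity)]
    exact this
  refine core (H := fun z => (A:ℂ) * h (s * z)) (G := fun z => (A:ℂ) * g (s * z))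
    (σ := fun z => σ (s * z)) (δ := δ) (s := s) ((cmp h c.dh).const_mul _)
    ((cmp g c.dg).const_mul _) (cmp σ dσ) dδ ?_ ?_ ?_ s0.le s1 (fun z hz => σ1 _ (mem z hz)) ?_ ?_
  · intro z hz
    rw [der, deriv_comp_mul_left, smul_eq_mul]
    have := c.ne (mem z hz)
    simp only [hδ, hp]
    field_simp
    ring
  · rw [der]; simpa using h1
  · intro z hz
    rw [der, der]
    have := c.ne (mem z hz)
    rw [← eω]
    simp only [hω]
    field_simp
  · intro n
    have ns : ∀ m : ℕ, ‖(s:ℂ) ^ m‖ = s ^ m := fun m => by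
      rw [norm_pow, Complex.norm_real, Real.norm_of_nonneg s0.le]
    match n with
    | 0 => simp [co_zero, δ0, db]
    | 1 =>
      rw [coδ 1 (by norm_num), norm_mul, ns]
      have := lc.1
      have e : ((db 1 : ℚ) : ℝ) = 3 / 169 := by simp [db]
      rw [e]
      have : s ^ (1 + 1) ≤ 1 / 169 := by nlinarith
      nlinarith [norm_nonneg (co 1 p)]
    | 2 =>
      rw [coδ 2 (by norm_num), norm_mul, ns]
      have e : ((db 2 : ℚ) : ℝ) = 29 / 4394 := by simp [db]
      rw [e]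
      have a : s ^ (2 + 1) * ‖co 2 p‖ ≤ s ^ (2 + 1) * (A + 3 / 2) :=
        mul_le_mul_of_nonneg_left lc.2 (by positivity)
      have b : s ^ (2 + 1) * (A + 3 / 2) = s ^ 2 + 3 / 2 * s ^ 3 := by
        linear_combination s ^ 2 * sA
      have b2 : s ^ 2 ≤ (1 / 13) ^ 2 := pow_le_pow_left₀ s0.le s1 2
      have b3 : s ^ 3 ≤ (1 / 13) ^ 3 := pow_le_pow_left₀ s0.le s1 3
      linarith
    | 3 =>
      refine (car 8 3 (by norm_num) (by norm_num) (by norm_num)).trans (le_of_eq ?_)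
      simp [db]; norm_num
    | 4 =>
      refine (car 9 4 (by norm_num) (by norm_num) (by norm_num)).trans (le_of_eq ?_)
      simp [db]; norm_num
    | 5 =>
      refine (car 10 5 (by norm_num) (by norm_num) (by norm_num)).trans (le_of_eq ?_)
      simp [db]; norm_num
    | n + 6 =>
      refine (car 11 (n + 6) (by norm_num) (by norm_num) (by omega)).trans (le_of_eq ?_)
      rw [db_cast]; norm_num
  · intro z hz w hw e
    have A1 : (A:ℂ) ≠ 0 := by exact_mod_cast A0.ne'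
    have s2 : (s:ℂ) ≠ 0 := by exact_mod_cast s0.ne'
    simp only [map_mul, conj_ofReal, ← mul_add] at e
    exact mul_left_cancel₀ s2 (c.inj (mem z hz) (mem w hw) (mul_left_cancel₀ A1 e))

end Pool.Agent.Lib.MP_9dc04a_an
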