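import Pool.Agent.Lib.MP_9dc04a_an.Red

set_option autoImplicit false

namespace Pool.Agent.Lib.MP_9dc04a_an

open Complex Metric Finset Filter Topology
open scoped Real ComplexConjugate

lemma ray_der {F : ℂ → ℂ} (dF : DifferentiableOn ℂ F (ball 0 1)) {z : ℂ} {t : ℝ}
    (ht : (t:ℂ) * z ∈ ball (0:ℂ) 1) : HasDerivAt (fun t : ℝ => ‖F (t * z)‖ ^ 2)
      (2 * (z * (deriv F (t * z) * conj (F (t * z)))).re) t := by
  have a : HasDerivAt (fun w : ℂ => F (w * z)) (deriv F (t * z) * (1 * z)) t :=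
    HasDerivAt.comp (h₂ := F) (t:ℂ) (dF.differentiableAt (isOpen_ball.mem_nhds ht)).hasDerivAt
      ((hasDerivAt_id' (t:ℂ)).mul_const z)
  refine a.comp_ofReal.norm_sq.congr_deriv ?_
  rw [Complex.inner]
  congr 2
  ring

lemma jac_le {h g : ℂ → ℂ} (c : Cls h g) (h1 : deriv h 0 = 1) (g0 : deriv g 0 = 0) {z : ℂ}
    (hz : ‖z‖ < 1) :
    ‖deriv h z‖ ^ 2 - ‖deriv g z‖ ^ 2 ≤ (1 + ‖z‖) ^ 11 / (1 - ‖z‖) ^ 15 := by
  set r := ‖z‖ with hr
  have r0 : 0 ≤ r := norm_nonneg z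
  set J : ℝ → ℝ := fun t => ‖deriv h (t * z)‖ ^ 2 - ‖deriv g (t * z)‖ ^ 2 with hJ
  have nt : ∀ t ∈ Set.Icc (0:ℝ) 1, ‖(t:ℂ) * z‖ = t * r := fun t ht => by
    rw [norm_mul, Complex.norm_real, Real.norm_of_nonneg ht.1]
  have lt : ∀ t ∈ Set.Icc (0:ℝ) 1, t * r < 1 := fun t ht => by nlinarith [ht.1, ht.2]
  have m : ∀ t ∈ Set.Icc (0:ℝ) 1, (t:ℂ) * z ∈ ball (0:ℂ) 1 := fun t ht => by
    rw [mem_ball_zero_iff, nt t ht]; exact lt t ht
  have d : ∀ t ∈ Set.Icc (0:ℝ) 1, HasDerivAt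
      (fun t => Real.log (J t) - 11 * Real.log (1 + t * r) + 15 * Real.log (1 - t * r))
      (2 * (z * PP h g (t * z)).re - 11 * (r / (1 + t * r)) + 15 * (-r / (1 - t * r))) t :=
    fun t ht => by
      have p := c.pos (m t ht)
      have a := ((ray_der (c.dh.deriv isOpen_ball) (m t ht)).fun_sub
        (ray_der (c.dg.deriv isOpen_ball) (m t ht))).log p.ne'
      have tr : 0 ≤ t * r := mul_nonneg ht.1 r0
      have b1 : HasDerivAt (fun t : ℝ => 1 + t * r) r t := by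
        simpa using ((hasDerivAt_id' t).mul_const r).const_add 1
      have b2 : HasDerivAt (fun t : ℝ => 1 - t * r) (-r) t := by
        simpa using ((hasDerivAt_id' t).mul_const r).const_sub 1
      refine ((a.fun_sub ((b1.log (by positivity)).const_mul 11)).fun_add
        ((b2.log (by linarith [lt t ht])).const_mul 15)).congr_deriv ?_
      congr 2
      rw [PP, ← mul_div_assoc, div_ofReal_re, mul_sub, sub_re]
      ring
  have an := antitoneOn_of_deriv_nonpos (convex_Icc (0:ℝ) 1)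
    (fun t ht => (d t ht).continuousAt.continuousWithinAt)
    (fun t ht => (d t (interior_subset ht)).differentiableAt.differentiableWithinAt)
    (fun t ht => by
      have ht := interior_subset ht
      rw [(d t ht).deriv]
      have q := thmA c (m t ht)
      have tr : 0 ≤ t * r := mul_nonneg ht.1 r0
      have l := lt t ht
      have a : (z * QQ h g (t * z)).re ≤ r * 13 := (re_le_norm _).trans (by
        rw [norm_mul]; exact mul_le_mul_of_nonneg_left q r0)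
      have e : z * QQ h g (t * z) =
          ((1 - (t * r) ^ 2 : ℝ) : ℂ) * (z * PP h g (t * z)) - ((2 * t * r ^ 2 : ℝ) : ℂ) := by
        rw [QQ, nt t ht, map_mul, conj_ofReal, hr, ← normSq_eq_norm_sq z, ofReal_mul (2 * t),
          ← mul_conj]
        push_cast; ring
      rw [e, sub_re, re_ofReal_mul, ofReal_re] at a
      have p : 0 < 1 - (t * r) ^ 2 := by nlinarith
      have k : 11 * (r / (1 + t * r)) - 15 * (-r / (1 - t * r)) =
          (26 * r + 4 * t * r ^ 2) / (1 - (t * r) ^ 2) := by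
        have : 1 - t * r ≠ 0 := by linarith
        have : 1 + t * r ≠ 0 := by linarith
        rw [show 1 - (t * r) ^ 2 = (1 + t * r) * (1 - t * r) by ring,
          show 26 * r + 4 * t * r ^ 2 = 11 * r * (1 - t * r) + 15 * r * (1 + t * r) by ring]
        generalize 1 - t * r = X at *
        generalize 1 + t * r = Y at *
        field_simp; ring
      have : 2 * (z * PP h g (t * z)).re ≤ (26 * r + 4 * t * r ^ 2) / (1 - (t * r) ^ 2) := by
        rw [le_div_iff₀ p]; linarith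
      linarith)
  have := an (Set.left_mem_Icc.2 zero_le_one) (Set.right_mem_Icc.2 zero_le_one) zero_le_one
  simp only [hJ, ofReal_one, one_mul, ofReal_zero, zero_mul, h1, g0, norm_one, norm_zero] at this
  have p := c.pos (mem_ball_zero_iff.2 hz)
  have p1 : 0 < 1 - r := by linarith
  rw [← Real.log_le_log_iff p (by positivity), Real.log_div (by positivity) (by positivity),
    Real.log_pow, Real.log_pow]
  norm_num at this ⊢
  linarith

lemma dg_le {h g : ℂ → ℂ} (c : Cls h g) (g0 : deriv g 0 = 0) {z : ℂ} (hz : ‖z‖ < 1) :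
    ‖deriv g z‖ ≤ ‖z‖ * ‖deriv h z‖ := by
  have := c.om_le g0 (mem_ball_zero_iff.2 hz)
  rwa [norm_div, div_le_iff₀ (norm_pos_iff.2 (c.ne (mem_ball_zero_iff.2 hz)))] at this

lemma dh_le {h g : ℂ → ℂ} (c : Cls h g) (h1 : deriv h 0 = 1) (g0 : deriv g 0 = 0) {z : ℂ}
    (hz : ‖z‖ < 1) : ‖deriv h z‖ ≤ (1 + ‖z‖) ^ 5 / (1 - ‖z‖) ^ 8 := by
  have a := jac_le c h1 g0 hz
  have b := pow_le_pow_left₀ (norm_nonneg _) (dg_le c g0 hz) 2
  have r0 := norm_nonneg z
  have p1 : 0 < 1 - ‖z‖ := by linarith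
  have p := one_sub_sq_pos hz
  refine le_of_pow_le_pow_left₀ two_ne_zero (by positivity) ?_
  refine le_of_mul_le_mul_left ?_ p
  have e : (1 - ‖z‖ ^ 2) * ((1 + ‖z‖) ^ 5 / (1 - ‖z‖) ^ 8) ^ 2 =
      (1 + ‖z‖) ^ 11 / (1 - ‖z‖) ^ 15 := by
    field_simp; ring
  rw [e]
  nlinarith

lemma cauchy {F : ℂ → ℂ} (dF : DifferentiableOn ℂ F (ball 0 1)) {r C : ℝ} (r0 : 0 < r)
    (r1 : r < 1) (hC : ∀ z : ℂ, ‖z‖ = r → ‖F z‖ ≤ C) (n : ℕ) : ‖co n F‖ ≤ C / r ^ n := by
  have := norm_iteratedDeriv_le_of_forall_mem_sphere_norm_le (f := F) (c := 0) (C := C) n r0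
    ((dF.mono (by rw [closure_ball _ r0.ne']; exact closedBall_subset_ball r1)).diffContOnCl)
    (fun z hz => hC z (by simpa using hz))
  rw [co, norm_div, Complex.norm_natCast, div_le_iff₀ (by positivity)]
  rw [mul_div_assoc, mul_comm] at this
  exact this

lemma num_le (m : ℕ) (hm : 2 ≤ m) : ∃ r : ℝ, 0 < r ∧ r < 1 ∧
    (1 + r) ^ 5 / (1 - r) ^ 8 / r ^ m ≤ ((m:ℝ) + 1) ^ 8 / 19 := by
  have m0 : (0:ℝ) < m := by exact_mod_cast (by omega : 0 < m)
  rcases le_or_gt m 20 with h | h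
  · refine ⟨m / (m + 12), by positivity, by rw [div_lt_one (by positivity)]; linarith, ?_⟩
    interval_cases m <;> norm_num
  · have h' : (21:ℝ) ≤ m := by exact_mod_cast h
    have r1 : (m:ℝ) / (m + 8) < 1 := by rw [div_lt_one (by positivity)]; linarith
    refine ⟨m / (m + 8), by positivity, r1, ?_⟩
    have a : (1 + (m:ℝ) / (m + 8)) ^ 5 ≤ 2 ^ 5 := pow_le_pow_left₀ (by positivity) (by linarith) 5
    have b : (1 + 8 / (m:ℝ)) ^ m ≤ 2981 := by
      have b1 : (1 + 8 / (m:ℝ)) ^ m ≤ Real.exp (8 / m) ^ m :=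
        pow_le_pow_left₀ (by positivity) (by linarith [Real.add_one_le_exp (8 / (m:ℝ))]) m
      rw [← Real.exp_nat_mul, mul_div_cancel₀ _ m0.ne'] at b1
      have b2 : Real.exp 8 = Real.exp 1 ^ 8 := by rw [← Real.exp_nat_mul]; norm_num
      have b3 := pow_le_pow_left₀ (Real.exp_pos 1).le Real.exp_one_lt_d9.le 8
      refine b1.trans (b2 ▸ b3.trans (by norm_num))
    have e : (1 + (m:ℝ) / (m + 8)) ^ 5 / (1 - (m:ℝ) / (m + 8)) ^ 8 / ((m:ℝ) / (m + 8)) ^ m =
        (1 + (m:ℝ) / (m + 8)) ^ 5 * (1 + 8 / (m:ℝ)) ^ m * ((m + 8) / 8) ^ 8 := by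
      have e1 : 1 - (m:ℝ) / (m + 8) = (((m:ℝ) + 8) / 8)⁻¹ := by field_simp; ring
      have e2 : (m:ℝ) / (m + 8) = (1 + 8 / (m:ℝ))⁻¹ := by field_simp
      rw [e1, inv_pow, div_inv_eq_mul]
      conv_lhs => rw [div_eq_mul_inv, ← inv_pow, e2, inv_inv, ← e2]
      ring
    have d : (((m:ℝ) + 8) / 8) ^ 8 ≤ ((m + 1) * (29 / 176)) ^ 8 :=
      pow_le_pow_left₀ (by positivity) (by linarith) 8
    rw [e]
    calc _ ≤ 2 ^ 5 * 2981 * (((m:ℝ) + 1) * (29 / 176)) ^ 8 := by gcongr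
      _ ≤ _ := by
        rw [mul_pow]
        have : 0 ≤ ((m:ℝ) + 1) ^ 8 := by positivity
        linarith

theorem final {h g : ℂ → ℂ} (c : Cls h g) (h1 : deriv h 0 = 1) (g0 : deriv g 0 = 0) :
    ‖co 2 h‖ ≤ 13 / 2 ∧ ∀ n : ℕ, 3 ≤ n →
      ‖co n h‖ ≤ (n:ℝ) ^ 7 / 19 ∧ ‖co n g‖ ≤ ((n:ℝ) - 1) ^ 7 / 10 := by
  have cd : ∀ (F : ℂ → ℂ) (n : ℕ), ‖co n (deriv F)‖ = (n + 1) * ‖co (n + 1) F‖ := fun F n => by
    rw [co_deriv, norm_mul]
    congr 1
    exact_mod_cast Complex.norm_natCast (n + 1)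
  have ch : ∀ r : ℝ, 0 < r → r < 1 → ∀ n : ℕ,
      (n + 1) * ‖co (n + 1) h‖ ≤ (1 + r) ^ 5 / (1 - r) ^ 8 / r ^ n := fun r r0 r1 n => by
    rw [← cd]
    exact cauchy (c.dh.deriv isOpen_ball) r0 r1
      (fun z hz => by rw [← hz]; exact dh_le c h1 g0 (by linarith)) n
  have cg : ∀ r : ℝ, 0 < r → r < 1 → ∀ n : ℕ,
      (n + 2) * ‖co (n + 2) g‖ ≤ (1 + r) ^ 5 / (1 - r) ^ 8 / r ^ n := fun r r0 r1 n => by
    have := cauchy (C := r * ((1 + r) ^ 5 / (1 - r) ^ 8)) (c.dg.deriv isOpen_ball) r0 r1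
      (fun z hz => by
        rw [← hz]
        exact (dg_le c g0 (by linarith)).trans
          (mul_le_mul_of_nonneg_left (dh_le c h1 g0 (by linarith)) (norm_nonneg _))) (n + 1)
    rw [cd, pow_succ' r n, mul_div_mul_left _ _ r0.ne'] at this
    push_cast at this
    rwa [add_assoc, one_add_one_eq_two] at this
  refine ⟨?_, fun n hn => ⟨?_, ?_⟩⟩
  · have a := thmA c (z := 0) (by simp)
    have b := cd h 1
    rw [co_one] at b
    simp [QQ, PP, h1, g0] at a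
    norm_num at b
    linarith
  · obtain ⟨m, rfl⟩ : ∃ m, n = m + 1 := ⟨n - 1, by omega⟩
    obtain ⟨r, r0, r1, hr⟩ := num_le m (by omega)
    have := (ch r r0 r1 m).trans hr
    push_cast
    refine le_of_mul_le_mul_left (this.trans (le_of_eq ?_)) (by positivity : (0:ℝ) < m + 1)
    ring
  · obtain ⟨m, rfl⟩ : ∃ m, n = m + 2 := ⟨n - 2, by omega⟩
    rcases (by omega : m = 1 ∨ 2 ≤ m) with rfl | hm
    · have := cg (1 / 13) (by norm_num) (by norm_num) 1
      norm_num at this ⊢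
      linarith
    · obtain ⟨r, r0, r1, hr⟩ := num_le m hm
      have := (cg r r0 r1 m).trans hr
      push_cast
      refine le_of_mul_le_mul_left (this.trans ?_) (by positivity : (0:ℝ) < m + 2)
      rw [show (m:ℝ) + 2 - 1 = m + 1 by ring, pow_succ]
      have : 0 ≤ ((m:ℝ) + 1) ^ 7 := by positivity
      have : (0:ℝ) ≤ m := by positivity
      nlinarith

end Pool.Agent.Lib.MP_9dc04a_an
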