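import Pool.Agent.Lib.MP_9dc04a_an.WkFin

set_option autoImplicit false

namespace Pool.Agent.Lib.MP_9dc04a_an

open Complex Metric Set Filter Topology
open scoped Real ComplexConjugate

lemma hy_montel {ι : Type} (𝒰 : Ultrafilter ι) {U : Set ℂ} (hU : IsOpen U) {F : ι → ℂ → ℂ} {M : ℝ}
    (h : ∀ᶠ i in 𝒰, DifferentiableOn ℂ (F i) U ∧ ∀ z ∈ U, ‖F i z‖ ≤ M) :
    ∃ g : ℂ → ℂ, TendstoLocallyUniformlyOn F g 𝒰 U := by
  have h1 : ∀ z, ∃ y, z ∈ U → Tendsto (fun i => F i z) 𝒰 (𝓝 y) := fun z => by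
    by_cases hz : z ∈ U
    · obtain ⟨y, -, hy⟩ := (isCompact_closedBall (0:ℂ) M).ultrafilter_le_nhds'
        (𝒰.map fun i => F i z) (Ultrafilter.mem_map.2 (h.mono fun i hi => by simpa using hi.2 z hz))
      exact ⟨y, fun _ => hy⟩
    · exact ⟨0, fun h => absurd h hz⟩
  choose g hg using h1
  refine ⟨g, Metric.tendstoLocallyUniformlyOn_iff.2 fun ε ε0 x hx => ?_⟩
  obtain ⟨R, R0, hR⟩ := Metric.isOpen_iff.1 hU x hx
  have M0 : 0 ≤ M := let ⟨i, hi⟩ := h.exists; (norm_nonneg _).trans (hi.2 x hx)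
  set L := 2 * M / R with hL
  have L0 : 0 ≤ L := by positivity
  have l1 : ∀ᶠ i in 𝒰, ∀ z ∈ ball x R, dist (F i z) (F i x) ≤ L * dist z x := h.mono
    fun i hi z hz => dist_le_div_mul_dist_of_mapsTo_ball (hi.1.mono hR) (fun w hw => by
      rw [mem_closedBall, dist_eq_norm]
      linarith [norm_sub_le (F i w) (F i x), hi.2 w (hR hw), hi.2 x hx]) hz
  refine ⟨ball x (min R (ε / 3 / (L + 1))), nhdsWithin_le_nhds
    (ball_mem_nhds x (lt_min R0 (by positivity))), ?_⟩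
  filter_upwards [l1, (hg x hx).eventually (ball_mem_nhds _ (show 0 < ε / 3 by positivity))]
    with i h1 h2 y hy
  obtain ⟨y1, y2⟩ := lt_min_iff.1 (mem_ball.1 hy)
  have a1 : dist (g y) (g x) ≤ L * dist y x :=
    le_of_tendsto ((hg y (hR y1)).dist (hg x hx)) (l1.mono fun i hi => hi y y1)
  rw [lt_div_iff₀ (by positivity)] at y2
  linarith [dist_triangle4 (g y) (g x) (F i x) (F i y), dist_comm (F i x) (F i y), h1 y y1,
    dist_comm (g x) (F i x), mem_ball.1 h2, dist_nonneg (x := y) (y := x)]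

lemma hy_const {Q : ℂ → ℂ} {Ω : Set ℂ} (o : IsOpen Ω) (c : IsPreconnected Ω)
    (dQ : DifferentiableOn ℂ Q Ω) {x₀ : ℝ} (hx : (x₀:ℂ) ∈ Ω) {d : ℝ} {κ : ℝ → ℝ}
    (h : ∀ᶠ x : ℝ in 𝓝 x₀, ‖Q x‖ = d ∧ κ x ≠ 0 ∧ ‖κ x * deriv Q x + 6 * Q x‖ ≤ 6 * ‖Q x‖) :
    ∀ z ∈ Ω, Q z = Q x₀ := by
  have e : ∀ᶠ x : ℝ in 𝓝 x₀, deriv Q x = 0 := by
    filter_upwards [h.eventually_nhds, continuous_ofReal.continuousAt.eventually (o.mem_nhds hx)]
      with x h1 h2
    have a1 := ((dQ.differentiableAt (o.mem_nhds h2)).hasDerivAt.comp_ofReal).norm_sq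
    have a2 := a1.unique ((hasDerivAt_const x (d ^ 2)).congr_of_eventuallyEq
      (h1.mono fun t ht => by simp only [ht.1]))
    obtain ⟨-, k0, a3⟩ := h1.self_of_nhds
    have a4 := pow_le_pow_left₀ (norm_nonneg _) a3 2
    rw [← real_smul, show (6:ℂ) * Q x = (6:ℝ) • Q x by simp, norm_add_sq_real, inner_smul_left,
      inner_smul_right, real_inner_comm, norm_smul, norm_smul, Real.norm_ofNat] at a4
    simp only [conj_trivial, Real.norm_eq_abs] at a4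
    have a5 : (|κ x| * ‖deriv Q x‖) ^ 2 ≤ 0 := by linear_combination a4 - 6 * κ x * a2
    simpa [k0] using a5
  have t : Tendsto ofReal (𝓝[≠] x₀) (𝓝[≠] (x₀:ℂ)) :=
    continuous_ofReal.continuousWithinAt.tendsto_nhdsWithin fun x hx => by simpa using hx
  have := ((dQ.analyticOnNhd o).deriv).eqOn_zero_of_preconnected_of_frequently_eq_zero c hx
    (t.frequently (e.filter_mono nhdsWithin_le_nhds).frequently)
  exact fun z hz => o.is_const_of_deriv_eq_zero c dQ this hz hx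

noncomputable def hyP (G : ℂ → ℂ) (z : ℂ) : ℂ := (1 - z) ^ 4 * G z

lemma hy_one : Tendsto (fun s : ℝ => 1 - s) (𝓝[>] 0) (𝓝[<] 1) :=
  tendsto_nhdsWithin_iff.2 ⟨(show ContinuousAt (fun s : ℝ => 1 - s) 0 by fun_prop).tendsto.mono_left
    nhdsWithin_le_nhds |>.trans (by simp), eventually_mem_nhdsWithin.mono fun s hs => by
      simpa using hs⟩

lemma hy_nP (G : ℂ → ℂ) {t : ℝ} : ‖hyP G t‖ = (1 - t) ^ 4 * ‖G t‖ := by
  rw [hyP, norm_mul, norm_pow, ← ofReal_one, ← ofReal_sub, Complex.norm_real, Real.norm_eq_abs,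
    Even.pow_abs (by decide)]

lemma QG.lim {G : ℂ → ℂ} (q : QG G) : ∃ d : ℝ, Tendsto (fun s : ℝ => ‖hyP G (1 - s)‖) (𝓝[>] 0) (𝓝 d) ∧
    ∀ t ∈ Ioo (0:ℝ) 1, d / 4 ≤ (1 - t) ^ 4 / (1 + t) ^ 2 * ‖G t‖ := by
  have a := (q.anti (e := 1) norm_one).mono Ioo_subset_Ico_self
  simp only [mul_one] at a
  have b : BddBelow ((fun t : ℝ => (1 - t) ^ 4 / (1 + t) ^ 2 * ‖G t‖) '' Ioo 0 1) :=
    ⟨0, by rintro _ ⟨t, -, rfl⟩; positivity⟩
  have l := (a.tendsto_nhdsWithin_Ioo_left ⟨1 / 2, by norm_num⟩ b).comp hy_one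
  have m : Tendsto (fun s : ℝ => (1 + (1 - s)) ^ 2) (𝓝[>] 0) (𝓝 4) :=
    ((show ContinuousAt (fun s : ℝ => (1 + (1 - s)) ^ 2) 0 by fun_prop).tendsto.mono_left
      nhdsWithin_le_nhds).trans (by norm_num)
  refine ⟨_, (l.mul m).congr' ?_, fun t ht => ?_⟩
  · filter_upwards [Ioo_mem_nhdsGT one_pos] with s hs
    have : 1 + (1 - s) ≠ 0 := by linarith [hs.2]
    rw [← ofReal_one, ← ofReal_sub, hy_nP, Function.comp]
    field_simp
  · rw [mul_div_cancel_right₀ _ four_ne_zero]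
    exact csInf_le b (mem_image_of_mem _ ht)

lemma hy_in {R s : ℝ} {ζ : ℂ} (R1 : 1 ≤ R) (h1 : 1 / R ≤ ζ.re) (h2 : ‖ζ‖ ≤ R) (s0 : 0 < s)
    (s1 : s * R ^ 3 ≤ 1) : ‖1 - s * ζ‖ ≤ 1 - s / (2 * R) := by
  have R0 : 0 < R := by linarith
  set u := s / (2 * R) with hu
  have e : s = 2 * R * u := by rw [hu]; field_simp
  have u0 : 0 < u := by positivity
  have R3 : 1 ≤ R ^ 3 := one_le_pow₀ R1
  rw [div_le_iff₀ R0] at h1
  refine le_of_pow_le_pow_left₀ two_ne_zero (by nlinarith) ?_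
  have a := pow_le_pow_left₀ (norm_nonneg _) h2 2
  rw [Complex.sq_norm, normSq_apply] at a ⊢
  simp only [sub_re, one_re, re_ofReal_mul, sub_im, one_im, im_ofReal_mul]
  have b1 := mul_le_mul_of_nonneg_left a (sq_nonneg s)
  have b2 := mul_le_mul_of_nonneg_left s1 u0.le
  have b3 := mul_le_mul_of_nonneg_left h1 u0.le
  rw [e] at b1 b2 ⊢
  nlinarith [sq_nonneg u]

lemma hy_small (R : ℝ) : ∀ᶠ s : ℝ in 𝓝[>] 0, 0 < s ∧ s * R ≤ 1 :=
  eventually_mem_nhdsWithin.and (nhdsWithin_le_nhds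
    ((show ContinuousAt (fun s : ℝ => s * R) 0 by fun_prop).eventually (ge_mem_nhds (by simp))))

lemma QG.dP {G : ℂ → ℂ} (q : QG G) {z : ℂ} (hz : ‖z‖ < 1) :
    HasDerivAt (hyP G) ((1 - z) ^ 4 * deriv G z - 4 * (1 - z) ^ 3 * G z) z :=
  ((((hasDerivAt_id' z).const_sub 1).fun_pow 4).mul (wi_at q.d hz)).congr_deriv (by
    norm_num; ring)

theorem QG.blow {G : ℂ → ℂ} (q : QG G) (G0 : ‖G 0‖ ≤ 1) {R ε : ℝ} (R1 : 1 ≤ R) (ε0 : 0 < ε) :
    ∀ᶠ s : ℝ in 𝓝[>] 0, ∀ ζ : ℂ, 1 / R ≤ ζ.re → ‖ζ‖ ≤ R →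
      ‖hyP G (1 - s * ζ) - hyP G (1 - s)‖ ≤ ε := by
  refine mem_iff_ultrafilter.2 fun 𝒰 hU => ?_
  obtain ⟨d, hd, -⟩ := q.lim
  set Ω : Set ℂ := {ζ | 1 / (2 * R) < ζ.re} ∩ ball 0 (2 * R) with hΩ
  have o : IsOpen Ω := (isOpen_lt continuous_const continuous_re).inter isOpen_ball
  have R0 : 0 < R := by linarith
  have sm := (hy_small ((2 * R) ^ 3)).filter_mono hU
  have b : ∀ s : ℝ, 0 < s ∧ s * (2 * R) ^ 3 ≤ 1 → ∀ ζ ∈ Ω, ‖1 - s * ζ‖ ≤ 1 - s / (2 * (2 * R)) :=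
    fun s hs ζ h => hy_in (by linarith) h.1.le (mem_ball_zero_iff.1 h.2).le hs.1 hs.2
  have dQ : ∀ s : ℝ, 0 < s ∧ s * (2 * R) ^ 3 ≤ 1 → ∀ ζ ∈ Ω, ‖1 - s * ζ‖ < 1 := fun s hs ζ h =>
    (b s hs ζ h).trans_lt (sub_lt_self _ (by have := hs.1; positivity))
  have d1 := fun (s : ℝ) hs ζ h => (q.dP (dQ s hs ζ h)).comp ζ
    (((hasDerivAt_id' ζ).const_mul (s:ℂ)).const_sub 1)
  have dd : ∀ᶠ s : ℝ in 𝒰, DifferentiableOn ℂ (fun ζ => hyP G (1 - s * ζ)) Ω :=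
    sm.mono fun s hs ζ h => (d1 s hs ζ h).differentiableAt.differentiableWithinAt
  obtain ⟨Q, hQ⟩ := hy_montel 𝒰 o (F := fun s ζ => hyP G (1 - s * ζ))
    (M := (2 * R) ^ 4 * (4 * (2 * (2 * R)) ^ 4)) ((dd.and sm).mono fun s ⟨h0, hs⟩ => ⟨h0, fun ζ h => by
      have s0 := hs.1
      have a1 := (q.dist' G0 (dQ s hs ζ h)).trans (div_le_div_of_nonneg_left (by norm_num)
        (by positivity) (pow_le_pow_left₀ (by positivity) (le_sub_comm.1 (b s hs ζ h)) 4))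
      rw [hyP, sub_sub_cancel, norm_mul, norm_pow, norm_mul, Complex.norm_real,
        Real.norm_of_nonneg s0.le]
      refine (mul_le_mul (pow_le_pow_left₀ (by positivity) (mul_le_mul_of_nonneg_left
        (mem_ball_zero_iff.1 h.2).le s0.le) 4) a1 (norm_nonneg _) (by positivity)).trans
        (le_of_eq ?_)
      field_simp⟩)
  have KΩ : ∀ ζ : ℂ, 1 / R ≤ ζ.re → ‖ζ‖ ≤ R → ζ ∈ Ω := fun ζ h1 h2 =>
    ⟨(one_div_lt_one_div_of_lt R0 (by linarith)).trans_le h1, mem_ball_zero_iff.2 (by linarith)⟩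
  have R2 : 1 / R ≤ 1 := by rwa [div_le_one R0]
  have m1 : ((1:ℝ):ℂ) ∈ Ω := KΩ _ R2 (by simpa using R1)
  have cQ := hy_const o ((convex_halfSpace_re_gt _).inter (convex_ball _ _)).isPreconnected
    (hQ.differentiableOn dd o) m1 (d := d) (κ := fun x => -2 * x) (by
      filter_upwards [continuous_ofReal.continuousAt.eventually (o.mem_nhds m1),
        lt_mem_nhds one_pos] with x hx x0
      have t0 := hQ.tendsto_at hx
      have t1 := (hQ.deriv dd o).tendsto_at hx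
      have t2 : Tendsto (fun s : ℝ => (s:ℂ)) 𝒰 (𝓝 0) :=
        (continuous_ofReal.tendsto' 0 0 rfl).mono_left (hU.trans nhdsWithin_le_nhds)
      refine ⟨tendsto_nhds_unique t0.norm ?_, by linarith, ?_⟩
      · have : Tendsto (fun s : ℝ => s * x) (𝓝[>] 0) (𝓝[>] 0) := tendsto_nhdsWithin_iff.2
          ⟨(Continuous.tendsto' (by fun_prop) 0 0 (by simp)).mono_left nhdsWithin_le_nhds,
            eventually_mem_nhdsWithin.mono fun s hs => mul_pos hs x0⟩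
        simpa [Function.comp_def] using (hd.comp this).mono_left hU
      · have t3 := ((((t2.mul_const (x:ℂ)).const_sub 2).const_mul (-x:ℂ)).mul t1).add
          ((((t2.mul_const (x:ℂ)).const_mul 2).const_sub 6).mul t0)
        refine le_of_eq_of_le (by congr 1; push_cast; ring)
          (le_of_tendsto_of_tendsto t3.norm (t0.norm.const_mul 6) (sm.mono fun s hs => ?_))
        have a1 := dQ s hs x hx
        have a2 := mul_le_mul_of_nonneg_left (q.o _ a1) (norm_nonneg (((s:ℂ) * x) ^ 4))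
        have a3 : deriv (fun ζ => hyP G (1 - s * ζ)) x = _ := (d1 s hs x hx).deriv
        simp only [Function.comp, a3]
        rw [← norm_mul, mul_left_comm, ← norm_mul] at a2
        rw [hyP, sub_sub_cancel]
        refine le_of_eq_of_le ?_ a2
        congr 1
        rw [← ofReal_mul, ← ofReal_one, ← ofReal_sub, conj_ofReal, Complex.norm_real,
          Real.norm_eq_abs, sq_abs]
        push_cast
        ring)
  have cp : IsCompact ({ζ : ℂ | 1 / R ≤ ζ.re} ∩ closedBall 0 R) :=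
    (isCompact_closedBall _ _).inter_left (isClosed_le continuous_const continuous_re)
  filter_upwards [Metric.tendstoUniformlyOn_iff.1 ((tendstoLocallyUniformlyOn_iff_forall_isCompact
    o).1 hQ _ (fun ζ h => KΩ ζ h.1 (mem_closedBall_zero_iff.1 h.2)) cp) _ (half_pos ε0)]
    with s hs ζ h1 h2
  have a1 := hs ζ ⟨h1, mem_closedBall_zero_iff.2 h2⟩
  have a2 := hs (1:ℝ) ⟨R2, by simpa using R1⟩
  rw [cQ ζ (KΩ ζ h1 h2)] at a1
  simp only [ofReal_one, mul_one] at a1 a2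
  rw [← dist_eq_norm]
  linarith [dist_triangle_left (hyP G (1 - s * ζ)) (hyP G (1 - s)) (Q 1)]

end Pool.Agent.Lib.MP_9dc04a_an
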