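import Pool.Agent.Lib.MP_9dc04a_an.HyRay

set_option autoImplicit false

namespace Pool.Agent.Lib.MP_9dc04a_an

open Complex Metric Set Filter Topology MeasureTheory
open scoped Real ComplexConjugate

variable {G : ℂ → ℂ}

lemma hc_re {s : ℝ} (s1 : s ≤ 1) (θ : ℝ) : s ≤ (1 - circleMap 0 (1 - s) θ).re := by
  have := re_le_norm (circleMap 0 (1 - s) θ)
  rw [norm_circleMap_zero, abs_of_nonneg (by linarith)] at this
  rw [sub_re, one_re]
  linarith

lemma hc_up {s : ℝ} (s0 : 0 ≤ s) (s1 : s ≤ 1) (θ : ℝ) : ‖1 - circleMap 0 (1 - s) θ‖ ≤ s + |θ| := by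
  have a := Real.norm_exp_I_mul_ofReal_sub_one_le (x := θ)
  rw [show 1 - circleMap 0 (1 - s) θ = s - (1 - s : ℝ) * (exp (I * θ) - 1) by
    rw [circleMap_zero, mul_comm I]; push_cast; ring]
  refine (norm_sub_le _ _).trans (add_le_add (by simp [abs_of_nonneg s0]) ?_)
  rw [norm_mul, Complex.norm_real, Real.norm_of_nonneg (by linarith)]
  exact (mul_le_of_le_one_left (norm_nonneg _) (by linarith)).trans a

lemma hc_lo {s θ : ℝ} (s1 : s ≤ 1 / 2) (h : |θ| ≤ π) : |θ| ≤ 3 * ‖1 - circleMap 0 (1 - s) θ‖ := by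
  refine le_of_pow_le_pow_left₀ two_ne_zero (by positivity) ?_
  have a := Real.cos_le_one_sub_mul_cos_sq h
  have b : 1 / 9 * θ ^ 2 ≤ 2 / π ^ 2 * θ ^ 2 := mul_le_mul_of_nonneg_right (by
    rw [le_div_iff₀ (by positivity)]; nlinarith [Real.pi_le_four, Real.pi_pos]) (sq_nonneg θ)
  rw [sq_abs, mul_pow, Complex.sq_norm, normSq_apply, circleMap_zero]
  simp only [sub_re, one_re, re_ofReal_mul, exp_ofReal_mul_I_re, sub_im, one_im, im_ofReal_mul,
    exp_ofReal_mul_I_im]
  nlinarith [Real.sin_sq_add_cos_sq θ, sq_nonneg s, sq_nonneg θ, mul_nonneg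
    (show 0 ≤ 1 / 2 - s by linarith) (sub_nonneg.2 (Real.cos_le_one θ))]

lemma QG.blow' (q : QG G) (G0 : ‖G 0‖ ≤ 1) {L ε : ℝ} (L0 : 0 ≤ L) (ε0 : 0 < ε) :
    ∀ᶠ s : ℝ in 𝓝[>] 0, ∀ θ : ℝ, |θ| ≤ L * s →
      ‖hyP G (circleMap 0 (1 - s) θ) - hyP G (1 - s)‖ ≤ ε := by
  filter_upwards [q.blow G0 (show 1 ≤ L + 1 by linarith) ε0, hy_small 1] with s hs ⟨s0, s1⟩ θ hθ
  rw [mul_one] at s1
  have := hs ((1 - circleMap 0 (1 - s) θ) / s) (by
    rw [div_ofReal_re]
    exact ((div_le_one (by linarith)).2 (by linarith)).trans ((one_le_div s0).2 (hc_re s1 θ))) (by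
    rw [norm_div, Complex.norm_real, Real.norm_of_nonneg s0.le, div_le_iff₀ s0]
    linarith [hc_up s0.le s1 θ])
  rwa [mul_div_cancel₀ _ (ofReal_ne_zero.2 s0.ne'), sub_sub_cancel] at this

lemma QG.mono (q : QG G) {s t : ℝ} (s0 : 0 < s) (st : s ≤ t) (t1 : t ≤ 1) (θ : ℝ) :
    s ^ 4 * ‖G (circleMap 0 (1 - s) θ)‖ ≤ 4 * (t ^ 4 * ‖G (circleMap 0 (1 - t) θ)‖) := by
  have := q.anti (norm_exp_ofReal_mul_I θ) (a := 1 - t) ⟨by linarith, by linarith⟩ (b := 1 - s)
    ⟨by linarith, by linarith⟩ (by linarith)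
  simp only [sub_sub_cancel, ← circleMap_zero] at this
  have a1 : s ^ 4 / 4 ≤ s ^ 4 / (1 + (1 - s)) ^ 2 :=
    div_le_div_of_nonneg_left (by positivity) (by nlinarith) (by nlinarith)
  have a2 : t ^ 4 / (1 + (1 - t)) ^ 2 ≤ t ^ 4 := div_le_self (by positivity) (by nlinarith)
  linarith [mul_le_mul_of_nonneg_right a1 (norm_nonneg (G (circleMap 0 (1 - s) θ))),
    mul_le_mul_of_nonneg_right a2 (norm_nonneg (G (circleMap 0 (1 - t) θ)))]

lemma QG.off (q : QG G) (G0 : ‖G 0‖ ≤ 1) (Z : ∀ e : ℂ, ‖e‖ = 1 → e ≠ 1 → hyZ G e) {η L : ℝ}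
    (η0 : 0 < η) (L1 : 1 ≤ L) (hL : 1620 ≤ η * L) : ∀ᶠ s : ℝ in 𝓝[>] 0, ∀ θ : ℝ, L * s ≤ |θ| →
      |θ| ≤ π → s ^ 4 * ‖G (circleMap 0 (1 - s) θ)‖ ≤ η := by
  have L0 : 0 < L := by linarith
  obtain ⟨t, t0, ht⟩ := mem_nhdsGT_iff_exists_Ioc_subset.1
    ((q.blow' G0 L0.le one_pos).and (hy_small 2))
  have cp : IsCompact (Icc (-π) π ∩ {θ | L * t ≤ |θ|}) :=
    isCompact_Icc.inter_right (isClosed_le continuous_const continuous_abs)
  have B := cp.eventually_forall_of_forall_eventually (x₀ := (0:ℝ))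
    (P := fun s θ => 0 < s → s ^ 4 * ‖G (circleMap 0 (1 - s) θ)‖ ≤ η) fun θ hθ => by
      have p := (mul_pos L0 t0).trans_le hθ.2
      have := (Z _ (norm_exp_ofReal_mul_I θ) fun e => by
        have := hc_lo (s := 0) (by norm_num) (abs_le.2 hθ.1)
        rw [circleMap_zero, e] at this
        norm_num at this
        simp [this] at p).norm.eventually (gt_mem_nhds (show ‖(0:ℂ)‖ < η / 4 by simpa using η0))
      obtain ⟨v, a1, v0, v1⟩ := (this.and (hy_small 2)).exists
      have a2 : ContinuousAt (fun z : ℝ × ℝ => v ^ 4 * ‖G (circleMap 0 (1 - v) z.2)‖) (0, θ) :=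
        (continuous_const.mul ((cont_cm q.d (by linarith) (by linarith)).comp
          continuous_snd).norm).continuousAt
      filter_upwards [a2.eventually (gt_mem_nhds (show _ < η / 4 by
        rw [norm_mul, norm_pow, Complex.norm_real, Real.norm_of_nonneg v0.le, mul_comm (exp _)] at a1
        simpa [circleMap_zero] using a1)), continuousAt_fst.eventually (gt_mem_nhds v0)]
        with z h1 h2 z0
      linarith [q.mono z0 h2.le (by linarith) z.2]
  filter_upwards [nhdsWithin_le_nhds B, self_mem_nhdsWithin] with s hs (s0 : 0 < s) θ h1 h2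
  rcases le_total (L * t) |θ| with h3 | h3
  · exact hs θ ⟨abs_le.1 h2, h3⟩ s0
  set v := |θ| / L with hv
  have ev : L * v = |θ| := by rw [hv]; field_simp
  have sv : s ≤ v := le_of_mul_le_mul_left (by linarith) L0
  obtain ⟨a1, v0, v1⟩ := ht ⟨s0.trans_le sv, le_of_mul_le_mul_left (by linarith) L0⟩
  have a2 := a1 θ ev.ge
  have a3 := q.nP G0 v0 (by linarith)
  have a4 := norm_le_norm_sub_add (hyP G (circleMap 0 (1 - v) θ)) (hyP G (1 - v))
  have a5 := pow_le_pow_left₀ (by positivity) (ev.le.trans (hc_lo (s := v) (by linarith) h2)) 4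
  have a6 := mul_le_mul_of_nonneg_right a5 (norm_nonneg (G (circleMap 0 (1 - v) θ)))
  rw [hyP, norm_mul, norm_pow, ← hyP] at a4
  refine (q.mono s0 sv (by linarith) θ).trans (le_of_mul_le_mul_left ?_ (pow_pos L0 4))
  have a7 := mul_le_mul_of_nonneg_left (le_self_pow₀ L1 four_ne_zero) η0.le
  linear_combination 4 * a6 + 324 * a4 + 324 * a2 + 324 * a3 + a7 + hL

lemma hc_mul (m : ℕ) (l : ℂ) (k : ℂ → ℂ) : co m (fun z => l * k z) = l * co m k := by
  rw [co, co, iteratedDeriv_const_mul_field, mul_div_assoc]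

lemma hc_co (m : ℕ) : ∀ k : ℕ, co m (fun z => 1 / (1 - z) ^ (k + 1)) = (m + k).choose k := by
  induction m with
  | zero => simp [co_zero]
  | succ m ih =>
    intro k
    have e : deriv (fun z : ℂ => 1 / (1 - z) ^ (k + 1)) =ᶠ[𝓝 0]
        fun z => (k + 1) * (1 / (1 - z) ^ (k + 1 + 1)) := by
      filter_upwards [compl_singleton_mem_nhds (zero_ne_one' ℂ)] with z hz
      have p : 1 - z ≠ 0 := sub_ne_zero.2 (Ne.symm hz)
      rw [((hasDerivAt_const z 1).fun_div (((hasDerivAt_id' z).const_sub 1).fun_pow (k + 1))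
        (pow_ne_zero _ p)).deriv]
      push_cast
      field_simp
      ring
    have a := co_deriv m fun z : ℂ => 1 / (1 - z) ^ (k + 1)
    rw [co_congr e, hc_mul, ih] at a
    refine mul_left_cancel₀ (Nat.cast_add_one_ne_zero m) (a.symm.trans ?_)
    have := Nat.choose_succ_right_eq (m + (k + 1)) k
    rw [show m + (k + 1) - k = m + 1 by omega, mul_comm, mul_comm _ (m + 1)] at this
    rw [show m + 1 + k = m + (k + 1) by ring]
    exact_mod_cast this

lemma hc_two (m : ℕ) : (((m + 2).choose 2 : ℕ) : ℝ) = (m + 1) * (m + 2) / 2 := by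
  rw [Nat.cast_choose_two]; push_cast; ring

lemma hc_three (m : ℕ) : (((m + 3).choose 3 : ℕ) : ℝ) = (m + 1) * (m + 2) * (m + 3) / 6 := by
  have a := congrArg (Nat.cast (R := ℝ)) (Nat.choose_succ_right_eq (m + 3) 2)
  have b := hc_two (m + 1)
  rw [show m + 3 - 2 = m + 1 by omega] at a
  push_cast at a b
  rw [show m + 1 + 2 = m + 3 by ring] at b
  rw [b] at a
  linear_combination a / 3

theorem QG.coef (q : QG G) (G0 : ‖G 0‖ ≤ 1) {C d : ℝ} (C0 : 0 < C)
    (TB : ∀ {r t : ℝ}, 1 / 2 ≤ r → r < 1 → 1 ≤ t → ∫ θ in (0:ℝ)..2 * π,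
      min ((1 - r) * ‖G (circleMap 0 r θ)‖) (t ^ 3) ≤ C * t ^ 2)
    (Z : ∀ e : ℂ, ‖e‖ = 1 → e ≠ 1 → hyZ G e)
    (hd : Tendsto (fun s : ℝ => ‖hyP G (1 - s)‖) (𝓝[>] 0) (𝓝 d)) {ε : ℝ} (ε0 : 0 < ε) :
    ∀ᶠ m : ℕ in atTop, ‖co m G‖ ≤ (d / 6 + ε) * (m + 1) ^ 3 := by
  obtain ⟨η, ⟨η0, η1⟩, η2⟩ := ((hy_small (1 + 4 * C / ε)).and (hy_small (16 / ε))).exists
  have η3 : η * (4 * C / ε) ≤ 1 ∧ η ≤ 1 := by
    have : 0 < η * (4 * C / ε) := by positivity
    constructor <;> linarith
  have η4 : C * η ^ 2 ≤ ε / 4 := by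
    have := η3.1
    rw [← mul_div_assoc, div_le_one ε0] at this
    nlinarith [mul_le_mul_of_nonneg_left η3.2 (mul_pos C0 η0).le]
  have η5 : η * 16 ≤ ε := by have := η2.2; rwa [← mul_div_assoc, div_le_one ε0] at this
  set L := 1620 / η ^ 3 with hL
  have eL : η ^ 3 * L = 1620 := by rw [hL]; field_simp
  have L0 : 0 < L := by positivity
  have a0 : η ^ 3 ≤ η := pow_le_of_le_one η0.le η3.2 three_ne_zero
  have L1 : 1620 ≤ η * L := by nlinarith
  have L2 : 1 ≤ L := by nlinarith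
  have T : Tendsto (fun m : ℕ => 1 / ((m:ℝ) + 1)) atTop (𝓝[>] 0) := tendsto_nhdsWithin_iff.2
    ⟨tendsto_one_div_add_atTop_nhds_zero_nat, Eventually.of_forall fun m =>
      (show 0 < 1 / ((m:ℝ) + 1) by positivity)⟩
  filter_upwards [T.eventually (((q.off G0 Z (pow_pos η0 3) L2 eL.ge).and
    (q.blow' G0 L0.le (show 0 < η / (1 + L ^ 2) by positivity))).and
      ((hd.eventually (ge_mem_nhds (show d < d + ε by linarith))).and
        ((hy_small (1 / η)).and (hy_small (20 / ε))))), eventually_ge_atTop 1]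
    with m ⟨⟨o1, o2⟩, o3, ⟨s0, o4⟩, _, o5⟩ m1
  have m2 : (1:ℝ) ≤ m := by exact_mod_cast m1
  have w := wf_pow m m1
  set n : ℝ := m + 1 with hn
  set s : ℝ := 1 / n with hs
  have n0 : 0 < n := by positivity
  have sn : s * n = 1 := by rw [hs]; field_simp
  have s1 : s ≤ 1 / 2 := one_div_le_one_div_of_le two_pos (by linarith)
  have c4 := q.nP G0 s0 (by linarith)
  have t1 : 1 ≤ η * n := by
    rw [mul_one_div, div_le_one η0] at o4
    nlinarith
  have tb := TB (r := 1 - s) (by linarith) (by linarith) t1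
  rw [sub_sub_cancel] at tb
  generalize hyP G (1 - s) = c at *
  have dK : DifferentiableOn ℂ (fun z : ℂ => -c * (1 / (1 - z) ^ (3 + 1))) (ball 0 1) :=
    (DifferentiableOn.div (by fun_prop) (by fun_prop) fun z hz => pow_ne_zero _ (sub_ne_zero.2
      fun e => by simp [← e] at hz)).const_mul _
  have dE := q.d.fun_add dK
  have b1 := wf_coef dE (r := 1 - s) (by linarith) (by linarith) m
  have cG := cont_cm q.d (R := 1 - s) (by linarith) (by linarith)
  have per : ∀ φ : ℂ → ℝ, ∫ θ in (0:ℝ)..2 * π, φ (circleMap 0 (1 - s) θ) =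
      ∫ θ in (-π)..π, φ (circleMap 0 (1 - s) θ) := fun φ => by
    have := ((periodic_circleMap 0 (1 - s)).comp φ).intervalIntegral_add_eq 0 (-π)
    rwa [zero_add, show -π + 2 * π = π by ring] at this
  rw [per fun z => min (s * ‖G z‖) ((η * n) ^ 3)] at tb
  replace b1 := b1.trans_eq (per fun z => ‖G z + -c * (1 / (1 - z) ^ (3 + 1))‖)
  have i1 : IntervalIntegrable (fun θ => min (s * ‖G (circleMap 0 (1 - s) θ)‖) ((η * n) ^ 3))
      volume (-π) π := ((continuous_const.mul cG.norm).min continuous_const).intervalIntegrable _ _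
  have i2 : IntervalIntegrable (fun θ : ℝ => s / (s ^ 2 + θ ^ 2)) volume (-π) π :=
    (continuous_const.div (by fun_prop) fun θ => by positivity).intervalIntegrable _ _
  have b2 : ∫ θ in (-π)..π, s / (s ^ 2 + θ ^ 2) ≤ π := by
    rw [intervalIntegral.integral_eq_sub_of_hasDerivAt (f := fun θ => Real.arctan (θ / s))
      (fun θ _ => ((hasDerivAt_id' θ).div_const s).arctan.congr_deriv (by field_simp)) i2]
    linarith [Real.arctan_lt_pi_div_two (π / s), Real.neg_pi_div_two_lt_arctan (-π / s)]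
  have b3 := intervalIntegral.integral_mono_on (by linarith [Real.pi_pos])
    (((cont_cm dE (R := 1 - s) (by linarith) (by linarith)).norm.intervalIntegrable _ _).const_mul s)
    (i1.add (i2.const_mul (η * n ^ 2))) fun θ hθ => by
      have x1 := (hc_re (s := s) (by linarith) θ).trans (re_le_norm _)
      have x2 := hc_lo s1 (abs_le.2 hθ)
      have p := s0.trans_le x1
      have y1 := o1 θ
      have y2 := o2 θ
      have y3 : 0 ≤ min (s * ‖G (circleMap 0 (1 - s) θ)‖) ((η * n) ^ 3) :=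
        le_min (by positivity) (by positivity)
      generalize circleMap 0 (1 - s) θ = z at *
      have n2 : η * n ^ 2 * (s / (s ^ 2 + θ ^ 2)) = s * (η / (s ^ 2 * (s ^ 2 + θ ^ 2))) := by
        rw [show n = 1 / s by rw [hs, one_div_one_div]]; field_simp
      rw [n2]
      rcases le_total |θ| (L * s) with h | h
      · refine le_add_of_nonneg_of_le y3 (mul_le_mul_of_nonneg_left ?_ s0.le)
        have := norm_pos_iff.1 p
        rw [show G z + -c * (1 / (1 - z) ^ (3 + 1)) = (hyP G z - c) / (1 - z) ^ 4 by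
          rw [hyP]; field_simp; ring, norm_div, norm_pow]
        refine (div_le_div₀ (by positivity) (y2 h) (by positivity)
          (pow_le_pow_left₀ s0.le x1 4)).trans ?_
        rw [div_div]
        refine div_le_div_of_nonneg_left η0.le (by positivity) ?_
        have := pow_le_pow_left₀ (abs_nonneg θ) h 2
        rw [sq_abs] at this
        nlinarith [mul_le_mul_of_nonneg_left this (sq_nonneg s)]
      · refine (mul_le_mul_of_nonneg_left (norm_add_le _ _) s0.le).trans ?_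
        rw [mul_add, min_eq_left (le_of_mul_le_mul_left (by
          rw [mul_pow η, mul_left_comm (s ^ 3) (η ^ 3), ← mul_pow s n, sn]
          linear_combination y1 h (abs_le.2 hθ)) (pow_pos s0 3))]
        refine add_le_add le_rfl (mul_le_mul_of_nonneg_left ?_ s0.le)
        rw [norm_mul, norm_neg, norm_div, norm_pow, norm_one, mul_one_div,
          div_le_div_iff₀ (by positivity) (by positivity)]
        have u1 := pow_le_pow_left₀ (by positivity) h 2
        have u2 := pow_le_pow_left₀ (abs_nonneg θ) x2 4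
        rw [Even.pow_abs (by decide)] at u1 u2
        have u3 : s ^ 2 * L ≤ θ ^ 2 := by nlinarith [mul_le_mul_of_nonneg_left L2 L0.le]
        have u4 : s ^ 2 ≤ θ ^ 2 := by nlinarith
        have u5 := mul_le_mul c4 (mul_le_mul_of_nonneg_left (add_le_add u4 (le_refl (θ ^ 2))) (sq_nonneg s))
          (by positivity) (by norm_num)
        have u6 := mul_le_mul_of_nonneg_left u3 (mul_nonneg η0.le (sq_nonneg θ))
        have u7 := mul_le_mul_of_nonneg_left L1 (mul_nonneg (sq_nonneg s) (sq_nonneg θ))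
        have u8 := mul_le_mul_of_nonneg_left u2 η0.le
        linear_combination u5 + (u6 + u7 + u8) / 81 + 12 * mul_nonneg (sq_nonneg s) (sq_nonneg θ)
  rw [intervalIntegral.integral_const_mul, intervalIntegral.integral_add i1 (i2.const_mul _),
    intervalIntegral.integral_const_mul] at b3
  have an := isOpen_ball.mem_nhds (mem_ball_self (x := (0:ℂ)) one_pos)
  have b4 : co m (fun z : ℂ => G z + -c * (1 / (1 - z) ^ (3 + 1))) =
      co m G - c * ((m + 3).choose 3 : ℝ) := by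
    refine (co_add (q.d.analyticAt an) (dK.analyticAt an) m).trans ?_
    rw [hc_mul, hc_co]
    push_cast
    ring
  rw [b4] at b1
  have b5 := norm_le_norm_sub_add (co m G) (c * ((m + 3).choose 3 : ℝ))
  rw [norm_mul, Complex.norm_real, Real.norm_of_nonneg (by positivity), hc_three] at b5
  rw [hc_three] at b1
  have x0 := norm_nonneg (co m G - c * ((((m:ℝ) + 1) * (m + 2) * (m + 3) / 6 : ℝ) : ℂ))
  generalize ‖co m G - c * ((((m:ℝ) + 1) * (m + 2) * (m + 3) / 6 : ℝ) : ℂ)‖ = x at b1 b5 x0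
  have e1 := (mul_le_mul_of_nonneg_left b1 s0.le).trans (b3.trans (add_le_add tb
    (mul_le_mul_of_nonneg_left (b2.trans Real.pi_le_four) (by positivity))))
  have e2 := mul_le_mul_of_nonneg_right (mul_le_mul Real.pi_gt_three.le w (by norm_num)
    Real.pi_pos.le) (mul_nonneg s0.le x0)
  have e3 := mul_le_mul_of_nonneg_right η4 (sq_nonneg n)
  have e4 := mul_le_mul_of_nonneg_right η5 (sq_nonneg n)
  have e5 : 4 * (s * x) ≤ ε * n ^ 2 := by linear_combination 2 * e1 + 4 * e2 + 2 * e3 + e4 / 2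
  have e6 : 4 * x ≤ ε * n ^ 3 := by
    linear_combination mul_le_mul_of_nonneg_left e5 n0.le - 4 * x * sn
  have e7 : 20 ≤ ε * n := by
    rw [← mul_div_assoc, div_le_one ε0] at o5
    linear_combination mul_le_mul_of_nonneg_left o5 n0.le - 20 * sn
  have e8 := mul_le_mul_of_nonneg_right o3 (pow_pos n0 3).le
  have e9 := mul_le_mul c4 (show 3 * n ^ 2 + 2 * n ≤ 5 * n ^ 2 by nlinarith) (by positivity)
    (by norm_num)
  have e10 := mul_le_mul_of_nonneg_right e7 (sq_nonneg n)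
  have e11 := mul_pos ε0 (pow_pos n0 3)
  rw [show (m:ℝ) + 2 = n + 1 by rw [hn]; ring, show (m:ℝ) + 3 = n + 2 by rw [hn]; ring] at b5
  linear_combination b5 + e6 / 4 + e8 / 6 + e9 / 6 + e10 / 6 + 5 / 12 * e11.le

end Pool.Agent.Lib.MP_9dc04a_an
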