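import Pool.Agent.Lib.MP_9dc04a_an.HyRay

set_option autoImplicit false

namespace Pool.Agent.Lib.MP_9dc04a_an

open Complex Metric Set Filter Topology
open scoped Real ComplexConjugate

lemma hy_rch {u : ℂ → ℝ} {D : Set ℂ} {z w : ℂ} {a b : ℝ} (cu : ContinuousOn u D)
    (h : ∀ t ∈ Icc (0:ℝ) 1, z + t • (w - z) ∈ D ∧ -a < u (z + t • (w - z))) (hz : u z < b)
    (hw : b ≤ u w) : WRch u D z a b b := by
  have cg : ContinuousOn (fun t : ℝ => u (z + t • (w - z))) (Icc 0 1) :=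
    cu.comp (by fun_prop) fun t ht => (h t ht).1
  obtain ⟨s, ⟨hs, es⟩, ls⟩ := (isCompact_Icc.of_isClosed_subset
    (cg.preimage_isClosed_of_isClosed isClosed_Icc (isClosed_singleton (x := b)))
      inter_subset_left).exists_isLeast
    (intermediate_value_Icc zero_le_one cg ⟨by simpa using hz.le, by simpa using hw⟩)
  refine ⟨_, (h s hs).1, es, JoinedIn.of_segment_subset ?_⟩
  rw [segment_eq_image']
  rintro _ ⟨t, ht, rfl⟩
  rcases ht.2.eq_or_lt with rfl | t1
  · left; simp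
  right
  have ts : t * s ∈ Icc (0:ℝ) 1 := ⟨mul_nonneg ht.1 hs.1, mul_le_one₀ ht.2 hs.1 hs.2⟩
  have s0 : 0 < s := hs.1.lt_of_ne fun e => by
    subst e; simp only [mem_preimage, zero_smul, add_zero, mem_singleton_iff] at es
    exact hz.ne es
  simp only [add_sub_cancel_left, smul_smul]
  refine ⟨(h _ ts).1, (h _ ts).2, ?_⟩
  by_contra hc
  obtain ⟨r, hr, er⟩ := intermediate_value_Icc ts.1 (cg.mono (Icc_subset_Icc_right ts.2))
    (show b ∈ Icc _ _ from ⟨by simpa using hz.le, not_lt.1 hc⟩)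
  have := ls ⟨⟨hr.1, hr.2.trans ts.2⟩, er⟩
  nlinarith [hr.2]

lemma hy_cub {c ζ : ℂ} (h : (c / ζ ^ 3).re = 0) (τ : ℝ) : (c / (ζ * (1 + τ * I)) ^ 3).re =
    (c / ζ ^ 3).im * τ * ((3 - τ ^ 2) / (1 + τ ^ 2) ^ 3) := by
  have p : ((1 + τ ^ 2 : ℝ) : ℂ) ≠ 0 := ofReal_ne_zero.2 (by positivity)
  have e : (1 + τ * I) * (1 - τ * I) = ((1 + τ ^ 2 : ℝ) : ℂ) := by
    push_cast; linear_combination (-τ ^ 2 : ℂ) * I_mul_I
  have n : (1:ℂ) + τ * I ≠ 0 := left_ne_zero_of_mul (e ▸ p)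
  have n' : (1:ℂ) - τ * I ≠ 0 := right_ne_zero_of_mul (e ▸ p)
  rw [show c / (ζ * (1 + τ * I)) ^ 3 = c / ζ ^ 3 * (1 - τ * I) ^ 3 / (((1 + τ ^ 2) ^ 3 : ℝ) : ℂ) by
    rw [ofReal_pow, ← e, mul_pow, mul_pow, ← div_div]; field_simp, div_ofReal_re, mul_re, h]
  simp [pow_succ]
  ring

theorem hy_tri {h g G : ℂ → ℂ} (C : QCls h g) (k : QU (fun z => h z + g z) G) {e ζ c : Fin 3 → ℂ}
    (he : ∀ j, ‖e j‖ = 1) (n1 : ∀ j, ‖ζ j‖ = 1) (r0 : ∀ j, 0 < (ζ j).re)
    (z0 : ∀ j, (c j / ζ j ^ 3).re = 0) (c0 : ∀ j, c j ≠ 0)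
    (hB : ∀ j, hyB (fun z => h z + g z) (e j) (c j))
    (ne : ∀ j l, j ≠ l → e j ≠ e l ∨ ζ j ≠ ζ l) : False := by
  have lt : ∀ {M x : ℝ}, 0 < x → ∀ᶠ s : ℝ in 𝓝[>] 0, s * M < x := fun {M x} hx =>
    nhdsWithin_le_nhds ((show ContinuousAt (fun s : ℝ => s * M) 0 by fun_prop).eventually
      (gt_mem_nhds (by simpa using hx)))
  have l2 : ∀ (M : ℝ) (p : Fin 3 → ℂ), ∀ᶠ s : ℝ in 𝓝[>] 0, ∀ j l, p j ≠ p l → s * M < ‖p j - p l‖ :=
    fun M p => eventually_all.2 fun j => eventually_all.2 fun l => eventually_imp_distrib_left.2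
      fun h => lt (norm_pos_iff.2 (sub_ne_zero.2 h))
  obtain ⟨β, ⟨β0, b1⟩, b2, b3⟩ := ((eventually_mem_nhdsWithin.and (l2 4 ζ)).and
    ((eventually_all.2 fun j => lt (M := 4) (r0 j)).and
      (eventually_all.2 fun j => lt (M := 1) (norm_pos_iff.2 (c0 j))))).exists
  replace β0 : 0 < β := β0
  have β1 : β * 4 < 1 := (b2 0).trans_le ((re_le_norm _).trans (n1 0).le)
  set R := 2 / β ^ 2 with hR
  have eR : R * β ^ 2 = 2 := by rw [hR]; field_simp
  have R0 : 0 < R := by positivity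
  have R8 : 8 ≤ R * β := by nlinarith
  have R2 : 2 ≤ R := by nlinarith
  have Rβ : 1 / R ≤ β := by rw [div_le_iff₀ R0]; linarith
  obtain ⟨s, ⟨⟨s0, s1⟩, s2⟩, s3⟩ := ((((hy_small (R * (1 / (β * 4)) ^ 3)).and
    (l2 (R + 3) e)).filter_mono hyU_le).and (eventually_all.2 fun j =>
      hB j R (β ^ 2 / 16) (by linarith) (by positivity))).exists
  set u : ℂ → ℝ := fun ξ => (h ξ + conj (g ξ)).re with hu
  have eu : ∀ ξ, u ξ = (h ξ + g ξ).re := fun ξ => by simp [hu]
  have est : ∀ j (w : ℂ), β ≤ w.re → ‖w‖ ≤ R →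
      |s ^ 3 * u (e j * (1 - s * w)) - (c j / w ^ 3).re| ≤ β ^ 2 / 16 := fun j w h1 h2 => by
    have := (abs_re_le_norm _).trans (s3 j w (Rβ.trans h1) h2)
    rwa [sub_re, ← ofReal_pow, re_ofReal_mul, ← eu] at this
  set a := β ^ 2 / 8 / s ^ 3 with ha
  have ea : s ^ 3 * a = β ^ 2 / 8 := by rw [ha]; field_simp
  have S0 : 0 < s ^ 3 := by positivity
  have a0 : 0 < a := by positivity
  have sβ : 0 < s * β := by positivity
  have nr : ∀ j, ∀ ρ ∈ Icc 1 R, ‖e j * (1 - s * (ρ * ζ j))‖ ≤ 1 - 2 * (s * β) * ρ := fun j ρ hρ => by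
    have := hy_in (R := 1 / (β * 4)) (s := s * ρ) (ζ := ζ j) (one_le_one_div (by positivity) β1.le)
      (by rw [one_div_one_div]; exact (b2 j).le) ((n1 j).le.trans
        (one_le_one_div (by positivity) β1.le)) (mul_pos s0 (by linarith [hρ.1]))
      (le_trans (by rw [mul_assoc]; gcongr; exact hρ.2) s1)
    rw [norm_mul, he, one_mul, ← mul_assoc, ← ofReal_mul]
    exact this.trans (le_of_eq (by field_simp; ring))
  set z : Fin 3 → ℂ := fun j => e j * (1 - s * ((1:ℝ) * ζ j)) with hz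
  have m1 : (1:ℝ) ∈ Icc 1 R := ⟨le_rfl, by linarith⟩
  have sep : ∀ j l, j ≠ l → ∀ ρ ∈ Icc 1 R, 2 * (s * β) < ‖e j * (1 - s * (ρ * ζ j)) - z l‖ :=
    fun j l jl ρ hρ => not_le.1 fun hc => by
      have nρ : ‖ρ * ζ j‖ = ρ := by
        rw [norm_mul, n1, mul_one, Complex.norm_real, Real.norm_of_nonneg (by linarith [hρ.1])]
      have ns : ∀ (l : Fin 3) (w : ℂ), ‖e l * (s * w)‖ = s * ‖w‖ := fun l w => by
        rw [norm_mul, he, one_mul, norm_mul, Complex.norm_real, Real.norm_of_nonneg s0.le]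
      by_cases ee : e j = e l
      · rw [show e j * (1 - s * (ρ * ζ j)) - z l = e l * (s * (ζ l - ρ * ζ j)) by
          simp only [hz, ee]; push_cast; ring, ns] at hc
        have a1 : ‖ζ l - ρ * ζ j‖ ≤ 2 * β := le_of_mul_le_mul_left (by linarith) s0
        have a2 := norm_sub_norm_le (ρ * ζ j) (ζ l)
        have a3 := norm_sub_le_norm_sub_add_norm_sub (ζ l) (ρ * ζ j) (ζ j)
        have a4 : ‖ρ * ζ j - ζ j‖ = ρ - 1 := by
          rw [← sub_one_mul, norm_mul, n1, mul_one, ← ofReal_one, ← ofReal_sub, Complex.norm_real,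
            Real.norm_of_nonneg (by linarith [hρ.1])]
        rw [nρ, n1, norm_sub_rev] at a2
        linarith [b1 l j ((ne j l jl).resolve_left (not_not.2 ee)).symm]
      · have a1 := s2 j l ee
        rw [show e j - e l = e j * (1 - s * (ρ * ζ j)) - z l + (e j * (s * (ρ * ζ j)) -
          e l * (s * ζ l)) by simp only [hz]; push_cast; ring] at a1
        have a2 := a1.trans_le ((norm_add_le _ _).trans (add_le_add hc (norm_sub_le _ _)))
        rw [ns, ns, nρ, n1] at a2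
        nlinarith [hρ.2]
  have DR : ∀ j, closedBall (z j) (s * β) ⊆ closedBall 0 (1 - s * β) := fun j =>
    closedBall_subset_closedBall' (by rw [dist_zero_right]; linarith [nr j 1 m1])
  have RB : closedBall (0:ℂ) (1 - s * β) ⊆ ball 0 1 := closedBall_subset_ball (by linarith)
  have cF : ContinuousOn (fun ξ => h ξ + conj (g ξ)) (closedBall 0 (1 - s * β)) :=
    (C.dh.continuousOn.add (continuous_conj.comp_continuousOn C.dg.continuousOn)).mono RB
  obtain ⟨H, hH⟩ := (isCompact_closedBall _ _).exists_bound_of_continuousOn cF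
  have A : ∀ j (η : ℝ), |η| = 1 →
      WRch (fun ξ => η * u ξ) (closedBall (z j) (s * β)) (z j) a a a := fun j η hη => by
    obtain ⟨τ, t1, t2⟩ : ∃ τ : ℝ, |τ| = β ∧ β ^ 2 ≤ η * ((c j / ζ j ^ 3).im * τ) := by
      have : β ≤ |η * (c j / ζ j ^ 3).im| := by
        rw [abs_mul, hη, one_mul, abs_im_eq_norm.2 (z0 j), norm_div, norm_pow, n1]
        linarith [b3 j]
      rcases le_abs.1 this with h | h
      · exact ⟨β, abs_of_pos β0, by nlinarith⟩
      · exact ⟨-β, by rw [abs_neg, abs_of_pos β0], by nlinarith⟩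
    have key : ∀ t ∈ Icc (0:ℝ) 1, z j + t • (e j * (1 - s * (ζ j * (1 + τ * I))) - z j) ∈
        closedBall (z j) (s * β) ∧ |s ^ 3 * (η * u (z j + t • (e j * (1 - s * (ζ j * (1 + τ * I)))
          - z j))) - t * (η * ((c j / ζ j ^ 3).im * τ)) * ((3 - (t * τ) ^ 2) / (1 + (t * τ) ^ 2) ^ 3)|
            ≤ β ^ 2 / 16 := fun t ht => by
      have nt : ‖ζ j * ((t * τ : ℝ) * I)‖ ≤ β := by
        rw [norm_mul, n1, norm_mul, norm_I, Complex.norm_real, Real.norm_eq_abs, abs_mul, t1,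
          abs_of_nonneg ht.1]
        nlinarith [ht.2]
      have e1 : z j + t • (e j * (1 - s * (ζ j * (1 + τ * I))) - z j) =
          e j * (1 - s * (ζ j * (1 + (t * τ : ℝ) * I))) := by
        simp only [hz, real_smul]; push_cast; ring
      have := est j (ζ j * (1 + (t * τ : ℝ) * I)) (by
        rw [mul_add, mul_one, add_re]
        linarith [b2 j, (abs_le.1 ((abs_re_le_norm _).trans nt)).1]) (by
          rw [mul_add, mul_one]; linarith [norm_add_le (ζ j) (ζ j * ((t * τ : ℝ) * I)), n1 j])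
      rw [e1]
      refine ⟨mem_closedBall_iff_norm.2 ?_, le_of_eq_of_le ?_ this⟩
      · rw [show e j * (1 - s * (ζ j * (1 + (t * τ : ℝ) * I))) - z j =
          -(e j * (s * (ζ j * ((t * τ : ℝ) * I)))) by simp only [hz]; push_cast; ring, norm_neg,
          norm_mul, he, one_mul, norm_mul, Complex.norm_real, Real.norm_of_nonneg s0.le]
        exact mul_le_mul_of_nonneg_left nt s0.le
      · rw [hy_cub (z0 j), ← one_mul |_ - _ * (t * τ) * _|, ← hη, ← abs_mul]
        congr 1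
        ring
    have τ2 : τ ^ 2 = β ^ 2 := by rw [← sq_abs, t1]
    refine hy_rch (w := e j * (1 - s * (ζ j * (1 + τ * I)))) (continuousOn_const.mul
      (continuous_re.comp_continuousOn (cF.mono (DR j)))) (fun t ht => ⟨(key t ht).1, ?_⟩) ?_ ?_
    · have a1 := (abs_le.1 (key t ht).2).1
      have a2 : 0 ≤ (3 - (t * τ) ^ 2) / (1 + (t * τ) ^ 2) ^ 3 := div_nonneg (by
        rw [mul_pow, τ2]
        nlinarith [mul_le_one₀ (pow_le_one₀ ht.1 ht.2 (n := 2)) (sq_nonneg β)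
          (show β ^ 2 ≤ 1 by nlinarith)]) (by positivity)
      have a3 := mul_nonneg (mul_nonneg ht.1 ((sq_nonneg β).trans t2)) a2
      refine lt_of_mul_lt_mul_left ?_ S0.le
      nlinarith
    · have a1 := (abs_le.1 (key 0 (left_mem_Icc.2 zero_le_one)).2).2
      simp only [zero_smul, add_zero, zero_mul, sub_zero] at a1
      refine lt_of_mul_lt_mul_left ?_ S0.le
      nlinarith
    · have a1 := (abs_le.1 (key 1 (right_mem_Icc.2 zero_le_one)).2).1
      simp only [one_smul, add_sub_cancel, one_mul, τ2] at a1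
      have a2 : 1 / 4 ≤ (3 - β ^ 2) / (1 + β ^ 2) ^ 3 := by
        rw [le_div_iff₀ (by positivity)]
        nlinarith [pow_le_pow_left₀ (by positivity) (show 1 + β ^ 2 ≤ 2 by nlinarith) 3]
      have a3 := mul_le_mul t2 a2 (by norm_num) ((sq_nonneg β).trans t2)
      refine le_of_mul_le_mul_left ?_ S0
      nlinarith
  refine wk_three cF (C.inj.mono RB) (fun ξ h => (abs_im_le_norm _).trans (hH ξ h))
    (show -a < a by linarith) (D := fun j => closedBall (z j) (s * β)) (z := z) (o := 0)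
    (T := univ) (fun j _ => DR j) (fun j _ => WRch.neg.1 (by simpa only [neg_one_mul] using A j (-1) (by simp)))
    (fun j _ => by simpa only [one_mul] using A j 1 abs_one) (fun j _ l _ jl => ⟨closedBall_disjoint_closedBall
      (by rw [dist_eq_norm]; linarith [sep j l jl 1 m1]), JoinedIn.trans
        (y := e j * (1 - s * (R * ζ j))) (JoinedIn.of_segment_subset ?_)
        (JoinedIn.of_segment_subset fun ξ hξ => ?_)⟩)
    (i := 0) (j := 1) (k := 2) trivial trivial trivial (by decide) (by decide) (by decide)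
  · rw [segment_eq_image']
    rintro _ ⟨t, ht, rfl⟩
    have hρ : 1 + t * (R - 1) ∈ Icc 1 R := ⟨by nlinarith [ht.1], by nlinarith [ht.2]⟩
    simp only []
    rw [show z j + t • (e j * (1 - s * (R * ζ j)) - z j) =
      e j * (1 - s * ((1 + t * (R - 1) : ℝ) * ζ j)) by simp only [hz, real_smul]; push_cast; ring]
    generalize 1 + t * (R - 1) = ρ at hρ
    have a1 := abs_le.1 (est j (ρ * ζ j) (by rw [re_ofReal_mul]; nlinarith [hρ.1, b2 j]) (by
      rw [norm_mul, n1, mul_one, Complex.norm_real, Real.norm_of_nonneg (by linarith [hρ.1])]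
      exact hρ.2))
    rw [mul_pow, ← div_div, div_right_comm, ← ofReal_pow, div_ofReal_re, z0, zero_div] at a1
    simp only [hu] at a1
    refine ⟨mem_closedBall_zero_iff.2 (by nlinarith [nr j ρ hρ, hρ.1]), fun hc => by
      linarith [sep j l jl ρ hρ, mem_closedBall_iff_norm.1 hc],
      le_of_mul_le_mul_left (by nlinarith [a1.1]) S0, le_of_mul_le_mul_left (by nlinarith [a1.2]) S0⟩
  · have a1 := mem_closedBall_zero_iff.1 ((convex_closedBall 0 _).segment_subset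
      (mem_closedBall_zero_iff.2 (nr j R ⟨by linarith, le_rfl⟩)) (mem_closedBall_self
        ((norm_nonneg _).trans (nr j R ⟨by linarith, le_rfl⟩))) hξ)
    have p : 16 * s ≤ 2 * (s * β) * R := by nlinarith
    have a2 : |u ξ| ≤ a := by
      rw [eu]
      refine ((abs_re_le_norm _).trans (k.grow (by linarith))).trans ((div_le_div_of_nonneg_left
        (by norm_num) (by positivity) (pow_le_pow_left₀ (by positivity) (le_sub_comm.1 a1) 3)).trans ?_)
      rw [ha, div_le_div_iff₀ (by positivity) S0]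
      have : 4 ≤ (R * β ^ 2) ^ 2 * (R * β) := by rw [eR]; linarith
      linear_combination mul_le_mul_of_nonneg_left this S0.le
    refine ⟨mem_closedBall_zero_iff.2 (by nlinarith), fun hc => ?_, abs_le.1 a2⟩
    have a3 := norm_sub_norm_le (z l) ξ
    have a4 := norm_sub_norm_le 1 (s * ((1:ℝ) * ζ l))
    rw [mem_closedBall_iff_norm'] at hc
    simp only [hz, norm_mul, he, n1, Complex.norm_real, norm_one, Real.norm_of_nonneg s0.le] at a3 a4 hc
    nlinarith

lemma hy_root (c : ℂ) : ∃ ζ : ℕ → ℂ, (∀ j, ‖ζ j‖ = 1 ∧ (c / ζ j ^ 3).re = 0) ∧ 0 < (ζ 0).re ∧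
    0 < (ζ 1).re ∧ (c.im ≠ 0 → 0 < (ζ 2).re) ∧ ζ 0 ≠ ζ 1 ∧ ζ 1 ≠ ζ 2 ∧ ζ 0 ≠ ζ 2 := by
  have p := Real.pi_pos
  obtain ⟨n, ⟨h1, h2⟩, -⟩ := existsUnique_add_zsmul_mem_Ioc p (arg c - π / 2) (-(3 * π / 2))
  rw [zsmul_eq_mul] at h1 h2
  set α := arg c - π / 2 + n * π with hα
  have ec : ∀ x : ℝ, c / exp (x * I) = ‖c‖ * exp ((arg c - x : ℝ) * I) := fun x => by
    rw [ofReal_sub, sub_mul, exp_sub, ← mul_div_assoc, norm_mul_exp_arg_mul_I]
  have ne : ∀ i j : ℕ, i < j → j ≤ 2 → exp (((α + i * π) / 3 : ℝ) * I) ≠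
      exp (((α + j * π) / 3 : ℝ) * I) := fun i j ij j2 e => by
    have a1 : (i:ℝ) < j := by exact_mod_cast ij
    have a2 : (j:ℝ) ≤ 2 := by exact_mod_cast j2
    have a3 : (0:ℝ) ≤ i := by positivity
    have := congrArg arg e
    rw [arg_exp_mul_I, arg_exp_mul_I, (toIocMod_eq_self _).2 ⟨by nlinarith, by nlinarith⟩,
      (toIocMod_eq_self _).2 ⟨by nlinarith, by nlinarith⟩] at this
    nlinarith
  refine ⟨fun j => exp (((α + j * π) / 3 : ℝ) * I), fun j => ⟨norm_exp_ofReal_mul_I _, ?_⟩,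
    ?_, ?_, fun hc => ?_, ne 0 1 (by decide) (by decide), ne 1 2 (by decide) (by decide),
    ne 0 2 (by decide) (by decide)⟩
  · rw [← exp_nat_mul, show ((3:ℕ):ℂ) * (((α + j * π) / 3 : ℝ) * I) = (α + j * π : ℝ) * I by
      push_cast; ring, ec, re_ofReal_mul, exp_ofReal_mul_I_re,
      Real.cos_eq_zero_iff.2 ⟨-(n + j), by rw [hα]; push_cast; ring⟩, mul_zero]
  · rw [exp_ofReal_mul_I_re]
    exact Real.cos_pos_of_mem_Ioo ⟨by push_cast; linarith, by push_cast; linarith⟩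
  · rw [exp_ofReal_mul_I_re]
    exact Real.cos_pos_of_mem_Ioo ⟨by push_cast; linarith, by push_cast; linarith⟩
  · rw [exp_ofReal_mul_I_re]
    refine Real.cos_pos_of_mem_Ioo ⟨by push_cast; linarith, ?_⟩
    have := h2.lt_of_ne fun e => hc (by
      rw [← norm_mul_sin_arg, Real.sin_eq_zero_iff.2 ⟨-n, by push_cast; linarith⟩, mul_zero])
    push_cast
    linarith

variable {h g G : ℂ → ℂ}

theorem hy_real (C : QCls h g) (k : QU (fun z => h z + g z) G) {e c : ℂ} (he : ‖e‖ = 1)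
    (hB : hyB (fun z => h z + g z) e c) : c.im = 0 := by
  by_contra hc
  obtain ⟨ζ, a1, a2, a3, a4, a5, a6, a7⟩ := hy_root c
  refine hy_tri C k (e := fun _ => e) (ζ := fun j => ζ j) (c := fun _ => c) (fun _ => he)
    (fun j => (a1 j).1) (fun j => ?_) (fun j => (a1 j).2) (fun _ h => hc (by simp [h])) (fun _ => hB)
    fun j l jl => Or.inr ?_
  · fin_cases j
    exacts [a2, a3, a4 hc]
  · fin_cases j <;> fin_cases l <;> first | exact absurd rfl jl | assumption | (symm; assumption)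

theorem hy_uniq (C : QCls h g) (k : QU (fun z => h z + g z) G) {e e' : ℂ} (he : ‖e‖ = 1)
    (he' : ‖e'‖ = 1) (ne : e ≠ e') : hyZ G e ∨ hyZ G e' := by
  obtain ⟨c, b1, b2⟩ := k.bl he
  obtain ⟨c', b3, b4⟩ := k.bl he'
  by_contra hc
  rw [not_or] at hc
  have c0 : c / 3 ≠ 0 := fun h => hc.1 (k.q.zero he (by rwa [show c = 0 by simpa using h] at b2))
  have c1 : c' / 3 ≠ 0 := fun h => hc.2 (k.q.zero he' (by rwa [show c' = 0 by simpa using h] at b4))
  obtain ⟨ζ, a1, a2, a3, -, a5, -⟩ := hy_root (c / 3)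
  obtain ⟨ζ', a6, a7, -⟩ := hy_root (c' / 3)
  refine hy_tri C k (e := ![e, e, e']) (ζ := ![ζ 0, ζ 1, ζ' 0]) (c := ![c / 3, c / 3, c' / 3])
    (fun j => ?_) (fun j => ?_) (fun j => ?_) (fun j => ?_) (fun j => ?_) (fun j => ?_)
    fun j l jl => ?_
  · fin_cases j
    exacts [he, he, he']
  · fin_cases j
    exacts [(a1 0).1, (a1 1).1, (a6 0).1]
  · fin_cases j
    exacts [a2, a3, a7]
  · fin_cases j
    exacts [(a1 0).2, (a1 1).2, (a6 0).2]
  · fin_cases j
    exacts [c0, c0, c1]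
  · fin_cases j
    exacts [b1, b1, b3]
  · fin_cases j <;> fin_cases l
    exacts [absurd rfl jl, Or.inr a5, Or.inl ne, Or.inr a5.symm, absurd rfl jl, Or.inl ne,
      Or.inl ne.symm, Or.inl ne.symm, absurd rfl jl]

end Pool.Agent.Lib.MP_9dc04a_an
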