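import Pool.Agent.Lib.MP_9dc04a_an.HyKoe
import Pool.Agent.Lib.MP_9dc04a_an.HyTri

set_option autoImplicit false

namespace Pool.Agent.Lib.MP_9dc04a_an

open Complex Metric Set Filter Topology
open scoped Real ComplexConjugate

variable {h g : ℂ → ℂ}

noncomputable def hyG (h g : ℂ → ℂ) (μ z : ℂ) : ℂ := μ * deriv h z + conj μ * deriv g z

structure QN (h g : ℂ → ℂ) : Prop where
  c : QCls h g
  h0 : h 0 = 0
  g0 : g 0 = 0
  h1 : deriv h 0 = 1
  g1 : deriv g 0 = 0

lemma QN.qu (O : J9Ord) (N : QN h g) {μ : ℂ} (hμ : ‖μ‖ = 1) :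
    QU (fun z => μ * h z + conj μ * g z) (hyG h g μ) :=
  ⟨by unfold hyG; simpa using (N.c.rot hμ).qg O (l := 1) (by simp),
    fun z hz => ((wi_at N.c.dh hz).const_mul μ).add ((wi_at N.c.dg hz).const_mul _),
    by simp [N.h0, N.g0], by simp [hyG, N.h1, N.g1, hμ]⟩

lemma hyZ.lin {G G' G'' : ℂ → ℂ} {e : ℂ} (a : hyZ G e) (b : hyZ G' e) (x y : ℂ)
    (k : ∀ z, G'' z = x * G z + y * G' z) : hyZ G'' e := by
  have := (Tendsto.const_mul x a).add (Tendsto.const_mul y b)
  rw [mul_zero, mul_zero, add_zero] at this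
  exact this.congr fun s => by rw [k]; ring

lemma QN.dir (O : J9Ord) (N : QN h g) :
    ∃ e : ℂ, ‖e‖ = 1 ∧ ∀ μ e' : ℂ, ‖e'‖ = 1 → e' ≠ e → hyZ (hyG h g μ) e' := by
  have u : ∀ μ e e' : ℂ, ‖e‖ = 1 → ‖e'‖ = 1 → e ≠ e' → hyZ (hyG h g μ) e ∨ hyZ (hyG h g μ) e' :=
    fun μ e e' he he' ne => by
      obtain ⟨ν, n1, n2⟩ := wi_pol μ
      have k : ∀ z, hyG h g μ z = ‖μ‖ * hyG h g ν z + 0 * hyG h g ν z := fun z => by
        rw [hyG, hyG, show conj μ = ‖μ‖ * conj ν by rw [← conj_ofReal, ← map_mul, ← n2]]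
        linear_combination deriv h z * n2
      exact (hy_uniq (N.c.rot n1) (N.qu O n1) he he' ne).imp (fun a => a.lin a _ _ k)
        fun a => a.lin a _ _ k
  by_contra hc
  push Not at hc
  obtain ⟨μ, e, he, -, a⟩ := hc 1 norm_one
  obtain ⟨ν, e', he', ne, b⟩ := hc e he
  rcases u (μ + ν) e e' he he' ne.symm with c | c
  · exact a (c.lin ((u ν e e' he he' ne.symm).resolve_right b) 1 (-1) fun z => by
      simp only [hyG, map_add]; ring)
  · exact b (c.lin ((u μ e e' he he' ne.symm).resolve_left a) 1 (-1) fun z => by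
      simp only [hyG, map_add]; ring)

lemma hf_rot (e : ℂ) (n : ℕ) : ∀ k : ℂ → ℂ, co n (fun z => k (e * z)) = e ^ n * co n k := by
  induction n with
  | zero => simp [co_zero]
  | succ n ih =>
    intro k
    refine mul_left_cancel₀ (Nat.cast_add_one_ne_zero n) ?_
    rw [← co_deriv, show deriv (fun z => k (e * z)) = fun z => e * deriv k (e * z) from
      funext fun z => deriv_comp_mul_left e k z, hc_mul, ih, co_deriv]
    ring

theorem QN.main (O : J9Ord) (N : QN h g)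
    (Z : ∀ μ e : ℂ, ‖e‖ = 1 → e ≠ 1 → hyZ (hyG h g μ) e) : ∀ᶠ m : ℕ in atTop,
      ‖co (m + 1) h‖ ≤ (m + 2) * (2 * m + 3) / 6 ∧ ‖co (m + 1) g‖ ≤ m * (2 * m + 1) / 6 := by
  obtain ⟨C, C0, hC⟩ := wk_int' O
  have re : ∀ μ : ℂ, ‖μ‖ = 1 → ∃ c : ℝ,
      Tendsto (fun s : ℝ => (s:ℂ) ^ 4 * (1 * hyG h g μ (1 * (1 - s)))) hyU (𝓝 (c:ℂ)) :=
    fun μ hμ => by
    obtain ⟨c, b1, b2⟩ := (N.qu O hμ).bl norm_one
    have := hy_real (N.c.rot hμ) (N.qu O hμ) norm_one b1
    exact ⟨c.re, by rwa [show (c.re : ℂ) = c from Complex.ext rfl (Eq.symm (by simpa using this))]⟩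
  obtain ⟨x, hx⟩ := re 1 norm_one
  obtain ⟨y, hy⟩ := re I norm_I
  obtain ⟨ν, n1, n2⟩ := wi_pol ⟨x, y⟩
  have n3 : ‖I * ν‖ = 1 := by simp [n1]
  have k0 := N.qu O n3
  have k1 := N.qu O n1
  have Z0 : hyZ (hyG h g (I * ν)) 1 := k0.q.zero norm_one (by
    have := (hx.const_mul (-ν.im : ℂ)).add (hy.const_mul (ν.re : ℂ))
    have a := congrArg Complex.re n2
    have b := congrArg Complex.im n2
    rw [re_ofReal_mul] at a
    rw [im_ofReal_mul] at b
    simp only [] at a b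
    rw [show (-ν.im : ℂ) * x + ν.re * y = 0 by
      exact_mod_cast (by linear_combination -ν.im * a + ν.re * b : -ν.im * x + ν.re * y = 0)] at this
    refine this.congr fun s => ?_
    simp only [hyG, map_mul, map_one, conj_I]
    rw [← re_add_im (conj ν), conj_re, conj_im]
    nth_rewrite 3 [← re_add_im ν]
    push_cast
    linear_combination (-ν.im * s ^ 4 * (deriv h (1 * (1 - s)) + deriv g (1 * (1 - s))) : ℂ) * I_mul_I)
  obtain ⟨d, hd, ld⟩ := k1.q.lim
  rcases lt_or_ge d 4 with d4 | d4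
  · set ε := (4 - d) / 24 with hε
    have ε0 : 0 < ε := by rw [hε]; linarith
    filter_upwards [k0.q.coef k0.g0 C0 (hC N.c N.h0 N.g0 N.h1 N.g1 n3) (Z _) (d := 0)
      (by simpa [hyP] using Z0.norm) ε0, k1.q.coef k1.g0 C0 (hC N.c N.h0 N.g0 N.h1 N.g1 n1) (Z _)
        hd ε0, (tendsto_natCast_atTop_atTop (R := ℝ)).eventually_ge_atTop (1 / ε)] with m a b c
    have m0 : (0:ℝ) < m + 1 := by positivity
    have nn : ‖(m:ℂ) + 1‖ = m + 1 := by exact_mod_cast Complex.norm_natCast (m + 1)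
    rw [div_le_iff₀ ε0] at c
    unfold hyG at a b
    rw [wf_co N.c, norm_mul, nn] at a b
    rw [map_mul, conj_I, mul_assoc, mul_assoc, neg_mul, ← sub_eq_add_neg, ← mul_sub, norm_mul, norm_I,
      one_mul] at a
    have e1 := norm_add_le (ν * co (m + 1) h + conj ν * co (m + 1) g)
      (ν * co (m + 1) h - conj ν * co (m + 1) g)
    have e2 := norm_sub_le (ν * co (m + 1) h + conj ν * co (m + 1) g)
      (ν * co (m + 1) h - conj ν * co (m + 1) g)
    rw [add_add_sub_cancel, ← two_mul, norm_mul, norm_mul, n1, Complex.norm_ofNat] at e1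
    rw [add_sub_sub_cancel, ← two_mul, norm_mul, norm_mul, Complex.norm_conj, n1,
      Complex.norm_ofNat] at e2
    have e3 : ‖ν * co (m + 1) h + conj ν * co (m + 1) g‖ + ‖ν * co (m + 1) h - conj ν * co (m + 1) g‖
        ≤ (2 / 3 - 2 * ε) * (m + 1) ^ 2 := le_of_mul_le_mul_left (by
      rw [show 2 / 3 - 2 * ε = d / 6 + ε + (0 / 6 + ε) by rw [hε]; ring]
      linear_combination a + b) m0
    have e4 := mul_le_mul_of_nonneg_right (show 1 ≤ ε * (m + 1) by linarith) m0.le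
    constructor <;> nlinarith
  · have K : ∀ z : ℂ, ‖z‖ < 1 → hyG h g ν z = ν * ((1 + z) ^ 2 / (1 - z) ^ 4) := fun z hz => by
      rw [k1.q.ext k1.g0 (fun t ht => le_trans (by linarith) (ld t ht)) hz]
      simp [hyG, N.h1, N.g1]
    obtain ⟨c, hc⟩ := re ν n1
    have t : Tendsto (fun s : ℝ => ν * (1 + (1 - s)) ^ 2) hyU (𝓝 (ν * 4)) :=
      (Continuous.tendsto' (by fun_prop) 0 _ (by norm_num)).mono_left
        (hyU_le.trans nhdsWithin_le_nhds)
    have e := tendsto_nhds_unique hc (t.congr' (((hy_small 1).filter_mono hyU_le).mono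
      fun s ⟨s0, s1⟩ => by
        have := ofReal_ne_zero.2 s0.ne'
        simp only [one_mul]
        rw [K _ (by rw [hy_ns (by linarith)]; linarith), sub_sub_cancel]
        field_simp))
    have cν : conj ν = ν := conj_eq_iff_im.2 (by simpa using (congrArg im e).symm)
    refine Eventually.of_forall fun m => ?_
    have := hk_koe N.c N.h0 N.g0 N.h1 N.g1 (fun z hz => mul_left_cancel₀ (norm_ne_zero_iff.1
      (n1.trans_ne one_ne_zero)) (by rw [← K z hz, hyG, cν, mul_add])) m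
    exact ⟨this.1.le, this.2.le⟩

theorem hy_event (O : J9Ord) (N : QN h g) : ∃ n₀ : ℕ, ∀ n ≥ n₀,
    ‖co n h‖ ≤ (n + 1) * (2 * n + 1) / 6 ∧ ‖co n g‖ ≤ (n - 1) * (2 * n - 1) / 6 := by
  obtain ⟨e, he, Z⟩ := N.dir O
  have e0 : e ≠ 0 := norm_ne_zero_iff.1 (he.trans_ne one_ne_zero)
  have ee : conj e * e = 1 := by rw [mul_comm, mul_conj, normSq_eq_norm_sq, he]; simp
  have dd : ∀ (a : ℂ) (k : ℂ → ℂ) z, deriv (fun z => a * k (e * z)) z = a * (e * deriv k (e * z)) :=
    fun a k z => by rw [deriv_const_mul_field, deriv_comp_mul_left, smul_eq_mul]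
  have N' : QN (fun z => conj e * h (e * z)) fun z => conj (conj e) * g (e * z) :=
    ⟨(N.c.comp (φ := fun z => e * z) (by fun_prop) (fun z hz => by simpa [he] using hz)
      (fun z _ w _ k => mul_left_cancel₀ e0 k) fun z _ => by simpa using e0).rot (by simpa using he),
      by simp [N.h0], by simp [N.g0], by simp [dd, N.h1, ee], by simp [dd, N.g1]⟩
  obtain ⟨m₀, hm⟩ := eventually_atTop.1 (N'.main O fun μ e' he' ne => by
    have := Tendsto.const_mul e (Z (μ * conj e) (e * e') (by simp [he, he'])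
      fun k => ne (mul_left_cancel₀ e0 (k.trans (mul_one e).symm)))
    rw [mul_zero] at this
    exact this.congr fun s => by simp only [hyG, dd, map_mul, mul_assoc e]; ring)
  refine ⟨m₀ + 1, fun n hn => ?_⟩
  obtain ⟨m, rfl⟩ : ∃ m, n = m + 1 := ⟨n - 1, by omega⟩
  have := hm m (by omega)
  simp only [hc_mul, hf_rot, norm_mul, norm_pow, Complex.norm_conj, he, one_pow, one_mul] at this
  push_cast
  exact ⟨this.1.trans_eq (by ring), this.2.trans_eq (by ring)⟩

end Pool.Agent.Lib.MP_9dc04a_an
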