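import Pool.Agent.Lib.MP_9dc04a_an.HyCoef

set_option autoImplicit false

namespace Pool.Agent.Lib.MP_9dc04a_an

open Complex Metric Set Filter Topology
open scoped Real ComplexConjugate

lemma hk_ne {z : ℂ} (hz : ‖z‖ < 1) : 1 - z ≠ 0 ∧ 1 + z ≠ 0 :=
  ⟨fun e => by simp [← sub_eq_zero.1 e] at hz, fun e => by simp [eq_neg_of_add_eq_zero_right e] at hz⟩

lemma QG.ext {G : ℂ → ℂ} (q : QG G) (G0 : ‖G 0‖ ≤ 1)
    (h : ∀ t ∈ Ioo (0:ℝ) 1, 1 ≤ (1 - t) ^ 4 / (1 + t) ^ 2 * ‖G t‖) {z : ℂ} (hz : ‖z‖ < 1) :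
    G z = G 0 * ((1 + z) ^ 2 / (1 - z) ^ 4) := by
  have d := fun (w : ℂ) (hw : ‖w‖ < 1) => (q.dP hw).fun_div
    (((hasDerivAt_id' w).const_add 1).fun_pow 2) (pow_ne_zero _ (hk_ne hw).2)
  have e := hy_const isOpen_ball (convex_ball 0 1).isPreconnected (Q := fun w => hyP G w / (1 + w) ^ 2)
    (fun w hw => (d w (mem_ball_zero_iff.1 hw)).differentiableAt.differentiableWithinAt)
    (x₀ := 1 / 2) (by norm_num) (d := 1) (κ := fun x => 1 - x ^ 2) (by
      filter_upwards [Ioo_mem_nhds (show (0:ℝ) < 1 / 2 by norm_num) (show (1:ℝ) / 2 < 1 by norm_num)]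
        with x hx
      have nx : ‖(x:ℂ)‖ = x := by rw [Complex.norm_real, Real.norm_of_nonneg hx.1.le]
      have x1 := nx.trans_lt hx.2
      have p : 0 < 1 + x := by linarith [hx.1]
      refine ⟨?_, by nlinarith [hx.1, hx.2], ?_⟩
      · have a := (q.dist x1).trans (mul_le_of_le_one_right (by positivity) G0)
        have b := h x hx
        rw [nx] at a
        rw [div_mul_eq_mul_div] at b
        rw [norm_div, hy_nP, norm_pow, ← ofReal_one, ← ofReal_add, Complex.norm_real,
          Real.norm_of_nonneg p.le]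
        exact le_antisymm ((div_le_one (by positivity)).2 a) b
      · have a := mul_le_mul_of_nonneg_left (q.o _ x1)
          (norm_nonneg ((1 - x : ℂ) ^ 4 / (1 + x) ^ 2))
        rw [← norm_mul, mul_left_comm, ← norm_mul, nx, conj_ofReal] at a
        rw [(d x x1).deriv]
        have := (hk_ne x1).2
        refine le_of_eq_of_le (congrArg _ ?_) (a.trans_eq (by rw [hyP, div_mul_eq_mul_div]))
        rw [hyP]
        push_cast
        field_simp
        ring)
  have := (e z (mem_ball_zero_iff.2 hz)).trans (e 0 (mem_ball_self one_pos)).symm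
  obtain ⟨a, b⟩ := hk_ne hz
  simp only [hyP, sub_zero, add_zero, one_pow, one_mul, div_one] at this
  rw [← this]
  field_simp

lemma hk_typ {T : ℂ → ℂ} (d : DifferentiableOn ℂ T (ball 0 1)) (T0 : T 0 = 0) (T1 : deriv T 0 = 2)
    (sy : ∀ z, (T (conj z)).im = -(T z).im)
    (ne : ∀ z : ℂ, ‖z‖ < 1 → 0 < z.im → (T z).im ≠ 0) : ‖co 2 T‖ ≤ 4 := by
  have n0 := isOpen_ball.mem_nhds (mem_ball_self (x := (0:ℂ)) one_pos)
  have dS := (differentiableOn_dslope n0).2 d
  have eS : ∀ z, T z = z * dslope T 0 z := fun z => by simpa [T0] using (sub_smul_dslope T 0 z).symm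
  have S0 : dslope T 0 0 = 2 := by rw [dslope_same, T1]
  set S := dslope T 0
  have up : ∀ z : ℂ, ‖z‖ < 1 → 0 < z.im → 0 ≤ (T z).im := fun z hz hi => by
    have c : ContinuousAt (fun y : ℝ => (S (y * I)).re) 0 := continuous_re.continuousAt.comp
      (ContinuousAt.comp_of_eq (dS.continuousOn.continuousAt n0)
        (show ContinuousAt (fun y : ℝ => y * I) 0 by fun_prop) (by simp))
    obtain ⟨y, y1, y0, y2⟩ := (((c.eventually (lt_mem_nhds (show 0 < _ by simp [S0]))).filter_mono
      nhdsWithin_le_nhds).and (hy_small 2)).exists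
    by_contra hc
    obtain ⟨w, hw, e⟩ := ((convex_ball (0:ℂ) 1).inter (convex_halfSpace_im_gt 0)).isPreconnected
      |>.intermediate_value ⟨mem_ball_zero_iff.2 hz, hi⟩ (show (y * I : ℂ) ∈ _ from
        ⟨by simp [abs_of_pos y0]; linarith, by simpa using y0⟩)
        (continuous_im.comp_continuousOn (d.continuousOn.mono inter_subset_left))
        (show (0:ℝ) ∈ Icc _ _ from ⟨(not_le.1 hc).le, by
          simp only [Function.comp, eS (y * I)]
          simpa using mul_nonneg y0.le y1.le⟩)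
    exact ne w (mem_ball_zero_iff.1 hw.1) hw.2 e
  have e2 : co 2 T = deriv S 0 := by
    rw [show T = fun z => 1 * z ^ 1 * S z from funext fun z => by simpa using eS z,
      co_mul (by fun_prop) (dS.analyticAt n0)]
    simp only [Finset.sum_range_succ, co_pow]
    simp [co_one]
  have k : ∀ r ∈ Ioo (0:ℝ) 1, ‖deriv S 0‖ * r ≤ 4 := fun r hr => by
    have := carath (F := fun z => (z ^ 2 - r ^ 2) * S z) (B := 0) (DifferentiableOn.mul (by fun_prop) dS)
      hr.1 hr.2 (fun z hz => by
        have e : (z ^ 2 - r ^ 2) * S z = (2 * z.im : ℝ) * I * T z := by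
          rw [← sub_conj, eS z, ← hz, ← ofReal_pow, ← normSq_eq_norm_sq, ← mul_conj]; ring
        rw [e, mul_assoc, re_ofReal_mul, I_mul_re]
        rcases lt_trichotomy z.im 0 with h | h | h
        · have := up (conj z) (by simpa [hz] using hr.2) (by simpa using h)
          rw [sy] at this
          nlinarith
        · simp [h]
        · nlinarith [up z (hz.trans_lt hr.2) h]) one_ne_zero
    rw [co_one, ((((hasDerivAt_id' (0:ℂ)).fun_pow 2).sub_const _).fun_mul
      (dS.differentiableAt n0).hasDerivAt).deriv] at this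
    simp only [S0, ← ofReal_pow] at this
    simp [abs_of_pos hr.1, -ofReal_pow] at this
    exact le_of_mul_le_mul_left (by linarith) (pow_pos hr.1 2)
  rw [e2]
  refine le_of_tendsto ((Continuous.tendsto' (f := fun r : ℝ => ‖deriv S 0‖ * r) (by fun_prop) 1 _
    (mul_one _)).mono_left nhdsWithin_le_nhds) (mem_of_superset (Ioo_mem_nhdsLT one_pos) k)

theorem hk_koe {h g : ℂ → ℂ} (C : QCls h g) (h0 : h 0 = 0) (g0 : g 0 = 0) (h1 : deriv h 0 = 1)
    (g1 : deriv g 0 = 0)
    (K : ∀ z : ℂ, ‖z‖ < 1 → deriv h z + deriv g z = (1 + z) ^ 2 / (1 - z) ^ 4) (m : ℕ) :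
    ‖co (m + 1) h‖ = (m + 2) * (2 * m + 3) / 6 ∧ ‖co (m + 1) g‖ = m * (2 * m + 1) / 6 := by
  have z0 : (0:ℂ) ∈ ball (0:ℂ) 1 := mem_ball_self one_pos
  have n0 := isOpen_ball.mem_nhds z0
  have cj : ∀ {F : ℂ → ℂ}, DifferentiableOn ℂ F (ball 0 1) → ∀ z : ℂ, ‖z‖ < 1 →
      HasDerivAt (conj ∘ F ∘ conj) (conj (deriv F (conj z))) z := fun d z hz => by
    simpa using (wi_at d (a := conj z) (by simpa using hz)).conj_conj
  have cd : ∀ {F : ℂ → ℂ}, DifferentiableOn ℂ F (ball 0 1) →
      DifferentiableOn ℂ (conj ∘ F ∘ conj) (ball 0 1) := fun d z hz =>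
    (cj d z (mem_ball_zero_iff.1 hz)).differentiableAt.differentiableWithinAt
  have dU := C.dh.add C.dg
  have dV := C.dh.sub C.dg
  have eU : ∀ z : ℂ, ‖z‖ < 1 → deriv (h + g) z = (1 + z) ^ 2 / (1 - z) ^ 4 := fun z hz =>
    ((wi_at C.dh hz).add (wi_at C.dg hz)).deriv.trans (K z hz)
  have eV : ∀ z : ℂ, ‖z‖ < 1 → deriv (h - g) z = deriv h z - deriv g z := fun z hz =>
    ((wi_at C.dh hz).sub (wi_at C.dg hz)).deriv
  have a1 := hk_typ (dV.add (cd dV)) (by simp [h0, g0]) (by
      rw [((wi_at dV (by simp)).add (cj dV 0 (by simp))).deriv, map_zero, eV 0 (by simp), h1, g1]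
      norm_num) (fun z => by simp; ring) fun z hz hi e => by
    have := isOpen_ball.is_const_of_deriv_eq_zero (convex_ball 0 1).isPreconnected (dU.sub (cd dU))
      (fun w hw => by
        have hw := mem_ball_zero_iff.1 hw
        rw [((wi_at dU hw).sub (cj dU w hw)).deriv, eU w hw, eU _ (by simpa using hw)]
        simp) (mem_ball_zero_iff.2 hz) z0
    have a := congrArg re this
    simp [h0, g0] at a e
    have b := congrArg im (C.inj (mem_ball_zero_iff.2 hz) (mem_ball_zero_iff.2 (show ‖conj z‖ < 1 by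
      simpa using hz)) (Complex.ext (by simp; linarith) (by simp; linarith)))
    rw [conj_im] at b
    linarith
  have c2 : ∀ F : ℂ → ℂ, co 2 F = deriv (deriv F) 0 / 2 := fun F => by
    rw [co, iteratedDeriv_succ, iteratedDeriv_one]; norm_num
  have dh := wi_at (C.dh.deriv isOpen_ball) (a := 0) (by simp)
  have dg := wi_at (C.dg.deriv isOpen_ball) (a := 0) (by simp)
  have a2 : deriv (deriv (h - g)) 0 = deriv (deriv h) 0 - deriv (deriv g) 0 :=
    ((dh.sub dg).congr_of_eventuallyEq (mem_of_superset n0 fun z hz =>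
      eV z (mem_ball_zero_iff.1 hz))).deriv
  have a3 : deriv (deriv h) 0 + deriv (deriv g) 0 = 6 := by
    rw [(dh.add dg).unique (((((hasDerivAt_id' (0:ℂ)).const_add 1).fun_pow 2).fun_div
      (((hasDerivAt_id' (0:ℂ)).const_sub 1).fun_pow 4) (by simp)).congr_of_eventuallyEq
        (mem_of_superset n0 fun z hz => K z (mem_ball_zero_iff.1 hz)))]
    norm_num
  replace a1 := (re_le_norm _).trans ((congrArg norm (co_add (dV.analyticAt n0)
    ((cd dV).analyticAt n0) 2)).ge.trans a1)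
  rw [c2, c2, deriv_conj_conj, deriv_conj_conj] at a1
  have a4 := congrArg re a3
  simp [a2] at a1 a4
  have hn : ∀ z ∈ ball (0:ℂ) 1, deriv h z ≠ 0 := fun z hz =>
    norm_pos_iff.1 ((norm_nonneg _).trans_lt (C.jac z hz))
  have dω := (C.dg.deriv isOpen_ball).fun_div (C.dh.deriv isOpen_ball) hn
  have mω : MapsTo (fun z => deriv g z / deriv h z) (ball 0 1)
      (closedBall (deriv g 0 / deriv h 0) 1) := fun z hz => by
    rw [g1, zero_div, mem_closedBall_zero_iff, norm_div]
    exact div_le_one_of_le₀ (C.jac z hz).le (norm_nonneg _)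
  have a5 : deriv (fun z => deriv g z / deriv h z) 0 = deriv (deriv g) 0 := by
    rw [(dg.fun_div dh (hn 0 z0)).deriv, h1, g1]; simp
  have a6 := norm_deriv_le_div_of_mapsTo_ball dω mω one_pos
  rw [a5, div_one] at a6
  have a7 : deriv (deriv g) 0 = 1 := by
    have b := pow_le_pow_left₀ (norm_nonneg _) a6 2
    rw [Complex.sq_norm, normSq_apply] at b
    have c : (deriv (deriv g) 0).re = 1 := le_antisymm ((re_le_norm _).trans a6) (by linarith)
    rw [c] at b
    exact Complex.ext c (mul_self_eq_zero.1 (le_antisymm (by linarith) (mul_self_nonneg _)))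
  have a8 := affine_of_mapsTo_ball_of_norm_dslope_eq_div dω mω z0 (by rw [dslope_same, a5, a7]; simp)
  have key : ∀ z ∈ ball (0:ℂ) 1, deriv h z = 2 * (1 / (1 - z) ^ (3 + 1)) + -1 * (1 / (1 - z) ^ (2 + 1))
      ∧ deriv g z = 2 * (1 / (1 - z) ^ (3 + 1)) + (-3 * (1 / (1 - z) ^ (2 + 1)) +
        1 * (1 / (1 - z) ^ (1 + 1))) := fun z hz => by
    have b := a8 hz
    simp only [dslope_same, a5, a7, g1, zero_div, zero_add, sub_zero, smul_eq_mul, mul_one] at b
    rw [div_eq_iff (hn z hz)] at b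
    have c := K z (mem_ball_zero_iff.1 hz)
    obtain ⟨p1, p2⟩ := hk_ne (mem_ball_zero_iff.1 hz)
    have e : deriv h z = (1 + z) / (1 - z) ^ 4 := mul_left_cancel₀ p2 (by
      rw [b] at c; linear_combination c)
    rw [b, e]
    constructor <;> field_simp <;> ring
  have an : ∀ (k : ℕ) (a : ℂ), AnalyticAt ℂ (fun z : ℂ => a * (1 / (1 - z) ^ (k + 1))) 0 :=
    fun k a => analyticAt_const.mul (analyticAt_const.div (by fun_prop) (by simp))
  have b1 := co_deriv m h
  have b2 := co_deriv m g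
  rw [co_congr (mem_of_superset n0 fun z hz => (key z hz).1), co_add (an 3 2) (an 2 (-1)),
    hc_mul, hc_mul, hc_co, hc_co] at b1
  rw [co_congr (mem_of_superset n0 fun z hz => (key z hz).2), co_add (an 3 2) ((an 2 (-3)).fun_add
    (an 1 1)), co_add (an 2 (-3)) (an 1 1), hc_mul, hc_mul, hc_mul, hc_co, hc_co, hc_co,
    Nat.choose_one_right] at b2
  have t2 := congrArg ofReal (hc_two m)
  have t3 := congrArg ofReal (hc_three m)
  push_cast at t2 t3 b2
  have m1 := Nat.cast_add_one_ne_zero (R := ℂ) m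
  rw [show co (m + 1) h = ((m + 2) * (2 * m + 3) / 6 : ℝ) from mul_left_cancel₀ m1 (by
    push_cast; linear_combination 2 * t3 - t2 - b1), show co (m + 1) g = (m * (2 * m + 1) / 6 : ℝ) from
      mul_left_cancel₀ m1 (by push_cast; linear_combination 2 * t3 - 3 * t2 - b2),
    Complex.norm_real, Complex.norm_real]
  exact ⟨Real.norm_of_nonneg (by positivity), Real.norm_of_nonneg (by positivity)⟩

end Pool.Agent.Lib.MP_9dc04a_an
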