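import Pool.Agent.Lib.MP_9dc04a_an.HyBlow

set_option autoImplicit false

namespace Pool.Agent.Lib.MP_9dc04a_an

open Complex Metric Set Filter Topology
open scoped Real ComplexConjugate

structure QU (U G : ℂ → ℂ) : Prop where
  q : QG G
  d : ∀ z : ℂ, ‖z‖ < 1 → HasDerivAt U (G z) z
  u0 : U 0 = 0
  g0 : ‖G 0‖ ≤ 1

variable {U G : ℂ → ℂ}

lemma QG.rot (q : QG G) {e : ℂ} (he : ‖e‖ = 1) : QG fun z => e * G (e * z) := by
  have n : ∀ z, ‖e * z‖ = ‖z‖ := fun z => by rw [norm_mul, he, one_mul]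
  have d : ∀ z, ‖z‖ < 1 → HasDerivAt (fun z => e * G (e * z)) (e * (deriv G (e * z) * (e * 1))) z :=
    fun z hz => ((wi_at q.d ((n z).trans_lt hz)).comp z ((hasDerivAt_id' z).const_mul e)).const_mul e
  refine ⟨fun z hz => (d z (mem_ball_zero_iff.1 hz)).differentiableAt.differentiableWithinAt,
    fun a ha => ?_⟩
  have := q.o _ ((n a).trans_lt ha)
  have ee : e * conj e = 1 := by rw [mul_conj, normSq_eq_norm_sq, he]; simp
  rw [← n, ← n, n a] at this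
  rw [(d a ha).deriv, n]
  refine le_of_eq_of_le (congrArg _ ?_) this
  rw [map_mul]
  linear_combination (2 * e * conj a * G (e * a)) * ee

lemma QU.rot (k : QU U G) {e : ℂ} (he : ‖e‖ = 1) :
    QU (fun z => U (e * z)) fun z => e * G (e * z) :=
  ⟨k.q.rot he, fun z hz => ((k.d _ (by rwa [norm_mul, he, one_mul])).comp z
    ((hasDerivAt_id' z).const_mul e)).congr_deriv (by ring), by simp [k.u0],
    by simpa [he] using k.g0⟩

lemma QU.grow (k : QU U G) {z : ℂ} (hz : ‖z‖ < 1) : ‖U z‖ ≤ 4 / (1 - ‖z‖) ^ 3 := by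
  refine (wi_grow (fun w hw => (k.d w (mem_ball_zero_iff.1 hw)).differentiableAt.differentiableWithinAt)
    k.u0 (fun w hw => (k.d w hw).deriv ▸ k.q.dist' k.g0 hw) hz).trans (le_of_eq ?_)
  have := (sub_pos.2 hz).ne'
  field_simp

lemma hy_ns {s : ℝ} (s1 : s ≤ 1) : ‖(1:ℂ) - s‖ = 1 - s := by
  rw [← ofReal_one, ← ofReal_sub, Complex.norm_real, Real.norm_of_nonneg (by linarith)]

lemma QG.nP (q : QG G) (G0 : ‖G 0‖ ≤ 1) {s : ℝ} (s0 : 0 < s) (s1 : s ≤ 1) :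
    ‖hyP G (1 - s)‖ ≤ 4 := by
  have := q.dist' G0 (z := 1 - s) (by rw [hy_ns s1]; linarith)
  rw [hy_ns s1, sub_sub_cancel, le_div_iff₀ (by positivity)] at this
  rwa [hyP, sub_sub_cancel, norm_mul, norm_pow, Complex.norm_real, Real.norm_of_nonneg s0.le,
    mul_comm]

theorem QU.blow (k : QU U G) {R ε : ℝ} (R1 : 1 ≤ R) (ε0 : 0 < ε) :
    ∀ᶠ s : ℝ in 𝓝[>] 0, ∀ ζ : ℂ, 1 / R ≤ ζ.re → ‖ζ‖ ≤ R →
      ‖s ^ 3 * U (1 - s * ζ) - hyP G (1 - s) / 3 / ζ ^ 3‖ ≤ ε := by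
  set T := R + 12 / ε with hT
  have e0 : 0 < 12 / ε := by positivity
  have T1 : 1 ≤ T := by linarith
  have T0 : 0 < T := by linarith
  filter_upwards [k.q.blow k.g0 T1 (show 0 < ε / (4 * T ^ 5) by positivity), hy_small (T ^ 3)]
    with s hs ⟨s0, s1⟩ ζ h1 h2
  have T3 : T ≤ T ^ 3 := le_self_pow₀ T1 three_ne_zero
  have sT : s * T ≤ 1 := by nlinarith
  have c4 := k.q.nP k.g0 s0 (by nlinarith)
  generalize hyP G (1 - s) = c at *
  set K : Set ℂ := {ζ : ℂ | 1 / T ≤ ζ.re} ∩ closedBall 0 T with hK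
  have lo : ∀ w ∈ K, 1 / T ≤ ‖w‖ := fun w hw => hw.1.trans (re_le_norm w)
  have nz : ∀ w ∈ K, w ≠ 0 := fun w hw =>
    norm_pos_iff.1 ((one_div_pos.2 T0).trans_le (lo w hw))
  have mT : (T:ℂ) ∈ K := ⟨((div_le_one T0).2 T1).trans T1, by simp [abs_of_pos T0]⟩
  have a1 := Convex.norm_image_sub_le_of_norm_hasDerivWithin_le
    (f := fun ζ => s ^ 3 * U (1 - s * ζ) - c / 3 / ζ ^ 3)
    (f' := fun w => -(hyP G (1 - s * w) - c) / w ^ 4) (C := ε / (4 * T)) (s := K)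
    (fun w hw => (((((k.d _ ((hy_in T1 hw.1 (mem_closedBall_zero_iff.1 hw.2) s0 s1).trans_lt
      (sub_lt_self _ (by positivity)))).comp w (((hasDerivAt_id' w).const_mul (s:ℂ)).const_sub
        1)).const_mul ((s:ℂ) ^ 3)).sub ((hasDerivAt_const w (c / 3)).fun_div
          ((hasDerivAt_id' w).fun_pow 3) (pow_ne_zero _ (nz w hw)))).congr_deriv (by
            have := nz w hw
            rw [hyP]
            field_simp
            norm_num
            ring)).hasDerivWithinAt)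
    (fun w hw => by
      rw [norm_div, norm_neg, norm_pow]
      refine (div_le_div₀ (by positivity) (hs w hw.1 (mem_closedBall_zero_iff.1 hw.2))
        (by positivity) (pow_le_pow_left₀ (by positivity) (lo w hw) 4)).trans (le_of_eq ?_)
      field_simp)
    ((convex_halfSpace_re_ge _).inter (convex_closedBall _ _)) mT
    ⟨(one_div_le_one_div_of_le (by linarith) (by linarith)).trans h1,
      mem_closedBall_zero_iff.2 (by linarith : ‖ζ‖ ≤ T)⟩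
  have nT : ‖(T:ℂ)‖ = T := by simp [abs_of_pos T0]
  have a2 : ε / (4 * T) * ‖ζ - T‖ ≤ ε / (4 * T) * (2 * T) :=
    mul_le_mul_of_nonneg_left ((norm_sub_le _ _).trans (by linarith)) (by positivity)
  have p : 0 < s * T := by positivity
  have a3 := k.grow (z := 1 - (s * T : ℝ)) (by rw [hy_ns sT]; linarith)
  rw [hy_ns sT, sub_sub_cancel, ofReal_mul] at a3
  have a4 : ‖(s:ℂ) ^ 3 * U (1 - s * T)‖ ≤ 4 / T ^ 3 := by
    rw [norm_mul, norm_pow, Complex.norm_real, Real.norm_of_nonneg s0.le]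
    exact (mul_le_mul_of_nonneg_left a3 (by positivity)).trans (le_of_eq (by field_simp))
  have a5 : ‖c / 3 / (T:ℂ) ^ 3‖ ≤ 2 / T ^ 3 := by
    rw [norm_div, norm_div, norm_pow, nT, Complex.norm_ofNat]
    exact div_le_div_of_nonneg_right (by linarith) (by positivity)
  have a6 : 4 / T ^ 3 + 2 / T ^ 3 ≤ ε / 2 := by
    rw [← add_div, div_le_iff₀ (by positivity)]
    have : ε * (12 / ε) = 12 := by field_simp
    nlinarith
  rw [show ε / (4 * T) * (2 * T) = ε / 2 by field_simp; norm_num] at a2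
  linarith [norm_le_norm_sub_add ((s:ℂ) ^ 3 * U (1 - s * ζ) - c / 3 / ζ ^ 3)
    (s ^ 3 * U (1 - s * T) - c / 3 / (T:ℂ) ^ 3), norm_sub_le ((s:ℂ) ^ 3 * U (1 - s * T))
      (c / 3 / (T:ℂ) ^ 3)]

noncomputable def hyU : Ultrafilter ℝ := Ultrafilter.of (𝓝[>] 0)

lemma hyU_le : (hyU : Filter ℝ) ≤ 𝓝[>] 0 := Ultrafilter.of_le _

def hyB (U : ℂ → ℂ) (e c : ℂ) : Prop := ∀ R ε : ℝ, 1 ≤ R → 0 < ε → ∀ᶠ s : ℝ in hyU, ∀ ζ : ℂ,
  1 / R ≤ ζ.re → ‖ζ‖ ≤ R → ‖s ^ 3 * U (e * (1 - s * ζ)) - c / ζ ^ 3‖ ≤ ε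

def hyZ (G : ℂ → ℂ) (e : ℂ) : Prop :=
  Tendsto (fun s : ℝ => (s:ℂ) ^ 4 * G (e * (1 - s))) (𝓝[>] 0) (𝓝 0)

lemma QG.zero (q : QG G) {e : ℂ} (he : ‖e‖ = 1)
    (h : Tendsto (fun s : ℝ => (s:ℂ) ^ 4 * (e * G (e * (1 - s)))) hyU (𝓝 0)) : hyZ G e := by
  obtain ⟨d, hd, -⟩ := (q.rot he).lim
  simp only [hyP, sub_sub_cancel] at hd
  rw [tendsto_nhds_unique (hd.mono_left hyU_le) h.norm, norm_zero] at hd
  exact tendsto_zero_iff_norm_tendsto_zero.2 (by simpa [he] using hd)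

lemma QU.bl (k : QU U G) {e : ℂ} (he : ‖e‖ = 1) : ∃ c : ℂ, hyB U e (c / 3) ∧
    Tendsto (fun s : ℝ => (s:ℂ) ^ 4 * (e * G (e * (1 - s)))) hyU (𝓝 c) := by
  have k' := k.rot he
  obtain ⟨c, -, hc⟩ := (isCompact_closedBall (0:ℂ) 4).ultrafilter_le_nhds'
    (hyU.map fun s : ℝ => hyP (fun z => e * G (e * z)) (1 - s)) (Ultrafilter.mem_map.2
      (((hy_small 1).filter_mono hyU_le).mono fun s hs =>
        mem_closedBall_zero_iff.2 (k'.q.nP k'.g0 hs.1 (by linarith [hs.2]))))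
  refine ⟨c, fun R ε R1 ε0 => ?_, Tendsto.congr (fun s => by rw [hyP, sub_sub_cancel]) hc⟩
  filter_upwards [(k'.blow R1 (half_pos ε0)).filter_mono hyU_le, Tendsto.eventually hc
    (closedBall_mem_nhds c (show 0 < ε / R ^ 3 by positivity))] with s h1 h2 ζ a1 a2
  have a3 := h1 ζ a1 a2
  rw [dist_eq_norm] at h2
  generalize hyP (fun z => e * G (e * z)) (1 - s) = c' at *
  have a4 : ‖c' / 3 / ζ ^ 3 - c / 3 / ζ ^ 3‖ ≤ ε / 2 := by
    rw [← sub_div, ← sub_div, norm_div, norm_div, norm_pow, Complex.norm_ofNat]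
    refine (div_le_div₀ (by positivity) (div_le_div_of_nonneg_right h2 (by norm_num)) (by positivity)
      (pow_le_pow_left₀ (by positivity) (a1.trans (re_le_norm ζ)) 3)).trans ?_
    rw [show ε / R ^ 3 / 3 / (1 / R) ^ 3 = ε / 3 by field_simp]
    linarith
  linarith [norm_sub_le_norm_sub_add_norm_sub ((s:ℂ) ^ 3 * U (e * (1 - s * ζ))) (c' / 3 / ζ ^ 3)
    (c / 3 / ζ ^ 3)]

end Pool.Agent.Lib.MP_9dc04a_an
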