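import Pool.Agent.Lib.MP_9dc04a_an.Star2

set_option autoImplicit false

namespace Pool.Agent.Lib.MP_9dc04a_an

open Complex hiding sin cos sin_add_two_pi cos_add_two_pi exp log
open Metric Filter Topology Real MeasureTheory Set
open scoped Real

variable {F1 F2 F3 : ℂ → ℝ}

noncomputable def XX (F1 F2 F3 : ℂ → ℝ) (s Λ : ℝ) (e : Wt) (θ : ℝ) : ℝ :=
  WW F1 F2 F3 e θ (s + θ * I) - Λ * (e.a θ + e.b θ + e.c θ / 2)

def Opt (F1 F2 F3 : ℂ → ℝ) (s Λ : ℝ) (e : Wt) : Prop :=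
  Adm e ∧ ∀ f, Adm f → val F1 F2 F3 f s - Λ * cost f ≤ val F1 F2 F3 e s - Λ * cost e

noncomputable def bb (F1 F2 : ℂ → ℝ) (s Λ θ : ℝ) : ℝ :=
  max (F1 (s + θ * I) - Λ) 0 + max (F2 (s + θ * I) - F1 (s + θ * I) - Λ) 0

noncomputable def BB (F1 F2 : ℂ → ℝ) (s Λ θ : ℝ) : ℝ := bb F1 F2 s Λ θ + bb F1 F2 s Λ (π - θ)

noncomputable def CC (F3 : ℂ → ℝ) (s Λ θ : ℝ) : ℝ :=
  F3 (s + θ * I) + F3 (s + (π - θ : ℝ) * I) - 5 * Λ

lemma XX_le {f : Wt} (h : Pre f) (s Λ θ : ℝ) : XX F1 F2 F3 s Λ f θ ≤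
    f.c θ * (F3 (s + θ * I) - 5 / 2 * Λ) + (1 - f.c θ) * bb F1 F2 s Λ θ := by
  unfold XX WW bb
  have a : ∀ u x : ℝ, f.c θ ≤ u → u ≤ 1 → (u - f.c θ) * x ≤ (1 - f.c θ) * max x 0 :=
    fun u x h1 h2 => (mul_le_mul_of_nonneg_left (le_max_left x 0) (by linarith)).trans
      (mul_le_mul_of_nonneg_right (by linarith) (le_max_right _ _))
  have a1 := a (f.a θ) (F1 (s + θ * I) - Λ) ((h.cb θ).trans (h.ba θ)) (h.a1 θ)
  have a2 := a (f.b θ) (F2 (s + θ * I) - F1 (s + θ * I) - Λ) (h.cb θ) ((h.ba θ).trans (h.a1 θ))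
  linarith

lemma SD.opt_of (S : SD F1 F2 F3) {s Λ : ℝ} {e : Wt} (h : Adm e)
    (H : ∀ θ, max (BB F1 F2 s Λ θ) (CC F3 s Λ θ) ≤
      XX F1 F2 F3 s Λ e θ + XX F1 F2 F3 s Λ e (π - θ)) : Opt F1 F2 F3 s Λ e := by
  refine ⟨h, fun f hf => ?_⟩
  have per : ∀ g, Pre g → Function.Periodic (XX F1 F2 F3 s Λ g) (2 * π) := fun g hg θ => by
    have := S.Wper hg s θ
    simp only at this
    simp only [XX, this, hg.pa θ, hg.pb θ, hg.pc θ]
  have i : ∀ g, Pre g → ∀ a b, IntervalIntegrable (XX F1 F2 F3 s Λ g) volume a b :=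
    fun g hg a b => (S.ival hg s a b).sub ((hg.icost a b).const_mul Λ)
  have i' : ∀ g, Pre g →
      IntervalIntegrable (fun θ => XX F1 F2 F3 s Λ g (π - θ)) volume 0 (2 * π) := fun g hg => by
    simpa using (i g hg (π - 0) (π - 2 * π)).comp_sub_left π
  have k : ∀ g, Pre g → ∫ θ in (0:ℝ)..2 * π, (XX F1 F2 F3 s Λ g θ + XX F1 F2 F3 s Λ g (π - θ)) =
      2 * (val F1 F2 F3 g s - Λ * cost g) := by
    intro g hg
    rw [intervalIntegral.integral_add (i g hg _ _) (i' g hg), int_refl (per g hg), ← two_mul, val,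
      cost, ← intervalIntegral.integral_const_mul Λ,
      ← intervalIntegral.integral_sub (S.ival hg _ _ _) ((hg.icost _ _).const_mul Λ)]
    rfl
  have := intervalIntegral.integral_mono_on (by positivity : (0:ℝ) ≤ 2 * π)
    ((i f hf.toPre _ _).add (i' f hf.toPre)) ((i e h.toPre _ _).add (i' e h.toPre))
    (fun θ _ => le_trans ?_ (H θ))
  · rw [k f hf.toPre, k e h.toPre] at this; linarith
  · have a := XX_le (F1 := F1) (F2 := F2) (F3 := F3) hf.toPre s Λ θ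
    have b := XX_le (F1 := F1) (F2 := F2) (F3 := F3) hf.toPre s Λ (π - θ)
    rw [hf.ev] at b
    have c := mul_le_mul_of_nonneg_left (le_max_right (BB F1 F2 s Λ θ) (CC F3 s Λ θ)) (hf.c0 θ)
    have d := mul_le_mul_of_nonneg_left (le_max_left (BB F1 F2 s Λ θ) (CC F3 s Λ θ))
      (by linarith [hf.cb θ, hf.ba θ, hf.a1 θ] : 0 ≤ 1 - f.c θ)
    generalize max (BB F1 F2 s Λ θ) (CC F3 s Λ θ) = m at *
    unfold BB at d
    unfold CC at c
    linarith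

lemma SD.opt_lin (S : SD F1 F2 F3) {s Λ t l : ℝ} {e : Wt} (h : Opt F1 F2 F3 s Λ e) (hΛ : 0 ≤ Λ)
    (ht : 0 ≤ t) (l0 : 0 ≤ l) (l1 : l ≤ 1) :
    vv F1 F2 F3 s t + 2 * Λ * (l * (cost e / 2 - t)) ≤ vv F1 F2 F3 s (t + l * (cost e / 2 - t)) := by
  have a : vv F1 F2 F3 s t ≤ val F1 F2 F3 e s - Λ * cost e + Λ * (2 * t) :=
    v_le ht fun f hf hc => by linarith [h.2 f hf, mul_le_mul_of_nonneg_left hc hΛ]
  have b := S.le_v h.1 (t := cost e / 2) (by linarith) s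
  have c := S.v_conc s (t := t) (t' := cost e / 2) (p := 1 - l) (q := l) ht
    (by linarith [h.1.cost0]) (by linarith) l0 (by ring)
  rw [show (1 - l) * t + l * (cost e / 2) = t + l * (cost e / 2 - t) by ring] at c
  nlinarith

lemma SD.opt_eq (S : SD F1 F2 F3) {s Λ t : ℝ} {e : Wt} (h : Opt F1 F2 F3 s Λ e) (hΛ : 0 ≤ Λ)
    (ht : 0 ≤ t) (H : ∀ᶠ x in 𝓝[≠] (0:ℝ), vv F1 F2 F3 s (t + x) < vv F1 F2 F3 s t + 2 * Λ * x) :
    cost e = 2 * t ∧ val F1 F2 F3 e s = vv F1 F2 F3 s t := by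
  have e1 : cost e = 2 * t := by
    by_contra hc
    have ne : cost e / 2 - t ≠ 0 := fun h => hc (by linarith)
    have td : Tendsto (fun l : ℝ => l * (cost e / 2 - t)) (𝓝[>] 0) (𝓝[≠] 0) := by
      refine tendsto_nhdsWithin_iff.2 ⟨?_, ?_⟩
      · have : Continuous fun l : ℝ => l * (cost e / 2 - t) := by fun_prop
        simpa using (this.tendsto 0).mono_left nhdsWithin_le_nhds
      · filter_upwards [self_mem_nhdsWithin] with l hl
        exact mul_ne_zero (ne_of_gt hl) ne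
    obtain ⟨l, h1, h2⟩ := ((td.eventually H).and (Ioc_mem_nhdsGT zero_lt_one)).exists
    linarith [S.opt_lin h hΛ ht h2.1.le h2.2]
  refine ⟨e1, le_antisymm (S.le_v h.1 e1.le s) (v_le ht fun f hf hc => ?_)⟩
  have := h.2 f hf
  rw [e1] at this
  linarith [mul_le_mul_of_nonneg_left hc hΛ]

lemma SD.bb_cont (S : SD F1 F2 F3) (s Λ : ℝ) : Continuous (bb F1 F2 s Λ) := by
  have := S.c1; have := S.c2
  unfold bb; fun_prop

lemma SD.BB_cont (S : SD F1 F2 F3) (s Λ : ℝ) : Continuous (BB F1 F2 s Λ) := by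
  have := S.bb_cont s Λ
  unfold BB; fun_prop

lemma SD.CC_cont (S : SD F1 F2 F3) (s Λ : ℝ) : Continuous (CC F3 s Λ) := by
  have := S.c3
  unfold CC; fun_prop

lemma per_F {F : ℂ → ℝ} (p : ∀ σ, F (σ + 2 * π * I) = F σ) (s : ℝ) :
    Function.Periodic (fun θ : ℝ => F (s + θ * I)) (2 * π) := fun θ => by
  refine Eq.trans (congrArg F ?_) (p (s + θ * I)); push_cast; ring

open Classical in
noncomputable def sel (F1 F2 F3 : ℂ → ℝ) (s Λ : ℝ) : Wt :=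
  ⟨fun θ => if BB F1 F2 s Λ θ < CC F3 s Λ θ ∨ Λ < F1 (s + θ * I) then 1 else 0,
   fun θ => if BB F1 F2 s Λ θ < CC F3 s Λ θ ∨ Λ < F2 (s + θ * I) - F1 (s + θ * I) then 1 else 0,
   fun θ => if BB F1 F2 s Λ θ < CC F3 s Λ θ then 1 else 0⟩

lemma BB_ev (s Λ θ : ℝ) : BB F1 F2 s Λ (π - θ) = BB F1 F2 s Λ θ := by
  simp only [BB, sub_sub_cancel]; ring

lemma CC_ev (s Λ θ : ℝ) : CC F3 s Λ (π - θ) = CC F3 s Λ θ := by
  simp only [CC, sub_sub_cancel]; ring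

lemma SD.sel_adm (S : SD F1 F2 F3) (s Λ : ℝ) : Adm (sel F1 F2 F3 s Λ) := by
  have o := (isOpen_lt (S.BB_cont s Λ) (S.CC_cont s Λ))
  have c1 : Continuous fun θ : ℝ => F1 (s + θ * I) := S.c1.comp (by fun_prop)
  have c2 : Continuous fun θ : ℝ => F2 (s + θ * I) := S.c2.comp (by fun_prop)
  have q1 := per_F S.p1 s
  have q2 := per_F S.p2 s
  have q3 := per_F S.p3 s
  have pb : Function.Periodic (bb F1 F2 s Λ) (2 * π) := fun θ => by
    have a := q1 θ; have b := q2 θ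
    simp only at a b
    simp only [bb, a, b]
  have pB : ∀ θ, BB F1 F2 s Λ (θ + 2 * π) = BB F1 F2 s Λ θ := fun θ => by
    rw [BB, BB, pb, ← pb (π - (θ + 2 * π))]; congr 2; ring
  have pC : ∀ θ, CC F3 s Λ (θ + 2 * π) = CC F3 s Λ θ := fun θ => by
    have a := q3 θ; have b := q3 (π - (θ + 2 * π))
    simp only at a b
    rw [CC, CC, a, ← b, show π - (θ + 2 * π) + 2 * π = π - θ by ring]
  refine ⟨⟨Measurable.ite (o.union (isOpen_lt continuous_const c1)).measurableSet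
      measurable_const measurable_const,
    Measurable.ite (o.union (isOpen_lt continuous_const (c2.sub c1))).measurableSet
      measurable_const measurable_const,
    Measurable.ite o.measurableSet measurable_const measurable_const,
    fun θ => ?_, fun θ => ?_, fun θ => ?_, fun θ => ?_, fun θ => ?_, fun θ => ?_, fun θ => ?_⟩,
    fun θ => ?_⟩ <;> simp only [sel]
  · have a := q1 θ
    simp only at a
    simp only [pB, pC, a]
  · have a := q1 θ; have b := q2 θ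
    simp only at a b
    simp only [pB, pC, a, b]
  · simp only [pB, pC]
  · split_ifs <;> norm_num
  · split_ifs with h1 h2 <;> first | exact absurd (Or.inl h1) h2 | norm_num
  · split_ifs with h1 h2 <;> first | norm_num | skip
    refine h2 (h1.imp id fun h => ?_)
    linarith [S.l21 (s + θ * I)]
  · split_ifs <;> norm_num
  · simp only [BB_ev, CC_ev]

lemma SD.sel_opt (S : SD F1 F2 F3) (s Λ : ℝ) : Opt F1 F2 F3 s Λ (sel F1 F2 F3 s Λ) := by
  refine S.opt_of (S.sel_adm s Λ) fun θ => ?_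
  by_cases h : BB F1 F2 s Λ θ < CC F3 s Λ θ
  · rw [max_eq_right h.le]
    simp only [XX, WW, sel, BB_ev, CC_ev, h, true_or, if_true]
    unfold CC; linarith
  · rw [max_eq_left (not_lt.1 h)]
    have k : ∀ ϑ, ¬ BB F1 F2 s Λ ϑ < CC F3 s Λ ϑ →
        bb F1 F2 s Λ ϑ ≤ XX F1 F2 F3 s Λ (sel F1 F2 F3 s Λ) ϑ := by
      intro ϑ h
      simp only [XX, WW, sel, h, false_or, if_false, bb]
      have := S.l21 (s + ϑ * I)
      split_ifs with h1 h2 h2
      · rw [max_eq_left (by linarith), max_eq_left (by linarith)]; linarith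
      · rw [max_eq_left (by linarith), max_eq_right (by linarith)]; linarith
      · linarith
      · rw [max_eq_right (by linarith), max_eq_right (by linarith)]; linarith
    exact add_le_add (k θ h) (k _ (by rwa [BB_ev, CC_ev]))

lemma bb_ge (s Λ θ : ℝ) : F2 (s + θ * I) - 2 * Λ ≤ bb F1 F2 s Λ θ := by
  unfold bb
  linarith [le_max_left (F1 (s + θ * I) - Λ) 0,
    le_max_left (F2 (s + θ * I) - F1 (s + θ * I) - Λ) 0]

lemma SD.sel_c0 (S : SD F1 F2 F3) (s : ℝ) {Λ : ℝ} (hΛ : 0 < Λ) :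
    (∀ᶠ θ in 𝓝 (π / 2), (sel F1 F2 F3 s Λ).c θ = 0) ∧
    ∀ᶠ θ in 𝓝 (-(π / 2)), (sel F1 F2 F3 s Λ).c θ = 0 := by
  have k : ∀ α, CC F3 s Λ α < BB F1 F2 s Λ α → ∀ᶠ θ in 𝓝 α, (sel F1 F2 F3 s Λ).c θ = 0 := by
    intro α h
    filter_upwards [(S.CC_cont s Λ).continuousAt.eventually_lt (S.BB_cont s Λ).continuousAt h]
      with θ hθ
    simp only [sel, not_lt.2 hθ.le, if_false]
  refine ⟨k _ ?_, k _ ?_⟩
  · have := bb_ge (F1 := F1) (F2 := F2) s Λ (π / 2)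
    rw [CC, BB, show π - π / 2 = π / 2 by ring, S.ax1]; linarith
  · have a := bb_ge (F1 := F1) (F2 := F2) s Λ (-(π / 2))
    have b := bb_ge (F1 := F1) (F2 := F2) s Λ (π - -(π / 2))
    have c := per_F S.p2 s (-(π / 2))
    have d := per_F S.p3 s (-(π / 2))
    simp only at c d
    rw [show -(π / 2) + 2 * π = π - -(π / 2) by ring] at c d
    rw [CC, BB, d, S.ax2]; linarith

lemma SD.cases (S : SD F1 F2 F3) (s : ℝ) {Λ : ℝ} (hΛ : 0 < Λ) :
    (∃ e, Opt F1 F2 F3 s Λ e ∧ Jump e) ∨ Opt F1 F2 F3 s Λ ⟨fun _ => 0, fun _ => 0, fun _ => 0⟩ ∨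
    (Opt F1 F2 F3 s Λ ⟨fun _ => 1, fun _ => 0, fun _ => 0⟩ ∧
      ∀ θ : ℝ, Λ ≤ F1 (s + θ * I) ∧ F2 (s + θ * I) - F1 (s + θ * I) ≤ Λ) ∨
    (Opt F1 F2 F3 s Λ ⟨fun _ => 1, fun _ => 1, fun _ => 0⟩ ∧
      ∀ θ : ℝ, Λ ≤ F2 (s + θ * I) - F1 (s + θ * I) ∧ F3 (s + θ * I) - F2 (s + θ * I) ≤ Λ) := by
  have ad := S.sel_adm s Λ
  have c1 : Continuous fun θ : ℝ => F1 (s + θ * I) := S.c1.comp (by fun_prop)
  have c2 : Continuous fun θ : ℝ => F2 (s + θ * I) - F1 (s + θ * I) :=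
    (S.c2.comp (by fun_prop)).sub c1
  by_cases h5 : ∃ β, BB F1 F2 s Λ β < CC F3 s Λ β
  · obtain ⟨β, hβ⟩ := h5
    refine Or.inl ⟨_, S.sel_opt s Λ, ad.jump_c (β := β) (S.sel_c0 s hΛ).1 (S.sel_c0 s hΛ).2 ?_⟩
    filter_upwards [(S.BB_cont s Λ).continuousAt.eventually_lt (S.CC_cont s Λ).continuousAt hβ]
      with θ hθ
    simp only [sel, hθ, if_true]
  push Not at h5
  have mx : ∀ θ, max (BB F1 F2 s Λ θ) (CC F3 s Λ θ) = BB F1 F2 s Λ θ := fun θ => max_eq_left (h5 θ)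
  by_cases h1 : ∀ θ : ℝ, F1 (s + θ * I) ≤ Λ
  · refine Or.inr (Or.inl (S.opt_of (adm_const le_rfl le_rfl le_rfl zero_le_one) fun θ => ?_))
    have k : ∀ ϑ, bb F1 F2 s Λ ϑ = 0 := fun ϑ => by
      rw [bb, max_eq_right (by linarith [h1 ϑ]),
        max_eq_right (by linarith [h1 ϑ, S.l21 (s + ϑ * I)]), add_zero]
    rw [mx]; simp [BB, k, XX, WW]
  push Not at h1
  obtain ⟨β, hβ⟩ := h1
  by_cases h1 : ∃ α : ℝ, F1 (s + α * I) < Λ
  · obtain ⟨α, hα⟩ := h1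
    refine Or.inl ⟨_, S.sel_opt s Λ, ad.jump_a (α := α) (β := β) ?_ ?_⟩
    · filter_upwards [c1.continuousAt.eventually_lt continuousAt_const hα] with θ hθ
      simp only [sel, not_lt.2 (h5 θ), not_lt.2 hθ.le, or_self, if_false]
    · filter_upwards [continuousAt_const.eventually_lt c1.continuousAt hβ] with θ hθ
      simp only [sel, hθ, or_true, if_true]
  push Not at h1
  by_cases h2 : ∀ θ : ℝ, F2 (s + θ * I) - F1 (s + θ * I) ≤ Λ
  · refine Or.inr (Or.inr (Or.inl ⟨S.opt_of (adm_const le_rfl le_rfl zero_le_one le_rfl)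
      fun θ => ?_, fun θ => ⟨h1 θ, h2 θ⟩⟩))
    have k : ∀ ϑ, bb F1 F2 s Λ ϑ = F1 (s + ϑ * I) - Λ := fun ϑ => by
      rw [bb, max_eq_left (by linarith [h1 ϑ]), max_eq_right (by linarith [h2 ϑ]), add_zero]
    rw [mx]; simp only [BB, k, XX, WW]; linarith
  push Not at h2
  obtain ⟨β, hβ⟩ := h2
  by_cases h2 : ∃ α : ℝ, F2 (s + α * I) - F1 (s + α * I) < Λ
  · obtain ⟨α, hα⟩ := h2
    refine Or.inl ⟨_, S.sel_opt s Λ, ad.jump_b (α := α) (β := β) ?_ ?_⟩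
    · filter_upwards [c2.continuousAt.eventually_lt continuousAt_const hα] with θ hθ
      simp only [sel, not_lt.2 (h5 θ), not_lt.2 hθ.le, or_self, if_false]
    · filter_upwards [continuousAt_const.eventually_lt c2.continuousAt hβ] with θ hθ
      simp only [sel, hθ, or_true, if_true]
  push Not at h2
  have k : ∀ ϑ, bb F1 F2 s Λ ϑ = F2 (s + ϑ * I) - 2 * Λ := fun ϑ => by
    rw [bb, max_eq_left (by linarith [h1 ϑ]), max_eq_left (by linarith [h2 ϑ])]; ring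
  refine Or.inr (Or.inr (Or.inr ⟨S.opt_of (adm_const le_rfl zero_le_one le_rfl le_rfl)
      fun θ => ?_, fun θ => ⟨h2 θ, ?_⟩⟩))
  · rw [mx]; simp only [BB, k, XX, WW]; linarith
  · have := h5 θ
    rw [BB, CC, k, k] at this
    linarith [S.l23 (s + (π - θ : ℝ) * I)]

def Circ (F1 F2 F3 : ℂ → ℝ) (s t : ℝ) : Prop :=
  ∀ r0 > 0, ∃ r, 0 < r ∧ r < r0 ∧ ∃ n : ℝ → ℝ, Continuous n ∧
    (∀ φ, vv F1 F2 F3 (s + r * cos φ) (t + r * sin φ) +
      vv F1 F2 F3 (s + r * cos φ) (t - r * sin φ) ≤ n φ) ∧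
    ∫ φ in (0:ℝ)..2 * π, n φ < 4 * π * vv F1 F2 F3 s t

lemma SD.touch (S : SD F1 F2 F3) {s t Λ : ℝ} (hΛ : 0 < Λ) (ht : 0 < t)
    (H : ∀ᶠ x in 𝓝[≠] (0:ℝ), vv F1 F2 F3 s (t + x) < vv F1 F2 F3 s t + 2 * Λ * x)
    (c : Circ F1 F2 F3 s t) :
    (t = π ∧ ∀ θ : ℝ, Λ ≤ F1 (s + θ * I) ∧ F2 (s + θ * I) - F1 (s + θ * I) ≤ Λ) ∨
    (t = 2 * π ∧ vv F1 F2 F3 s t = ∫ θ in (0:ℝ)..2 * π, F2 (s + θ * I) ∧
      ∀ θ : ℝ, Λ ≤ F2 (s + θ * I) - F1 (s + θ * I) ∧ F3 (s + θ * I) - F2 (s + θ * I) ≤ Λ) := by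
  rcases S.cases s hΛ with ⟨e, he, j⟩ | h | ⟨h, h'⟩ | ⟨h, h'⟩
  · obtain ⟨a, b⟩ := S.opt_eq he hΛ.le ht.le H
    obtain ⟨r0, h0, hr⟩ := S.circ he.1 j s a
    obtain ⟨r, r1, r2, n, hn, h1, h2⟩ := c r0 h0
    have := hr r r1 r2 n hn h1
    rw [b] at this
    linarith
  · have := (S.opt_eq h hΛ.le ht.le H).1
    rw [cost_const] at this
    linarith
  · have := (S.opt_eq h hΛ.le ht.le H).1
    rw [cost_const] at this
    exact Or.inl ⟨by linarith, h'⟩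
  · obtain ⟨a, b⟩ := S.opt_eq h hΛ.le ht.le H
    rw [cost_const] at a
    refine Or.inr ⟨by linarith, ?_, h'⟩
    rw [← b]; simp [val, WW]

lemma SD.neum (S : SD F1 F2 F3) (s : ℝ) {t Λ : ℝ} (hΛ : 0 < Λ) (ht : 5 * π / 2 ≤ t) :
    ∀ᶠ x in 𝓝[>] (0:ℝ), vv F1 F2 F3 s t - 2 * Λ * x ≤ vv F1 F2 F3 s (t - x) := by
  have o := S.sel_opt s Λ
  set e := sel F1 F2 F3 s Λ
  have lt : cost e < 5 * π := by
    obtain ⟨δ, h0, hδ⟩ := Metric.eventually_nhds_iff.1 (S.sel_c0 s hΛ).1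
    set η := min δ π / 2 with hη
    have η0 : 0 < η := by have := lt_min h0 pi_pos; positivity
    have η1 : η < δ := by linarith [min_le_left δ π]
    have η2 : η < π := by linarith [min_le_right δ π, pi_pos]
    have b : ∀ θ, e.a θ + e.b θ + e.c θ / 2 ≤ 5 / 2 := fun θ => by
      linarith [o.1.a1 θ, o.1.ba θ, o.1.cb θ]
    have k : ∀ x y C : ℝ, x ≤ y → (∀ θ ∈ Icc x y, e.a θ + e.b θ + e.c θ / 2 ≤ C) →
        ∫ θ in x..y, (e.a θ + e.b θ + e.c θ / 2) ≤ (y - x) * C := fun x y C h1 h2 => by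
      simpa using intervalIntegral.integral_mono_on h1 (o.1.icost x y)
        (intervalIntegrable_const (c := C)) h2
    have k1 := k 0 (π / 2) _ (by positivity) fun θ _ => b θ
    have k2 := k (π / 2) (π / 2 + η) 2 (by linarith) fun θ hθ => by
      have : e.c θ = 0 := hδ (by
        rw [Real.dist_eq, abs_of_nonneg (by linarith [hθ.1])]; linarith [hθ.2])
      linarith [o.1.a1 θ, o.1.ba θ]
    have k3 := k (π / 2 + η) (2 * π) _ (by linarith [pi_pos]) fun θ _ => b θ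
    rw [cost, ← intervalIntegral.integral_add_adjacent_intervals (o.1.icost 0 (π / 2))
      (o.1.icost _ _), ← intervalIntegral.integral_add_adjacent_intervals
      (o.1.icost (π / 2) (π / 2 + η)) (o.1.icost _ _)]
    linarith
  have p : 0 < t - cost e / 2 := by linarith
  filter_upwards [Ioc_mem_nhdsGT p] with x hx
  have := S.opt_lin o hΛ.le (t := t) (l := x / (t - cost e / 2)) (by linarith [pi_pos])
    (div_nonneg hx.1.le p.le) ((div_le_one p).2 hx.2)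
  rw [show x / (t - cost e / 2) * (cost e / 2 - t) = -x by
    rw [← neg_sub t, mul_neg, div_mul_cancel₀ _ p.ne']] at this
  rw [sub_eq_add_neg t]; linarith

end Pool.Agent.Lib.MP_9dc04a_an
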