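import Pool.Agent.Lib.MP_9dc04a_an.Sub
import Pool.Agent.Lib.MP_9dc04a_an.Star3

set_option autoImplicit false

namespace Pool.Agent.Lib.MP_9dc04a_an

open Complex hiding sin cos sin_add_two_pi cos_add_two_pi exp log log_one log_exp
open Metric Filter Topology Real MeasureTheory Polynomial Finset
open scoped Real

lemma avg_lin {w : ℂ} {r : ℝ} (hr : 0 < r) (h : ∀ z : ℂ, ‖z‖ = r → 1 - w * z ≠ 0) :
    circleAverage (fun z => log ‖1 - w * z‖) 0 r = log⁺ (r * ‖w‖) := by
  by_cases hw : w = 0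
  · simp [hw, circleAverage_const]
  have w0 : 0 < ‖w‖ := norm_pos_iff.2 hw
  rw [circleAverage_congr_sphere (f₂ := fun z => log ‖w‖ + log ‖z - w⁻¹‖),
    circleAverage_fun_add (circleIntegrable_const _ _ _) (circleIntegrable_log_norm_sub_const r),
    circleAverage_const, circleAverage_log_norm_sub_const_eq_log_radius_add_posLog hr.ne']
  · have := posLog_sub_posLog_inv (x := r * ‖w‖)
    rw [log_mul hr.ne' w0.ne', mul_inv] at this
    rw [zero_sub, norm_neg, norm_inv]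
    linarith
  · intro z hz
    have hz : ‖z‖ = r := by simpa [abs_of_pos hr] using hz
    have e : 1 - w * z = -(w * (z - w⁻¹)) := by field_simp; ring
    have : z - w⁻¹ ≠ 0 := fun h0 => h z hz (by rw [e, h0]; simp)
    simp only [e, norm_neg, norm_mul]
    exact log_mul w0.ne' (norm_ne_zero_iff.2 this)

lemma PD.jensen {d : ℕ} {P D : ℂ[X]} (h : PD d P D) (μ : ℂ) {r : ℝ} (hr : 0 < r)
    (H : ∀ z : ℂ, ‖z‖ = r → P.eval z - μ * D.eval z ≠ 0) :
    circleAverage (fun z => log ‖P.eval z - μ * D.eval z‖) 0 r =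
      ∑ i, log⁺ (r * ‖rt d P D μ i‖) := by
  have n : ∀ i (z : ℂ), ‖z‖ = r → 1 - rt d P D μ i * z ≠ 0 := fun i z hz => by
    have := H z hz
    rw [h.ev] at this
    exact prod_ne_zero_iff.1 this i (mem_univ i)
  rw [circleAverage_congr_sphere (f₂ := fun z => ∑ i, log ‖1 - rt d P D μ i * z‖),
    circleAverage_fun_sum]
  · exact sum_congr rfl fun i _ => avg_lin hr (n i)
  · intro i _
    refine ContinuousOn.circleIntegrable hr.le (ContinuousOn.log (by fun_prop) fun z hz => ?_)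
    exact norm_ne_zero_iff.2 (n i z (by simpa using hz))
  · intro z hz
    have hz : ‖z‖ = r := by simpa [abs_of_pos hr] using hz
    simp only [h.ev, norm_prod]
    exact log_prod fun i _ => norm_ne_zero_iff.2 (n i z hz)

lemma swap_cont {K : ℝ → ℝ → ℝ} (hK : Continuous (Function.uncurry K)) :
    ∫ x in (0:ℝ)..2 * π, ∫ y in (0:ℝ)..2 * π, K x y =
      ∫ y in (0:ℝ)..2 * π, ∫ x in (0:ℝ)..2 * π, K x y := by
  have p2 : (0:ℝ) ≤ 2 * π := by positivity
  simp only [intervalIntegral.integral_of_le p2]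
  refine integral_integral_swap ?_
  rw [Measure.prod_restrict]
  exact (hK.continuousOn.integrableOn_compact (isCompact_Icc.prod isCompact_Icc)).mono_set
    (Set.prod_mono Set.Ioc_subset_Icc_self Set.Ioc_subset_Icc_self)

structure TB (d : ℕ) (P D1 : ℂ[X]) : Prop where
  pd : PD d P (X ^ 2 * D1)
  d2 : 2 ≤ d
  nP : ∀ z : ℂ, ‖z‖ < 1 → P.eval z ≠ 0
  nD : ∀ z : ℂ, ‖z‖ < 1 → D1.eval z ≠ 0
  c1 : ‖D1.eval 0‖ = 1

noncomputable def FF (d : ℕ) (P D1 : ℂ[X]) (k : ℕ) (σ : ℂ) : ℝ :=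
  GG k (rt d P (X ^ 2 * D1) (cexp (-σ)))

variable {d : ℕ} {P D1 : ℂ[X]}

lemma avg_log_poly {Q : ℂ[X]} (n : ∀ z : ℂ, ‖z‖ < 1 → Q.eval z ≠ 0) {r : ℝ} (r0 : 0 < r)
    (r1 : r < 1) : circleAverage (fun z => log ‖Q.eval z‖) 0 r = log ‖Q.eval 0‖ :=
  AnalyticOnNhd.circleAverage_log_norm_of_ne_zero (g := fun z => Q.eval z)
    (fun z _ => Q.differentiable.analyticAt z) fun z hz => n z (by
      rw [mem_closedBall_zero_iff, abs_of_pos r0] at hz; linarith)

lemma TB.nD' (h : TB d P D1) {z : ℂ} (z0 : 0 < ‖z‖) (z1 : ‖z‖ < 1) :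
    (X ^ 2 * D1).eval z ≠ 0 := by
  simp [h.nD z z1, norm_pos_iff.1 z0]

lemma TB.avgD (h : TB d P D1) {r : ℝ} (r0 : 0 < r) (r1 : r < 1) :
    circleAverage (fun z => log ‖(X ^ 2 * D1).eval z‖) 0 r = 2 * log r := by
  rw [circleAverage_congr_sphere (f₂ := fun z => 2 * log r + log ‖D1.eval z‖),
    circleAverage_fun_add (circleIntegrable_const _ _ _), circleAverage_const,
    avg_log_poly h.nD r0 r1, h.c1, log_one, add_zero]
  · refine ContinuousOn.circleIntegrable r0.le (ContinuousOn.log (by fun_prop) fun z hz => ?_)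
    exact norm_ne_zero_iff.2 (h.nD z (by simpa using (mem_sphere_zero_iff_norm.1 hz).trans_lt r1))
  · intro z hz
    have hz : ‖z‖ = r := by simpa [abs_of_pos r0] using hz
    simp only [eval_mul, eval_pow, eval_X, norm_mul, norm_pow, hz]
    rw [log_mul (by positivity) (norm_ne_zero_iff.2 (h.nD z (hz.trans_lt r1))), log_pow]
    norm_num

lemma TB.double (h : TB d P D1) {r : ℝ} (r0 : 0 < r) (r1 : r < 1) (s : ℝ)
    (H : ∀ (θ : ℝ) (z : ℂ), ‖z‖ = r → P.eval z - cexp (-(s + θ * I)) * (X ^ 2 * D1).eval z ≠ 0) :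
    ∫ θ in (0:ℝ)..2 * π, ∑ i, log⁺ (r * ‖rt d P (X ^ 2 * D1) (cexp (-(s + θ * I))) i‖) =
        2 * π * (2 * log r - s) ∨
    ∫ θ in (0:ℝ)..2 * π, ∑ i, log⁺ (r * ‖rt d P (X ^ 2 * D1) (cexp (-(s + θ * I))) i‖) = 0 := by
  set D := X ^ 2 * D1 with hD
  have nz : ∀ φ, ‖circleMap 0 r φ‖ = r := fun φ => by simp [abs_of_pos r0]
  have nD : ∀ φ, D.eval (circleMap 0 r φ) ≠ 0 := fun φ =>
    h.nD' (by rw [nz]; exact r0) (by rw [nz]; exact r1)
  have nP : ∀ φ, P.eval (circleMap 0 r φ) ≠ 0 := fun φ => h.nP _ (by rw [nz]; exact r1)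
  set K : ℝ → ℝ → ℝ := fun θ φ => log ‖P.eval (circleMap 0 r φ) -
    cexp (-(s + θ * I)) * D.eval (circleMap 0 r φ)‖ with hK
  have cK : Continuous (Function.uncurry K) := by
    refine Continuous.log ?_ fun x => norm_ne_zero_iff.2 (H _ _ (nz _))
    unfold circleMap; fun_prop
  have R0 : 0 < exp (-s) := exp_pos _
  have em : ∀ θ : ℝ, cexp (-(s + θ * I)) = circleMap 0 (exp (-s)) (0 - θ) := fun θ => by
    rw [circleMap, zero_add, ofReal_exp, ← Complex.exp_add]; congr 1; push_cast; ring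
  have inner : ∀ φ, ∫ θ in (0:ℝ)..2 * π, K θ φ = 2 * π * (log ‖D.eval (circleMap 0 r φ)‖ +
      (-s + log⁺ (exp s * (‖P.eval (circleMap 0 r φ)‖ / ‖D.eval (circleMap 0 r φ)‖)))) := by
    intro φ
    set p := P.eval (circleMap 0 r φ)
    set q := D.eval (circleMap 0 r φ)
    have q0 : q ≠ 0 := nD φ
    have e1 : ∀ θ, K θ φ = log ‖q‖ + log ‖circleMap 0 (exp (-s)) (0 - θ) - p / q‖ := fun θ => by
      have e : p - cexp (-(s + θ * I)) * q = -(q * (circleMap 0 (exp (-s)) (0 - θ) - p / q)) := by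
        rw [em]; field_simp; ring
      have n := H θ _ (nz φ)
      change p - cexp (-(s + θ * I)) * q ≠ 0 at n
      change log ‖p - cexp (-(s + θ * I)) * q‖ = _
      rw [e] at n ⊢
      rw [norm_neg, norm_mul, log_mul (norm_ne_zero_iff.2 q0)
        (norm_ne_zero_iff.2 (right_ne_zero_of_mul (neg_ne_zero.1 n)))]
    have e2 := circleAverage_log_norm_sub_const_eq_log_radius_add_posLog (c := 0) (a := p / q) R0.ne'
    have e3 : circleAverage (fun z => log ‖q‖ + log ‖z - p / q‖) 0 (exp (-s)) =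
        log ‖q‖ + (log (exp (-s)) + log⁺ ((exp (-s))⁻¹ * ‖0 - p / q‖)) := by
      rw [circleAverage_fun_add (circleIntegrable_const _ _ _)
        (circleIntegrable_log_norm_sub_const _), circleAverage_const, e2]
    rw [circleAverage_def, smul_eq_mul, inv_mul_eq_iff_eq_mul₀ (by positivity)] at e3
    simp only [e1]
    rw [int_refl (g := fun θ => log ‖q‖ + log ‖circleMap 0 (exp (-s)) θ - p / q‖)
      (fun θ => by simp only [periodic_circleMap 0 (exp (-s)) θ]), e3, log_exp, zero_sub, norm_neg,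
      norm_div, ← Real.exp_neg, neg_neg]
  have e4 : ∫ θ in (0:ℝ)..2 * π, ∑ i, log⁺ (r * ‖rt d P D (cexp (-(s + θ * I))) i‖) =
      ∫ φ in (0:ℝ)..2 * π, (log ‖D.eval (circleMap 0 r φ)‖ +
      (-s + log⁺ (exp s * (‖P.eval (circleMap 0 r φ)‖ / ‖D.eval (circleMap 0 r φ)‖)))) := by
    have := swap_cont cK
    simp only [inner] at this
    rw [intervalIntegral.integral_const_mul] at this
    refine mul_left_cancel₀ (by positivity : (2 * π : ℝ) ≠ 0) ?_
    rw [← this, ← intervalIntegral.integral_const_mul]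
    congr 1; funext θ
    rw [← h.pd.jensen _ r0 (H θ), circleAverage_def, smul_eq_mul, mul_inv_cancel_left₀ (by positivity)]
  rw [e4]
  set g : ℝ → ℝ := fun φ => exp s * (‖P.eval (circleMap 0 r φ)‖ / ‖D.eval (circleMap 0 r φ)‖)
    with hg
  have cg : Continuous g := by
    refine continuous_const.mul (Continuous.div ?_ ?_ fun φ => norm_ne_zero_iff.2 (nD φ)) <;>
      unfold circleMap <;> fun_prop
  have g0 : ∀ φ, 0 < g φ := fun φ =>
    mul_pos (exp_pos _) (div_pos (norm_pos_iff.2 (nP φ)) (norm_pos_iff.2 (nD φ)))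
  have g1 : ∀ φ, g φ ≠ 1 := by
    intro φ hφ
    set p := P.eval (circleMap 0 r φ)
    set q := D.eval (circleMap 0 r φ)
    refine H (-arg (p / q)) _ (nz φ) ?_
    change p - cexp _ * q = 0
    have a : ‖p / q‖ = exp (-s) := by
      rw [norm_div, Real.exp_neg]; exact (eq_inv_of_mul_eq_one_right hφ)
    have b := norm_mul_exp_arg_mul_I (p / q)
    rw [a, ← zero_add (_ * _)] at b
    rw [em, zero_sub, neg_neg, circleMap, b, div_mul_cancel₀ _ (nD φ), sub_self]
  have aD := h.avgD r0 r1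
  have aP := avg_log_poly h.nP r0 r1
  rw [circleAverage_def, smul_eq_mul, inv_mul_eq_iff_eq_mul₀ (by positivity)] at aD aP
  by_cases c : ∀ φ, g φ < 1
  · left
    have : ∀ φ, log⁺ (g φ) = 0 := fun φ =>
      (posLog_eq_zero_iff _).2 (by rw [abs_of_pos (g0 φ)]; exact (c φ).le)
    simp only [hg] at this
    simp only [this]
    rw [intervalIntegral.integral_add _ intervalIntegrable_const, aD]
    · simp; ring
    · refine Continuous.intervalIntegrable (Continuous.log ?_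
        fun φ => norm_ne_zero_iff.2 (nD φ)) _ _
      unfold circleMap; fun_prop
  · right
    push Not at c
    obtain ⟨φ0, h0⟩ := c
    have : ∀ φ, 1 ≤ g φ := fun φ => by
      by_contra hc
      obtain ⟨x, hx⟩ := intermediate_value_univ φ φ0 cg ⟨(not_le.1 hc).le, h0⟩
      exact g1 x hx
    rw [h.pd.P0, norm_one, log_one, mul_zero] at aP
    rw [← aP]
    congr 1; funext φ
    have a := posLog_eq_log (x := g φ) (by rw [abs_of_pos (g0 φ)]; exact this φ)
    simp only [hg] at a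
    rw [a, log_mul (exp_pos _).ne' (div_pos (norm_pos_iff.2 (nP φ)) (norm_pos_iff.2 (nD φ))).ne',
      log_div (norm_ne_zero_iff.2 (nP φ)) (norm_ne_zero_iff.2 (nD φ)), log_exp]
    ring

lemma posLog_exp_mul {Λ x : ℝ} (hΛ : 0 ≤ Λ) (hx : 0 ≤ x) :
    log⁺ (exp (-Λ) * x) = max (log⁺ x - Λ) 0 := by
  rcases hx.eq_or_lt with rfl | hx
  · simp [hΛ]
  rw [posLog_apply, posLog_apply, log_mul (exp_pos _).ne' hx.ne', log_exp]
  simp only [max_def]
  split_ifs <;> linarith

lemma TB.gap (h : TB d P D1) {Λ : ℝ} (hΛ : 0 < Λ) (s : ℝ) {G : ℝ → ℝ} (cG : Continuous G)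
    (G0 : ∀ θ, 0 < G θ)
    (H : ∀ θ : ℝ, (∀ i, log⁺ ‖rt d P (X ^ 2 * D1) (cexp (-(s + θ * I))) i‖ ≠ Λ) ∧
      ∑ i, max (log⁺ ‖rt d P (X ^ 2 * D1) (cexp (-(s + θ * I))) i‖ - Λ) 0 = G θ) :
    ∫ θ in (0:ℝ)..2 * π, G θ = 2 * π * (-2 * Λ - s) := by
  have := h.double (r := exp (-Λ)) (exp_pos _) (by simpa using hΛ) s fun θ z hz => by
    rw [h.pd.ev]
    refine prod_ne_zero_iff.2 fun i _ h0 => (H θ).1 i ?_
    have a : ‖rt d P (X ^ 2 * D1) (cexp (-(s + θ * I))) i‖ * exp (-Λ) = 1 := by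
      rw [← hz, ← norm_mul, ← sub_eq_zero.1 h0, norm_one]
    rw [Real.exp_neg, mul_inv_eq_one₀ (exp_pos _).ne'] at a
    rw [a, posLog_eq_log (by rw [abs_of_pos (exp_pos _)]; simpa using hΛ.le), log_exp]
  simp only [posLog_exp_mul hΛ.le (norm_nonneg _), (H _).2, log_exp] at this
  rcases this with a | a
  · rw [a]; ring
  · exact absurd a (intervalIntegral.intervalIntegral_pos_of_pos (cG.intervalIntegrable _ _) G0
      (by positivity)).ne'

lemma TB.cont (h : TB d P D1) (k : ℕ) : Continuous (FF d P D1 k) :=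
  (h.pd.cont k).comp (by fun_prop)

lemma TB.H2 (h : TB d P D1) {Λ : ℝ} (hΛ : 0 < Λ) (s : ℝ)
    (H : ∀ θ : ℝ, Λ < FF d P D1 2 (s + θ * I) - FF d P D1 1 (s + θ * I) ∧
      FF d P D1 d (s + θ * I) - FF d P D1 2 (s + θ * I) < Λ) :
    ∫ θ in (0:ℝ)..2 * π, FF d P D1 2 (s + θ * I) = -2 * π * s := by
  have c : Continuous fun θ : ℝ => FF d P D1 2 (s + θ * I) := (h.cont 2).comp (by fun_prop)
  have k : ∀ θ : ℝ, 0 < FF d P D1 2 (s + θ * I) - 2 * Λ ∧
      (∀ i, log⁺ ‖rt d P (X ^ 2 * D1) (cexp (-(s + θ * I))) i‖ ≠ Λ) ∧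
      ∑ i, max (log⁺ ‖rt d P (X ^ 2 * D1) (cexp (-(s + θ * I))) i‖ - Λ) 0 =
        FF d P D1 2 (s + θ * I) - 2 * Λ := by
    intro θ
    obtain ⟨a, b⟩ := H θ
    unfold FF at a b ⊢
    set w := rt d P (X ^ 2 * D1) (cexp (-(s + θ * I)))
    obtain ⟨i, j, ij, e1, e2, l1, -⟩ := GG_sorted h.d2 w
    rw [e1, e2] at a
    rw [GG_top, e2] at b
    rw [e2]
    have l2 : ∀ l, l ≠ i → l ≠ j → log⁺ ‖w l‖ < Λ := fun l li lj => by
      have := sum_le_sum_of_subset_of_nonneg (f := fun l => log⁺ ‖w l‖)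
        (subset_univ {l, i, j}) fun _ _ _ => posLog_nonneg
      rw [sum_insert (by simp [li, lj]), sum_pair ij] at this
      linarith
    refine ⟨by linarith, fun l => ?_, ?_⟩
    · by_cases li : l = i
      · rw [li]; linarith
      by_cases lj : l = j
      · rw [lj]; linarith
      exact (l2 l li lj).ne
    · rw [← sum_subset (subset_univ {i, j}), sum_pair ij, max_eq_left (by linarith),
        max_eq_left (by linarith)]
      · ring
      · intro l _ hl
        simp only [mem_insert, mem_singleton, not_or] at hl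
        exact max_eq_right (by linarith [l2 l hl.1 hl.2])
  have := h.gap hΛ s (G := fun θ : ℝ => FF d P D1 2 (s + θ * I) - 2 * Λ) (c.sub continuous_const)
     (fun θ => (k θ).1) fun θ => (k θ).2
  rw [intervalIntegral.integral_sub (c.intervalIntegrable _ _) intervalIntegrable_const] at this
  simp only [intervalIntegral.integral_const, smul_eq_mul] at this
  linarith

lemma TB.H1 (h : TB d P D1) {lo hi : ℝ} (h0 : 0 < lo) (h1 : lo < hi) (s : ℝ)
    (H : ∀ θ : ℝ, hi ≤ FF d P D1 1 (s + θ * I) ∧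
      FF d P D1 2 (s + θ * I) - FF d P D1 1 (s + θ * I) ≤ lo) : False := by
  have c : Continuous fun θ : ℝ => FF d P D1 1 (s + θ * I) := (h.cont 1).comp (by fun_prop)
  have key : ∀ Λ, lo < Λ → Λ < hi →
      ∫ θ in (0:ℝ)..2 * π, FF d P D1 1 (s + θ * I) = 2 * π * (-Λ - s) := by
    intro Λ a1 a2
    have k : ∀ θ : ℝ, (∀ i, log⁺ ‖rt d P (X ^ 2 * D1) (cexp (-(s + θ * I))) i‖ ≠ Λ) ∧
        ∑ i, max (log⁺ ‖rt d P (X ^ 2 * D1) (cexp (-(s + θ * I))) i‖ - Λ) 0 =
          FF d P D1 1 (s + θ * I) - Λ := by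
      intro θ
      obtain ⟨a, b⟩ := H θ
      unfold FF at a b ⊢
      set w := rt d P (X ^ 2 * D1) (cexp (-(s + θ * I)))
      obtain ⟨i, j, ij, e1, e2, l1, l2⟩ := GG_sorted h.d2 w
      rw [e1, e2] at b
      rw [e1] at a ⊢
      refine ⟨fun l => ?_, ?_⟩
      · by_cases li : l = i
        · rw [li]; linarith
        · linarith [l2 l li]
      · rw [sum_eq_single i, max_eq_left (by linarith)]
        · intro l _ hl
          exact max_eq_right (by linarith [l2 l hl])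
        · simp
    have := h.gap (h0.trans a1) s (G := fun θ : ℝ => FF d P D1 1 (s + θ * I) - Λ)
      (c.sub continuous_const) (fun θ => by linarith [(H θ).1]) k
    rw [intervalIntegral.integral_sub (c.intervalIntegrable _ _) intervalIntegrable_const] at this
    simp only [intervalIntegral.integral_const, smul_eq_mul] at this
    linarith
  have a := key ((2 * lo + hi) / 3) (by linarith) (by linarith)
  have b := key ((lo + 2 * hi) / 3) (by linarith) (by linarith)
  nlinarith [pi_pos]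

lemma TB.sd (h : TB d P D1) {Y : Set ℝ} (hY : Y.Finite)
    (H : ∀ y : ℝ, y ∉ Y → #{i | 1 < ‖rt d P (X ^ 2 * D1) (y * I) i‖} ≤ 2) :
    SD (FF d P D1 1) (FF d P D1 2) (FF d P D1 d) := by
  have per : ∀ k σ, FF d P D1 k (σ + 2 * π * I) = FF d P D1 k σ := fun k σ => by
    unfold FF
    rw [neg_add, Complex.exp_add, Complex.exp_neg (2 * π * I), exp_two_pi_mul_I]; simp
  have sub : ∀ k c R, 0 < R → FF d P D1 k c ≤ circleAverage (FF d P D1 k) c R := fun k c R hR =>
    h.pd.sub k (m := fun σ => cexp (-σ)) (by fun_prop) c hR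
  have ax : ∀ y : ℝ, GG d (rt d P (X ^ 2 * D1) (y * I)) = GG 2 (rt d P (X ^ 2 * D1) (y * I)) := by
    have : (fun y : ℝ => GG d (rt d P (X ^ 2 * D1) (y * I))) =
        fun y : ℝ => GG 2 (rt d P (X ^ 2 * D1) (y * I)) := by
      refine Continuous.ext_on (hY.countable.dense_compl ℝ) ((h.pd.cont d).comp (by fun_prop))
        ((h.pd.cont 2).comp (by fun_prop)) fun y hy => le_antisymm ?_ (GG_mono h.d2 _)
      refine le_trans (le_of_eq ?_) (le_GG _ (H y hy))
      rw [GG_top, sum_filter]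
      refine sum_congr rfl fun i _ => ?_
      split_ifs with hi
      · rfl
      · exact (posLog_eq_zero_iff _).2 (by rw [abs_norm]; linarith)
    exact fun y => congrFun this y
  refine ⟨h.cont 1, h.cont 2, h.cont d, per 1, per 2, per d, sub 1, sub 2, sub d,
    fun σ => GG_nonneg _ _, fun σ => GG_mono one_le_two _, fun σ => ?_, fun σ => GG_mono h.d2 _,
    fun s => ?_, fun s => ?_⟩
  · obtain ⟨i, j, ij, e1, e2, l1, -⟩ := GG_sorted h.d2 (rt d P (X ^ 2 * D1) (cexp (-σ)))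
    unfold FF
    rw [e1, e2]; linarith
  · have : cexp (-(s + (π / 2 : ℝ) * I)) = (-exp (-s) : ℝ) * I := by
      rw [neg_add, Complex.exp_add, Complex.exp_neg (_ * I)]
      push_cast
      rw [exp_pi_div_two_mul_I]; simp
    unfold FF
    rw [this, ax]
  · have : cexp (-(s + (-(π / 2) : ℝ) * I)) = (exp (-s) : ℝ) * I := by
      rw [neg_add, Complex.exp_add]
      push_cast
      rw [neg_mul, neg_neg, exp_pi_div_two_mul_I]
    unfold FF
    rw [this, ax]

end Pool.Agent.Lib.MP_9dc04a_an
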