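import Pool.Agent.Lib.MP_9dc04a_an.Coef

set_option autoImplicit false

namespace Pool.Agent.Lib.MP_9dc04a_an

open Complex Metric Finset Filter Topology
open scoped Real ComplexConjugate

lemma co_const_mul (n : ℕ) (c : ℂ) (F : ℂ → ℂ) : co n (fun z => c * F z) = c * co n F := by
  unfold co
  rw [iteratedDeriv_const_mul_field, mul_div_assoc]

lemma co_scale (c : ℂ) (n : ℕ) : ∀ F : ℂ → ℂ, co n (fun z => F (c * z)) = c ^ n * co n F := by
  induction n with
  | zero => intro F; simp [co_zero]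
  | succ n ih =>
    intro F
    have h2 : ((n : ℂ) + 1) ≠ 0 := by exact_mod_cast Nat.succ_ne_zero n
    apply mul_left_cancel₀ h2
    have : deriv (fun z => F (c * z)) = fun z => c * deriv F (c * z) := by
      funext z; exact deriv_comp_mul_left c F z
    rw [← co_deriv, this, co_const_mul, ih, co_deriv]
    ring

noncomputable def mob (a w : ℂ) : ℂ := (w + a) / (1 + conj a * w)

lemma mob_den {a w : ℂ} (ha : ‖a‖ < 1) (hw : ‖w‖ < 1) : 1 + conj a * w ≠ 0 := by
  intro h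
  have : conj a * w = -1 := by linear_combination h
  have h2 := congrArg norm this
  rw [norm_mul, Complex.norm_conj, norm_neg, norm_one] at h2
  nlinarith [norm_nonneg a, norm_nonneg w]

lemma mob_sq {a w : ℂ} (ha : ‖a‖ < 1) (hw : ‖w‖ < 1) :
    1 - ‖mob a w‖ ^ 2 = (1 - ‖a‖ ^ 2) * (1 - ‖w‖ ^ 2) / ‖1 + conj a * w‖ ^ 2 := by
  have h := norm_ne_zero_iff.2 (mob_den ha hw)
  rw [mob, norm_div, div_pow, eq_div_iff (pow_ne_zero 2 h), sub_mul,
    div_mul_cancel₀ _ (pow_ne_zero 2 h)]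
  simp only [← normSq_eq_norm_sq, normSq_apply]
  simp
  ring

lemma one_sub_sq_pos {w : ℂ} (hw : ‖w‖ < 1) : 0 < 1 - ‖w‖ ^ 2 := by
  nlinarith [norm_nonneg w]

lemma mob_lt {a w : ℂ} (ha : ‖a‖ < 1) (hw : ‖w‖ < 1) : ‖mob a w‖ < 1 := by
  have h := norm_pos_iff.2 (mob_den ha hw)
  have h1 := mob_sq ha hw
  have h2 : 0 < (1 - ‖a‖ ^ 2) * (1 - ‖w‖ ^ 2) / ‖1 + conj a * w‖ ^ 2 :=
    div_pos (mul_pos (one_sub_sq_pos ha) (one_sub_sq_pos hw)) (by positivity)
  nlinarith [norm_nonneg (mob a w)]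

lemma mob_deriv {a w : ℂ} (ha : ‖a‖ < 1) (hw : ‖w‖ < 1) :
    HasDerivAt (mob a) (((1 - ‖a‖ ^ 2 : ℝ) : ℂ) / (1 + conj a * w) ^ 2) w := by
  have h1 : HasDerivAt (fun w => w + a) 1 w := (hasDerivAt_id w).add_const a
  have h2 : HasDerivAt (fun w => 1 + conj a * w) (conj a) w := by
    simpa using ((hasDerivAt_id w).const_mul (conj a)).const_add 1
  refine (h1.div h2 (mob_den ha hw)).congr_deriv ?_
  have := mul_conj a
  rw [normSq_eq_norm_sq] at this
  congr 1
  push_cast at this ⊢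
  linear_combination -this

lemma schwarz_pick {ω : ℂ → ℂ} (hd : DifferentiableOn ℂ ω (ball 0 1))
    (h1 : ∀ z ∈ ball (0:ℂ) 1, ‖ω z‖ < 1) {a : ℂ} (ha : ‖a‖ < 1) :
    (1 - ‖a‖ ^ 2) * ‖deriv ω a‖ ≤ 1 - ‖ω a‖ ^ 2 := by
  have hb := h1 a (mem_ball_zero_iff.2 ha)
  have hb' : ‖-ω a‖ < 1 := by rwa [norm_neg]
  have key : ∀ w ∈ ball (0:ℂ) 1, HasDerivAt (fun w => mob (-ω a) (ω (mob a w)))
      (((1 - ‖-ω a‖ ^ 2 : ℝ) : ℂ) / (1 + conj (-ω a) * ω (mob a w)) ^ 2 * (deriv ω (mob a w) *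
        (((1 - ‖a‖ ^ 2 : ℝ) : ℂ) / (1 + conj a * w) ^ 2))) w := by
    intro w hw
    have hw' := mem_ball_zero_iff.1 hw
    have hm := mem_ball_zero_iff.2 (mob_lt ha hw')
    exact (mob_deriv hb' (h1 _ hm)).comp w
      ((hd.differentiableAt (isOpen_ball.mem_nhds hm)).hasDerivAt.comp w (mob_deriv ha hw'))
  have m0 : mob a 0 = a := by simp [mob]
  have := norm_deriv_le_one_of_mapsTo_ball (f := fun w => mob (-ω a) (ω (mob a w))) (c := 0)
    (R := 1) (fun w hw => (key w hw).differentiableAt.differentiableWithinAt) (fun w hw => by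
      have : mob (-ω a) (ω (mob a 0)) = 0 := by rw [m0]; simp [mob]
      simp only [this, mem_closedBall_zero_iff]
      exact (mob_lt hb' (h1 _ (mem_ball_zero_iff.2 (mob_lt ha (mem_ball_zero_iff.1 hw))))).le)
    one_pos
  rw [(key 0 (by simp)).deriv, m0] at this
  have e : 1 + conj (-ω a) * ω a = ((1 - ‖ω a‖ ^ 2 : ℝ) : ℂ) := by
    have := mul_conj (ω a)
    rw [normSq_eq_norm_sq] at this
    push_cast at this ⊢
    rw [map_neg]
    linear_combination -this
  have p1 := one_sub_sq_pos hb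
  have p2 := one_sub_sq_pos ha
  rw [e, norm_neg, norm_mul, norm_mul, norm_div, norm_div, norm_pow, Complex.norm_real,
    Complex.norm_real, Real.norm_of_nonneg p1.le, Real.norm_of_nonneg p2.le] at this
  simp only [mul_zero, add_zero, one_pow, norm_one, div_one] at this
  rw [div_mul_eq_mul_div, div_le_one (by positivity)] at this
  nlinarith

lemma second_order {L : ℝ} {Ψ : ℝ → ℝ} (hΨ : ContinuousAt Ψ 0)
    (h : ∀ᶠ t in 𝓝 (0:ℝ), t * L + t ^ 2 * Ψ t ≤ 0) : L = 0 ∧ Ψ 0 ≤ 0 := by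
  have c : ContinuousAt (fun t => L + t * Ψ t) 0 := by fun_prop
  have c0 : Tendsto (fun t => L + t * Ψ t) (𝓝 0) (𝓝 L) := by simpa using c.tendsto
  have a : L ≤ 0 := by
    refine le_of_tendsto (c0.mono_left (nhdsWithin_le_nhds (s := Set.Ioi 0))) ?_
    filter_upwards [self_mem_nhdsWithin, nhdsWithin_le_nhds h] with t ht h1
    have : 0 < t := ht
    nlinarith
  have b : 0 ≤ L := by
    refine ge_of_tendsto (c0.mono_left (nhdsWithin_le_nhds (s := Set.Iio 0))) ?_
    filter_upwards [self_mem_nhdsWithin, nhdsWithin_le_nhds h] with t ht h1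
    have : t < 0 := ht
    nlinarith
  have hL : L = 0 := le_antisymm a b
  refine ⟨hL, le_of_tendsto (hΨ.tendsto.mono_left (nhdsWithin_le_nhds (s := Set.Ioi 0))) ?_⟩
  filter_upwards [self_mem_nhdsWithin, nhdsWithin_le_nhds h] with t ht h1
  have : 0 < t := ht
  rw [hL] at h1
  have h2 : 0 < t ^ 2 := by positivity
  nlinarith

lemma local_coef {p σ : ℂ → ℂ} {A : ℝ} (hp : AnalyticAt ℂ p 0) (hσ : AnalyticAt ℂ σ 0)
    (p0 : p 0 = A) (hb : ‖σ 0‖ ^ 2 + ‖deriv σ 0‖ ^ 2 ≤ 1)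
    (h : ∀ᶠ z in 𝓝 (0:ℂ), (((1 - ‖z‖ ^ 2 : ℝ) : ℂ) * (p z - conj (z * σ z) *
      (σ z + z * deriv σ z) / ((1 - ‖z * σ z‖ ^ 2 : ℝ) : ℂ)) - 2 * conj z).re ≤ A) :
    ‖co 1 p‖ ≤ 3 ∧ ‖co 2 p‖ ≤ A + 3 / 2 := by
  obtain ⟨p3, hp3, ep⟩ := hp.exists_eq_sum_add_pow_mul 3
  obtain ⟨s2, hs2, es⟩ := hσ.exists_eq_sum_add_pow_mul 2
  set c := σ 0 with hc
  set c1 := deriv σ 0 with hc1
  have ep' : ∀ z, p z = A + co 1 p * z + z ^ 2 * (co 2 p + z * p3 z) := by
    intro z; rw [ep z]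
    simp [sum_range_succ, co, p0]; ring
  have es' : ∀ z, σ z = c + z * (c1 + z * s2 z) := by
    intro z; rw [es z]
    simp [sum_range_succ, hc, hc1]; ring
  have main : ∀ u : ℂ, ‖u‖ = 1 → (co 1 p * u - (conj c * c + 2) * conj u).re = 0 ∧
      (u ^ 2 * co 2 p - A - conj u * (conj c * u * (c1 + c1) + conj u * conj c1 * c)).re ≤ 0 := by
    intro u hu
    set a : ℝ → ℂ := fun t => co 2 p + t * u * p3 (t * u) with ha
    set b : ℝ → ℂ := fun t => c1 + t * u * s2 (t * u) with hb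
    set d : ℝ → ℂ := fun t => deriv σ (t * u) with hd
    set κ : ℝ → ℂ := fun t => ((1 - ‖σ (t * u)‖ ^ 2 : ℝ) : ℂ) /
      ((1 - t ^ 2 * ‖σ (t * u)‖ ^ 2 : ℝ) : ℂ) with hκ
    set Y : ℝ → ℂ := fun t => u ^ 2 * a t - A - t * co 1 p * u - t ^ 2 * u ^ 2 * a t -
      conj u * (conj c * u * (b t + d t) + conj u * conj (b t) * c +
        t * conj u * conj (b t) * u * (b t + d t)) * (1 - t ^ 2 * κ t) +
      t * conj u * conj c * c * κ t with hY
    have tu : ContinuousAt (fun t : ℝ => (t:ℂ) * u) 0 := by fun_prop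
    have cmp : ∀ F : ℂ → ℂ, AnalyticAt ℂ F 0 → ContinuousAt (fun t : ℝ => F (t * u)) 0 :=
      fun F hF => ContinuousAt.comp (g := F) (by simpa using hF.continuousAt) tu
    have ca : ContinuousAt a 0 := continuousAt_const.add (tu.mul (cmp _ hp3))
    have cb : ContinuousAt b 0 := continuousAt_const.add (tu.mul (cmp _ hs2))
    have cd : ContinuousAt d 0 := cmp _ hσ.deriv
    have cs := cmp _ hσ
    have cden : ContinuousAt (fun t : ℝ => 1 - t ^ 2 * ‖σ (t * u)‖ ^ 2) 0 :=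
      continuousAt_const.sub ((continuousAt_id.pow 2).mul (cs.norm.pow 2))
    have cκ : ContinuousAt κ 0 :=
      (continuous_ofReal.continuousAt.comp (continuousAt_const.sub (cs.norm.pow 2))).div
        (continuous_ofReal.continuousAt.comp cden) (by simp)
    have cb' : ContinuousAt (fun t => conj (b t)) 0 := continuous_conj.continuousAt.comp cb
    have cY : ContinuousAt Y 0 := by
      simp only [hY]; fun_prop
    have := second_order (L := (co 1 p * u - (conj c * c + 2) * conj u).re)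
      (Ψ := fun t => (Y t).re) (continuous_re.continuousAt.comp cY) (by
        have h' : ∀ᶠ t : ℝ in 𝓝 0, _ := Tendsto.eventually (by simpa using tu.tendsto) h
        filter_upwards [h', cden.eventually_ne (y := 0) (by simp)] with t h1 h2
        have n1 : ‖(t:ℂ) * u‖ ^ 2 = t ^ 2 := by simp [hu]
        have n2 : ‖(t:ℂ) * u * σ (t * u)‖ ^ 2 = t ^ 2 * ‖σ (t * u)‖ ^ 2 := by
          rw [norm_mul, mul_pow, n1]
        rw [n1, n2] at h1
        have h3 : ((1 - t ^ 2 * ‖σ (t * u)‖ ^ 2 : ℝ) : ℂ) ≠ 0 := by exact_mod_cast h2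
        have k : ((1 - t ^ 2 : ℝ) : ℂ) / ((1 - t ^ 2 * ‖σ (t * u)‖ ^ 2 : ℝ) : ℂ) =
            1 - t ^ 2 * κ t := by
          simp only [hκ]
          rw [div_eq_iff h3, sub_mul, mul_assoc, div_mul_cancel₀ _ h3]
          push_cast; ring
        have e : ((1 - t ^ 2 : ℝ) : ℂ) * (p (t * u) - conj (t * u * σ (t * u)) *
            (σ (t * u) + t * u * deriv σ (t * u)) / ((1 - t ^ 2 * ‖σ (t * u)‖ ^ 2 : ℝ) : ℂ)) -
            2 * conj (t * u) =
            A + t * (co 1 p * u - (conj c * c + 2) * conj u) + ((t ^ 2 : ℝ) : ℂ) * Y t := by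
          have k2 : ∀ X W : ℂ, ((1 - t ^ 2 : ℝ) : ℂ) *
              (X - W / ((1 - t ^ 2 * ‖σ (t * u)‖ ^ 2 : ℝ) : ℂ)) =
              (1 - t ^ 2) * X - W * (1 - t ^ 2 * κ t) := by
            intro X W; rw [← k]; push_cast; ring
          rw [k2, ep' (t * u), es' (t * u)]
          simp only [hY, ha, hb, hd, map_mul, map_add, conj_ofReal]
          push_cast
          ring
        rw [e] at h1
        simp only [add_re, re_ofReal_mul, ofReal_re] at h1
        linarith)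
    refine ⟨this.1, ?_⟩
    have y0 : Y 0 = u ^ 2 * co 2 p - A -
        conj u * (conj c * u * (c1 + c1) + conj u * conj c1 * c) := by
      simp [hY, ha, hb, hd, hc1]
    rw [← y0]; exact this.2
  have cc : conj c * c = ((‖c‖ ^ 2 : ℝ) : ℂ) := by rw [mul_comm, mul_conj, normSq_eq_norm_sq]
  constructor
  · have a := (main 1 (by simp)).1
    have b := (main I (by simp)).1
    rw [cc] at a b
    simp [-ofReal_pow] at a b
    have : co 1 p = ((‖c‖ ^ 2 + 2 : ℝ) : ℂ) := by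
      apply Complex.ext <;> simp [-ofReal_pow] <;> linarith
    rw [this, Complex.norm_real, Real.norm_of_nonneg (by positivity)]
    nlinarith [sq_nonneg ‖c1‖]
  · set u : ℂ := exp ((-(arg (co 2 p) / 2) : ℝ) * I) with hu
    have hu1 : ‖u‖ = 1 := norm_exp_ofReal_mul_I _
    have a := (main u hu1).2
    have e : u ^ 2 * co 2 p = ‖co 2 p‖ := by
      have := norm_mul_exp_arg_mul_I (co 2 p)
      have e2 : u ^ 2 * exp (arg (co 2 p) * I) = 1 := by
        rw [hu, ← exp_nat_mul, ← exp_add, ← exp_zero]; congr 1; push_cast; ring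
      calc _ = u ^ 2 * (‖co 2 p‖ * exp (arg (co 2 p) * I)) := by rw [this]
        _ = _ := by linear_combination (‖co 2 p‖ : ℂ) * e2
    rw [e] at a
    have b := re_le_norm (conj u * (conj c * u * (c1 + c1) + conj u * conj c1 * c))
    have b2 : ‖conj u * (conj c * u * (c1 + c1) + conj u * conj c1 * c)‖ ≤ 3 * (‖c‖ * ‖c1‖) := by
      rw [norm_mul, Complex.norm_conj, hu1, one_mul]
      refine (norm_add_le _ _).trans (le_of_eq ?_)
      rw [← two_mul]
      simp [hu1]; ring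
    simp only [sub_re, ofReal_re] at a
    nlinarith [sq_nonneg (‖c‖ - ‖c1‖)]

end Pool.Agent.Lib.MP_9dc04a_an
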