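import Mathlib

set_option autoImplicit false

namespace Pool.Agent.Lib.MP_9dc04a_an

open Complex hiding sin cos exp log log_one log_exp log_mul log_inv exp_log
open Metric Filter Topology Real Set
open scoped Real

noncomputable def Lg (z : ℂ) : ℂ := Complex.log (z / I) + (π / 2 : ℝ) * I

noncomputable def ph (z : ℂ) : ℂ := Complex.log (1 + z) - 5 * Complex.log (1 - z)

noncomputable def sg (z : ℂ) : ℂ := 2 * Lg z + ph z

noncomputable def sg' (z : ℂ) : ℂ := 2 / z + (1 / (1 + z) + 5 / (1 - z))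

def Dom (z : ℂ) : Prop := |z.re| < 1 ∧ (0 < z.im ∨ z.re ≠ 0)

def SS (z : ℂ) : Prop := ‖z‖ ≤ 1 ∧ 0 ≤ z.im ∧ z ≠ 0 ∧ z ≠ 1 ∧ z ≠ -1

lemma isOpen_Dom : IsOpen {z | Dom z} :=
  (isOpen_lt continuous_re.abs continuous_const).and
    ((isOpen_lt continuous_const continuous_im).union (isOpen_ne_fun continuous_re continuous_const))

lemma SS.dom {z : ℂ} (h : SS z) : Dom z := by
  obtain ⟨a, b, c, d, e⟩ := h
  have n : z.re ^ 2 + z.im ^ 2 ≤ 1 := by
    have := pow_le_one₀ (n := 2) (norm_nonneg z) a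
    rwa [Complex.sq_norm, normSq_apply, ← sq, ← sq] at this
  refine ⟨abs_lt.2 ⟨?_, ?_⟩, ?_⟩
  · by_contra hc
    exact e (Complex.ext (by simp; nlinarith) (by simp; nlinarith))
  · by_contra hc
    exact d (Complex.ext (by simp; nlinarith) (by simp; nlinarith))
  · by_contra hc
    push Not at hc
    exact c (Complex.ext hc.2 (le_antisymm hc.1 b))

lemma Dom.ne {z : ℂ} (h : Dom z) : z ≠ 0 := by
  rintro rfl; simpa using h.2

lemma strip_p {z : ℂ} (h : |z.re| < 1) : 0 < (1 + z).re := by simp; linarith [(abs_lt.1 h).1]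

lemma strip_m {z : ℂ} (h : |z.re| < 1) : 0 < (1 - z).re := by simp; linarith [(abs_lt.1 h).2]

lemma ne_of_re {w : ℂ} (h : 0 < w.re) : w ≠ 0 := by rintro rfl; simp at h

lemma d_ph {z : ℂ} (h : |z.re| < 1) : HasStrictDerivAt ph (1 / (1 + z) + 5 / (1 - z)) z := by
  refine ((((hasStrictDerivAt_id z).const_add 1).clog (Or.inl (strip_p h))).sub
    ((((hasStrictDerivAt_id z).const_sub 1).clog (Or.inl (strip_m h))).const_mul 5)).congr_deriv ?_
  simp only [id]; ring

lemma d_Lg {z : ℂ} (h : Dom z) : HasStrictDerivAt Lg (1 / z) z := by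
  have s : z / I ∈ slitPlane := by
    rcases h.2 with a | a
    · left; simpa using a
    · right; simpa using a
  refine ((((hasStrictDerivAt_id z).div_const I).clog s).add_const _).congr_deriv ?_
  have := h.ne
  simp only [id]; field_simp

lemma d_sg {z : ℂ} (h : Dom z) : HasStrictDerivAt sg (sg' z) z :=
  (((d_Lg h).const_mul 2).add (d_ph h.1)).congr_deriv (by rw [sg']; ring)

lemma ph0 : ph 0 = 0 := by simp [ph]

lemma ex_L : ∃ L : ℂ → ℂ, L 0 = 0 ∧ ∀ z : ℂ, |z.re| < 1 → HasDerivAt L (dslope ph 0 z) z := by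
  have o : IsOpen {z : ℂ | |z.re| < 1} := isOpen_lt (by fun_prop) continuous_const
  have c : Convex ℝ {z : ℂ | |z.re| < 1} := by
    have : {z : ℂ | |z.re| < 1} = {z : ℂ | -1 < z.re} ∩ {z : ℂ | z.re < 1} := by
      ext z; simp [abs_lt]
    rw [this]
    exact (convex_halfSpace_re_gt _).inter (convex_halfSpace_re_lt _)
  obtain ⟨g, hg⟩ := c.exists_forall_hasDerivWithinAt (f := dslope ph 0)
    ((Complex.differentiableOn_dslope (o.mem_nhds (by simp))).2 fun z hz =>
      (d_ph hz).hasDerivAt.differentiableAt.differentiableWithinAt)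
  exact ⟨fun z => g z - g 0, sub_self _, fun z hz =>
    ((hg z hz).hasDerivAt (o.mem_nhds hz)).sub_const _⟩

noncomputable def LL : ℂ → ℂ := ex_L.choose

lemma LL0 : LL 0 = 0 := ex_L.choose_spec.1

lemma d_LL {z : ℂ} (h : |z.re| < 1) : HasDerivAt LL (dslope ph 0 z) z := ex_L.choose_spec.2 z h

lemma d_LL0 : HasDerivAt LL 6 0 := by
  refine (d_LL (by simp)).congr_deriv ?_
  rw [dslope_same, (d_ph (by simp)).hasDerivAt.deriv]; norm_num

noncomputable def La (z : ℂ) : ℂ := -Lg z ^ 2 - Lg z * ph z + LL z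

noncomputable def VV (z : ℂ) : ℝ := 2 * (La z).im

lemma d_La {z : ℂ} (h : Dom z) : HasDerivAt La (-Lg z * sg' z) z := by
  refine ((((d_Lg h).hasDerivAt.pow 2).neg.sub
    ((d_Lg h).hasDerivAt.mul (d_ph h.1).hasDerivAt)).add (d_LL h.1)).congr_deriv ?_
  rw [dslope_of_ne _ h.ne, slope_def_field, ph0, sg']
  simp only [sub_zero, Nat.cast_ofNat, Nat.add_one_sub_one, pow_one]
  ring

lemma Lg_re (z : ℂ) : (Lg z).re = log ‖z‖ := by simp [Lg, log_re]

lemma Lg_im (z : ℂ) : (Lg z).im = arg (z / I) + π / 2 := by simp [Lg, log_im]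

lemma Lg_im_mem {z : ℂ} (h : 0 ≤ z.im) : 0 ≤ (Lg z).im ∧ (Lg z).im ≤ π := by
  have := abs_le.1 ((abs_arg_le_pi_div_two_iff (z := z / I)).2 (by simpa using h))
  rw [Lg_im]; constructor <;> linarith [this.1, this.2]

lemma Lg_im_mem' {z : ℂ} (h : 0 < z.im) : 0 < (Lg z).im ∧ (Lg z).im < π := by
  have := abs_lt.1 ((abs_arg_lt_pi_div_two_iff (z := z / I)).2 (Or.inl (by simpa using h)))
  rw [Lg_im]; constructor <;> linarith [this.1, this.2]

lemma Lg_im_pos {z : ℂ} (h : z.im = 0) (h' : 0 < z.re) : (Lg z).im = 0 := by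
  rw [Lg_im, arg_eq_neg_pi_div_two_iff.2 ⟨by simpa using h, by simpa using h'⟩]; ring

lemma Lg_im_neg {z : ℂ} (h : z.im = 0) (h' : z.re < 0) : (Lg z).im = π := by
  rw [Lg_im, arg_eq_pi_div_two_iff.2 ⟨by simpa using h, by simpa using h'⟩]; ring

lemma ph_re (z : ℂ) : (ph z).re = log ‖1 + z‖ - 5 * log ‖1 - z‖ := by simp [ph, log_re]

lemma ph_im (z : ℂ) : (ph z).im = arg (1 + z) - 5 * arg (1 - z) := by simp [ph, log_im]

lemma sg_re (z : ℂ) : (sg z).re = 2 * log ‖z‖ + (ph z).re := by simp [sg, Lg_re]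

lemma sg_im (z : ℂ) : (sg z).im = 2 * (Lg z).im + (ph z).im := by simp [sg]

lemma ph_im_nonneg {z : ℂ} (h : |z.re| < 1) (h' : 0 ≤ z.im) : 0 ≤ (ph z).im := by
  have a : 0 ≤ arg (1 + z) := arg_nonneg_iff.2 (by simpa using h')
  have b : arg (1 - z) ≤ 0 := by
    rcases h'.eq_or_lt with e | e
    · exact (arg_eq_zero_iff.2 ⟨(strip_m h).le, by simp [← e]⟩).le
    · exact (arg_neg_iff.2 (by simpa using e)).le
  rw [ph_im]; linarith

lemma ph_im_real {z : ℂ} (h : |z.re| < 1) (h' : z.im = 0) : (ph z).im = 0 := by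
  rw [ph_im, arg_eq_zero_iff.2 ⟨(strip_m h).le, by simp [h']⟩,
    arg_eq_zero_iff.2 ⟨(strip_p h).le, by simp [h']⟩]; ring

lemma SS.t_mem {z : ℂ} (h : SS z) : 0 ≤ (sg z).im ∧ (sg z).im ≤ 8 * π := by
  have a := Lg_im_mem h.2.1
  have b := ph_im_nonneg h.dom.1 h.2.1
  rw [sg_im]
  refine ⟨by linarith [a.1], ?_⟩
  rw [ph_im]
  linarith [a.2, arg_le_pi (1 + z), neg_pi_lt_arg (1 - z)]

lemma SS.t_pos {z : ℂ} (h : SS z) (h' : 0 < z.im) : 0 < (sg z).im := by
  have a := Lg_im_mem' h'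
  have b := ph_im_nonneg h.dom.1 h.2.1
  rw [sg_im]; linarith [a.1]

lemma LL_real {z : ℂ} (h : |z.re| < 1) (h' : z.im = 0) : (LL z).im = 0 := by
  have e : z = (z.re : ℂ) := Complex.ext (by simp) (by simpa using h')
  have d : ∀ x : ℝ, x ∈ Ioo (-1:ℝ) 1 → HasDerivAt (fun x : ℝ => (LL x).im) 0 x := by
    intro x hx
    have hx' : |(x:ℂ).re| < 1 := by simpa [abs_lt] using hx
    refine (imCLM.hasFDerivAt.comp_hasDerivAt x (d_LL hx').comp_ofReal).congr_deriv ?_
    by_cases x0 : x = 0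
    · subst x0
      rw [ofReal_zero, (d_LL (by simp)).unique d_LL0]; simp
    · rw [dslope_of_ne _ (by exact_mod_cast x0), slope_def_field, ph0, sub_zero, sub_zero]
      simp [div_ofReal_im, ph_im_real hx' (by simp)]
  have := isOpen_Ioo.is_const_of_deriv_eq_zero isPreconnected_Ioo
    (fun x hx => (d x hx).differentiableAt.differentiableWithinAt) (fun x hx => (d x hx).deriv)
    (x := z.re) (y := 0) (abs_lt.1 h) (by simp)
  rw [e, this]; simp [LL0]

lemma VV_eq (z : ℂ) :
    VV z = -(sg z).re * (sg z).im + ((ph z).re * (ph z).im + 2 * (LL z).im) := by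
  simp [VV, La, sg, sq]; ring

lemma real_pos {z : ℂ} (h : |z.re| < 1) (h' : z.im = 0) (h0 : 0 < z.re) :
    (sg z).im = 0 ∧ VV z = 0 := by
  have : (sg z).im = 0 := by rw [sg_im, Lg_im_pos h' h0, ph_im_real h h']; ring
  exact ⟨this, by rw [VV_eq, this, ph_im_real h h', LL_real h h']; ring⟩

lemma real_neg {z : ℂ} (h : |z.re| < 1) (h' : z.im = 0) (h0 : z.re < 0) :
    (sg z).im = 2 * π ∧ VV z = -2 * π * (sg z).re := by
  have : (sg z).im = 2 * π := by rw [sg_im, Lg_im_neg h' h0, ph_im_real h h']; ring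
  exact ⟨this, by rw [VV_eq, this, ph_im_real h h', LL_real h h']; ring⟩

lemma zsg {z : ℂ} (h : Dom z) : z * sg' z = -2 - 1 / (1 + z) + 5 / (1 - z) := by
  have := h.ne; have := ne_of_re (strip_p h.1); have := ne_of_re (strip_m h.1)
  rw [sg']; field_simp; ring

lemma zsg_im {z : ℂ} (h : Dom z) (h' : 0 < z.im) : 0 < (z * sg' z).im := by
  have a := normSq_pos.2 (ne_of_re (strip_p h.1))
  have b := normSq_pos.2 (ne_of_re (strip_m h.1))
  have : (z * sg' z).im = z.im / normSq (1 + z) + 5 * (z.im / normSq (1 - z)) := by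
    rw [zsg h]; simp [div_im]; ring
  rw [this]; positivity

lemma zsg_re {z : ℂ} (h : Dom z) (h' : ‖z‖ = 1) : (z * sg' z).re = 0 := by
  have a := strip_p h.1
  have b := strip_m h.1
  have n : z.re * z.re + z.im * z.im = 1 := by rw [← normSq_apply, ← Complex.sq_norm, h']; simp
  have c : normSq (1 + z) = 2 * (1 + z).re := by simp [normSq_apply]; linarith
  have d : normSq (1 - z) = 2 * (1 - z).re := by simp [normSq_apply]; linarith
  rw [zsg h, add_re, sub_re, div_re, div_re, c, d]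
  simp only [one_re, one_im, re_ofNat, im_ofNat, neg_re, zero_mul, zero_div, add_zero]
  field_simp; ring

lemma arc_t {z : ℂ} (h : ‖z‖ = 1) (h' : 0 < z.im) : (sg z).im = 5 * π / 2 := by
  set α := arg z with hα
  have a0 : 0 < α := lt_of_le_of_ne (arg_nonneg_iff.2 h'.le) fun e =>
    h'.ne' (arg_eq_zero_iff.1 e.symm).2
  have a1 : α < π := arg_lt_pi_iff.2 (Or.inr h'.ne')
  have e : z = Real.cos α + Real.sin α * I := by
    have := norm_mul_cos_add_sin_mul_I z
    rw [h] at this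
    simpa using this.symm
  have k : ∀ (w : ℂ) (r β : ℝ), 0 < r → -π < β → β ≤ π → w.re = r * cos β → w.im = r * sin β →
      arg w = β := by
    intro w r β hr b1 b2 e1 e2
    rw [← arg_mul_cos_add_sin_mul_I hr ⟨b1, b2⟩]
    congr 1
    apply Complex.ext <;> simp [e1, e2, cos_ofReal_re, sin_ofReal_re]
  have c2 : cos α = 2 * cos (α / 2) ^ 2 - 1 := by rw [← Real.cos_two_mul]; congr 1; ring
  have s2 : sin α = 2 * sin (α / 2) * cos (α / 2) := by rw [← Real.sin_two_mul]; congr 1; ring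
  have zr : z.re = cos α := by rw [e]; simp [cos_ofReal_re]
  have zi : z.im = sin α := by rw [e]; simp [sin_ofReal_re]
  have p := Real.sin_sq_add_cos_sq (α / 2)
  have e1 : arg (z / I) = α - π / 2 := k _ 1 _ one_pos (by linarith) (by linarith)
    (by simp [zi, Real.cos_sub_pi_div_two]) (by simp [zr, Real.sin_sub_pi_div_two])
  have e2 : arg (1 + z) = α / 2 := k _ (2 * cos (α / 2)) _
    (mul_pos two_pos (cos_pos_of_mem_Ioo ⟨by linarith, by linarith⟩)) (by linarith) (by linarith)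
    (by simp [zr, c2]; ring) (by simp [zi, s2]; ring)
  have e3 : arg (1 - z) = α / 2 - π / 2 := k _ (2 * sin (α / 2)) _
    (mul_pos two_pos (sin_pos_of_pos_of_lt_pi (by linarith) (by linarith))) (by linarith)
    (by linarith) (by simp only [sub_re, one_re, zr, Real.cos_sub_pi_div_two]; nlinarith)
    (by simp [zi, s2, Real.sin_sub_pi_div_two])
  rw [sg_im, Lg_im, ph_im, e1, e2, e3]; ring

lemma vert {F F' : ℂ → ℂ} {z : ℂ} {C : ℝ} (hy : 0 ≤ z.im)
    (H : ∀ η ∈ Icc 0 z.im, HasDerivAt F (F' (z.re + η * I)) (z.re + η * I) ∧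
      -C ≤ (F' (z.re + η * I)).re) : (F z.re).im - C * z.im ≤ (F z).im := by
  have d : ∀ η ∈ Icc 0 z.im, HasDerivAt (fun η : ℝ => (F (z.re + η * I)).im + C * η)
      ((F' (z.re + η * I)).re + C) η := by
    intro η hη
    have a : HasDerivAt (fun w : ℂ => F (z.re + w * I)) (F' (z.re + η * I) * (1 * I)) η :=
      HasDerivAt.comp (h₂ := F) (η:ℂ) (H η hη).1 (((hasDerivAt_id' (η:ℂ)).mul_const I).const_add _)
    refine ((imCLM.hasFDerivAt.comp_hasDerivAt η a.comp_ofReal).add
      ((hasDerivAt_id' η).const_mul C)).congr_deriv ?_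
    simp
  have := monotoneOn_of_deriv_nonneg (convex_Icc 0 z.im)
    (fun η hη => (d η hη).continuousAt.continuousWithinAt)
    (fun η hη => (d η (interior_subset hη)).differentiableAt.differentiableWithinAt)
    (fun η hη => by
      rw [(d η (interior_subset hη)).deriv]; linarith [(H η (interior_subset hη)).2])
    (left_mem_Icc.2 hy) (right_mem_Icc.2 hy) hy
  simp only [ofReal_zero, zero_mul, add_zero, mul_zero, re_add_im] at this
  linarith

lemma norm_vert {z c : ℂ} (hc : c.im = 0) {η : ℝ} (h : η ∈ Icc 0 z.im) :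
    ‖z.re + η * I - c‖ ≤ ‖z - c‖ := by
  rw [← sq_le_sq₀ (norm_nonneg _) (norm_nonneg _), Complex.sq_norm, Complex.sq_norm, normSq_apply,
    normSq_apply]
  simp [hc]; nlinarith [h.1, h.2]

lemma prod_bd {w R Q : ℂ} {B : ℝ} (a1 : 0 ≤ w.re) (a2 : w.re ≤ 1) (b : |w.im| ≤ 4)
    (c : ‖R‖ ≤ B) (q1 : 0 ≤ Q.re) (q2 : w.im * Q.im ≤ 0) : -(5 * B) ≤ (w * (R + Q)).re := by
  have : ‖w‖ ≤ 5 := (norm_le_abs_re_add_abs_im w).trans (by rw [abs_of_nonneg a1]; linarith)
  have := (abs_le.1 ((abs_re_le_norm (w * R)).trans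
    ((norm_mul_le _ _).trans (mul_le_mul this c (norm_nonneg _) (by norm_num))))).1
  rw [mul_add, add_re, mul_re w Q]
  nlinarith [mul_nonneg a1 q1]

lemma neg_log_mem {w : ℂ} (h1 : ‖w‖ ≤ 1) (h2 : 1 / 2 ≤ ‖w‖) : 0 ≤ -log ‖w‖ ∧ -log ‖w‖ ≤ 1 := by
  refine ⟨neg_nonneg.2 (log_nonpos (norm_nonneg _) h1), ?_⟩
  have := Real.log_le_log (by norm_num) h2
  rw [one_div, log_inv] at this
  linarith [Real.log_two_lt_d9]

lemma near_one {z : ℂ} (h : SS z) (h' : ‖z - 1‖ < 1 / 2) : -(50 * z.im) ≤ VV z := by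
  have r := h.dom.1
  have x0 : 1 / 2 < z.re := by
    have := (abs_lt.1 ((abs_re_le_norm _).trans_lt h')).1
    simp only [sub_re, one_re] at this; linarith
  have := vert (F := La) (F' := fun w => -Lg w * sg' w) (C := 5 * 5) h.2.1 fun η hη => by
    set w : ℂ := z.re + η * I with hw
    have wr : w.re = z.re := by simp [hw]
    have wi : w.im = η := by simp [hw]
    have dw : Dom w := ⟨by rwa [wr], Or.inr (by rw [wr]; linarith)⟩
    have n1 : ‖w‖ ≤ 1 := by simpa using (norm_vert (c := 0) rfl hη).trans (by simpa using h.1)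
    have n2 : 1 / 2 ≤ ‖w‖ := by linarith [re_le_norm w]
    have n3 : 1 ≤ ‖1 + w‖ := by have := re_le_norm (1 + w); simp at this; linarith
    have m := Lg_im_mem (z := w) (wi ▸ hη.1)
    refine ⟨d_La dw, ?_⟩
    rw [sg', ← add_assoc]
    refine prod_bd (by simpa [Lg_re] using (neg_log_mem n1 n2).1)
      (by simpa [Lg_re] using (neg_log_mem n1 n2).2)
      (by rw [neg_im, abs_neg, abs_of_nonneg m.1]; linarith [m.2, pi_le_four]) ?_ ?_ ?_
    · refine (norm_add_le _ _).trans ?_
      rw [norm_div, norm_div, norm_one, Complex.norm_ofNat]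
      have : 2 / ‖w‖ ≤ 4 := by rw [div_le_iff₀ (by linarith)]; linarith
      have : 1 / ‖1 + w‖ ≤ 1 := by rw [div_le_iff₀ (by linarith)]; linarith
      linarith
    · have := strip_m dw.1
      have := normSq_nonneg (1 - w)
      rw [div_re]; simp only [re_ofNat, im_ofNat, zero_mul, zero_div, add_zero]; positivity
    · have := normSq_nonneg (1 - w)
      have e : (5 / (1 - w)).im = 5 * η / normSq (1 - w) := by simp [div_im, wi]; ring
      rw [e, neg_im, neg_mul, neg_nonpos]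
      have := m.1; have := hη.1; positivity
  have e := (real_pos (z := z.re) (by simpa using r) (by simp) (by simp; linarith)).2
  unfold VV at e ⊢
  linarith

lemma near_neg {z : ℂ} (h : SS z) (h' : ‖z + 1‖ < 1 / 2) :
    -2 * π * (sg z).re - 90 * z.im ≤ VV z := by
  have r := h.dom.1
  have x0 : z.re < -(1 / 2) := by
    have := (abs_lt.1 ((abs_re_le_norm _).trans_lt h')).2
    simp only [add_re, one_re] at this; linarith
  have := vert (F := fun w => La w + π * I * sg w) (F' := fun w => (π * I - Lg w) * sg' w)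
      (C := 5 * 9) h.2.1 fun η hη => by
    set w : ℂ := z.re + η * I with hw
    have wr : w.re = z.re := by simp [hw]
    have wi : w.im = η := by simp [hw]
    have dw : Dom w := ⟨by rwa [wr], Or.inr (by rw [wr]; linarith)⟩
    have n1 : ‖w‖ ≤ 1 := by simpa using (norm_vert (c := 0) rfl hη).trans (by simpa using h.1)
    have n2 : 1 / 2 ≤ ‖w‖ := by linarith [abs_re_le_norm w, neg_abs_le w.re]
    have n3 : 1 ≤ ‖1 - w‖ := by have := re_le_norm (1 - w); simp at this; linarith
    have m := Lg_im_mem (z := w) (wi ▸ hη.1)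
    refine ⟨((d_La dw).add ((d_sg dw).hasDerivAt.const_mul _)).congr_deriv (by ring), ?_⟩
    rw [sg', add_comm (1 / (1 + w)), ← add_assoc]
    refine prod_bd (by simpa [Lg_re] using (neg_log_mem n1 n2).1)
      (by simpa [Lg_re] using (neg_log_mem n1 n2).2) ?_ ?_ ?_ ?_
    · simp only [sub_im, mul_im, ofReal_re, I_im, mul_one, ofReal_im, I_re, mul_zero, add_zero]
      rw [abs_of_nonneg (by linarith [m.2])]; linarith [m.1, pi_le_four]
    · refine (norm_add_le _ _).trans ?_
      rw [norm_div, norm_div, Complex.norm_ofNat, Complex.norm_ofNat]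
      have : 2 / ‖w‖ ≤ 4 := by rw [div_le_iff₀ (by linarith)]; linarith
      have : 5 / ‖1 - w‖ ≤ 5 := by rw [div_le_iff₀ (by linarith)]; linarith
      linarith
    · have := strip_p dw.1
      have := normSq_nonneg (1 + w)
      rw [div_re]; simp only [one_re, one_im, zero_mul, zero_div, add_zero]; positivity
    · have := normSq_nonneg (1 + w)
      have e : (1 / (1 + w)).im = -(η / normSq (1 + w)) := by simp [wi]; ring
      simp only [sub_im, mul_im, ofReal_re, I_im, mul_one, ofReal_im, I_re, mul_zero, add_zero]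
      rw [e, mul_neg, neg_nonpos]
      have := sub_nonneg.2 m.2; have := hη.1; positivity
  have e := (real_neg (z := z.re) (by simpa using r) (by simp) (by simp; linarith)).2
  unfold VV at e ⊢
  simp only [add_im, mul_im, mul_re, ofReal_re, I_re, mul_zero, ofReal_im, I_im, mul_one, sub_self,
    zero_mul, add_zero, zero_add] at this
  linarith

end Pool.Agent.Lib.MP_9dc04a_an
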