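import Pool.Agent.Lib.MP_9dc04a_an.ChkRun

set_option autoImplicit false

namespace Pool.Agent.Lib.MP_9dc04a_an

open Complex Finset
open scoped Real

/-- The moments of `exp` over the segment from `-Z` to `Z`, `Z = π i + h`. -/
noncomputable def mm (h : ℂ) : ℕ → ℂ
  | 0 => -(exp h + -exp (-h))
  | k + 1 => -((π * I + h) ^ (k + 1) *
      (if (k + 1) % 2 = 0 then exp h + -exp (-h) else exp h + exp (-h))) +
      -(((k + 1 : ℕ) : ℂ) * mm h k)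

noncomputable def LR (M : ℕ → ℝ) (N ch : ℝ) (e : ℕ) : ℝ :=
  ∑ k ∈ range 18, (ab k : ℝ) *
    (if e + k < 6 then M (e + k) else ch * N ^ (e + k + 1) / (e + k + 1))

noncomputable def Mz (h : ℂ) (k : ℕ) : ℝ := if k = 0 then 0 else ‖mm h k‖

noncomputable def LL (h : ℂ) (e : ℕ) : ℝ :=
  LR (Mz h) ‖π * I + h‖ (‖exp h‖ + ‖exp (-h)‖) e

def Good (h : ℂ) : Prop :=
  ‖π * I + h‖ ≤ 81 / 20 ∧ ∀ w : ℕ → ℝ, ∑ n ∈ range 4, w n ^ 2 ≤ 1 →
    LL h 0 + (∑ n ∈ range 4, w n * (LL h (n + 1) / 13 ^ n)) / 13 +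
      (‖exp h‖ + ‖exp (-h)‖) * ‖π * I + h‖ ^ 6 / 780000 < ‖mm h 0‖

lemma ab_nonneg (k : ℕ) : 0 ≤ ab k := by
  unfold ab
  split <;> norm_num

lemma LR_le {M : ℕ → ℝ} {M' : ℕ → ℚ} {N ch : ℝ} {N' ch' : ℚ} (hM0 : ∀ k, 0 ≤ M k)
    (hM : ∀ k < 6, M k ≤ M' k) (hN0 : 0 ≤ N) (hN : N ≤ N') (hc0 : 0 ≤ ch) (hc : ch ≤ ch')
    (e : ℕ) : 0 ≤ LR M N ch e ∧ LR M N ch e ≤ (LQ M' N' ch' e : ℚ) := by
  unfold LR LQ
  constructor
  · refine sum_nonneg fun k _ => mul_nonneg (by exact_mod_cast ab_nonneg k) ?_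
    split_ifs
    · exact hM0 _
    · positivity
  · push_cast
    refine sum_le_sum fun k _ => mul_le_mul_of_nonneg_left ?_ (by exact_mod_cast ab_nonneg k)
    split_ifs with h
    · exact hM _ h
    · push_cast
      have : 0 ≤ (ch' : ℝ) := hc0.trans hc
      gcongr

lemma le_rup {x : ℝ} {n d : ℤ} (hd : 0 < d) (h : x * SS ≤ n) : x ≤ (rup n d : ℚ) := by
  have hS : (0:ℝ) < SS := by exact_mod_cast Bl.SS_pos
  have hd' : (0:ℝ) < d := by exact_mod_cast hd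
  have h1 := (abs_le.1 (Bl.floor_err (n * d) SS Bl.SS_pos)).2
  unfold rup
  push_cast at h1 ⊢
  rw [le_div_iff₀ hd']
  have : x * d ≤ n * d / SS := by
    rw [le_div_iff₀ hS]; nlinarith
  linarith

lemma rdn_le {x : ℝ} {n d : ℤ} (hd : 0 < d) (h : n ≤ x * SS) : (rdn n d : ℚ) ≤ x := by
  have hS : (0:ℝ) < SS := by exact_mod_cast Bl.SS_pos
  have hd' : (0:ℝ) < d := by exact_mod_cast hd
  have h1 : SS * (n * d / SS) ≤ n * d := Int.mul_ediv_self_le Bl.SS_pos.ne'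
  have h2 : (SS:ℝ) * ((n * d / SS : ℤ) : ℝ) ≤ n * d := by exact_mod_cast h1
  unfold rdn
  rw [Rat.cast_div, Rat.cast_intCast, Rat.cast_intCast, div_le_iff₀ hd']
  have : (SS:ℝ) * ((n * d / SS : ℤ) : ℝ) ≤ SS * (x * d) := by nlinarith
  exact le_of_mul_le_mul_left this hS

lemma mem_pi : Bl.Mem (π * I) piB := by
  unfold Bl.Mem
  have e : (π:ℂ) * I * (SS:ℂ) - piB.ctr = ((π * 1099511627776 - 3454217483000 : ℝ) : ℂ) * I := by
    simp [piB, Bl.ctr, SS]; ring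
  rw [e, norm_mul, norm_I, mul_one, Complex.norm_real, Real.norm_eq_abs, abs_le]
  have := Real.pi_gt_d6
  have := Real.pi_lt_d6
  simp only [piB]
  constructor <;> push_cast <;> linarith

lemma mem_pw {z : ℂ} {Z : Bl} (h : Bl.Mem z Z) (k : ℕ) : Bl.Mem (z ^ k) (pwB Z k) := by
  induction k with
  | zero => simpa [pwB] using Bl.mem_one
  | succ k ih => rw [pow_succ]; exact ih.mul h

lemma mem_mm {h : ℂ} {Z Sh Ch : Bl} (hZ : Bl.Mem (π * I + h) Z)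
    (hS : Bl.Mem (exp h + -exp (-h)) Sh) (hC : Bl.Mem (exp h + exp (-h)) Ch) (k : ℕ) :
    Bl.Mem (mm h k) (mB Z Sh Ch k) := by
  induction k with
  | zero => exact hS.neg
  | succ k ih =>
    refine Bl.Mem.add (Bl.Mem.neg ((mem_pw hZ (k + 1)).mul ?_)) (ih.smul (k + 1)).neg
    split_ifs
    · exact hS
    · exact hC

lemma good_of_eval {h : ℂ} {c : Bl} (hc : Bl.Mem h c) (h1 : ‖h‖ ≤ 1) (he : evalB c = true) :
    Good h := by
  have E1 := hc.ex h1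
  have E2 := hc.neg.ex (by rwa [norm_neg])
  have hZ := mem_pi.add hc
  have hm := mem_mm hZ (E1.add E2.neg) (E1.add E2)
  simp only [evalB, fin, Bool.and_eq_true, decide_eq_true_eq] at he
  obtain ⟨⟨a1, a2⟩, a3⟩ := he
  have hN := le_rup (d := 1024) (by norm_num) hZ.le_up
  have hch : ‖exp h‖ + ‖exp (-h)‖ ≤ (rup (c.ex.up + c.neg.ex.up) 1024 : ℚ) := by
    refine le_rup (by norm_num) ?_
    have := E1.le_up
    have := E2.le_up
    push_cast; linarith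
  have h0 := rdn_le (d := 65536) (by norm_num) (hm 0).lo_le
  have hu := fun k => le_rup (d := 65536) (by norm_num) (hm k).le_up
  generalize rup (piB.add c).up 1024 = N' at *
  generalize rup (c.ex.up + c.neg.ex.up) 1024 = ch' at *
  generalize rdn (mB (piB.add c) (c.ex.add c.neg.ex.neg) (c.ex.add c.neg.ex) 0).lo 65536 = m0 at *
  set M' : ℕ → ℚ := fun k => match k with
    | 0 => 0
    | 1 => rup (mB (piB.add c) (c.ex.add c.neg.ex.neg) (c.ex.add c.neg.ex) 1).up 65536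
    | 2 => rup (mB (piB.add c) (c.ex.add c.neg.ex.neg) (c.ex.add c.neg.ex) 2).up 65536
    | 3 => rup (mB (piB.add c) (c.ex.add c.neg.ex.neg) (c.ex.add c.neg.ex) 3).up 65536
    | 4 => rup (mB (piB.add c) (c.ex.add c.neg.ex.neg) (c.ex.add c.neg.ex) 4).up 65536
    | _ => rup (mB (piB.add c) (c.ex.add c.neg.ex.neg) (c.ex.add c.neg.ex) 5).up 65536 with hM'
  have hM : ∀ k < 6, Mz h k ≤ M' k := by
    intro k hk
    interval_cases k
    · simp [Mz, hM']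
    · exact hu 1
    · exact hu 2
    · exact hu 3
    · exact hu 4
    · exact hu 5
  have hM0 : ∀ k, 0 ≤ Mz h k := by
    intro k; unfold Mz; split_ifs
    · exact le_rfl
    · exact norm_nonneg _
  have hL : ∀ e, 0 ≤ LL h e ∧ LL h e ≤ (LQ M' N' ch' e : ℚ) :=
    LR_le hM0 hM (norm_nonneg _) hN (by positivity) hch
  have a1' : (N':ℝ) ≤ 81 / 20 := by
    have : (N':ℝ) ≤ ((81 / 20 : ℚ) : ℝ) := Rat.cast_le.2 a1
    simpa using this
  refine ⟨hN.trans a1', ?_⟩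
  intro w hw
  have b2 : (0:ℝ) < m0 - LQ M' N' ch' 0 - ch' * N' ^ 6 / 780000 := by exact_mod_cast a2
  have b3 : ((LQ M' N' ch' 1 : ℚ) : ℝ) ^ 2 + (LQ M' N' ch' 2 / 13) ^ 2 +
      (LQ M' N' ch' 3 / 169) ^ 2 + (LQ M' N' ch' 4 / 2197) ^ 2 <
      169 * (m0 - LQ M' N' ch' 0 - ch' * N' ^ 6 / 780000) ^ 2 := by exact_mod_cast a3
  have c1 : (‖exp h‖ + ‖exp (-h)‖) * ‖π * I + h‖ ^ 6 / 780000 ≤ ch' * N' ^ 6 / 780000 := by
    have : 0 ≤ (ch' : ℝ) := le_trans (by positivity) hch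
    gcongr
  have c2 := sum_mul_sq_le_sq_mul_sq (range 4) w fun n => LL h (n + 1) / 13 ^ n
  have c3 : ∑ n ∈ range 4, (LL h (n + 1) / 13 ^ n) ^ 2 ≤
      ((LQ M' N' ch' 1 : ℚ) : ℝ) ^ 2 + (LQ M' N' ch' 2 / 13) ^ 2 +
      (LQ M' N' ch' 3 / 169) ^ 2 + (LQ M' N' ch' 4 / 2197) ^ 2 := by
    simp only [sum_range_succ, range_zero, sum_empty]
    obtain ⟨p1, q1⟩ := hL 1
    obtain ⟨p2, q2⟩ := hL 2
    obtain ⟨p3, q3⟩ := hL 3
    obtain ⟨p4, q4⟩ := hL 4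
    norm_num
    gcongr
  have c4 : ∑ n ∈ range 4, w n * (LL h (n + 1) / 13 ^ n) <
      13 * (m0 - LQ M' N' ch' 0 - ch' * N' ^ 6 / 780000) := by
    refine lt_of_pow_lt_pow_left₀ 2 (by positivity) ?_
    have : 0 ≤ ∑ n ∈ range 4, (LL h (n + 1) / 13 ^ n) ^ 2 := sum_nonneg fun _ _ => sq_nonneg _
    nlinarith
  have := (hL 0).2
  linarith

lemma box_near {h : ℂ} {q i j : ℤ} (hq : 0 < q) (h1 : (i:ℝ) * q ≤ 128 * h.re)
    (h2 : 128 * h.re ≤ (i + 1) * q) (h3 : (j:ℝ) * q ≤ 128 * h.im) (h4 : 128 * h.im ≤ (j + 1) * q) :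
    ‖256 * h - ((((2 * i + 1) * q : ℤ) : ℂ) + (((2 * j + 1) * q : ℤ) : ℂ) * I)‖ ^ 2 ≤
      2 * (q:ℝ) ^ 2 := by
  rw [← normSq_eq_norm_sq, normSq_apply]
  have hq' : (0:ℝ) < q := by exact_mod_cast hq
  simp
  have a : (256 * h.re - (2 * i + 1) * q) ^ 2 ≤ (q:ℝ) ^ 2 := by
    apply sq_le_sq' <;> linarith
  have b : (256 * h.im - (2 * j + 1) * q) ^ 2 ≤ (q:ℝ) ^ 2 := by
    apply sq_le_sq' <;> linarith
  nlinarith

lemma box_step {h : ℂ} (hh : ‖h‖ = 17 / 20) {q i j : ℤ} (hq : 0 < q) (hq8 : q ≤ 8)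
    (h1 : (i:ℝ) * q ≤ 128 * h.re)
    (h2 : 128 * h.re ≤ (i + 1) * q) (h3 : (j:ℝ) * q ≤ 128 * h.im) (h4 : 128 * h.im ≤ (j + 1) * q) :
    far q i j = false ∧ (evalB (boxB q i j) = true → Good h) := by
  have hb := box_near hq h1 h2 h3 h4
  have hq' : (0:ℝ) < q := by exact_mod_cast hq
  have hq8' : (q:ℝ) ≤ 8 := by exact_mod_cast hq8
  set c : ℂ := (((2 * i + 1) * q : ℤ) : ℂ) + (((2 * j + 1) * q : ℤ) : ℂ) * I with hc
  constructor
  · have hb2 : ‖256 * h - c‖ ≤ 14143 / 10000 * q := by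
      refine abs_le_of_sq_le_sq' ?_ (by positivity) |>.2
      nlinarith
    have hn : ‖256 * h‖ = 2176 / 10 := by rw [norm_mul, hh]; norm_num
    have u1 := norm_le_insert' (256 * h) c
    have u2 := norm_le_insert (256 * h) c
    have hc2 : ‖c‖ ^ 2 = q * q * ((2 * i + 1) * (2 * i + 1) + (2 * j + 1) * (2 * j + 1)) := by
      rw [← normSq_eq_norm_sq, normSq_apply]
      simp [hc]; ring
    have l1 : (2176000 - 14143 * q : ℝ) ^ 2 ≤ (10000 * ‖c‖) ^ 2 := by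
      apply pow_le_pow_left₀ <;> linarith
    have l2 : (10000 * ‖c‖) ^ 2 ≤ (2176000 + 14143 * q : ℝ) ^ 2 := by
      apply pow_le_pow_left₀ (by positivity); linarith
    rw [mul_pow, hc2] at l1 l2
    simp only [far, Bool.or_eq_false_iff, decide_eq_false_iff_not, not_lt]
    constructor
    · have : ((2176000 - 14143 * q) * (2176000 - 14143 * q) : ℝ) ≤ 100000000 *
          (q * q * ((2 * i + 1) * (2 * i + 1) + (2 * j + 1) * (2 * j + 1))) := by nlinarith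
      exact_mod_cast this
    · have : (100000000 * (q * q * ((2 * i + 1) * (2 * i + 1) + (2 * j + 1) * (2 * j + 1))) : ℝ) ≤
          (2176000 + 14143 * q) * (2176000 + 14143 * q) := by nlinarith
      exact_mod_cast this
  · refine good_of_eval ?_ (by rw [hh]; norm_num)
    unfold Bl.Mem
    have e : h * (SS:ℂ) - (boxB q i j).ctr = 4294967296 * (256 * h - c) := by
      simp only [boxB, Bl.ctr, SS, hc]; push_cast; ring
    rw [e, norm_mul]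
    simp only [boxB]; push_cast
    refine abs_le_of_sq_le_sq' ?_ (by positivity) |>.2
    rw [mul_pow]
    norm_num
    nlinarith

lemma half (x : ℝ) (i q : ℤ) (h1 : (i:ℝ) * (2 * q) ≤ x) (h2 : x ≤ (i + 1) * (2 * q)) :
    (((2 * i : ℤ) : ℝ) * q ≤ x ∧ x ≤ ((2 * i : ℤ) + 1) * q) ∨
      (((2 * i + 1 : ℤ) : ℝ) * q ≤ x ∧ x ≤ ((2 * i + 1 : ℤ) + 1) * q) := by
  push_cast
  rcases le_total x ((2 * i + 1) * q) with h | h
  · left; constructor <;> linarith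
  · right; constructor <;> linarith

lemma chk_sound {h : ℂ} (hh : ‖h‖ = 17 / 20) : ∀ d : ℕ, d ≤ 3 → ∀ i j : ℤ,
    (i:ℝ) * (2 ^ d : ℤ) ≤ 128 * h.re → 128 * h.re ≤ (i + 1) * (2 ^ d : ℤ) →
    (j:ℝ) * (2 ^ d : ℤ) ≤ 128 * h.im → 128 * h.im ≤ (j + 1) * (2 ^ d : ℤ) →
    chk d i j = true → Good h := by
  intro d
  induction d with
  | zero =>
    intro _ i j h1 h2 h3 h4 hc
    obtain ⟨a, b⟩ := box_step hh (q := 1) one_pos (by norm_num) h1 h2 h3 h4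
    simp only [chk, a, Bool.false_or] at hc
    exact b hc
  | succ d ih =>
    intro hd i j h1 h2 h3 h4 hc
    obtain ⟨a, b⟩ := box_step hh (q := 2 ^ (d + 1)) (by positivity)
      (by have hd2 : d ≤ 2 := by omega
          interval_cases d <;> norm_num) h1 h2 h3 h4
    simp only [chk, a, Bool.false_or, Bool.or_eq_true, Bool.and_eq_true] at hc
    rcases hc with hc | ⟨⟨⟨c1, c2⟩, c3⟩, c4⟩
    · exact b hc.2
    · have e : ((2 ^ (d + 1) : ℤ) : ℝ) = 2 * ((2 ^ d : ℤ) : ℝ) := by push_cast; ring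
      rw [e] at h1 h2 h3 h4
      rcases half _ i _ h1 h2 with x | x <;> rcases half _ j _ h3 h4 with y | y
      · exact ih (by omega) _ _ x.1 x.2 y.1 y.2 c1
      · exact ih (by omega) _ _ x.1 x.2 y.1 y.2 c3
      · exact ih (by omega) _ _ x.1 x.2 y.1 y.2 c2
      · exact ih (by omega) _ _ x.1 x.2 y.1 y.2 c4

theorem good {h : ℂ} (hh : ‖h‖ = 17 / 20) : Good h := by
  have r1 := abs_le.1 (abs_re_le_norm h)
  have r2 := abs_le.1 (abs_im_le_norm h)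
  rw [hh] at r1 r2
  have f : ∀ x : ℝ, -(17 / 20) ≤ x → x ≤ 17 / 20 → ∃ i : ℤ, -14 ≤ i ∧ i < 14 ∧
      (i:ℝ) * (2 ^ 3 : ℤ) ≤ 128 * x ∧ 128 * x ≤ (i + 1) * (2 ^ 3 : ℤ) := by
    intro x a b
    have u := Int.floor_le (16 * x)
    have v := Int.lt_floor_add_one (16 * x)
    refine ⟨⌊16 * x⌋, Int.le_floor.2 (by push_cast; linarith),
      Int.floor_lt.2 (by push_cast; linarith), ?_, ?_⟩ <;> push_cast <;> linarith
  obtain ⟨i, i1, i2, i3, i4⟩ := f _ r1.1 r1.2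
  obtain ⟨j, j1, j2, j3, j4⟩ := f _ r2.1 r2.2
  exact chk_sound hh 3 le_rfl i j i3 i4 j3 j4 (chk_all i j i1 i2 j1 j2)

end Pool.Agent.Lib.MP_9dc04a_an
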