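import Pool.Agent.Lib.MP_9dc04a_an.O3Gap

set_option autoImplicit false

namespace Pool.Agent.Lib.MP_9dc04a_an

open Finset Real

variable {N : ℕ} {t s c : ℤ → ℝ} {rf : ℤ → Prop} {blk : ℤ → ℕ} {a b : ℂ} {R : Finset ℤ}
  {k τ : ℤ → ℝ}

lemma j5_ne (T : Pol N t) {j r : ℤ} {x y : ℝ} (hj : j ∈ Ico (0:ℤ) N) (hr : r ∈ Ico (0:ℤ) N)
    (n : r ≠ j) (h1 : t r < y) (h2 : y < t (r + 1)) (hx : x ∈ Set.Icc (t j) (t (j + 1))) :
    sin ((y - x) / 2) ≠ 0 := by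
  rw [mem_Ico] at hj hr
  rcases lt_or_gt_of_ne n with l | l
  · have a1 : t (r + 1) ≤ t j := T.tm.monotone (by omega)
    have a2 : t (j + 1) ≤ t r + 2 * π := T.tp r ▸ T.tm.monotone (by omega)
    rw [show (y - x) / 2 = -((x - y) / 2) by ring, sin_neg, neg_ne_zero]
    exact (j1_sin (by linarith [hx.1]) (by linarith [hx.2])).ne'
  · have a1 : t (j + 1) ≤ t r := T.tm.monotone (by omega)
    have a2 : t (r + 1) ≤ t j + 2 * π := T.tp j ▸ T.tm.monotone (by omega)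
    exact (j1_sin (by linarith [hx.2]) (by linarith [hx.1])).ne'

lemma j5_cont {A : Set ℝ} (h : ∀ r ∈ R, ∀ x ∈ A, sin ((τ r - x) / 2) ≠ 0) :
    ContinuousOn (Hf a b R k τ) A := by
  unfold Hf ee
  simp only [cot_eq_cos_div_sin]
  exact ContinuousOn.add (Continuous.continuousOn (by fun_prop))
    (continuousOn_finsetSum _ fun r hr => continuousOn_const.mul (ContinuousOn.div
      (Continuous.continuousOn (by fun_prop)) (Continuous.continuousOn (by fun_prop)) (h r hr)))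

lemma j5_opt {p : Prop} [Decidable p] {P : ℝ → Prop} (h : p → ∃ x, P x) :
    ∃ Z : Finset ℝ, (if p then 1 else 0 : ℤ) ≤ #Z ∧ ∀ x ∈ Z, P x := by
  by_cases hp : p
  · obtain ⟨x, hx⟩ := h hp
    exact ⟨{x}, by simp [hp], by simpa using hx⟩
  · exact ⟨∅, by simp [hp], by simp⟩

/-- indicator of lying below the level -/
noncomputable def j5_psi (σ l v : ℝ) : ℤ := if σ * v < σ * l then 1 else 0

lemma j5_arc (T : Pol N t) (hR : ∀ r ∈ R, r ∈ Ico (0:ℤ) N ∧ t r < τ r ∧ τ r < t (r + 1)) {j : ℤ}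
    (hj : j ∈ Ico (0:ℤ) N) {σ : ℝ} (l : ℝ) (σ0 : σ ≠ 0) (hσ : j ∈ R → 0 < σ * k j) :
    ∃ Z : Finset ℝ, (if j ∈ R then 1 else 0) + (j5_psi σ l (Hf a b R k τ (t j)) -
      j5_psi σ l (Hf a b R k τ (t (j + 1)))) ≤ #Z ∧
      ∀ x ∈ Z, t j < x ∧ x ≤ t (j + 1) ∧ (∀ r ∈ R, x ≠ τ r) ∧ Hf a b R k τ x = l := by
  have l1 : t j < t (j + 1) := T.tm (by omega)
  have sn : ∀ r ∈ R.erase j, ∀ x ∈ Set.Icc (t j) (t (j + 1)), sin ((τ r - x) / 2) ≠ 0 :=
    fun r hr x hx => by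
      obtain ⟨n, hr⟩ := mem_erase.1 hr
      exact j5_ne T hj (hR r hr).1 n (hR r hr).2.1 (hR r hr).2.2 hx
  have ne : ∀ x, t j < x → x ≤ t (j + 1) → (j ∈ R → x ≠ τ j) → ∀ r ∈ R, x ≠ τ r :=
    fun x h1 h2 h3 r hr e => by
      by_cases n : r = j
      · subst n; exact h3 hr e
      · exact sn r (mem_erase.2 ⟨n, hr⟩) x ⟨h1.le, h2⟩ (by simp [e])
  have ct := j5_cont (a := a) (b := b) (k := k) sn
  by_cases h : j ∈ R
  · obtain ⟨-, a1, a2⟩ := hR j h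
    have l2 : t (j + 1) ≤ t j + 2 * π := T.tp j ▸ T.tm.monotone (by have := T.N0; omega)
    set g : ℝ → ℝ := fun x => σ * ((Hf a b (R.erase j) k τ x - l) * sin ((τ j - x) / 2) +
      k j * cos ((τ j - x) / 2)) with hg
    have gc : ContinuousOn g (Set.Icc (t j) (t (j + 1))) :=
      continuousOn_const.mul (((ct.sub continuousOn_const).mul
        (Continuous.continuousOn (by fun_prop))).add (Continuous.continuousOn (by fun_prop)))
    have g0 : 0 < g (τ j) := by simpa [hg] using hσ h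
    have ge : ∀ x, sin ((τ j - x) / 2) ≠ 0 →
        g x = (σ * Hf a b R k τ x - σ * l) * sin ((τ j - x) / 2) := fun x hx => by
      simp only [hg, Hf, ← add_sum_erase R _ h]
      rw [cot_eq_cos_div_sin]
      field_simp
      ring
    have s1 : ∀ x, t j ≤ x → x < τ j → 0 < sin ((τ j - x) / 2) := fun x h1 h2 =>
      j1_sin (by linarith) (by linarith)
    have s2 : ∀ x, τ j < x → x ≤ t (j + 1) → sin ((τ j - x) / 2) < 0 := fun x h1 h2 => by
      rw [show (τ j - x) / 2 = -((x - τ j) / 2) by ring, sin_neg, neg_lt_zero]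
      exact j1_sin (by linarith) (by linarith)
    have z : ∀ x, sin ((τ j - x) / 2) ≠ 0 → g x = 0 → Hf a b R k τ x = l := fun x h1 h2 => by
      rw [ge x h1, mul_eq_zero, or_iff_left h1, sub_eq_zero] at h2
      exact mul_left_cancel₀ σ0 h2
    obtain ⟨Z1, b1, b2⟩ := j5_opt (p := σ * Hf a b R k τ (t j) < σ * l)
      (P := fun x => t j < x ∧ x < τ j ∧ Hf a b R k τ x = l) fun hp => by
        obtain ⟨x, hx, e⟩ := intermediate_value_Ioo a1.le (gc.mono (Set.Icc_subset_Icc_right a2.le))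
          ⟨by rw [ge _ (s1 _ le_rfl a1).ne']; exact mul_neg_of_neg_of_pos (by linarith) (s1 _ le_rfl a1), g0⟩
        exact ⟨x, hx.1, hx.2, z x (s1 x hx.1.le hx.2).ne' e⟩
    obtain ⟨Z2, c1, c2⟩ := j5_opt (p := ¬σ * Hf a b R k τ (t (j + 1)) < σ * l)
      (P := fun x => τ j < x ∧ x ≤ t (j + 1) ∧ Hf a b R k τ x = l) fun hp => by
        obtain ⟨x, hx, e⟩ := intermediate_value_Ioc' a2.le (gc.mono (Set.Icc_subset_Icc_left a1.le))
          ⟨by rw [ge _ (s2 _ a2 le_rfl).ne]; exact mul_nonpos_of_nonneg_of_nonpos (by linarith) (s2 _ a2 le_rfl).le, g0⟩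
        exact ⟨x, hx.1, hx.2, z x (s2 x hx.1 hx.2).ne e⟩
    refine ⟨Z1 ∪ Z2, ?_, fun x hx => ?_⟩
    · rw [card_union_of_disjoint (disjoint_left.2 fun x h1 h2 => by
        linarith [(b2 x h1).2.1, (c2 x h2).1]), if_pos h, j5_psi, j5_psi]
      push_cast
      split_ifs at b1 c1 ⊢ <;> linarith
    · rcases mem_union.1 hx with hx | hx
      · obtain ⟨d1, d2, d3⟩ := b2 x hx
        exact ⟨d1, by linarith, ne x d1 (by linarith) fun _ => d2.ne, d3⟩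
      · obtain ⟨d1, d2, d3⟩ := c2 x hx
        exact ⟨by linarith, d2, ne x (by linarith) d2 fun _ => d1.ne', d3⟩
  · rw [erase_eq_of_notMem h] at ct
    obtain ⟨Z, b1, b2⟩ := j5_opt
      (p := σ * Hf a b R k τ (t j) < σ * l ∧ ¬σ * Hf a b R k τ (t (j + 1)) < σ * l)
      (P := fun x => t j < x ∧ x ≤ t (j + 1) ∧ Hf a b R k τ x = l) fun hp => by
        obtain ⟨x, hx, e⟩ := intermediate_value_Ioc (f := fun x => σ * Hf a b R k τ x) l1.le
          (continuousOn_const.mul ct) ⟨hp.1, not_lt.1 hp.2⟩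
        exact ⟨x, hx.1, hx.2, mul_left_cancel₀ σ0 e⟩
    refine ⟨Z, ?_, fun x hx => ?_⟩
    · rw [if_neg h, j5_psi, j5_psi]
      split_ifs at b1 ⊢ <;> first | linarith | tauto
    · obtain ⟨d1, d2, d3⟩ := b2 x hx
      exact ⟨d1, d2, ne x d1 d2 fun h' => absurd h' h, d3⟩

theorem count_roots {a b : ℂ} {R : Finset ℤ} {k τ : ℤ → ℝ} (T : Pol N t)
    (S : Str N (Ex s) s rf blk c)
    (hR : ∀ r ∈ R, r ∈ Ico (0:ℤ) N ∧ rf r ∧ 0 < s r * k r ∧ t r < τ r ∧ τ r < t (r + 1))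
    (H : Stat N s blk fun j => Hf a b R k τ (t j)) (l : ℝ) (J : Finset ℤ)
    (hJ : ∀ j ∈ J, j ∈ Ico (0:ℤ) N ∧ (¬Ex s j ∨ blk j = 0) ∧ Hf a b R k τ (t (j + 1)) = l) :
    ∃ Z : Finset ℝ, #R + #J ≤ #Z ∧
      ∀ x ∈ Z, t 0 < x ∧ x ≤ t 0 + 2 * π ∧ (∀ r ∈ R, x ≠ τ r) ∧ Hf a b R k τ x = l := by
  classical
  set h : ℤ → ℝ := fun j => Hf a b R k τ (t j) with hh
  set w : ℤ → ℤ := fun j => j5_psi (s j) l (h j) - j5_psi (s j) l (h (j + 1)) with hw
  have arc : ∀ j ∈ Ico (0:ℤ) N, ∃ Z : Finset ℝ, (if j ∈ R then 1 else 0) + (if j ∈ J then 1 else 0) +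
      (if Ex s j ∧ blk j ≠ 0 then w j else 0) ≤ #Z ∧
      ∀ x ∈ Z, t j < x ∧ x ≤ t (j + 1) ∧ (∀ r ∈ R, x ≠ τ r) ∧ Hf a b R k τ x = l := fun j hj => by
    by_cases e : Ex s j ∧ blk j ≠ 0
    · have n : j ∉ J := fun hj => by have := (hJ j hj).2.1; tauto
      rw [if_pos e, if_neg n, add_zero]
      exact j5_arc T (fun r hr => ⟨(hR r hr).1, (hR r hr).2.2.2⟩) hj l
        (by rcases S.sgn j with h | h <;> rw [h] <;> norm_num) fun hr => (hR j hr).2.2.1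
    · have n : j ∉ R := fun hr => e ⟨S.rE j (hR j hr).2.1, S.rb j (hR j hr).2.1⟩
      rw [if_neg e, if_neg n, add_zero, zero_add]
      refine j5_opt fun hp => ⟨_, T.tm (by omega), le_rfl, fun r hr e => ?_, (hJ j hp).2.2⟩
      have a1 := T.tm.lt_iff_lt.1 (e ▸ (hR r hr).2.2.2.1)
      have a2 := T.tm.lt_iff_lt.1 (e ▸ (hR r hr).2.2.2.2)
      omega
  choose! Z h1 h2 using arc
  have w0 : ∑ j ∈ Ico (0:ℤ) N, (if Ex s j ∧ blk j ≠ 0 then w j else 0) = 0 := by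
    rw [← sum_filter, ← sum_fiberwise_of_maps_to (g := blk) fun j hj => mem_image_of_mem blk hj]
    refine sum_eq_zero fun β hβ => ?_
    obtain ⟨i, hi, rfl⟩ := mem_image.1 hβ
    obtain ⟨-, i1, i2⟩ := mem_filter.1 hi
    rw [filter_filter]
    refine Eq.trans (sum_congr (filter_congr fun j _ => ?_) fun j hj => ?_)
      (Stat.tele S H (j5_psi (s i) l) _ i2)
    · exact ⟨fun h => ⟨h.1.1, h.2⟩, fun h => ⟨⟨h.1, h.2 ▸ i2⟩, h.2⟩⟩
    obtain ⟨-, j1, j2⟩ := mem_filter.1 hj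
    simp only [hw, S.mono j1 i1 j2 i2]
  refine ⟨(Ico (0:ℤ) N).biUnion Z, ?_, fun x hx => ?_⟩
  · have := sum_le_sum h1
    rw [sum_add_distrib, sum_add_distrib, w0, sum_ite_mem, sum_ite_mem,
      inter_eq_right.2 fun r hr => (hR r hr).1, inter_eq_right.2 fun r hr => (hJ r hr).1] at this
    rw [card_biUnion fun i hi j hj n => disjoint_left.2 fun x a1 a2 => n ?_]
    · simp only [sum_const, nsmul_eq_mul, mul_one, add_zero] at this
      exact_mod_cast this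
    · have b1 := T.tm.lt_iff_lt.1 ((h2 i hi x a1).1.trans_le (h2 j hj x a2).2.1)
      have b2 := T.tm.lt_iff_lt.1 ((h2 j hj x a2).1.trans_le (h2 i hi x a1).2.1)
      omega
  · obtain ⟨j, hj, hx⟩ := mem_biUnion.1 hx
    obtain ⟨d1, d2, d3⟩ := h2 j hj x hx
    rw [mem_Ico] at hj
    exact ⟨(T.tm.monotone hj.1).trans_lt d1, d2.trans (T.tp 0 ▸ T.tm.monotone (by omega)), d3⟩

end Pool.Agent.Lib.MP_9dc04a_an
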