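import Pool.Agent.Lib.MP_9dc04a_an.O3Def

set_option autoImplicit false

namespace Pool.Agent.Lib.MP_9dc04a_an

open Finset Real Polynomial

variable {N : ℕ} {t s c : ℤ → ℝ} {rf : ℤ → Prop} {I : Finset ℕ} {ar : ℕ → ℤ} {ρ : ℕ → ℝ}

lemma j1_ee_add (x y : ℝ) : ee (x + y) = ee x * ee y := by
  rw [ee, ee, ee, ← Complex.exp_add]; congr 1; push_cast; ring

lemma j1_ee_zero : ee 0 = 1 := by simp [ee]

lemma j1_ee_neg (x : ℝ) : ee (-x) * ee x = 1 := by rw [← j1_ee_add, neg_add_cancel, j1_ee_zero]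

lemma j1_ee_ne (x : ℝ) : ee x ≠ 0 := Complex.exp_ne_zero _

lemma j1_ee_norm (x : ℝ) : ‖ee x‖ = 1 := by
  rw [ee, ← neg_mul, ← Complex.ofReal_neg, Complex.norm_exp_ofReal_mul_I]

lemma j1_ee_per (x : ℝ) (k : ℤ) : ee (x + 2 * π * k) = ee x := by
  have : ee (2 * π * k) = 1 := by
    rw [ee, ← Complex.exp_int_mul_two_pi_mul_I (-k)]; congr 1; push_cast; ring
  rw [j1_ee_add, this, mul_one]

lemma Pol.mul (T : Pol N t) (j k : ℤ) : t (j + N * k) = t j + 2 * π * k := by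
  induction k using Int.induction_on with
  | zero => simp
  | succ k ih => rw [mul_add, mul_one, ← add_assoc, T.tp, ih]; push_cast; ring
  | pred k ih =>
    have := T.tp (j + N * (-k - 1))
    rw [show j + N * (-(k:ℤ) - 1) + N = j + N * (-k) by ring, ih] at this
    push_cast at this ⊢
    linarith

lemma Pol.md (T : Pol N t) (j d : ℤ) : t (j + d) = t (j % N + d) + 2 * π * (j / N : ℤ) := by
  rw [← T.mul]; congr 1; linarith [Int.emod_add_mul_ediv j N]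

lemma j1_mem (hN : 0 < N) (j : ℤ) : j % N ∈ Ico (0:ℤ) N :=
  mem_Ico.2 ⟨Int.emod_nonneg _ (by omega), Int.emod_lt_of_pos _ (by omega)⟩

lemma j1_md {α : Type} {f : ℤ → α} (h : ∀ j, f (j + N) = f j) (j : ℤ) : f (j % N) = f j :=
  per_dvd h (by simpa using (Int.dvd_self_sub_emod (x := j) (m := N)).neg_right)

lemma j1_eq (hN : 0 < N) {a x y : ℤ} (hx : x ∈ Ico a (a + N)) (hy : y ∈ Ico a (a + N))
    (h : x % N = y % N) : x = y := by
  rw [mem_Ico] at hx hy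
  have := Int.eq_zero_of_abs_lt_dvd (Int.ModEq.dvd h.symm)
    (abs_lt.2 ⟨by linarith [hx.1, hy.2], by linarith [hx.2, hy.1]⟩ : |x - y| < N)
  omega

lemma j1_img (hN : 0 < N) (a : ℤ) : (Ico a (a + N)).image (· % (N:ℤ)) = Ico (0:ℤ) N := by
  refine eq_of_subset_of_card_le (fun x hx => ?_) ?_
  · obtain ⟨y, -, rfl⟩ := mem_image.1 hx
    exact j1_mem hN y
  · rw [card_image_of_injOn fun x hx y hy h => j1_eq hN hx hy h]; simp

lemma j1_sum {f : ℤ → ℝ} (hN : 0 < N) (h : ∀ j, f (j + N) = f j) (a : ℤ) :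
    ∑ j ∈ Ico (0:ℤ) N, f j = ∑ j ∈ Ico a (a + N), f j := by
  rw [← j1_img hN a, sum_image fun x hx y hy h => j1_eq hN hx hy h]
  exact sum_congr rfl fun j _ => j1_md h j

lemma j1_prod {f : ℤ → ℂ} (hN : 0 < N) (h : ∀ j, f (j + N) = f j) (a : ℤ) :
    ∏ j ∈ (Ico (0:ℤ) N).erase (a % N), f j = ∏ j ∈ Ioo a (a + N), f j := by
  have ha : a ∈ Ico a (a + N) := mem_Ico.2 ⟨le_rfl, by omega⟩
  have e : (Ico (0:ℤ) N).erase (a % N) = (Ioo a (a + N)).image (· % (N:ℤ)) := by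
    rw [← j1_img hN a]
    ext x
    simp only [mem_erase, mem_image]
    constructor
    · rintro ⟨h1, y, hy, rfl⟩
      refine ⟨y, ?_, rfl⟩
      rw [← Ico_erase_left]
      exact mem_erase.2 ⟨fun e => h1 (by rw [e]), hy⟩
    · rintro ⟨y, hy, rfl⟩
      exact ⟨fun e => (mem_Ioo.1 hy).1.ne' (j1_eq hN (Ioo_subset_Ico_self hy) ha e), y,
        Ioo_subset_Ico_self hy, rfl⟩
  rw [e, prod_image fun x hx y hy h =>
    j1_eq hN (Ioo_subset_Ico_self hx) (Ioo_subset_Ico_self hy) h]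
  exact prod_congr rfl fun j _ => j1_md h j

lemma j1_Dl (pc : ∀ j, c (j + N) = c j) (j : ℤ) : Dl c (j + N) = Dl c j := by
  rw [Dl, Dl, pc, show j + N - 1 = j - 1 + N by ring, pc]

lemma j1_tel (c : ℤ → ℝ) (n : ℕ) : ∑ j ∈ Ico (0:ℤ) n, Dl c j = c (n - 1) - c (-1) := by
  induction n with
  | zero => simp
  | succ n ih =>
    rw [Nat.cast_succ, ← insert_Ico_right_eq_Ico_add_one (by omega), sum_insert (by simp), ih, Dl]
    simp

lemma j1_sum0 (pc : ∀ j, c (j + N) = c j) : ∑ j ∈ Ico (0:ℤ) N, Dl c j = 0 := by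
  rw [j1_tel, show (N:ℤ) - 1 = -1 + N by ring, pc, sub_self]

lemma j1_eep (T : Pol N t) (j : ℤ) : ee (t (j + N)) = ee (t j) := by
  rw [T.tp]; simpa using j1_ee_per (t j) 1

lemma j1_cot {φ : ℝ} (h : sin (φ / 2) ≠ 0) :
    1 - ee (-φ) ≠ 0 ∧ ee (-φ) / (1 - ee (-φ)) = Complex.I / 2 * cot (φ / 2) - 1 / 2 := by
  obtain ⟨S, hS⟩ : ∃ S : ℂ, S = ((sin (φ / 2) : ℝ) : ℂ) := ⟨_, rfl⟩
  obtain ⟨K, hK⟩ : ∃ K : ℂ, K = ((cos (φ / 2) : ℝ) : ℂ) := ⟨_, rfl⟩
  have S0 : S ≠ 0 := hS ▸ Complex.ofReal_ne_zero.2 h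
  have e0 : S ^ 2 + K ^ 2 = 1 := by rw [hS, hK]; exact_mod_cast sin_sq_add_cos_sq (φ / 2)
  have e1 : ee (-(φ / 2)) = K + S * Complex.I := by
    rw [ee, hS, hK, Complex.ofReal_sin, Complex.ofReal_cos, ← Complex.exp_mul_I]
    congr 1; push_cast; ring
  have e2 : ee (-φ) = (K + S * Complex.I) ^ 2 := by
    rw [← e1, sq, ← j1_ee_add]; congr 1; ring
  have e3 : 1 - ee (-φ) = -2 * Complex.I * S * (K + S * Complex.I) := by
    rw [e2]; linear_combination -e0 + S ^ 2 * Complex.I_sq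
  have e4 : K + S * Complex.I ≠ 0 := e1 ▸ j1_ee_ne _
  have e5 : 1 - ee (-φ) ≠ 0 := by
    rw [e3]; simp [S0, e4]
  refine ⟨e5, ?_⟩
  rw [div_eq_iff e5, e3, e2, cot_eq_cos_div_sin, Complex.ofReal_div, ← hS, ← hK]
  field_simp
  linear_combination K * Complex.I_sq

/-- no pole inside an open arc -/
lemma Pol.sin_ne (T : Pol N t) {a : ℤ} {τ : ℝ} (h1 : t a < τ) (h2 : τ < t (a + 1)) (j : ℤ) :
    sin ((τ - t j) / 2) ≠ 0 := fun h => by
  obtain ⟨n, hn⟩ := sin_eq_zero_iff.1 h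
  have e : τ = t (j + N * n) := by rw [T.mul]; linarith
  rw [e, T.tm.lt_iff_lt] at h1 h2
  omega

lemma j1_sin {x : ℝ} (h1 : 0 < x) (h2 : x < 2 * π) : 0 < sin (x / 2) :=
  sin_pos_of_pos_of_lt_pi (by linarith) (by linarith)

lemma j1_mul (x y : ℝ) : ee (-x) * ee y = ee (-(x - y)) := by
  rw [← j1_ee_add]; congr 1; ring

lemma j1_ne {x y : ℝ} (h1 : x < y) (h2 : y < x + 2 * π) : 1 - ee (-x) * ee y ≠ 0 := by
  rw [j1_mul]
  refine (j1_cot ?_).1
  rw [show (x - y) / 2 = -((y - x) / 2) by ring, sin_neg, neg_ne_zero]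
  exact (j1_sin (by linarith) (by linarith)).ne'

/-- the numerator polynomial -/
noncomputable def Qp (N : ℕ) (t c : ℤ → ℝ) : ℂ[X] :=
  ∑ j ∈ Ico (0:ℤ) N, C (Dl c j * ee (t j)) * ∏ i ∈ (Ico (0:ℤ) N).erase j, (1 - X * C (ee (t i)))

lemma Qp_eval (z : ℂ) : (Qp N t c).eval z = ∑ j ∈ Ico (0:ℤ) N, Dl c j * ee (t j) *
    ∏ i ∈ (Ico (0:ℤ) N).erase j, (1 - z * ee (t i)) := by
  simp only [Qp, eval_finsetSum, eval_mul, eval_C, eval_prod, eval_sub, eval_one, eval_X]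

lemma Qp_zero : (Qp N t c).eval 0 = Wk 1 N t c := by simp [Qp_eval, Wk]

lemma Qp_Wf {z : ℂ} (h : ∀ j, 1 - z * ee (t j) ≠ 0) :
    Wf N t c z * ∏ j ∈ Ico (0:ℤ) N, (1 - z * ee (t j)) = (Qp N t c).eval z := by
  rw [Qp_eval, Wf, sum_mul]
  refine sum_congr rfl fun j hj => ?_
  rw [← mul_prod_erase _ _ hj, ← mul_assoc, div_mul_cancel₀ _ (h j)]

lemma j1_disc {z : ℂ} (hz : ‖z‖ < 1) (x : ℝ) : 1 - z * ee x ≠ 0 := fun h => by
  have := congrArg norm (sub_eq_zero.1 h)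
  rw [norm_mul, j1_ee_norm, norm_one] at this
  linarith

lemma Qp_pole (T : Pol N t) (pc : ∀ j, c (j + N) = c j) (j : ℤ) :
    (Qp N t c).eval (ee (-t j)) =
      Dl c j * ee (t j) * ∏ i ∈ Ioo j (j + N), (1 - ee (-t j) * ee (t i)) := by
  have e := j1_md (f := fun i => ee (t i)) (j1_eep T) j
  rw [Qp_eval, sum_eq_single_of_mem _ (j1_mem T.N0 j) fun i _ hi => ?_,
    j1_prod T.N0 (fun i => by rw [j1_eep T]), j1_md (j1_Dl pc), e]
  rw [prod_eq_zero (mem_erase.2 ⟨hi.symm, j1_mem T.N0 j⟩) (by rw [e, j1_ee_neg, sub_self]),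
    mul_zero]

lemma Qp_pole_ne (T : Pol N t) (pc : ∀ j, c (j + N) = c j) {j : ℤ} (h : Dl c j ≠ 0) :
    (Qp N t c).eval (ee (-t j)) ≠ 0 := by
  rw [Qp_pole T pc]
  refine mul_ne_zero (mul_ne_zero (Complex.ofReal_ne_zero.2 h) (j1_ee_ne _))
    (prod_ne_zero_iff.2 fun i hi => ?_)
  rw [mem_Ioo] at hi
  exact j1_ne (T.tm hi.1) (T.tp j ▸ T.tm hi.2)

lemma Qp_arc (T : Pol N t) (pc : ∀ j, c (j + N) = c j) {a : ℤ} {τ : ℝ} (h1 : t a < τ)
    (h2 : τ < t (a + 1)) : (Qp N t c).eval (ee (-τ)) = 0 ↔ Sf N t c τ = 0 := by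
  have h : ∀ j, 1 - ee (-τ) * ee (t j) ≠ 0 := fun j => by
    rw [j1_mul]; exact (j1_cot (T.sin_ne h1 h2 j)).1
  have e : ee (-τ) * Wf N t c (ee (-τ)) = Complex.I / 2 * Sf N t c τ := by
    have e0 : ∑ j ∈ Ico (0:ℤ) N, (Dl c j : ℂ) = 0 := by exact_mod_cast j1_sum0 pc
    rw [Wf, Sf, Complex.ofReal_sum, mul_sum, mul_sum, ← sub_eq_zero, ← sum_sub_distrib,
      ← mul_zero (-1 / 2 : ℂ), ← e0, mul_sum]
    refine sum_congr rfl fun j _ => ?_
    have := (j1_cot (T.sin_ne h1 h2 j)).2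
    rw [← j1_mul] at this
    rw [Complex.ofReal_mul]
    linear_combination (Dl c j : ℂ) * this
  rw [← Qp_Wf h, mul_eq_zero, or_iff_left (prod_ne_zero_iff.2 fun j _ => h j),
    ← mul_eq_zero_iff_left (j1_ee_ne (-τ)), e]
  simp

lemma j1_deg {ι : Type} (S : Finset ι) (e : ι → ℂ) :
    (∏ i ∈ S, (1 - X * C (e i))).natDegree ≤ #S := by
  refine (natDegree_prod_le _ _).trans ((sum_le_card_nsmul _ _ 1 fun i _ => ?_).trans (by simp))
  compute_degree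

lemma Qp_deg (pc : ∀ j, c (j + N) = c j) (h : Qp N t c ≠ 0) : (Qp N t c).natDegree + 2 ≤ N := by
  have e0 : ∑ j ∈ Ico (0:ℤ) N, (Dl c j : ℂ) = 0 := by exact_mod_cast j1_sum0 pc
  have e : X * Qp N t c = ∑ j ∈ Ico (0:ℤ) N,
      C (Dl c j : ℂ) * ∏ i ∈ (Ico (0:ℤ) N).erase j, (1 - X * C (ee (t i))) := by
    have e1 : (∑ j ∈ Ico (0:ℤ) N, C (Dl c j : ℂ)) *
        (-∏ i ∈ Ico (0:ℤ) N, (1 - X * C (ee (t i)))) = 0 := by rw [← map_sum, e0, C_0, zero_mul]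
    rw [Qp, mul_sum, ← sub_eq_zero, ← sum_sub_distrib]
    refine Eq.trans ?_ e1
    rw [sum_mul]
    refine sum_congr rfl fun j hj => ?_
    rw [← mul_prod_erase _ _ hj, C_mul]; ring
  have d : (X * Qp N t c).natDegree ≤ N - 1 := by
    rw [e]
    refine natDegree_sum_le_of_forall_le _ _ fun j hj => (natDegree_C_mul_le _ _).trans
      ((j1_deg _ _).trans ?_)
    rw [card_erase_of_mem hj]; simp
  rw [natDegree_X_mul h] at d
  omega

lemma j1_ev (w z : ℂ) : (C w * ∏ i ∈ I, (1 - X * C (ee (ρ i)))).eval z =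
    w * ∏ i ∈ I, (1 - z * ee (ρ i)) := by
  simp only [eval_mul, eval_C, eval_prod, eval_sub, eval_one, eval_X]

lemma Fac.eval (F : Fac N t c I ar ρ) (z : ℂ) :
    (Qp N t c).eval z = Wk 1 N t c * ∏ i ∈ I, (1 - z * ee (ρ i)) := by
  have e : Qp N t c = C (Wk 1 N t c) * ∏ i ∈ I, (1 - X * C (ee (ρ i))) := by
    refine eq_of_infinite_eval_eq _ _ ((infinite_of_mem_nhds (0:ℂ)
      (Metric.ball_mem_nhds 0 one_pos)).mono fun z hz => ?_)
    rw [mem_ball_zero_iff] at hz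
    rw [Set.mem_ofPred_eq, ← Qp_Wf fun j => j1_disc hz _, F.fa z hz, j1_ev]
  rw [e, j1_ev]

theorem Fac.jump (T : Pol N t) (pc : ∀ j, c (j + N) = c j) (F : Fac N t c I ar ρ) (j : ℤ) :
    (Dl c j : ℂ) * ee (t j) * ∏ i ∈ Ioo j (j + N), (1 - ee (-t j) * ee (t i)) =
      Wk 1 N t c * ∏ i ∈ I, (1 - ee (-t j) * ee (ρ i)) := by
  rw [← Qp_pole T pc, F.eval]

theorem Fac.root (T : Pol N t) (pc : ∀ j, c (j + N) = c j) (F : Fac N t c I ar ρ)
    (nd : ∀ j, Dl c j ≠ 0) {i : ℕ} (hi : i ∈ I) :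
    t (ar i) < ρ i ∧ ρ i < t (ar i + 1) ∧ Sf N t c (ρ i) = 0 := by
  have z : (Qp N t c).eval (ee (-ρ i)) = 0 := by
    rw [F.eval, prod_eq_zero hi (by rw [j1_ee_neg, sub_self]), mul_zero]
  have h1 : t (ar i) < ρ i := (F.lo i hi).1.lt_of_ne fun e => Qp_pole_ne T pc (nd _) (e ▸ z)
  have h2 : ρ i < t (ar i + 1) := (F.lo i hi).2.lt_of_ne fun e => Qp_pole_ne T pc (nd _) (e ▸ z)
  exact ⟨h1, h2, (Qp_arc T pc h1 h2).1 z⟩

lemma Sf_win (T : Pol N t) (pc : ∀ j, c (j + N) = c j) (a : ℤ) (τ : ℝ) :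
    Sf N t c τ = ∑ j ∈ Ico a (a + N), Dl c j * cot ((τ - t j) / 2) := by
  refine j1_sum T.N0 (fun j => ?_) a
  rw [j1_Dl pc, T.tp, show (τ - (t j + 2 * π)) / 2 = (τ - t j) / 2 - π by ring,
    cot_eq_cos_div_sin, cot_eq_cos_div_sin, sin_sub_pi, cos_sub_pi, neg_div_neg_eq]

/-- the function `Sf` with the two poles of an arc removed -/
lemma j1_arc (T : Pol N t) (pc : ∀ j, c (j + N) = c j) (h2 : 2 ≤ N) (a : ℤ) :
    ∃ (g : ℝ → ℝ) (p : ℝ), ContinuousOn g (Set.Icc (t a) (t (a + 1))) ∧ 0 < p ∧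
      g (t a) = p * Dl c a ∧ g (t (a + 1)) = -(p * Dl c (a + 1)) ∧
      ∀ τ, t a < τ → τ < t (a + 1) → ∃ q, 0 < q ∧ g τ = q * Sf N t c τ := by
  have l1 : t a < t (a + 1) := T.tm (by omega)
  have l2 : t (a + 1) < t a + 2 * π := T.tp a ▸ T.tm (by omega)
  refine ⟨fun τ => Dl c a * cos ((τ - t a) / 2) * sin ((t (a + 1) - τ) / 2) -
    Dl c (a + 1) * cos ((τ - t (a + 1)) / 2) * sin ((τ - t a) / 2) +
    (∑ j ∈ Ico (a + 1 + 1) (a + N), Dl c j * (cos ((τ - t j) / 2) / sin ((τ - t j) / 2))) *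
      (sin ((τ - t a) / 2) * sin ((t (a + 1) - τ) / 2)), sin ((t (a + 1) - t a) / 2), ?_,
    j1_sin (by linarith) (by linarith), by simp [mul_comm], by simp [mul_comm], fun τ h1 h3 => ?_⟩
  · refine ContinuousOn.add (Continuous.continuousOn (by fun_prop)) (ContinuousOn.mul
      (continuousOn_finsetSum _ fun j hj => continuousOn_const.mul (ContinuousOn.div
        (Continuous.continuousOn (by fun_prop)) (Continuous.continuousOn (by fun_prop))
        fun τ hτ => ?_)) (Continuous.continuousOn (by fun_prop)))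
    rw [mem_Ico] at hj
    have a1 : t (a + 1) < t j := T.tm (by omega)
    have a2 : t j < t a + 2 * π := T.tp a ▸ T.tm hj.2
    rw [show (τ - t j) / 2 = -((t j - τ) / 2) by ring, sin_neg, neg_ne_zero]
    exact (j1_sin (by linarith [hτ.2]) (by linarith [hτ.1])).ne'
  · have s1 := j1_sin (x := τ - t a) (by linarith) (by linarith)
    have s2 := j1_sin (x := t (a + 1) - τ) (by linarith) (by linarith)
    refine ⟨_, mul_pos s1 s2, ?_⟩
    rw [Sf_win T pc a, ← insert_Ico_add_one_left_eq_Ico (by omega : a < a + N),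
      sum_insert (by simp), ← insert_Ico_add_one_left_eq_Ico (by omega : a + 1 < a + N),
      sum_insert (by simp)]
    simp only [cot_eq_cos_div_sin]
    rw [show sin ((τ - t (a + 1)) / 2) = -sin ((t (a + 1) - τ) / 2) by
      rw [← sin_neg]; congr 1; ring]
    field_simp
    ring

lemma j1_ivt {g : ℝ → ℝ} {x y : ℝ} (h : x < y) (hg : ContinuousOn g (Set.Icc x y))
    (h1 : g x * g y < 0) : ∃ r, x < r ∧ r < y ∧ g r = 0 := by
  rcases mul_neg_iff.1 h1 with h2 | h2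
  · obtain ⟨r, hr, e⟩ := intermediate_value_Ioo' h.le hg ⟨h2.2, h2.1⟩
    exact ⟨r, hr.1, hr.2, e⟩
  · obtain ⟨r, hr, e⟩ := intermediate_value_Ioo h.le hg ⟨h2.1, h2.2⟩
    exact ⟨r, hr.1, hr.2, e⟩

lemma j1_roots (T : Pol N t) (pc : ∀ j, c (j + N) = c j) (h2 : 2 ≤ N)
    (sn : ∀ j, s j = 1 ∨ s j = -1) (rE : ∀ j, rf j → Ex s j) (sg : ∀ j, 0 < s j * Dl c j) (a : ℤ)
    (hτ : rf a → ∃ τ, t a < τ ∧ τ < t (a + 1) ∧ s a * Sf N t c τ < 0) (ha : rf a ∨ ¬Ex s a) :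
    ∃ r : Bool → ℝ, (∀ e, t a < r e ∧ r e < t (a + 1) ∧ Sf N t c (r e) = 0) ∧
      (rf a → r false ≠ r true) := by
  obtain ⟨g, p, gc, p0, g1, g2, g3⟩ := j1_arc T pc h2 a
  have z : ∀ r, t a < r → r < t (a + 1) → g r = 0 → Sf N t c r = 0 := fun r a1 a2 a3 => by
    obtain ⟨q, q0, e⟩ := g3 r a1 a2
    rw [a3] at e
    exact (mul_eq_zero.1 e.symm).resolve_left q0.ne'
  have s1 := sg a
  have s2 := sg (a + 1)
  by_cases h : rf a
  · obtain ⟨τ, a1, a2, a3⟩ := hτ h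
    obtain ⟨q, q0, e⟩ := g3 τ a1 a2
    have k : Dl c a * Sf N t c τ < 0 ∧ 0 < Dl c (a + 1) * Sf N t c τ := by
      have := rE a h
      rcases sn a with h1 | h1 <;> rcases sn (a + 1) with h3 | h3
      · exact absurd (h1.trans h3.symm) this
      · rw [h1] at s1 a3; rw [h3] at s2; constructor <;> nlinarith
      · rw [h1] at s1 a3; rw [h3] at s2; constructor <;> nlinarith
      · exact absurd (h1.trans h3.symm) this
    obtain ⟨r1, b1, b2, b3⟩ := j1_ivt a1 (gc.mono (Set.Icc_subset_Icc_right a2.le)) (by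
      rw [g1, e]; nlinarith [mul_pos (mul_pos p0 q0) (neg_pos.2 k.1)])
    obtain ⟨r2, c1, c2, c3⟩ := j1_ivt a2 (gc.mono (Set.Icc_subset_Icc_left a1.le)) (by
      rw [g2, e]; nlinarith [mul_pos (mul_pos p0 q0) k.2])
    refine ⟨fun e => if e then r2 else r1, fun e => ?_, fun _ => (b2.trans c1).ne⟩
    cases e
    · exact ⟨b1, b2.trans a2, z _ b1 (b2.trans a2) b3⟩
    · exact ⟨a1.trans c1, c2, z _ (a1.trans c1) c2 c3⟩
  · have e : s a = s (a + 1) := not_not.1 (ha.resolve_left h)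
    have k : 0 < Dl c a * Dl c (a + 1) := by
      rw [← e] at s2
      rcases sn a with h1 | h1 <;> rw [h1] at s1 s2 <;> nlinarith
    obtain ⟨r, b1, b2, b3⟩ := j1_ivt (T.tm (by omega)) gc (by
      rw [g1, g2]; nlinarith [mul_pos (mul_pos p0 p0) k])
    exact ⟨fun _ => r, fun _ => ⟨b1, b2, z _ b1 b2 b3⟩, fun h' => absurd h' h⟩

lemma j1_inj {x y : ℝ} (h1 : x < y + 2 * π) (h2 : y < x + 2 * π) (h : ee (-x) = ee (-y)) :
    x = y := by
  rcases lt_trichotomy x y with l | l | l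
  · exact absurd (by rw [h, j1_ee_neg, sub_self]) (j1_ne l h2)
  · exact l
  · exact absurd (by rw [← h, j1_ee_neg, sub_self]) (j1_ne l h1)

theorem fac_of_sign (T : Pol N t) (B : Bas N (Ex s) s) (prf : ∀ j, rf (j + N) = rf j)
    (rE : ∀ j, rf j → Ex s j) (pc : ∀ j, c (j + N) = c j) (L : Lab N s rf I ar) (cI : N ≤ #I + 2)
    (sg : ∀ j, 0 < s j * Dl c j)
    (hτ : ∀ j ∈ Ico (0:ℤ) N, rf j → ∃ τ, t j < τ ∧ τ < t (j + 1) ∧ s j * Sf N t c τ < 0) :
    #I + 2 = N ∧ ∃ ρ, Fac N t c I ar ρ := by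
  classical
  have nd : ∀ j, Dl c j ≠ 0 := fun j => right_ne_zero_of_mul (sg j).ne'
  have Q0 : Qp N t c ≠ 0 := fun h => Qp_pole_ne T pc (nd 0) (by rw [h, eval_zero])
  have dg := Qp_deg pc Q0
  have h2 : 2 ≤ N := by omega
  choose! r hr hne using fun (a : ℤ) (ha : a ∈ Ico (0:ℤ) N) =>
    j1_roots T pc h2 B.sgn rE sg a (hτ a ha)
  have fib : ∀ (j : ℤ) (S : Finset ℕ), S ⊆ I → (∀ i ∈ S, (N:ℤ) ∣ ar i - j) → #S ≤ rtc s rf j :=
    fun j S h1 h3 => L j ▸ card_le_card fun i hi => mem_filter.2 ⟨h1 hi, h3 i hi⟩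
  have ok : ∀ i ∈ I, rf (ar i % N) ∨ ¬Ex s (ar i % N) := fun i hi => by
    have := fib (ar i % N) {i} (by simpa using hi) (by simpa using Int.dvd_self_sub_emod)
    by_contra hc
    rw [not_or, not_not] at hc
    simp [rtc, hc.1, hc.2] at this
  set b : ℕ → Bool := fun i => decide (∃ i' ∈ I, i' < i ∧ ar i' % N = ar i % N) with hb
  set x : ℕ → ℝ := fun i => r (ar i % N) (b i) with hx
  have xr : ∀ i ∈ I, t (ar i % N) < x i ∧ x i < t (ar i % N + 1) ∧ Sf N t c (x i) = 0 :=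
    fun i hi => hr _ (j1_mem T.N0 _) (ok i hi) _
  have xw : ∀ i ∈ I, t 0 < x i ∧ x i < t 0 + 2 * π := fun i hi => by
    have := mem_Ico.1 (j1_mem T.N0 (ar i))
    exact ⟨(T.tm.monotone this.1).trans_lt (xr i hi).1,
      (xr i hi).2.1.trans_le (T.tp 0 ▸ T.tm.monotone (by omega))⟩
  have dv : ∀ {i j : ℤ}, i % N = j → (N:ℤ) ∣ i - j := fun h => h ▸ Int.dvd_self_sub_emod
  have lt : ∀ i ∈ I, ∀ i' ∈ I, i < i' → x i ≠ x i' := fun i hi i' hi' l e => by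
    have a1 := T.tm.lt_iff_lt.1 ((xr i hi).1.trans (e ▸ (xr i' hi').2.1))
    have a2 := T.tm.lt_iff_lt.1 ((xr i' hi').1.trans (e ▸ (xr i hi).2.1))
    have a3 : ar i % N = ar i' % N := by omega
    have a4 : rf (ar i' % N) := by
      have := fib (ar i' % N) {i, i'} (by simp [insert_subset_iff, hi, hi'])
        (by simpa using ⟨dv a3, dv rfl⟩)
      rw [card_pair l.ne, rtc] at this
      by_contra hc
      rw [if_neg hc] at this
      split_ifs at this <;> omega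
    have a5 : b i' = true := decide_eq_true ⟨i, hi, l, a3⟩
    have a6 : b i = false := decide_eq_false fun ⟨k, hk, l', a7⟩ => by
      have := fib (ar i' % N) {k, i, i'} (by simp [insert_subset_iff, hi, hi', hk])
        (by simpa using ⟨dv (a7.trans a3), dv a3, dv rfl⟩)
      rw [card_eq_three.2 ⟨k, i, i', l'.ne, (l'.trans l).ne, l.ne, rfl⟩, rtc, if_pos a4] at this
      omega
    simp only [hx, a3, a5, a6] at e
    exact hne _ (j1_mem T.N0 _) (Or.inl a4) a4 e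
  have inj : Set.InjOn (fun i => ee (-x i)) I := fun i hi i' hi' e => by
    have e' := j1_inj (by linarith [xw i hi, xw i' hi']) (by linarith [xw i hi, xw i' hi']) e
    rcases lt_trichotomy i i' with l | l | l
    · exact absurd e' (lt i hi i' hi' l)
    · exact l
    · exact absurd e'.symm (lt i' hi' i hi l)
  have zr : ∀ i ∈ I, (Qp N t c).eval (ee (-x i)) = 0 := fun i hi =>
    (Qp_arc T pc (xr i hi).1 (xr i hi).2.1).2 (xr i hi).2.2
  have cd : #I ≤ (Qp N t c).natDegree := by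
    rw [← card_image_of_injOn inj]
    refine card_le_degree_of_subset_roots fun z hz => ?_
    obtain ⟨i, hi, rfl⟩ := mem_image.1 hz
    exact (mem_roots Q0).2 (zr i hi)
  have e : Qp N t c = C (Wk 1 N t c) * ∏ i ∈ I, (1 - X * C (ee (x i))) := by
    refine eq_of_natDegree_lt_card_of_eval_eq' _ _ (insert 0 (I.image fun i => ee (-x i)))
      (fun z hz => ?_) ?_
    · rw [j1_ev]
      rcases mem_insert.1 hz with rfl | hz
      · simp [Qp_zero]
      · obtain ⟨i, hi, rfl⟩ := mem_image.1 hz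
        rw [zr i hi, prod_eq_zero hi (by rw [j1_ee_neg, sub_self]), mul_zero]
    · rw [card_insert_of_notMem (by simp [j1_ee_ne]), card_image_of_injOn inj]
      have := (natDegree_C_mul_le (Wk 1 N t c) _).trans (j1_deg I fun i => ee (x i))
      omega
  refine ⟨by omega, fun i => x i + 2 * π * (ar i / N : ℤ), fun i hi => ?_, fun z hz => ?_⟩
  · have a1 := T.md (ar i) 0
    have a2 := T.md (ar i) 1
    rw [add_zero, add_zero] at a1
    constructor <;> linarith [xr i hi]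
  · simp only [j1_ee_per]
    rw [Qp_Wf fun j => j1_disc hz _, e, j1_ev]

end Pool.Agent.Lib.MP_9dc04a_an
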