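import Pool.Agent.Lib.MP_9dc04a_an.O3Gor
import Pool.Agent.Lib.MP_9dc04a_an.O3Fac

set_option autoImplicit false

namespace Pool.Agent.Lib.MP_9dc04a_an

open Finset Real Filter Topology

variable {N : ℕ} {t s c : ℤ → ℝ} {rf : ℤ → Prop} {blk : ℤ → ℕ} {I : Finset ℕ} {ar : ℕ → ℤ}
  {ρ : ℕ → ℝ}

lemma j3_tau (A : Feas N t s rf blk I ar c ρ) (nd : ∀ j, Dl c j ≠ 0) {r : ℤ} (hr : rf r) :
    ∃ τ, t r < τ ∧ τ < t (r + 1) ∧ Sf N t c τ = 0 := by
  have h := A.lab r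
  rw [rtc, if_pos hr] at h
  obtain ⟨i, hi⟩ := card_pos.1 (h ▸ two_pos)
  obtain ⟨i1, k, hk⟩ := mem_filter.1 hi
  obtain ⟨a, b, e⟩ := Fac.root A.pol A.pc A.fac nd i1
  rw [show ar i = r + N * k by linarith] at a b
  rw [show r + N * k + 1 = r + 1 + N * k by ring] at b
  rw [j3_tk A.pol] at a b
  refine ⟨ρ i - 2 * π * k, by linarith, by linarith, ?_⟩
  rw [← e]
  refine sum_congr rfl fun j _ => ?_
  rw [← j3_cot _ k]
  congr 3
  ring

lemma j3_Dl (c d : ℤ → ℝ) (ε : ℝ) (j : ℤ) : Dl (c + ε • d) j = Dl c j + ε * Dl d j := by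
  simp only [Dl, Pi.add_apply, Pi.smul_apply, smul_eq_mul]; ring

lemma j3_Wk (n N : ℕ) (t c d : ℤ → ℝ) (ε : ℝ) :
    Wk n N t (c + ε • d) = Wk n N t c + ε * Wk n N t d := by
  simp only [Wk, j3_Dl, mul_sum, ← sum_add_distrib]
  exact sum_congr rfl fun j _ => by push_cast; ring

lemma j3_Sf (N : ℕ) (t c d : ℤ → ℝ) (ε τ : ℝ) :
    Sf N t (c + ε • d) τ = Sf N t c τ + ε * Sf N t d τ := by
  simp only [Sf, j3_Dl, mul_sum, ← sum_add_distrib]
  exact sum_congr rfl fun j _ => by ring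

lemma j3_move (A : Feas N t s rf blk I ar c ρ) (nd : ∀ j, Dl c j ≠ 0) {d τ : ℤ → ℝ}
    (hd : d ∈ j3_V N s blk) (hτ : ∀ r ∈ Ico (0:ℤ) N, rf r →
      t r < τ r ∧ τ r < t (r + 1) ∧ Sf N t c (τ r) = 0 ∧ s r * Sf N t d (τ r) < 0) :
    ∀ᶠ ε in 𝓝[>] (0:ℝ), ∃ ρ', Feas N t s rf blk I ar (c + ε • d) ρ' := by
  have e1 : ∀ᶠ ε in 𝓝 (0:ℝ), ∀ j ∈ Ico (0:ℤ) N, 0 < s j * Dl (c + ε • d) j := by
    refine (eventually_all_finset _).2 fun j _ => ?_
    simp only [j3_Dl]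
    refine ContinuousAt.eventually_lt continuousAt_const (by fun_prop) ?_
    have : s j ≠ 0 := by rcases A.str.sgn j with h | h <;> rw [h] <;> norm_num
    simpa using (A.sg j).lt_of_ne' (mul_ne_zero this (nd j))
  filter_upwards [mem_nhdsWithin_of_mem_nhds e1, self_mem_nhdsWithin] with ε h1 h2
  have pc : ∀ j, (c + ε • d) (j + N) = (c + ε • d) j := fun j => by
    simp only [Pi.add_apply, Pi.smul_apply, A.pc, hd.1]
  have sg : ∀ j, 0 < s j * Dl (c + ε • d) j := fun j => by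
    obtain ⟨k, k1, k2⟩ := ex_win A.pol.N0 j 0
    have := h1 _ (mem_Ico.2 ⟨k1, by simpa using k2⟩)
    rwa [per_mul A.str.ps, Dl, per_mul pc, show j + N * k - 1 = j - 1 + N * k by ring,
      per_mul pc] at this
  obtain ⟨-, ρ', F⟩ := fac_of_sign A.pol A.str.toBas A.str.prf A.str.rE pc A.lab A.cI.ge sg
    fun j hj r => ⟨τ j, (hτ j hj r).1, (hτ j hj r).2.1, by
      rw [j3_Sf, (hτ j hj r).2.2.1, zero_add, mul_left_comm]
      exact mul_neg_of_pos_of_neg h2 (hτ j hj r).2.2.2⟩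
  refine ⟨ρ', A.pol, { A.str with iq := fun j r a b e => ?_ }, pc, fun j => (sg j).le, A.lab, A.cI, F⟩
  have := A.str.iq j r a b e
  simp only [Pi.add_apply, Pi.smul_apply, smul_eq_mul,
    hd.2 j r a (A.str.rE r b) e (A.str.rb r b)]
  linarith

lemma j3_norm {α β : ℂ} (h : ∀ᶠ ε : ℝ in 𝓝[>] 0, ‖1 + ε * α‖ ≤ ‖1 + ε * β‖) : α.re ≤ β.re := by
  have c : Tendsto (fun ε : ℝ => 2 * β.re + ε * ‖β‖ ^ 2) (𝓝[>] 0) (𝓝 (2 * β.re + 0 * ‖β‖ ^ 2)) :=
    (Continuous.tendsto (by fun_prop) _).mono_left nhdsWithin_le_nhds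
  have : 2 * α.re ≤ 2 * β.re + 0 * ‖β‖ ^ 2 := by
    refine ge_of_tendsto c ?_
    filter_upwards [h, self_mem_nhdsWithin] with ε h1 h2
    have h3 : 0 < ε := h2
    have := pow_le_pow_left₀ (norm_nonneg _) h1 2
    simp only [Complex.sq_norm, Complex.normSq_apply, Complex.add_re, Complex.add_im,
      Complex.one_re, Complex.one_im, Complex.re_ofReal_mul, Complex.im_ofReal_mul] at this ⊢
    refine le_of_mul_le_mul_left ?_ h3
    nlinarith [sq_nonneg (ε * α.re), sq_nonneg (ε * α.im)]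
  linarith

theorem Feas.kkt (A : Feas N t s rf blk I ar c ρ) (nd : ∀ j, Dl c j ≠ 0) (h0 : Wk 1 N t c ≠ 0)
    (h1 : Wk 2 N t c ≠ 0) (mx : ∀ c' ρ', Feas N t s rf blk I ar c' ρ' →
      ‖Wk 2 N t c'‖ * ‖Wk 1 N t c‖ ≤ ‖Wk 2 N t c‖ * ‖Wk 1 N t c'‖) :
    ∃ (a b : ℂ) (R : Finset ℤ) (k τ : ℤ → ℝ),
      (∀ r ∈ R, r ∈ Ico (0:ℤ) N ∧ rf r ∧ 0 < s r * k r ∧ t r < τ r ∧ τ r < t (r + 1)) ∧
      (a ≠ 0 ∨ R.Nonempty) ∧ ‖b‖ * ‖Wk 1 N t c‖ = ‖a‖ * ‖Wk 2 N t c‖ ∧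
      Stat N s blk fun j => Hf a b R k τ (t j) := by
  classical
  choose! τ hτ using fun r => j3_tau A nd (r := r)
  set R₀ : Finset ℤ := {r ∈ Ico (0:ℤ) N | rf r} with hR
  set g : Option R₀ → ℤ → ℝ := fun o j => o.elim
    (ee (t j) ^ 2 / Wk 2 N t c - ee (t j) / Wk 1 N t c).re
    fun r => -s r * cot ((τ r - t j) / 2) with hg
  obtain ⟨κ, k0, k1, k2⟩ := gordan (fun o => (j3_L N (g o)).comp (j3_V N s blk).subtype) (by
    rintro ⟨⟨d, hd⟩, hv⟩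
    have m := j3_move A nd hd (τ := τ) fun r a b => ⟨(hτ r b).1, (hτ r b).2.1, (hτ r b).2.2, by
      have := hv (some ⟨r, mem_filter.2 ⟨a, b⟩⟩)
      change 0 < ∑ j ∈ Ico (0:ℤ) N, Dl d j * (-s r * cot ((τ r - t j) / 2)) at this
      rw [Sf, mul_sum, ← neg_pos, ← sum_neg_distrib]
      exact this.trans_eq (sum_congr rfl fun j _ => by ring)⟩
    have n := j3_norm (α := Wk 2 N t d / Wk 2 N t c) (β := Wk 1 N t d / Wk 1 N t c) (by
      filter_upwards [m] with ε ⟨ρ', F⟩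
      have := mx _ _ F
      rw [j3_Wk, j3_Wk, show Wk 2 N t c + ε * Wk 2 N t d =
          Wk 2 N t c * (1 + ε * (Wk 2 N t d / Wk 2 N t c)) by field_simp,
        show Wk 1 N t c + ε * Wk 1 N t d =
          Wk 1 N t c * (1 + ε * (Wk 1 N t d / Wk 1 N t c)) by field_simp, norm_mul, norm_mul] at this
      refine le_of_mul_le_mul_left ?_ (mul_pos (norm_pos_iff.2 h0) (norm_pos_iff.2 h1))
      linarith)
    have := hv none
    change 0 < ∑ j ∈ Ico (0:ℤ) N, Dl d j *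
      (ee (t j) ^ 2 / Wk 2 N t c - ee (t j) / Wk 1 N t c).re at this
    have e : ∑ j ∈ Ico (0:ℤ) N, Dl d j * (ee (t j) ^ 2 / Wk 2 N t c - ee (t j) / Wk 1 N t c).re =
        (Wk 2 N t d / Wk 2 N t c - Wk 1 N t d / Wk 1 N t c).re := by
      rw [Wk.eq_1 2 N t d, Wk.eq_1 1 N t d, sum_div, sum_div, ← sum_sub_distrib, Complex.re_sum]
      refine sum_congr rfl fun j _ => ?_
      rw [← Complex.re_ofReal_mul]
      congr 1
      ring
    rw [e, Complex.sub_re] at this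
    linarith)
  set κ' : ℤ → ℝ := fun r => if h : r ∈ R₀ then κ (some ⟨r, h⟩) else 0 with hκ
  have kk : ∀ r : R₀, κ' r = κ (some r) := fun r => by simp only [hκ, r.2, dif_pos]
  have H : ∀ j, Hf (-κ none / Wk 2 N t c) (κ none / Wk 1 N t c) {r ∈ R₀ | κ' r ≠ 0}
      (fun r => κ' r * s r) τ (t j) = -∑ o, κ o * g o j := fun j => by
    rw [Fintype.sum_option, Hf, sum_filter_of_ne (p := fun r => κ' r ≠ 0) fun r _ h e => h (by rw [e]; ring),
      ← sum_coe_sort R₀, neg_add, ← sum_neg_distrib]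
    congr 1
    · simp only [hg, Option.elim]
      rw [← Complex.re_ofReal_mul, ← Complex.neg_re]
      congr 1
      ring
    · exact sum_congr rfl fun r _ => by simp only [hg, Option.elim, kk]; ring
  refine ⟨-κ none / Wk 2 N t c, κ none / Wk 1 N t c, {r ∈ R₀ | κ' r ≠ 0}, fun r => κ' r * s r, τ,
    fun r hr => ?_, ?_, ?_, j3_stat A.pol.N0 A.str.pE A.str.pb (fun j => ?_) fun d hd => ?_⟩
  · obtain ⟨a, b⟩ := mem_filter.1 hr
    obtain ⟨a1, a2⟩ := mem_filter.1 a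
    refine ⟨a1, a2, ?_, (hτ r a2).1, (hτ r a2).2.1⟩
    have p : 0 < κ' r := lt_of_le_of_ne ((k0 _).trans_eq (kk ⟨r, a⟩).symm) b.symm
    rcases A.str.sgn r with h | h <;> simp [h, p]
  · obtain ⟨_ | r, hr⟩ := k1
    · exact Or.inl (div_ne_zero (neg_ne_zero.2 (by exact_mod_cast hr)) h1)
    · exact Or.inr ⟨r, mem_filter.2 ⟨r.2, by rwa [kk]⟩⟩
  · rw [norm_div, norm_div, norm_neg, div_mul_cancel₀ _ (norm_ne_zero_iff.2 h0),
      div_mul_cancel₀ _ (norm_ne_zero_iff.2 h1)]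
  · simp only [Hf, A.pol.tp, j3_ee]
    congr 1
    refine sum_congr rfl fun r _ => ?_
    rw [← j3_cot _ 1]
    congr 3
    push_cast
    ring
  · have := k2 ⟨d, hd⟩
    change ∑ o, κ o * ∑ j ∈ Ico (0:ℤ) N, Dl d j * g o j = 0 at this
    change ∑ j ∈ Ico (0:ℤ) N, Dl d j * _ = 0
    simp only [H, mul_neg, sum_neg_distrib, neg_eq_zero, mul_sum] at this ⊢
    rw [sum_comm, ← this]
    exact sum_congr rfl fun o _ => sum_congr rfl fun j _ => by ring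

end Pool.Agent.Lib.MP_9dc04a_an
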