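import Pool.Agent.Lib.MP_9dc04a_an.O3Fac

set_option autoImplicit false

namespace Pool.Agent.Lib.MP_9dc04a_an

open Finset Real

variable {N : ℕ} {t s c : ℤ → ℝ} {rf : ℤ → Prop} {blk : ℤ → ℕ} {I : Finset ℕ} {ar : ℕ → ℤ}
  {ρ : ℕ → ℝ}

lemma j2_Dl (c : ℤ → ℝ) (d w : ℝ) (j : ℤ) : Dl (fun j => (c j - d) * w) j = Dl c j * w := by
  simp only [Dl]; ring

lemma j2_Wk (n : ℕ) (d w : ℝ) : Wk n N t (fun j => (c j - d) * w) = Wk n N t c * w := by
  rw [Wk, Wk, sum_mul]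
  exact sum_congr rfl fun j _ => by rw [j2_Dl]; push_cast; ring

lemma j2_Wf (d w : ℝ) (z : ℂ) : Wf N t (fun j => (c j - d) * w) z = Wf N t c z * w := by
  rw [Wf, Wf, sum_mul]
  exact sum_congr rfl fun j _ => by rw [j2_Dl]; push_cast; ring

lemma j2_str {c' : ℤ → ℝ} (S : Str N (Ex s) s rf blk c)
    (h : ∀ j r, Ex s j → rf r → blk j = blk r → s r * c' j ≤ s r * c' r) :
    Str N (Ex s) s rf blk c' :=
  ⟨S.toBas, S.prf, S.pb, S.rE, S.rb, S.ru, S.hr, S.nc, S.pi, h⟩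

lemma j2_scale (A : Feas N t s rf blk I ar c ρ) (d : ℝ) {w : ℝ} (hw : 0 ≤ w) :
    Feas N t s rf blk I ar (fun j => (c j - d) * w) fun i => if i ∈ I then ρ i else t (ar i) := by
  refine ⟨A.pol, j2_str A.str fun j r a b e => ?_, fun j => by rw [A.pc], fun j => ?_, A.lab, A.cI,
    fun i hi => by rw [if_pos hi]; exact A.fac.lo i hi, fun z hz => ?_⟩
  · nlinarith [mul_le_mul_of_nonneg_right (A.str.iq j r a b e) hw]
  · rw [j2_Dl, ← mul_assoc]; exact mul_nonneg (A.sg j) hw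
  · rw [j2_Wf, j2_Wk, mul_right_comm, A.fac.fa z hz, mul_right_comm]
    congr 1
    exact prod_congr rfl fun i hi => by rw [if_pos hi]

lemma j2_P (T : Pol N t) (j : ℤ) : ∏ i ∈ Ioo j (j + N), (1 - ee (-t j) * ee (t i)) ≠ 0 :=
  prod_ne_zero_iff.2 fun i hi => j1_ne (T.tm (mem_Ioo.1 hi).1) (T.tp j ▸ T.tm (mem_Ioo.1 hi).2)

lemma j2_bd (T : Pol N t) (pc : ∀ j, c (j + N) = c j) (F : Fac N t c I ar ρ) (j : ℤ) :
    |Dl c j| ≤ ‖Wk 1 N t c‖ * 2 ^ #I / ‖∏ i ∈ Ioo j (j + N), (1 - ee (-t j) * ee (t i))‖ := by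
  have e := congrArg norm (F.jump T pc j)
  rw [norm_mul, norm_mul, norm_mul, j1_ee_norm, mul_one, Complex.norm_real, Real.norm_eq_abs] at e
  rw [le_div_iff₀ (norm_pos_iff.2 (j2_P T j)), e, norm_prod]
  refine mul_le_mul_of_nonneg_left ((prod_le_prod (fun _ _ => norm_nonneg _)
    (g := fun _ => 2) fun i _ => (norm_sub_le _ _).trans ?_).trans (by simp)) (norm_nonneg _)
  rw [norm_mul, j1_ee_norm, j1_ee_norm, norm_one]; norm_num

theorem Feas.max (A : Feas N t s rf blk I ar c ρ) (h0 : Wk 1 N t c ≠ 0) :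
    ∃ c₁ ρ₁, Feas N t s rf blk I ar c₁ ρ₁ ∧ Wk 1 N t c₁ ≠ 0 ∧ ∀ c' ρ', Feas N t s rf blk I ar c' ρ' →
      ‖Wk 2 N t c'‖ * ‖Wk 1 N t c₁‖ ≤ ‖Wk 2 N t c₁‖ * ‖Wk 1 N t c'‖ := by
  have T := A.pol
  set K : Set ((ℤ → ℝ) × (ℕ → ℝ)) := {p | Feas N t s rf blk I ar p.1 p.2 ∧ p.1 (-1) = 0 ∧
    ‖Wk 1 N t p.1‖ = 1 ∧ ∀ i, i ∉ I → p.2 i = t (ar i)} with hK
  have cW : ∀ n, Continuous fun p : (ℤ → ℝ) × (ℕ → ℝ) => Wk n N t p.1 := fun n => by
    unfold Wk Dl; fun_prop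
  have cl : IsClosed K := by
    have e : K = {p | ∀ j r, Ex s j → rf r → blk j = blk r → s r * p.1 j ≤ s r * p.1 r} ∩
        ({p | ∀ j, p.1 (j + N) = p.1 j} ∩ ({p | ∀ j, 0 ≤ s j * Dl p.1 j} ∩
        ({p | ∀ i, i ∈ I → t (ar i) ≤ p.2 i} ∩ ({p | ∀ i, i ∈ I → p.2 i ≤ t (ar i + 1)} ∩
        ({p | ∀ z : ℂ, ‖z‖ < 1 → Wf N t p.1 z * ∏ j ∈ Ico (0:ℤ) N, (1 - z * ee (t j)) =
          Wk 1 N t p.1 * ∏ i ∈ I, (1 - z * ee (p.2 i))} ∩ ({p | p.1 (-1) = 0} ∩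
        ({p | ‖Wk 1 N t p.1‖ = 1} ∩ {p | ∀ i, i ∉ I → p.2 i = t (ar i)}))))))) := by
      ext p
      exact ⟨fun ⟨B, h⟩ => ⟨B.str.iq, B.pc, B.sg, fun i hi => (B.fac.lo i hi).1,
        fun i hi => (B.fac.lo i hi).2, B.fac.fa, h⟩, fun ⟨a1, a2, a3, a4, a5, a6, h⟩ =>
        ⟨⟨T, j2_str A.str a1, a2, a3, A.lab, A.cI, fun i hi => ⟨a4 i hi, a5 i hi⟩, a6⟩, h⟩⟩
    have c1 := cW 1
    rw [e]
    simp only [Set.ofPred_forall]
    refine IsClosed.inter ?_ (IsClosed.inter ?_ (IsClosed.inter ?_ (IsClosed.inter ?_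
      (IsClosed.inter ?_ (IsClosed.inter ?_ (IsClosed.inter ?_ (IsClosed.inter ?_ ?_)))))))
    · exact isClosed_iInter fun _ => isClosed_iInter fun _ => isClosed_iInter fun _ =>
        isClosed_iInter fun _ => isClosed_iInter fun _ => isClosed_le (by fun_prop) (by fun_prop)
    · exact isClosed_iInter fun _ => isClosed_eq (by fun_prop) (by fun_prop)
    · exact isClosed_iInter fun _ => isClosed_le (by fun_prop) (by unfold Dl; fun_prop)
    · exact isClosed_iInter fun _ => isClosed_iInter fun _ =>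
        isClosed_le (by fun_prop) (by fun_prop)
    · exact isClosed_iInter fun _ => isClosed_iInter fun _ =>
        isClosed_le (by fun_prop) (by fun_prop)
    · exact isClosed_iInter fun _ => isClosed_iInter fun _ =>
        isClosed_eq (by unfold Wf Dl; fun_prop) (by unfold ee; fun_prop)
    · exact isClosed_eq (by fun_prop) (by fun_prop)
    · exact isClosed_eq (by fun_prop) (by fun_prop)
    · exact isClosed_iInter fun _ => isClosed_iInter fun _ =>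
        isClosed_eq (by fun_prop) (by fun_prop)
  set Bd := ∑ j ∈ Ico (0:ℤ) N, 1 * 2 ^ #I / ‖∏ i ∈ Ioo j (j + N), (1 - ee (-t j) * ee (t i))‖
  have cp : IsCompact K := by
    refine ((isCompact_univ_pi fun _ : ℤ => isCompact_Icc (a := -Bd) (b := Bd)).prod
      (isCompact_univ_pi fun i : ℕ => isCompact_Icc (a := t (ar i))
        (b := t (ar i + 1)))).of_isClosed_subset cl fun p ⟨B, p1, p2, p3⟩ =>
      ⟨fun j _ => ?_, fun i _ => ?_⟩
    · have m := mem_Ico.1 (j1_mem T.N0 j)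
      have e := j1_tel p.1 ((j % N).toNat + 1)
      rw [p1, sub_zero, show (((j % N).toNat + 1 : ℕ) : ℤ) - 1 = j % N by omega, j1_md B.pc] at e
      rw [Set.mem_Icc, ← abs_le, ← e]
      refine (abs_sum_le_sum_abs _ _).trans ((sum_le_sum_of_subset_of_nonneg
        (Ico_subset_Ico_right (by omega)) fun _ _ _ => abs_nonneg _).trans
        (sum_le_sum fun i _ => ?_))
      exact p2 ▸ j2_bd T B.pc B.fac i
    · by_cases hi : i ∈ I
      · exact B.fac.lo i hi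
      · rw [p3 i hi]; exact ⟨le_rfl, T.tm.monotone (by omega)⟩
  have nm : ∀ c' ρ', Feas N t s rf blk I ar c' ρ' → Wk 1 N t c' ≠ 0 →
      ∃ p ∈ K, ‖Wk 2 N t p.1‖ = ‖Wk 2 N t c'‖ * ‖Wk 1 N t c'‖⁻¹ := fun c' ρ' B h => by
    have w0 : 0 ≤ ‖Wk 1 N t c'‖⁻¹ := by positivity
    refine ⟨(_, _), ⟨j2_scale B (c' (-1)) w0, by simp, ?_, fun i hi => if_neg hi⟩, ?_⟩
    · rw [j2_Wk, norm_mul, Complex.norm_real, Real.norm_of_nonneg w0,
        mul_inv_cancel₀ (norm_ne_zero_iff.2 h)]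
    · rw [j2_Wk, norm_mul, Complex.norm_real, Real.norm_of_nonneg w0]
  obtain ⟨p, ⟨B, -, p2, -⟩, mx⟩ := cp.exists_isMaxOn
    ((nm c ρ A h0).imp fun p hp => hp.1) (cW 2).norm.continuousOn
  refine ⟨p.1, p.2, B, norm_ne_zero_iff.1 (by rw [p2]; exact one_ne_zero), fun c' ρ' B' => ?_⟩
  rw [p2, mul_one]
  by_cases h : Wk 1 N t c' = 0
  · have z : ∀ j, Dl c' j = 0 := fun j => by
      simpa [h] using j2_bd T B'.pc B'.fac j
    rw [h, Wk]
    simp [z]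
  · obtain ⟨q, q1, q2⟩ := nm c' ρ' B' h
    rw [← mul_inv_le_iff₀ (norm_pos_iff.2 h), ← q2]
    exact mx q1

lemma j2_parts (u k : ℤ → ℝ) {a b : ℤ} (ab : a ≤ b) : ∑ j ∈ Ico a b, (u j - u (j - 1)) * k j =
    ∑ j ∈ Ico a b, u j * (k j - k (j + 1)) + u (b - 1) * k b - u (a - 1) * k a := by
  induction b, ab using Int.leInduction with
  | base => simp
  | succ b hb ih =>
    rw [← insert_Ico_right_eq_Ico_add_one hb, sum_insert (by simp), sum_insert (by simp), ih,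
      add_sub_cancel_right]
    ring

lemma j2_cot {τ x y : ℝ} (h1 : τ < x) (h2 : x < y) (h3 : y < τ + 2 * π) :
    cot ((τ - x) / 2) < cot ((τ - y) / 2) := by
  have s1 := j1_sin (x := x - τ) (by linarith) (by linarith)
  have s2 := j1_sin (x := y - τ) (by linarith) (by linarith)
  have s3 := j1_sin (x := y - x) (by linarith) (by linarith)
  rw [show (y - x) / 2 = (y - τ) / 2 - (x - τ) / 2 by ring, sin_sub] at s3
  rw [show (τ - x) / 2 = -((x - τ) / 2) by ring, show (τ - y) / 2 = -((y - τ) / 2) by ring,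
    cot_eq_cos_div_sin, cot_eq_cos_div_sin, sin_neg, sin_neg, cos_neg, cos_neg, div_neg, div_neg,
    neg_lt_neg_iff, div_lt_div_iff₀ s2 s1]
  linarith

theorem Feas.hopf (A : Feas N t s rf blk I ar c ρ) (nd : ∀ j, Dl c j ≠ 0) {σ : ℝ}
    (hσ : σ = 1 ∨ σ = -1) : ∃ j, Ex s j ∧ blk j = 0 ∧ s j = σ := by
  have T := A.pol
  have S := A.str
  have h2 : 2 ≤ N := by have := A.cI; omega
  have σ0 : σ ≠ 0 := by rcases hσ with h | h <;> rw [h] <;> norm_num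
  obtain ⟨j, -, mx⟩ := exists_max_image (Ico (0:ℤ) N) (fun j => σ * c j) ⟨_, j1_mem T.N0 0⟩
  have mx' : ∀ i, σ * c i ≤ σ * c j := fun i => j1_md A.pc i ▸ mx _ (j1_mem T.N0 i)
  have sg : ∀ i, 0 < s i * Dl c i := fun i => (A.sg i).lt_of_ne (mul_ne_zero (by
    rcases S.sgn i with h | h <;> rw [h] <;> norm_num) (nd i)).symm
  have a1 : s j = σ := by
    have := mx' (j - 1)
    have b := sg j
    rw [Dl] at b
    rcases hσ with h | h <;> rcases S.sgn j with h' | h' <;> rw [h'] at b ⊢ <;> rw [h] at this ⊢ <;>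
      linarith
  have a2 : Ex s j := fun e => by
    have := mx' (j + 1)
    have b := sg (j + 1)
    rw [Dl, ← e, a1, add_sub_cancel_right] at b
    linarith
  refine ⟨j, a2, by_contra fun n => ?_, a1⟩
  obtain ⟨r, r1, r2, r3⟩ := S.hr j a2 n
  have r4 := S.iq j r a2 r1 r2.symm
  rw [r3, a1] at r4
  have r5 := A.lab r
  rw [rtc, if_pos r1] at r5
  obtain ⟨i, hi⟩ := card_pos.1 (r5 ▸ two_pos)
  rw [mem_filter] at hi
  obtain ⟨t1, t2, t3⟩ := A.fac.root T A.pc nd hi.1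
  have e : c (ar i) = c r := per_dvd A.pc hi.2
  set a := ar i
  set τ := ρ i
  set u : ℤ → ℝ := fun x => σ * (c x - c a) with hu
  have u0 : ∀ x, u x ≤ 0 := fun x => by
    simp only [hu, e]; linarith [mx' x]
  have p := j2_parts u (fun x => cot ((τ - t x) / 2)) (by omega : a + 1 ≤ a + 1 + N)
  have u1 : u (a + N) = 0 := by simp [hu, A.pc]
  have u2 : u a = 0 := by simp [hu]
  have q : ∑ x ∈ Ico (a + 1) (a + 1 + N), (u x - u (x - 1)) * cot ((τ - t x) / 2) = 0 := by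
    rw [← mul_zero σ, ← t3, Sf_win T A.pc (a + 1), mul_sum]
    exact sum_congr rfl fun x _ => by simp only [hu, Dl]; ring
  rw [q, show a + 1 + N - 1 = a + N by ring, add_sub_cancel_right, u1, u2, zero_mul, zero_mul,
    add_zero, sub_zero] at p
  have k : ∀ x, a + 1 ≤ x → x < a + N → cot ((τ - t x) / 2) - cot ((τ - t (x + 1)) / 2) < 0 :=
    fun x x1 x2 => sub_neg.2 (j2_cot (t2.trans_le (T.tm.monotone x1)) (T.tm (by omega))
      ((T.tm.monotone (by omega : x + 1 ≤ a + N)).trans_lt (by rw [T.tp]; linarith)))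
  refine (sum_pos' (fun x hx => ?_) ⟨a + 1, mem_Ico.2 ⟨le_rfl, by omega⟩, ?_⟩).ne p
  · rw [mem_Ico] at hx
    rcases (by omega : x ≤ a + N).eq_or_lt with rfl | l
    · rw [u1, zero_mul]
    · exact mul_nonneg_of_nonpos_of_nonpos (u0 x) (k x hx.1 l).le
  · refine mul_pos_of_neg_of_neg ((u0 _).lt_of_ne (mul_ne_zero σ0 ?_)) (k _ le_rfl (by omega))
    simpa [Dl] using nd (a + 1)

end Pool.Agent.Lib.MP_9dc04a_an
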