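import Pool.Agent.Lib.MP_9dc04a_an.Cmp
import Pool.Agent.Lib.MP_9dc04a_an.Ends

set_option autoImplicit false

namespace Pool.Agent.Lib.MP_9dc04a_an

open Complex hiding sin cos exp log log_one log_exp log_mul log_inv exp_log
open Metric Filter Topology Real Polynomial Finset
open scoped Real

lemma ex_pi {r : ℝ} (r0 : 0 < r) (r1 : r < 1) : ∃ z, SS z ∧ ‖z‖ = r ∧ (sg z).im = π := by
  have n : ∀ α, ‖circleMap 0 r α‖ = r := fun α => by simp [abs_of_pos r0]
  have s : ∀ α ∈ Set.Icc 0 π, SS (circleMap 0 r α) := fun α hα => by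
    refine ⟨by rw [n]; exact r1.le, ?_, ?_, ?_, ?_⟩
    · rw [circleMap_zero_im]; exact mul_nonneg r0.le (sin_nonneg_of_mem_Icc hα)
    all_goals
      intro e
      have := n α
      rw [e] at this
      simp at this
      linarith
  have c : ContinuousOn (fun α => (sg (circleMap 0 r α)).im) (Set.Icc 0 π) := fun α hα =>
    (continuous_im.continuousAt.comp (ContinuousAt.comp (f := circleMap 0 r)
      (d_sg (s α hα).dom).hasDerivAt.continuousAt
      (continuous_circleMap 0 r).continuousAt)).continuousWithinAt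
  have a := (real_pos (s 0 ⟨le_rfl, pi_pos.le⟩).dom.1 (by simp [circleMap_zero_im])
    (by simpa [circleMap_zero_re] using r0)).1
  have b := (real_neg (s π ⟨pi_pos.le, le_rfl⟩).dom.1 (by simp [circleMap_zero_im])
    (by simpa [circleMap_zero_re] using r0)).1
  obtain ⟨α, hα, e⟩ := intermediate_value_Icc pi_pos.le c (show π ∈ Set.Icc _ _ from
    ⟨by simp only [a]; exact pi_pos.le, by simp only [b]; linarith [pi_pos]⟩)
  exact ⟨_, s α hα, n α, e⟩

theorem thmB {d : ℕ} {P D1 : ℂ[X]} (h : TB d P D1) {Y : Set ℝ} (hY : Y.Finite)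
    (H : ∀ y : ℝ, y ∉ Y → #{i | 1 < ‖rt d P (X ^ 2 * D1) (y * I) i‖} ≤ 2) :
    ‖(derivative D1).eval 0 / D1.eval 0 - (derivative P).eval 0‖ ≤ 6 := by
  have S := h.sd hY H
  by_contra hc
  push Not at hc
  set A := ‖(derivative D1).eval 0 / D1.eval 0 - (derivative P).eval 0‖ with hA
  set ε := (A - 6) / (2 + 2 * A) with hε
  have ε0 : 0 < ε := div_pos (by linarith) (by linarith)
  have ε1 : ε * (2 + 2 * A) = A - 6 := div_mul_cancel₀ _ (by linarith)
  have ε2 : ε < 1 := by nlinarith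
  obtain ⟨δ, δ0, hδ⟩ := (nhdsGT_basis (0:ℝ)).eventually_iff.1 (h.end3 S ε0)
  have dph := (d_ph (z := 0) (by simp)).hasDerivAt
  have a1 : ∀ᶠ z in 𝓝 (0:ℂ), ‖ph z‖ < min (ε / 14) 1 :=
    dph.continuousAt.norm.eventually_lt continuousAt_const (by simpa [ph0] using ε0)
  have a2 := (hasDerivAt_iff_isLittleO_nhds_zero.1 dph).def one_pos
  have a3 := (hasDerivAt_iff_isLittleO_nhds_zero.1 d_LL0).def (c := ε / 4) (by positivity)
  obtain ⟨δ', δ1, hδ'⟩ := Metric.eventually_nhds_iff.1 ((a1.and a2).and a3)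
  set r := min (min δ δ') 1 / 3 with hr
  have r0 : 0 < r := by have := lt_min (lt_min δ0 δ1) one_pos; positivity
  have r1 : 3 * r ≤ δ := by linarith [min_le_left (min δ δ') 1, min_le_left δ δ']
  have r2 : r < δ' := by linarith [min_le_left (min δ δ') 1, min_le_right δ δ']
  obtain ⟨z, hz, nz, tz⟩ := ex_pi r0 (by linarith [min_le_right (min δ δ') 1])
  obtain ⟨⟨b1, b2⟩, b3⟩ := hδ' (y := z) (by rwa [dist_zero_right, nz])
  simp only [zero_add, ph0, LL0, sub_zero, add_zero, div_one, smul_eq_mul, nz, one_mul,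
    lt_min_iff] at b1 b2 b3
  have c1 : ‖ph z‖ ≤ 7 * r := by
    have := norm_le_norm_sub_add (ph z) (z * (1 + 5))
    rw [norm_mul, nz, show ‖(1 + 5 : ℂ)‖ = 6 by norm_num] at this
    linarith
  have c2 : (LL z).im ≤ (6 + ε / 4) * r := by
    have := norm_le_norm_sub_add (LL z) (z * 6)
    rw [norm_mul, nz, Complex.norm_ofNat] at this
    linarith [le_abs_self (LL z).im, abs_im_le_norm (LL z)]
  have c3 : (ph z).re * (ph z).im ≤ ε / 14 * (7 * r) := by
    refine (le_abs_self _).trans ?_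
    rw [abs_mul]
    exact mul_le_mul ((abs_re_le_norm _).trans b1.1.le) ((abs_im_le_norm _).trans c1)
      (abs_nonneg _) (by positivity)
  have c4 := abs_le.1 (abs_re_le_norm (ph z))
  set ρ := r * exp ((ph z).re / 2) with hρ
  have ρ0 : 0 < ρ := by positivity
  have ρ1 : r * (1 - ε) ≤ ρ := mul_le_mul_of_nonneg_left
    (by linarith [add_one_le_exp ((ph z).re / 2), c4.1]) r0.le
  have ρ2 : ρ < δ := by
    have : exp ((ph z).re / 2) < 3 :=
      (exp_le_exp.2 (by linarith [c4.2])).trans_lt (exp_one_lt_d9.trans (by norm_num))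
    nlinarith
  have es : (sg z).re = 2 * log ρ := by
    rw [sg_re, hρ, log_mul r0.ne' (exp_pos _).ne', log_exp, nz]; ring
  have k1 := hδ (show ρ ∈ Set.Ioo 0 δ from ⟨ρ0, ρ2⟩)
  have k2 := S.compare (fun lo hi s a b c => h.H1 a b s c) (fun Λ s a b => h.H2 a s b)
    (fun ε a => h.end1 S a) (fun ε a => h.end2 S a) hz
  rw [VV_eq, es, tz] at k2
  have k3 : (2 * A - ε) * ρ ≤ (12 + ε) * r := by linarith
  have k4 := mul_le_mul_of_nonneg_left ρ1 (by linarith : 0 ≤ 2 * A - ε)
  have k5 : (2 * A - ε) * (1 - ε) ≤ 12 + ε := le_of_mul_le_mul_right (by linarith) r0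
  nlinarith

end Pool.Agent.Lib.MP_9dc04a_an
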