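import Pool.Agent.Lib.MP_9dc04a_an.O3Def
import Pool.Agent.Lib.MP_9dc04a_an.ThmB

set_option autoImplicit false

namespace Pool.Agent.Lib.MP_9dc04a_an

open Finset Real Polynomial
open scoped ComplexConjugate

variable {a b : ℂ} {R : Finset ℤ} {k τ : ℤ → ℝ} {x₀ x y l : ℝ}

lemma j6_norm (x : ℝ) : ‖ee x‖ = 1 := by
  rw [ee, ← neg_mul, ← Complex.ofReal_neg, Complex.norm_exp_ofReal_mul_I]

lemma j6_ne (x : ℝ) : ee x ≠ 0 := Complex.exp_ne_zero _

lemma j6_conj (x : ℝ) : conj (ee x) = (ee x)⁻¹ := (Complex.inv_eq_conj (j6_norm x)).symm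

lemma j6_inj (hx : x₀ < x ∧ x ≤ x₀ + 2 * π) (hy : x₀ < y ∧ y ≤ x₀ + 2 * π) (h : ee x = ee y) :
    x = y := by
  obtain ⟨n, hn⟩ := Complex.exp_eq_exp_iff_exists_int.1 h
  have e : -x = -y + n * (2 * π) := by simpa using congrArg Complex.im hn
  have p := pi_pos
  have h1 : (n : ℝ) < 1 := by nlinarith [hx.1, hy.2]
  have h2 : (-1 : ℝ) < n := by nlinarith [hx.2, hy.1]
  obtain rfl : n = 0 := by
    have : n < 1 := by exact_mod_cast h1
    have : -1 < n := by exact_mod_cast h2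
    omega
  simpa using e

lemma j6_cot (h : ee y ≠ ee x) :
    (cot ((y - x) / 2) : ℝ) * (ee y - ee x) = -Complex.I * (ee y + ee x) := by
  obtain ⟨θ, hθ⟩ : ∃ θ, θ = (y - x) / 2 := ⟨_, rfl⟩
  have e1 : ee y = ee ((y + x) / 2) * (Complex.cos θ - Complex.sin θ * Complex.I) := by
    rw [← Complex.cos_neg, sub_eq_add_neg, ← neg_mul, ← Complex.sin_neg, ← Complex.exp_mul_I, ee,
      ee, ← Complex.exp_add, hθ]
    congr 1
    push_cast
    ring
  have e2 : ee x = ee ((y + x) / 2) * (Complex.cos θ + Complex.sin θ * Complex.I) := by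
    rw [← Complex.exp_mul_I, ee, ee, ← Complex.exp_add, hθ]
    congr 1
    push_cast
    ring
  have s : Complex.sin θ ≠ 0 := fun s => h (by rw [e1, e2, s]; ring)
  rw [← hθ, Real.cot_eq_cos_div_sin, e1, e2]
  push_cast
  field_simp
  ring

/-- counting the roots of a self reciprocal polynomial -/
lemma j6_count {d : ℕ} {P : ℂ[X]} {w : Fin d → ℂ} (h : En d P w) {κ : ℂ} (κ0 : κ ≠ 0)
    {S : Set ℂ} (hS : S.Infinite)
    (sr : ∀ z ∈ S, ‖z‖ = 1 ∧ z ^ d * conj (P.eval z) = κ * P.eval z) {Z : Finset ℂ}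
    (hZ : ∀ z ∈ Z, ‖z‖ = 1 ∧ P.eval z = 0) : 2 * #{i | 1 < ‖w i‖} + #Z ≤ d := by
  have e : ∏ i, (X - C (conj (w i))) = C κ * P := by
    refine eq_of_infinite_eval_eq _ _ (hS.mono fun z hz => ?_)
    obtain ⟨n, e⟩ := sr z hz
    have z0 : z ≠ 0 := by rintro rfl; simp at n
    simp only [Set.mem_ofPred_eq, eval_mul, eval_C, ← e, eval_prod, eval_sub, eval_X]
    rw [h z, map_prod, show z ^ d = ∏ _i : Fin d, z by simp, ← prod_mul_distrib]
    refine prod_congr rfl fun i _ => ?_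
    rw [map_sub, map_mul, map_one, ← Complex.inv_eq_conj n]
    field_simp
  have e' : ∀ z, ∏ i, (z - conj (w i)) = κ * P.eval z := fun z => by
    simpa [eval_prod] using congrArg (eval z) e
  have e0 : ∏ i, (-conj (w i)) = κ := by simpa [h 0] using e' 0
  have w0 : ∀ i, conj (w i) ≠ 0 := fun i h0 =>
    κ0 (e0 ▸ prod_eq_zero (mem_univ i) (by rw [h0, neg_zero]))
  obtain ⟨σ, hσ⟩ := h.perm (w' := fun i => (conj (w i))⁻¹) fun z => by
    refine mul_left_cancel₀ κ0 ?_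
    rw [← e', ← e0, ← prod_mul_distrib]
    refine prod_congr rfl fun i _ => ?_
    have := w0 i
    field_simp
    ring
  have c1 : #{i | 1 < ‖w i‖} ≤ #{i | ‖w i‖ < 1} :=
    card_le_card_of_injOn σ (fun i hi => by
      simp only [coe_filter, mem_univ, true_and, Set.mem_ofPred_eq] at hi ⊢
      rw [← hσ i, norm_inv, Complex.norm_conj] at hi
      exact (one_lt_inv_iff₀.1 hi).2) σ.injective.injOn
  have c2 : #Z ≤ #{i | ‖w i‖ = 1} := card_le_card_of_surjOn (fun i => (w i)⁻¹) fun z hz => by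
    obtain ⟨n, e⟩ := hZ z hz
    obtain ⟨i, -, hi⟩ := prod_eq_zero_iff.1 ((h z).symm.trans e)
    have := sub_eq_zero.1 hi
    refine ⟨i, ?_, inv_eq_of_mul_eq_one_right this.symm⟩
    simpa [n] using (congrArg norm this).symm
  have c3 := card_filter_add_card_filter_not (s := (univ : Finset (Fin d))) fun i => 1 < ‖w i‖
  have c4 := card_filter_add_card_filter_not (s := ({i | ¬1 < ‖w i‖} : Finset (Fin d)))
    fun i => ‖w i‖ < 1
  have c5 : #{i | ‖w i‖ < 1} ≤ #{i ∈ ({i | ¬1 < ‖w i‖} : Finset (Fin d)) | ‖w i‖ < 1} :=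
    card_le_card fun i hi => by
      simp only [mem_filter, mem_univ, true_and] at *; exact ⟨hi.le.not_gt, hi⟩
  have c6 : #{i | ‖w i‖ = 1} ≤ #{i ∈ ({i | ¬1 < ‖w i‖} : Finset (Fin d)) | ¬‖w i‖ < 1} :=
    card_le_card fun i hi => by simp only [mem_filter, mem_univ, true_and] at *; simp [hi]
  rw [card_univ, Fintype.card_fin] at c3
  omega

/-- the polynomial with the poles as roots -/
noncomputable def j6D (R : Finset ℤ) (τ : ℤ → ℝ) : ℂ[X] := ∏ r ∈ R, (C (ee (τ r)) - X)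

/-- the numerator of the sum of cotangents -/
noncomputable def j6Q (R : Finset ℤ) (k τ : ℤ → ℝ) (l : ℝ) : ℂ[X] :=
  ∑ r ∈ R, C (-Complex.I * k r) * ((C (ee (τ r)) + X) * j6D (R.erase r) τ) - C (l : ℂ) * j6D R τ

/-- the numerator of the multiplier function -/
noncomputable def j6G (a b : ℂ) (R : Finset ℤ) (k τ : ℤ → ℝ) (l : ℝ) : ℂ[X] :=
  j6D R τ * (C (conj a / 2) + C (conj b / 2) * X + C (b / 2) * X ^ 3 + C (a / 2) * X ^ 4) +
    X ^ 2 * j6Q R k τ l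

lemma j6_evD (z : ℂ) : (j6D R τ).eval z = ∏ r ∈ R, (ee (τ r) - z) := by simp [j6D, eval_prod]

lemma j6_dD : (j6D R τ).natDegree ≤ #R :=
  (natDegree_prod_le _ _).trans ((sum_le_card_nsmul _ _ 1 fun _ _ => by compute_degree).trans
    (by simp))

lemma j6_dQ : (j6Q R k τ l).natDegree ≤ #R := by
  refine (natDegree_sub_le _ _).trans (max_le (natDegree_sum_le_of_forall_le _ _ fun r hr => ?_)
    ((natDegree_C_mul_le _ _).trans j6_dD))
  have h1 : (C (ee (τ r)) + X).natDegree ≤ 1 := by compute_degree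
  have h2 := j6_dD (R := R.erase r) (τ := τ)
  have h3 := card_erase_add_one hr
  exact (natDegree_C_mul_le _ _).trans (natDegree_mul_le.trans (by omega))

lemma j6_dX {Q : ℂ[X]} {n : ℕ} (h : Q.natDegree ≤ n) : (X ^ 2 * Q).natDegree ≤ n + 4 :=
  natDegree_mul_le.trans (by rw [natDegree_X_pow]; omega)

lemma j6_dG : (j6G a b R k τ l).natDegree ≤ #R + 4 :=
  (natDegree_add_le _ _).trans (max_le (natDegree_mul_le.trans
    (add_le_add j6_dD (by compute_degree))) (j6_dX j6_dQ))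

lemma j6_evQ (h : ∀ r ∈ R, ee (τ r) ≠ ee x) : (j6Q R k τ l).eval (ee x) =
    (j6D R τ).eval (ee x) * (∑ r ∈ R, k r * cot ((τ r - x) / 2) - l : ℝ) := by
  simp only [j6Q, eval_sub, eval_finsetSum, eval_mul, eval_C, eval_add, eval_X, j6_evD,
    Complex.ofReal_sub, Complex.ofReal_sum, Complex.ofReal_mul, mul_sub, mul_sum]
  rw [mul_comm (l : ℂ)]
  refine congrArg (· - _) (sum_congr rfl fun r hr => ?_)
  rw [← mul_prod_erase R _ hr]
  linear_combination -(k r * ∏ r ∈ R.erase r, (ee (τ r) - ee x)) * j6_cot (h r hr)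

lemma j6_evG (h : ∀ r ∈ R, ee (τ r) ≠ ee x) : (j6G a b R k τ l).eval (ee x) =
    ee x ^ 2 * (j6D R τ).eval (ee x) * (Hf a b R k τ x - l : ℝ) := by
  have := j6_ne x
  simp only [j6G, eval_add, eval_mul, eval_C, eval_X, eval_pow, j6_evQ h, Hf, add_sub_assoc,
    Complex.ofReal_add, Complex.re_eq_add_conj, map_add, map_mul, map_pow, j6_conj]
  field_simp
  ring

lemma j6_sr (h : ∀ r ∈ R, ee (τ r) ≠ ee x) :
    ee x ^ (#R + 4) * conj ((j6G a b R k τ l).eval (ee x)) =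
      (∏ r ∈ R, -(ee (τ r))⁻¹) * (j6G a b R k τ l).eval (ee x) := by
  have n := j6_ne x
  have e : ee x ^ #R * conj ((j6D R τ).eval (ee x)) =
      (∏ r ∈ R, -(ee (τ r))⁻¹) * (j6D R τ).eval (ee x) := by
    simp only [j6_evD, map_prod, ← prod_const, ← prod_mul_distrib, map_sub, j6_conj]
    refine prod_congr rfl fun r _ => ?_
    have := j6_ne (τ r)
    field_simp
    ring
  rw [j6_evG h, map_mul, map_mul, map_pow, j6_conj, Complex.conj_ofReal, pow_add]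
  generalize ∏ r ∈ R, -(ee (τ r))⁻¹ = p at e ⊢
  field_simp
  linear_combination (Hf a b R k τ x - l : ℝ) * e

theorem sr_bound {a b : ℂ} {R : Finset ℤ} {k τ : ℤ → ℝ} {x₀ l₀ : ℝ}
    (hR : ∀ r ∈ R, k r ≠ 0 ∧ x₀ < τ r ∧ τ r ≤ x₀ + 2 * π) (inj : Set.InjOn τ R)
    (ab : a = 0 → b = 0) (ne : a ≠ 0 ∨ R.Nonempty)
    (h1 : ∀ l, ∃ Z : Finset ℝ, #R ≤ #Z ∧
      ∀ x ∈ Z, x₀ < x ∧ x ≤ x₀ + 2 * π ∧ (∀ r ∈ R, x ≠ τ r) ∧ Hf a b R k τ x = l)
    (h3 : ∃ Z : Finset ℝ, #R + 3 ≤ #Z ∧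
      ∀ x ∈ Z, x₀ < x ∧ x ≤ x₀ + 2 * π ∧ (∀ r ∈ R, x ≠ τ r) ∧ Hf a b R k τ x = l₀) :
    a ≠ 0 ∧ ‖b‖ ≤ 6 * ‖a‖ := by
  classical
  have off : ∀ x, x₀ < x → x ≤ x₀ + 2 * π → (∀ r ∈ R, x ≠ τ r) → ∀ r ∈ R, ee (τ r) ≠ ee x :=
    fun x p q h r hr e => h r hr (j6_inj (hR r hr).2 ⟨p, q⟩ e).symm
  have img : ∀ {l n}, (∃ Z : Finset ℝ, n ≤ #Z ∧ ∀ x ∈ Z, x₀ < x ∧ x ≤ x₀ + 2 * π ∧
      (∀ r ∈ R, x ≠ τ r) ∧ Hf a b R k τ x = l) → ∃ Z : Finset ℂ, n ≤ #Z ∧
        ∀ z ∈ Z, ‖z‖ = 1 ∧ (j6G a b R k τ l).eval z = 0 := fun ⟨Z, c, h⟩ =>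
    ⟨Z.image ee, c.trans (card_image_of_injOn fun x hx y hy =>
      j6_inj ⟨(h x hx).1, (h x hx).2.1⟩ ⟨(h y hy).1, (h y hy).2.1⟩).ge, forall_mem_image.2
        fun {x} hx => ⟨j6_norm x, by
          rw [j6_evG (off x (h x hx).1 (h x hx).2.1 (h x hx).2.2.1), (h x hx).2.2.2]; simp⟩⟩
  obtain ⟨Z₀, c0, hZ₀⟩ := img h3
  have a0 : a ≠ 0 := fun a0 => by
    obtain ⟨r, hr⟩ := ne.resolve_left (not_not.2 a0)
    have q : j6Q R k τ l₀ ≠ 0 := fun q => by
      have := congrArg (eval (ee (τ r))) q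
      simp only [j6Q, eval_sub, eval_finsetSum, eval_mul, eval_C, eval_add, eval_X, j6_evD,
        eval_zero] at this
      rw [prod_eq_zero hr (sub_self (ee (τ r))), mul_zero, sub_zero, sum_eq_single_of_mem r hr
        fun r' _ n => by rw [prod_eq_zero (mem_erase.2 ⟨n.symm, hr⟩) (sub_self (ee (τ r))),
          mul_zero, mul_zero]] at this
      refine mul_ne_zero (by simpa using (hR r hr).1) (mul_ne_zero (by simpa using j6_ne _)
        (prod_ne_zero_iff.2 fun r' hr' e => ?_)) this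
      obtain ⟨n, hr'⟩ := mem_erase.1 hr'
      exact n (inj hr' hr (j6_inj (hR r' hr').2 (hR r hr).2 (sub_eq_zero.1 e)))
    have := card_le_degree_of_subset_roots (p := j6Q R k τ l₀) (Z := Z₀) fun z hz => by
      obtain ⟨n, e⟩ := hZ₀ z hz
      have z0 : z ≠ 0 := by rintro rfl; simp at n
      rw [mem_roots q]
      simpa [j6G, a0, ab a0, z0] using e
    have := j6_dQ (R := R) (k := k) (τ := τ) (l := l₀)
    omega
  refine ⟨a0, ?_⟩
  have D0 : ‖(j6D R τ).eval 0‖ = 1 := by simp [j6_evD, j6_norm]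
  have D0' : (j6D R τ).eval 0 ≠ 0 := norm_ne_zero_iff.1 (D0 ▸ one_ne_zero)
  obtain ⟨g, hg⟩ : ∃ g, g = (j6D R τ).eval 0 * (conj a / 2) := ⟨_, rfl⟩
  have g0 : g ≠ 0 := hg ▸ mul_ne_zero D0' (by simpa using a0)
  have g1 : (‖g‖ : ℂ) ≠ 0 := by simpa using g0
  have pd : PD (#R + 4) (C g⁻¹ * j6G a b R k τ l₀)
      (X ^ 2 * (C (‖g‖ / (Complex.I * g)) * j6D R τ)) :=
    ⟨(natDegree_C_mul_le _ _).trans j6_dG, j6_dX ((natDegree_C_mul_le _ _).trans j6_dD),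
      by simpa [j6G, ← hg] using inv_mul_cancel₀ g0, by simp⟩
  have e : ∀ y : ℝ, C g⁻¹ * j6G a b R k τ l₀ - C (y * Complex.I) *
      (X ^ 2 * (C (‖g‖ / (Complex.I * g)) * j6D R τ)) =
        C g⁻¹ * j6G a b R k τ (l₀ + y * ‖g‖) := fun y => by
    refine Polynomial.funext fun z => ?_
    simp only [j6G, j6Q, eval_sub, eval_mul, eval_add, eval_C]
    push_cast
    field_simp
    ring
  have cnt : ∀ (y : ℝ) (Z : Finset ℂ),
      (∀ z ∈ Z, ‖z‖ = 1 ∧ (j6G a b R k τ (l₀ + y * ‖g‖)).eval z = 0) → 2 * #{i | 1 < ‖rt (#R + 4)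
        (C g⁻¹ * j6G a b R k τ l₀) (X ^ 2 * (C (‖g‖ / (Complex.I * g)) * j6D R τ))
          (y * Complex.I) i‖} + #Z ≤ #R + 4 := fun y Z hZ => by
    refine j6_count (pd.en _) (κ := conj g⁻¹ * (∏ r ∈ R, -(ee (τ r))⁻¹) * g)
      (mul_ne_zero (mul_ne_zero (by simpa using g0) (prod_ne_zero_iff.2 fun r _ => by
        simpa using j6_ne _)) g0) (S := ee '' (Set.Ioc x₀ (x₀ + 2 * π) \ τ '' R))
      (((Set.Ioc_infinite (by linarith [pi_pos])).sdiff (R.finite_toSet.image τ)).image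
        fun x hx y hy => j6_inj hx.1 hy.1) ?_ fun z hz =>
          ⟨(hZ z hz).1, by rw [e, eval_mul, (hZ z hz).2, mul_zero]⟩
    rintro _ ⟨x, hx, rfl⟩
    refine ⟨j6_norm x, ?_⟩
    rw [e, eval_mul, eval_C, map_mul, mul_left_comm,
      j6_sr (off x hx.1.1 hx.1.2 fun r hr e => hx.2 ⟨r, hr, e.symm⟩)]
    field_simp
  have key := thmB (Y := ∅) ⟨pd, by omega, fun z hz e => ?_, fun z hz => ?_, ?_⟩ Set.finite_empty
    fun y _ => ?_
  · have : (derivative (C (‖g‖ / (Complex.I * g)) * j6D R τ)).eval 0 /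
        (C (‖g‖ / (Complex.I * g)) * j6D R τ).eval 0 -
          (derivative (C g⁻¹ * j6G a b R k τ l₀)).eval 0 = -conj (b / a) := by
      have : conj a ≠ 0 := by simpa using a0
      simp [j6G]
      field_simp
      rw [hg]
      ring
    rwa [this, norm_neg, Complex.norm_conj, norm_div, div_le_iff₀ (norm_pos_iff.2 a0)] at key
  · have c := cnt 0 Z₀ (by simpa using hZ₀)
    have := pd.ev ((0 : ℝ) * Complex.I) z
    rw [e, Complex.ofReal_zero, zero_mul, zero_mul, sub_zero] at this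
    obtain ⟨i, -, hi⟩ := prod_eq_zero_iff.1 this.symm
    rw [Complex.ofReal_zero, zero_mul] at c
    generalize rt _ _ _ _ = w at hi c
    have n := congrArg norm (sub_eq_zero.1 hi)
    rw [norm_one, norm_mul] at n
    have : 0 < #{i | 1 < ‖w i‖} := card_pos.2 ⟨i, mem_filter.2 ⟨mem_univ _, by
      by_contra h
      linarith [mul_le_mul_of_nonneg_right (not_lt.1 h) (norm_nonneg z)]⟩⟩
    omega
  · rw [eval_mul, eval_C, j6_evD]
    refine mul_ne_zero (by simpa using g0) (prod_ne_zero_iff.2 fun r _ e => ?_)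
    rw [← sub_eq_zero.1 e, j6_norm] at hz
    exact hz.false
  · simp [D0, g0]
  · obtain ⟨Z, c, hZ⟩ := img (h1 (l₀ + y * ‖g‖))
    have := cnt y Z hZ
    omega

end Pool.Agent.Lib.MP_9dc04a_an
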