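import Pool.Agent.Lib.MP_9dc04a_an.O3Del
import Pool.Agent.Lib.MP_9dc04a_an.O3Max
import Pool.Agent.Lib.MP_9dc04a_an.O3Kkt
import Pool.Agent.Lib.MP_9dc04a_an.O3Cnt
import Pool.Agent.Lib.MP_9dc04a_an.O3Sr

set_option autoImplicit false

namespace Pool.Agent.Lib.MP_9dc04a_an

open Finset Real

variable {N : ℕ} {rf : ℤ → Prop} {t s c y : ℤ → ℝ} {blk : ℤ → ℕ} {I : Finset ℕ}
  {ar : ℕ → ℤ} {ρ : ℕ → ℝ}

theorem Feas.nondeg (A : Feas N t s rf blk I ar c ρ) (h3 : 3 ≤ N) (nd : ∀ j, Dl c j ≠ 0)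
    (h0 : Wk 1 N t c ≠ 0) (mx : ∀ c' ρ', Feas N t s rf blk I ar c' ρ' →
      ‖Wk 2 N t c'‖ * ‖Wk 1 N t c‖ ≤ ‖Wk 2 N t c‖ * ‖Wk 1 N t c'‖) :
    ‖Wk 2 N t c‖ ≤ 6 * ‖Wk 1 N t c‖ := by
  by_cases h1 : Wk 2 N t c = 0
  · rw [h1, norm_zero]; positivity
  obtain ⟨a, b, R, k, τ, hR, ne, ab, H⟩ := A.kkt nd h0 h1 mx
  have T := A.pol
  obtain ⟨l, J, J3, hJ⟩ := H.three A.str h3 (A.hopf nd (Or.inl rfl)) (A.hopf nd (Or.inr rfl))
  have w0 := norm_pos_iff.2 h0
  obtain ⟨a0, hb⟩ := sr_bound (a := a) (b := b) (R := R) (k := k) (τ := τ) (x₀ := t 0) (l₀ := l)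
    (fun r hr => by
      obtain ⟨r1, -, r3, r4, r5⟩ := hR r hr
      rw [mem_Ico] at r1
      have := T.tp 0
      rw [zero_add] at this
      exact ⟨fun e => by simp [e] at r3, (T.tm.monotone r1.1).trans_lt r4,
        this ▸ r5.le.trans (T.tm.monotone r1.2)⟩)
    (fun r hr r' hr' e => by
      obtain ⟨-, -, -, r4, r5⟩ := hR r hr
      obtain ⟨-, -, -, r4', r5'⟩ := hR r' hr'
      have u := T.tm.lt_iff_lt.1 (r4.trans (e ▸ r5'))
      have v := T.tm.lt_iff_lt.1 (r4'.trans (e ▸ r5))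
      omega)
    (fun e => by
      rw [e, norm_zero, zero_mul] at ab
      exact norm_eq_zero.1 ((mul_eq_zero.1 ab).resolve_right w0.ne')) ne
    (fun l => by simpa using count_roots T A.str hR H l ∅ (by simp))
    (by
      obtain ⟨Z, Z1, Z2⟩ := count_roots T A.str hR H l J hJ
      exact ⟨Z, by omega, Z2⟩)
  refine le_of_mul_le_mul_left ?_ (norm_pos_iff.2 a0)
  nlinarith

theorem Feas.bound (A : Feas N t s rf blk I ar c ρ) : ‖Wk 2 N t c‖ ≤ 6 * ‖Wk 1 N t c‖ := by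
  induction N generalizing t s rf blk I ar c ρ with
  | zero => exact absurd A.pol.N0 (lt_irrefl _)
  | succ n ih =>
    by_cases hn : n ≤ 1
    · obtain rfl : n = 1 := by have := A.cI; omega
      have e : Ico (0:ℤ) (1 + 1 : ℕ) = {0, 1} := by decide
      have z := j1_sum0 A.pc
      rw [e, sum_pair (by norm_num)] at z
      have : Wk 2 (1 + 1) t c = Wk 1 (1 + 1) t c * (ee (t 0) + ee (t 1)) := by
        rw [Wk, Wk, e, sum_pair (by norm_num), sum_pair (by norm_num),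
          show Dl c 1 = -Dl c 0 by linarith]
        push_cast; ring
      rw [this, norm_mul]
      have := norm_add_le (ee (t 0)) (ee (t 1))
      rw [j1_ee_norm, j1_ee_norm] at this
      nlinarith [norm_nonneg (Wk 1 (1 + 1) t c)]
    by_cases h0 : Wk 1 (n + 1) t c = 0
    · have z : ∀ j, Dl c j = 0 := fun j => by
        by_contra x
        exact Qp_pole_ne A.pol A.pc x (by rw [A.fac.eval, h0, zero_mul])
      simp [Wk, z]
    obtain ⟨c₁, ρ₁, A₁, h1, mx⟩ := A.max h0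
    have : ‖Wk 2 (n + 1) t c₁‖ ≤ 6 * ‖Wk 1 (n + 1) t c₁‖ := by
      by_cases d : ∃ j, Dl c₁ j = 0
      · obtain ⟨j, hj⟩ := d
        obtain ⟨t', s', rf', blk', I', ar', c', ρ', A', e⟩ := A₁.del (by omega) h1 hj
        rw [← e, ← e]; exact ih A'
      · exact A₁.nondeg (by omega) (fun j x => d ⟨j, x⟩) h1 mx
    refine le_of_mul_le_mul_right ?_ (norm_pos_iff.2 h1)
    nlinarith [mx c ρ A, norm_nonneg (Wk 1 (n + 1) t c)]

lemma ex_lab (B : Bas N (Ex s) s) (prf : ∀ j, rf (j + N) = rf j) (rE : ∀ j, rf j → Ex s j) :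
    ∃ I ar, Lab N s rf I ar ∧ (#I : ℤ) + DD N (Ex s) rf = N := by
  classical
  have pr : ∀ j, rtc s rf (j + N) = rtc s rf j := fun j => by unfold rtc; rw [prf, B.pE]
  have le : ∀ j, rtc s rf j ≤ 2 := fun j => by unfold rtc; split_ifs <;> omega
  set I : Finset ℕ := {i ∈ range (2 * N) | i % 2 < rtc s rf ((i / 2 : ℕ) : ℤ)} with hI
  have k : ∀ j ∈ Ico (0:ℤ) N, #{i ∈ I | ((i / 2 : ℕ) : ℤ) = j} = rtc s rf j := fun j hj => by
    rw [mem_Ico] at hj
    obtain ⟨m, rfl⟩ := Int.eq_ofNat_of_zero_le hj.1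
    have := le m
    rw [← card_range (rtc s rf m)]
    refine card_nbij' (· % 2) (2 * m + ·) (fun i hi => ?_) (fun i hi => ?_) (fun i hi => ?_)
      fun i hi => ?_
    · simp only [hI, coe_filter, mem_filter, Set.mem_setOf_eq] at hi
      rw [← hi.2]; simpa using hi.1.2
    · simp only [coe_range, Set.mem_Iio] at hi
      simp only [hI, coe_filter, mem_filter, Set.mem_setOf_eq, mem_range]
      rw [show (2 * m + i) / 2 = m by omega]
      omega
    · simp only [coe_filter, Set.mem_setOf_eq] at hi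
      simp only; omega
    · simp only [coe_range, Set.mem_Iio] at hi
      simp only; omega
  have mem : ∀ i ∈ I, ((i / 2 : ℕ) : ℤ) ∈ Ico (0:ℤ) N := fun i hi => by
    have := mem_range.1 (mem_filter.1 hi).1
    rw [mem_Ico]; omega
  refine ⟨I, fun i => ((i / 2 : ℕ) : ℤ), fun j => ?_, ?_⟩
  · obtain ⟨q, q1, q2⟩ := ex_win B.N0 j 0
    rw [← per_mul pr q j, ← k _ (mem_Ico.2 ⟨q1, by simpa using q2⟩)]
    refine congrArg _ (filter_congr fun i hi => ⟨fun d => ?_, fun e => ⟨q, by linarith⟩⟩)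
    have := mem_Ico.1 (mem i hi)
    refine win_eq (N := N) this.1 (by simpa using this.2) q1 q2 ?_
    rwa [show ((i / 2 : ℕ) : ℤ) - (j + N * q) = (i / 2 : ℕ) + N * (-q) - j by ring, dvd_sh]
  · rw [card_eq_sum_card_fiberwise mem, sum_congr rfl k, DD, Nat.cast_sum, ← sum_add_distrib,
      sum_congr rfl (g := fun _ => 1) fun j _ => ?_]
    · simp
    · have := rE j
      unfold rtc lbl
      split_ifs <;> simp

theorem fin_bound (T : Pol N t) (P : Pl N (Ex s) s c y rf) (sg : ∀ j, 0 < s j * Dl c j)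
    (hτ : ∀ j ∈ Ico (0:ℤ) N, rf j → ∃ τ, t j < τ ∧ τ < t (j + 1) ∧ s j * Sf N t c τ < 0) :
    ‖Wk 2 N t c‖ ≤ 6 * ‖Wk 1 N t c‖ := by
  obtain ⟨I, ar, L, e⟩ := ex_lab P.toBas P.prf P.rE
  have := P.str
  obtain ⟨cI, ρ, F⟩ := fac_of_sign T P.toBas P.prf P.rE P.pc L (by omega) sg hτ
  obtain ⟨-, blk, S⟩ := this.resolve_left (by omega)
  exact Feas.bound ⟨T, S, P.pc, fun j => (sg j).le, L, cI, F⟩

end Pool.Agent.Lib.MP_9dc04a_an
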