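import Pool.Agent.Lib.MP_9dc04a_an.O3App0
import Pool.Agent.Lib.MP_9dc04a_an.O3Fin

set_option autoImplicit false

namespace Pool.Agent.Lib.MP_9dc04a_an

open Finset Real MeasureTheory

variable {s y : ℤ → ℝ} {rf : ℤ → Prop}

theorem approx {M : ℕ} {α : ℤ → ℝ} {u u' : ℝ → ℝ} (A : Pol M α) (hu : ∀ x, HasDerivAt u (u' x) x)
    (cu : Continuous u') (sg : ∀ k x, α (k - 1) < x → x < α k → 0 < s k * u' x)
    (P : Pl M (Ex s) s (fun k => u (α k)) y rf)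
    (hr : ∀ k, rf k → IntervalIntegrable (fun x => u' x * cot ((α k - x) / 2)) volume
        (α 0) (α 0 + 2 * π) ∧ s k * ∫ x in α 0..α 0 + 2 * π, u' x * cot ((α k - x) / 2) < 0) :
    ‖∫ x in α 0..α 0 + 2 * π, (u' x : ℂ) * ee x ^ 2‖ ≤
      6 * ‖∫ x in α 0..α 0 + 2 * π, (u' x : ℂ) * ee x‖ :=
  approx_of fin_bound A hu cu sg P hr

end Pool.Agent.Lib.MP_9dc04a_an
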