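import Pool.Agent.Lib.MP_9dc04a_an.O3Def

set_option autoImplicit false

namespace Pool.Agent.Lib.MP_9dc04a_an

open Finset Real

theorem enum_per (Z : Finset ℝ) (x₀ : ℝ) (ne : Z.Nonempty)
    (hZ : ∀ x ∈ Z, x₀ ≤ x ∧ x < x₀ + 2 * π) :
    ∃ t : ℤ → ℝ, Pol #Z t ∧ (∀ j ∈ Ico (0:ℤ) #Z, t j ∈ Z) ∧
      ∀ x ∈ Z, ∃ j ∈ Ico (0:ℤ) #Z, t j = x := by
  have N0 : 0 < #Z := card_pos.2 ne
  have N1 : (0:ℤ) < #Z := by exact_mod_cast N0
  have lt : ∀ j : ℤ, (j % #Z).toNat < #Z := fun j => by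
    have := Int.emod_lt_of_pos j N1
    have := Int.emod_nonneg j N1.ne'
    omega
  set e := Z.orderEmbOfFin rfl with he
  have m : ∀ i, e i ∈ Z := fun i => Z.orderEmbOfFin_mem rfl i
  have w : ∀ j ∈ Ico (0:ℤ) #Z, j % #Z = j ∧ j / #Z = 0 := fun j hj =>
    ⟨Int.emod_eq_of_lt (mem_Ico.1 hj).1 (mem_Ico.1 hj).2,
      Int.ediv_eq_zero_of_lt (mem_Ico.1 hj).1 (mem_Ico.1 hj).2⟩
  refine ⟨fun j => e ⟨(j % #Z).toNat, lt j⟩ + 2 * π * ((j / #Z : ℤ) : ℝ),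
    ⟨N0, fun i j h => ?_, fun j => ?_⟩, fun j hj => ?_, fun x hx => ?_⟩
  · rcases (Int.ediv_le_ediv N1 h.le).eq_or_lt with c | c
    · have a := Int.emod_add_mul_ediv i #Z
      have b := Int.emod_add_mul_ediv j #Z
      rw [c] at a
      have := Int.emod_nonneg i N1.ne'
      have : e ⟨(i % #Z).toNat, lt i⟩ < e ⟨(j % #Z).toNat, lt j⟩ :=
        e.strictMono (Fin.mk_lt_mk.2 (by omega))
      simp only [c]
      linarith
    · have : ((i / #Z : ℤ) : ℝ) + 1 ≤ ((j / #Z : ℤ) : ℝ) := by exact_mod_cast c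
      have := mul_le_mul_of_nonneg_left this two_pi_pos.le
      linarith [(hZ _ (m ⟨(i % #Z).toNat, lt i⟩)).2, (hZ _ (m ⟨(j % #Z).toNat, lt j⟩)).1]
  · have a : (j + #Z) / #Z = j / #Z + 1 := by
      simpa using Int.add_mul_ediv_right j 1 N1.ne'
    simp only [Int.add_emod_right, a]
    push_cast
    ring
  · simp only [(w j hj).2, Int.cast_zero, mul_zero, add_zero]
    exact m _
  · obtain ⟨i, hi⟩ : x ∈ Set.range e := by rw [he, range_orderEmbOfFin]; exact hx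
    have h : (i : ℤ) ∈ Ico (0:ℤ) #Z := mem_Ico.2 ⟨by omega, by exact_mod_cast i.2⟩
    refine ⟨i, h, ?_⟩
    simp only [(w _ h).1, (w _ h).2, Int.cast_zero, mul_zero, add_zero, Int.toNat_natCast]
    exact hi

end Pool.Agent.Lib.MP_9dc04a_an
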