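import Pool.Agent.Lib.MP_9dc04a_an.O3Pl
import Pool.Agent.Lib.MP_9dc04a_an.O3Enum

set_option autoImplicit false

namespace Pool.Agent.Lib.MP_9dc04a_an

open Finset Real MeasureTheory Finsupp

section
variable {E : Type} [NormedAddCommGroup E] [NormedSpace ℝ E] [CompleteSpace E] {F : ℝ → E}

lemma j8_hull {a b σ ε : ℝ} {p : ℝ → ℝ} (ab : a < b) (hp : ∀ x ∈ Set.Ioo a b, 0 < σ * p x)
    (ip : IntervalIntegrable p volume a b)
    (iF : IntervalIntegrable (fun x => p x • F x) volume a b) (ε0 : 0 < ε) :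
    ∃ w : ℝ →₀ ℝ, (∀ x, w x ≠ 0 → x ∈ Set.Ioo a b ∧ 0 < σ * w x) ∧
      linearCombination ℝ (fun _ => (1 : ℝ)) w = ∫ x in a..b, p x ∧
      ‖linearCombination ℝ F w - ∫ x in a..b, p x • F x‖ < ε := by
  have m0 : 0 < σ * ∫ x in a..b, p x := by
    rw [← intervalIntegral.integral_const_mul]
    exact intervalIntegral.intervalIntegral_pos_of_pos_on (ip.const_mul σ) hp ab
  have σ0 := left_ne_zero_of_mul m0.ne'
  have m1 := right_ne_zero_of_mul m0.ne'
  have ba : b - a ≠ 0 := sub_ne_zero.2 ab.ne'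
  set L := linearCombination ℝ fun _ : ℝ => (1 : ℝ)
  have cv : Convex ℝ {w : ℝ →₀ ℝ | (∀ x, 0 ≤ σ * w x ∧ (x ∉ Set.Ioo a b → w x = 0)) ∧
      0 < σ * L w} := fun w hw v hv c d hc hd e => ⟨fun x => ⟨by
      simpa [mul_add, mul_left_comm σ] using
        add_nonneg (mul_nonneg hc (hw.1 x).1) (mul_nonneg hd (hv.1 x).1),
      fun h => by simp [(hw.1 x).2 h, (hv.1 x).2 h]⟩, by
      simpa [mul_add, mul_left_comm σ, smul_eq_mul] using! convex_Ioi 0 hw.2 hv.2 hc hd e⟩
  have i1 := (intervalIntegrable_iff_integrableOn_Ioo_of_le ab.le).1 ip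
  have i2 := (intervalIntegrable_iff_integrableOn_Ioo_of_le ab.le).1 iF
  have av := (cv.linear_image (L.prod (linearCombination ℝ F))).set_average_mem_closure
    (μ := volume) (t := Set.Ioo a b) (f := fun x => (p x, p x • F x)) (by simpa using ab) (by simp)
    ((ae_restrict_mem measurableSet_Ioo).mono fun x hx => ⟨single x (p x), ⟨fun y => by
      by_cases e : x = y
      · exact e ▸ ⟨by simpa using (hp x hx).le, fun h => (h hx).elim⟩
      · simp [e], by simpa [L] using hp x hx⟩, by simp [L]⟩) (i1.prodMk i2)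
  rw [setAverage_eq, integral_pair i1 i2, ← integral_Ioc_eq_integral_Ioo,
    ← integral_Ioc_eq_integral_Ioo, ← intervalIntegral.integral_of_le ab.le,
    ← intervalIntegral.integral_of_le ab.le, Real.volume_real_Ioo_of_le ab.le] at av
  generalize ∫ x in a..b, p x = m at *
  have c1 := ContinuousWithinAt.mem_closure (f := fun v : ℝ × E => (m / v.1) • v.2)
    (t := linearCombination ℝ F '' {w | (∀ x, 0 ≤ σ * w x ∧ (x ∉ Set.Ioo a b → w x = 0)) ∧ L w = m})
    (((continuousAt_const.div continuousAt_fst (by simp [ba, m1])).smul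
      continuousAt_snd).continuousWithinAt) av (by
    rintro _ ⟨w, ⟨h1, h2⟩, rfl⟩
    have l0 := right_ne_zero_of_mul h2.ne'
    have q : 0 < m / L w := by
      rw [← mul_div_mul_left _ _ σ0]
      exact div_pos m0 h2
    exact ⟨(m / L w) • w, ⟨fun x => ⟨by
      simpa [mul_left_comm σ] using mul_nonneg q.le (h1 x).1, fun h => by simp [(h1 x).2 h]⟩,
      by simp [l0]⟩, by simp⟩)
  obtain ⟨_, ⟨w, ⟨h1, h2⟩, rfl⟩, h3⟩ := Metric.mem_closure_iff.1 c1 ε ε0
  refine ⟨w, fun x h => ⟨by_contra fun e => h ((h1 x).2 e),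
    (h1 x).1.lt_of_ne' (mul_ne_zero σ0 h)⟩, h2, ?_⟩
  rw [dist_comm, dist_eq_norm] at h3
  simpa [smul_smul, div_eq_mul_inv, ba, m1, mul_assoc] using h3

lemma j8_all {α s : ℤ → ℝ} {u u' : ℝ → ℝ} (A : StrictMono α) (hu : ∀ x, HasDerivAt u (u' x) x)
    (cu : Continuous u') (sg : ∀ k x, α (k - 1) < x → x < α k → 0 < s k * u' x) (m : ℕ)
    (iF : IntervalIntegrable (fun x => u' x • F x) volume (α 0) (α m)) {ε : ℝ} (ε0 : 0 < ε) :
    ∃ w : ℝ →₀ ℝ, (∀ x, w x ≠ 0 → ∃ k ∈ Ioc (0 : ℤ) m, α (k - 1) < x ∧ x < α k ∧ 0 < s k * w x) ∧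
      (∀ k ∈ Icc (0 : ℤ) m, linearCombination ℝ (fun x => if x ≤ α k then (1 : ℝ) else 0) w =
        u (α k) - u (α 0)) ∧ ‖linearCombination ℝ F w - ∫ x in α 0..α m, u' x • F x‖ < ε := by
  induction m generalizing ε with
  | zero => exact ⟨0, by simp, by simp, by simpa⟩
  | succ m ih =>
    push_cast at iF ⊢
    have a0 : α 0 ≤ α m := A.monotone (by omega)
    have a1 : α m < α (m + 1) := A (by omega)
    have i1 := iF.mono_set (Set.uIcc_subset_uIcc Set.left_mem_uIcc
      (Set.mem_uIcc_of_le a0 a1.le))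
    have i2 := iF.mono_set (Set.uIcc_subset_uIcc (Set.mem_uIcc_of_le a0 a1.le) Set.right_mem_uIcc)
    obtain ⟨w, h1, h2, h3⟩ := ih i1 (half_pos ε0)
    obtain ⟨v, g1, g2, g3⟩ := j8_hull a1 (σ := s (m + 1))
      (fun x hx => sg _ x (by simpa using hx.1) hx.2) (cu.intervalIntegrable _ _) i2 (half_pos ε0)
    have e : ∀ {w : ℝ →₀ ℝ} {f g : ℝ → ℝ}, (∀ x, w x ≠ 0 → f x = g x) →
        linearCombination ℝ f w = linearCombination ℝ g w := fun h => by
      simp only [linearCombination_apply]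
      exact sum_congr fun x hx => by rw [h x (mem_support_iff.1 hx)]
    have h4 : ∀ x, w x ≠ 0 → x < α m := fun x h => by
      obtain ⟨k, hk, -, c, -⟩ := h1 x h
      exact c.trans_le (A.monotone (mem_Ioc.1 hk).2)
    refine ⟨w + v, fun x h => ?_, fun k hk => ?_, ?_⟩
    · by_cases c : v x = 0
      · rw [Finsupp.add_apply, c, add_zero] at h ⊢
        obtain ⟨k, hk, d⟩ := h1 x h
        exact ⟨k, Ioc_subset_Ioc_right (by omega) hk, d⟩
      · have d : w x = 0 := by_contra fun d => (h4 x d).not_gt (g1 x c).1.1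
        exact ⟨m + 1, by simp, by simpa using (g1 x c).1.1, (g1 x c).1.2, by simpa [d] using (g1 x c).2⟩
    · rw [map_add]
      rcases (mem_Icc.1 hk).2.eq_or_lt with rfl | c
      · rw [e (g := fun _ => 1) fun x h => if_pos (g1 x h).1.2.le, g2,
          intervalIntegral.integral_eq_sub_of_hasDerivAt (fun x _ => hu x) (cu.intervalIntegrable _ _),
          e (g := fun x => if x ≤ α m then 1 else 0) fun x h => by
            rw [if_pos (h4 x h).le, if_pos ((h4 x h).trans a1).le], h2 m (by simp)]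
        ring
      · rw [h2 k (mem_Icc.2 ⟨(mem_Icc.1 hk).1, by omega⟩), e (w := v) (g := fun _ => 0)
          (f := fun x => if x ≤ α k then 1 else 0) fun x h =>
          if_neg ((A.monotone (by omega : k ≤ m)).trans_lt (g1 x h).1.1).not_ge]
        simp [linearCombination_apply]
    · rw [map_add, ← intervalIntegral.integral_add_adjacent_intervals i1 i2, add_sub_add_comm]
      linarith [norm_add_le (linearCombination ℝ F w - ∫ x in α 0..α m, u' x • F x)
        (linearCombination ℝ F v - ∫ x in α m..α (m + 1), u' x • F x)]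

end

variable {N : ℕ} {t s c y : ℤ → ℝ} {rf : ℤ → Prop}

def J8Fin : Prop := ∀ {N : ℕ} {t s c y : ℤ → ℝ} {rf : ℤ → Prop} (_ : Pol N t)
    (_ : Pl N (Ex s) s c y rf) (_ : ∀ j, 0 < s j * Dl c j)
    (_ : ∀ j ∈ Ico (0:ℤ) N, rf j → ∃ τ, t j < τ ∧ τ < t (j + 1) ∧ s j * Sf N t c τ < 0),
    ‖Wk 2 N t c‖ ≤ 6 * ‖Wk 1 N t c‖

lemma j8_sh (T : Pol N t) (q j : ℤ) : t (j + N * q) = t j + 2 * π * q := by
  induction q using Int.induction_on with
  | zero => simp
  | succ q ih =>
    rw [mul_add, mul_one, ← add_assoc, T.tp, ih]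
    push_cast
    ring
  | pred q ih =>
    have := T.tp (j + N * (-q - 1))
    rw [show j + N * (-q - 1) + N = j + N * -q by ring, ih] at this
    push_cast at this ⊢
    linarith

lemma j8_ind (hN : 0 < N) {p : ℤ → Prop} (h : ∀ j, p (j + N) = p j)
    (w : ∀ j ∈ Ico (0 : ℤ) N, p j) (j : ℤ) : p j := by
  rw [per_dvd h (j := j % N) ⟨j / N, by rw [Int.emod_def]; ring⟩]
  exact w _ (mem_Ico.2 ⟨Int.emod_nonneg _ (by omega), Int.emod_lt_of_pos _ (by omega)⟩)

lemma j8_step (fin_bound : J8Fin) {M : ℕ} {α : ℤ → ℝ} {w : ℝ →₀ ℝ} (A : Pol M α)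
    (P : Pl M (Ex s) s c y rf) (ne : ∀ k, c k ≠ c (k - 1))
    (h1 : ∀ x, w x ≠ 0 → ∃ k ∈ Ioc (0 : ℤ) M, α (k - 1) < x ∧ x < α k ∧ 0 < s k * w x)
    (h2 : ∀ k ∈ Icc (0 : ℤ) M,
      linearCombination ℝ (fun x => if x ≤ α k then (1 : ℝ) else 0) w = c k - c 0)
    (h3 : ∀ k ∈ Ioc (0 : ℤ) M, rf k →
      s k * linearCombination ℝ (fun x => cot ((α k - x) / 2)) w < 0) :
    ‖linearCombination ℝ (fun x => ee x ^ 2) w‖ ≤ 6 * ‖linearCombination ℝ ee w‖ := by
  have M0 := A.N0
  have hZ : ∀ x ∈ w.support, α 0 < x ∧ x < α M := fun x hx => by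
    obtain ⟨k, hk, a, b, -⟩ := h1 x (mem_support_iff.1 hx)
    rw [mem_Ioc] at hk
    exact ⟨(A.tm.monotone (by omega)).trans_lt a, b.trans_le (A.tm.monotone hk.2)⟩
  obtain ⟨t, T, tZ, Zt⟩ := enum_per w.support (α 0) (support_nonempty_iff.2 fun e => by
    have := h2 1 (by simp; omega)
    rw [e, map_zero, eq_comm, sub_eq_zero] at this
    exact ne 1 (by simpa using this)) fun x hx =>
      ⟨(hZ x hx).1.le, by simpa [← A.tp 0] using (hZ x hx).2⟩
  generalize #w.support = N at *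
  have N0 := T.N0
  have hS : ∀ {E : Type} [AddCommMonoid E] [Module ℝ E] (f : ℝ → E),
      linearCombination ℝ f w = ∑ j ∈ Ico (0 : ℤ) N, w (t j) • f (t j) := fun f => by
    rw [linearCombination_apply, Finsupp.sum]
    exact (sum_nbij t tZ T.tm.injective.injOn (fun x hx => by simpa using Zt x hx)
      fun _ _ => rfl).symm
  have md : ∀ j ∈ Ico (0 : ℤ) N, j % N = j := fun j hj =>
    Int.emod_eq_of_lt (mem_Ico.1 hj).1 (mem_Ico.1 hj).2
  have ex : ∀ j, ∃ k, α (k - 1) < t j ∧ t j < α k ∧ 0 < s k * w (t (j % N)) := fun j => by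
    obtain ⟨k, -, a, b, d⟩ := h1 _ (mem_support_iff.1 (tZ (j % N)
      (mem_Ico.2 ⟨Int.emod_nonneg _ (by omega), Int.emod_lt_of_pos _ (by omega)⟩)))
    have := j8_sh T (j / N) (j % N)
    rw [Int.emod_add_mul_ediv] at this
    refine ⟨k + M * (j / N), ?_, ?_, by rwa [per_mul P.ps]⟩
    · rw [add_sub_right_comm, j8_sh A]
      linarith
    · rw [j8_sh A]
      linarith
  choose κ k1 k2 k3 using ex
  have hκ : ∀ j k, t j ≤ α k ↔ κ j ≤ k := fun j k => ⟨fun h => by
    have := A.tm.lt_iff_lt.1 ((k1 j).trans_le h)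
    omega, fun h => (k2 j).le.trans (A.tm.monotone h)⟩
  have mo : Monotone κ := fun i j h => (hκ i _).1 ((T.tm.monotone h).trans (k2 j).le)
  have pκ : ∀ q j, κ (j + N * q) = κ j + M * q := fun q j => eq_of_forall_ge_iff fun k => by
    rw [← hκ, ← le_sub_iff_add_le, ← hκ, j8_sh T, sub_eq_add_neg, ← mul_neg, j8_sh A]
    push_cast
    constructor <;> intro <;> linarith
  have p1 : ∀ j, κ (j + N) = κ j + M := fun j => by simpa using pκ 1 j
  have wκ : ∀ j ∈ Ico (0 : ℤ) N, κ j ∈ Ioc (0 : ℤ) M := fun j hj => mem_Ioc.2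
    ⟨not_le.1 fun h => (hZ _ (tZ j hj)).1.not_ge ((hκ j 0).2 h), (hκ j M).1 (hZ _ (tZ j hj)).2.le⟩
  obtain ⟨C, dC⟩ : ∃ C : ℤ → ℝ, ∀ j, C j = c 0 + ∑ i ∈ Ico (0 : ℤ) N, if i ≤ j then w (t i) else 0 :=
    ⟨_, fun _ => rfl⟩
  simp only [hS, hκ, smul_eq_mul, mul_ite, mul_one, mul_zero] at h2
  have hC : ∀ j, ∀ k ∈ Icc (0 : ℤ) M, (∀ i ∈ Ico (0 : ℤ) N, κ i ≤ k ↔ i ≤ j) → C j = c k :=
    fun j k hk h => by
      rw [dC, ← sum_congr rfl fun i hi => if_congr (h i hi) rfl rfl, h2 k hk, add_sub_cancel]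
  have su : ∀ k, ∃ j, κ j = k := fun k => by
    obtain ⟨q, a, b⟩ := ex_win M0 k 1
    by_contra! h
    apply ne (k + M * q)
    rw [← sub_left_inj (a := c 0), ← h2 _ (by simp; omega), ← h2 _ (by simp; omega)]
    refine sum_congr rfl fun i _ => if_congr ?_ rfl rfl
    have := h (i + N * -q)
    rw [pκ, mul_neg] at this
    omega
  have st : ∀ j, κ (j + 1) ≤ κ j + 1 := fun j => by
    obtain ⟨i, h⟩ := su (κ j + 1)
    exact h ▸ mo (Int.add_one_le_of_lt (not_le.1 fun e : i ≤ j => by have := mo e; omega))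
  have nx : ∀ j, Ex (fun j => s (κ j)) j → κ (j + 1) = κ j + 1 := fun j h => by
    have := st j
    have := mo (le_add_of_nonneg_right zero_le_one : j ≤ j + 1)
    have : κ j ≠ κ (j + 1) := fun e => h (congrArg s e)
    omega
  have pE : ∀ j, Ex (fun j => s (κ j)) (j + N) = Ex (fun j => s (κ j)) j := fun j => by
    simp only [Ex, add_right_comm j N 1, p1, P.ps]
  have hD : ∀ j, Dl (fun j => C (j % N)) j = w (t (j % N)) := j8_ind N0
    (fun j => by simp only [Dl, add_sub_right_comm j N 1, Int.add_emod_right]) fun j hj => by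
      have e : C ((j - 1) % N) = C (j - 1) := by
        rcases (mem_Ico.1 hj).1.eq_or_lt with rfl | a
        · rw [← Int.add_emod_right, md _ (by simp; omega), hC _ M (by simp), hC _ 0 (by simp),
            ← P.pc 0, zero_add]
          all_goals
            intro i hi
            have := mem_Ioc.1 (wκ i hi)
            have := mem_Ico.1 hi
            omega
        · rw [md _ (by simp at hj ⊢; omega)]
      rw [Dl, e, md j hj, dC, dC, add_sub_add_left_eq_sub, ← sum_sub_distrib,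
        sum_eq_single_of_mem j hj fun i _ h => by
          rw [if_congr (by omega : i ≤ j ↔ i ≤ j - 1) rfl rfl, sub_self]]
      simp
  have fb := fin_bound T (P.tr κ N0 pE (s' := fun j => s (κ j)) (c' := fun j => C (j % N))
    (fun j => by rw [p1, P.ps]) (fun j => by rw [Int.add_emod_right]) (fun j => P.sgn _) p1
    (fun a b h _ e => by have := nx a h; have := mo (by omega : a + 1 ≤ b); omega)
    (fun j h => by rwa [Ex, ← nx j h]) (fun k h => by
      obtain ⟨j, a, b⟩ := Int.exists_greatest_of_bdd (P := fun j => κ j ≤ k) (by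
        obtain ⟨i, e⟩ := su (k + 1)
        exact ⟨i, fun j hj => (not_le.1 fun d => by have := mo d; omega).le⟩)
        ((su k).imp fun _ e => e.le)
      obtain ⟨i, e⟩ := su k
      have := mo (b i e.le)
      have := mt (b (j + 1)) (by omega)
      have := st j
      refine ⟨j, ?_, by omega⟩
      rwa [Ex, show κ j = k by omega, show κ (j + 1) = k + 1 by omega])
    (fun _ _ => rfl) (j8_ind N0 (fun j => by simp only [pE, p1, P.pc, Int.add_emod_right])
      fun j hj h => by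
        rw [md j hj]
        refine hC _ _ (Ioc_subset_Icc_self (wκ j hj)) fun i _ => ⟨fun a => not_lt.1 fun b => ?_, (mo ·)⟩
        have := nx j h
        have := mo (by omega : j + 1 ≤ i)
        omega) fun _ => Iff.rfl)
    (fun j => by rw [hD]; exact k3 j) fun j hj h => ⟨α (κ j), k2 j, by
      simpa [nx j h.1] using k1 (j + 1), by
      have := h3 _ (wκ j hj) h.2
      rwa [hS, sum_congr rfl (g := fun i => Dl (fun j => C (j % N)) i * cot ((α (κ j) - t i) / 2))
        fun i hi => by rw [hD, md i hi, smul_eq_mul]] at this⟩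
  have hW : ∀ n, Wk n N t (fun j => C (j % N)) = linearCombination ℝ (fun x => ee x ^ n) w :=
    fun n => by
      rw [hS]
      exact sum_congr rfl fun i hi => by rw [hD, md i hi, Complex.real_smul]
  simpa only [hW, pow_one] using fb

theorem approx_of (fin_bound : J8Fin) {M : ℕ} {α : ℤ → ℝ} {u u' : ℝ → ℝ} (A : Pol M α)
    (hu : ∀ x, HasDerivAt u (u' x) x)
    (cu : Continuous u') (sg : ∀ k x, α (k - 1) < x → x < α k → 0 < s k * u' x)
    (P : Pl M (Ex s) s (fun k => u (α k)) y rf)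
    (hr : ∀ k, rf k → IntervalIntegrable (fun x => u' x * cot ((α k - x) / 2)) volume
        (α 0) (α 0 + 2 * π) ∧ s k * ∫ x in α 0..α 0 + 2 * π, u' x * cot ((α k - x) / 2) < 0) :
    ‖∫ x in α 0..α 0 + 2 * π, (u' x : ℂ) * ee x ^ 2‖ ≤
      6 * ‖∫ x in α 0..α 0 + 2 * π, (u' x : ℂ) * ee x‖ := by
  classical
  rw [← A.tp 0, zero_add] at hr ⊢
  refine le_of_forall_pos_le_add fun ε ε0 => ?_
  let R := {k ∈ Ioc (0 : ℤ) M | rf k}
  obtain ⟨δ, δ0, hδ⟩ := Pi.exists_forall_pos_add_lt (y := 0)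
    fun k : R => (hr k (mem_filter.1 k.2).2).2
  have ce : Continuous ee := by
    unfold ee
    fun_prop
  let F : ℝ → ℂ × ℂ × (R → ℝ) := fun x => (ee x ^ 2, ee x, fun k => cot ((α k - x) / 2))
  have iF : IntervalIntegrable (fun x => u' x • F x) volume (α 0) (α M) := by
    have := fun (f : ℝ → ℂ) (h : Continuous f) => intervalIntegrable_iff.1
      (h.intervalIntegrable (μ := volume) (α 0) (α M))
    exact intervalIntegrable_iff.2 ((this _ (cu.smul (ce.pow 2))).prodMk ((this _ (cu.smul ce)).prodMk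
      (Integrable.of_eval fun k : R => intervalIntegrable_iff.1 (hr k (mem_filter.1 k.2).2).1)))
  obtain ⟨w, h1, h2, h3⟩ := j8_all A.tm hu cu sg M iF (lt_min δ0 (by positivity : 0 < ε / 7))
  have hφ : ∀ {G : Type} [NormedAddCommGroup G] [NormedSpace ℝ G] [CompleteSpace G]
      (φ : (ℂ × ℂ × (R → ℝ)) →L[ℝ] G), (∀ v, ‖φ v‖ ≤ ‖v‖) →
      ‖linearCombination ℝ (fun x => φ (F x)) w - ∫ x in α 0..α M, u' x • φ (F x)‖ <
        min δ (ε / 7) := fun φ h => by
    refine ((h _).trans_lt h3).trans_eq' ?_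
    rw [map_sub, ← φ.intervalIntegral_comp_comm iF]
    simp only [linearCombination_apply, Finsupp.sum, map_sum, map_smul]
  have b2 := (hφ (.fst _ _ _) norm_fst_le).trans_le (min_le_right _ _)
  have b1 := (hφ (.comp (.fst _ _ _) (.snd _ _ _)) fun v =>
    (norm_fst_le _).trans (norm_snd_le v)).trans_le (min_le_right _ _)
  have fb := j8_step fin_bound A P (fun k e => by
    obtain ⟨x, hx, h⟩ := exists_hasDerivAt_eq_zero (A.tm (by omega : k - 1 < k))
      (fun x _ => (hu x).continuousAt.continuousWithinAt) e.symm fun x _ => hu x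
    simpa [h] using sg k x hx.1 hx.2) h1 h2 fun k hk h => by
    have b := (hφ (.comp (.proj (⟨k, mem_filter.2 ⟨hk, h⟩⟩ : R)) (.comp (.snd _ _ _) (.snd _ _ _)))
      fun v => (norm_le_pi_norm _ _).trans ((norm_snd_le _).trans (norm_snd_le v))).trans_le
      (min_le_left _ _)
    have d := hδ ⟨k, mem_filter.2 ⟨hk, h⟩⟩
    replace b : |linearCombination ℝ (fun x => cot ((α k - x) / 2)) w -
      ∫ x in α 0..α M, u' x * cot ((α k - x) / 2)| < δ := b
    rw [abs_lt] at b
    rcases P.sgn k with e | e <;> simp only [e, Pi.zero_apply] at d ⊢ <;> linarith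
  replace b2 : ‖linearCombination ℝ (fun x => ee x ^ 2) w -
    ∫ x in α 0..α M, (u' x : ℂ) * ee x ^ 2‖ < ε / 7 := b2
  replace b1 : ‖linearCombination ℝ ee w - ∫ x in α 0..α M, (u' x : ℂ) * ee x‖ < ε / 7 := b1
  linarith [norm_sub_norm_le (linearCombination ℝ ee w) (∫ x in α 0..α M, (u' x : ℂ) * ee x),
    (abs_le.1 ((abs_norm_sub_norm_le _ _).trans b2.le)).1]

end Pool.Agent.Lib.MP_9dc04a_an
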