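import Pool.Agent.Lib.MP_9dc04a_an.O3Mean
import Pool.Agent.Lib.MP_9dc04a_an.Local

set_option autoImplicit false

namespace Pool.Agent.Lib.MP_9dc04a_an

open Complex Metric Filter Topology
open scoped Real ComplexConjugate

def J9Ord : Prop := ∀ {h g : ℂ → ℂ} (_ : DifferentiableOn ℂ h (Metric.ball 0 1))
    (_ : DifferentiableOn ℂ g (Metric.ball 0 1))
    (_ : Set.InjOn (fun z => h z + (starRingEnd ℂ) (g z)) (Metric.ball 0 1))
    (_ : ∀ z ∈ Metric.ball (0:ℂ) 1, ‖deriv g z‖ < ‖deriv h z‖) (lam : ℂ) (_ : ‖lam‖ ≤ 1),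
    ‖iteratedDeriv 2 h 0 + lam * iteratedDeriv 2 g 0‖ ≤ 6 * ‖deriv h 0 + lam * deriv g 0‖

structure QCls (h g : ℂ → ℂ) : Prop where
  dh : DifferentiableOn ℂ h (ball 0 1)
  dg : DifferentiableOn ℂ g (ball 0 1)
  inj : Set.InjOn (fun z => h z + conj (g z)) (ball 0 1)
  jac : ∀ z ∈ ball (0:ℂ) 1, ‖deriv g z‖ < ‖deriv h z‖

lemma qc_der {F φ : ℂ → ℂ} (dF : DifferentiableOn ℂ F (ball 0 1))
    (dφ : DifferentiableOn ℂ φ (ball 0 1)) (m : Set.MapsTo φ (ball 0 1) (ball 0 1)) {z : ℂ}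
    (hz : z ∈ ball (0:ℂ) 1) : deriv (fun w => F (φ w)) z = deriv F (φ z) * deriv φ z :=
  ((dF.differentiableAt (isOpen_ball.mem_nhds (m hz))).hasDerivAt.comp z
    (dφ.differentiableAt (isOpen_ball.mem_nhds hz)).hasDerivAt).deriv

lemma qc_der2 {F φ : ℂ → ℂ} (dF : DifferentiableOn ℂ F (ball 0 1))
    (dφ : DifferentiableOn ℂ φ (ball 0 1)) (m : Set.MapsTo φ (ball 0 1) (ball 0 1)) {z : ℂ}
    (hz : z ∈ ball (0:ℂ) 1) : deriv (deriv fun w => F (φ w)) z =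
      deriv (deriv F) (φ z) * deriv φ z * deriv φ z + deriv F (φ z) * deriv (deriv φ) z := by
  have n := isOpen_ball.mem_nhds hz
  have e : deriv (fun w => F (φ w)) =ᶠ[𝓝 z] fun w => deriv F (φ w) * deriv φ w := by
    filter_upwards [n] with w hw using qc_der dF dφ m hw
  rw [e.deriv_eq]
  exact ((((dF.deriv isOpen_ball).differentiableAt (isOpen_ball.mem_nhds (m hz))).hasDerivAt.comp z
    (dφ.differentiableAt n).hasDerivAt).fun_mul
      ((dφ.deriv isOpen_ball).differentiableAt n).hasDerivAt).deriv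

lemma QCls.comp {h g φ : ℂ → ℂ} (c : QCls h g) (dφ : DifferentiableOn ℂ φ (ball 0 1))
    (m : Set.MapsTo φ (ball 0 1) (ball 0 1)) (i : Set.InjOn φ (ball 0 1))
    (n : ∀ z ∈ ball (0:ℂ) 1, deriv φ z ≠ 0) : QCls (fun w => h (φ w)) (fun w => g (φ w)) := by
  refine ⟨c.dh.comp dφ m, c.dg.comp dφ m, fun z hz w hw e => i hz hw (c.inj (m hz) (m hw) e),
    fun z hz => ?_⟩
  rw [qc_der c.dh dφ m hz, qc_der c.dg dφ m hz, norm_mul, norm_mul]
  exact mul_lt_mul_of_pos_right (c.jac _ (m hz)) (norm_pos_iff.2 (n z hz))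

theorem qc_inv (O : J9Ord) {h g : ℂ → ℂ} (c : QCls h g) {l : ℂ} (hl : ‖l‖ ≤ 1) {a : ℂ}
    (ha : ‖a‖ < 1) :
    ‖((1 - ‖a‖ ^ 2 : ℝ) : ℂ) * (deriv (deriv h) a + l * deriv (deriv g) a) -
      2 * conj a * (deriv h a + l * deriv g a)‖ ≤ 6 * ‖deriv h a + l * deriv g a‖ := by
  have k1 := one_sub_sq_pos ha
  have k0 : ((1 - ‖a‖ ^ 2 : ℝ) : ℂ) ≠ 0 := by exact_mod_cast k1.ne'
  have z0 : (0:ℂ) ∈ ball (0:ℂ) 1 := mem_ball_self one_pos
  have d1 : ∀ w ∈ ball (0:ℂ) 1, HasDerivAt (mob a)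
      (((1 - ‖a‖ ^ 2 : ℝ) : ℂ) / (1 + conj a * w) ^ 2) w := fun w hw =>
    mob_deriv ha (mem_ball_zero_iff.1 hw)
  have d2 : deriv (deriv (mob a)) 0 = -2 * ((1 - ‖a‖ ^ 2 : ℝ) : ℂ) * conj a := by
    have e : deriv (mob a) =ᶠ[𝓝 0] fun w => ((1 - ‖a‖ ^ 2 : ℝ) : ℂ) / (1 + conj a * w) ^ 2 := by
      filter_upwards [isOpen_ball.mem_nhds z0] with v hv using (d1 v hv).deriv
    rw [e.deriv_eq]
    have b : HasDerivAt (fun w => 1 + conj a * w) (conj a * 1) 0 :=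
      ((hasDerivAt_id' (0:ℂ)).const_mul (conj a)).const_add 1
    rw [((hasDerivAt_const (0:ℂ) ((1 - ‖a‖ ^ 2 : ℝ) : ℂ)).fun_div (b.fun_pow 2) (by simp)).deriv]
    simp only [mul_zero, add_zero, one_pow]
    push_cast
    ring
  have dm : DifferentiableOn ℂ (mob a) (ball 0 1) := fun w hw =>
    (d1 w hw).differentiableAt.differentiableWithinAt
  have mm : Set.MapsTo (mob a) (ball 0 1) (ball 0 1) := fun w hw =>
    mem_ball_zero_iff.2 (mob_lt ha (mem_ball_zero_iff.1 hw))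
  have c' := c.comp dm mm
    (fun z hz w hw e => by
      have D1 := mob_den ha (mem_ball_zero_iff.1 hz)
      have D2 := mob_den ha (mem_ball_zero_iff.1 hw)
      simp only [mob] at e
      rw [div_eq_div_iff D1 D2] at e
      have aa : ((1 - ‖a‖ ^ 2 : ℝ) : ℂ) = 1 - a * conj a := by
        rw [mul_conj, normSq_eq_norm_sq]; push_cast; ring
      apply mul_left_cancel₀ k0
      rw [aa]
      linear_combination e)
    (fun w hw => by
      rw [(d1 w hw).deriv]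
      exact div_ne_zero k0 (pow_ne_zero 2 (mob_den ha (mem_ball_zero_iff.1 hw))))
  have := O c'.dh c'.dg c'.inj c'.jac l hl
  have i2 : ∀ k : ℂ → ℂ, iteratedDeriv 2 k 0 = deriv (deriv k) 0 := fun k => by
    rw [iteratedDeriv_succ, iteratedDeriv_one]
  have m0 : mob a 0 = a := by simp [mob]
  rw [i2, i2, qc_der2 c.dh dm mm z0, qc_der2 c.dg dm mm z0, qc_der c.dh dm mm z0,
    qc_der c.dg dm mm z0, d2, (d1 0 z0).deriv, m0] at this
  simp only [mul_zero, add_zero, one_pow, div_one] at this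
  generalize hk : ((1 - ‖a‖ ^ 2 : ℝ) : ℂ) = k at this k0 ⊢
  rw [show deriv (deriv h) a * k * k + deriv h a * (-2 * k * conj a) +
      l * (deriv (deriv g) a * k * k + deriv g a * (-2 * k * conj a)) =
      k * (k * (deriv (deriv h) a + l * deriv (deriv g) a) -
        2 * conj a * (deriv h a + l * deriv g a)) by ring,
    show deriv h a * k + l * (deriv g a * k) = k * (deriv h a + l * deriv g a) by ring,
    norm_mul, norm_mul] at this
  exact le_of_mul_le_mul_left (by linarith) (norm_pos_iff.2 k0)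

lemma qc_lam (a b : ℂ) : ∃ l : ℂ, ‖l‖ ≤ 1 ∧ ‖a‖ + ‖b‖ = ‖a + l * b‖ := by
  rcases eq_or_ne b 0 with rfl | hb
  · exact ⟨0, by simp, by simp⟩
  rcases eq_or_ne a 0 with rfl | ha
  · exact ⟨1, by simp, by simp⟩
  have a0 := norm_pos_iff.2 ha
  have b0 := norm_pos_iff.2 hb
  have a1 : (‖a‖ : ℂ) ≠ 0 := by exact_mod_cast a0.ne'
  refine ⟨a * ‖b‖ / (‖a‖ * b), by simp [a0.ne', b0.ne', mul_comm], ?_⟩
  rw [show a + a * ‖b‖ / (‖a‖ * b) * b = a * ((‖a‖ + ‖b‖ : ℝ) / ‖a‖) by push_cast; field_simp,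
    norm_mul, norm_div, Complex.norm_real, Complex.norm_real, norm_norm,
    Real.norm_of_nonneg (by positivity)]
  field_simp

lemma qc_nat : ∀ m < 170, 3 ≤ m →
    3 ^ 8 * (4 * m + 7) ^ 15 * (m + 7) ^ (4 * m + 12) ≤ 2 ^ 8 * 7 ^ 27 * (m + 1) ^ 27 * m ^ (4 * m) := by
  decide +kernel

lemma qc_num (m : ℕ) (hm : 2 ≤ m) : ∃ x : ℝ, 0 < x ∧ x < 1 ∧
    (1 + 3 * x) ^ 15 ≤ (2 / 3) ^ 8 * ((m:ℝ) + 1) ^ 27 * x ^ (4 * m) * (1 - x) ^ 27 := by
  rcases eq_or_lt_of_le hm with rfl | h3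
  · exact ⟨1 / 5, by norm_num, by norm_num, by norm_num⟩
  have m0 : (0:ℝ) < m := by exact_mod_cast (by omega : 0 < m)
  refine ⟨m / (m + 7), by positivity, by rw [div_lt_one (by positivity)]; linarith, ?_⟩
  have key : (3:ℝ) ^ 8 * (4 * m + 7) ^ 15 * (m + 7) ^ (4 * m + 12) ≤
      2 ^ 8 * 7 ^ 27 * (m + 1) ^ 27 * m ^ (4 * m) := by
    rcases lt_or_ge m 170 with h | h
    · exact_mod_cast qc_nat m h h3
    · have h' : (170:ℝ) ≤ m := by exact_mod_cast h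
      have a1 : ((m:ℝ) + 7) ^ (4 * m) ≤ 2.7182818286 ^ 28 * m ^ (4 * m) := by
        have b1 : (m:ℝ) + 7 ≤ Real.exp (7 / m) * m := by
          have := mul_le_mul_of_nonneg_right (Real.add_one_le_exp (7 / (m:ℝ))) m0.le
          rwa [add_mul, div_mul_cancel₀ _ m0.ne', one_mul, add_comm] at this
        refine (pow_le_pow_left₀ (by positivity) b1 _).trans ?_
        rw [mul_pow, ← Real.exp_nat_mul, show ((4 * m : ℕ) : ℝ) * (7 / m) = (28:ℕ) * 1 by
          push_cast; field_simp; norm_num, Real.exp_nat_mul]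
        exact mul_le_mul_of_nonneg_right
          (pow_le_pow_left₀ (Real.exp_pos 1).le Real.exp_one_lt_d9.le _) (by positivity)
      have a2 : (4 * (m:ℝ) + 7) ^ 15 ≤ (4.02 * (m + 1)) ^ 15 :=
        pow_le_pow_left₀ (by positivity) (by linarith) _
      have a3 : ((m:ℝ) + 7) ^ 12 ≤ (1.036 * (m + 1)) ^ 12 :=
        pow_le_pow_left₀ (by positivity) (by linarith) _
      have e : ((m:ℝ) + 1) ^ 27 = (m + 1) ^ 15 * (m + 1) ^ 12 := by rw [← pow_add]
      rw [mul_pow] at a2 a3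
      rw [pow_add, e]
      have q := mul_le_mul a2 (mul_le_mul a1 a3 (by positivity) (by positivity)) (by positivity)
        (by positivity)
      have q0 : 0 ≤ ((m:ℝ) + 1) ^ 15 * (m + 1) ^ 12 * m ^ (4 * m) := by positivity
      generalize ((m:ℝ) + 7) ^ (4 * m) = A at *
      generalize ((m:ℝ) + 7) ^ 12 = B at *
      generalize (4 * (m:ℝ) + 7) ^ 15 = D at *
      generalize ((m:ℝ) + 1) ^ 15 = E at *
      generalize ((m:ℝ) + 1) ^ 12 = E' at *
      generalize (m:ℝ) ^ (4 * m) = F at *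
      have q1 := mul_le_mul_of_nonneg_right (show (3:ℝ) ^ 8 * 4.02 ^ 15 * 1.036 ^ 12 *
        2.7182818286 ^ 28 ≤ 2 ^ 8 * 7 ^ 27 by norm_num) q0
      linear_combination 3 ^ 8 * q + q1
  have p : (0:ℝ) < m + 7 := by positivity
  rw [show 1 + 3 * ((m:ℝ) / (m + 7)) = (4 * m + 7) / (m + 7) by field_simp; ring,
    show 1 - (m:ℝ) / (m + 7) = 7 / (m + 7) by field_simp; ring, div_pow, div_pow, div_pow, div_pow,
    div_le_iff₀ (by positivity)]
  rw [pow_add] at key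
  have e : ((m:ℝ) + 7) ^ 27 = (m + 7) ^ 15 * (m + 7) ^ 12 := by rw [← pow_add]
  rw [e]
  have p1 := pow_pos p (4 * m)
  have p2 := pow_pos p 12
  have p3 := pow_pos p 15
  generalize ((m:ℝ) + 7) ^ (4 * m) = A at *
  generalize ((m:ℝ) + 7) ^ 12 = B at *
  generalize ((m:ℝ) + 7) ^ 15 = C at *
  generalize (4 * (m:ℝ) + 7) ^ 15 = D at *
  generalize ((m:ℝ) + 1) ^ 27 = E at *
  generalize (m:ℝ) ^ (4 * m) = F at *
  rw [show (2:ℝ) ^ 8 / 3 ^ 8 * E * (F / A) * (7 ^ 27 / (C * B)) * C =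
    2 ^ 8 * 7 ^ 27 * E * F / (3 ^ 8 * (A * B)) by field_simp, le_div_iff₀ (by positivity)]
  linear_combination key

theorem qc_two (O : J9Ord) {h g : ℂ → ℂ} (c : QCls h g) (h1 : deriv h 0 = 1) (g0 : deriv g 0 = 0) :
    ‖co 2 h‖ + ‖co 2 g‖ ≤ 3 := by
  obtain ⟨l, l1, e⟩ := qc_lam (co 2 h) (co 2 g)
  have := O c.dh c.dg c.inj c.jac l l1
  rw [h1, g0, mul_zero, add_zero, norm_one] at this
  rw [e, show co 2 h + l * co 2 g = (iteratedDeriv 2 h 0 + l * iteratedDeriv 2 g 0) / 2 by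
    simp only [co, Nat.factorial_two]; push_cast; ring, norm_div, Complex.norm_ofNat]
  linarith

theorem qc_all (O : J9Ord) {h g : ℂ → ℂ} (c : QCls h g) (h1 : deriv h 0 = 1) (g0 : deriv g 0 = 0)
    (n : ℕ) (hn : 2 ≤ n) : ‖co n h‖ + ‖co n g‖ ≤ 2 / 3 * (n:ℝ) ^ (19 / 8 : ℝ) := by
  refine le_of_pow_le_pow_left₀ (n := 8) (by norm_num) (by positivity) ?_
  rw [mul_pow, ← Real.rpow_natCast ((n:ℝ) ^ _), ← Real.rpow_mul (by positivity),
    show (19 / 8 : ℝ) * (8:ℕ) = (19:ℕ) by norm_num, Real.rpow_natCast]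
  rcases eq_or_lt_of_le hn with rfl | h3
  · exact (pow_le_pow_left₀ (by positivity) (qc_two O c h1 g0) 8).trans (by norm_num)
  obtain ⟨m, rfl⟩ : ∃ m, n = m + 1 := ⟨n - 1, by omega⟩
  obtain ⟨x, x0, x1, hx⟩ := qc_num m (by omega)
  obtain ⟨l, l1, e⟩ := qc_lam (co (m + 1) h) (co (m + 1) g)
  have dh := c.dh.deriv isOpen_ball
  have dg := c.dg.deriv isOpen_ball
  have z0 : (0:ℂ) ∈ ball (0:ℂ) 1 := mem_ball_self one_pos
  have M := qm_coef (G := fun z => deriv h z + l * deriv g z) (dh.add (dg.const_mul l))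
    (by simp [h1, g0]) (fun z hz hc => by
      have j := c.jac z hz
      rw [eq_neg_of_add_eq_zero_left hc, norm_neg, norm_mul] at j
      exact absurd (mul_le_of_le_one_left (norm_nonneg _) l1) (not_le.2 j)) (fun z hz => by
      rw [((dh.differentiableAt (isOpen_ball.mem_nhds hz)).hasDerivAt.fun_add
        ((dg.differentiableAt (isOpen_ball.mem_nhds hz)).hasDerivAt.const_mul l)).deriv]
      exact qc_inv O c l1 (mem_ball_zero_iff.1 hz)) (Real.sqrt_pos.2 x0)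
      ((Real.sqrt_lt' one_pos).2 (by simpa using x1)) m
  have cc : co m (fun z => deriv h z + l * deriv g z) =
      (m + 1) * (co (m + 1) h + l * co (m + 1) g) := by
    have an := isOpen_ball.mem_nhds z0
    have : co m (fun z => l * deriv g z) = l * co m (deriv g) := by
      rw [co, co, iteratedDeriv_const_mul_field, mul_div_assoc]
    rw [co_add (dh.analyticAt an) ((dg.const_mul l).analyticAt an), this, co_deriv, co_deriv]
    ring
  have nn : ‖((m:ℂ) + 1)‖ = (m:ℝ) + 1 := by exact_mod_cast Complex.norm_natCast (m + 1)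
  rw [cc, norm_mul, ← e, nn, Real.sq_sqrt x0.le, mul_pow, mul_pow, ← pow_mul,
    show m * 8 = 2 * (4 * m) by ring, pow_mul, Real.sq_sqrt x0.le] at M
  have := M.trans hx
  push_cast
  rw [show ((m:ℝ) + 1) ^ 27 = (m + 1) ^ 8 * (m + 1) ^ 19 by rw [← pow_add]] at this
  have p : 0 < ((m:ℝ) + 1) ^ 8 * x ^ (4 * m) * (1 - x) ^ 27 := by
    have : 0 < 1 - x := by linarith
    positivity
  refine le_of_mul_le_mul_left ?_ p
  generalize ((m:ℝ) + 1) ^ 8 = A at this ⊢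
  generalize ((m:ℝ) + 1) ^ 19 = B at this ⊢
  generalize (1 - x) ^ 27 = C at this ⊢
  generalize (‖co (m + 1) h‖ + ‖co (m + 1) g‖) ^ 8 = D at this ⊢
  linear_combination this

end Pool.Agent.Lib.MP_9dc04a_an
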