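import Pool.Agent.Lib.MP_9dc04a_an.Comb

set_option autoImplicit false

namespace Pool.Agent.Lib.MP_9dc04a_an

open Finset Real

/-- `e^{-ix}` -/
noncomputable def ee (x : ℝ) : ℂ := Complex.exp (-(x * Complex.I))

/-- jump of the step function at pole `j`; `c j` is its value on arc `j = (t j, t (j+1))` -/
def Dl (c : ℤ → ℝ) (j : ℤ) : ℝ := c j - c (j - 1)

/-- arc `j` is an extreme arc (`s j` is the sign of the jump at pole `j`) -/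
def Ex (s : ℤ → ℝ) (j : ℤ) : Prop := s j ≠ s (j + 1)

noncomputable def Wk (n N : ℕ) (t c : ℤ → ℝ) : ℂ :=
  ∑ j ∈ Ico (0:ℤ) N, (Dl c j : ℂ) * ee (t j) ^ n

noncomputable def Wf (N : ℕ) (t c : ℤ → ℝ) (z : ℂ) : ℂ :=
  ∑ j ∈ Ico (0:ℤ) N, (Dl c j : ℂ) * ee (t j) / (1 - z * ee (t j))

noncomputable def Sf (N : ℕ) (t c : ℤ → ℝ) (τ : ℝ) : ℝ :=
  ∑ j ∈ Ico (0:ℤ) N, Dl c j * cot ((τ - t j) / 2)

structure Pol (N : ℕ) (t : ℤ → ℝ) : Prop where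
  N0 : 0 < N
  tm : StrictMono t
  tp : ∀ j, t (j + N) = t j + 2 * π

/-- planarity data: `y a` is the height of the monotone chain that starts at the extreme `a` -/
structure Pl (N : ℕ) (E : ℤ → Prop) (s c y : ℤ → ℝ) (rf : ℤ → Prop) : Prop extends Bas N E s where
  pc : ∀ j, c (j + N) = c j
  py : ∀ j, y (j + N) = y j
  prf : ∀ j, rf (j + N) = rf j
  rE : ∀ j, rf j → E j
  ex : ∃ j, E j
  mono : ∀ a b, Con E a b → s a * c b < s a * c a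
  lab : ∀ a b, Con E a b → (rf b → s b * y b < s b * y a) ∧ (¬rf b → s b * y a < s b * y b)
  cov : ∀ a b l l', Con E a b → Con E l l' → ¬(N:ℤ) ∣ l - a → ¬(N:ℤ) ∣ l - b →
    (s b * c l < s b * c b ∧ s b * c b ≤ s b * c l') ∨
      (s b * c l' < s b * c b ∧ s b * c b ≤ s b * c l) →
    (y l < y a ∧ y l < y b) ∨ (y a < y l ∧ y b < y l)

open Classical in
/-- number of roots in arc `j` -/
noncomputable def rtc (s : ℤ → ℝ) (rf : ℤ → Prop) (j : ℤ) : ℕ :=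
  if rf j then 2 else if Ex s j then 0 else 1

/-- root labels `i ∈ I`, root `i` lives in arc `ar i` -/
def Lab (N : ℕ) (s : ℤ → ℝ) (rf : ℤ → Prop) (I : Finset ℕ) (ar : ℕ → ℤ) : Prop :=
  ∀ j, #{i ∈ I | (N:ℤ) ∣ ar i - j} = rtc s rf j

/-- located factorisation -/
structure Fac (N : ℕ) (t c : ℤ → ℝ) (I : Finset ℕ) (ar : ℕ → ℤ) (ρ : ℕ → ℝ) : Prop where
  lo : ∀ i ∈ I, t (ar i) ≤ ρ i ∧ ρ i ≤ t (ar i + 1)
  fa : ∀ z : ℂ, ‖z‖ < 1 → Wf N t c z * ∏ j ∈ Ico (0:ℤ) N, (1 - z * ee (t j)) =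
    Wk 1 N t c * ∏ i ∈ I, (1 - z * ee (ρ i))

structure Feas (N : ℕ) (t s : ℤ → ℝ) (rf : ℤ → Prop) (blk : ℤ → ℕ) (I : Finset ℕ) (ar : ℕ → ℤ)
    (c : ℤ → ℝ) (ρ : ℕ → ℝ) : Prop where
  pol : Pol N t
  str : Str N (Ex s) s rf blk c
  pc : ∀ j, c (j + N) = c j
  sg : ∀ j, 0 ≤ s j * Dl c j
  lab : Lab N s rf I ar
  cI : #I + 2 = N
  fac : Fac N t c I ar ρ

/-- the multiplier function -/
noncomputable def Hf (a b : ℂ) (R : Finset ℤ) (k τ : ℤ → ℝ) (x : ℝ) : ℝ :=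
  (a * ee x ^ 2 + b * ee x).re + ∑ r ∈ R, k r * cot ((τ r - x) / 2)

open Classical in
/-- stationarity of the values `h j` at the poles -/
structure Stat (N : ℕ) (s : ℤ → ℝ) (blk : ℤ → ℕ) (h : ℤ → ℝ) : Prop where
  ph : ∀ j, h (j + N) = h j
  fr : ∀ j, ¬Ex s j ∨ blk j = 0 → h j = h (j + 1)
  bl : ∀ β, β ≠ 0 → ∑ j ∈ Ico (0:ℤ) N with Ex s j ∧ blk j = β, (h j - h (j + 1)) = 0

end Pool.Agent.Lib.MP_9dc04a_an
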