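import Pool.Agent.Lib.MP_9dc04a_an.O3Pl
import Pool.Agent.Lib.MP_9dc04a_an.O3Fac

set_option autoImplicit false

namespace Pool.Agent.Lib.MP_9dc04a_an

open Finset Real

variable {N n : ℕ} {E rf : ℤ → Prop} {t s c : ℤ → ℝ} {blk : ℤ → ℕ} {X P Q Y : ℤ} {I : Finset ℕ}
  {ar : ℕ → ℤ} {ρ : ℕ → ℝ}

theorem Str.merge' (S : Str N E s rf blk c) (h1 : Con E X P) (h2 : Con E P Q) (h3 : Con E Q Y)
    (rP : rf P) (rQ : ¬rf Q) (ne : blk Y ≠ blk P) (hc : s Y * c P ≤ s Y * c Y) :
    ∃ blk', Str N (Del N E P Q) s (fun j => rf j ∧ Del N E P Q j) blk' c := by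
  have S' := (S.neg.merge (X := -Y) (P := -Q) (Q := -P) (Y := -X) (con_neg.2 (by simpa using h3))
    (con_neg.2 (by simpa using h2)) (con_neg.2 (by simpa using h1)) (by simpa using rQ)
    (by simpa using rP) (by simpa using ne) (by simpa using hc)).neg
  have e : ∀ j, Del N (fun j => E (-j)) (-Q) (-P) (-j) = Del N E P Q j := fun j => by
    rw [← congrFun del_neg (-j), neg_neg]
  simp only [e, neg_neg] at S'
  exact ⟨_, S'⟩

/-- enumeration of the integers not congruent to `j` modulo `n + 1` -/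
def sk (n : ℕ) (j k : ℤ) : ℤ := j + 1 + k + k / n

lemma sk_eq (hn : 0 < n) (j q r : ℤ) (h0 : 0 ≤ r) (h1 : r < n) :
    sk n j (r + n * q) = j + 1 + r + (n + 1 : ℕ) * q := by
  rw [sk, Int.add_mul_ediv_left _ _ (by omega), Int.ediv_eq_zero_of_lt h0 h1]; push_cast; ring

lemma sk_dec (hn : 0 < n) (k : ℤ) : ∃ r q : ℤ, 0 ≤ r ∧ r < n ∧ k = r + n * q :=
  ⟨k % n, k / n, Int.emod_nonneg _ (by omega), Int.emod_lt_of_pos _ (by omega),
    (Int.emod_add_mul_ediv k n).symm⟩

lemma sk_per (hn : 0 < n) (j k : ℤ) : sk n j (k + n) = sk n j k + (n + 1 : ℕ) := by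
  obtain ⟨r, q, h0, h1, rfl⟩ := sk_dec hn k
  rw [show r + n * q + n = r + n * (q + 1) by ring, sk_eq hn _ _ _ h0 h1, sk_eq hn _ _ _ h0 h1]; ring

lemma sk_nd (hn : 0 < n) (j k : ℤ) : ¬((n + 1 : ℕ) : ℤ) ∣ sk n j k - j := by
  obtain ⟨r, q, h0, h1, rfl⟩ := sk_dec hn k
  rw [sk_eq hn _ _ _ h0 h1, dvd_sh, show j + 1 + r - j = 1 + r by ring]
  exact fun d => by have := Int.le_of_dvd (by omega) d; push_cast at this; omega

lemma sk_sur (hn : 0 < n) {j x : ℤ} (h : ¬((n + 1 : ℕ) : ℤ) ∣ x - j) : ∃ k, sk n j k = x := by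
  obtain ⟨q, q1, q2⟩ := ex_win (N := n + 1) (by omega) x j
  have : j ≠ x + (n + 1 : ℕ) * q := fun e => h ⟨-q, by linarith⟩
  refine ⟨x + (n + 1 : ℕ) * q - j - 1 + n * (-q), ?_⟩
  rw [sk_eq hn _ _ _ (by omega) (by push_cast at *; omega)]; ring

lemma sk_succ (hn : 0 < n) (j k : ℤ) : sk n j (k + 1) = sk n j k + 1 ∨
    (sk n j (k + 1) = sk n j k + 2 ∧ ((n + 1 : ℕ) : ℤ) ∣ sk n j k + 1 - j) := by
  obtain ⟨r, q, h0, h1, rfl⟩ := sk_dec hn k
  by_cases h : r + 1 < n
  · left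
    rw [show r + n * q + 1 = r + 1 + n * q by ring, sk_eq hn _ _ _ (by omega) h,
      sk_eq hn _ _ _ h0 h1]; ring
  · right
    have e : (n:ℤ) = r + 1 := by omega
    rw [show r + n * q + 1 = 0 + n * (q + 1) by rw [mul_add, mul_one, e]; ring,
      sk_eq hn _ _ _ le_rfl (by omega), sk_eq hn _ _ _ h0 h1]
    exact ⟨by push_cast; rw [e]; ring, q + 1, by push_cast; rw [e]; ring⟩

lemma sk_mono (hn : 0 < n) (j : ℤ) : StrictMono (sk n j) :=
  strictMono_int_of_lt_succ fun k => by rcases sk_succ hn j k with h | h <;> omega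

lemma sk_inv (hn : 0 < n) (j x : ℤ) : ∃ k, sk n j k ≤ x ∧ x < sk n j (k + 1) := by
  by_cases d : ((n + 1 : ℕ) : ℤ) ∣ x - j
  · have : ¬((n + 1 : ℕ) : ℤ) ∣ x - 1 - j := fun d' => by
      have := Int.le_of_dvd (by norm_num) (show ((n + 1 : ℕ) : ℤ) ∣ 1 by simpa using d.sub d')
      push_cast at this; omega
    obtain ⟨k, hk⟩ := sk_sur hn this
    refine ⟨k, by omega, ?_⟩
    rcases sk_succ hn j k with h | h
    · exact absurd d (by have := sk_nd hn j (k + 1); rwa [h, hk, sub_add_cancel] at this)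
    · omega
  · obtain ⟨k, hk⟩ := sk_sur hn d
    exact ⟨k, hk.le, hk ▸ sk_mono hn j (by omega)⟩

lemma sk_prod {M : Type} [CommMonoid M] (hn : 0 < n) {f : ℤ → M}
    (h : ∀ j, f (j + (n + 1 : ℕ)) = f j) (j : ℤ) :
    ∏ i ∈ Ico (0:ℤ) (n + 1 : ℕ), f i = f j * ∏ k ∈ Ico (0:ℤ) n, f (sk n j k) := by
  have hN : 0 < n + 1 := by omega
  rw [← j1_img hN j, prod_image fun x hx y hy h => j1_eq hN hx hy h,
    prod_congr rfl fun i _ => j1_md h i, ← Ioo_insert_left (by omega), prod_insert (by simp)]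
  congr 1
  refine (prod_nbij (sk n j) (fun k hk => ?_) (sk_mono hn j).injective.injOn (fun x hx => ?_)
    fun _ _ => rfl).symm
  · rw [mem_Ico] at hk
    have := sk_eq hn j 0 k hk.1 hk.2
    simp only [mul_zero, add_zero] at this
    rw [this, mem_Ioo]; push_cast; omega
  · simp only [coe_Ioo, Set.mem_Ioo] at hx
    push_cast at hx
    refine ⟨x - j - 1, by simp only [coe_Ico, Set.mem_Ico]; omega, ?_⟩
    have := sk_eq hn j 0 (x - j - 1) (by omega) (by omega)
    simp only [mul_zero, add_zero] at this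
    rw [this]; ring

lemma sk_sum (hn : 0 < n) {f : ℤ → ℂ} (h : ∀ j, f (j + (n + 1 : ℕ)) = f j) (j : ℤ) :
    ∑ i ∈ Ico (0:ℤ) (n + 1 : ℕ), f i = f j + ∑ k ∈ Ico (0:ℤ) n, f (sk n j k) := by
  have := sk_prod (f := fun i => Multiplicative.ofAdd (f i)) hn (fun i => by rw [h]) j
  rwa [← ofAdd_sum, ← ofAdd_sum, ← ofAdd_add, Multiplicative.ofAdd.injective.eq_iff] at this

lemma Feas.zero (A : Feas N t s rf blk I ar c ρ) (h0 : Wk 1 N t c ≠ 0) {j : ℤ} (hj : Dl c j = 0) :
    ∃ i ∈ I, ee (ρ i) = ee (t j) ∧ ((N:ℤ) ∣ ar i - (j - 1) ∨ (N:ℤ) ∣ ar i - j) := by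
  have := A.fac.jump A.pol A.pc j
  rw [hj, Complex.ofReal_zero, zero_mul, zero_mul] at this
  obtain ⟨i, hi, e⟩ := prod_eq_zero_iff.1 ((mul_eq_zero.1 this.symm).resolve_left h0)
  have e1 : ee (ρ i) = ee (t j) := by
    have := j1_ee_neg (t j)
    exact mul_left_cancel₀ (j1_ee_ne (-t j)) (by rw [this, ← sub_eq_zero.1 e])
  refine ⟨i, hi, e1, ?_⟩
  obtain ⟨k, hk⟩ := Complex.exp_eq_exp_iff_exists_int.1 e1
  have e2 : ρ i = t (j + N * (-k)) := by
    have := congrArg Complex.im hk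
    simp at this
    rw [A.pol.mul]; push_cast; linarith
  have l := A.fac.lo i hi
  rw [e2, A.pol.tm.le_iff_le, A.pol.tm.le_iff_le] at l
  rcases l.1.eq_or_lt with x | x
  · exact Or.inr ⟨-k, by linarith⟩
  · exact Or.inl ⟨-k, by have := l.2; have : ar i + 1 = j + N * (-k) := by omega
                         linarith⟩

open Classical in
noncomputable def sm (N : ℕ) (s : ℤ → ℝ) (j i : ℤ) : ℝ := if (N:ℤ) ∣ i - j then s (j + 1) else s i

def Res (n : ℕ) (t c : ℤ → ℝ) : Prop := ∃ t' s' rf' blk' I' ar' c' ρ',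
  Feas n t' s' rf' blk' I' ar' c' ρ' ∧ ∀ m, Wk m n t' c' = Wk m (n + 1) t c

lemma nd1 (hn : 0 < n) {a b : ℤ} (h : a - b = 1) {i : ℤ} (d : ((n + 1 : ℕ) : ℤ) ∣ i - a) :
    ¬((n + 1 : ℕ) : ℤ) ∣ i - b := fun d' => by
  have := Int.le_of_dvd (by norm_num)
    (show ((n + 1 : ℕ) : ℤ) ∣ 1 by have := d'.sub d; rwa [show i - b - (i - a) = 1 by linarith] at this)
  push_cast at this; omega

theorem Feas.core (A : Feas (n + 1) t s rf blk I ar c ρ) (hn : 0 < n) (h0 : Wk 1 (n + 1) t c ≠ 0)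
    {j : ℤ} (hj : Dl c j = 0) {rf' : ℤ → Prop} {blk' : ℤ → ℕ}
    (S : Str (n + 1) (Ex (sm (n + 1) s j)) (sm (n + 1) s j) rf' blk' c)
    (hr : ∀ i, ¬((n + 1 : ℕ) : ℤ) ∣ i - j → ¬((n + 1 : ℕ) : ℤ) ∣ i - (j - 1) → (rf' i ↔ rf i))
    (cnt : rtc (sm (n + 1) s j) rf' (j - 1) + 1 = rtc s rf (j - 1) + rtc s rf j) : Res n t c := by
  classical
  obtain ⟨i0, hi0, e0, a0⟩ := A.zero h0 hj
  have pe := sk_per hn j
  have nd := sk_nd hn j
  have su := fun x => sk_sur hn (j := j) (x := x)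
  have sc := sk_succ hn j
  have mo := sk_mono hn j
  have iv := sk_inv hn j
  have pr := fun f h => sk_prod (M := ℂ) (f := f) hn h j
  have su' := fun f h => sk_sum (f := f) hn h j
  generalize sk n j = e at pe nd su sc mo iv pr su'
  set s0 := sm (n + 1) s j with hs0
  have ps := A.str.ps
  have s1 : ∀ i, ¬((n + 1 : ℕ) : ℤ) ∣ i - j → s0 i = s i := fun i h => if_neg h
  have s2 : ∀ i, ((n + 1 : ℕ) : ℤ) ∣ i - j → s0 i = s (i + 1) := fun i h =>
    (if_pos h).trans (per_dvd ps (by simpa using h)).symm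
  have nE : ∀ i, ((n + 1 : ℕ) : ℤ) ∣ i - j → ¬Ex s0 i := fun i h => by
    rw [Ex, s2 i h, s1 _ (nd1 hn (a := j + 1) (by ring) (by simpa using h))]; simp
  have eE : ∀ k, Ex (fun k => s (e k)) k ↔ Ex s0 (e k) := fun k => by
    simp only [Ex]
    rw [s1 _ (nd k)]
    rcases sc k with h | h
    · rw [← h, s1 _ (nd _)]
    · rw [s2 _ h.2, h.1, add_assoc]; norm_num
  have eD : ∀ k, Dl (fun k => c (e k)) k = Dl c (e k) := fun k => by
    simp only [Dl]
    rcases sc (k - 1) with h | h <;> rw [sub_add_cancel] at h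
    · rw [h, add_sub_cancel_right]
    · have := (per_dvd (j1_Dl A.pc) h.2).trans hj
      rw [Dl, add_sub_cancel_right, sub_eq_zero] at this
      rw [h.1, ← this]; congr 2; ring
  choose f f1 f2 using iv
  have fu : ∀ x k, e k ≤ x → x < e (k + 1) → f x = k := fun x k h1 h2 => by
    have a := mo.lt_iff_lt.1 (h1.trans_lt (f2 x))
    have b := mo.lt_iff_lt.1 ((f1 x).trans_lt h2)
    omega
  have fd : ∀ x k, (n:ℤ) ∣ f x - k ↔ ((n + 1 : ℕ) : ℤ) ∣ x - e k ∨
      (((n + 1 : ℕ) : ℤ) ∣ x - j ∧ ((n + 1 : ℕ) : ℤ) ∣ e k - (j - 1)) := fun x k => by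
    have pa := per_adz (g := e) pe
    constructor
    · rintro ⟨q, hq⟩
      have a := f1 x
      have b := f2 x
      rw [show f x = k + n * q by linarith] at a b
      rw [add_right_comm, pa] at b
      rw [pa] at a
      rcases sc k with h | h
      · exact Or.inl ⟨q, by omega⟩
      · rcases a.eq_or_lt with z | z
        · exact Or.inl ⟨q, by omega⟩
        · refine Or.inr ⟨?_, by rw [show e k - (j - 1) = e k + 1 - j by ring]; exact h.2⟩
          rw [show x = e k + 1 + (n + 1 : ℕ) * q by omega, dvd_sh]; exact h.2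
    · rintro (⟨q, hq⟩ | ⟨d1, d2⟩)
      · refine ⟨q, ?_⟩
        rw [fu x (k + n * q) (by rw [pa]; omega) (by
          rw [add_right_comm, pa]; have := mo (lt_add_one k); omega)]
        ring
      · obtain ⟨q, hq⟩ := d1.sub d2
        refine ⟨q, ?_⟩
        rw [fu x (k + n * q) (by rw [pa]; omega) (by
          rw [add_right_comm, pa]
          rcases sc k with h | h
          · exact absurd (by rwa [h, show e k + 1 - j = e k - (j - 1) by ring]) (nd (k + 1))
          · omega)]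
        ring
  have W : ∀ G : ℂ → ℂ, ∑ k ∈ Ico (0:ℤ) n, (Dl (fun k => c (e k)) k : ℂ) * G (ee (t (e k))) =
      ∑ i ∈ Ico (0:ℤ) (n + 1 : ℕ), (Dl c i : ℂ) * G (ee (t i)) := fun G => by
    rw [su' _ fun i => by rw [j1_Dl A.pc, j1_eep A.pol], hj]
    simp only [eD, Complex.ofReal_zero, zero_mul, zero_add]
  have Wk' : ∀ m, Wk m n (fun k => t (e k)) (fun k => c (e k)) = Wk m (n + 1) t c :=
    fun m => W (· ^ m)
  refine ⟨fun k => t (e k), fun k => s (e k), fun k => rf' (e k), fun k => blk' (e k), I.erase i0,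
    fun i => f (ar i), fun k => c (e k), ρ, ⟨⟨hn, A.pol.tm.comp mo, fun k => by
      simp only [pe, A.pol.tp]⟩, ?_, fun k => by simp only [pe, A.pc], fun k => ?_, fun k => ?_, ?_,
      fun i hi => ?_, fun z hz => ?_⟩, Wk'⟩
  · refine S.tr e hn (fun k => propext (by rw [eE, eE, pe, S.pE])) (fun k => by simp only [pe, ps])
      (fun k => A.str.sgn _) pe (fun a b _ _ h => mo h) (fun k => (eE k).1)
      (fun x hx => ?_) (fun k _ => (s1 _ (nd k)).symm) (fun _ _ => rfl)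
      fun k => ⟨fun h => ⟨(eE k).2 (S.rE _ h), h⟩, fun h => h.2⟩
    obtain ⟨k, rfl⟩ := su x fun d => nE x d hx
    exact ⟨k, (eE k).2 hx, rfl⟩
  · rw [eD]; exact A.sg _
  · have r0 : rtc (fun k => s (e k)) (fun k => rf' (e k)) k = rtc s0 rf' (e k) := by
      unfold rtc; rw [propext (eE k)]
    rw [r0]
    simp only [fd]
    by_cases d : ((n + 1 : ℕ) : ℤ) ∣ e k - (j - 1)
    · have pq : ∀ i, rtc s0 rf' (i + (n + 1 : ℕ)) = rtc s0 rf' i := fun i => by
        unfold rtc; rw [S.prf, S.pE]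
      have q : ∀ x, ((n + 1 : ℕ) : ℤ) ∣ x - e k ↔ ((n + 1 : ℕ) : ℤ) ∣ x - (j - 1) := fun x =>
        ⟨fun h => by simpa using h.add d, fun h => by simpa using h.sub d⟩
      simp only [d, and_true, q]
      rw [per_dvd pq d, filter_erase, card_erase_of_mem (mem_filter.2 ⟨hi0, a0⟩), filter_or,
        card_union_of_disjoint (disjoint_filter.2 fun i _ h h' => nd1 hn (by ring) h' h),
        A.lab, A.lab]
      omega
    · simp only [d, and_false, or_false]
      rw [filter_erase, erase_eq_of_notMem fun h => ?_, A.lab]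
      · unfold rtc
        rw [propext (hr _ (nd k) d), Ex, Ex, s1 _ (nd k),
          s1 _ (by rwa [show e k + 1 - j = e k - (j - 1) by ring])]
      · have h' := (mem_filter.1 h).2
        rcases a0 with a | a
        · exact d (by simpa using a.sub h')
        · exact nd k (by simpa using a.sub h')
  · have := A.cI
    have := card_erase_add_one hi0
    omega
  · have l := A.fac.lo i (mem_of_mem_erase hi)
    exact ⟨(A.pol.tm.monotone (f1 _)).trans l.1, l.2.trans (A.pol.tm.monotone (f2 _))⟩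
  · have a := A.fac.fa z hz
    rw [pr _ fun i => by rw [j1_eep A.pol], ← mul_prod_erase _ _ hi0, e0] at a
    have b : Wf n (fun k => t (e k)) (fun k => c (e k)) z = Wf (n + 1) t c z := by
      simpa only [Wf, mul_div_assoc] using W fun w => w / (1 - z * w)
    rw [b, Wk']
    refine mul_left_cancel₀ (j1_disc hz (t j)) ?_
    linear_combination a

lemma Feas.chain (A : Feas N t s rf blk I ar c ρ) {a b : ℤ} (h : Con (Ex s) a b) :
    s a * c b ≤ s a * c a ∧ (s a * c a ≤ s a * c b → Dl c b = 0 ∧ Dl c (a + 1) = 0) := by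
  have k : ∀ m : ℕ, a + 1 + m ≤ b → s (a + 1 + m) = -s a ∧ s a * c (a + 1 + m) ≤ s a * c (a + m) ∧
      s a * c (a + m) ≤ s a * c a ∧ s a * c (a + 1 + m) ≤ s a * c (a + 1) := fun m => by
    have st : ∀ x, s (x + 1) = -s a → s a * c (x + 1) ≤ s a * c x := fun x hx => by
      have := A.sg (x + 1)
      rw [hx, Dl, add_sub_cancel_right] at this
      linarith
    induction m with
    | zero =>
      intro _
      have : s (a + 1) = -s a := by
        have := h.2.1
        rcases A.str.sgn a with x | x <;> rcases A.str.sgn (a + 1) with y | y <;>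
          simp_all [Ex]
      simpa [this] using st a this
    | succ m ih =>
      intro l
      push_cast at l ⊢
      obtain ⟨i1, i2, i3, i4⟩ := ih (by omega)
      have e : s (a + 1 + m + 1) = -s a := by
        rw [← i1]
        exact (not_not.1 (h.2.2.2 (a + 1 + m) (by omega) (by omega))).symm
      have := st _ e
      rw [show a + 1 + (m + 1) = a + 1 + m + 1 by ring, show a + (m + 1) = a + 1 + m by ring]
      exact ⟨e, this, by linarith, by linarith⟩
  obtain ⟨m, hm⟩ := Int.eq_ofNat_of_zero_le (show 0 ≤ b - a - 1 by linarith [h.1])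
  obtain ⟨-, i2, i3, i4⟩ := k m (by omega)
  obtain ⟨-, j2, -⟩ := k 0 (by have := h.1; push_cast; omega)
  rw [show a + 1 + m = b by omega] at i2 i4
  rw [show a + m = b - 1 by omega] at i2 i3
  simp only [Nat.cast_zero, add_zero] at j2
  refine ⟨by linarith, fun l => ?_⟩
  rw [Dl, Dl, add_sub_cancel_right]
  rcases A.str.sgn a with x | x <;> rw [x] at i2 i3 i4 j2 l <;> constructor <;> linarith

lemma con_succ {j : ℤ} (h1 : E (j - 1)) (h2 : E j) : Con E (j - 1) j :=
  ⟨by omega, h1, h2, fun x a b _ => by omega⟩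

theorem Feas.del (A : Feas (n + 1) t s rf blk I ar c ρ) (hn : 2 ≤ n) (h0 : Wk 1 (n + 1) t c ≠ 0)
    {j : ℤ} (hj : Dl c j = 0) : Res n t c := by
  classical
  have hn' : 0 < n := by omega
  have S := A.str
  have B := S.toBas
  have s1 : ∀ j i, ¬((n + 1 : ℕ) : ℤ) ∣ i - j → sm (n + 1) s j i = s i := fun j i h => if_neg h
  have s2 : ∀ j i, ((n + 1 : ℕ) : ℤ) ∣ i - j → sm (n + 1) s j i = s (i + 1) := fun j i h =>
    (if_pos h).trans (per_dvd S.ps (by simpa using h)).symm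
  have ps : ∀ j i, sm (n + 1) s j (i + (n + 1 : ℕ)) = sm (n + 1) s j i := fun j i => by
    simp only [sm, dvd_sh', S.ps]
  have pE : ∀ j i, Ex (sm (n + 1) s j) (i + (n + 1 : ℕ)) = Ex (sm (n + 1) s j) i := fun j i => by
    rw [Ex, Ex, add_right_comm, ps, ps]
  have sg : ∀ j i, sm (n + 1) s j i = 1 ∨ sm (n + 1) s j i = -1 := fun j i => by
    unfold sm; split_ifs <;> exact S.sgn _
  have x1 : ∀ j i, ((n + 1 : ℕ) : ℤ) ∣ i - j → ¬Ex (sm (n + 1) s j) i := fun j i h => by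
    rw [Ex, s2 j i h, s1 j _ (nd1 hn' (a := j + 1) (by ring) (by simpa using h))]; simp
  have x2 : ∀ j i, ((n + 1 : ℕ) : ℤ) ∣ i - (j - 1) →
      (Ex (sm (n + 1) s j) i ↔ s (j - 1) ≠ s (j + 1)) := fun j i h => by
    rw [per_dvd (pE j) h, Ex, sub_add_cancel, s2 j j (by simp),
      s1 j _ fun d => nd1 hn' (a := j) (b := j - 1) (by ring) d (by simp)]
  have x3 : ∀ j i, ¬((n + 1 : ℕ) : ℤ) ∣ i - j → ¬((n + 1 : ℕ) : ℤ) ∣ i - (j - 1) →
      (Ex (sm (n + 1) s j) i ↔ Ex s i) := fun j i h h' => by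
    rw [Ex, Ex, s1 j _ h, s1 j _ (by rwa [show i + 1 - j = i - (j - 1) by ring])]
  by_cases m : ∃ j, Dl c j = 0 ∧ ¬(Ex s (j - 1) ∧ Ex s j)
  · obtain ⟨j, hj, m⟩ := m
    by_cases b : Ex s j
    · have a : ¬Ex s (j - 1) := fun a => m ⟨a, b⟩
      have sa : s (j - 1) = s j := by simpa [Ex] using a
      set g : ℤ → ℤ := fun i => if ((n + 1 : ℕ) : ℤ) ∣ i - (j - 1) then i + 1 else i with hg
      have g1 : ∀ i, ((n + 1 : ℕ) : ℤ) ∣ i - (j - 1) → g i = i + 1 := fun i h => if_pos h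
      have g2 : ∀ i, ¬((n + 1 : ℕ) : ℤ) ∣ i - (j - 1) → g i = i := fun i h => if_neg h
      have dj : ∀ i, ((n + 1 : ℕ) : ℤ) ∣ i - (j - 1) → ((n + 1 : ℕ) : ℤ) ∣ i + 1 - j := fun i h => by
        rwa [show i + 1 - j = i - (j - 1) by ring]
      refine A.core hn' h0 hj (rf' := fun i => Ex (sm (n + 1) s j) i ∧ rf (g i))
        (S.tr g S.N0 (pE j) (ps j) (sg j) (fun i => ?_) (fun u v _ hv l => ?_) (fun i hi => ?_)
          (fun k hk => ?_) (fun i hi => ?_) (fun i _ => ?_) fun _ => Iff.rfl)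
        (fun i h h' => ?_) ?_
      · simp only [hg, dvd_sh']; split_ifs <;> ring
      · have : v ≤ g v := by simp only [hg]; split_ifs <;> omega
        by_cases d : ((n + 1 : ℕ) : ℤ) ∣ u - (j - 1)
        · have : u + 1 ≠ v := fun e => x1 j v (e ▸ dj u d) hv
          rw [g1 u d]; omega
        · rw [g2 u d]; omega
      · by_cases d : ((n + 1 : ℕ) : ℤ) ∣ i - (j - 1)
        · rwa [g1 i d, per_dvd S.pE (dj i d)]
        · rw [g2 i d]; exact (x3 j i (fun d' => x1 j i d' hi) d).1 hi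
      · by_cases d : ((n + 1 : ℕ) : ℤ) ∣ k - j
        · have d' : ((n + 1 : ℕ) : ℤ) ∣ k - 1 - (j - 1) := by simpa using d
          exact ⟨k - 1, (x2 j _ d').2 (sa ▸ b), by rw [g1 _ d']; ring⟩
        · have d' : ¬((n + 1 : ℕ) : ℤ) ∣ k - (j - 1) := fun d' => a (per_dvd S.pE d' ▸ hk)
          exact ⟨k, (x3 j k d d').2 hk, g2 k d'⟩
      · rw [s1 j i fun d => x1 j i d hi]
        by_cases d : ((n + 1 : ℕ) : ℤ) ∣ i - (j - 1)
        · rw [g1 i d, per_dvd S.ps (dj i d), per_dvd S.ps d, sa]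
        · rw [g2 i d]
      · by_cases d : ((n + 1 : ℕ) : ℤ) ∣ i - (j - 1)
        · rw [g1 i d, per_dvd A.pc (dj i d), per_dvd A.pc d]
          exact (sub_eq_zero.1 hj).symm
        · rw [g2 i d]
      · rw [g2 i h', x3 j i h h']
        exact ⟨fun h => h.2, fun h => ⟨S.rE _ h, h⟩⟩
      · have e1 : Ex (sm (n + 1) s j) (j - 1) := (x2 j _ (by simp)).2 (sa ▸ b)
        have r : ¬rf (j - 1) := fun r => a (S.rE _ r)
        by_cases r' : rf j <;> simp [rtc, e1, g1 (j - 1) (by simp), r, r', a, b]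
    · have e : sm (n + 1) s j = s := funext fun i => by
        by_cases d : ((n + 1 : ℕ) : ℤ) ∣ i - j
        · rw [s2 j i d]
          exact (not_not.1 (per_dvd S.pE d ▸ b : ¬Ex s i)).symm
        · exact s1 j i d
      refine A.core hn' h0 hj (rf' := rf) (blk' := blk) (by rw [e]; exact S) (fun _ _ _ => Iff.rfl) ?_
      have r : ¬rf j := fun r => b (S.rE _ r)
      rw [e]
      simp [rtc, r, b]
  have m1 : ∀ j, Dl c j = 0 → Ex s (j - 1) ∧ Ex s j := fun j h => by
    by_contra x; exact m ⟨j, h, x⟩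
  have cc : ∀ j, Dl c j = 0 → rf (j - 1) ∨ rf j := fun j h => by
    obtain ⟨i, hi, -, a⟩ := A.zero h0 h
    by_contra x
    push Not at x
    rcases a with a | a
    · have := A.lab (j - 1)
      rw [rtc, if_neg x.1, if_pos (m1 j h).1, card_eq_zero] at this
      exact absurd (mem_filter.2 ⟨hi, a⟩) (by rw [this]; simp)
    · have := A.lab j
      rw [rtc, if_neg x.2, if_pos (m1 j h).2, card_eq_zero] at this
      exact absurd (mem_filter.2 ⟨hi, a⟩) (by rw [this]; simp)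
  have two : ∀ a b : ℤ, a - b = 2 → ¬((n + 1 : ℕ) : ℤ) ∣ a - b := fun a b e d => by
    have := Int.le_of_dvd (by omega) d
    push_cast at this; omega
  have fin : ∀ j blk', Dl c j = 0 → ¬(rf (j - 1) ∧ rf j) → Str (n + 1) (Del (n + 1) (Ex s) (j - 1) j) s
      (fun i => rf i ∧ Del (n + 1) (Ex s) (j - 1) j i) blk' c → Res n t c := by
    intro j blk' hj nr S'
    have ab := m1 j hj
    have sa : s (j - 1) = s (j + 1) := by
      have a := ab.1
      have b := ab.2
      rcases S.sgn (j - 1) with x | x <;> rcases S.sgn j with y | y <;>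
        rcases S.sgn (j + 1) with z | z <;> simp_all [Ex]
    have eq : ∀ i, Ex (sm (n + 1) s j) i ↔ Del (n + 1) (Ex s) (j - 1) j i := fun i => by
      by_cases d : ((n + 1 : ℕ) : ℤ) ∣ i - j
      · exact iff_of_false (x1 j i d) fun h => h.2.2 d
      by_cases d' : ((n + 1 : ℕ) : ℤ) ∣ i - (j - 1)
      · exact iff_of_false (by rw [x2 j i d']; exact not_not.2 sa) fun h => h.2.1 d'
      · rw [x3 j i d d']; exact ⟨fun h => ⟨h, d', d⟩, fun h => h.1⟩
    refine A.core hn' h0 hj (rf' := fun i => rf i ∧ Del (n + 1) (Ex s) (j - 1) j i)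
      (S'.tr id S.N0 (pE j) (ps j) (sg j) (fun _ => rfl) (fun _ _ _ _ l => l) (fun i => (eq i).1)
        (fun k hk => ⟨k, (eq k).2 hk, rfl⟩) (fun i hi => s1 j i fun d => x1 j i d hi)
        (fun _ _ => rfl) fun i => ⟨fun h => ⟨(eq i).2 h.2, h⟩, fun h => h.2⟩)
      (fun i h h' => ⟨fun x => x.1, fun x => ⟨x, S.rE _ x, h', h⟩⟩) ?_
    have e1 : ¬Del (n + 1) (Ex s) (j - 1) j (j - 1) := fun h => h.2.1 (by simp)
    have := cc j hj
    by_cases r : rf (j - 1) <;> by_cases r' : rf j <;> simp_all [rtc]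
  have mix : ∀ j, Dl c j = 0 → ¬(rf (j - 1) ∧ rf j) → Res n t c := by
    intro j hj nr
    have ab := m1 j hj
    have h2 := con_succ ab.1 ab.2
    obtain ⟨X, h1⟩ := B.prev ab.1
    obtain ⟨Y, h3⟩ := B.next ab.2
    have ec : c j = c (j - 1) := sub_eq_zero.1 hj
    have c1 := A.chain h1
    have c3 := A.chain h3
    have a1 := S.alt _ _ h1
    have a2 := S.alt _ _ h2
    have a3 := S.alt _ _ h3
    by_cases r : rf j
    · have r' : ¬rf (j - 1) := fun x => nr ⟨x, r⟩
      refine fin j _ hj nr (S.merge h1 h2 h3 r' r (fun e => ?_) (ec ▸ c1.1))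
      have := S.iq X j h1.2.1 r e
      rw [show s j = s X by linarith, ec] at this
      have z := (c1.2 this).1
      have eX : X = j - 1 - 1 := h1.uniq' (con_succ (m1 _ z).1 ab.1)
      exact two j X (by omega) (S.ru _ _ r (eX ▸ (cc _ z).resolve_right r') e.symm)
    · have r' := (cc j hj).resolve_right r
      refine (S.merge' h1 h2 h3 r' r (fun e => ?_) (by rw [a3, ← ec]; linarith [c3.1])).elim
        fun b hb => fin j b hj nr hb
      have := S.iq Y _ h3.2.2.1 r' e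
      rw [show s (j - 1) = -s j by linarith, ← ec] at this
      have z := (c3.2 (by linarith)).2
      have z' := m1 _ z
      have cz := cc _ z
      rw [add_sub_cancel_right] at z' cz
      have eY : Y = j + 1 := h3.uniq ⟨by omega, z'.1, z'.2, fun x a b _ => by omega⟩
      exact two Y (j - 1) (by omega) (S.ru _ _ (eY ▸ cz.resolve_left r) r' e)
  by_cases nr : rf (j - 1) ∧ rf j
  swap
  · exact mix j hj nr
  have ab := m1 j hj
  have h2 := con_succ ab.1 ab.2
  obtain ⟨b', a', k1, k2, k3, k4⟩ := S.pi' h2 fun h => S.rb _ nr.2 h.2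
  have i1 := S.iq b' j k1.2.1 nr.2 k2
  have i2 := S.iq a' _ k1.2.2.1 nr.1 k3
  have ec : c j = c (j - 1) := sub_eq_zero.1 hj
  rw [show s (j - 1) = -s j by linarith [S.alt _ _ h2], ← ec] at i2
  have z := ((A.chain k1).2 (by rw [k4]; linarith)).1
  have eb : b' = a' - 1 := k1.uniq' (con_succ (m1 _ z).1 k1.2.2.1)
  refine mix a' z fun x => two (a' + 1) b' (by omega) ?_
  have d1 := S.ru _ _ (eb ▸ x.1) nr.2 k2
  have d2 := S.ru _ _ x.2 nr.1 k3
  have := d2.sub d1
  rwa [show a' - (j - 1) - (b' - j) = a' + 1 - b' by ring] at this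

end Pool.Agent.Lib.MP_9dc04a_an
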