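import Pool.Agent.Lib.MP_9dc04a_an.O3Fac

set_option autoImplicit false

namespace Pool.Agent.Lib.MP_9dc04a_an

open Finset Real

variable {N : ℕ} {s c h : ℤ → ℝ} {rf : ℤ → Prop} {blk : ℤ → ℕ}

lemma j4_tel (h : ℤ → ℝ) {a b : ℤ} (ab : a ≤ b) : ∑ j ∈ Ico a b, (h j - h (j + 1)) = h a - h b := by
  induction b, ab using Int.le_induction with
  | base => simp
  | succ b hb ih =>
    rw [← insert_Ico_right_eq_Ico_add_one hb, sum_insert (by simp), ih]; ring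

lemma j4_shift {B : ℤ → Prop} (pB : ∀ j, B (j + N) = B j) {a b : ℤ} (h : Con B a b) (k : ℤ) :
    Con B (a + N * k) (b + N * k) := by
  refine ⟨by linarith [h.1], by rw [per_mul pB]; exact h.2.1, by rw [per_mul pB]; exact h.2.2.1,
    fun x h1 h2 hx => h.2.2.2 (x + N * (-k)) (by linarith) (by linarith) ?_⟩
  rwa [per_mul pB]

lemma j4_next {B : ℤ → Prop} (hN : 0 < N) (pB : ∀ j, B (j + N) = B j) {a : ℤ} (ha : B a) :
    ∃ b, Con B a b ∧ b ≤ a + N := by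
  obtain ⟨b, ⟨h1, h2⟩, h3⟩ := Int.exists_least_of_bdd (P := fun x => a < x ∧ B x)
    ⟨a, fun x hx => hx.1.le⟩ ⟨a + N, by omega, by rwa [pB]⟩
  exact ⟨b, ⟨h1, ha, h2, fun x a1 a2 a3 => absurd (h3 x ⟨a1, a3⟩) (not_le.2 a2)⟩,
    h3 _ ⟨by omega, by rwa [pB]⟩⟩

lemma j4_per (S : Str N (Ex s) s rf blk c) (β : ℕ) (j : ℤ) :
    (Ex s (j + N) ∧ blk (j + N) = β) = (Ex s j ∧ blk j = β) := by rw [S.pE, S.pb]

/-- the gap lemma -/
lemma Stat.gap (S : Str N (Ex s) s rf blk c) (H : Stat N s blk h) {β : ℕ} {a b : ℤ}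
    (K : Con (fun j => Ex s j ∧ blk j = β) a b) (hb : b ≤ a + N) : h (a + 1) = h b := by
  classical
  obtain ⟨ab, ⟨Ea, ba⟩, ⟨Eb, bb⟩, K⟩ := K
  rw [← sub_eq_zero, ← j4_tel h (by omega : a + 1 ≤ b), ← sum_filter_of_ne
    (p := fun j => Ex s j ∧ blk j ≠ 0) fun j _ hj => by
      by_contra hc
      exact hj (sub_eq_zero.2 (H.fr j (by tauto))),
    ← sum_fiberwise_of_maps_to (g := blk) fun j hj => mem_image_of_mem blk hj]
  refine sum_eq_zero fun γ hγ => ?_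
  obtain ⟨x, hx, rfl⟩ := mem_image.1 hγ
  simp only [mem_filter, mem_Ico] at hx
  obtain ⟨⟨x1, x2⟩, Ex', x0⟩ := hx
  have n : blk x ≠ β := fun e => K x (by omega) x2 ⟨Ex', e⟩
  have e := H.bl _ x0
  rw [sum_filter, j1_sum S.N0 (fun j => by
    rw [show j + N + 1 = j + 1 + N by ring, H.ph, H.ph]; simp only [j4_per S]) a, ← sum_filter] at e
  refine Eq.trans (sum_congr ?_ fun _ _ => rfl) e
  ext y
  simp only [mem_filter, mem_Ico]
  refine ⟨fun k => ⟨⟨by omega, by omega⟩, k.1.2.1, k.2⟩, fun k => ⟨⟨?_, k.2.1, k.2.2 ▸ x0⟩, k.2.2⟩⟩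
  have y1 : y ≠ a := fun e => n (by rw [← k.2.2, e, ba])
  have y2 : y ≠ b := fun e => n (by rw [← k.2.2, e, bb])
  refine ⟨by omega, not_le.1 fun y3 => n ?_⟩
  exact (S.nc a x b y (by omega) x2 (by omega) k.1.2 Ea Ex' Eb k.2.1 (ba.trans bb.symm)
    k.2.2.symm).symm.trans ba

theorem Stat.tele {h : ℤ → ℝ} (S : Str N (Ex s) s rf blk c) (H : Stat N s blk h) (ψ : ℝ → ℤ)
    (β : ℕ) (hβ : β ≠ 0) [DecidablePred fun j => Ex s j ∧ blk j = β] :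
    ∑ j ∈ Ico (0:ℤ) N with Ex s j ∧ blk j = β, (ψ (h j) - ψ (h (j + 1))) = 0 := by
  choose! nx h1 h2 using fun (a : ℤ) (ha : Ex s a ∧ blk a = β) =>
    j4_next (B := fun j => Ex s j ∧ blk j = β) S.N0 (j4_per S β) ha
  set W := {j ∈ Ico (0:ℤ) N | Ex s j ∧ blk j = β} with hW
  have inj : Set.InjOn (fun j => nx j % N) W := fun x hx y hy e => by
    rw [mem_coe, hW, mem_filter] at hx hy
    obtain ⟨k, hk⟩ := Int.ModEq.dvd e
    have a := j4_shift (j4_per S β) (h1 x hx.2) k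
    rw [show nx x + N * k = nx y by linarith] at a
    have b := a.uniq' (h1 y hy.2)
    exact j1_eq S.N0 (a := 0) (by simpa using hx.1) (by simpa using hy.1) (by rw [← b]; simp)
  have im : W.image (fun j => nx j % N) = W := by
    refine eq_of_subset_of_card_le (fun z hz => ?_) (card_image_of_injOn inj).ge
    obtain ⟨x, hx, rfl⟩ := mem_image.1 hz
    refine mem_filter.2 ⟨j1_mem S.N0 _, ?_⟩
    exact (j1_md (f := fun j => Ex s j ∧ blk j = β) (j4_per S β) _).symm ▸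
      (h1 x (mem_filter.1 hx).2).2.2.1
  rw [sum_sub_distrib, sub_eq_zero]
  conv_lhs => rw [← im]
  rw [sum_image inj]
  refine sum_congr rfl fun x hx => ?_
  have := (mem_filter.1 hx).2
  rw [j1_md H.ph, H.gap S (h1 x this) (h2 x this)]

lemma Stat.lev (S : Str N (Ex s) s rf blk c) (H : Stat N s blk h) {a b : ℤ}
    (ha : Ex s a ∧ blk a = 0) (hb : Ex s b ∧ blk b = 0) : h a = h b := by
  have k : ∀ n : ℕ, ∀ a : ℤ, Ex s a ∧ blk a = 0 → a ≤ b → b - a ≤ n → h a = h b := by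
    intro n
    induction n with
    | zero => intro a _ a1 a2; rw [show a = b by omega]
    | succ n ih =>
      intro a a0 a1 a2
      rcases a1.eq_or_lt with rfl | l
      · rfl
      obtain ⟨x, x1, x2⟩ := j4_next (B := fun j => Ex s j ∧ blk j = 0) S.N0 (j4_per S 0) a0
      have := x1.1
      rw [H.fr a (Or.inr a0.2), H.gap S x1 x2]
      exact ih x x1.2.2.1 (x1.le hb l) (by omega)
  obtain ⟨j, j1, j2⟩ := ex_win S.N0 a (b - N)
  rw [← per_mul H.ph j a]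
  exact k N _ (by rwa [per_mul (f := fun j => Ex s j ∧ blk j = 0) (j4_per S 0)]) (by omega)
    (by omega)

lemma j4_third (S : Str N (Ex s) s rf blk c) (H : Stat N s blk h) (h3 : 3 ≤ N) {x x' : ℤ}
    (hx : Ex s x ∧ blk x = 0) (hx' : Ex s x' ∧ blk x' = 0) (e : s x = -s x')
    (n : ¬(N:ℤ) ∣ x + 1 - x') : ∃ y, (¬Ex s y ∨ blk y = 0) ∧ h (y + 1) = h x ∧
      ¬(N:ℤ) ∣ y - x ∧ ¬(N:ℤ) ∣ y - x' := by
  by_cases f : ¬Ex s (x + 1) ∨ blk (x + 1) = 0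
  · refine ⟨x + 1, f, ((H.fr x (Or.inr hx.2)).trans (H.fr _ f)).symm, fun d => ?_, n⟩
    have := Int.le_of_dvd (by omega) d
    omega
  rw [not_or, not_not] at f
  have K : Con (Ex s) x (x + 1) := ⟨by omega, hx.1, f.1, fun z z1 z2 => by omega⟩
  obtain ⟨b, a, K', b1, a1, sb⟩ := S.pi' K fun k => f.2 k.2
  have a0 : Ex s a ∧ blk a = 0 := ⟨K'.2.2.1, a1.trans hx.2⟩
  have sa : s a = s x := by linarith [S.alt _ _ K, S.alt _ _ K']
  refine ⟨a, Or.inr a0.2, (H.fr a (Or.inr a0.2)).symm.trans (H.lev S a0 hx), fun d => ?_,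
    S.toBas.nd (sa.trans e)⟩
  obtain ⟨k, hk⟩ := d
  have K1 := S.toBas.shift K' (-k)
  rw [show a + N * -k = x by linarith] at K1
  have b2 : blk (b + N * -k) = blk (x + 1) := by rw [per_mul S.pb, b1]
  set b' := b + N * -k
  obtain ⟨j, j1, j2⟩ := ex_win S.N0 x' x
  have z1 : Ex s (x' + N * j) := by rw [per_mul S.pE]; exact hx'.1
  have z2 : blk (x' + N * j) = 0 := by rw [per_mul S.pb]; exact hx'.2
  have z3 : x' + N * j ≠ x := fun e' => S.toBas.nd e ⟨j, by linarith⟩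
  have z4 : x' + N * j ≠ x + 1 := fun e' => n ⟨j, by linarith⟩
  have z5 := (S.toBas.shift K1 1).ge z1 (by linarith)
  have z6 : x' + N * j ≠ b' + N * 1 := fun e' => f.2 (by rw [← b2, ← per_mul S.pb 1, ← e', z2])
  exact f.2 (b2.symm.trans ((S.nc b' x (x + 1) (x' + N * j) K1.1 (by omega) (by omega) (by omega)
    K1.2.1 hx.1 f.1 z1 b2 (hx.2.trans z2.symm)).trans hx.2))

theorem Stat.three {h : ℤ → ℝ} (S : Str N (Ex s) s rf blk c) (H : Stat N s blk h) (h3 : 3 ≤ N)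
    (hM : ∃ j, Ex s j ∧ blk j = 0 ∧ s j = 1) (hm : ∃ j, Ex s j ∧ blk j = 0 ∧ s j = -1) :
    ∃ (l : ℝ) (J : Finset ℤ), 3 ≤ #J ∧
      ∀ j ∈ J, j ∈ Ico (0:ℤ) N ∧ (¬Ex s j ∨ blk j = 0) ∧ h (j + 1) = l := by
  obtain ⟨M, M1, M2, M3⟩ := hM
  obtain ⟨m, m1, m2, m3⟩ := hm
  have e : s M = -s m := by rw [M3, m3, neg_neg]
  have lv := H.lev S ⟨M1, M2⟩ ⟨m1, m2⟩
  obtain ⟨y, y1, y2, y3, y4⟩ : ∃ y, (¬Ex s y ∨ blk y = 0) ∧ h (y + 1) = h M ∧
      ¬(N:ℤ) ∣ y - M ∧ ¬(N:ℤ) ∣ y - m := by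
    by_cases d : (N:ℤ) ∣ M + 1 - m
    · obtain ⟨y, y1, y2, y3, y4⟩ := j4_third S H h3 ⟨m1, m2⟩ ⟨M1, M2⟩ (by rw [M3, m3]) fun d' => by
        have := Int.le_of_dvd (by omega) (d.add d')
        omega
      exact ⟨y, y1, y2.trans lv.symm, y4, y3⟩
    · exact j4_third S H h3 ⟨M1, M2⟩ ⟨m1, m2⟩ e d
  have ne : ∀ {i j : ℤ}, ¬(N:ℤ) ∣ i - j → i % N ≠ j % N := fun n e => n (Int.ModEq.dvd e.symm)
  have p : ∀ j, (¬Ex s j ∨ blk j = 0) → h (j + 1) = h M → j % N ∈ Ico (0:ℤ) N ∧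
      (¬Ex s (j % N) ∨ blk (j % N) = 0) ∧ h (j % N + 1) = h M := fun j a b =>
    ⟨j1_mem S.N0 j, by rwa [j1_md S.pE, j1_md S.pb], by
      rwa [j1_md (f := fun j => h (j + 1)) fun j => by rw [add_right_comm, H.ph]]⟩
  refine ⟨h M, {y % N, M % N, m % N}, (card_eq_three.2 ⟨_, _, _, ne y3, ne y4,
    ne (S.toBas.nd e), rfl⟩).ge, fun j hj => ?_⟩
  simp only [mem_insert, mem_singleton] at hj
  rcases hj with rfl | rfl | rfl
  · exact p y y1 y2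
  · exact p M (Or.inr M2) (H.fr M (Or.inr M2)).symm
  · exact p m (Or.inr m2) ((H.fr m (Or.inr m2)).symm.trans lv.symm)

end Pool.Agent.Lib.MP_9dc04a_an
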