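import Pool.Agent.Lib.MP_9dc04a_an.O3Geo0
import Pool.Agent.Lib.MP_9dc04a_an.O3Enum

set_option autoImplicit false

namespace Pool.Agent.Lib.MP_9dc04a_an

open Real Filter Topology Set

variable {M : ℕ} {α s y : ℤ → ℝ} {u v : ℝ → ℝ}

lemma j7_slope {f : ℝ → ℝ} {d x : ℝ} (h : HasDerivAt f d x) (hd : 0 < d) :
    (∀ᶠ z in 𝓝[<] x, f z < f x) ∧ ∀ᶠ z in 𝓝[>] x, f x < f z := by
  have e := (hasDerivAt_iff_tendsto_slope.1 h).eventually (lt_mem_nhds hd)
  refine ⟨?_, ?_⟩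
  · filter_upwards [nhdsLT_le_nhdsNE x e, self_mem_nhdsWithin] with z h1 h2
    have h1 : 0 < slope f x z := h1
    rw [slope_def_field] at h1
    have h3 : z - x < 0 := sub_neg.2 h2
    linarith [(div_pos_iff.1 h1).resolve_left fun c => by linarith [c.2]]
  · filter_upwards [nhdsGT_le_nhdsNE x e, self_mem_nhdsWithin] with z h1 h2
    have h1 : 0 < slope f x z := h1
    rw [slope_def_field] at h1
    have h3 : 0 < z - x := sub_pos.2 h2
    linarith [(div_pos_iff_of_pos_right h3).1 h1]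

lemma j7_two (A : Pol M α) (B : Bas M (Ex s) s) (cu : Continuous u)
    (mo : ∀ a b, Con (Ex s) a b → StrictMonoOn (fun x => s b * u x) (Icc (α a) (α b)))
    {a b b' : ℤ} (h : Con (Ex s) a b) (h' : Con (Ex s) b b') {U U' : Set ℝ}
    (hU : U ∈ 𝓝[<] α b) (hU' : U' ∈ 𝓝[>] α b) :
    ∀ᶠ m in 𝓝[<] (s b * u (α b)), (∃ x, α a < x ∧ x < α b ∧ x ∈ U ∧ s b * u x = m) ∧
      ∃ x, α b < x ∧ x < α b' ∧ x ∈ U' ∧ s b * u x = m :=
  (j7_nearL (w := fun x => s b * u x) (by fun_prop) (A.tm h.1) (fun x x1 x2 =>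
    mo a b h ⟨x1.le, x2.le⟩ (right_mem_Icc.2 (A.tm h.1).le) x2) hU).and
  (j7_nearR (w := fun x => s b * u x) (by fun_prop) (A.tm h'.1) (fun x x1 x2 => by
    have := mo b b' h' (left_mem_Icc.2 (A.tm h'.1).le) ⟨x1.le, x2.le⟩ x1
    simp only [B.alt _ _ h'] at this ⊢
    linarith) hU')

lemma j7_s0 (B : Bas M (Ex s) s) (j : ℤ) : s j ≠ 0 := by
  rcases B.sgn j with h | h <;> rw [h] <;> norm_num

lemma j7_lab (A : Pol M α) (B : Bas M (Ex s) s) (cu : Continuous u)
    (mo : ∀ a b, Con (Ex s) a b → StrictMonoOn (fun x => s b * u x) (Icc (α a) (α b)))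
    (hy : ∀ i j, j7_R α s u v i j → y i < y j) {a b : ℤ} (h : Con (Ex s) a b) {d σ : ℝ}
    (hv : HasDerivAt v d (α b)) (hσ : σ = 1 ∨ σ = -1) (hd : 0 < σ * d) : σ * y a < σ * y b := by
  obtain ⟨b', h'⟩ := B.next h.2.2.1
  obtain ⟨e1, e2⟩ := j7_slope (hv.const_mul σ) hd
  obtain ⟨m, ⟨x, x1, x2, x3, x4⟩, z, z1, z2, z3, z4⟩ := (j7_two A B cu mo h h' e1 e2).exists
  have e : u x = u z := mul_left_cancel₀ (j7_s0 B b) (x4.trans z4.symm)
  have l : σ * v x < σ * v z := lt_trans x3 z3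
  rcases hσ with rfl | rfl
  · simpa using hy a b ⟨b, b', x, z, h, h', ⟨x1, x2⟩, ⟨z1, z2⟩, e, by simpa using l⟩
  · simpa using hy b a ⟨b', b, z, x, h', h, ⟨z1, z2⟩, ⟨x1, x2⟩, e.symm, by simpa using l⟩

lemma j7_cov (A : Pol M α) (B : Bas M (Ex s) s) (cu : Continuous u) (cv : Continuous v)
    (inj : ∀ x x', u x = u x' → v x = v x' → ∃ k : ℤ, x' = x + 2 * π * k)
    (mo : ∀ a b, Con (Ex s) a b → StrictMonoOn (fun x => s b * u x) (Icc (α a) (α b)))
    (hy : ∀ i j, j7_R α s u v i j → y i < y j) {a b l l' : ℤ} (h : Con (Ex s) a b)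
    (g : Con (Ex s) l l') (n1 : ¬(M:ℤ) ∣ l - a) (n2 : ¬(M:ℤ) ∣ l - b)
    (hc : (s b * u (α l) < s b * u (α b) ∧ s b * u (α b) ≤ s b * u (α l')) ∨
      (s b * u (α l') < s b * u (α b) ∧ s b * u (α b) ≤ s b * u (α l))) :
    (y l < y a ∧ y l < y b) ∨ (y a < y l ∧ y b < y l) := by
  obtain ⟨b', h'⟩ := B.next h.2.2.1
  have lt := A.tm g.1
  have cw : Continuous fun x => s b * u x := by fun_prop
  have m0 := mo l l' g (left_mem_Icc.2 lt.le) (right_mem_Icc.2 lt.le) lt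
  have ss : s l' = s b ∨ s l' = -s b := by
    rcases B.sgn l' with c | c <;> rcases B.sgn b with d | d <;> simp [c, d]
  obtain ⟨x₀, x1, x2, x3⟩ : ∃ x₀ ∈ Icc (α l) (α l'), s b * u x₀ = s b * u (α b) ∧
      ∀ U ∈ 𝓝 x₀, ∀ᶠ m in 𝓝[<] (s b * u (α b)),
        ∃ x, α l < x ∧ x < α l' ∧ x ∈ U ∧ s b * u x = m := by
    rcases hc with c | c
    · have e : s l' = s b := ss.resolve_right fun e => by
        simp only [e] at m0
        linarith [c.1, c.2]
      obtain ⟨x₀, x1, x2⟩ := intermediate_value_Ioc lt.le cw.continuousOn c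
      refine ⟨x₀, Ioc_subset_Icc_self x1, x2, fun U hU => ?_⟩
      have := j7_nearL cw x1.1 (fun x p q => (e ▸ mo l l' g) ⟨p.le, q.le.trans x1.2⟩
        (Ioc_subset_Icc_self x1) q) (mem_nhdsWithin_of_mem_nhds hU)
      simp only at x2
      rw [x2] at this
      exact this.mono fun m ⟨x, p, q, r⟩ => ⟨x, p, q.trans_le x1.2, r⟩
    · have e : s l' = -s b := ss.resolve_left fun e => by
        simp only [e] at m0
        linarith [c.1, c.2]
      obtain ⟨x₀, x1, x2⟩ := intermediate_value_Ico' lt.le cw.continuousOn c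
      refine ⟨x₀, Ico_subset_Icc_self x1, x2, fun U hU => ?_⟩
      have := j7_nearR cw x1.2 (fun x p q => by
        have := mo l l' g (Ico_subset_Icc_self x1) ⟨x1.1.trans p.le, q.le⟩ p
        simp only [e] at this
        linarith) (mem_nhdsWithin_of_mem_nhds hU)
      simp only at x2
      rw [x2] at this
      exact this.mono fun m ⟨x, p, q, r⟩ => ⟨x, x1.1.trans_lt p, q, r⟩
  have s0 := j7_s0 B b
  have ne : v (α b) ≠ v x₀ := fun e => by
    obtain ⟨k, hk⟩ := inj _ _ (mul_left_cancel₀ s0 x2).symm e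
    rw [← A.mul] at hk
    rw [hk] at x1
    have c := B.shift h k
    have p := A.tm.le_iff_le.1 x1.1
    have q := A.tm.le_iff_le.1 x1.2
    rcases p.eq_or_lt with r | r
    · exact n2 ⟨k, by linarith⟩
    · have := le_antisymm q (g.le c.2.2.1 r)
      rw [this] at c
      exact n1 ⟨k, by linarith [g.uniq' c]⟩
  have key : ∀ σ : ℝ, σ * v x₀ < σ * v (α b) → ∃ x z z', x ∈ Ioo (α l) (α l') ∧
      z ∈ Ioo (α a) (α b) ∧ z' ∈ Ioo (α b) (α b') ∧ u x = u z ∧ u x = u z' ∧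
      σ * v x < σ * v z ∧ σ * v x < σ * v z' := fun σ hσ => by
    obtain ⟨μ, μ1, μ2⟩ := exists_between hσ
    have c : Continuous fun x => σ * v x := by fun_prop
    have U1 := c.continuousAt.eventually_lt continuousAt_const μ1
    have U2 := ContinuousAt.eventually_lt continuousAt_const c.continuousAt μ2
    obtain ⟨m, ⟨x, a1, a2, a3, a4⟩, ⟨z, b1, b2, b3, b4⟩, z', c1, c2, c3, c4⟩ :=
      ((x3 _ U1).and (j7_two A B cu mo h h' (mem_nhdsWithin_of_mem_nhds U2)
        (mem_nhdsWithin_of_mem_nhds U2))).exists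
    exact ⟨x, z, z', ⟨a1, a2⟩, ⟨b1, b2⟩, ⟨c1, c2⟩, mul_left_cancel₀ s0 (a4.trans b4.symm),
      mul_left_cancel₀ s0 (a4.trans c4.symm), lt_trans a3 b3, lt_trans a3 c3⟩
  rcases lt_or_gt_of_ne ne with c | c
  · obtain ⟨x, z, z', a1, a2, a3, a4, a5, a6, a7⟩ := key (-1) (by linarith)
    exact Or.inr ⟨hy a l ⟨_, _, z, x, h, g, a2, a1, a4.symm, by linarith⟩,
      hy b l ⟨_, _, z', x, h', g, a3, a1, a5.symm, by linarith⟩⟩
  · obtain ⟨x, z, z', a1, a2, a3, a4, a5, a6, a7⟩ := key 1 (by linarith)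
    exact Or.inl ⟨hy l a ⟨_, _, x, z, g, h, a1, a2, a4, by linarith⟩,
      hy l b ⟨_, _, x, z', g, h', a1, a3, a5, by linarith⟩⟩

lemma j7_der {f f' : ℝ → ℝ} (h : ∀ x, HasDerivAt f (f' x) x) (p : ∀ x, f (x + 2 * π) = f x)
    (x : ℝ) : f' (x + 2 * π) = f' x := by
  have := (h (x + 2 * π)).comp_add_const x (2 * π)
  simp only [p] at this
  exact this.unique (h x)

theorem geo {u v u' v' : ℝ → ℝ} (hu : ∀ x, HasDerivAt u (u' x) x)
    (hv : ∀ x, HasDerivAt v (v' x) x)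
    (cu : Continuous u') (pu : ∀ x, u (x + 2 * π) = u x) (pv : ∀ x, v (x + 2 * π) = v x)
    (inj : ∀ x x', u x = u x' → v x = v x' → ∃ k : ℤ, x' = x + 2 * π * k)
    (fin : {x ∈ Set.Ico 0 (2 * π) | u' x = 0}.Finite) (reg : ∀ x, u' x = 0 → v' x ≠ 0) :
    ∃ (M : ℕ) (α s y : ℤ → ℝ), Pol M α ∧ (∀ k, u' (α k) = 0) ∧
      (∀ k x, α (k - 1) < x → x < α k → 0 < s k * u' x) ∧
      Pl M (Ex s) s (fun k => u (α k)) y fun k => Ex s k ∧ s k * v' (α k) < 0 := by
  classical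
  have c1 : Continuous u := continuous_iff_continuousAt.2 fun x => (hu x).continuousAt
  have c2 : Continuous v := continuous_iff_continuousAt.2 fun x => (hv x).continuousAt
  have p1 := j7_der hu pu
  have p2 := j7_der hv pv
  obtain ⟨x₀, x1, x2⟩ := exists_hasDerivAt_eq_zero two_pi_pos c1.continuousOn
    (by simpa using (pu 0).symm) fun x _ => hu x
  obtain ⟨α, A, a1, a2⟩ := enum_per fin.toFinset 0 ⟨x₀, by simp [x1.1.le, x1.2, x2]⟩
    fun x hx => by simpa using (fin.mem_toFinset.1 hx).1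
  set M := fin.toFinset.card
  have z : ∀ k, u' (α k) = 0 := fun k => by
    have := A.md k 0
    rw [add_zero, add_zero] at this
    rw [this, j7_per p1]
    exact (fin.mem_toFinset.1 (a1 _ (j1_mem A.N0 k))).2
  have nz : ∀ k x, α (k - 1) < x → x < α k → u' x ≠ 0 := fun k x h1 h2 e => by
    have d := toIcoMod_add_toIcoDiv_zsmul two_pi_pos 0 x
    rw [zsmul_eq_mul, mul_comm _ (2 * π)] at d
    obtain ⟨j, -, hj⟩ := a2 (toIcoMod two_pi_pos 0 x) (fin.mem_toFinset.2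
      ⟨by simpa using toIcoMod_mem_Ico two_pi_pos 0 x, by rw [← j7_per p1, d, e]⟩)
    rw [← hj, ← A.mul] at d
    rw [← d] at h1 h2
    have := A.tm.lt_iff_lt.1 h1
    have := A.tm.lt_iff_lt.1 h2
    omega
  set s : ℤ → ℝ := fun k => if 0 < u' ((α (k - 1) + α k) / 2) then 1 else -1 with hs
  have sgn : ∀ k, s k = 1 ∨ s k = -1 := fun k => by
    simp only [hs]
    split_ifs <;> simp
  have sg : ∀ k x, α (k - 1) < x → x < α k → 0 < s k * u' x := fun k x h1 h2 => by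
    have lt := h1.trans h2
    have m : (α (k - 1) + α k) / 2 ∈ Ioo (α (k - 1)) (α k) := ⟨by linarith, by linarith⟩
    have n : (0:ℝ) ∉ uIcc (u' x) (u' ((α (k - 1) + α k) / 2)) := fun h => by
      obtain ⟨w, w1, w2⟩ := intermediate_value_uIcc cu.continuousOn h
      have := ordConnected_Ioo.uIcc_subset (show x ∈ Ioo (α (k - 1)) (α k) from ⟨h1, h2⟩) m w1
      exact nz k w this.1 this.2 w2
    rw [mem_uIcc] at n
    simp only [hs]
    split_ifs with c
    · rw [one_mul]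
      exact not_le.1 fun d => n (Or.inl ⟨d, c.le⟩)
    · rw [neg_one_mul, neg_pos]
      exact not_le.1 fun d => n (Or.inr ⟨not_lt.1 c, d⟩)
  have ps : ∀ k, s (k + M) = s k := fun k => by
    simp only [hs]
    rw [show k + M - 1 = k - 1 + M by ring, A.tp, A.tp,
      show (α (k - 1) + 2 * π + (α k + 2 * π)) / 2 = (α (k - 1) + α k) / 2 + 2 * π by ring, p1]
  have pE : ∀ k, Ex s (k + M) = Ex s k := fun k => by
    rw [Ex, Ex, show k + M + 1 = k + 1 + M by ring, ps, ps]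
  have B : Bas M (Ex s) s := ⟨A.N0, pE, ps, sgn, fun a b h => (j7_mono A hu sg sgn h).1⟩
  have mo := fun a b h => (j7_mono A hu sg sgn (a := a) (b := b) h).2
  obtain ⟨y, py, hy⟩ := j7_y A B c1 c2 pu pv inj mo
  refine ⟨M, α, s, y, A, z, sg, B, fun j => by simp only [A.tp, pu], py,
    fun j => by simp only [pE, ps, A.tp, p2], fun j h => h.1, ?_, fun a b h => ?_,
    fun a b h => ⟨fun r => ?_, fun r => ?_⟩,
    fun a b l l' h g n1 n2 hc => j7_cov A B c1 c2 inj mo hy h g n1 n2 hc⟩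
  · by_contra hn
    push Not at hn
    have : ∀ k : ℤ, 1 ≤ k → s k = s 0 ∧ s 0 * u (α 0) < s 0 * u (α k) := by
      have st : ∀ k, s (k + 1) * u (α k) < s (k + 1) * u (α (k + 1)) := fun k =>
        have l := A.tm (lt_add_one k)
        j7_st hu sg k (left_mem_Icc.2 l.le) (right_mem_Icc.2 l.le) l
      intro k hk
      induction k, hk using Int.leInduction with
      | base =>
        have e : s 0 = s (0 + 1) := not_not.1 (hn 0)
        exact ⟨e.symm, e ▸ st 0⟩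
      | succ k hk ih =>
        have e : s k = s (k + 1) := not_not.1 (hn k)
        have := st k
        rw [← e, ih.1] at this
        exact ⟨e ▸ ih.1, ih.2.trans this⟩
    have := (this (0 + M) (by have := A.N0; omega)).2
    rw [A.tp, pu] at this
    exact lt_irrefl _ this
  · have l := A.tm h.1
    have := mo a b h (left_mem_Icc.2 l.le) (right_mem_Icc.2 l.le) l
    simp only [B.alt _ _ h] at this ⊢
    linarith
  · have := j7_lab A B c1 mo hy h (hv _) (σ := -s b)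
      (by rcases sgn b with c | c <;> simp [c]) (by linarith [r.2])
    linarith
  · exact j7_lab A B c1 mo hy h (hv _) (sgn b) (lt_of_le_of_ne
      (not_lt.1 fun c => r ⟨h.2.2.1, c⟩) (mul_ne_zero (j7_s0 B b) (reg _ (z b))).symm)

end Pool.Agent.Lib.MP_9dc04a_an
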