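import Pool.Agent.Lib.MP_9dc04a_an.O3Def

set_option autoImplicit false

namespace Pool.Agent.Lib.MP_9dc04a_an

open Finset Real

variable {N : ℕ} {E rf : ℤ → Prop} {s c y : ℤ → ℝ} {blk : ℤ → ℕ} {X P Q Y : ℤ}

lemma win_eq {a i j : ℤ} (h1 : a ≤ i) (h2 : i < a + N) (h3 : a ≤ j) (h4 : j < a + N)
    (d : (N:ℤ) ∣ i - j) : i = j := by
  have := Int.eq_zero_of_abs_lt_dvd d (abs_lt.2 ⟨by linarith, by linarith⟩)
  linarith

lemma sum_cls {M : Type} [AddCommMonoid M] (hN : 0 < N) (a P : ℤ) (x : M) :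
    ∑ j ∈ Ico a (a + N), (if (N:ℤ) ∣ j - P then x else 0) = x := by
  obtain ⟨k, k1, k2⟩ := ex_win hN P a
  rw [sum_eq_single (P + N * k), if_pos ⟨k, by ring⟩]
  · intro j hj n
    refine if_neg fun d => n (win_eq (mem_Ico.1 hj).1 (mem_Ico.1 hj).2 k1 k2 ?_)
    rwa [show j - (P + N * k) = j + N * (-k) - P by ring, dvd_sh]
  · exact fun h => absurd (mem_Ico.2 ⟨k1, k2⟩) h

section tr
variable {N' : ℕ} {E' rf' : ℤ → Prop} {s' c' : ℤ → ℝ} {g : ℤ → ℤ}

lemma per_adz (pg : ∀ j, g (j + N') = g j + N) (k j : ℤ) : g (j + N' * k) = g j + N * k := by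
  induction k using Int.induction_on with
  | zero => simp
  | succ k ih => rw [mul_add, mul_one, ← add_assoc, pg, ih]; ring
  | pred k ih =>
    have := pg (j + N' * (-k - 1))
    rw [show j + N' * (-k - 1) + N' = j + N' * (-k) by ring, ih] at this
    linarith

lemma tr_lt (gm : ∀ a b, E' a → E' b → a < b → g a < g b) {a b : ℤ} (ha : E' a) (hb : E' b)
    (h : g a < g b) : a < b := by
  rcases lt_trichotomy a b with l | l | l
  · exact l
  · rw [l] at h; exact absurd h (lt_irrefl _)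
  · exact absurd (gm b a hb ha l) (not_lt.2 h.le)

lemma tr_con (gm : ∀ a b, E' a → E' b → a < b → g a < g b) (gE : ∀ j, E' j → E (g j))
    (sur : ∀ k, E k → ∃ j, E' j ∧ g j = k) {a b : ℤ} (ha : E' a) (hb : E' b) :
    Con E' a b ↔ Con E (g a) (g b) := by
  refine ⟨fun h => ⟨gm a b ha hb h.1, gE a ha, gE b hb, fun x h1 h2 hx => ?_⟩,
    fun h => ⟨tr_lt gm ha hb h.1, ha, hb, fun x h1 h2 hx =>
      h.2.2.2 _ (gm _ _ ha hx h1) (gm _ _ hx hb h2) (gE x hx)⟩⟩
  obtain ⟨j, j1, rfl⟩ := sur x hx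
  exact h.2.2.2 j (tr_lt gm ha j1 h1) (tr_lt gm j1 hb h2) j1

lemma tr_dvd (pE : ∀ j, E' (j + N') = E' j) (pg : ∀ j, g (j + N') = g j + N)
    (gm : ∀ a b, E' a → E' b → a < b → g a < g b) {a b : ℤ} (ha : E' a) (hb : E' b)
    (d : (N:ℤ) ∣ g a - g b) : (N':ℤ) ∣ a - b := by
  obtain ⟨k, hk⟩ := d
  have e : g a = g (b + N' * k) := by rw [per_adz pg]; linarith
  have hb' : E' (b + N' * k) := by rwa [per_mul pE]
  refine ⟨k, ?_⟩
  rcases lt_trichotomy a (b + N' * k) with l | l | l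
  · exact absurd e (gm _ _ ha hb' l).ne
  · linarith
  · exact absurd e (gm _ _ hb' ha l).ne'

theorem Pl.tr (P : Pl N E s c y rf) (g : ℤ → ℤ)
    (N0 : 0 < N') (pE : ∀ j, E' (j + N') = E' j) (ps : ∀ j, s' (j + N') = s' j)
    (pc : ∀ j, c' (j + N') = c' j) (sgn : ∀ j, s' j = 1 ∨ s' j = -1)
    (pg : ∀ j, g (j + N') = g j + N) (gm : ∀ a b, E' a → E' b → a < b → g a < g b)
    (gE : ∀ j, E' j → E (g j)) (sur : ∀ k, E k → ∃ j, E' j ∧ g j = k)
    (hs : ∀ j, E' j → s' j = s (g j)) (hc : ∀ j, E' j → c' j = c (g j))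
    (hr : ∀ j, rf' j ↔ E' j ∧ rf (g j)) : Pl N' E' s' c' (fun j => y (g j)) rf' := by
  have cn : ∀ a b, Con E' a b → Con E (g a) (g b) := fun a b h =>
    (tr_con gm gE sur h.2.1 h.2.2.1).1 h
  refine ⟨⟨N0, pE, ps, sgn, fun a b h => ?_⟩, pc, fun j => by simp only [pg, P.py],
    fun j => propext (by rw [hr, hr, pE, pg, P.prf]), fun j h => ((hr j).1 h).1, ?_,
    fun a b h => ?_, fun a b h => ?_, fun a b l l' h h' n1 n2 => ?_⟩
  · rw [hs a h.2.1, hs b h.2.2.1]; exact P.alt _ _ (cn a b h)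
  · obtain ⟨k, hk⟩ := P.ex
    obtain ⟨j, hj, -⟩ := sur k hk
    exact ⟨j, hj⟩
  · rw [hs a h.2.1, hc a h.2.1, hc b h.2.2.1]; exact P.mono _ _ (cn a b h)
  · rw [hs b h.2.2.1, hr b]
    simpa [h.2.2.1] using P.lab _ _ (cn a b h)
  · rw [hs b h.2.2.1, hc b h.2.2.1, hc l h'.2.1, hc l' h'.2.2.1]
    exact P.cov _ _ _ _ (cn a b h) (cn l l' h') (fun d => n1 (tr_dvd pE pg gm h'.2.1 h.2.1 d))
      fun d => n2 (tr_dvd pE pg gm h'.2.1 h.2.2.1 d)

theorem Str.tr (S : Str N E s rf blk c) (g : ℤ → ℤ)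
    (N0 : 0 < N') (pE : ∀ j, E' (j + N') = E' j) (ps : ∀ j, s' (j + N') = s' j)
    (sgn : ∀ j, s' j = 1 ∨ s' j = -1)
    (pg : ∀ j, g (j + N') = g j + N) (gm : ∀ a b, E' a → E' b → a < b → g a < g b)
    (gE : ∀ j, E' j → E (g j)) (sur : ∀ k, E k → ∃ j, E' j ∧ g j = k)
    (hs : ∀ j, E' j → s' j = s (g j)) (hc : ∀ j, E' j → c' j = c (g j))
    (hr : ∀ j, rf' j ↔ E' j ∧ rf (g j)) : Str N' E' s' rf' (fun j => blk (g j)) c' := by
  have cn : ∀ a b, Con E' a b → Con E (g a) (g b) := fun a b h =>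
    (tr_con gm gE sur h.2.1 h.2.2.1).1 h
  refine ⟨⟨N0, pE, ps, sgn, fun a b h => ?_⟩, fun j => propext (by rw [hr, hr, pE, pg, S.prf]),
    fun j => by simp only [pg, S.pb], fun j h => ((hr j).1 h).1, fun j h => S.rb _ ((hr j).1 h).2,
    fun i j hi hj e => ?_, fun j hj n => ?_,
    fun a b c d l1 l2 l3 l4 ea eb ec ed e1 e2 => ?_, fun a b h n => ?_, fun j r hj h e => ?_⟩
  · rw [hs a h.2.1, hs b h.2.2.1]; exact S.alt _ _ (cn a b h)
  · rw [hr] at hi hj
    exact tr_dvd pE pg gm hi.1 hj.1 (S.ru _ _ hi.2 hj.2 e)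
  · obtain ⟨r, r1, r2, r3⟩ := S.hr _ (gE j hj) n
    obtain ⟨k, k1, rfl⟩ := sur r (S.rE r r1)
    exact ⟨k, (hr k).2 ⟨k1, r1⟩, r2, by rw [hs k k1, hs j hj, r3]⟩
  · exact S.nc _ _ _ _ (gm _ _ ea eb l1) (gm _ _ eb ec l2) (gm _ _ ec ed l3)
      (by rw [← pg]; exact gm _ _ ed (by rwa [pE]) l4) (gE _ ea) (gE _ eb) (gE _ ec) (gE _ ed) e1 e2
  · obtain ⟨b', a', c1, c2, c3⟩ := S.pi _ _ (cn a b h) n
    obtain ⟨i, i1, rfl⟩ := sur b' c1.2.1
    obtain ⟨j, j1, rfl⟩ := sur a' c1.2.2.1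
    exact ⟨i, j, (tr_con gm gE sur i1 j1).2 c1, c2, c3⟩
  · rw [hr] at h
    rw [hs r h.1, hc r h.1, hc j hj]
    exact S.iq _ _ (gE j hj) h.2 e

end tr

lemma del_neg : (fun j => Del N E P Q (-j)) = Del N (fun j => E (-j)) (-Q) (-P) := by
  funext j
  have a : ∀ P : ℤ, ((N:ℤ) ∣ -j - P) ↔ (N:ℤ) ∣ j - -P := fun P => by
    rw [← dvd_neg, show -(-j - P) = j - -P by ring]
  simp only [Del, a, eq_iff_iff]
  tauto

theorem Four.insert' (F : Four N E X P Q Y) (B : Bas N E s) (prf : ∀ j, rf (j + N) = rf j)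
    (rE : ∀ j, rf j → E j) (pc : ∀ j, c (j + N) = c j) (rP : rf P) (rQ : ¬rf Q)
    (hc : s X * c Q ≤ s X * c X)
    (S : Str N (Del N E P Q) s (fun j => rf j ∧ Del N E P Q j) blk c) :
    ∃ blk', Str N E s rf blk' c := by
  have F' : Four N (fun j => E (-j)) (-Y) (-Q) (-P) (-X) :=
    ⟨con_neg.2 (by simpa using F.h3), con_neg.2 (by simpa using F.h2),
      con_neg.2 (by simpa using F.h1), fun d => (F.dY B).2.1 (by
        rwa [← dvd_neg, show -(-Y - -P) = Y - P by ring] at d)⟩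
  have S' := S.neg
  have e : ∀ j, Del N E P Q (-j) = Del N (fun j => E (-j)) (-Q) (-P) j := congrFun del_neg
  simp only [e] at S'
  obtain ⟨b, hb⟩ := F'.insert (rf := fun j => rf (-j)) (c := fun j => c (-j)) B.neg (per_neg prf)
    (fun j => rE _) (per_neg pc) (by simpa using rQ) (by simpa using rP) (by simpa using hc) S'
  exact ⟨_, by simpa using hb.neg⟩

open Classical in
noncomputable def lbl (E rf : ℤ → Prop) (j : ℤ) : ℤ := if rf j then -1 else if E j then 1 else 0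

noncomputable def DD (N : ℕ) (E rf : ℤ → Prop) : ℤ := ∑ j ∈ Ico (0:ℤ) N, lbl E rf j

lemma DD_del (B : Bas N E s) (prf : ∀ j, rf (j + N) = rf j) (n : ¬(N:ℤ) ∣ P - Q)
    (rE : ∀ j, rf j → E j) :
    DD N E rf = DD N (Del N E P Q) (fun j => rf j ∧ Del N E P Q j) + lbl E rf P + lbl E rf Q := by
  have pl : ∀ j, lbl E rf (j + N) = lbl E rf j := fun j => by unfold lbl; rw [prf, B.pE]
  have a := sum_cls B.N0 0 P (lbl E rf P)
  have b := sum_cls B.N0 0 Q (lbl E rf Q)
  rw [zero_add] at a b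
  rw [← a, ← b, DD, DD, ← sum_add_distrib, ← sum_add_distrib]
  refine sum_congr rfl fun j _ => ?_
  by_cases d : (N:ℤ) ∣ j - P
  · have d' : ¬(N:ℤ) ∣ j - Q := fun d' => n (by simpa using d'.sub d)
    rw [if_pos d, if_neg d', per_dvd pl d]
    simp [lbl, Del, d]
  · by_cases d' : (N:ℤ) ∣ j - Q
    · rw [if_neg d, if_pos d', per_dvd pl d']
      simp [lbl, Del, d']
    · have := rE j
      rw [if_neg d, if_neg d']
      by_cases r : rf j
      · simp [lbl, Del, r, d, d', this r]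
      · by_cases e : E j <;> simp [lbl, Del, r, d, d', e]

lemma Pl.short (H : Pl N E s c y rf) : ∃ P Q, Con E P Q ∧
    ∀ a b, Con E a b → s P * c P - s P * c Q ≤ s a * c a - s a * c b := by
  classical
  have B := H.toBas
  have w : ∀ a b, Con E a b → ∃ k, (a + N * k, b + N * k) ∈
      {p ∈ Ico (0:ℤ) N ×ˢ Ico (0:ℤ) (2 * N) | Con E p.1 p.2} := fun a b h => by
    obtain ⟨k, k1, k2⟩ := ex_win B.N0 a 0
    have := h.le (x := a + N) (by rw [B.pE]; exact h.2.1) (by have := B.N0; omega)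
    refine ⟨k, mem_filter.2 ⟨mem_product.2 ⟨mem_Ico.2 ⟨k1, by simpa using k2⟩,
      mem_Ico.2 ⟨?_, ?_⟩⟩, B.shift h k⟩⟩ <;> simp only <;> linarith [h.1]
  obtain ⟨a, ha⟩ := H.ex
  obtain ⟨b, hb⟩ := B.next ha
  obtain ⟨k, hk⟩ := w a b hb
  obtain ⟨p, p1, p2⟩ := exists_min_image _ (fun p : ℤ × ℤ => s p.1 * c p.1 - s p.1 * c p.2) ⟨_, hk⟩
  refine ⟨p.1, p.2, (mem_filter.1 p1).2, fun a b h => ?_⟩
  obtain ⟨k, hk⟩ := w a b h
  simpa only [per_mul B.ps, per_mul H.pc] using p2 _ hk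

open Classical in
noncomputable def sd (u : Prop) (v : ℝ) : ℝ := if u then exp v else -exp (-v)

lemma sd_pos {u : Prop} {v : ℝ} (h : u) : 0 < sd u v := by rw [sd, if_pos h]; exact exp_pos _
lemma sd_neg {u : Prop} {v : ℝ} (h : ¬u) : sd u v < 0 := by
  rw [sd, if_neg h]; exact neg_lt_zero.2 (exp_pos _)
lemma sd_lt {u u' : Prop} {v w : ℝ} (h : v < w) (i : u → u') : sd u v < sd u' w := by
  by_cases a : u'
  · by_cases b : u
    · rw [sd, sd, if_pos a, if_pos b]; exact exp_lt_exp.2 h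
    · exact (sd_neg b).trans (sd_pos a)
  · rw [sd, sd, if_neg a, if_neg fun b => a (i b)]
    exact neg_lt_neg (exp_lt_exp.2 (neg_lt_neg h))

lemma Pl.shape (H : Pl N E s c y rf) (F : Four N E X P Q Y) (hX : s X * c Q ≤ s X * c X)
    (hY : s X * c Y ≤ s X * c P) : (y X < y P ∧ y P < y Q) ∨ (y Q < y P ∧ y P < y X) := by
  have B := H.toBas
  have sP := B.alt _ _ F.h1
  have sQ : s Q = s X := by linarith [B.alt _ _ F.h2]
  have m := H.mono _ _ F.h2
  rw [sP] at m
  have a := H.cov X P Q Y F.h1 F.h3 (fun d => F.ne (dvd_sub_comm.1 d)) (B.nd (by rw [sQ, sP, neg_neg]))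
    (Or.inl (by rw [sP]; constructor <;> linarith))
  have b := H.cov P Q X P F.h2 F.h1 (F.dX B).2.1 F.ne (Or.inr (by rw [sQ]; constructor <;> linarith))
  rcases a with a | a <;> rcases b with b | b
  · linarith [a.1, b.2]
  · exact Or.inr ⟨a.2, b.1⟩
  · exact Or.inl ⟨b.1, a.2⟩
  · linarith [a.1, b.2]

theorem Pl.del (H : Pl N E s c y rf) (F : Four N E X P Q Y)
    (sh : ∀ a b, Con E a b → s P * c P - s P * c Q ≤ s a * c a - s a * c b) :
    ∃ y', Pl N (Del N E P Q) s c y' fun j => rf j ∧ Del N E P Q j := by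
  classical
  have B := H.toBas
  have sP := B.alt _ _ F.h1
  have sQ : s Q = s X := by linarith [B.alt _ _ F.h2]
  have sY : s Y = -s X := by linarith [B.alt _ _ F.h3]
  have m := H.mono _ _ F.h2
  have hX := sh _ _ F.h1
  have hY := sh _ _ F.h3
  rw [sP] at m hX hY sh
  rw [sQ] at hY
  have shp := H.shape F (by linarith) (by linarith)
  have sg : ∀ b, s b = s X ∨ s b = -s X := fun b => by
    rcases B.sgn b with a | a <;> rcases B.sgn X with a' | a' <;> simp [a, a']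
  set A : ℤ → Prop := fun j => ∃ b, Con E j b ∧ (s X * c Q ≤ s X * c j ∨ s X * c Q ≤ s X * c b)
    with hA
  set up : ℤ → Prop := fun j => if A j then y X < y j else y Q < y j with hup
  set y' : ℤ → ℝ := fun j => if (N:ℤ) ∣ j - X then 0 else sd (up j) (y j) with hy'
  have pA : ∀ j, A (j + N) = A j := fun j => propext ⟨fun ⟨b, h1, h2⟩ =>
    ⟨b + N * (-1), by simpa using B.shift h1 (-1), by rwa [per_mul H.pc, ← H.pc j]⟩,
    fun ⟨b, h1, h2⟩ => ⟨b + N, by simpa using B.shift h1 1, by rwa [H.pc, H.pc]⟩⟩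
  have y0 : ∀ j, (N:ℤ) ∣ j - X → y' j = 0 := fun j h => if_pos h
  have y1 : ∀ j, ¬(N:ℤ) ∣ j - X → y' j = sd (up j) (y j) := fun j h => if_neg h
  have hi : ∀ a b, Con E a b → s X * c Q ≤ s X * c a ∨ s X * c Q ≤ s X * c b →
      (up a ↔ y X < y a) := fun a b h h' => by
    simp only [hup]; rw [if_pos ⟨b, h, h'⟩]
  have lo : ∀ a b, Con E a b → Del N E P Q a → ¬(N:ℤ) ∣ a - X →
      s X * c a ≤ s X * c P ∨ s X * c b ≤ s X * c P → (up a ↔ y Q < y a) := fun a b h d n h' => by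
    by_cases x : s X * c Q ≤ s X * c a ∨ s X * c Q ≤ s X * c b
    · rw [hi a b h x]
      have mm := H.mono _ _ h
      have c1 := H.cov X P a b F.h1 h n d.2.1 (by
        rw [sP]
        rcases sg a with e | e <;> rw [e] at mm <;> rcases x with x | x <;> rcases h' with h' | h' <;>
          first | exact Or.inl ⟨by linarith, by linarith⟩ | exact Or.inr ⟨by linarith, by linarith⟩)
      have c2 := H.cov P Q a b F.h2 h d.2.1 d.2.2 (by
        rw [sQ]
        rcases sg a with e | e <;> rw [e] at mm <;> rcases x with x | x <;> rcases h' with h' | h' <;>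
          first | exact Or.inl ⟨by linarith, by linarith⟩ | exact Or.inr ⟨by linarith, by linarith⟩)
      rcases c1 with c1 | c1 <;> rcases c2 with c2 | c2 <;>
        constructor <;> intro _ <;> linarith [c1.1, c1.2, c2.1, c2.2]
    · simp only [hup]
      rw [if_neg fun ⟨b', h1, h2⟩ => x (h1.uniq h ▸ h2)]
  have old : ∀ a b, Con (Del N E P Q) a b → ¬(N:ℤ) ∣ a - X → Con E a b := fun a b h n =>
    (F.cases B h).resolve_right fun ⟨k, e, _⟩ => n ⟨k, by linarith⟩
  have new : ∀ a b, Con (Del N E P Q) a b → (N:ℤ) ∣ a - X → ∃ k, a = X + N * k ∧ b = Y + N * k :=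
    fun a b h ⟨k, hk⟩ => ⟨k, by linarith, by
      have := (F.bas B).shift (F.cXY B) k
      rw [show X + N * k = a by linarith] at this
      exact h.uniq this⟩
  have nXY : ∀ k, ¬(N:ℤ) ∣ Y + N * k - X := fun k => by rw [dvd_sh]; exact B.nd sY
  have upY : ∀ k, up (Y + N * k) ↔ y Q < y (Y + N * k) := fun k => by
    obtain ⟨z, hz⟩ := B.next (F.sh B k).h3.2.2.1
    exact lo _ z hz (by rw [per_mul (B.pD P Q)]; exact F.dY B) (nXY k)
      (Or.inl (by rw [per_mul H.pc]; linarith))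
  -- thresholds at an old connector
  have thr : ∀ a b, Con E a b → Del N E P Q a → Del N E P Q b → ¬(N:ℤ) ∣ a - X → ¬(N:ℤ) ∣ b - X →
      ∃ T, (up a ↔ T < y a) ∧ (up b ↔ T < y b) ∧
        (s b * c X < s b * c b ∧ s b * c b ≤ s b * c Y ∨ s b * c Y < s b * c b ∧ s b * c b ≤ s b * c X →
          (up a ↔ up b)) ∧
        ∀ l l', Con E l l' → Del N E P Q l → ¬(N:ℤ) ∣ l - X →
          (s b * c l < s b * c b ∧ s b * c b ≤ s b * c l' ∨ s b * c l' < s b * c b ∧ s b * c b ≤ s b * c l) →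
          (up l ↔ T < y l) ∨ (up a ↔ up b) := by
    intro a b h da db na nb
    obtain ⟨z, hz⟩ := B.next h.2.2.1
    have m1 := H.mono _ _ h
    have m2 := H.mono _ _ hz
    have s1 := sh _ _ h
    have s2 := sh _ _ hz
    have sa : s a = -s b := by linarith [B.alt _ _ h]
    rw [sa] at m1 s1
    have cL := H.cov a b X P h F.h1 (fun d => na (dvd_sub_comm.1 d)) fun d => nb (dvd_sub_comm.1 d)
    have cR := H.cov a b Q Y h F.h3 (fun d => da.2.2 (dvd_sub_comm.1 d))
      fun d => db.2.2 (dvd_sub_comm.1 d)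
    have fin : ∀ T, (up a ↔ T < y a) → (up b ↔ T < y b) →
        (T < y a ∧ T < y b ∨ y a < T ∧ y b < T) → (up a ↔ up b) := fun T u1 u2 u3 => by
      rw [u1, u2]
      rcases u3 with u | u <;> constructor <;> intro _ <;> linarith [u.1, u.2]
    rcases sg b with e | e <;> rw [e] at m1 m2 s1 s2 cL cR ⊢
    · by_cases x : s X * c Q ≤ s X * c b
      · have u1 := hi a b h (Or.inr x)
        have u2 := hi b z hz (Or.inl x)
        refine ⟨y X, u1, u2, fun k => fin _ u1 u2 (cL (Or.inr ?_)), fun l l' k _ _ k' =>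
          Or.inl (hi l l' k ?_)⟩
        · rcases k with k | k <;> constructor <;> linarith [k.1, k.2]
        · rcases k' with k | k
          · exact Or.inr (by linarith [k.2])
          · exact Or.inl (by linarith [k.2])
      · have u1 := lo a b h da na (Or.inl (by linarith))
        have u2 := lo b z hz db nb (Or.inr (by linarith))
        have u3 : s X * c Y < s X * c b → (up a ↔ up b) := fun k =>
          fin _ u1 u2 (cR (Or.inr ⟨k, by linarith⟩))
        refine ⟨y Q, u1, u2, fun k => u3 ?_, fun l l' k dl nl k' => ?_⟩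
        · rcases k with k | k <;> linarith [k.1, k.2]
        · by_cases x' : s X * c l ≤ s X * c P ∨ s X * c l' ≤ s X * c P
          · exact Or.inl (lo l l' k dl nl x')
          · push Not at x'
            refine Or.inr (u3 ?_)
            rcases k' with k | k <;> linarith [k.1, x'.1, x'.2]
    · by_cases x : s X * c b ≤ s X * c P
      · have u1 := lo a b h da na (Or.inr x)
        have u2 := lo b z hz db nb (Or.inl x)
        refine ⟨y Q, u1, u2, fun k => fin _ u1 u2 (cR (Or.inl ?_)), fun l l' k dl nl k' =>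
          Or.inl (lo l l' k dl nl ?_)⟩
        · rcases k with k | k <;> constructor <;> linarith [k.1, k.2]
        · rcases k' with k | k
          · exact Or.inr (by linarith [k.2])
          · exact Or.inl (by linarith [k.2])
      · have u1 := hi a b h (Or.inl (by linarith))
        have u2 := hi b z hz (Or.inr (by linarith))
        have u3 : s X * c b < s X * c X → (up a ↔ up b) := fun k =>
          fin _ u1 u2 (cL (Or.inl ⟨by linarith, by linarith⟩))
        refine ⟨y X, u1, u2, fun k => u3 ?_, fun l l' k dl nl k' => ?_⟩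
        · rcases k with k | k <;> linarith [k.1, k.2]
        · by_cases x' : s X * c Q ≤ s X * c l ∨ s X * c Q ≤ s X * c l'
          · exact Or.inl (hi l l' k x')
          · push Not at x'
            refine Or.inr (u3 ?_)
            rcases k' with k | k <;> linarith [k.1, x'.1, x'.2]
  have same : ∀ (T : ℝ) (i j : ℤ), (up i ↔ T < y i) → (up j ↔ T < y j) → y i < y j →
      sd (up i) (y i) < sd (up j) (y j) := fun T i j u1 u2 l =>
    sd_lt l fun k => u2.2 ((u1.1 k).trans l)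
  have ord : ∀ a b, Con (Del N E P Q) a b →
      ∃ a', Con E a' b ∧ (y a' < y b → y' a < y' b) ∧ (y b < y a' → y' b < y' a) := by
    intro a b h
    by_cases na : (N:ℤ) ∣ a - X
    · obtain ⟨k, rfl, rfl⟩ := new a b h na
      refine ⟨_, (F.sh B k).h3, ?_⟩
      rw [y0 _ na, y1 _ (nXY k), per_mul H.py k Q]
      exact ⟨fun l => sd_pos ((upY k).2 l), fun l => sd_neg fun u => absurd ((upY k).1 u) l.not_gt⟩
    have h' := old a b h na
    refine ⟨a, h', ?_⟩
    by_cases nb : (N:ℤ) ∣ b - X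
    · have u := hi a b h' (Or.inr (by rw [per_dvd H.pc nb]; linarith))
      rw [y0 _ nb, y1 _ na, per_dvd H.py nb]
      exact ⟨fun l => sd_neg fun k => absurd (u.1 k) l.not_gt, fun l => sd_pos (u.2 l)⟩
    · obtain ⟨T, u1, u2, -⟩ := thr a b h' h.2.1 h.2.2.1 na nb
      rw [y1 _ na, y1 _ nb]
      exact ⟨same T _ _ u1 u2, same T _ _ u2 u1⟩
  refine ⟨y', F.bas B, H.pc, fun j => ?_, fun j => by rw [H.prf, B.pD], fun j h => h.2,
    ⟨X, F.dX B⟩, fun a b h => ?_, fun a b h => ?_, fun a b l l' h h' n1 n2 cv => ?_⟩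
  · simp only [hy', hup, dvd_sh', pA, H.py]
  · rcases F.cases B h with h | ⟨k, rfl, rfl⟩
    · exact H.mono _ _ h
    · rw [per_mul B.ps, per_mul H.pc, per_mul H.pc]; linarith
  · obtain ⟨a', c1, c2, c3⟩ := ord a b h
    have := H.lab _ _ c1
    simp only [h.2.2.1, and_true]
    rcases B.sgn b with e | e <;> rw [e] at this ⊢ <;> refine ⟨fun r => ?_, fun r => ?_⟩
    · linarith [c3 (by linarith [this.1 r])]
    · linarith [c2 (by linarith [this.2 r])]
    · linarith [c2 (by linarith [this.1 r])]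
    · linarith [c3 (by linarith [this.2 r])]
  · by_cases nl : (N:ℤ) ∣ l - X
    · have na : ¬(N:ℤ) ∣ a - X := fun d => n1 (by simpa using nl.sub d)
      have nb : ¬(N:ℤ) ∣ b - X := fun d => n2 (by simpa using nl.sub d)
      obtain ⟨k, rfl, rfl⟩ := new l l' h' nl
      obtain ⟨T, -, -, u, -⟩ := thr a b (old a b h na) h.2.1 h.2.2.1 na nb
      rw [per_mul H.pc, per_mul H.pc] at cv
      rw [y0 _ nl, y1 _ na, y1 _ nb]
      by_cases x : up a
      · exact Or.inl ⟨sd_pos x, sd_pos ((u cv).1 x)⟩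
      · exact Or.inr ⟨sd_neg x, sd_neg fun x' => x ((u cv).2 x')⟩
    have k := old l l' h' nl
    rw [y1 _ nl]
    by_cases na : (N:ℤ) ∣ a - X
    · obtain ⟨j, rfl, rfl⟩ := new a b h na
      have c1 := H.cov _ _ l l' (F.sh B j).h3 k
        (fun d => h'.2.1.2.2 (by rwa [show l - (Q + N * j) = l + N * (-j) - Q by ring, dvd_sh] at d))
        n2 cv
      rw [per_mul B.ps, per_mul H.pc, sY] at cv
      have u := lo l l' k h'.2.1 nl (by
        rcases cv with x | x
        · exact Or.inr (by linarith [x.2])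
        · exact Or.inl (by linarith [x.2]))
      rw [y0 _ na, y1 _ (nXY j)]
      rw [per_mul H.py j Q] at c1
      exact c1.imp (fun x => ⟨sd_neg fun z => absurd (u.1 z) x.1.not_gt, same _ _ _ u (upY j) x.2⟩)
        fun x => ⟨sd_pos (u.2 x.1), same _ _ _ (upY j) u x.2⟩
    have k' := old a b h na
    have c1 := H.cov a b l l' k' k n1 n2 cv
    rw [y1 _ na]
    by_cases nb : (N:ℤ) ∣ b - X
    · rw [per_dvd B.ps nb, per_dvd H.pc nb] at cv
      have u := hi l l' k (by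
        rcases cv with x | x
        · exact Or.inr (by linarith [x.2])
        · exact Or.inl (by linarith [x.2]))
      have u' := hi a b k' (Or.inr (by rw [per_dvd H.pc nb]; linarith))
      rw [y0 _ nb]
      rw [per_dvd H.py nb] at c1
      exact c1.imp (fun x => ⟨same _ _ _ u u' x.1, sd_neg fun z => absurd (u.1 z) x.2.not_gt⟩)
        fun x => ⟨same _ _ _ u' u x.1, sd_pos (u.2 x.2)⟩
    obtain ⟨T, u1, u2, -, u⟩ := thr a b k' h.2.1 h.2.2.1 na nb
    rw [y1 _ nb]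
    rcases u l l' k h'.2.1 nl cv with u | u
    · exact c1.imp (fun x => ⟨same _ _ _ u u1 x.1, same _ _ _ u u2 x.2⟩)
        fun x => ⟨same _ _ _ u1 u x.1, same _ _ _ u2 u x.2⟩
    · by_cases x1 : up l <;> by_cases x2 : up a
      · exact c1.imp (fun x => ⟨sd_lt x.1 fun _ => x2, sd_lt x.2 fun _ => u.1 x2⟩)
          fun x => ⟨sd_lt x.1 fun _ => x1, sd_lt x.2 fun _ => x1⟩
      · exact Or.inr ⟨(sd_neg x2).trans (sd_pos x1), (sd_neg fun z => x2 (u.2 z)).trans (sd_pos x1)⟩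
      · exact Or.inl ⟨(sd_neg x1).trans (sd_pos x2), (sd_neg x1).trans (sd_pos (u.1 x2))⟩
      · exact c1.imp (fun x => ⟨sd_lt x.1 fun z => absurd z x1, sd_lt x.2 fun z => absurd z x1⟩)
          fun x => ⟨sd_lt x.1 fun z => absurd z x2, sd_lt x.2 fun z => absurd (u.2 z) x2⟩

theorem Pl.str (H : Pl N E s c y rf) :
    DD N E rf = -2 ∨ (DD N E rf = 2 ∧ ∃ blk, Str N E s rf blk c) := by
  classical
  induction' hn : #{j ∈ Ico (0:ℤ) N | E j} using Nat.strong_induction_on with n ih generalizing E y rf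
  have B := H.toBas
  obtain ⟨P, Q, h2, sh⟩ := H.short
  obtain ⟨X, h1⟩ := B.prev h2.2.1
  obtain ⟨Y, h3⟩ := B.next h2.2.2.1
  have sP := B.alt _ _ h1
  have sQ : s Q = s X := by linarith [B.alt _ _ h2]
  have sY : s Y = -s X := by linarith [B.alt _ _ h3]
  have PQ : ¬(N:ℤ) ∣ P - Q := B.nd (by rw [sQ, sP])
  have dd := DD_del (P := P) (Q := Q) B H.prf PQ H.rE
  have l1 := H.lab _ _ h1
  have l2 := H.lab _ _ h2
  rw [sP] at l1
  rw [sQ] at l2
  have lP : lbl E rf P = if rf P then -1 else 1 := by simp [lbl, h2.2.1]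
  have lQ : lbl E rf Q = if rf Q then -1 else 1 := by simp [lbl, h2.2.2.1]
  by_cases ne : (N:ℤ) ∣ X - Q
  · have em : ∀ j, ¬Del N E P Q j := fun j d => by
      obtain ⟨k, k1, k2⟩ := ex_win B.N0 j X
      have d' : Del N E P Q (j + N * k) := by rwa [per_mul (B.pD P Q)]
      have a : X < j + N * k := lt_of_le_of_ne k1 fun e => d'.2.2 (e ▸ ne)
      have b := lt_of_le_of_ne (h1.le d'.1 a) fun e => d'.2.1 (by rw [← e]; simp)
      have c := lt_of_le_of_ne (h2.le d'.1 b) fun e => d'.2.2 (by rw [← e]; simp)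
      have := Int.le_of_dvd (by linarith [h1.1, h2.1] : 0 < Q - X) (dvd_sub_comm.1 ne)
      linarith
    have z : DD N (Del N E P Q) (fun j => rf j ∧ Del N E P Q j) = 0 :=
      sum_eq_zero fun j _ => by simp [lbl, em j]
    rw [per_dvd H.py ne] at l1
    rw [dd, z, lP, lQ]
    by_cases r1 : rf P <;> by_cases r2 : rf Q
    · simp [r1, r2]
    · linarith [l1.1 r1, l2.2 r2]
    · linarith [l1.2 r1, l2.1 r2]
    · have nr : ∀ j, ¬rf j := fun j r => by
        have := em j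
        simp only [Del, H.rE j r, true_and, not_and_or, not_not] at this
        rcases this with d | d
        · exact r1 (per_dvd H.prf d ▸ r)
        · exact r2 (per_dvd H.prf d ▸ r)
      refine Or.inr ⟨by simp [r1, r2], fun _ => 0, B, H.prf, fun _ => rfl, H.rE,
        fun j r => absurd r (nr j), fun j _ r => absurd r (nr j), fun _ _ h => absurd rfl h,
        fun _ _ _ _ _ _ _ _ _ _ _ _ _ _ => rfl, fun _ _ _ h => absurd ⟨rfl, rfl⟩ h,
        fun _ j _ r => absurd r (nr j)⟩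
  have F : Four N E X P Q Y := ⟨h1, h2, h3, ne⟩
  obtain ⟨y', H'⟩ := H.del F sh
  have hX := sh _ _ h1
  have hY := sh _ _ h3
  rw [sP] at hX hY
  rw [sQ] at hY
  have shp := H.shape F (by linarith) (by linarith)
  have opp : (rf P ∧ ¬rf Q) ∨ (¬rf P ∧ rf Q) := by
    by_cases r1 : rf P <;> by_cases r2 : rf Q
    · have a := l1.1 r1
      have b := l2.1 r2
      rcases B.sgn X with e | e <;> rw [e] at a b <;> rcases shp with x | x <;> linarith [x.1, x.2]
    · exact Or.inl ⟨r1, r2⟩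
    · exact Or.inr ⟨r1, r2⟩
    · have a := l1.2 r1
      have b := l2.2 r2
      rcases B.sgn X with e | e <;> rw [e] at a b <;> rcases shp with x | x <;> linarith [x.1, x.2]
  have e : DD N E rf = DD N (Del N E P Q) fun j => rf j ∧ Del N E P Q j := by
    rw [dd, lP, lQ]
    rcases opp with x | x <;> simp [x.1, x.2]
  have lt : #{j ∈ Ico (0:ℤ) N | Del N E P Q j} < n := by
    rw [← hn]
    obtain ⟨k, k1, k2⟩ := ex_win B.N0 P 0
    refine card_lt_card ⟨fun j hj => mem_filter.2 ⟨(mem_filter.1 hj).1, (mem_filter.1 hj).2.1⟩,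
      fun h => (mem_filter.1 (@h (P + N * k) (mem_filter.2
        ⟨mem_Ico.2 ⟨k1, by simpa using k2⟩, ?_⟩))).2.2.1 ⟨k, by ring⟩⟩
    rw [per_mul B.pE]; exact h2.2.1
  rw [e]
  refine (ih _ lt H' (by congr)).imp id fun ⟨a, b, S⟩ => ⟨a, ?_⟩
  rcases opp with x | x
  · exact F.insert' B H.prf H.rE H.pc x.1 x.2 (by linarith) S
  · exact F.insert B H.prf H.rE H.pc x.1 x.2 (by rw [sY]; linarith) S

end Pool.Agent.Lib.MP_9dc04a_an
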