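import Pool.Agent.Lib.MP_9dc04a_an.O3Fac
import Pool.Agent.Lib.MP_9dc04a_an.O3Pl

set_option autoImplicit false

namespace Pool.Agent.Lib.MP_9dc04a_an

open Real Filter Topology Set

lemma j7_ord {ι : Type} (lo hi : ι → ℝ) (f : ι → ℝ → ℝ) (R : ι → ι → Prop) (S : Finset ι)
    (h0 : ∀ i ∈ S, lo i < hi i)
    (h1 : ∀ i ∈ S, ∀ j ∈ S, R i j → lo i < hi j ∧ lo j < hi i ∧
      ∀ x, lo i < x → x < hi i → lo j < x → x < hi j → f i x < f j x)
    (h2 : ∀ i ∈ S, ∀ j ∈ S, ∀ x, lo i < x → x < hi i → lo j < x → x < hi j → f i x < f j x →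
      R i j) : ∃ y : ι → ℝ, ∀ i ∈ S, ∀ j ∈ S, R i j → y i < y j := by
  classical
  induction S using Finset.induction_on_min_value hi with
  | empty => exact ⟨0, by simp⟩
  | insert a S ha hm ih =>
    have m := @Finset.mem_insert_of_mem _ _ S
    have ma := Finset.mem_insert_self a S
    obtain ⟨y, hy⟩ := ih (fun i h => h0 i (m h)) (fun i h j h' => h1 i (m h) j (m h'))
      fun i h j h' => h2 i (m h) j (m h')
    obtain ⟨z, z1, z2⟩ := Finset.exists_between' ((S.filter fun p => R p a).image y)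
      ((S.filter fun q => R a q).image y) fun _ hp' _ hq' => by
        obtain ⟨p, hp, rfl⟩ := Finset.mem_image.1 hp'
        obtain ⟨q, hq, rfl⟩ := Finset.mem_image.1 hq'
        obtain ⟨p1, p2⟩ := Finset.mem_filter.1 hp
        obtain ⟨q1, q2⟩ := Finset.mem_filter.1 hq
        obtain ⟨a1, -, a3⟩ := h1 p (m p1) a ma p2
        obtain ⟨-, b2, b3⟩ := h1 a ma q (m q1) q2
        obtain ⟨x, x1, x2⟩ := exists_between (max_lt (h0 a ma) (max_lt a1 b2))
        simp only [max_lt_iff] at x1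
        have c1 := x2.trans_le (hm p p1)
        have c2 := x2.trans_le (hm q q1)
        exact hy p p1 q q1 (h2 p (m p1) q (m q1) x x1.2.1 c1 x1.2.2 c2
          ((a3 x x1.2.1 c1 x1.1 x2).trans (b3 x x1.1 x2 x1.2.2 c2)))
    have ne : ∀ i ∈ S, i ≠ a := fun i h e => ha (e ▸ h)
    refine ⟨Function.update y a z, fun i h j h' r => ?_⟩
    rcases Finset.mem_insert.1 h with rfl | hi' <;> rcases Finset.mem_insert.1 h' with e | hj
    · subst e
      obtain ⟨x, x1, x2⟩ := exists_between (h0 j ma)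
      exact absurd ((h1 j ma j ma r).2.2 x x1 x2 x1 x2) (lt_irrefl _)
    · rw [Function.update_self, Function.update_of_ne (ne j hj)]
      exact z2 _ (Finset.mem_image_of_mem y (Finset.mem_filter.2 ⟨hj, r⟩))
    · subst e
      rw [Function.update_self, Function.update_of_ne (ne i hi')]
      exact z1 _ (Finset.mem_image_of_mem y (Finset.mem_filter.2 ⟨hi', r⟩))
    · rw [Function.update_of_ne (ne i hi'), Function.update_of_ne (ne j hj)]
      exact hy i hi' j hj r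

lemma j7_meet {u v : ℝ → ℝ} (cu : Continuous u) (cv : Continuous v) {p₁ p₂ q₁ q₂ : ℝ}
    (hm : ∀ x ∈ uIcc p₁ p₂, u x ∈ uIcc (u p₁) (u p₂)) (hi : InjOn u (uIcc q₁ q₂))
    (e₁ : u p₁ = u q₁) (e₂ : u p₂ = u q₂) (l₁ : v p₁ ≤ v q₁) (l₂ : v q₂ ≤ v p₂) :
    ∃ z ∈ uIcc p₁ p₂, ∃ z' ∈ uIcc q₁ q₂, u z = u z' ∧ v z = v z' := by
  have cl : ∀ σ : ℝ, IsClosed (Prod.fst '' ((uIcc p₁ p₂ ×ˢ uIcc q₁ q₂) ∩
      {z : ℝ × ℝ | u z.1 = u z.2 ∧ σ * v z.1 ≤ σ * v z.2})) := fun σ =>
    (((isCompact_uIcc.prod isCompact_uIcc).inter_right ((isClosed_eq (cu.comp continuous_fst)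
      (cu.comp continuous_snd)).inter (isClosed_le (continuous_const.mul (cv.comp continuous_fst))
      (continuous_const.mul (cv.comp continuous_snd))))).image continuous_fst).isClosed
  obtain ⟨z, z1, ⟨a, ⟨a1, a2, a3⟩, a4⟩, b, ⟨b1, b2, b3⟩, b4⟩ :=
    isPreconnected_closed_iff.1 (isPreconnected_uIcc (a := p₁) (b := p₂)) _ _ (cl 1) (cl (-1))
      (fun x hx => by
        obtain ⟨x', x1, x2⟩ := intermediate_value_uIcc (a := q₁) (b := q₂) cu.continuousOn
          (e₁ ▸ e₂ ▸ hm x hx)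
        rcases le_total (v x) (v x') with h | h
        · exact Or.inl ⟨(x, x'), ⟨⟨hx, x1⟩, x2.symm, by simpa using h⟩, rfl⟩
        · exact Or.inr ⟨(x, x'), ⟨⟨hx, x1⟩, x2.symm, by simpa using h⟩, rfl⟩)
      ⟨p₁, left_mem_uIcc, (p₁, q₁), ⟨⟨left_mem_uIcc, left_mem_uIcc⟩, e₁, by simpa using l₁⟩, rfl⟩
      ⟨p₂, right_mem_uIcc, (p₂, q₂), ⟨⟨right_mem_uIcc, right_mem_uIcc⟩, e₂, by simpa using l₂⟩,
        rfl⟩
  have e : a.2 = b.2 := hi a1.2 b1.2 (by rw [← a2, ← b2, a4, b4])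
  rw [a4] at a2 a3
  rw [b4, ← e] at b3
  exact ⟨z, z1, a.2, a1.2, a2, by linarith⟩

lemma j7_nearL {w : ℝ → ℝ} (cw : Continuous w) {p q : ℝ} (h : p < q)
    (hw : ∀ x, p < x → x < q → w x < w q) {U : Set ℝ} (hU : U ∈ 𝓝[<] q) :
    ∀ᶠ m in 𝓝[<] w q, ∃ x, p < x ∧ x < q ∧ x ∈ U ∧ w x = m := by
  obtain ⟨l, l1, l2⟩ := mem_nhdsLT_iff_exists_Ioo_subset.1 (inter_mem hU (Ioo_mem_nhdsLT h))
  obtain ⟨x, x1, x2⟩ := exists_between (show l < q from l1)
  have := l2 ⟨x1, x2⟩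
  filter_upwards [Ioo_mem_nhdsLT (hw x this.2.1 x2)] with m hm
  obtain ⟨z, z1, z2⟩ := intermediate_value_Ioo x2.le cw.continuousOn hm
  have := l2 ⟨x1.trans z1.1, z1.2⟩
  exact ⟨z, this.2.1, z1.2, this.1, z2⟩

lemma j7_nearR {w : ℝ → ℝ} (cw : Continuous w) {p q : ℝ} (h : q < p)
    (hw : ∀ x, q < x → x < p → w x < w q) {U : Set ℝ} (hU : U ∈ 𝓝[>] q) :
    ∀ᶠ m in 𝓝[<] w q, ∃ x, q < x ∧ x < p ∧ x ∈ U ∧ w x = m := by
  obtain ⟨l, l1, l2⟩ := mem_nhdsGT_iff_exists_Ioo_subset.1 (inter_mem hU (Ioo_mem_nhdsGT h))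
  obtain ⟨x, x1, x2⟩ := exists_between (show q < l from l1)
  have := l2 ⟨x1, x2⟩
  filter_upwards [Ioo_mem_nhdsLT (hw x x1 this.2.2)] with m hm
  obtain ⟨z, z1, z2⟩ := intermediate_value_Ioo' x1.le cw.continuousOn hm
  have := l2 ⟨z1.1, z1.2.trans x2⟩
  exact ⟨z, z1.1, this.2.2, this.1, z2⟩

variable {M : ℕ} {α s : ℤ → ℝ} {u v u' : ℝ → ℝ}

lemma j7_st (hu : ∀ x, HasDerivAt u (u' x) x)
    (sg : ∀ k x, α (k - 1) < x → x < α k → 0 < s k * u' x) (k : ℤ) :
    StrictMonoOn (fun x => s (k + 1) * u x) (Icc (α k) (α (k + 1))) :=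
  strictMonoOn_of_deriv_pos (convex_Icc _ _)
    (fun x _ => ((hu x).const_mul _).continuousAt.continuousWithinAt) fun x hx => by
      rw [interior_Icc] at hx
      rw [((hu x).const_mul _).deriv]
      exact sg _ _ (by simpa using hx.1) hx.2

lemma j7_mono (A : Pol M α) (hu : ∀ x, HasDerivAt u (u' x) x)
    (sg : ∀ k x, α (k - 1) < x → x < α k → 0 < s k * u' x) (sgn : ∀ j, s j = 1 ∨ s j = -1)
    {a b : ℤ} (h : Con (Ex s) a b) :
    s b = -s a ∧ StrictMonoOn (fun x => s b * u x) (Icc (α a) (α b)) := by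
  have st := j7_st hu sg
  have : ∀ k, a + 1 ≤ k → k ≤ b →
      s k = -s a ∧ StrictMonoOn (fun x => s k * u x) (Icc (α a) (α k)) := by
    intro k hk
    induction k, hk using Int.leInduction with
    | base =>
      refine fun _ => ⟨?_, st a⟩
      have := h.2.1
      rcases sgn a with c | c <;> rcases sgn (a + 1) with d | d <;> simp_all [Ex]
    | succ k hk ih =>
      intro hb
      obtain ⟨i1, i2⟩ := ih (by omega)
      have e : s k = s (k + 1) := not_not.1 (h.2.2.2 k (by omega) (by omega))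
      have l1 := A.tm.monotone (show a ≤ k by omega)
      have l2 := A.tm.monotone (show k ≤ k + 1 by omega)
      refine ⟨e ▸ i1, ?_⟩
      rw [← Icc_union_Icc_eq_Icc l1 l2]
      exact (e ▸ i2).union (st k) (isGreatest_Icc l1) (isLeast_Icc l2)
  exact this b h.1 le_rfl

/-- chain `i` passes below chain `j` -/
def j7_R (α s : ℤ → ℝ) (u v : ℝ → ℝ) (i j : ℤ) : Prop :=
  ∃ i' j' x x', Con (Ex s) i i' ∧ Con (Ex s) j j' ∧ x ∈ Ioo (α i) (α i') ∧ x' ∈ Ioo (α j) (α j') ∧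
    u x = u x' ∧ v x < v x'

lemma j7_per {f : ℝ → ℝ} (h : ∀ x, f (x + 2 * π) = f x) (x : ℝ) (k : ℤ) :
    f (x + 2 * π * k) = f x := by
  have : Function.Periodic f (2 * π) := h
  simpa [mul_comm] using this.int_mul k x

lemma j7_y (A : Pol M α) (B : Bas M (Ex s) s) (cu : Continuous u) (cv : Continuous v)
    (pu : ∀ x, u (x + 2 * π) = u x) (pv : ∀ x, v (x + 2 * π) = v x)
    (inj : ∀ x x', u x = u x' → v x = v x' → ∃ k : ℤ, x' = x + 2 * π * k)
    (mo : ∀ a b, Con (Ex s) a b → StrictMonoOn (fun x => s b * u x) (Icc (α a) (α b))) :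
    ∃ y : ℤ → ℝ, (∀ j, y (j + M) = y j) ∧ ∀ i j, j7_R α s u v i j → y i < y j := by
  classical
  choose! nx hn using fun a => B.next (a := a)
  have le : ∀ {a b}, Con (Ex s) a b → α a ≤ α b := fun h => A.tm.monotone h.1.le
  have rg : ∀ {a b x}, Con (Ex s) a b → x ∈ Ioo (α a) (α b) →
      min (u (α a)) (u (α b)) < u x ∧ u x < max (u (α a)) (u (α b)) := fun {a b x} h hx => by
    have c := mo a b h (left_mem_Icc.2 (le h)) (Ioo_subset_Icc_self hx) hx.1
    have d := mo a b h (Ioo_subset_Icc_self hx) (right_mem_Icc.2 (le h)) hx.2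
    rcases B.sgn b with e | e <;> simp only [e] at c d
    · exact ⟨min_lt_of_left_lt (by linarith), lt_max_of_lt_right (by linarith)⟩
    · exact ⟨min_lt_of_right_lt (by linarith), lt_max_of_lt_left (by linarith)⟩
  have ij : ∀ {a b}, Con (Ex s) a b → InjOn u (Icc (α a) (α b)) := fun {a b} h x hx y hy e =>
    (mo a b h).injOn hx hy (by simp only [e])
  have ex : ∀ a l, Ex s a → min (u (α a)) (u (α (nx a))) < l → l < max (u (α a)) (u (α (nx a))) →
      ∃ x ∈ Ioo (α a) (α (nx a)), u x = l := fun a l ha l1 l2 => by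
    rcases le_total (u (α a)) (u (α (nx a))) with c | c
    · rw [min_eq_left c] at l1
      rw [max_eq_right c] at l2
      exact intermediate_value_Ioo (le (hn a ha)) cu.continuousOn ⟨l1, l2⟩
    · rw [min_eq_right c] at l1
      rw [max_eq_left c] at l2
      exact intermediate_value_Ioo' (le (hn a ha)) cu.continuousOn ⟨l1, l2⟩
  choose! g hg using ex
  obtain ⟨y, hy⟩ := j7_ord (fun a => min (u (α a)) (u (α (nx a))))
    (fun a => max (u (α a)) (u (α (nx a)))) (fun a l => v (g a l)) (j7_R α s u v)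
    ((Finset.Ico (0:ℤ) M).filter (Ex s))
    (fun i hi => by
      have h := hn i (Finset.mem_filter.1 hi).2
      obtain ⟨x, hx⟩ := exists_between (A.tm h.1)
      exact (rg h hx).1.trans (rg h hx).2)
    (fun i hi j hj ⟨i', j', x, x', c, d, x1, x2, e, l⟩ => by
      obtain rfl := (hn i c.2.1).uniq c
      obtain rfl := (hn j d.2.1).uniq d
      refine ⟨(rg c x1).1.trans (e ▸ (rg d x2).2), (rg d x2).1.trans (e ▸ (rg c x1).2),
        fun m m1 m2 m3 m4 => ?_⟩
      obtain ⟨g1, g2⟩ := hg i m c.2.1 m1 m2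
      obtain ⟨g3, g4⟩ := hg j m d.2.1 m3 m4
      by_contra hc
      have s1 : uIcc x (g i m) ⊆ Ioo (α i) (α (nx i)) := ordConnected_Ioo.uIcc_subset x1 g1
      have s2 : uIcc x' (g j m) ⊆ Ioo (α j) (α (nx j)) := ordConnected_Ioo.uIcc_subset x2 g3
      obtain ⟨z, z1, z', z2, z3, z4⟩ := j7_meet cu cv (p₁ := x) (p₂ := g i m) (q₁ := x')
        (q₂ := g j m) (fun w hw => by
          have w1 := mem_uIcc.1 (((mo _ _ c).monotoneOn.mono
            (s1.trans Ioo_subset_Icc_self)).mapsTo_uIcc hw)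
          rw [mem_uIcc]
          rcases B.sgn (nx i) with e | e <;> simp only [e] at w1 <;> rcases w1 with w1 | w1
          · exact Or.inl ⟨by linarith [w1.1], by linarith [w1.2]⟩
          · exact Or.inr ⟨by linarith [w1.1], by linarith [w1.2]⟩
          · exact Or.inr ⟨by linarith [w1.2], by linarith [w1.1]⟩
          · exact Or.inl ⟨by linarith [w1.2], by linarith [w1.1]⟩)
        ((ij d).mono (s2.trans Ioo_subset_Icc_self)) e (g2.trans g4.symm) l.le (not_lt.1 hc)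
      obtain ⟨k, hk⟩ := inj z z' z3 z4
      have c' := B.shift c k
      have t1 := s1 z1
      have t2 := s2 z2
      have q : i + M * k = j := by
        rcases lt_trichotomy (i + M * k) j with r | r | r
        · have := A.tm.monotone (c'.le d.2.1 r)
          rw [A.mul] at this
          linarith [t1.2, t2.1]
        · exact r
        · have := A.tm.monotone (d.le c'.2.1 r)
          rw [A.mul] at this
          linarith [t1.1, t2.2]
      have a1 := Finset.mem_Ico.1 (Finset.mem_filter.1 hi).1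
      have a2 := Finset.mem_Ico.1 (Finset.mem_filter.1 hj).1
      obtain rfl : j = i := win_eq (N := M) a2.1 (by linarith [a2.2]) a1.1 (by linarith [a1.2])
        ⟨k, by linarith⟩
      rw [ij c (Ioo_subset_Icc_self x1) (Ioo_subset_Icc_self x2) e] at l
      exact lt_irrefl _ l)
    fun i hi j hj m m1 m2 m3 m4 l => by
      have c := (Finset.mem_filter.1 hi).2
      have d := (Finset.mem_filter.1 hj).2
      obtain ⟨g1, g2⟩ := hg i m c m1 m2
      obtain ⟨g3, g4⟩ := hg j m d m3 m4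
      exact ⟨_, _, _, _, hn i c, hn j d, g1, g3, g2.trans g4.symm, l⟩
  refine ⟨fun j => y (j % M), fun j => by simp, fun i j ⟨i', j', x, x', c, d, x1, x2, e, l⟩ => ?_⟩
  have md : ∀ j : ℤ, j % M = j + M * (-(j / M)) := fun j => by
    linarith [Int.emod_add_mul_ediv j M]
  have mm : ∀ j, Ex s j → j % M ∈ (Finset.Ico (0:ℤ) M).filter (Ex s) := fun j h =>
    Finset.mem_filter.2 ⟨j1_mem A.N0 j, by rwa [j1_md B.pE]⟩
  refine hy _ (mm i c.2.1) _ (mm j d.2.1) ?_
  rw [md i, md j]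
  refine ⟨_, _, x + 2 * π * ((-(i / M) : ℤ) : ℝ), x' + 2 * π * ((-(j / M) : ℤ) : ℝ), B.shift c _,
    B.shift d _, ?_, ?_, by rw [j7_per pu, j7_per pu, e], by rwa [j7_per pv, j7_per pv]⟩
  · rw [A.mul, A.mul]
    exact ⟨by linarith [x1.1], by linarith [x1.2]⟩
  · rw [A.mul, A.mul]
    exact ⟨by linarith [x2.1], by linarith [x2.2]⟩

end Pool.Agent.Lib.MP_9dc04a_an
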