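import Pool.Agent.Lib.MP_9dc04a_an.O3Def

set_option autoImplicit false

namespace Pool.Agent.Lib.MP_9dc04a_an

open Finset Real

theorem gordan {ι V : Type} [Fintype ι] [AddCommGroup V] [Module ℝ V] (l : ι → V →ₗ[ℝ] ℝ)
    (h : ¬∃ v, ∀ i, 0 < l i v) :
    ∃ κ : ι → ℝ, (∀ i, 0 ≤ κ i) ∧ (∃ i, κ i ≠ 0) ∧ ∀ v, ∑ i, κ i * l i v = 0 := by
  classical
  have cv : Convex ℝ {x : ι → ℝ | ∀ i, 0 < x i} := fun x hx y hy a b ha hb hab i => by
    have h1 := hx i
    have h2 := hy i
    simp only [Pi.add_apply, Pi.smul_apply, smul_eq_mul]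
    rcases ha.eq_or_lt with e | e
    · have : b = 1 := by linarith
      rw [← e, this]; linarith
    · nlinarith [mul_pos e h1, mul_nonneg hb h2.le]
  have op : IsOpen {x : ι → ℝ | ∀ i, 0 < x i} := by
    rw [Set.ofPred_forall]
    exact isOpen_iInter_of_finite fun i => isOpen_lt continuous_const (continuous_apply i)
  obtain ⟨f, u, h1, h2⟩ := geometric_hahn_banach_open cv op
    (LinearMap.range (LinearMap.pi l)).convex
    (Set.disjoint_left.2 fun x hx ⟨v, hv⟩ => h ⟨v, fun i => by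
      have := hx i
      rwa [← hv] at this⟩)
  have u0 : u ≤ 0 := by simpa using h2 0 (Submodule.zero_mem _)
  have ex : ∀ x : ι → ℝ, f x = ∑ i, x i * f (Pi.single i 1) := fun x => by
    conv_lhs => rw [pi_eq_sum_univ' x]
    simp [map_sum]
  have z : ∀ v, f (LinearMap.pi l v) = 0 := fun v => by
    by_contra hn
    have := h2 (((u - 1) / f (LinearMap.pi l v)) • LinearMap.pi l v)
      (Submodule.smul_mem _ _ ⟨v, rfl⟩)
    rw [map_smul, smul_eq_mul, div_mul_cancel₀ _ hn] at this
    linarith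
  have o := h1 (fun _ => 1) fun _ => one_pos
  refine ⟨fun i => -f (Pi.single i 1), fun i => ?_, ?_, fun v => ?_⟩
  · by_contra hn
    have p : 0 < f (Pi.single i 1) := by simpa using hn
    have q : 0 < (u - f fun _ => 1) / f (Pi.single i 1) := div_pos (by linarith) p
    have := h1 ((fun _ => 1) + ((u - f fun _ => 1) / f (Pi.single i 1)) • Pi.single i 1) fun j => by
      have : (0:ℝ) ≤ (Pi.single i 1 : ι → ℝ) j := by
        by_cases e : j = i
        · subst e; simp
        · simp [e]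
      simp only [Pi.add_apply, Pi.smul_apply, smul_eq_mul]
      positivity
    rw [map_add, map_smul, smul_eq_mul, div_mul_cancel₀ _ p.ne'] at this
    linarith
  · by_contra hn
    push Not at hn
    rw [ex] at o
    have : ∀ i, f (Pi.single i 1) = 0 := fun i => by simpa using hn i
    simp [this] at o
    linarith
  · have := z v
    rw [ex] at this
    simp only [LinearMap.pi_apply] at this
    simp only [neg_mul, sum_neg_distrib, neg_eq_zero]
    rw [← this]
    exact sum_congr rfl fun i _ => mul_comm _ _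

lemma j3_tel (F : ℤ → ℝ) (N : ℕ) : ∑ j ∈ Ico (0:ℤ) N, (F (j + 1) - F j) = F N - F 0 := by
  induction N with
  | zero => simp
  | succ n ih =>
    rw [Nat.cast_succ, ← insert_Ico_right_eq_Ico_add_one (Int.natCast_nonneg n),
      sum_insert right_notMem_Ico, ih]
    ring

lemma j3_parts {N : ℕ} {d h : ℤ → ℝ} (pd : ∀ j, d (j + N) = d j) (ph : ∀ j, h (j + N) = h j) :
    ∑ j ∈ Ico (0:ℤ) N, Dl d j * h j = ∑ j ∈ Ico (0:ℤ) N, d j * (h j - h (j + 1)) := by
  have a := j3_tel (fun j => d (j - 1) * h j) N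
  have b : d ((N:ℤ) - 1) = d (0 - 1) := by rw [← pd (0 - 1), zero_sub, neg_add_eq_sub]
  have c : h N = h 0 := by rw [← ph 0, zero_add]
  simp only [b, c, sub_self, add_sub_cancel_right] at a
  rw [← sub_eq_zero, ← sum_sub_distrib, ← a]
  exact sum_congr rfl fun j _ => by simp only [Dl]; ring

lemma j3_cot (x : ℝ) (k : ℤ) : cot ((x + 2 * π * k) / 2) = cot (x / 2) := by
  rw [show (x + 2 * π * k) / 2 = x / 2 + k * π by ring, cot_eq_cos_div_sin, cot_eq_cos_div_sin,
    sin_add_int_mul_pi, cos_add_int_mul_pi, mul_div_mul_left]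
  exact zpow_ne_zero _ (by norm_num)

lemma j3_ee (x : ℝ) : ee (x + 2 * π) = ee x := by
  rw [ee, ee, show -(((x + 2 * π : ℝ) : ℂ) * Complex.I) = -(x * Complex.I) - 2 * π * Complex.I by
    push_cast; ring, Complex.exp_sub, Complex.exp_two_pi_mul_I, div_one]

lemma j3_tk {N : ℕ} {t : ℤ → ℝ} (T : Pol N t) (k j : ℤ) : t (j + N * k) = t j + 2 * π * k := by
  have := per_mul (f := fun j => t j - 2 * π / N * j) (N := N) (fun j => by
    have : (N:ℝ) ≠ 0 := by exact_mod_cast T.N0.ne'
    simp only [T.tp]; push_cast; field_simp; ring) k j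
  have n : (N:ℝ) ≠ 0 := by exact_mod_cast T.N0.ne'
  push_cast at this
  have e : 2 * π / N * (j + N * k) = 2 * π / N * j + 2 * π * k := by field_simp
  linarith

/-- pairing with the jumps, as a linear map -/
noncomputable def j3_L (N : ℕ) (h : ℤ → ℝ) : (ℤ → ℝ) →ₗ[ℝ] ℝ where
  toFun d := ∑ j ∈ Ico (0:ℤ) N, Dl d j * h j
  map_add' d e := by
    rw [← sum_add_distrib]
    exact sum_congr rfl fun j _ => by simp only [Dl, Pi.add_apply]; ring
  map_smul' a d := by
    simp only [RingHom.id_apply, smul_eq_mul, mul_sum]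
    exact sum_congr rfl fun j _ => by simp only [Dl, Pi.smul_apply, smul_eq_mul]; ring

/-- block rigid moves -/
def j3_V (N : ℕ) (s : ℤ → ℝ) (blk : ℤ → ℕ) : Submodule ℝ (ℤ → ℝ) where
  carrier := {d | (∀ j, d (j + N) = d j) ∧
    ∀ i j, Ex s i → Ex s j → blk i = blk j → blk j ≠ 0 → d i = d j}
  add_mem' := fun {a b} ha hb => ⟨fun j => by simp only [Pi.add_apply, ha.1, hb.1],
    fun i j p q r u => by simp only [Pi.add_apply, ha.2 i j p q r u, hb.2 i j p q r u]⟩
  zero_mem' := ⟨fun _ => rfl, fun _ _ _ _ _ _ => rfl⟩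
  smul_mem' := fun a b hb => ⟨fun j => by simp only [Pi.smul_apply, hb.1],
    fun i j p q r u => by simp only [Pi.smul_apply, hb.2 i j p q r u]⟩

lemma j3_stat {N : ℕ} {s h : ℤ → ℝ} {blk : ℤ → ℕ} (N0 : 0 < N)
    (pE : ∀ j, Ex s (j + N) = Ex s j) (pb : ∀ j, blk (j + N) = blk j) (ph : ∀ j, h (j + N) = h j)
    (H : ∀ d ∈ j3_V N s blk, j3_L N h d = 0) : Stat N s blk h := by
  classical
  have K : ∀ d ∈ j3_V N s blk, ∑ j ∈ Ico (0:ℤ) N, d j * (h j - h (j + 1)) = 0 := fun d hd =>
    (j3_parts hd.1 ph).symm.trans (H d hd)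
  refine ⟨ph, fun j hj => ?_, fun β hβ => ?_⟩
  · obtain ⟨k, k1, k2⟩ := ex_win N0 j 0
    have n : ∀ i, Ex s i → blk i ≠ 0 → ¬(N:ℤ) ∣ i - j := fun i a b d => by
      rcases hj with e | e
      · exact e (per_dvd pE d ▸ a)
      · exact b ((per_dvd pb d).trans e)
    have := K (fun i => if (N:ℤ) ∣ i - j then 1 else 0) ⟨fun i => by simp only [dvd_sh'],
      fun a b p q r u => by simp only [if_neg (n a p (r ▸ u)), if_neg (n b q u)]⟩
    rw [sum_eq_single_of_mem (j + N * k) (mem_Ico.2 ⟨k1, by simpa using k2⟩)] at this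
    · rw [if_pos (by simp), one_mul, per_mul ph, show j + N * k + 1 = j + 1 + N * k by ring,
        per_mul ph] at this
      linarith
    · intro b hb ne
      rw [if_neg, zero_mul]
      rintro ⟨m, hm⟩
      obtain ⟨b1, b2⟩ := mem_Ico.1 hb
      have : (0:ℤ) < N := by exact_mod_cast N0
      have e : m = k := by
        rcases lt_trichotomy m k with c | c | c
        · nlinarith
        · exact c
        · nlinarith
      exact ne (by rw [← e]; linarith)
  · have := K (fun i => if Ex s i ∧ blk i = β then 1 else 0) ⟨fun i => by simp only [pE, pb],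
      fun a b p q r u => by simp only [p, q, r]⟩
    rw [sum_filter]
    refine Eq.trans (sum_congr rfl fun j _ => ?_) this
    by_cases e : Ex s j ∧ blk j = β <;> simp [e]

end Pool.Agent.Lib.MP_9dc04a_an
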