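import Pool.Agent.Lib.MP_9dc04a_an.O3Def

set_option autoImplicit false

namespace Pool.Agent.Lib.MP_9dc04a_an

open Finset Real MeasureTheory

lemma j9_ee (x : ℝ) : ee (-x) = circleMap 0 1 x := by
  simp [ee, circleMap]

lemma j9_norm (x : ℝ) : ‖ee x‖ = 1 := by
  have := j9_ee (-x)
  rw [neg_neg] at this
  rw [this]; simp

lemma j9_conj (x : ℝ) : (starRingEnd ℂ) (ee (-x)) = ee x := by
  simp [ee, ← Complex.exp_conj]

lemma j9_mul (x : ℝ) : ee (-x) * ee x = 1 := by
  simp [ee, ← Complex.exp_add]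

lemma j9_cont : Continuous fun x : ℝ => ee (-x) := by
  simp only [j9_ee]; exact continuous_circleMap 0 1

lemma j9_per (x : ℝ) : ee (-(x + 2 * π)) = ee (-x) := by
  rw [j9_ee, j9_ee]; exact periodic_circleMap 0 1 x

lemma j9_mem {r : ℝ} (hr : 1 < r) (x : ℝ) : ee x ∈ Metric.ball (0:ℂ) r := by
  simpa [j9_norm] using hr

lemma j9_cc {Φ : ℂ → ℂ} {r : ℝ} (hr : 1 < r) (hΦ : DifferentiableOn ℂ Φ (Metric.ball 0 r)) :
    Continuous fun x : ℝ => Φ (ee (-x)) :=
  hΦ.continuousOn.comp_continuous j9_cont fun _ => j9_mem hr _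

lemma j9_mv {Φ : ℂ → ℂ} {r : ℝ} (hr : 1 < r) (hΦ : DifferentiableOn ℂ Φ (Metric.ball 0 r)) (a : ℝ) :
    ∫ x in a..a + 2 * π, Φ (ee (-x)) = 2 * π * Φ 0 := by
  have hp : Function.Periodic (fun x : ℝ => Φ (ee (-x))) (2 * π) := fun x => by
    simp only [j9_per]
  rw [hp.intervalIntegral_add_eq a 0, zero_add]
  have hd : DiffContOnCl ℂ Φ (Metric.ball 0 |(1:ℝ)|) := by
    apply DifferentiableOn.diffContOnCl
    refine hΦ.mono ?_
    rw [abs_one, closure_ball _ one_ne_zero]
    exact Metric.closedBall_subset_ball hr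
  have := hd.circleAverage
  rw [circleAverage_def] at this
  simp only [j9_ee]
  rw [← this, Complex.real_smul]
  have hπ : (π : ℂ) ≠ 0 := by exact_mod_cast pi_ne_zero
  push_cast
  field_simp

lemma j9_mvc {Φ : ℂ → ℂ} {r : ℝ} (hr : 1 < r) (hΦ : DifferentiableOn ℂ Φ (Metric.ball 0 r))
    (a : ℝ) : ∫ x in a..a + 2 * π, (starRingEnd ℂ) (Φ (ee (-x))) =
      2 * π * (starRingEnd ℂ) (Φ 0) := by
  have := Complex.conjCLE.toContinuousLinearMap.intervalIntegral_comp_comm
    ((j9_cc hr hΦ).intervalIntegrable (μ := volume) a (a + 2 * π))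
  simp only [ContinuousLinearEquiv.coe_coe, Complex.conjCLE_apply] at this
  rw [this, j9_mv hr hΦ]; simp [map_ofNat]

lemma j9_two {Φ Ψ : ℂ → ℂ} {r : ℝ} (hr : 1 < r) (hΦ : DifferentiableOn ℂ Φ (Metric.ball 0 r))
    (hΨ : DifferentiableOn ℂ Ψ (Metric.ball 0 r)) (a : ℝ) {F : ℝ → ℂ}
    (hF : ∀ x, F x = Φ (ee (-x)) + (starRingEnd ℂ) (Ψ (ee (-x)))) :
    ∫ x in a..a + 2 * π, F x = 2 * π * Φ 0 + 2 * π * (starRingEnd ℂ) (Ψ 0) := by
  simp only [hF]
  have c2 : Continuous fun x : ℝ => (starRingEnd ℂ) (Ψ (ee (-x))) :=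
    Complex.continuous_conj.comp (j9_cc hr hΨ)
  rw [intervalIntegral.integral_add ((j9_cc hr hΦ).intervalIntegrable _ _)
    (c2.intervalIntegrable _ _), j9_mv hr hΦ, j9_mvc hr hΨ]

lemma j9_cot {α x : ℝ} (h : sin ((α - x) / 2) ≠ 0) :
    ee (-x) ≠ ee (-α) ∧
      (ee (-α) - ee (-x)) * (cot ((α - x) / 2) : ℝ) = Complex.I * (ee (-α) + ee (-x)) := by
  set y : ℝ := (α - x) / 2 with hy
  set m : ℂ := Complex.exp (((α + x) / 2 : ℝ) * Complex.I) with hm
  have m0 : m ≠ 0 := Complex.exp_ne_zero _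
  have e1 : ee (-α) = m * ((cos y : ℝ) + (sin y : ℝ) * Complex.I) := by
    rw [Complex.ofReal_cos, Complex.ofReal_sin, ← Complex.exp_mul_I, hm, ← Complex.exp_add, ee, hy]
    congr 1; push_cast; ring
  have e2 : ee (-x) = m * ((cos y : ℝ) - (sin y : ℝ) * Complex.I) := by
    have : ((cos y : ℝ) - (sin y : ℝ) * Complex.I : ℂ) = Complex.exp ((-y : ℝ) * Complex.I) := by
      rw [Complex.exp_mul_I]; simp [sub_eq_add_neg]
    rw [this, hm, ← Complex.exp_add, ee, hy]
    congr 1; push_cast; ring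
  have s0 : ((sin y : ℝ) : ℂ) ≠ 0 := by exact_mod_cast h
  refine ⟨fun hc => ?_, ?_⟩
  · rw [e1, e2] at hc
    have := mul_left_cancel₀ m0 hc
    have h2 : ((sin y : ℝ) : ℂ) * (2 * Complex.I) = 0 := by linear_combination -this
    rcases mul_eq_zero.1 h2 with h3 | h3
    · exact s0 h3
    · simp at h3
  · rw [e1, e2, Real.cot_eq_cos_div_sin, Complex.ofReal_div]
    field_simp
    ring

lemma j9_ae (α : ℝ) : ∀ᵐ x : ℝ, sin ((α - x) / 2) ≠ 0 := by
  have : {x : ℝ | sin ((α - x) / 2) = 0} ⊆ Set.range fun k : ℤ => α - 2 * (k * π) := by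
    intro x hx
    obtain ⟨k, hk⟩ := Real.sin_eq_zero_iff.1 hx
    exact ⟨k, by simp only; linarith⟩
  have h0 := ((Set.countable_range _).mono this).measure_zero volume
  rw [ae_iff]; simpa using h0

theorem ids {G : ℂ → ℂ} {r : ℝ} (hr : 1 < r) (hG : DifferentiableOn ℂ G (Metric.ball 0 r)) (a : ℝ) :
    (∫ x in a..a + 2 * π, ((Complex.I * ee (-x) * G (ee (-x))).re : ℂ) * ee x) =
        π * Complex.I * G 0 ∧
    (∫ x in a..a + 2 * π, ((Complex.I * ee (-x) * G (ee (-x))).re : ℂ) * ee x ^ 2) =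
        π * Complex.I * deriv G 0 ∧
    ∀ α : ℝ, (Complex.I * ee (-α) * G (ee (-α))).re = 0 →
      IntervalIntegrable (fun x => (Complex.I * ee (-x) * G (ee (-x))).re * cot ((α - x) / 2))
        volume a (a + 2 * π) ∧
      ∫ x in a..a + 2 * π, (Complex.I * ee (-x) * G (ee (-x))).re * cot ((α - x) / 2) =
        2 * π * (Complex.I * ee (-α) * G (ee (-α))).im := by
  have b0 : Metric.ball (0:ℂ) r ∈ nhds (0:ℂ) := Metric.ball_mem_nhds _ (by linarith)
  refine ⟨?_, ?_, fun α hα => ?_⟩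
  · rw [j9_two hr (Φ := fun z => Complex.I / 2 * G z) (Ψ := fun z => Complex.I / 2 * z ^ 2 * G z)
      (by fun_prop) (by fun_prop) a]
    · simp; ring
    · intro x
      rw [Complex.re_eq_add_conj]
      simp only [map_mul, map_pow, map_div₀, j9_conj, Complex.conj_I, map_ofNat]
      linear_combination (Complex.I / 2 * G (ee (-x))) * j9_mul x
  · have hD := (Complex.differentiableOn_dslope b0).2 hG
    rw [j9_two hr (Φ := fun z => Complex.I / 2 * dslope G 0 z)
      (Ψ := fun z => Complex.I / 2 * z ^ 3 * G z - Complex.I / 2 * (starRingEnd ℂ) (G 0) * z)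
      (by fun_prop) (by fun_prop) a]
    · simp [dslope_same]; ring
    · intro x
      have e := sub_smul_dslope G 0 (ee (-x))
      rw [sub_zero, smul_eq_mul] at e
      rw [Complex.re_eq_add_conj]
      simp only [map_mul, map_pow, map_sub, map_div₀, j9_conj, Complex.conj_I, map_ofNat,
        Complex.conj_conj]
      have m := j9_mul x
      linear_combination (Complex.I / 2 * (G (ee (-x)) * ee x + dslope G 0 (ee (-x)))) * m -
        Complex.I / 2 * ee x * e
  · set Φ : ℂ → ℂ := fun z => Complex.I * z * G z with hΦ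
    have dΦ : DifferentiableOn ℂ Φ (Metric.ball 0 r) := by rw [hΦ]; fun_prop
    have hD := (Complex.differentiableOn_dslope
      (Metric.isOpen_ball.mem_nhds (j9_mem hr (-α)))).2 dΦ
    set Ψ : ℂ → ℂ := fun z => -Complex.I * dslope Φ (ee (-α)) z * (ee (-α) + z) with hΨ
    have dΨ : DifferentiableOn ℂ Ψ (Metric.ball 0 r) := by rw [hΨ]; fun_prop
    have key : ∀ᵐ x : ℝ, (Φ (ee (-x))).re * cot ((α - x) / 2) = (Ψ (ee (-x))).re := by
      filter_upwards [j9_ae α] with x hx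
      obtain ⟨-, h2⟩ := j9_cot hx
      have e := sub_smul_dslope Φ (ee (-α)) (ee (-x))
      rw [smul_eq_mul] at e
      have : Ψ (ee (-x)) = (Φ (ee (-x)) - Φ (ee (-α))) * (cot ((α - x) / 2) : ℝ) := by
        simp only [hΨ]
        linear_combination dslope Φ (ee (-α)) (ee (-x)) * h2 + (cot ((α - x) / 2) : ℝ) * e
      have h0 : (Φ (ee (-α))).re = 0 := hα
      rw [this, Complex.re_mul_ofReal, Complex.sub_re, h0, sub_zero]
    have ii := (j9_cc hr dΨ).intervalIntegrable (μ := volume) a (a + 2 * π)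
    refine ⟨?_, ?_⟩
    · refine ((Complex.continuous_re.comp (j9_cc hr dΨ)).intervalIntegrable _ _).congr_ae ?_
      exact ae_restrict_of_ae (key.mono fun x hx => hx.symm)
    · rw [intervalIntegral.integral_congr_ae (g := fun x => (Ψ (ee (-x))).re)
        (key.mono fun x hx _ => hx)]
      have := intervalIntegral.intervalIntegral_re ii
      simp only [RCLike.re_to_complex] at this
      rw [this, j9_mv hr dΨ]
      have e := sub_smul_dslope Φ (ee (-α)) 0
      rw [smul_eq_mul] at e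
      have p0 : Φ 0 = 0 := by simp [hΦ]
      have : Ψ 0 = -Complex.I * Φ (ee (-α)) := by
        simp only [hΨ]
        linear_combination Complex.I * e + Complex.I * p0
      rw [this]
      have e2 : (2 * π : ℂ) = ((2 * π : ℝ) : ℂ) := by push_cast; ring
      rw [e2, Complex.re_ofReal_mul]
      simp [hΦ]

end Pool.Agent.Lib.MP_9dc04a_an
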