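import Pool.Agent.Lib.MP_9dc04a_an.Coef

set_option autoImplicit false

namespace Pool.Agent.Lib.MP_9dc04a_an

open Complex Metric Filter Topology MeasureTheory
open scoped Real ComplexConjugate

noncomputable def qB (a b : ℂ → ℂ) (r : ℝ) : ℂ :=
  ∫ θ in (0:ℝ)..2 * π, a (circleMap 0 r θ) * conj (b (circleMap 0 r θ))

noncomputable def qD (a : ℂ → ℂ) (z : ℂ) : ℂ := z * deriv a z

lemma qm_mem {r : ℝ} (h : |r| < 1) (θ : ℝ) : circleMap 0 r θ ∈ ball (0:ℂ) 1 := by
  simpa using h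

lemma qm_cont {a : ℂ → ℂ} (ha : DifferentiableOn ℂ a (ball 0 1)) {r : ℝ} (h : |r| < 1) :
    Continuous fun θ : ℝ => a (circleMap 0 r θ) :=
  ha.continuousOn.comp_continuous (continuous_circleMap 0 r) (qm_mem h)

lemma qD_diff {a : ℂ → ℂ} (ha : DifferentiableOn ℂ a (ball 0 1)) :
    DifferentiableOn ℂ (qD a) (ball 0 1) :=
  differentiableOn_id.mul (ha.deriv isOpen_ball)

lemma qm_conj {F : ℝ → ℂ} {F' : ℂ} {x : ℝ} (h : HasDerivAt F F' x) :
    HasDerivAt (fun x => conj (F x)) (conj F') x :=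
  conjCLE.toContinuousLinearMap.hasFDerivAt.comp_hasDerivAt x h

lemma qm_int {a b : ℂ → ℂ} (ha : DifferentiableOn ℂ a (ball 0 1))
    (hb : DifferentiableOn ℂ b (ball 0 1)) {r : ℝ} (h : |r| < 1) :
    IntervalIntegrable (fun θ : ℝ => a (circleMap 0 r θ) * conj (b (circleMap 0 r θ))) volume
      0 (2 * π) :=
  ((qm_cont ha h).mul (continuous_conj.comp (qm_cont hb h))).intervalIntegrable _ _

lemma qm_rad {a : ℂ → ℂ} (ha : DifferentiableOn ℂ a (ball 0 1)) {r : ℝ} (h : |r| < 1) (θ : ℝ) :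
    HasDerivAt (fun s : ℝ => a (circleMap 0 s θ)) (exp (θ * I) * deriv a (circleMap 0 r θ)) r := by
  have h1 := (ha.differentiableAt (isOpen_ball.mem_nhds (qm_mem h θ))).hasDerivAt
  have h2 : HasDerivAt (fun s : ℝ => circleMap 0 s θ) (exp (θ * I)) r := by
    simpa [circleMap] using (ofRealCLM.hasDerivAt (x := r)).mul_const (exp (θ * I))
  exact h1.scomp r h2

lemma qm_ang {a : ℂ → ℂ} (ha : DifferentiableOn ℂ a (ball 0 1)) {r : ℝ} (h : |r| < 1) (θ : ℝ) :
    HasDerivAt (fun θ : ℝ => a (circleMap 0 r θ)) (I * qD a (circleMap 0 r θ)) θ :=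
  (((ha.differentiableAt (isOpen_ball.mem_nhds (qm_mem h θ))).hasDerivAt).scomp θ
    (hasDerivAt_circleMap 0 r θ)).congr_deriv (by rw [smul_eq_mul, qD]; ring)

lemma qB_sym {a b : ℂ → ℂ} (ha : DifferentiableOn ℂ a (ball 0 1))
    (hb : DifferentiableOn ℂ b (ball 0 1)) {r : ℝ} (h : |r| < 1) :
    qB (qD a) b r = qB a (qD b) r := by
  have i1 := qm_int (qD_diff ha) hb h
  have i2 := qm_int ha (qD_diff hb) h
  have := intervalIntegral.integral_eq_sub_of_hasDerivAt (a := 0) (b := 2 * π)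
    (f := fun θ : ℝ => -I * (a (circleMap 0 r θ) * conj (b (circleMap 0 r θ))))
    (f' := fun θ : ℝ => qD a (circleMap 0 r θ) * conj (b (circleMap 0 r θ)) -
      a (circleMap 0 r θ) * conj (qD b (circleMap 0 r θ)))
    (fun θ _ => (((qm_ang ha h θ).mul (qm_conj (qm_ang hb h θ))).const_mul (-I)).congr_deriv (by
      simp only [map_mul, conj_I]
      linear_combination (a (circleMap 0 r θ) * conj (qD b (circleMap 0 r θ)) -
        qD a (circleMap 0 r θ) * conj (b (circleMap 0 r θ))) * I_mul_I)) (i1.sub i2)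
  have p := periodic_circleMap 0 r 0
  rw [zero_add] at p
  rw [intervalIntegral.integral_sub i1 i2, p, sub_self, sub_eq_zero] at this
  exact this

lemma qB_der {a b : ℂ → ℂ} (ha : DifferentiableOn ℂ a (ball 0 1))
    (hb : DifferentiableOn ℂ b (ball 0 1)) {r : ℝ} (h : |r| < 1) :
    ∃ B' : ℂ, HasDerivAt (qB a b) B' r ∧ r * B' = 2 * qB (qD a) b r := by
  set ρ := (1 + |r|) / 2 with hρ
  have ρ1 : ρ < 1 := by linarith
  set F' : ℝ → ℝ → ℂ := fun s θ =>
    exp (θ * I) * deriv a (circleMap 0 s θ) * conj (b (circleMap 0 s θ)) +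
      a (circleMap 0 s θ) * conj (exp (θ * I) * deriv b (circleMap 0 s θ)) with hF
  have da := ha.deriv isOpen_ball
  have db := hb.deriv isOpen_ball
  have cm : ∀ {k : ℂ → ℂ}, DifferentiableOn ℂ k (ball 0 1) → ContinuousOn
      (fun p : ℝ × ℝ => k (circleMap 0 p.1 p.2)) (Set.Icc (-ρ) ρ ×ˢ Set.uIcc 0 (2 * π)) :=
    fun hk => hk.continuousOn.comp (by unfold circleMap; fun_prop) fun p hp =>
      qm_mem ((abs_le.2 hp.1).trans_lt ρ1) _
  have ce : Continuous fun p : ℝ × ℝ => exp (p.2 * I) := by fun_prop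
  obtain ⟨C, hC⟩ := (isCompact_Icc.prod isCompact_uIcc).exists_bound_of_continuousOn
    (f := fun p : ℝ × ℝ => F' p.1 p.2)
    (((ce.continuousOn.mul (cm da)).mul (continuous_conj.comp_continuousOn (cm hb))).add
      ((cm ha).mul (continuous_conj.comp_continuousOn (ce.continuousOn.mul (cm db)))))
  have nb : Set.Icc (-ρ) ρ ∈ 𝓝 r :=
    Icc_mem_nhds (by linarith [neg_abs_le r]) (by linarith [le_abs_self r])
  have c1 : Continuous fun θ : ℝ => exp (θ * I) := by fun_prop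
  have := intervalIntegral.hasDerivAt_integral_of_dominated_loc_of_deriv_le (μ := volume)
    (a := 0) (b := 2 * π) (bound := fun _ => C)
    (F := fun s θ => a (circleMap 0 s θ) * conj (b (circleMap 0 s θ))) (F' := F') nb
    (by
      filter_upwards [nb] with s hs
      exact (qm_int ha hb ((abs_le.2 hs).trans_lt ρ1)).def'.aestronglyMeasurable)
    (qm_int ha hb h)
    (((c1.mul (qm_cont da h)).mul (continuous_conj.comp (qm_cont hb h))).add
      ((qm_cont ha h).mul (continuous_conj.comp (c1.mul (qm_cont db h))))).aestronglyMeasurable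
    (ae_of_all _ fun θ hθ s hs => hC (s, θ) ⟨hs, Set.uIoc_subset_uIcc hθ⟩)
    intervalIntegrable_const
    (ae_of_all _ fun θ _ s hs => (qm_rad ha ((abs_le.2 hs).trans_lt ρ1) θ).mul
      (qm_conj (qm_rad hb ((abs_le.2 hs).trans_lt ρ1) θ)))
  refine ⟨_, this.2, ?_⟩
  rw [two_mul (qB (qD a) b r)]
  nth_rewrite 2 [qB_sym ha hb h]
  rw [← intervalIntegral.integral_const_mul, qB, qB,
    ← intervalIntegral.integral_add (qm_int (qD_diff ha) hb h) (qm_int ha (qD_diff hb) h)]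
  refine intervalIntegral.integral_congr fun θ _ => ?_
  simp only [hF, qD, circleMap, zero_add, map_mul, conj_ofReal]
  ring

lemma qB_re {a b : ℂ → ℂ} (ha : DifferentiableOn ℂ a (ball 0 1))
    (hb : DifferentiableOn ℂ b (ball 0 1)) {r : ℝ} (h : |r| < 1) : (qB a b r).re =
      ∫ θ in (0:ℝ)..2 * π, (a (circleMap 0 r θ) * conj (b (circleMap 0 r θ))).re :=
  (intervalIntegral.intervalIntegral_re (qm_int ha hb h)).symm

lemma qm_pt {p q : ℂ} {x : ℝ} (h : ‖((1 - x : ℝ) : ℂ) * q - x * p‖ ^ 2 ≤ 9 * x * ‖p‖ ^ 2) :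
    (1 - x) ^ 2 * (q * conj q).re - 2 * x * (1 - x) * (q * conj p).re +
      (x ^ 2 - 9 * x) * (p * conj p).re ≤ 0 := by
  rw [Complex.sq_norm, Complex.sq_norm, normSq_apply, normSq_apply] at h
  simp only [sub_re, mul_re, ofReal_re, ofReal_im, sub_im, mul_im, conj_re, conj_im] at h ⊢
  nlinarith

lemma qm_main {φ : ℂ → ℂ} (hφ : DifferentiableOn ℂ φ (ball 0 1))
    (H : ∀ z ∈ ball (0:ℂ) 1, ‖((1 - ‖z‖ ^ 2 : ℝ) : ℂ) * deriv φ z - conj z * φ z‖ ≤ 3 * ‖φ z‖)
    {r : ℝ} (r0 : 0 ≤ r) (r1 : r < 1) :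
    (qB φ φ r).re ^ 8 * (1 - r ^ 2) ^ 27 / (1 + 3 * r ^ 2) ^ 15 ≤ (2 * π * ‖φ 0‖ ^ 2) ^ 8 := by
  have hψ := qD_diff hφ
  set P0 : ℝ → ℝ := fun s => (qB φ φ s).re with h0
  set P1 : ℝ → ℝ := fun s => (qB (qD φ) φ s).re with h1
  set P2 : ℝ → ℝ := fun s => (qB (qD φ) (qD φ) s).re with h2
  have ab : ∀ s ∈ Set.Icc 0 r, |s| < 1 := fun s hs => by rw [abs_of_nonneg hs.1]; linarith [hs.2]
  have d0 : ∀ s, |s| < 1 → ∃ D, HasDerivAt P0 D s ∧ s * D = 2 * P1 s := fun s hs => by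
    obtain ⟨B, b1, b2⟩ := qB_der hφ hφ hs
    exact ⟨B.re, reCLM.hasFDerivAt.comp_hasDerivAt s b1, by simpa using congrArg re b2⟩
  have d1 : ∀ s, |s| < 1 → ∃ D, HasDerivAt P1 D s ∧ s * D = 2 * P2 s := fun s hs => by
    obtain ⟨B, b1, b2⟩ := qB_der hψ hφ hs
    rw [qB_sym hψ hφ hs] at b2
    exact ⟨B.re, reCLM.hasFDerivAt.comp_hasDerivAt s b1, by simpa using congrArg re b2⟩
  have n0 : ∀ s, |s| < 1 → 0 ≤ P0 s := fun s hs => by
    simp only [h0]
    rw [qB_re hφ hφ hs]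
    exact intervalIntegral.integral_nonneg (by positivity) fun θ _ => by
      rw [mul_conj, ofReal_re]; exact normSq_nonneg _
  have K : ∀ s, |s| < 1 → (1 - s ^ 2) ^ 2 * P2 s - 2 * s ^ 2 * (1 - s ^ 2) * P1 s +
      ((s ^ 2) ^ 2 - 9 * s ^ 2) * P0 s ≤ 0 := fun s hs => by
    have ir : ∀ {a b : ℂ → ℂ}, DifferentiableOn ℂ a (ball 0 1) → DifferentiableOn ℂ b (ball 0 1) →
        ∀ c : ℝ, IntervalIntegrable
          (fun θ : ℝ => c * (a (circleMap 0 s θ) * conj (b (circleMap 0 s θ))).re) volume 0 (2 * π) :=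
      fun ha hb c => ((continuous_re.comp ((qm_cont ha hs).mul
        (continuous_conj.comp (qm_cont hb hs)))).intervalIntegrable _ _).const_mul c
    simp only [h0, h1, h2]
    rw [qB_re hφ hφ hs, qB_re hψ hφ hs, qB_re hψ hψ hs, ← intervalIntegral.integral_const_mul,
      ← intervalIntegral.integral_const_mul, ← intervalIntegral.integral_const_mul,
      ← intervalIntegral.integral_sub (ir hψ hψ _) (ir hψ hφ _),
      ← intervalIntegral.integral_add ((ir hψ hψ _).sub (ir hψ hφ _)) (ir hφ hφ _), ← neg_nonneg,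
      ← intervalIntegral.integral_neg]
    refine intervalIntegral.integral_nonneg (by positivity) fun θ _ => neg_nonneg.2 (qm_pt ?_)
    set z := circleMap 0 s θ with hz
    have nz : ‖z‖ ^ 2 = s ^ 2 := by simp [hz]
    have e : ((1 - s ^ 2 : ℝ) : ℂ) * qD φ z - (s ^ 2 : ℝ) * φ z =
        z * (((1 - ‖z‖ ^ 2 : ℝ) : ℂ) * deriv φ z - conj z * φ z) := by
      have : z * conj z = (s ^ 2 : ℝ) := by rw [mul_conj, normSq_eq_norm_sq, nz]
      rw [nz, qD]; linear_combination φ z * this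
    have := pow_le_pow_left₀ (norm_nonneg _) (H z (qm_mem hs θ)) 2
    rw [e, norm_mul, mul_pow, nz]
    rw [nz] at this
    nlinarith [sq_nonneg s]
  set W : ℝ → ℝ := fun s => 2 * (1 + 3 * s ^ 2) * (1 - s ^ 2) * P1 s -
    9 * s ^ 2 * (2 + s ^ 2) * P0 s with hW
  have dW : ∀ s, 0 ≤ s → |s| < 1 → ∃ D, HasDerivAt W D s ∧ (0 < W s → D ≤ 0) := fun s s0 hs => by
    obtain ⟨D0, a1, a2⟩ := d0 s hs
    obtain ⟨D1, b1, b2⟩ := d1 s hs
    have x2 : HasDerivAt (fun s : ℝ => s ^ 2) (2 * s) s := by simpa using hasDerivAt_pow 2 s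
    refine ⟨_, (((((x2.const_mul 3).const_add 1).const_mul 2).mul (x2.const_sub 1)).mul b1).sub
      (((x2.const_mul 9).mul (x2.const_add 2)).mul a1), fun w0 => ?_⟩
    have s1 : s ^ 2 < 1 := by rwa [sq_lt_one_iff_abs_lt_one]
    have s2 : 0 < s := s0.lt_of_ne fun hc => by
      subst hc
      simp [hW, h1, qB, qD, circleMap] at w0
    have k := K s hs
    have p0 := n0 s hs
    simp only [hW] at w0
    simp only [Pi.mul_apply]
    have x0 : 0 < s ^ 2 := by positivity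
    refine le_of_mul_le_mul_left (a := s * ((1 - s ^ 2) * (1 + 3 * s ^ 2))) ?_
      (mul_pos s2 (mul_pos (by linarith) (by linarith)))
    have q1 : 0 ≤ (s ^ 2) ^ 2 * (76 - 84 * s ^ 2 + 9 * (s ^ 2) ^ 2) * P0 s :=
      mul_nonneg (mul_nonneg (by positivity) (by nlinarith)) p0
    have q2 := mul_pos (show 0 < s ^ 2 * (10 + 9 * s ^ 2) by positivity) w0
    have q3 := mul_nonpos_of_nonneg_of_nonpos (show 0 ≤ 4 * (1 + 3 * s ^ 2) ^ 2 by positivity) k
    linear_combination q1 + q2.le + q3 + (1 - s ^ 2) * (1 + 3 * s ^ 2) *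
      (2 * (1 + 3 * s ^ 2) * (1 - s ^ 2) * b2 - 9 * s ^ 2 * (2 + s ^ 2) * a2)
  have W0 : ∀ s ∈ Set.Icc 0 r, W s ≤ 0 := fun s hs => by
    choose! D hD using dW
    refine le_of_forall_pos_le_add fun ε ε0 => ?_
    have := image_le_of_deriv_right_lt_deriv_boundary (f := W) (f' := D) (a := 0) (b := r)
      (B := fun t => ε / 2 * (1 + t)) (B' := fun _ => ε / 2)
      (fun t ht => (hD t ht.1 (ab t ht)).1.continuousAt.continuousWithinAt)
      (fun t ht => (hD t ht.1 (ab t (Set.Ico_subset_Icc_self ht))).1.hasDerivWithinAt)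
      (by simp [hW, h1, qB, qD, circleMap]; positivity)
      (fun t => by simpa using ((hasDerivAt_id' t).const_add 1).const_mul (ε / 2))
      (fun t ht e => ((hD t ht.1 (ab t (Set.Ico_subset_Icc_self ht))).2
        (by rw [e]; have := ht.1; positivity)).trans_lt (by positivity)) hs
    nlinarith [hs.2]
  set Z : ℝ → ℝ := fun s => P0 s ^ 8 * (1 - s ^ 2) ^ 27 / (1 + 3 * s ^ 2) ^ 15 with hZ
  have dZ : ∀ s ∈ Set.Icc 0 r, ∃ D, HasDerivAt Z D s ∧ (0 < s → D ≤ 0) := fun s hs => by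
    obtain ⟨D0, a1, a2⟩ := d0 s (ab s hs)
    have x2 : HasDerivAt (fun s : ℝ => s ^ 2) (2 * s) s := by simpa using hasDerivAt_pow 2 s
    have v0 : 0 < 1 + 3 * s ^ 2 := by positivity
    refine ⟨_, ((a1.fun_pow 8).mul ((x2.const_sub 1).fun_pow 27)).div
      (((x2.const_mul 3).const_add 1).fun_pow 15) (pow_ne_zero _ v0.ne'), fun s0 => ?_⟩
    have s1 : s ^ 2 < 1 := by rw [sq_lt_one_iff_abs_lt_one]; exact ab s hs
    have w := W0 s hs
    have p0 := n0 s (ab s hs)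
    simp only [hW] at w
    simp only [Pi.mul_apply]
    refine div_nonpos_of_nonpos_of_nonneg (le_of_mul_le_mul_left (a := s) ?_ s0) (by positivity)
    have u0 : 0 < 1 - s ^ 2 := by linarith
    have q := mul_nonpos_of_nonneg_of_nonpos
      (show 0 ≤ 8 * P0 s ^ 7 * (1 - s ^ 2) ^ 26 * (1 + 3 * s ^ 2) ^ 14 by positivity) w
    have e1 : 2 + s ^ 2 = (3 * (1 + 3 * s ^ 2) + 5 * (1 - s ^ 2)) / 4 := by ring
    have e2 : s ^ 2 = s * s := sq s
    rw [e1] at q
    generalize 1 - s ^ 2 = u at q ⊢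
    generalize 1 + 3 * s ^ 2 = v at q ⊢
    norm_num
    linear_combination q + 8 * P0 s ^ 7 * u ^ 27 * v ^ 15 * a2
  choose! D hD using dZ
  have := antitoneOn_of_deriv_nonpos (convex_Icc 0 r)
    (fun t ht => (hD t ht).1.continuousAt.continuousWithinAt)
    (fun t ht => (hD t (interior_subset ht)).1.differentiableAt.differentiableWithinAt)
    (fun t ht => by
      rw [(hD t (interior_subset ht)).1.deriv]
      rw [interior_Icc] at ht
      exact (hD t (Set.Ioo_subset_Icc_self ht)).2 ht.1)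
    (Set.left_mem_Icc.2 r0) (Set.right_mem_Icc.2 r0) r0
  refine this.trans (le_of_eq ?_)
  simp [hZ, h0, qB, circleMap, mul_conj, normSq_eq_norm_sq, -ofReal_pow]

lemma qm_coef {G : ℂ → ℂ} (hG : DifferentiableOn ℂ G (ball 0 1)) (G0 : G 0 = 1)
    (nz : ∀ z ∈ ball (0:ℂ) 1, G z ≠ 0)
    (H : ∀ z ∈ ball (0:ℂ) 1, ‖((1 - ‖z‖ ^ 2 : ℝ) : ℂ) * deriv G z - 2 * conj z * G z‖ ≤ 6 * ‖G z‖)
    {r : ℝ} (r0 : 0 < r) (r1 : r < 1) (n : ℕ) :
    (‖co n G‖ * r ^ n) ^ 8 * (1 - r ^ 2) ^ 27 ≤ (1 + 3 * r ^ 2) ^ 15 := by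
  obtain ⟨L, L0, hL⟩ := ((hG.deriv isOpen_ball).div hG nz).isExactOn_ball.with_val_at 0 0
  simp only [Pi.div_apply] at hL
  have z0 : (0:ℂ) ∈ ball (0:ℂ) 1 := mem_ball_self one_pos
  have hd : ∀ z ∈ ball (0:ℂ) 1, HasDerivAt (fun z => G z * exp (-L z)) 0 z := fun z hz =>
    (((hG.differentiableAt (isOpen_ball.mem_nhds hz)).hasDerivAt).mul (hL z hz).neg.cexp).congr_deriv
      (by have := nz z hz; simp only [Pi.neg_apply]; field_simp; ring)
  have e : ∀ z ∈ ball (0:ℂ) 1, G z = exp (L z / 2) * exp (L z / 2) := fun z hz => by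
    have := isOpen_ball.is_const_of_deriv_eq_zero (convex_ball (0:ℂ) 1).isPreconnected
      (fun z hz => (hd z hz).differentiableAt.differentiableWithinAt)
      (fun z hz => (hd z hz).deriv) hz z0
    simp only [G0, L0, neg_zero, exp_zero, mul_one] at this
    rw [← exp_add, add_halves, ← mul_one (G z), ← exp_zero, ← neg_add_cancel (L z), exp_add,
      ← mul_assoc, this, one_mul]
  set φ : ℂ → ℂ := fun z => exp (L z / 2) with hφ
  have dφ : ∀ z ∈ ball (0:ℂ) 1, HasDerivAt φ (φ z * (deriv G z / G z / 2)) z := fun z hz =>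
    ((hL z hz).div_const 2).cexp
  have Dφ : DifferentiableOn ℂ φ (ball 0 1) := fun z hz =>
    (dφ z hz).differentiableAt.differentiableWithinAt
  have M := qm_main Dφ (fun z hz => by
    have h0 := nz z hz
    have : ((1 - ‖z‖ ^ 2 : ℝ) : ℂ) * deriv φ z - conj z * φ z =
        φ z * ((((1 - ‖z‖ ^ 2 : ℝ) : ℂ) * deriv G z - 2 * conj z * G z) / (2 * G z)) := by
      rw [(dφ z hz).deriv]; field_simp
    rw [this, norm_mul, mul_comm, norm_div, norm_mul, Complex.norm_ofNat]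
    refine mul_le_mul_of_nonneg_right ?_ (norm_nonneg _)
    rw [div_le_iff₀ (by have := norm_pos_iff.2 h0; positivity)]
    linarith [H z hz]) r0.le r1
  have ar : |r| < 1 := by rwa [abs_of_pos r0]
  have k := key hG r0 r1 n
  have k2 : 2 * π * (‖co n G‖ * r ^ n) * r ^ n ≤ (qB φ φ r).re * r ^ n := by
    have : 2 * π * (‖co n G‖ * r ^ n) * r ^ n = ‖2 * π * co n G * (r:ℂ) ^ (2 * n)‖ := by
      simp only [norm_mul, norm_pow, Complex.norm_ofNat, Complex.norm_real, Real.norm_eq_abs,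
        abs_of_pos r0, abs_of_pos Real.pi_pos]
      ring
    rw [this, ← k, qB_re Dφ Dφ ar, ← intervalIntegral.integral_mul_const]
    refine (intervalIntegral.norm_integral_le_integral_norm (by positivity)).trans (le_of_eq ?_)
    refine intervalIntegral.integral_congr fun θ _ => ?_
    simp only [norm_mul, Complex.norm_conj, norm_pow, norm_circleMap_zero, abs_of_pos r0,
      e _ (qm_mem ar θ), mul_conj, ofReal_re, normSq_eq_norm_sq, hφ, sq]
  have k3 := pow_le_pow_left₀ (by positivity) (le_of_mul_le_mul_right k2 (by positivity)) 8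
  have u0 : 0 < 1 - r ^ 2 := by nlinarith
  rw [div_le_iff₀ (by positivity)] at M
  simp only [hφ, L0, zero_div, exp_zero, norm_one, one_pow, mul_one] at M
  have k4 := (mul_le_mul_of_nonneg_right k3 (pow_pos u0 27).le).trans M
  rw [mul_pow (2 * π), mul_assoc] at k4
  exact le_of_mul_le_mul_left k4 (by positivity)

end Pool.Agent.Lib.MP_9dc04a_an
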