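import Pool.Agent.Lib.MP_9dc04a_an.O3Top0
import Pool.Agent.Lib.MP_9dc04a_an.O3Geo
import Pool.Agent.Lib.MP_9dc04a_an.O3App

set_option autoImplicit false

namespace Pool.Agent.Lib.MP_9dc04a_an

theorem order3 {h g : ℂ → ℂ} (hh : DifferentiableOn ℂ h (Metric.ball 0 1))
    (hg : DifferentiableOn ℂ g (Metric.ball 0 1))
    (inj : Set.InjOn (fun z => h z + (starRingEnd ℂ) (g z)) (Metric.ball 0 1))
    (jac : ∀ z ∈ Metric.ball (0:ℂ) 1, ‖deriv g z‖ < ‖deriv h z‖) (lam : ℂ) (hl : ‖lam‖ ≤ 1) :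
    ‖iteratedDeriv 2 h 0 + lam * iteratedDeriv 2 g 0‖ ≤ 6 * ‖deriv h 0 + lam * deriv g 0‖ :=
  order3_of geo approx hh hg inj jac lam hl

end Pool.Agent.Lib.MP_9dc04a_an
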