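import Pool.Agent.Lib.MP_9dc04a_an.O3Ids

set_option autoImplicit false

namespace Pool.Agent.Lib.MP_9dc04a_an

open Finset Real MeasureTheory

def J9Geo : Prop := ∀ {u v u' v' : ℝ → ℝ} (_ : ∀ x, HasDerivAt u (u' x) x)
    (_ : ∀ x, HasDerivAt v (v' x) x)
    (_ : Continuous u') (_ : ∀ x, u (x + 2 * π) = u x) (_ : ∀ x, v (x + 2 * π) = v x)
    (_ : ∀ x x', u x = u x' → v x = v x' → ∃ k : ℤ, x' = x + 2 * π * k)
    (_ : {x ∈ Set.Ico 0 (2 * π) | u' x = 0}.Finite) (_ : ∀ x, u' x = 0 → v' x ≠ 0),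
    ∃ (M : ℕ) (α s y : ℤ → ℝ), Pol M α ∧ (∀ k, u' (α k) = 0) ∧
      (∀ k x, α (k - 1) < x → x < α k → 0 < s k * u' x) ∧
      Pl M (Ex s) s (fun k => u (α k)) y fun k => Ex s k ∧ s k * v' (α k) < 0

def J9App : Prop := ∀ {s y : ℤ → ℝ} {rf : ℤ → Prop} {M : ℕ} {α : ℤ → ℝ} {u u' : ℝ → ℝ}
    (_ : Pol M α) (_ : ∀ x, HasDerivAt u (u' x) x)
    (_ : Continuous u') (_ : ∀ k x, α (k - 1) < x → x < α k → 0 < s k * u' x)
    (_ : Pl M (Ex s) s (fun k => u (α k)) y rf)
    (_ : ∀ k, rf k → IntervalIntegrable (fun x => u' x * cot ((α k - x) / 2)) volume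
        (α 0) (α 0 + 2 * π) ∧ s k * ∫ x in α 0..α 0 + 2 * π, u' x * cot ((α k - x) / 2) < 0),
    ‖∫ x in α 0..α 0 + 2 * π, (u' x : ℂ) * ee x ^ 2‖ ≤
      6 * ‖∫ x in α 0..α 0 + 2 * π, (u' x : ℂ) * ee x‖

lemma j9_der {U : ℂ → ℂ} {R : ℝ} (hR : 1 < R) (hU : DifferentiableOn ℂ U (Metric.ball 0 R))
    (x : ℝ) : HasDerivAt (fun x : ℝ => U (ee (-x)))
      (Complex.I * ee (-x) * deriv U (ee (-x))) x := by
  have h1 : HasDerivAt U (deriv U (ee (-x))) (ee (-x)) :=
    (hU.differentiableAt (Metric.isOpen_ball.mem_nhds (j9_mem hR _))).hasDerivAt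
  have h2 : HasDerivAt (fun x : ℝ => ee (-x)) (ee (-x) * Complex.I) x := by
    simp only [j9_ee]; exact hasDerivAt_circleMap 0 1 x
  exact (h1.scomp x h2).congr_deriv (by rw [smul_eq_mul]; ring)

lemma j9_fin {G : ℂ → ℂ} {R : ℝ} (hR : 1 < R) (hG : DifferentiableOn ℂ G (Metric.ball 0 R))
    (h0 : G 0 ≠ 0) :
    {x ∈ Set.Ico 0 (2 * π) | (Complex.I * ee (-x) * G (ee (-x))).re = 0}.Finite := by
  have an : AnalyticOnNhd ℝ (fun x : ℝ => (Complex.I * ee (-x) * G (ee (-x))).re) Set.univ := by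
    intro x _
    have a1 : AnalyticAt ℝ (fun x : ℝ => ee (-x)) x := by
      simp only [j9_ee]; exact analyticOnNhd_circleMap 0 1 x trivial
    have a2 : AnalyticAt ℝ G (ee (-x)) :=
      (hG.analyticAt (Metric.isOpen_ball.mem_nhds (j9_mem hR _))).restrictScalars
    have a3 : AnalyticAt ℝ (fun x : ℝ => G (ee (-x))) x :=
      AnalyticAt.comp (f := fun x : ℝ => ee (-x)) a2 a1
    exact (Complex.reCLM.analyticAt _).comp ((analyticAt_const.mul a1).mul a3)
  rcases (an.mono (Set.subset_univ (Set.Icc 0 (2 * π)))).eqOn_zero_or_eventually_ne_zero_of_preconnected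
    isPreconnected_Icc with h | h
  · exfalso
    have e := (ids hR hG 0).1
    rw [intervalIntegral.integral_congr (g := fun _ => 0)] at e
    · simp [pi_ne_zero, h0] at e
    · intro x hx
      rw [zero_add, Set.uIcc_of_le (by positivity)] at hx
      have := h hx
      simp only [Pi.zero_apply] at this
      simp only [this]; simp
  · refine (isCompact_Icc.finite_sdiff_of_mem_codiscreteWithin h).subset fun x hx => ?_
    exact ⟨Set.Ico_subset_Icc_self hx.1, fun hc => hc hx.2⟩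

lemma j9_sg {a b : ℂ} (h : ‖b‖ < ‖a‖) (h0 : (a + b).re = 0) : 0 < (a - b).im * (a + b).im := by
  have h1 : ‖b‖ ^ 2 < ‖a‖ ^ 2 := by gcongr
  rw [Complex.sq_norm, Complex.sq_norm, Complex.normSq_apply, Complex.normSq_apply] at h1
  rw [Complex.add_re] at h0
  have : b.re = -a.re := by linarith
  rw [this] at h1
  rw [Complex.sub_im, Complex.add_im]
  nlinarith

lemma j9_core (geo : J9Geo) (approx : J9App) {p q : ℂ → ℂ} {R : ℝ} (hR : 1 < R) (hp : DifferentiableOn ℂ p (Metric.ball 0 R))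
    (hq : DifferentiableOn ℂ q (Metric.ball 0 R))
    (inj : Set.InjOn (fun z => p z + (starRingEnd ℂ) (q z)) (Metric.ball 0 R))
    (jac : ∀ z ∈ Metric.ball (0:ℂ) R, ‖deriv q z‖ < ‖deriv p z‖) :
    ‖deriv (deriv p) 0 + deriv (deriv q) 0‖ ≤ 6 * ‖deriv p 0 + deriv q 0‖ := by
  have b0 : (0:ℂ) ∈ Metric.ball (0:ℂ) R := Metric.mem_ball_self (by linarith)
  have dp := hp.deriv Metric.isOpen_ball
  have dq := hq.deriv Metric.isOpen_ball
  set G : ℂ → ℂ := fun z => deriv p z + deriv q z with hG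
  have dG : DifferentiableOn ℂ G (Metric.ball 0 R) := dp.add dq
  have G0 : G 0 ≠ 0 := fun hc => by
    have := jac 0 b0
    rw [eq_neg_of_add_eq_zero_left hc, norm_neg] at this
    exact lt_irrefl _ this
  have hu : ∀ x : ℝ, HasDerivAt (fun x : ℝ => (p (ee (-x)) + q (ee (-x))).re)
      (Complex.I * ee (-x) * G (ee (-x))).re x := fun x => by
    simp only [hG, mul_add]
    exact Complex.reCLM.hasFDerivAt.comp_hasDerivAt x ((j9_der hR hp x).add (j9_der hR hq x))
  have hv : ∀ x : ℝ, HasDerivAt (fun x : ℝ => (p (ee (-x)) - q (ee (-x))).im)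
      (Complex.I * ee (-x) * deriv p (ee (-x)) - Complex.I * ee (-x) * deriv q (ee (-x))).im x :=
    fun x => Complex.imCLM.hasFDerivAt.comp_hasDerivAt x ((j9_der hR hp x).sub (j9_der hR hq x))
  have cu : Continuous fun x : ℝ => (Complex.I * ee (-x) * G (ee (-x))).re :=
    Complex.continuous_re.comp ((continuous_const.mul j9_cont).mul (j9_cc hR dG))
  have sg : ∀ x : ℝ, (Complex.I * ee (-x) * G (ee (-x))).re = 0 →
      0 < (Complex.I * ee (-x) * deriv p (ee (-x)) - Complex.I * ee (-x) * deriv q (ee (-x))).im *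
        (Complex.I * ee (-x) * G (ee (-x))).im := fun x hx => by
    simp only [hG, mul_add] at hx ⊢
    refine j9_sg ?_ hx
    simpa [j9_norm] using jac _ (j9_mem hR (-x))
  obtain ⟨M, α, s, y, A, z0, sgn, P⟩ := geo hu hv cu (fun x => by simp only [j9_per])
    (fun x => by simp only [j9_per]) (fun x x' e1 e2 => by
      have : ee (-x') = ee (-x) := by
        refine inj (j9_mem hR _) (j9_mem hR _) (Complex.ext ?_ ?_)
        · simpa using e1.symm
        · simpa [sub_eq_add_neg] using e2.symm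
      rw [ee, ee, Complex.exp_eq_exp_iff_exists_int] at this
      obtain ⟨k, hk⟩ := this
      have := congrArg Complex.im hk
      simp at this
      exact ⟨k, by linarith⟩) (j9_fin hR dG G0) (fun x hx hc => by
      have := sg x hx
      rw [hc, zero_mul] at this
      exact lt_irrefl _ this)
  obtain ⟨i1, i2, i3⟩ := ids hR dG (α 0)
  have := approx A hu cu sgn P fun k hk => by
    obtain ⟨j1, j2⟩ := i3 (α k) (z0 k)
    refine ⟨j1, ?_⟩
    rw [j2]
    have a1 := sg _ (z0 k)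
    have a2 := hk.2
    have a3 := pi_pos
    set V := (Complex.I * ee (-α k) * deriv p (ee (-α k)) -
      Complex.I * ee (-α k) * deriv q (ee (-α k))).im
    set W := (Complex.I * ee (-α k) * G (ee (-α k))).im
    have a4 : s k * W < 0 := by
      rcases P.sgn k with h | h <;> rw [h] at a2 ⊢ <;> nlinarith
    nlinarith
  rw [i1, i2] at this
  have e : deriv G 0 = deriv (deriv p) 0 + deriv (deriv q) 0 :=
    deriv_add (dp.differentiableAt (Metric.isOpen_ball.mem_nhds b0))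
      (dq.differentiableAt (Metric.isOpen_ball.mem_nhds b0))
  rw [← e]
  simp only [norm_mul, Complex.norm_I, Complex.norm_real, Real.norm_eq_abs, abs_of_pos pi_pos,
    mul_one] at this
  exact le_of_mul_le_mul_left (by linarith) pi_pos

lemma j9_sc {h : ℂ → ℂ} (hh : DifferentiableOn ℂ h (Metric.ball 0 1)) (m : ℂ) {r : ℝ} (r0 : 0 < r) :
    (∀ z ∈ Metric.ball (0:ℂ) r⁻¹, (r:ℂ) * z ∈ Metric.ball (0:ℂ) 1) ∧
    DifferentiableOn ℂ (fun z => m * h (r * z)) (Metric.ball 0 r⁻¹) ∧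
    (∀ z, deriv (fun z => m * h (r * z)) z = m * r * deriv h (r * z)) ∧
    deriv (deriv fun z => m * h (r * z)) 0 = m * r ^ 2 * deriv (deriv h) 0 := by
  have h1 : ∀ z ∈ Metric.ball (0:ℂ) r⁻¹, (r:ℂ) * z ∈ Metric.ball (0:ℂ) 1 := fun z hz => by
    rw [mem_ball_zero_iff] at hz ⊢
    rw [norm_mul, Complex.norm_real, Real.norm_eq_abs, abs_of_pos r0]
    calc r * ‖z‖ < r * r⁻¹ := by gcongr
      _ = 1 := mul_inv_cancel₀ r0.ne'
  have h3 : ∀ (k : ℂ → ℂ) (c z : ℂ), deriv (fun z => c * k (r * z)) z = c * r * deriv k (r * z) :=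
    fun k c z => by rw [deriv_const_mul_field, deriv_comp_mul_left, smul_eq_mul, mul_assoc]
  refine ⟨h1, (hh.comp (by fun_prop) h1).const_mul m, h3 h m, ?_⟩
  rw [funext (h3 h m), h3, mul_zero]; ring

theorem order3_of (geo : J9Geo) (approx : J9App) {h g : ℂ → ℂ} (hh : DifferentiableOn ℂ h (Metric.ball 0 1))
    (hg : DifferentiableOn ℂ g (Metric.ball 0 1))
    (inj : Set.InjOn (fun z => h z + (starRingEnd ℂ) (g z)) (Metric.ball 0 1))
    (jac : ∀ z ∈ Metric.ball (0:ℂ) 1, ‖deriv g z‖ < ‖deriv h z‖) (lam : ℂ) (hl : ‖lam‖ ≤ 1) :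
    ‖iteratedDeriv 2 h 0 + lam * iteratedDeriv 2 g 0‖ ≤ 6 * ‖deriv h 0 + lam * deriv g 0‖ := by
  have i2 : ∀ k : ℂ → ℂ, iteratedDeriv 2 k 0 = deriv (deriv k) 0 := fun k => by
    rw [iteratedDeriv_succ, iteratedDeriv_one]
  rw [i2, i2]
  set h2 := deriv (deriv h) 0 with e2
  set g2 := deriv (deriv g) 0 with f2
  have main : ∀ l : ℂ, ‖l‖ = 1 → ‖h2 + l * g2‖ ≤ 6 * ‖deriv h 0 + l * deriv g 0‖ := by
    intro l l1
    obtain ⟨n, hn⟩ := IsAlgClosed.exists_eq_mul_self l
    have n1 : ‖n‖ = 1 := by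
      rw [hn, norm_mul] at l1
      nlinarith [norm_nonneg n]
    set m := (starRingEnd ℂ) n with hm
    have mn : m * n = 1 := by rw [hm, Complex.conj_mul', n1]; simp
    have m1 : ‖m‖ = 1 := by rw [hm, Complex.norm_conj, n1]
    have m0 : m ≠ 0 := left_ne_zero_of_mul_eq_one mn
    refine le_of_forall_lt_imp_le_of_dense fun c hc => ?_
    rcases le_or_gt c 0 with c0 | c0
    · exact c0.trans (by positivity)
    have A0 : 0 < ‖h2 + l * g2‖ := c0.trans hc
    set r := c / ‖h2 + l * g2‖ with hr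
    have r0 : 0 < r := div_pos c0 A0
    have r1 : r < 1 := (div_lt_one A0).2 hc
    have rc : (r:ℂ) ≠ 0 := by exact_mod_cast r0.ne'
    obtain ⟨a1, a2, a3, a4⟩ := j9_sc hh m r0
    obtain ⟨-, b2, b3, b4⟩ := j9_sc hg n r0
    have := j9_core geo approx ((one_lt_inv₀ r0).2 r1) a2 b2 (fun z hz w hw e => by
      refine mul_left_cancel₀ rc (inj (a1 z hz) (a1 w hw) (mul_left_cancel₀ m0 ?_))
      simp only [map_mul, ← hm] at e
      simp only [mul_add]
      exact e) (fun z hz => by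
      rw [a3, b3]
      simp only [norm_mul, m1, n1, Complex.norm_real, Real.norm_eq_abs, abs_of_pos r0, one_mul]
      exact mul_lt_mul_of_pos_left (jac _ (a1 z hz)) r0)
    rw [a4, b4, a3, b3, mul_zero, ← e2, ← f2,
      show m * r ^ 2 * h2 + n * r ^ 2 * g2 = m * r * (r * (h2 + l * g2)) by
        rw [hn]; linear_combination (-(r:ℂ) ^ 2 * n * g2) * mn,
      show m * r * deriv h 0 + n * r * deriv g 0 = m * r * (deriv h 0 + l * deriv g 0) by
        rw [hn]; linear_combination (-(r:ℂ) * n * deriv g 0) * mn] at this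
    simp only [norm_mul, m1, Complex.norm_real, Real.norm_eq_abs, abs_of_pos r0, one_mul] at this
    have e : r * ‖h2 + l * g2‖ = c := div_mul_cancel₀ _ A0.ne'
    rw [e] at this
    exact le_of_mul_le_mul_left (by linarith) r0
  have j0 := jac 0 (Metric.mem_ball_self one_pos)
  have nz : ∀ l : ℂ, ‖l‖ ≤ 1 → deriv h 0 + l * deriv g 0 ≠ 0 := fun l l1 hc => by
    rw [eq_neg_of_add_eq_zero_left hc, norm_neg, norm_mul] at j0
    nlinarith [norm_nonneg (deriv g 0)]
  have cb : closure (Metric.ball (0:ℂ) 1) = Metric.closedBall 0 1 := closure_ball _ one_ne_zero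
  have := Complex.norm_le_of_forall_mem_frontier_norm_le (U := Metric.ball (0:ℂ) 1) (C := 6)
    (f := fun l => (h2 + l * g2) / (deriv h 0 + l * deriv g 0)) Metric.isBounded_ball
    (DifferentiableOn.diffContOnCl (by
      rw [cb]
      exact DifferentiableOn.div (by fun_prop) (by fun_prop)
        fun l hl => nz l (mem_closedBall_zero_iff.1 hl)))
    (fun l hl => by
      rw [frontier_ball _ one_ne_zero, mem_sphere_zero_iff_norm] at hl
      rw [norm_div, div_le_iff₀ (norm_pos_iff.2 (nz l hl.le))]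
      exact main l hl) (z := lam) (by rw [cb]; exact mem_closedBall_zero_iff.2 hl)
  rwa [norm_div, div_le_iff₀ (norm_pos_iff.2 (nz lam hl))] at this

end Pool.Agent.Lib.MP_9dc04a_an
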