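import Pool.Agent.Lib.MP_9dc04a_an.QDef

set_option autoImplicit false

namespace Pool.Agent.Lib.MP_9dc04a_an

open Finset Real Polynomial

variable {N : ℕ} {t : ℤ → ℝ} {v : ℤ → ℂ}

lemma q1_eval (z : ℂ) : (Vp N t v).eval z = ∑ j ∈ Ico (0:ℤ) N, Dv v j * ee (t j) *
    ∏ i ∈ (Ico (0:ℤ) N).erase j, (1 - z * ee (t i)) := by
  simp only [Vp, eval_finsetSum, eval_mul, eval_C, eval_prod, eval_sub, eval_one, eval_X]

theorem Vp_zero : (Vp N t v).eval 0 = Vk 1 N t v := by simp [q1_eval, Vk]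

lemma q1_Dv (pv : ∀ j, v (j + N) = v j) (j : ℤ) : Dv v (j + N) = Dv v j := by
  rw [Dv, Dv, pv, show j + N - 1 = j - 1 + N by ring, pv]

theorem Vp_pole (T : Pol N t) (pv : ∀ j, v (j + N) = v j) (j : ℤ) : (Vp N t v).eval (ee (-t j)) =
    Dv v j * ee (t j) * ∏ i ∈ Ioo j (j + N), (1 - ee (-t j) * ee (t i)) := by
  have e := j1_md (f := fun i => ee (t i)) (j1_eep T) j
  rw [q1_eval, sum_eq_single_of_mem _ (j1_mem T.N0 j) fun i _ hi => ?_,
    j1_prod T.N0 (fun i => by rw [j1_eep T]), j1_md (q1_Dv pv), e]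
  rw [prod_eq_zero (mem_erase.2 ⟨hi.symm, j1_mem T.N0 j⟩) (by rw [e, j1_ee_neg, sub_self]),
    mul_zero]

lemma q1_tel (v : ℤ → ℂ) (n : ℕ) : ∑ j ∈ Ico (0:ℤ) n, Dv v j = v (n - 1) - v (-1) := by
  induction n with
  | zero => simp
  | succ n ih =>
    rw [Nat.cast_succ, ← insert_Ico_right_eq_Ico_add_one (by omega), sum_insert (by simp), ih, Dv]
    simp

lemma q1_sum0 (pv : ∀ j, v (j + N) = v j) : ∑ j ∈ Ico (0:ℤ) N, Dv v j = 0 := by
  rw [q1_tel, show (N:ℤ) - 1 = -1 + N by ring, pv, sub_self]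

theorem Vp_deg (pv : ∀ j, v (j + N) = v j) (g0 : Vk (-1) N t v = 0) (h : Vp N t v ≠ 0) :
    (Vp N t v).natDegree + 3 ≤ N := by
  have e0 := q1_sum0 pv
  have e : X * (X * Vp N t v) = ∑ j ∈ Ico (0:ℤ) N,
      C (Dv v j * ee (t j) ^ (-1:ℤ)) * ∏ i ∈ (Ico (0:ℤ) N).erase j, (1 - X * C (ee (t i))) := by
    have e1 : (∑ j ∈ Ico (0:ℤ) N, (X * C (Dv v j) + C (Dv v j * ee (t j) ^ (-1:ℤ)))) *
        (-∏ i ∈ Ico (0:ℤ) N, (1 - X * C (ee (t i)))) = 0 := by
      rw [sum_add_distrib, ← mul_sum, ← map_sum, ← map_sum, e0, ← Vk, g0]; simp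
    rw [Vp, mul_sum, mul_sum, ← sub_eq_zero, ← sum_sub_distrib]
    refine Eq.trans ?_ e1
    rw [sum_mul]
    refine sum_congr rfl fun j hj => ?_
    have e2 : (C (ee (t j) ^ (-1:ℤ)) * C (ee (t j)) : ℂ[X]) = 1 := by
      rw [← C_mul, zpow_neg_one, inv_mul_cancel₀ (j1_ee_ne _), C_1]
    rw [← mul_prod_erase _ _ hj, C_mul, C_mul]
    linear_combination (-X * C (Dv v j) * ∏ i ∈ (Ico (0:ℤ) N).erase j, (1 - X * C (ee (t i)))) * e2
  have d : (X * (X * Vp N t v)).natDegree ≤ N - 1 := by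
    rw [e]
    refine natDegree_sum_le_of_forall_le _ _ fun j hj => (natDegree_C_mul_le _ _).trans
      ((j1_deg _ _).trans ?_)
    rw [card_erase_of_mem hj]; simp
  rw [natDegree_X_mul (mul_ne_zero X_ne_zero h), natDegree_X_mul h] at d
  omega

lemma q1_fac {p : ℂ[X]} (h0 : p.eval 0 ≠ 0) (z : ℂ) :
    p.eval z = p.eval 0 * (p.roots.map fun ζ => 1 - ζ⁻¹ * z).prod := by
  have hp : p ≠ 0 := fun h => h0 (by rw [h, eval_zero])
  have e : ∀ y, p.eval y = p.leadingCoeff * (p.roots.map fun ζ => y - ζ).prod := fun y => by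
    conv_lhs => rw [← C_leadingCoeff_mul_prod_multiset_X_sub_C
      (IsAlgClosed.card_roots_eq_natDegree (p := p))]
    rw [eval_mul, eval_C, eval_multiset_prod, Multiset.map_map]
    simp
  rw [e z, e 0, mul_assoc, ← Multiset.prod_map_mul]
  congr 2
  refine Multiset.map_congr rfl fun ζ hζ => ?_
  have : ζ ≠ 0 := fun h => h0 (by subst h; exact (mem_roots hp).1 hζ)
  field_simp
  ring

lemma Sp.v0 (S : Sp N t v) : (Vp N t v).eval 0 ≠ 0 := S.nz 0 (by simp)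

lemma Sp.ne (S : Sp N t v) : Vp N t v ≠ 0 := fun h => S.v0 (by rw [h, eval_zero])

lemma Sp.card (S : Sp N t v) : (Vp N t v).roots.card + 3 ≤ N := by
  rw [IsAlgClosed.card_roots_eq_natDegree]; exact Vp_deg S.pv S.g0 S.ne

lemma Sp.root (S : Sp N t v) {ζ : ℂ} (h : ζ ∈ (Vp N t v).roots) : ‖ζ⁻¹‖ ≤ 1 := by
  rw [norm_inv]
  exact inv_le_one_of_one_le₀ (not_lt.1 fun l => S.nz ζ l ((mem_roots S.ne).1 h))

lemma q1_lo (R : Multiset ℂ) (f : ℂ → ℂ) {a : ℝ} (a0 : 0 ≤ a) (h : ∀ ζ ∈ R, a ≤ ‖f ζ‖) :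
    a ^ R.card ≤ ‖(R.map f).prod‖ := by
  induction R using Multiset.induction_on with
  | empty => simp
  | cons x R ih =>
    rw [Multiset.map_cons, Multiset.prod_cons, Multiset.card_cons, norm_mul, pow_succ']
    exact mul_le_mul (h x (by simp)) (ih fun ζ hζ => h ζ (by simp [hζ])) (by positivity)
      (norm_nonneg _)

lemma q1_hi (R : Multiset ℂ) (f : ℂ → ℂ) {a : ℝ} (a0 : 0 ≤ a) (h : ∀ ζ ∈ R, ‖f ζ‖ ≤ a) :
    ‖(R.map f).prod‖ ≤ a ^ R.card := by
  induction R using Multiset.induction_on with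
  | empty => simp
  | cons x R ih =>
    rw [Multiset.map_cons, Multiset.prod_cons, Multiset.card_cons, norm_mul, pow_succ']
    exact mul_le_mul (h x (by simp)) (ih fun ζ hζ => h ζ (by simp [hζ])) (norm_nonneg _) a0

theorem Sp.low (S : Sp N t v) (z : ℂ) (hz : ‖z‖ < 1) :
    ‖Vk 1 N t v‖ * (1 - ‖z‖) ^ N ≤ ‖(Vp N t v).eval z‖ := by
  rw [q1_fac S.v0 z, norm_mul, Vp_zero]
  refine mul_le_mul_of_nonneg_left (le_trans ?_ (q1_lo _ _ (a := 1 - ‖z‖) (by linarith)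
    fun ζ h => ?_)) (norm_nonneg _)
  · exact pow_le_pow_of_le_one (by linarith) (by linarith [norm_nonneg z]) (by linarith [S.card])
  · have := norm_sub_norm_le (1:ℂ) (ζ⁻¹ * z)
    rw [norm_one, norm_mul] at this
    nlinarith [S.root h, norm_nonneg z]

lemma q1_pne (T : Pol N t) (j : ℤ) : ∏ i ∈ Ioo j (j + N), (1 - ee (-t j) * ee (t i)) ≠ 0 :=
  prod_ne_zero_iff.2 fun i hi => by
    rw [mem_Ioo] at hi
    exact j1_ne (T.tm hi.1) (T.tp j ▸ T.tm hi.2)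

theorem Sp.bdd (T : Pol N t) : ∃ M : ℝ, ∀ v, Sp N t v → ∀ j, ‖Dv v j‖ ≤ M * ‖Vk 1 N t v‖ := by
  refine ⟨(∑ j ∈ Ico (0:ℤ) N, ‖∏ i ∈ Ioo j (j + N), (1 - ee (-t j) * ee (t i))‖⁻¹) * 2 ^ N,
    fun v S j => ?_⟩
  rw [← j1_md (q1_Dv S.pv) j]
  have hj := j1_mem T.N0 j
  generalize j % N = k at hj
  have c0 := norm_pos_iff.2 (q1_pne T k)
  have e := congrArg norm (Vp_pole T S.pv k)
  rw [q1_fac S.v0, Vp_zero, norm_mul, norm_mul, norm_mul, j1_ee_norm, mul_one] at e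
  have h1 := (q1_hi (Vp N t v).roots (fun ζ => 1 - ζ⁻¹ * ee (-t k)) (a := 2) (by norm_num)
    fun ζ h => by
      have := norm_sub_le (1:ℂ) (ζ⁻¹ * ee (-t k))
      rw [norm_one, norm_mul, j1_ee_norm] at this
      linarith [S.root h]).trans
    (pow_le_pow_right₀ (by norm_num) (show _ ≤ N by linarith [S.card]))
  have h2 := single_le_sum (f := fun j => ‖∏ i ∈ Ioo j (j + (N:ℤ)), (1 - ee (-t j) * ee (t i))‖⁻¹)
    (fun _ _ => by positivity) hj
  calc ‖Dv v k‖ = ‖∏ i ∈ Ioo k (k + N), (1 - ee (-t k) * ee (t i))‖⁻¹ *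
        ‖((Vp N t v).roots.map fun ζ => 1 - ζ⁻¹ * ee (-t k)).prod‖ * ‖Vk 1 N t v‖ := by
        rw [mul_assoc, mul_comm _ ‖Vk 1 N t v‖, e]; field_simp
    _ ≤ _ := mul_le_mul_of_nonneg_right (mul_le_mul h2 h1 (norm_nonneg _)
        ((inv_nonneg.2 c0.le).trans h2)) (norm_nonneg _)

/-- `x` is an argument of `z` -/
def q1A (z : ℂ) (x : ℝ) : Prop := ∃ r : ℝ, 0 < r ∧ z = r * ee (-x)

lemma q1A.mul {z w : ℂ} {x y : ℝ} (a : q1A z x) (b : q1A w y) : q1A (z * w) (x + y) := by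
  obtain ⟨r, r0, rfl⟩ := a
  obtain ⟨s, s0, rfl⟩ := b
  exact ⟨r * s, mul_pos r0 s0, by rw [neg_add, j1_ee_add]; push_cast; ring⟩

lemma q1_exp (x : ℝ) : ee (-x) = Complex.exp (x * Complex.I) := by
  rw [ee]; congr 1; push_cast; ring

lemma q1A.arg {z : ℂ} (h : z ≠ 0) : q1A z z.arg :=
  ⟨‖z‖, norm_pos_iff.2 h, by rw [q1_exp, Complex.norm_mul_exp_arg_mul_I]⟩

lemma q1A.uniq {z : ℂ} {x y : ℝ} (a : q1A z x) (b : q1A z y) : ∃ k : ℤ, x - y = 2 * π * k := by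
  obtain ⟨r, r0, e⟩ := a
  obtain ⟨s, s0, f⟩ := b
  have h := congrArg norm (e.symm.trans f)
  rw [norm_mul, norm_mul, j1_ee_norm, j1_ee_norm, mul_one, mul_one, Complex.norm_real,
    Complex.norm_real, Real.norm_of_nonneg r0.le, Real.norm_of_nonneg s0.le] at h
  subst h
  have := mul_left_cancel₀ (Complex.ofReal_ne_zero.2 r0.ne') (e.symm.trans f)
  rw [q1_exp, q1_exp, Complex.exp_eq_exp_iff_exists_int] at this
  obtain ⟨k, hk⟩ := this
  refine ⟨k, ?_⟩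
  have := congrArg Complex.im hk
  simp at this
  linarith

lemma q1A.eq {z : ℂ} {x : ℝ} (a : q1A z x) (h1 : -π < x) (h2 : x ≤ π) : z.arg = x := by
  obtain ⟨r, r0, rfl⟩ := a
  rw [q1_exp, Complex.exp_mul_I]
  exact Complex.arg_mul_cos_add_sin_mul_I r0 ⟨h1, h2⟩

lemma q1A.mprod (R : Multiset ℂ) (f : ℂ → ℂ) (h : ∀ ζ ∈ R, f ζ ≠ 0) :
    q1A (R.map f).prod (R.map fun ζ => (f ζ).arg).sum := by
  induction R using Multiset.induction_on with
  | empty => exact ⟨1, one_pos, by simp [j1_ee_zero]⟩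
  | cons x R ih =>
    rw [Multiset.map_cons, Multiset.prod_cons, Multiset.map_cons, Multiset.sum_cons]
    exact (q1A.arg (h x (by simp))).mul (ih fun ζ hζ => h ζ (by simp [hζ]))

lemma q1A.fprod (s : Finset ℤ) (f : ℤ → ℂ) (a : ℤ → ℝ) (h : ∀ i ∈ s, q1A (f i) (a i)) :
    q1A (∏ i ∈ s, f i) (∑ i ∈ s, a i) := by
  induction s using Finset.induction_on with
  | empty => exact ⟨1, one_pos, by simp [j1_ee_zero]⟩
  | insert x s hx ih =>
    rw [prod_insert hx, sum_insert hx]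
    exact (h x (by simp)).mul (ih fun i hi => h i (by simp [hi]))

lemma q1_cs (x : ℝ) : ee (-x) = (cos x : ℝ) + (sin x : ℝ) * Complex.I := by
  rw [q1_exp, Complex.exp_mul_I, Complex.ofReal_cos, Complex.ofReal_sin]

lemma q1_one {x : ℝ} (h1 : 0 < x) (h2 : x < 2 * π) :
    q1A (1 - ee (-x)) (x / 2 - π / 2) ∧ q1A (1 - ee x) (π / 2 - x / 2) := by
  have s0 := j1_sin h1 h2
  have c1 : cos x = 1 - 2 * sin (x / 2) ^ 2 := by
    rw [show x = 2 * (x / 2) by ring, cos_two_mul, ← sin_sq_add_cos_sq (x / 2)]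
    simp only [mul_div_cancel_left₀ _ (two_ne_zero' ℝ)]
    nlinarith [sin_sq_add_cos_sq (x / 2)]
  have c2 : sin x = 2 * sin (x / 2) * cos (x / 2) := by
    rw [← sin_two_mul]; congr 1; ring
  refine ⟨⟨2 * sin (x / 2), by linarith, ?_⟩, ⟨2 * sin (x / 2), by linarith, ?_⟩⟩
  · rw [q1_cs, q1_cs, cos_sub_pi_div_two, sin_sub_pi_div_two, c1, c2]
    push_cast; ring
  · rw [← neg_neg x, q1_cs, neg_neg, q1_cs, cos_pi_div_two_sub, sin_pi_div_two_sub, cos_neg,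
      sin_neg, c1, c2]
    push_cast; ring

lemma q1_re {w : ℂ} (hw : ‖w‖ ≤ 1) (x : ℝ) : |(1 - w * ee x).arg| ≤ π / 2 := by
  rw [Complex.abs_arg_le_pi_div_two_iff]
  have := Complex.re_le_norm (w * ee x)
  rw [norm_mul, j1_ee_norm] at this
  rw [Complex.sub_re, Complex.one_re]
  linarith

lemma q1_step {w : ℂ} (hw : ‖w‖ ≤ 1) {x y : ℝ} (h1 : x < y) (h2 : y < x + 2 * π)
    (hx : 1 - w * ee (-x) ≠ 0) (hy : 1 - w * ee (-y) ≠ 0) :
    (1 - w * ee (-y)).arg - (1 - w * ee (-x)).arg ≤ (y - x) / 2 := by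
  by_contra hc
  rw [not_le] at hc
  have a1 := abs_le.1 (q1_re hw (-x))
  have a2 := abs_le.1 (q1_re hw (-y))
  obtain ⟨r, r0, e⟩ := q1A.arg hx
  obtain ⟨s, s0, f⟩ := q1A.arg hy
  generalize (1 - w * ee (-x)).arg = a at *
  generalize (1 - w * ee (-y)).arg = b at *
  have s1 := sin_pos_of_pos_of_lt_pi (x := b - a - (y - x) / 2) (by linarith) (by linarith)
  have s2 := j1_sin (x := y - x) (by linarith) (by linarith)
  obtain ⟨d, hd⟩ : ∃ d, d = (y - x) / 2 := ⟨_, rfl⟩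
  rw [← hd] at s1 s2
  obtain ⟨u, hu⟩ : ∃ u, u = w * ee (-(x + d)) := ⟨_, rfl⟩
  have n1 : u.re ^ 2 + u.im ^ 2 ≤ 1 := by
    have : ‖u‖ ≤ 1 := by rw [hu, norm_mul, j1_ee_norm, mul_one]; exact hw
    have h := Complex.sq_norm u
    rw [Complex.normSq_apply] at h
    nlinarith [norm_nonneg u]
  have e1 : 1 - u * ee (-(-d)) = r * ee (-a) := by
    rw [← e, hu, mul_assoc, ← j1_ee_add]; congr 3; ring
  have f1 : ee (-(-d)) - u = s * ee (-(b - d)) := by
    have : -(x + d) = -y + d := by rw [hd]; ring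
    rw [hu, this, neg_neg, show -(b - d) = -b + d by ring, j1_ee_add, j1_ee_add]
    linear_combination ee d * f
  rw [q1_cs, q1_cs, cos_neg, sin_neg] at e1 f1
  have e2 := congrArg Complex.re e1
  have e3 := congrArg Complex.im e1
  have f2 := congrArg Complex.re f1
  have f3 := congrArg Complex.im f1
  simp only [Complex.sub_re, Complex.sub_im, Complex.mul_re, Complex.mul_im, Complex.add_re,
    Complex.add_im, Complex.ofReal_re, Complex.ofReal_im, Complex.I_re, Complex.I_im,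
    Complex.one_re, Complex.one_im] at e2 e3 f2 f3
  rw [show b - a - d = (b - d) - a by ring, sin_sub] at s1
  have k : r * s * (sin (b - d) * cos a - cos (b - d) * sin a) =
      -((1 - (u.re ^ 2 + u.im ^ 2)) * sin d) := by
    have h : r * s * (sin (b - d) * cos a - cos (b - d) * sin a) =
        (-sin d - u.im) * (1 - (u.re * cos d + u.im * sin d)) -
          (cos d - u.re) * (-(u.im * cos d - u.re * sin d)) := by
      have g1 : r * cos a = 1 - (u.re * cos d + u.im * sin d) := by linarith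
      have g2 : r * sin a = -(u.im * cos d - u.re * sin d) := by linarith
      have g3 : s * cos (b - d) = cos d - u.re := by linarith
      have g4 : s * sin (b - d) = -sin d - u.im := by linarith
      rw [← g1, ← g2, ← g3, ← g4]; ring
    rw [h]; linear_combination u.im * sin_sq_add_cos_sq d
  nlinarith [mul_pos (mul_pos r0 s0) s1, mul_nonneg (sub_nonneg.2 n1) s2.le]

lemma q1_arc {x y τ : ℝ} (h1 : x < τ) (h2 : τ < y) (h3 : y < x + 2 * π) :
    (1 - (ee (-τ))⁻¹ * ee (-y)).arg - (1 - (ee (-τ))⁻¹ * ee (-x)).arg = (y - x) / 2 - π := by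
  have e : (ee (-τ))⁻¹ = ee τ := inv_eq_of_mul_eq_one_right (j1_ee_neg τ)
  rw [e, ← j1_ee_add, ← j1_ee_add, show τ + -y = -(y - τ) by ring, ← sub_eq_add_neg,
    (q1_one (x := y - τ) (by linarith) (by linarith)).1.eq (by linarith) (by linarith),
    (q1_one (x := τ - x) (by linarith) (by linarith)).2.eq (by linarith) (by linarith)]
  ring

lemma q1_sum (R : Multiset ℂ) (f : ℂ → ℝ) {a : ℝ} (h : ∀ ζ ∈ R, f ζ ≤ a) :
    (R.map f).sum ≤ R.card * a := by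
  have := Multiset.sum_le_card_nsmul (R.map f) a (by simpa using h)
  simpa using this

theorem Sp.angle (S : Sp N t v) {φ : ℤ → ℝ} (dir : ∀ j, ∃ r : ℝ, 0 < r ∧ Dv v j = r * ee (-φ j))
    (pp : ∀ j, φ (j + N) = φ j + 2 * π) (lo : ∀ j, φ j - π ≤ φ (j + 1)) (j : ℤ) :
    φ (j + 1) < φ j + π ∧
    (∀ τ, t j < τ → τ < t (j + 1) → (Vp N t v).eval (ee (-τ)) = 0 → φ (j + 1) < φ j) ∧
    ∀ τ τ', t j < τ → τ < t (j + 1) → t j < τ' → τ' < t (j + 1) →
      ¬(X - C (ee (-τ))) * (X - C (ee (-τ'))) ∣ Vp N t v := by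
  have T := S.pol
  have cd := S.card
  obtain ⟨R, hR⟩ : ∃ R, R = (Vp N t v).roots := ⟨_, rfl⟩
  rw [← hR] at cd
  have l1 : ∀ j, t j < t (j + 1) := fun j => T.tm (by omega)
  have l2 : ∀ j, t (j + 1) < t j + 2 * π := fun j => T.tp j ▸ T.tm (by omega)
  have ev : ∀ j, Dv v j * ee (t j) * ∏ i ∈ Ioo j (j + N), (1 - ee (-t j) * ee (t i)) =
      (Vp N t v).eval 0 * (R.map fun ζ => 1 - ζ⁻¹ * ee (-t j)).prod := fun j => by
    rw [← Vp_pole T S.pv, q1_fac S.v0, hR]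
  have nz : ∀ j, ∀ ζ ∈ R, 1 - ζ⁻¹ * ee (-t j) ≠ 0 := fun j ζ h e => by
    have := ev j
    rw [Multiset.prod_eq_zero (Multiset.mem_map.2 ⟨ζ, h, e⟩), mul_zero] at this
    obtain ⟨r, r0, hr⟩ := dir j
    exact mul_ne_zero (mul_ne_zero (hr ▸ mul_ne_zero (Complex.ofReal_ne_zero.2 r0.ne')
      (j1_ee_ne _)) (j1_ee_ne _)) (q1_pne T j) this
  obtain ⟨a, ha⟩ : ∃ a : ℤ → ℂ → ℝ, ∀ j ζ, a j ζ = (1 - ζ⁻¹ * ee (-t j)).arg := ⟨_, fun _ _ => rfl⟩
  obtain ⟨B, hB⟩ : ∃ B : ℤ → ℝ, ∀ j, B j = ∑ i ∈ Ioo j (j + N), (π / 2 - (t i - t j) / 2) :=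
    ⟨_, fun _ => rfl⟩
  obtain ⟨κ, hκ⟩ : ∃ κ : ℤ → ℝ, ∀ j, κ j = φ j + -t j + B j -
    (((Vp N t v).eval 0).arg + (R.map (a j)).sum) := ⟨_, fun _ => rfl⟩
  have int : ∀ j, ∃ k : ℤ, κ j = 2 * π * k := fun j => by
    have h1 : q1A (Dv v j * ee (t j) * ∏ i ∈ Ioo j (j + N), (1 - ee (-t j) * ee (t i)))
        (φ j + -t j + B j) := by
      rw [hB]
      refine (q1A.mul (dir j) ⟨1, one_pos, by simp⟩).mul (q1A.fprod _ _ _ fun i hi => ?_)
      rw [mem_Ioo] at hi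
      rw [← j1_ee_add, neg_add_eq_sub]
      exact (q1_one (sub_pos.2 (T.tm hi.1)) (by linarith [T.tp j, T.tm hi.2])).2
    rw [ev] at h1
    rw [hκ, funext (ha j)]
    exact h1.uniq ((q1A.arg S.v0).mul (q1A.mprod R _ (nz j)))
  have Bs : ∀ j, B (j + 1) - B j = N * ((t (j + 1) - t j) / 2) - π := fun j => by
    have e1 : Ioo j (j + N) = insert (j + 1) (Ioo (j + 1) (j + N)) := by
      ext x; simp only [mem_Ioo, mem_insert]; omega
    have e2 : Ioo (j + 1) (j + 1 + N) = insert (j + N) (Ioo (j + 1) (j + N)) := by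
      ext x; simp only [mem_Ioo, mem_insert]; omega
    have e3 : ∑ i ∈ Ioo (j + 1) (j + N), (π / 2 - (t i - t (j + 1)) / 2) -
        ∑ i ∈ Ioo (j + 1) (j + N), (π / 2 - (t i - t j) / 2) =
        (N - 2) * ((t (j + 1) - t j) / 2) := by
      rw [← sum_sub_distrib, sum_congr rfl (g := fun _ => (t (j + 1) - t j) / 2) fun _ _ => by ring,
        sum_const, Int.card_Ioo, nsmul_eq_mul]
      congr 1
      rw [show j + N - (j + 1) - 1 = ((N - 2 : ℕ) : ℤ) by omega, Int.toNat_natCast,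
        Nat.cast_sub (by omega)]
      simp
    rw [hB, hB, e1, e2, sum_insert (by simp), sum_insert (by simp), T.tp]
    linarith
  have Bp : ∀ j, B (j + N) = B j := fun j => by
    rw [hB, hB, ← map_add_right_Ioo, sum_map]
    exact sum_congr rfl fun i _ => by simp [T.tp]
  have key : ∀ j (A : Multiset ℂ), A ≤ R →
      (∀ ζ ∈ A, ∃ τ, t j < τ ∧ τ < t (j + 1) ∧ ζ = ee (-τ)) →
      φ (j + 1) - φ j - (κ (j + 1) - κ j) < π - A.card * π := fun j A le hA => by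
    obtain ⟨A', e⟩ := Multiset.le_iff_exists_add.1 le
    have s1 := q1_sum A (fun ζ => a (j + 1) ζ - a j ζ) (a := (t (j + 1) - t j) / 2 - π)
      fun ζ h => by
        obtain ⟨τ, b1, b2, rfl⟩ := hA ζ h
        rw [ha, ha, q1_arc b1 b2 (l2 j)]
    have s2 := q1_sum A' (fun ζ => a (j + 1) ζ - a j ζ) (a := (t (j + 1) - t j) / 2)
      fun ζ h => by
        have m : ζ ∈ R := e ▸ Multiset.mem_add.2 (Or.inr h)
        rw [ha, ha]
        exact q1_step (S.root (hR ▸ m)) (l1 j) (l2 j) (nz j ζ m) (nz _ ζ m)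
    rw [Multiset.sum_map_sub] at s1 s2
    have c : (A.card : ℝ) + A'.card + 3 ≤ N := by
      rw [e, Multiset.card_add] at cd; exact_mod_cast cd
    rw [hκ, hκ, e, Multiset.map_add, Multiset.map_add, Multiset.sum_add, Multiset.sum_add]
    nlinarith [Bs j, l1 j, mul_nonneg (sub_nonneg.2 c) (sub_pos.2 (l1 j)).le]
  have mono : Monotone κ := monotone_int_of_le_succ fun j => by
    have h := key j 0 (Multiset.zero_le _) (by simp)
    obtain ⟨k, hk⟩ := int j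
    obtain ⟨k', hk'⟩ := int (j + 1)
    rw [hk, hk'] at h ⊢
    have h2 : (k:ℝ) < (k' + 1 : ℤ) := by
      push_cast
      simp only [Multiset.card_zero, Nat.cast_zero] at h
      nlinarith [lo j, pi_pos]
    have h3 : (k:ℝ) ≤ k' := by exact_mod_cast Int.lt_add_one_iff.1 (Int.cast_lt.1 h2)
    nlinarith [pi_pos]
  have per : κ (j + N) = κ j := by
    have : a (j + N) = a j := funext fun ζ => by
      rw [ha, ha, T.tp, show -(t j + 2 * π) = -t j + 2 * π * (-1 : ℤ) by push_cast; ring, j1_ee_per]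
    rw [hκ, hκ, this, Bp, pp, T.tp]; ring
  have eq : κ (j + 1) = κ j := le_antisymm (per ▸ mono (by omega)) (mono (by omega))
  have fin := key j
  rw [eq, sub_self, sub_zero] at fin
  refine ⟨?_, fun τ b1 b2 z => ?_, fun τ τ' b1 b2 b3 b4 d => ?_⟩
  · have := fin 0 (Multiset.zero_le _) (by simp)
    simp only [Multiset.card_zero, Nat.cast_zero] at this
    linarith
  · have := fin {ee (-τ)} (Multiset.singleton_le.2 (hR ▸ (mem_roots S.ne).2 z))
      (by simpa using ⟨τ, b1, b2, rfl⟩)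
    simp only [Multiset.card_singleton, Nat.cast_one] at this
    linarith
  · have le := roots.le_of_dvd S.ne d
    rw [roots_mul (mul_ne_zero (X_sub_C_ne_zero _) (X_sub_C_ne_zero _)), roots_X_sub_C,
      roots_X_sub_C, ← hR] at le
    have := fin _ le fun ζ h => by
      rcases Multiset.mem_add.1 h with h | h <;> rw [Multiset.mem_singleton] at h
      exacts [⟨τ, b1, b2, h⟩, ⟨τ', b3, b4, h⟩]
    simp only [Multiset.card_add, Multiset.card_singleton, Nat.cast_add, Nat.cast_one] at this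
    linarith [lo j]

end Pool.Agent.Lib.MP_9dc04a_an
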