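import Mathlib

set_option autoImplicit false

namespace Pool.Agent.Lib.MP_9dc04a_an

open Finset Polynomial Metric Filter Topology

theorem q6_tay {h : ℂ → ℂ} (hh : DifferentiableOn ℂ h (ball 0 1)) {r η : ℝ} (r0 : 0 < r) (r1 : r < 1)
    (hη : 0 < η) (n : ℕ) : ∃ p : ℂ[X],
      (∀ k ≤ n, p.coeff k = iteratedDeriv k h 0 / (k.factorial : ℂ) * r ^ k / r) ∧
      ∀ z : ℂ, ‖z‖ ≤ 1 → ‖p.derivative.eval z - deriv h (r * z)‖ ≤ η := by
  have hd : DifferentiableOn ℂ (deriv h) (ball 0 1) := hh.deriv isOpen_ball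
  set b : ℕ → ℂ := fun k => iteratedDeriv k (deriv h) 0 / (k.factorial : ℂ) with hb
  have hs : ∀ z : ℂ, ‖z‖ ≤ 1 → HasSum (fun k => b k * (r * z) ^ k) (deriv h (r * z)) := fun z hz => by
    have := Complex.hasSum_taylorSeries_on_ball hd (z := r * z) (by
      rw [mem_ball_zero_iff, norm_mul, Complex.norm_real, Real.norm_of_nonneg r0.le]; nlinarith)
    have e : (fun k => b k * (r * z) ^ k) = fun k : ℕ => (k.factorial : ℂ)⁻¹ • ((r : ℂ) * z - 0) ^ k •
        iteratedDeriv k (deriv h) 0 := by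
      funext k; simp only [hb, smul_eq_mul, sub_zero]; ring
    rwa [e]
  have sm : Summable fun k => ‖b k‖ * r ^ k := by
    have := summable_norm_iff.2 (hs 1 (by simp)).summable
    simpa [abs_of_pos r0] using this
  obtain ⟨M, hM, hn⟩ := (((tendsto_sum_nat_add fun k => ‖b k‖ * r ^ k).eventually
    (ge_mem_nhds hη)).and (eventually_ge_atTop n)).exists
  refine ⟨∑ k ∈ range (M + 1), monomial k (iteratedDeriv k h 0 / (k.factorial : ℂ) * r ^ k / r),
    fun k hk => ?_, fun z hz => ?_⟩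
  · rw [finsetSum_coeff, sum_eq_single k]
    · simp
    · intro j _ hj; rw [coeff_monomial, if_neg hj]
    · intro hj; exact absurd (mem_range.2 (by omega)) hj
  · have e : (derivative (∑ k ∈ range (M + 1),
        monomial k (iteratedDeriv k h 0 / (k.factorial : ℂ) * r ^ k / r))).eval z =
        ∑ k ∈ range M, b k * (r * z) ^ k := by
      rw [derivative_sum, sum_range_succ', eval_add, eval_finsetSum]
      simp only [derivative_monomial, eval_monomial, Nat.cast_zero, mul_zero, zero_mul, add_zero]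
      refine sum_congr rfl fun k _ => ?_
      have h1 : (r : ℂ) ≠ 0 := by exact_mod_cast r0.ne'
      have h2 : (k.factorial : ℂ) ≠ 0 := by exact_mod_cast k.factorial_ne_zero
      have h3 : ((k : ℂ) + 1) ≠ 0 := by exact_mod_cast k.succ_ne_zero
      simp only [hb, iteratedDeriv_succ', Nat.factorial_succ, Nat.add_sub_cancel]
      push_cast
      field_simp
      ring
    rw [e, norm_sub_rev]
    have t1 := (hasSum_nat_add_iff' M).2 (hs z hz)
    refine (t1.norm_le_of_bounded ((summable_nat_add_iff M).2 sm).hasSum fun k => ?_).trans hM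
    rw [norm_mul, norm_pow, norm_mul, Complex.norm_real, Real.norm_of_nonneg r0.le]
    gcongr
    exact mul_le_of_le_one_right r0.le hz

theorem q6_loc {h : ℂ → ℂ} (hh : DifferentiableOn ℂ h (ball 0 1)) {r η : ℝ} (r1 : r < 1)
    (hη : 0 < η) : ∃ δ > 0, ∀ z ∈ closedBall (0 : ℂ) r, ∀ w ∈ closedBall (0 : ℂ) r, ‖z - w‖ ≤ δ →
      ‖h z - h w - deriv h w * (z - w)‖ ≤ η * ‖z - w‖ := by
  have sub : closedBall (0 : ℂ) r ⊆ ball 0 1 := closedBall_subset_ball r1
  have hc : ContinuousOn (deriv h) (closedBall 0 r) :=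
    (hh.deriv isOpen_ball).continuousOn.mono sub
  obtain ⟨δ, δ0, hδ⟩ := Metric.uniformContinuousOn_iff_le.1
    ((isCompact_closedBall _ _).uniformContinuousOn_of_continuous hc) η hη
  refine ⟨δ, δ0, fun z hz w hw hzw => ?_⟩
  have := Convex.norm_image_sub_le_of_norm_hasDerivWithin_le (𝕜 := ℂ)
    (f := fun x => h x - deriv h w * x) (f' := fun x => deriv h x - deriv h w) (C := η)
    (s := closedBall 0 r ∩ closedBall w δ) (x := w) (y := z) (fun x hx => by
      have h1 := (hh.differentiableAt (isOpen_ball.mem_nhds (sub hx.1))).hasDerivAt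
      have h2 := (hasDerivAt_id x).const_mul (deriv h w)
      rw [mul_one] at h2
      exact (h1.sub h2).hasDerivWithinAt)
    (fun x hx => by rw [← dist_eq_norm]; exact hδ x hx.1 w hw hx.2)
    ((convex_closedBall _ _).inter (convex_closedBall _ _)) ⟨hw, mem_closedBall_self δ0.le⟩
    ⟨hz, by rwa [mem_closedBall, dist_eq_norm]⟩
  rwa [show h z - deriv h w * z - (h w - deriv h w * w) = h z - h w - deriv h w * (z - w) by ring]
    at this

theorem q6_pos {α : Type} [TopologicalSpace α] {s : Set α} (hs : IsCompact s) {f : α → ℝ}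
    (hf : ContinuousOn f s) (h : ∀ x ∈ s, 0 < f x) : ∃ c > 0, ∀ x ∈ s, c ≤ f x := by
  rcases s.eq_empty_or_nonempty with e | e
  · exact ⟨1, one_pos, by simp [e]⟩
  · obtain ⟨x, hx, hm⟩ := hs.exists_isMinOn e hf
    exact ⟨f x, h x hx, fun y hy => hm hy⟩

theorem q6_lip {h g : ℂ → ℂ} (hh : DifferentiableOn ℂ h (ball 0 1))
    (hg : DifferentiableOn ℂ g (ball 0 1))
    (inj : Set.InjOn (fun z => h z + (starRingEnd ℂ) (g z)) (ball 0 1))
    (jac : ∀ z ∈ ball (0:ℂ) 1, ‖deriv g z‖ < ‖deriv h z‖) {r : ℝ} (r1 : r < 1) :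
    ∃ c > 0, (∀ z ∈ closedBall (0 : ℂ) r, c + ‖deriv g z‖ ≤ ‖deriv h z‖) ∧
      ∀ z ∈ closedBall (0 : ℂ) r, ∀ w ∈ closedBall (0 : ℂ) r,
        c * ‖z - w‖ ≤ ‖h z + (starRingEnd ℂ) (g z) - (h w + (starRingEnd ℂ) (g w))‖ := by
  have sub : closedBall (0 : ℂ) r ⊆ ball 0 1 := closedBall_subset_ball r1
  obtain ⟨m, m0, hm⟩ := q6_pos (isCompact_closedBall (0 : ℂ) r)
    (f := fun z => ‖deriv h z‖ - ‖deriv g z‖)
    ((((hh.deriv isOpen_ball).continuousOn.mono sub).norm).sub
      (((hg.deriv isOpen_ball).continuousOn.mono sub).norm)) fun z hz => sub_pos.2 (jac z (sub hz))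
  obtain ⟨δ₁, d1, k1⟩ := q6_loc hh r1 (η := m / 4) (by positivity)
  obtain ⟨δ₂, d2, k2⟩ := q6_loc hg r1 (η := m / 4) (by positivity)
  have cf : ContinuousOn (fun z => h z + (starRingEnd ℂ) (g z)) (closedBall 0 r) :=
    (hh.continuousOn.mono sub).add
      (Complex.continuous_conj.comp_continuousOn (hg.continuousOn.mono sub))
  obtain ⟨c, c0, hc⟩ := q6_pos
    (((isCompact_closedBall (0 : ℂ) r).prod (isCompact_closedBall (0 : ℂ) r)).inter_right
      (isClosed_le (f := fun _ => min δ₁ δ₂) (g := fun x : ℂ × ℂ => ‖x.1 - x.2‖) continuous_const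
        (by fun_prop)))
    (f := fun x => ‖h x.1 + (starRingEnd ℂ) (g x.1) - (h x.2 + (starRingEnd ℂ) (g x.2))‖)
    (((cf.comp continuousOn_fst fun x hx => hx.1.1).sub
      (cf.comp continuousOn_snd fun x hx => hx.1.2)).norm) fun x hx => by
      refine norm_pos_iff.2 (sub_ne_zero.2 fun e => ?_)
      have := inj (sub hx.1.1) (sub hx.1.2) e
      have h2 : min δ₁ δ₂ ≤ ‖x.1 - x.2‖ := hx.2
      rw [this, sub_self, norm_zero] at h2
      exact absurd (lt_min d1 d2) (not_lt.2 h2)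
  refine ⟨min (m / 2) (c / 2), by positivity, fun z hz => ?_, fun z hz w hw => ?_⟩
  · linarith [hm z hz, min_le_left (m / 2) (c / 2)]
  rcases le_total (min δ₁ δ₂) ‖z - w‖ with hd | hd
  · have h1 : ‖z - w‖ ≤ 2 := by
      have := mem_ball_zero_iff.1 (sub hz)
      have := mem_ball_zero_iff.1 (sub hw)
      linarith [norm_sub_le z w]
    have h2 := hc (z, w) ⟨⟨hz, hw⟩, hd⟩
    have h3 := mul_le_mul (min_le_right (m / 2) (c / 2)) h1 (norm_nonneg _) (by positivity)
    linarith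
  · have a1 := k1 z hz w hw (hd.trans (min_le_left _ _))
    have a2 := k2 z hz w hw (hd.trans (min_le_right _ _))
    have e : deriv h w * (z - w) = (h z + (starRingEnd ℂ) (g z) - (h w + (starRingEnd ℂ) (g w))) -
        (h z - h w - deriv h w * (z - w)) - (starRingEnd ℂ) (g z - g w - deriv g w * (z - w)) -
        (starRingEnd ℂ) (deriv g w * (z - w)) := by
      simp only [map_sub]; ring
    have a3 := congrArg norm e
    have a4 := a3.le.trans ((norm_sub_le _ _).trans (add_le_add_left ((norm_sub_le _ _).trans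
      (add_le_add_left (norm_sub_le _ _) _)) _))
    rw [Complex.norm_conj, Complex.norm_conj, norm_mul, norm_mul] at a4
    have a5 := mul_le_mul_of_nonneg_right (hm w hw) (norm_nonneg (z - w))
    have a6 := mul_le_mul_of_nonneg_right (min_le_left (m / 2) (c / 2)) (norm_nonneg (z - w))
    linarith

theorem q6_err {h : ℂ → ℂ} (hh : DifferentiableOn ℂ h (ball 0 1)) {r η : ℝ} (r0 : 0 < r) (r1 : r < 1)
    {p : ℂ[X]} (hp : ∀ z : ℂ, ‖z‖ ≤ 1 → ‖p.derivative.eval z - deriv h (r * z)‖ ≤ η) {z w : ℂ}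
    (hz : ‖z‖ ≤ 1) (hw : ‖w‖ ≤ 1) :
    ‖r * p.eval z - h (r * z) - (r * p.eval w - h (r * w))‖ ≤ r * η * ‖z - w‖ :=
  Convex.norm_image_sub_le_of_norm_hasDerivWithin_le (𝕜 := ℂ)
    (f := fun x => r * p.eval x - h (r * x))
    (f' := fun x => r * (p.derivative.eval x - deriv h (r * x))) (s := closedBall 0 1)
    (fun x hx => by
      have hx1 : (r : ℂ) * x ∈ ball (0 : ℂ) 1 := by
        have := mem_closedBall_zero_iff.1 hx
        rw [mem_ball_zero_iff, norm_mul, Complex.norm_real, Real.norm_of_nonneg r0.le]; nlinarith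
      have h1 := (hh.differentiableAt (isOpen_ball.mem_nhds hx1)).hasDerivAt
      have h2 := h1.comp x ((hasDerivAt_id x).const_mul (r : ℂ))
      have h3 := ((p.hasDerivAt x).const_mul (r : ℂ)).sub h2
      rw [show (r : ℂ) * (p.derivative.eval x - deriv h (r * x)) =
        r * p.derivative.eval x - deriv h (r * x) * (r * 1) by ring]
      exact h3.hasDerivWithinAt)
    (fun x hx => by
      rw [norm_mul, Complex.norm_real, Real.norm_of_nonneg r0.le]
      exact mul_le_mul_of_nonneg_left (hp x (mem_closedBall_zero_iff.1 hx)) r0.le)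
    (convex_closedBall _ _) (mem_closedBall_zero_iff.2 hw) (mem_closedBall_zero_iff.2 hz)

theorem app_poly {h g : ℂ → ℂ} (hh : DifferentiableOn ℂ h (Metric.ball 0 1))
    (hg : DifferentiableOn ℂ g (Metric.ball 0 1)) (h1 : deriv h 0 = 1) (g1 : deriv g 0 = 0)
    (inj : Set.InjOn (fun z => h z + (starRingEnd ℂ) (g z)) (Metric.ball 0 1))
    (jac : ∀ z ∈ Metric.ball (0:ℂ) 1, ‖deriv g z‖ < ‖deriv h z‖) (n : ℕ) {ε : ℝ} (hε : 0 < ε) :
    ∃ p q : ℂ[X], p.coeff 1 = 1 ∧ q.coeff 1 = 0 ∧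
      (∀ z : ℂ, ‖z‖ ≤ 1 → ‖q.derivative.eval z‖ < ‖p.derivative.eval z‖) ∧
      Set.InjOn (fun z => p.eval z + (starRingEnd ℂ) (q.eval z)) (Metric.sphere 0 1) ∧
      ‖iteratedDeriv n h 0 / (n.factorial : ℂ)‖ ≤ ‖p.coeff n‖ + ε ∧
      ‖iteratedDeriv n g 0 / (n.factorial : ℂ)‖ ≤ ‖q.coeff n‖ + ε := by
  have ev : ∀ a : ℝ, ∀ᶠ r in 𝓝[<] (1 : ℝ), a < a * r ^ n / r + ε := fun a => by
    refine nhdsWithin_le_nhds (ContinuousAt.eventually_lt continuousAt_const ?_ (by simpa))
    exact (ContinuousAt.div (by fun_prop) continuousAt_id one_ne_zero).add continuousAt_const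
  obtain ⟨r, ⟨ra, rb⟩, r0, r1⟩ := (((ev ‖iteratedDeriv n h 0 / (n.factorial : ℂ)‖).and
    (ev ‖iteratedDeriv n g 0 / (n.factorial : ℂ)‖)).and (Ioo_mem_nhdsLT one_pos)).exists
  obtain ⟨c, c0, j1, j2⟩ := q6_lip hh hg inj jac r1
  obtain ⟨p, p1, p2⟩ := q6_tay hh r0 r1 (η := c / 3) (by positivity) (n + 1)
  obtain ⟨q, q1, q2⟩ := q6_tay hg r0 r1 (η := c / 3) (by positivity) (n + 1)
  have rc : (r : ℂ) ≠ 0 := by exact_mod_cast r0.ne'
  have mem : ∀ z : ℂ, ‖z‖ ≤ 1 → (r : ℂ) * z ∈ closedBall (0 : ℂ) r := fun z hz => by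
    rw [mem_closedBall_zero_iff, norm_mul, Complex.norm_real, Real.norm_of_nonneg r0.le]; nlinarith
  have nc : ∀ a : ℂ, ‖a * r ^ n / r‖ = ‖a‖ * r ^ n / r := fun a => by
    rw [norm_div, norm_mul, norm_pow, Complex.norm_real, Real.norm_of_nonneg r0.le]
  refine ⟨p, q, ?_, ?_, fun z hz => ?_, fun z hz w hw e => ?_, ?_, ?_⟩
  · rw [p1 1 (by omega), iteratedDeriv_one, h1]; simp [rc]
  · rw [q1 1 (by omega), iteratedDeriv_one, g1]; simp
  · have a1 := j1 _ (mem z hz)
    have a2 := norm_sub_norm_le (q.derivative.eval z) (deriv g (r * z))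
    have a3 := norm_sub_norm_le (deriv h (r * z)) (p.derivative.eval z)
    rw [norm_sub_rev] at a3
    linarith [p2 z hz, q2 z hz]
  · have hz1 := (mem_sphere_zero_iff_norm.1 hz).le
    have hw1 := (mem_sphere_zero_iff_norm.1 hw).le
    have a1 := j2 _ (mem z hz1) _ (mem w hw1)
    have a2 := q6_err hh r0 r1 p2 hz1 hw1
    have a3 := q6_err hg r0 r1 q2 hz1 hw1
    have e1 : p.eval z + (starRingEnd ℂ) (q.eval z) = p.eval w + (starRingEnd ℂ) (q.eval w) := e
    have e2 : h (r * z) + (starRingEnd ℂ) (g (r * z)) - (h (r * w) + (starRingEnd ℂ) (g (r * w))) =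
        -(r * p.eval z - h (r * z) - (r * p.eval w - h (r * w))) -
          (starRingEnd ℂ) (r * q.eval z - g (r * z) - (r * q.eval w - g (r * w))) := by
      simp only [map_sub, map_mul, Complex.conj_ofReal]
      linear_combination (r : ℂ) * e1
    rw [e2, ← mul_sub, norm_mul, Complex.norm_real, Real.norm_of_nonneg r0.le] at a1
    have a4 := a1.trans (norm_sub_le _ _)
    rw [norm_neg, Complex.norm_conj] at a4
    by_contra hne
    have := mul_pos (mul_pos c0 r0) (norm_pos_iff.2 (sub_ne_zero.2 hne))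
    linarith
  · rw [p1 n (by omega), nc]; exact ra.le
  · rw [q1 n (by omega), nc]; exact rb.le

end Pool.Agent.Lib.MP_9dc04a_an
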