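import Pool.Agent.Lib.MP_9dc04a_an.QDef

set_option autoImplicit false

namespace Pool.Agent.Lib.MP_9dc04a_an

open Finset Real Polynomial

/-- a line separates `a, b` from `c, d` -/
def q7_Sep (a b c d : ℂ) : Prop := ∃ u : ℂ, (u * a).re < (u * c).re ∧ (u * a).re < (u * d).re ∧
  (u * b).re < (u * c).re ∧ (u * b).re < (u * d).re

lemma q7_Sep.symm {a b c d : ℂ} (h : q7_Sep a b c d) : q7_Sep c d a b := by
  obtain ⟨u, h1, h2, h3, h4⟩ := h
  refine ⟨-u, ?_⟩
  simp only [neg_mul, Complex.neg_re, neg_lt_neg_iff]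
  exact ⟨h1, h3, h2, h4⟩

lemma q7_Sep.nx {a b c d : ℂ} (h : q7_Sep a b c d) (h1 : ori a b c ≠ 0) (h2 : ori a b d ≠ 0)
    (h3 : ori c d a ≠ 0) (h4 : ori c d b ≠ 0) :
    0 < ori a b c * ori a b d ∨ 0 < ori c d a * ori c d b := by
  by_contra hc
  push Not at hc
  obtain ⟨u, k1, k2, k3, k4⟩ := h
  have n1 := lt_of_le_of_ne hc.1 (mul_ne_zero h1 h2)
  have n2 := lt_of_le_of_ne hc.2 (mul_ne_zero h3 h4)
  have e1 : ori c d b - ori c d a + ori a b d - ori a b c = 0 := by simp [ori]; ring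
  have e2 : ori c d b * (u * a).re - ori c d a * (u * b).re + ori a b d * (u * c).re -
      ori a b c * (u * d).re = 0 := by simp [ori]; ring
  have m1 := le_max_left (u * a).re (u * b).re
  have m2 := le_max_right (u * a).re (u * b).re
  have m3 := max_lt k1 k3
  have m4 := max_lt k2 k4
  generalize max (u * a).re (u * b).re = κ at *
  generalize (u * a).re = A, (u * b).re = B, (u * c).re = C, (u * d).re = D, ori a b c = x,
    ori a b d = y, ori c d a = z, ori c d b = w at *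
  have e3 : w * (A - κ) - z * (B - κ) + y * (C - κ) - x * (D - κ) = 0 := by
    linear_combination e2 - κ * e1
  rcases mul_neg_iff.1 n1 with s | s <;> rcases mul_neg_iff.1 n2 with r | r
  · linarith [s.1, s.2, r.1, r.2]
  · nlinarith [s.1, s.2, r.1, r.2]
  · nlinarith [s.1, s.2, r.1, r.2]
  · linarith [s.1, s.2, r.1, r.2]

lemma q7_min {T : ℝ} (T0 : 0 < T) {K : Set ℝ} (hK : IsCompact K) {φ : ℝ × ℝ → ℝ}
    (hc : Continuous φ) (per : ∀ s d, φ (s + T, d) = φ (s, d))
    (pos : ∀ s, ∀ d ∈ K, 0 < φ (s, d)) : ∃ ρ, 0 < ρ ∧ ∀ s, ∀ d ∈ K, ρ ≤ φ (s, d) := by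
  obtain ⟨ρ, h1, h2⟩ := ((isCompact_Icc (a := 0) (b := T)).prod hK).exists_forall_le'
    hc.continuousOn (a := 0) fun x hx => pos _ _ hx.2
  refine ⟨ρ, h1, fun s d hd => ?_⟩
  obtain ⟨y, hy, e⟩ := Function.Periodic.exists_mem_Ico₀ (f := fun s => φ (s, d))
    (fun s => per s d) T0 s
  exact e ▸ h2 (y, d) ⟨Set.Ico_subset_Icc_self hy, hd⟩

lemma q7_uc {T η : ℝ} (T0 : 0 < T) (η0 : 0 < η) {g : ℝ → ℂ} (hc : Continuous g)
    (per : ∀ s, g (s + T) = g s) : ∃ δ, 0 < δ ∧ ∀ s u, |u - s| ≤ δ → ‖g u - g s‖ ≤ η := by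
  obtain ⟨δ, h1, h2⟩ := Metric.uniformContinuousOn_iff_le.1
    ((isCompact_Icc (a := -1) (b := T + 1)).uniformContinuousOn_of_continuous hc.continuousOn) η η0
  refine ⟨min δ 1, by positivity, fun s u hu => ?_⟩
  obtain ⟨d, rfl⟩ : ∃ d, u = s + d := ⟨u - s, by ring⟩
  rw [add_sub_cancel_left, le_min_iff] at hu
  obtain ⟨y, hy, e⟩ := Function.Periodic.exists_mem_Ico₀ (f := fun s => ‖g (s + d) - g s‖)
    (fun s => by simp only [add_right_comm s T d, per]) T0 s
  have := abs_le.1 hu.2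
  rw [e, ← dist_eq_norm]
  exact h2 _ ⟨by linarith [hy.1], by linarith [hy.2]⟩ _ ⟨by linarith [hy.1], by linarith [hy.2]⟩
    (by simpa [Real.dist_eq] using hu.1)

lemma q7_re (u a b : ℂ) : |(u * a).re - (u * b).re| ≤ ‖u‖ * ‖a - b‖ := by
  rw [← Complex.sub_re, ← mul_sub, ← norm_mul]; exact Complex.abs_re_le_norm _

lemma q7_sq (u : ℂ) : ((starRingEnd ℂ) u * u).re = ‖u‖ * ‖u‖ := by
  rw [Complex.conj_mul', ← sq]; norm_cast

/-- polygons whose edges follow the tangent of a smooth Jordan curve are simple -/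
lemma q7_sep {T : ℝ} (T0 : 0 < T) {c g : ℝ → ℂ} (hd : ∀ s, HasDerivAt c (g s) s)
    (gc : Continuous g) (cp : ∀ s, c (s + T) = c s) (gp : ∀ s, g (s + T) = g s)
    (g0 : ∀ s, g s ≠ 0) (inj : ∀ s d, 0 < d → d < T → c (s + d) ≠ c s) :
    ∃ η, 0 < η ∧ ∃ h₀, 0 < h₀ ∧ ∀ (N : ℕ) (h : ℝ) (v : ℤ → ℂ), 0 < h → h ≤ h₀ → N * h = T →
      (∀ j, v (j + N) = v j) → (∀ j, ‖Dv v j - h * g (j * h)‖ ≤ h * η) →
      ∀ i j : ℤ, i + 1 < j → j + 1 < i + N → q7_Sep (v i) (v (i + 1)) (v j) (v (j + 1)) := by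
  have cc : Continuous c := continuous_iff_continuousAt.2 fun s => (hd s).continuousAt
  obtain ⟨m, m0, hm⟩ := q7_min T0 (isCompact_singleton (x := 0)) (φ := fun x => ‖g x.1‖)
    (by fun_prop) (fun s _ => by simp [gp]) fun s _ _ => norm_pos_iff.2 (g0 s)
  obtain ⟨M, hM⟩ := isBounded_iff_forall_norm_le.1
    (Function.Periodic.isBounded_of_continuous gp T0.ne' gc)
  replace hM : ∀ s, ‖g s‖ ≤ M := fun s => hM _ ⟨s, rfl⟩
  have M0 : 0 ≤ M := (norm_nonneg _).trans (hM 0)
  obtain ⟨δ, δ0, hδ⟩ := q7_uc T0 (show 0 < m / 4 by positivity) gc gp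
  obtain ⟨ρ, ρ0, hρ⟩ := q7_min T0 (isCompact_Icc (a := δ / 2) (b := T - δ / 2))
    (φ := fun x => ‖c (x.1 + x.2) - c x.1‖) (by fun_prop)
    (fun s d => by simp only [add_right_comm s T d, cp])
    fun s d hd => norm_pos_iff.2 (sub_ne_zero.2 (inj s d (by linarith [hd.1]) (by linarith [hd.2])))
  set η := min (m / 4) (ρ / (4 * T)) with hη
  have η0 : 0 < η := by positivity
  have η1 : η ≤ m / 4 := min_le_left _ _
  have η2 : η * (4 * T) ≤ ρ := (le_div_iff₀ (by positivity)).1 (min_le_right _ _)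
  obtain ⟨δ', δ1, hδ'⟩ := q7_uc T0 η0 gc gp
  refine ⟨η, η0, min (min δ' (δ / 2)) (ρ / (8 * (M + η))), by positivity,
    fun N h v h0 h1 hN pv hv => ?_⟩
  simp only [le_min_iff] at h1
  have near : ∀ i j : ℤ, i + 1 < j → (j - i) * h ≤ δ / 2 →
      q7_Sep (v i) (v (i + 1)) (v j) (v (j + 1)) := fun i j hij hh => by
    set u := (starRingEnd ℂ) (g (i * h)) with hu
    have st : ∀ k : ℤ, i ≤ k → k ≤ j → (u * v k).re < (u * v (k + 1)).re := fun k k1 k2 => by
      have a1 := hv (k + 1)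
      have k3 : (i : ℝ) ≤ k := by exact_mod_cast k1
      have k4 : (k : ℝ) ≤ j := by exact_mod_cast k2
      have a2 := hδ (i * h) ((k + 1 : ℤ) * h) (by
        push_cast
        rw [abs_of_nonneg (by nlinarith)]; nlinarith [h1.1.2])
      have a3 : ‖Dv v (k + 1) - h * g (i * h)‖ ≤ h * (m / 2) := by
        have := norm_sub_le_norm_sub_add_norm_sub (Dv v (k + 1)) (h * g ((k + 1 : ℤ) * h))
          (h * g (i * h))
        rw [← mul_sub, norm_mul, Complex.norm_real, Real.norm_of_nonneg h0.le] at this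
        nlinarith
      have a4 := (abs_le.1 (q7_re u (Dv v (k + 1)) (h * g (i * h)))).1
      rw [mul_left_comm, Complex.re_ofReal_mul, hu, q7_sq, Complex.norm_conj, ← hu] at a4
      have a5 := hm (i * h) 0 rfl
      have a6 : ‖g (i * h)‖ * ‖Dv v (k + 1) - h * g (i * h)‖ ≤ ‖g (i * h)‖ * (h * (m / 2)) := by
        gcongr
      have a7 : 0 < ‖g (i * h)‖ * (h * (‖g (i * h)‖ - m / 2)) := by
        have : 0 < ‖g (i * h)‖ - m / 2 := by linarith
        have : 0 < ‖g (i * h)‖ := by linarith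
        positivity
      have a8 : (u * Dv v (k + 1)).re = (u * v (k + 1)).re - (u * v k).re := by
        rw [Dv, add_sub_cancel_right, mul_sub, Complex.sub_re]
      linarith
    have ch : ∀ k : ℤ, i + 2 ≤ k → k ≤ j + 1 → (u * v (i + 1)).re < (u * v k).re := by
      intro k hk
      induction k, hk using Int.leInduction with
      | base => intro _; simpa [add_assoc] using st (i + 1) (by omega) (by omega)
      | succ k hk ih => intro h2; exact (ih (by omega)).trans (st k (by omega) (by omega))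
    have b0 := st i le_rfl (by omega)
    have b1 := ch j (by omega) (by omega)
    have b2 := ch (j + 1) (by omega) le_rfl
    exact ⟨u, b0.trans b1, b0.trans b2, b1, b2⟩
  have one : ∀ k : ℤ, ‖Dv v (k + 1) - (c ((k + 1 : ℤ) * h) - c (k * h))‖ ≤ 2 * (h * η) := by
    intro k
    set b : ℝ := (k + 1 : ℤ) * h with hb
    have e : b - k * h = h := by rw [hb]; push_cast; ring
    have a1 := norm_image_sub_le_of_norm_deriv_le_segment' (a := k * h) (b := b) (C := η)
      (f := fun s => c s - s * g b) (f' := fun s => g s - g b)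
      (fun s _ => ((hd s).sub (by
        simpa using (Complex.ofRealCLM.hasDerivAt (x := s)).mul_const (g b))).hasDerivWithinAt)
      (fun s hs => hδ' b s (by
        rw [abs_of_nonpos (by linarith [hs.2])]; linarith [hs.1, h1.1.1]))
      b ⟨by linarith, le_rfl⟩
    have a2 := hv (k + 1)
    have e2 : Dv v (k + 1) - (c b - c (k * h)) = (Dv v (k + 1) - h * g b) -
        (c b - b * g b - (c (k * h) - ((k * h : ℝ) : ℂ) * g b)) := by
      have e' : (b : ℂ) - ((k * h : ℝ) : ℂ) = h := by rw [← Complex.ofReal_sub, e]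
      linear_combination (-g b) * e'
    rw [e2]
    refine (norm_sub_le _ _).trans ?_
    rw [e] at a1
    linarith
  have tel : ∀ i k : ℤ, i ≤ k →
      ‖v k - v i - (c (k * h) - c (i * h))‖ ≤ (k - i) * (2 * (h * η)) := by
    intro i k hk
    induction k, hk using Int.leInduction with
    | base => simp
    | succ k hk ih =>
      have e : v (k + 1) - v i - (c ((k + 1 : ℤ) * h) - c (i * h)) =
          v k - v i - (c (k * h) - c (i * h)) +
            (Dv v (k + 1) - (c ((k + 1 : ℤ) * h) - c (k * h))) := by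
        rw [Dv, add_sub_cancel_right]; ring
      rw [e]
      refine (norm_add_le _ _).trans ?_
      have := one k
      push_cast at this ⊢
      linarith
  have edge : ∀ k : ℤ, ‖v (k + 1) - v k‖ ≤ ρ / 8 := fun k => by
    have a1 := hv (k + 1)
    have a2 := norm_sub_norm_le (Dv v (k + 1)) (h * g ((k + 1 : ℤ) * h))
    rw [norm_mul, Complex.norm_real, Real.norm_of_nonneg h0.le] at a2
    have a3 := mul_le_mul_of_nonneg_left (hM ((k + 1 : ℤ) * h)) h0.le
    have a4 := (le_div_iff₀ (by positivity)).1 h1.2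
    rw [Dv, add_sub_cancel_right] at a1 a2
    linarith
  intro i j h2 h3
  by_cases c1 : (j - i) * h ≤ δ / 2
  · exact near i j h2 c1
  by_cases c2 : ((i + N : ℤ) - j) * h ≤ δ / 2
  · have := (near j (i + N) h3 c2).symm
    rwa [add_right_comm, pv, pv] at this
  push_cast at c2
  have a1 := hρ (i * h) ((j - i) * h) ⟨by linarith, by linarith⟩
  have a2 := tel i j (by omega)
  rw [show (i : ℝ) * h + (j - i) * h = j * h by ring] at a1
  have a3 : ((j : ℝ) - i) * (2 * (h * η)) ≤ ρ / 2 := by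
    have : (j - i) * h * η ≤ T * η := by gcongr; linarith
    linarith
  have a4 := norm_sub_norm_le (c (j * h) - c (i * h)) (v j - v i)
  rw [norm_sub_rev (c (j * h) - c (i * h))] at a4
  have a5 : ρ / 2 ≤ ‖v j - v i‖ := by linarith
  set u := (starRingEnd ℂ) (v j - v i) with hu
  have a6 : (u * v j).re - (u * v i).re = ‖v j - v i‖ * ‖v j - v i‖ := by
    rw [← Complex.sub_re, ← mul_sub, hu, q7_sq]
  have a7 : ∀ k, |(u * v (k + 1)).re - (u * v k).re| ≤ ‖v j - v i‖ * (ρ / 8) := fun k => by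
    refine (q7_re _ _ _).trans ?_
    rw [hu, Complex.norm_conj]
    exact mul_le_mul_of_nonneg_left (edge k) (norm_nonneg _)
  have a8 := abs_le.1 (a7 i)
  have a9 := abs_le.1 (a7 j)
  have b1 : ‖v j - v i‖ * (ρ / 2) ≤ ‖v j - v i‖ * ‖v j - v i‖ := by gcongr
  have b2 : 0 < ‖v j - v i‖ * ρ := mul_pos (by linarith) ρ0
  exact ⟨u, by linarith, by linarith, by linarith, by linarith⟩

lemma q7_int {M : Type} [CommMonoid M] (N : ℕ) (f : ℤ → M) :
    ∏ j ∈ Ico (0:ℤ) N, f j = ∏ j ∈ range N, f j := by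
  refine (prod_nbij (fun j : ℕ => (j : ℤ)) (by simp) (fun _ _ _ _ h => by simpa using h)
    (fun j hj => ?_) fun _ _ => rfl).symm
  obtain ⟨h1, h2⟩ := mem_Ico.1 (mem_coe.1 hj)
  exact ⟨j.toNat, by simp; omega, by simp; omega⟩

lemma q7_ints (N : ℕ) (f : ℤ → ℂ) : ∑ j ∈ Ico (0:ℤ) N, f j = ∑ j ∈ range N, f j :=
  q7_int (M := Multiplicative ℂ) N f

lemma q7_pow (x : ℝ) (j : ℤ) : ee (j * x) = ee x ^ j := by
  rw [ee, ee, ← Complex.exp_int_mul]; congr 1; push_cast; ring

lemma q7_conj (x : ℝ) : (starRingEnd ℂ) (ee x) = ee (-x) := by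
  rw [ee, ee, ← Complex.exp_conj]; congr 1; simp

lemma q7_inv (x : ℝ) : ee (-x) = (ee x)⁻¹ := eq_inv_of_mul_eq_one_left (j1_ee_neg x)

lemma q7_prim {N : ℕ} (hN : 0 < N) : IsPrimitiveRoot (ee (2 * π / N)) N := by
  have : ee (2 * π / N) = (Complex.exp (2 * π * Complex.I / N))⁻¹ := by
    rw [ee, ← Complex.exp_neg]; congr 1; push_cast; ring
  exact this ▸ (Complex.isPrimitiveRoot_exp N hN.ne').inv

lemma q7_orth {N : ℕ} (hN : 0 < N) (m : ℤ) :
    ∑ j ∈ Ico (0:ℤ) N, ee (j * (2 * π / N)) ^ m = if (N : ℤ) ∣ m then (N : ℂ) else 0 := by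
  have P := q7_prim hN
  have e : ∀ j : ℕ, ee ((j : ℤ) * (2 * π / N)) ^ m = (ee (2 * π / N) ^ m) ^ j := fun j => by
    rw [q7_pow, ← zpow_mul, mul_comm (j : ℤ), zpow_mul, zpow_natCast]
  rw [q7_ints, sum_congr rfl fun j _ => e j]
  split_ifs with h
  · simp [(P.zpow_eq_one_iff_dvd m).2 h]
  · have h1 : ee (2 * π / N) ^ m ≠ 1 := fun c => h ((P.zpow_eq_one_iff_dvd m).1 c)
    rw [geom_sum_eq h1, ← zpow_natCast, ← zpow_mul, (P.zpow_eq_one_iff_dvd _).2 (by simp)]
    simp

lemma q7_coef {N : ℕ} {A : ℂ[X]} (hA : A.natDegree < N) {k : ℤ} {a : ℕ} (ha : a < N)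
    (h : (N : ℤ) ∣ k - a) : ∑ j ∈ Ico (0:ℤ) N,
      A.eval (ee (-(j * (2 * π / N)))) * ee (j * (2 * π / N)) ^ k = N * A.coeff a := by
  have e : ∀ j : ℤ, A.eval (ee (-(j * (2 * π / N)))) * ee (j * (2 * π / N)) ^ k =
      ∑ m ∈ range N, A.coeff m * ee (j * (2 * π / N)) ^ (k - m) := fun j => by
    rw [eval_eq_sum_range' hA, sum_mul]
    refine sum_congr rfl fun m _ => ?_
    rw [zpow_sub₀ (j1_ee_ne _), q7_inv, zpow_natCast, inv_pow]; ring
  rw [sum_congr rfl fun j _ => e j, sum_comm, sum_eq_single_of_mem a (mem_range.2 ha)]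
  · rw [← mul_sum, q7_orth (by omega), if_pos h, mul_comm]
  · intro m hm hma
    rw [← mul_sum, q7_orth (by omega), if_neg, mul_zero]
    intro c
    have := Int.eq_zero_of_abs_lt_dvd (dvd_sub h c) (by
      have := mem_range.1 hm
      rw [abs_lt]; constructor <;> omega)
    omega

lemma q7_anti {N : ℕ} {D : ℤ → ℂ} (pD : ∀ j, D (j + N) = D j) (h0 : ∑ j ∈ Ico (0:ℤ) N, D j = 0) :
    ∃ v : ℤ → ℂ, (∀ j, v (j + N) = v j) ∧ ∀ j, Dv v j = D j := by
  let v : ℤ → ℂ := fun j => ∑ i ∈ Ico 0 (j + 1), D i - ∑ i ∈ Ico (j + 1) 0, D i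
  have hv : ∀ j, v j - v (j - 1) = D j := fun j => by
    simp only [v, sub_add_cancel]
    rcases le_or_gt 0 j with h | h
    · rw [← insert_Ico_right_eq_Ico_add_one h, sum_insert (by simp), Ico_eq_empty (a := j + 1) (by omega),
        Ico_eq_empty (a := j) (by omega)]
      ring
    · rw [← insert_Ico_add_one_left_eq_Ico h, sum_insert (by simp),
        Ico_eq_empty (b := j + 1) (by omega), Ico_eq_empty (b := j) (by omega)]
      ring
  refine ⟨v, fun j => ?_, hv⟩
  have st : ∀ j, v (j + N) - v j = v (j - 1 + N) - v (j - 1) := fun j => by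
    have h1 := hv (j + N)
    rw [pD, show j + N - 1 = j - 1 + N by ring] at h1
    linear_combination h1 - hv j
  have b : v (-1 + N) - v (-1) = 0 := by simp [v, h0]
  rw [← sub_eq_zero]
  induction j using Int.induction_on with
  | zero => rw [st]; simpa using b
  | succ i ih => rw [st]; simpa using ih
  | pred i ih => rw [← st]; exact ih

lemma q7_vp {N : ℕ} (hN : 0 < N) (v : ℤ → ℂ) {z : ℂ} (hz : ‖z‖ < 1) :
    (Vp N (fun j => j * (2 * π / N)) v).eval z =
      ∑ r ∈ range N, z ^ r * Vk (r + 1) N (fun j => j * (2 * π / N)) v := by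
  have P := q7_prim hN
  have pr : ∏ i ∈ Ico (0:ℤ) N, (1 - z * ee (i * (2 * π / N))) = 1 - z ^ N := by
    have := congrArg (eval 1) (X_pow_sub_C_eq_prod P hN (α := z) rfl)
    simp only [eval_sub, eval_pow, eval_X, eval_C, one_pow, eval_prod] at this
    rw [this, q7_int]
    exact prod_congr rfl fun i _ => by rw [q7_pow, zpow_natCast, mul_comm]
  simp only [Vp, Vk, eval_finsetSum, eval_mul, eval_C, eval_prod, eval_sub, eval_one, eval_X,
    mul_sum]
  rw [sum_comm]
  refine sum_congr rfl fun j hj => ?_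
  have e : ∏ i ∈ (Ico (0:ℤ) N).erase j, (1 - z * ee (i * (2 * π / N))) =
      ∑ r ∈ range N, (z * ee (j * (2 * π / N))) ^ r := by
    refine mul_left_cancel₀ (j1_disc hz (j * (2 * π / N))) ?_
    rw [mul_prod_erase _ (fun i : ℤ => 1 - z * ee (i * (2 * π / N))) hj, pr, mul_neg_geom_sum,
      mul_pow, q7_pow, ← zpow_natCast (ee _ ^ j), ← zpow_mul, (P.zpow_eq_one_iff_dvd _).2 (by simp),
      mul_one]
  rw [e, mul_sum]
  refine sum_congr rfl fun r _ => ?_
  rw [zpow_add_one₀ (j1_ee_ne _), zpow_natCast]; ring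

lemma q7_nz {N : ℕ} {P B : ℂ[X]} (hB : B.natDegree < N)
    (h0 : ∀ z : ℂ, ‖z‖ ≤ 1 → P.eval z ≠ 0) (h1 : ∀ z : ℂ, ‖z‖ = 1 → ‖B.eval z‖ < ‖P.eval z‖)
    {z : ℂ} (hz : ‖z‖ < 1) :
    P.eval z - ∑ r ∈ range N, z ^ r * (starRingEnd ℂ) (B.coeff (N - 1 - r)) ≠ 0 := by
  intro c
  let f : ℂ → ℂ := fun z => (∑ r ∈ range N, z ^ r * (starRingEnd ℂ) (B.coeff (N - 1 - r))) / P.eval z
  have hd : DifferentiableOn ℂ f (closure (Metric.ball 0 1)) := by
    rw [closure_ball _ one_ne_zero]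
    exact DifferentiableOn.div (by fun_prop) P.differentiable.differentiableOn
      fun z hz => h0 z (by simpa using hz)
  obtain ⟨w, hw, hm⟩ := Complex.exists_mem_frontier_isMaxOn_norm Metric.isBounded_ball
    (Metric.nonempty_ball.2 one_pos) hd.diffContOnCl
  rw [frontier_ball _ one_ne_zero, mem_sphere_zero_iff_norm] at hw
  have h2 : ‖f z‖ ≤ ‖f w‖ := hm (subset_closure (by simpa using hz))
  have h3 : f z = 1 := by
    simp only [f]; rw [← sub_eq_zero.1 c, div_self (h0 z hz.le)]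
  have h4 : ∑ r ∈ range N, w ^ r * (starRingEnd ℂ) (B.coeff (N - 1 - r)) =
      w ^ (N - 1) * (starRingEnd ℂ) (B.eval w) := by
    rw [eval_eq_sum_range' hB, map_sum, mul_sum, ← sum_range_reflect]
    refine sum_congr rfl fun m hm => ?_
    have := mem_range.1 hm
    have e : w * (starRingEnd ℂ) w = 1 := by rw [Complex.mul_conj', hw]; simp
    rw [show N - 1 - (N - 1 - m) = m by omega, map_mul, map_pow,
      show w ^ (N - 1) = w ^ (N - 1 - m) * w ^ m by rw [← pow_add]; congr 1; omega]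
    have e2 : w ^ m * (starRingEnd ℂ) w ^ m = 1 := by rw [← mul_pow, e, one_pow]
    linear_combination (-w ^ (N - 1 - m) * (starRingEnd ℂ) (B.coeff m)) * e2
  have h5 : ‖f w‖ < 1 := by
    simp only [f]
    rw [h4, norm_div, norm_mul, norm_pow, hw, one_pow, one_mul, Complex.norm_conj,
      div_lt_one (norm_pos_iff.2 (h0 w hw.le))]
    exact h1 w hw
  rw [h3, norm_one] at h2
  linarith

lemma q7_reg {x y z : ℝ} (h1 : x < y) (h2 : y < z) (h3 : z < x + 2 * π) :
    ori (ee (-x)) (ee (-y)) (ee (-z)) ≠ 0 := by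
  have e : ∀ x : ℝ, ee (-x) = Complex.exp (x * Complex.I) := fun x => by simp [ee]
  have a := j1_sin (x := y - x) (by linarith) (by linarith)
  have b := j1_sin (x := z - y) (by linarith) (by linarith)
  have c := j1_sin (x := z - x) (by linarith) (by linarith)
  have : ori (ee (-x)) (ee (-y)) (ee (-z)) = sin (y - x) + sin (z - y) - sin (z - x) := by
    simp only [ori, e, Complex.mul_im, Complex.conj_re, Complex.conj_im, Complex.sub_re,
      Complex.sub_im, Complex.exp_ofReal_mul_I_re, Complex.exp_ofReal_mul_I_im, sin_sub]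
    ring
  have id : ∀ a b : ℝ, sin (2 * a) + sin (2 * b) - sin (2 * (a + b)) =
      4 * sin a * sin b * sin (a + b) := fun a b => by
    simp only [sin_two_mul, sin_add, cos_add]
    linear_combination (-2 * sin a * cos a) * sin_sq_add_cos_sq b +
      (-2 * sin b * cos b) * sin_sq_add_cos_sq a
  have := this.trans (by convert id ((y - x) / 2) ((z - y) / 2) using 3 <;> ring_nf)
  rw [this, show (y - x) / 2 + (z - y) / 2 = (z - x) / 2 by ring]
  positivity

lemma q7_gen (v r : ℤ → ℂ) {ε : ℝ} (hε : 0 < ε) : ∃ e : ℝ, 0 < e ∧ e < ε ∧ ∀ i j k,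
    ori (r i) (r j) (r k) ≠ 0 → ori (v i + e * r i) (v j + e * r j) (v k + e * r k) ≠ 0 := by
  have hc : (⋃ x : ℤ × ℤ × ℤ, {e : ℝ | ori (r x.1) (r x.2.1) (r x.2.2) ≠ 0 ∧ ori (v x.1 + e * r x.1)
      (v x.2.1 + e * r x.2.1) (v x.2.2 + e * r x.2.2) = 0}).Countable := by
    refine Set.countable_iUnion fun ⟨i, j, k⟩ => Set.Finite.countable ?_
    by_cases h : ori (r i) (r j) (r k) = 0
    · simp [h]
    have ne : (C (ori (r i) (r j) (r k)) * X ^ 2 + C (((starRingEnd ℂ) (v j - v i) * (r k - r i) +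
        (starRingEnd ℂ) (r j - r i) * (v k - v i)).im) * X + C (ori (v i) (v j) (v k))) ≠ 0 := by
      intro c
      have := degree_quadratic (b := ((starRingEnd ℂ) (v j - v i) * (r k - r i) +
        (starRingEnd ℂ) (r j - r i) * (v k - v i)).im) (c := ori (v i) (v j) (v k)) h
      rw [c] at this
      simp at this
    refine (finite_setOfPred_isRoot ne).subset fun e he => ?_
    have := he.2
    simp [ori] at this ⊢
    linear_combination this
  obtain ⟨e, he, h1, h2⟩ := (hc.dense_compl ℝ).exists_between hε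
  exact ⟨e, h1, h2, fun i j k h c => he (Set.mem_iUnion.2 ⟨(i, j, k), h, c⟩)⟩

lemma q7_vk {N : ℕ} {A B : ℂ[X]} (hA : A.natDegree < N) (hB : B.natDegree < N) {k : ℤ}
    {a b : ℕ} (ha : a < N) (hb : b < N) (h1 : (N : ℤ) ∣ k - a) (h2 : (N : ℤ) ∣ -k - b) :
    ∑ j ∈ Ico (0:ℤ) N, (A.eval (ee (-(j * (2 * π / N)))) -
      (starRingEnd ℂ) (B.eval (ee (-(j * (2 * π / N)))))) / N * ee (j * (2 * π / N)) ^ k =
      A.coeff a - (starRingEnd ℂ) (B.coeff b) := by
  have e1 := q7_coef hA ha h1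
  have e2 := congrArg (starRingEnd ℂ) (q7_coef hB hb h2)
  simp only [map_sum, map_mul, map_zpow₀, q7_conj, map_natCast] at e2
  simp only [q7_inv, inv_zpow', neg_neg] at e1 e2 ⊢
  have N0 : (N : ℂ) ≠ 0 := by exact_mod_cast (by omega : N ≠ 0)
  simp only [div_mul_eq_mul_div, ← sum_div, sub_mul, sum_sub_distrib, e1, e2]
  field_simp

lemma q7_der (p : ℂ[X]) (s : ℝ) : HasDerivAt (fun s : ℝ => p.eval (ee (-s)))
    ((X * derivative p).eval (ee (-s)) * Complex.I) s := by
  have e : ∀ x : ℝ, ee (-x) = Complex.exp (x * Complex.I) := fun x => by simp [ee]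
  simp only [e]
  have := ((p.hasDerivAt _).comp (s : ℂ) (hasDerivAt_mul_const Complex.I).cexp).comp_ofReal
  refine this.congr_deriv ?_
  simp only [eval_mul, eval_X]; ring

theorem app_step {p q : ℂ[X]} (p1 : p.coeff 1 = 1) (q1 : q.coeff 1 = 0)
    (jac : ∀ z : ℂ, ‖z‖ ≤ 1 → ‖q.derivative.eval z‖ < ‖p.derivative.eval z‖)
    (inj : Set.InjOn (fun z => p.eval z + (starRingEnd ℂ) (q.eval z)) (Metric.sphere 0 1))
    {n : ℕ} (hn : 2 ≤ n) {ε : ℝ} (hε : 0 < ε) :
    ∃ (N : ℕ) (t : ℤ → ℝ) (v : ℤ → ℂ), Sp N t v ∧ Sim N v ∧ ‖Vk 1 N t v‖ ≤ 1 + ε ∧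
      ‖Vk n N t v‖ = n * ‖p.coeff n‖ ∧ ‖Vk (-n) N t v‖ = n * ‖q.coeff n‖ := by
  have π0 : (π : ℂ) ≠ 0 := by exact_mod_cast pi_ne_zero
  have ep : ∀ s, ee (-(s + 2 * π)) = ee (-s) := fun s => by
    rw [← j1_ee_per (-s) (-1)]; congr 1; push_cast; ring
  have nX : ∀ (P : ℂ[X]) (z : ℂ), ‖z‖ = 1 → ‖(X * P).eval z‖ = ‖P.eval z‖ := fun P z hz => by
    simp [hz]
  obtain ⟨η, η0, h₀, h0, sep⟩ := q7_sep two_pi_pos
    (c := fun s => (p.eval (ee (-s)) + star (q.eval (ee (-s)))) / (2 * π * Complex.I))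
    (g := fun s => ((X * derivative p).eval (ee (-s)) -
      (starRingEnd ℂ) ((X * derivative q).eval (ee (-s)))) / (2 * π))
    (fun s => (((q7_der p s).add (q7_der q s).star).div_const _).congr_deriv (by
      simp only [star_mul', Complex.star_def, Complex.conj_I]; field_simp; ring))
    (by unfold ee; fun_prop) (fun s => by simp only [ep]) (fun s => by simp only [ep])
    (fun s => div_ne_zero (fun c => by
      have := congrArg norm (sub_eq_zero.1 c)
      rw [Complex.norm_conj, nX _ _ (j1_ee_norm _), nX _ _ (j1_ee_norm _)] at this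
      exact (jac _ (j1_ee_norm _).le).ne' this) (by simp))
    fun s d d0 d1 c => by
      have := inj (by simp [j1_ee_norm]) (by simp [j1_ee_norm])
        ((div_left_inj' (by simp)).1 c)
      linarith [j1_inj (by linarith) (by linarith) this]
  obtain ⟨e₀, e0, he₀⟩ := (isCompact_closedBall (0:ℂ) 1).exists_forall_le' (a := 0)
    (f := fun z => ‖p.derivative.eval z‖ - ‖q.derivative.eval z‖) (by fun_prop)
    fun z hz => sub_pos.2 (jac z (by simpa using hz))
  obtain ⟨N₁, hN₁⟩ := exists_nat_ge (2 * π / h₀)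
  obtain ⟨N, hN⟩ : ∃ N, N = N₁ + p.natDegree + q.natDegree + n + 3 := ⟨_, rfl⟩
  have N0 : 0 < N := by omega
  have N1 : (0:ℝ) < N := by exact_mod_cast N0
  have N2 : (N:ℂ) ≠ 0 := by exact_mod_cast N0.ne'
  have hh : 0 < 2 * π / N := by positivity
  have hT : N * (2 * π / N) = 2 * π := by field_simp
  have zp : ∀ j : ℤ, ee (-((j + N : ℤ) * (2 * π / N))) = ee (-(j * (2 * π / N))) := fun j => by
    rw [← ep (j * _)]; congr 2; push_cast; linarith
  have dg : ∀ (P : ℂ[X]) (κ : ℂ), (X * (derivative P + C κ)).natDegree ≤ P.natDegree + 1 :=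
    fun P κ => natDegree_mul_le.trans (by
      have := natDegree_derivative_le P
      rw [natDegree_X, natDegree_add_C]; omega)
  have dB : (X * derivative q).natDegree ≤ q.natDegree + 1 := by simpa using dg q 0
  obtain ⟨v₀, pv, hv⟩ := q7_anti (N := N) (D := fun j : ℤ =>
    ((X * derivative p).eval (ee (-(j * (2 * π / N)))) -
      (starRingEnd ℂ) ((X * derivative q).eval (ee (-(j * (2 * π / N)))))) / N)
    (fun j => by simp only [zp]) (by
      have dA : (X * derivative p).natDegree ≤ p.natDegree + 1 := by simpa using dg p 0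
      have := q7_vk (N := N) (A := X * derivative p) (B := X * derivative q) (k := 0) (a := 0)
        (b := 0) (by omega) (by omega) N0 N0 (by simp) (by simp)
      simpa using this)
  obtain ⟨e, e1, e2, gen⟩ := q7_gen v₀ (fun j => ee (-(j * (2 * π / N))))
    (show 0 < min η (min e₀ ε) / (2 * N) by positivity)
  set κ : ℂ := e * N * (1 - ee (2 * π / N)) with hκ
  have κ1 : ‖κ‖ < min η (min e₀ ε) := by
    have := norm_sub_le 1 (ee (2 * π / N))
    rw [norm_one, j1_ee_norm] at this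
    rw [lt_div_iff₀ (by positivity)] at e2
    rw [hκ, norm_mul, norm_mul, Complex.norm_real, Real.norm_of_nonneg e1.le, Complex.norm_natCast]
    have := mul_le_mul_of_nonneg_left this (mul_pos e1 N1).le
    linarith
  simp only [lt_min_iff] at κ1
  set v : ℤ → ℂ := fun j => v₀ j + e * ee (-(j * (2 * π / N))) with hvd
  have pv' : ∀ j, v (j + N) = v j := fun j => by simp only [hvd, pv, zp]
  have hD : ∀ j, Dv v j = Dv v₀ j + κ * ee (-(j * (2 * π / N))) / N := fun j => by
    have : ee (-((j - 1 : ℤ) * (2 * π / N))) = ee (-(j * (2 * π / N))) * ee (2 * π / N) := by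
      rw [← j1_ee_add]; congr 1; push_cast; ring
    simp only [Dv, hvd, this, hκ]; field_simp; ring
  have dA := dg p κ
  have vk : ∀ (k : ℤ) (a b : ℕ), a < N → b < N → (N : ℤ) ∣ k - a → (N : ℤ) ∣ -k - b →
      Vk k N (fun j => j * (2 * π / N)) v = (X * (derivative p + C κ)).coeff a -
        (starRingEnd ℂ) ((X * derivative q).coeff b) := fun k a b ha hb h1 h2 => by
    rw [← q7_vk (by omega) (by omega) ha hb h1 h2]
    refine sum_congr rfl fun j _ => ?_
    rw [hD, hv]
    simp only [eval_mul, eval_add, eval_X, eval_C]; ring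
  have zA : ∀ a, p.natDegree + 1 < a → (X * (derivative p + C κ)).coeff a = 0 := fun a ha =>
    coeff_eq_zero_of_natDegree_lt (by omega)
  have zB : ∀ a, q.natDegree + 1 < a → (X * derivative q).coeff a = 0 := fun a ha =>
    coeff_eq_zero_of_natDegree_lt (by omega)
  have dv : ∀ a : ℕ, a ≤ N → (N : ℤ) ∣ -(a : ℤ) - (N - a : ℕ) := fun a ha =>
    ⟨-1, by push_cast [ha]; ring⟩
  have mar : ∀ z : ℂ, ‖z‖ ≤ 1 → ‖q.derivative.eval z‖ < ‖(derivative p + C κ).eval z‖ := by
    intro z hz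
    have a1 := he₀ z (by simpa using hz)
    have a2 := norm_sub_le ((derivative p + C κ).eval z) κ
    rw [eval_add, eval_C, add_sub_cancel_right] at a2
    rw [eval_add, eval_C]
    linarith [κ1.2.1]
  have gp : ∀ i j k : ℤ, i < j → j < k → k < i + N → ori (v i) (v j) (v k) ≠ 0 := by
    intro i j k h1 h2 h3
    have : (k : ℝ) < i + N := by exact_mod_cast h3
    exact gen i j k (q7_reg (by gcongr) (by gcongr) (by nlinarith))
  refine ⟨N, fun j => j * (2 * π / N), v, ⟨⟨N0, fun i j h => by gcongr,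
    fun j => by push_cast; linarith⟩, pv', ?_, fun z hz => ?_⟩, ⟨by omega, pv', gp,
    fun i j h1 h2 => ?_⟩, ?_, ?_, ?_⟩
  · rw [vk (-1) (N - 1) 1 (by omega) (by omega) (dv 1 N0) (by simp), zA _ (by omega), coeff_X_mul,
      coeff_derivative]
    simp [q1]
  · rw [q7_vp N0 v hz]
    have := q7_nz (N := N) (B := X * derivative q) (by omega)
      (fun z hz => norm_pos_iff.1 ((norm_nonneg _).trans_lt (mar z hz)))
      (fun z hz => by rw [nX _ _ hz]; exact mar z hz.le) hz
    rw [eval_eq_sum_range' (n := N) (by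
      have := natDegree_derivative_le p
      rw [natDegree_add_C]; omega), ← sum_sub_distrib] at this
    refine ne_of_eq_of_ne (sum_congr rfl fun r hr => ?_) this
    have hr := mem_range.1 hr
    rcases (show r + 1 ≤ N by omega).eq_or_lt with c | c
    · rw [vk _ 0 0 N0 N0 ⟨1, by omega⟩ ⟨-1, by omega⟩, ← coeff_X_mul _ r, zA (r + 1) (by omega),
        show N - 1 - r = 0 by omega]
      simp
    · rw [vk _ (r + 1) (N - 1 - r) c (by omega) (by simp) ⟨-1, by omega⟩, coeff_X_mul]; ring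
  · have rot : ∀ a b c, ori a b c = ori c a b := fun a b c => by simp [ori]; ring
    refine (sep N _ v hh ?_ hT pv' (fun j => ?_) i j h1 h2).nx (gp _ _ _ (by omega) h1 (by omega))
      (gp _ _ _ (by omega) (by omega) h2) ?_ ?_
    · rw [div_le_iff₀ N1]
      rw [div_le_iff₀ h0] at hN₁
      have : (N₁ : ℝ) ≤ N := by exact_mod_cast (by omega : N₁ ≤ N)
      nlinarith
    · have : Dv v j - (2 * π / N : ℝ) * (((X * derivative p).eval (ee (-(j * (2 * π / N)))) -
          (starRingEnd ℂ) ((X * derivative q).eval (ee (-(j * (2 * π / N)))))) / (2 * π)) =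
          κ * ee (-(j * (2 * π / N))) / N := by
        rw [hD, hv]; push_cast; field_simp; ring
      rw [this, norm_div, norm_mul, j1_ee_norm, mul_one, Complex.norm_natCast, div_mul_eq_mul_div]
      gcongr
      nlinarith [κ1.1, pi_gt_three]
    · rw [rot]; exact gp _ _ _ (by omega) (by omega) h2
    · rw [rot]; exact gp _ _ _ h1 (by omega) (by omega)
  · rw [vk 1 1 (N - 1) (by omega) (by omega) (by simp) (dv 1 N0), zB _ (by omega), coeff_X_mul,
      coeff_add, coeff_derivative]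
    have := norm_add_le 1 κ
    simp [p1] at this ⊢
    linarith [κ1.2.2]
  · obtain ⟨n, rfl⟩ : ∃ m, n = m + 1 + 1 := ⟨n - 2, by omega⟩
    rw [vk _ (n + 1 + 1) (N - (n + 1 + 1)) (by omega) (by omega) (by simp) (dv _ (by omega)),
      zB _ (by omega), coeff_X_mul, coeff_add, coeff_derivative, coeff_C_succ, map_zero, sub_zero,
      add_zero, norm_mul, mul_comm, ← Nat.cast_succ, Complex.norm_natCast]
  · obtain ⟨n, rfl⟩ : ∃ m, n = m + 1 := ⟨n - 1, by omega⟩
    rw [vk _ (N - (n + 1)) (n + 1) (by omega) (by omega) (dv _ (by omega)) (by simp),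
      zA _ (by omega), coeff_X_mul, coeff_derivative, zero_sub, norm_neg, Complex.norm_conj,
      norm_mul, mul_comm, ← Nat.cast_succ, Complex.norm_natCast]

end Pool.Agent.Lib.MP_9dc04a_an
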