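import Pool.Agent.Lib.MP_9dc04a_an.QBr0

set_option autoImplicit false

namespace Pool.Agent.Lib.MP_9dc04a_an

open Finset Real A2

variable {N : ℕ} {t : ℤ → ℝ} {v : ℤ → ℂ} {Ed : ℤ → ℤ → Prop} {H : ℤ → Prop} {d : Cd}

lemma Tr.chord (T : Tr N Ed H) {x a c : ℤ} (F : Face Ed H x a c) {y : ℤ} (h : y = a ∨ y = c) :
    x ≠ y ∧ Ed (min x y) (max x y) := by
  have k : ∀ y, Ed x y ∨ Ed y x → x ≠ y ∧ Ed (min x y) (max x y) := fun y h => by
    rcases h with h | h
    · have := T.lt _ _ h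
      rw [min_eq_left this.le, max_eq_right this.le]; exact ⟨this.ne, h⟩
    · have := T.lt _ _ h
      rw [min_eq_right this.le, max_eq_left this.le]; exact ⟨this.ne', h⟩
  refine k y ?_
  rcases F with F | F | F | F <;> rcases h with rfl | rfl
  exacts [.inr F.1, .inl F.2.1, .inl F.1, .inl F.2.2, .inr F.2.2, .inr F.2.1, .inr (T.lid _ _ F.1),
    .inl (T.lid _ _ F.2)]

lemma br_sn {x y : ℝ} {p : Prop} [Decidable p] (h1 : x - y < 2 * π) (h2 : y - x < 2 * π) (a : p → x < y)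
    (b : ¬p → y < x) : 0 < (if p then (-1:ℝ) else 1) * sn (x - y) := by
  split_ifs with c
  · rw [← neg_sub, sn_neg]
    simpa [sn] using j1_sin (x := y - x) (by linarith [a c]) h2
  · simpa [sn] using j1_sin (x := x - y) (by linarith [b c]) h1

lemma br_conj (x : ℝ) : (starRingEnd ℂ) (ee x) = ex x := by
  rw [ee, ex, ← Complex.exp_conj]; simp

lemma br_ex (x : ℝ) : ee (-x) = ex x := q1_exp x

/-- the algebraic form of the final data -/
structure Alg {κ : Type} [Fintype κ] {m : ℕ} (t : Fin N → ℝ) (y : Fin 3 → ℝ) (τ : κ → ℝ) (D : Fin N → ℂ)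
    (θ : Fin m → Fin N → ℝ) : Prop where
  w : Win (Sum.elim t y)
  it : Function.Injective (Sum.elim t y)
  iτ : Function.Injective fun k => ex (τ k)
  τt : ∀ k j, ex (τ k) ≠ ex (t j)
  hc : Fintype.card κ + m + 3 = Fintype.card (Fin N)
  h0 : ∑ j, D j = 0
  hg : ∑ j, D j * ex (-t j) = 0
  hτ : ∀ k, ∑ j, D j / (ex (τ k) - ex (t j)) = 0
  hθ : ∀ B, ∑ j, (θ B j : ℂ) * D j = 0
  s : ∀ J, Pos t (rw3 t τ θ y J) ∧ Zs t (rw3 t τ θ y J) ≠ 0
  s4 : Pos t (Fin.cons (fun j => -(rho t τ j * ∏ i, sn (t j - y i))) (rw3 t τ θ y univ) :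
    Fin (m + 1) → Fin N → ℝ) ∧
    Zs t (Fin.cons (fun j => -(rho t τ j * ∏ i, sn (t j - y i))) (rw3 t τ θ y univ) :
    Fin (m + 1) → Fin N → ℝ) ≠ 0

theorem Fd.alg {h₁ h₂ h₃ : ℤ} (F : Fd N t Ed H d h₁ h₂ h₃ v) :
    ∃ (κ : Type) (_ : Fintype κ) (m : ℕ) (t' : Fin N → ℝ) (y : Fin 3 → ℝ) (τ : κ → ℝ) (D : Fin N → ℂ)
      (θ : Fin m → Fin N → ℝ), Alg t' y τ D θ ∧
      ∀ n : ℤ, ∑ j, D j * ex (t' j) ^ n = (starRingEnd ℂ) (Vk n N t v) := by
  classical
  have P := F.pol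
  have T := F.tr
  have A := F.cnd
  have o1 := F.o12
  have o2 := F.o23
  have o3 := F.o31
  set Rs : Finset ℤ := {j ∈ Ico h₁ (h₁ + N) | d.R j} with hRs
  set Cs : Finset ℤ := {j ∈ Ico h₁ (h₁ + N) | d.C j} with hCs
  set hh : Fin 3 → ℤ := ![h₁, h₂, h₃] with hhh
  have hm : StrictMono hh := by
    rw [Fin.strictMono_iff_lt_succ]
    intro i; fin_cases i <;> simpa [hhh]
  have hr : ∀ i, h₁ ≤ hh i ∧ hh i < h₁ + N ∧ H (hh i) ∧ ¬d.R (hh i) ∧ ¬d.C (hh i) := fun i => by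
    have := F.hH; have := F.fR; have := F.fC
    fin_cases i <;> simp only [hhh] <;> refine ⟨?_, ?_, ?_⟩ <;> first | (simp; omega) | simp
    all_goals tauto
  have split : ∀ {M : Type} [CommMonoid M] (f : ℤ → M), ∏ j ∈ Ico h₁ (h₁ + N), f j =
      (∏ j ∈ Rs, f j) * (∏ j ∈ Cs, f j) * ∏ i, f (hh i) := fun f => by
    rw [← prod_union, ← prod_image (s := univ) (g := hh) hm.injective.injOn, ← prod_union]
    · congr 1
      ext j
      simp only [mem_union, hRs, hCs, mem_filter, mem_Ico, mem_image, mem_univ, true_and]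
      refine ⟨fun h => ?_, ?_⟩
      · by_cases e : j = h₁ ∨ j = h₂ ∨ j = h₃
        · rcases e with e | e | e
          exacts [.inr ⟨0, e.symm⟩, .inr ⟨1, e.symm⟩, .inr ⟨2, e.symm⟩]
        · have := F.all j (by omega) h.2 (by omega) (by omega)
          tauto
      · rintro ((h | h) | ⟨i, rfl⟩)
        exacts [h.1, h.1, ⟨(hr i).1, (hr i).2.1⟩]
    · refine disjoint_left.2 fun j a b => ?_
      obtain ⟨i, -, rfl⟩ := mem_image.1 b
      rcases mem_union.1 a with a | a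
      exacts [(hr i).2.2.2.1 (mem_filter.1 a).2, (hr i).2.2.2.2 (mem_filter.1 a).2]
    · exact disjoint_left.2 fun j a b => A.dj j (mem_filter.1 a).2 (mem_filter.1 b).2
  set x : Fin #Cs → ℤ := fun i => Cs.orderEmbOfFin rfl i with hx
  have xi : Function.Injective x := (Cs.orderEmbOfFin rfl).injective
  have xm : ∀ i, h₁ < x i ∧ x i < h₁ + N ∧ d.C (x i) := fun i => by
    have := mem_filter.1 (Cs.orderEmbOfFin_mem rfl i)
    rw [mem_Ico] at this
    exact ⟨this.1.1.lt_of_ne fun e => F.fC.1 (e ▸ this.2), this.1.2, this.2⟩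
  have xp : ∀ f : ℤ → ℝ, ∏ i, f (x i) = ∏ j ∈ Cs, f j := fun f => by
    rw [← prod_image (s := univ) (g := x) xi.injOn, hx, image_orderEmbOfFin_univ]
  have chd : ∀ i y, y = d.a (x i) ∨ y = d.c (x i) → x i ≠ y ∧ Ed (min (x i) y) (max (x i) y) :=
    fun i y h => T.chord (A.fc _ (xm i).2.2).1 h
  have rg : ∀ i y, y = d.a (x i) ∨ y = d.c (x i) → h₁ ≤ y ∧ y ≤ h₁ + N ∧ x i ≠ y := fun i y h => by
    have a1 := T.hv _ _ h₁ (chd i y h).2
    have a2 := T.hv _ _ (h₁ + N) (chd i y h).2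
    rw [T.ph] at a2
    have := xm i
    refine ⟨not_lt.1 fun c => a1 ?_ ?_ F.hH.1, not_lt.1 fun c => a2 ?_ ?_ F.hH.1, (chd i y h).1⟩ <;>
      omega
  have K : Chs N h₁ x (fun i => d.a (x i)) (fun i => d.c (x i)) (fun i => d.θ (x i)) v :=
    ⟨xi, fun i => (A.fc _ (xm i).2.2).2.1, fun i => (A.fc _ (xm i).2.2).2.2,
      fun i => ⟨(xm i).1, (xm i).2.1.le⟩, fun i => rg i _ (.inl rfl), fun i => rg i _ (.inr rfl),
      fun i j y z a b c => absurd (T.nc _ _ _ _ (chd i y a).2 (chd j z b).2 c.1 c.2.1) (not_le.2 c.2.2),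
      fun i => .inr ⟨F.sat.fl _ (xm i).2.2, F.ne _ (xm i).2.2⟩⟩
  have K' : Chs N h₁ (Fin.cons (h₁ + N) x) (Fin.cons h₁ fun i => d.a (x i))
      (Fin.cons h₁ fun i => d.c (x i)) (Fin.cons (1 / 2) fun i => d.θ (x i)) v := by
    have N0 : h₁ < h₁ + N := by omega
    refine ⟨Fin.cons_injective_iff.2 ⟨fun ⟨i, h⟩ => (xm i).2.1.ne h, xi⟩, ?_, ?_, ?_, ?_, ?_, ?_, ?_⟩
    · exact Fin.cases (by simp) K.h0
    · exact Fin.cases (by simpa using two_inv_lt_one) K.h1
    · exact Fin.cases ⟨N0, le_rfl⟩ K.rx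
    · exact Fin.cases ⟨le_rfl, N0.le, N0.ne'⟩ K.ra
    · exact Fin.cases ⟨le_rfl, N0.le, N0.ne'⟩ K.rc
    · intro i j y z
      refine Fin.cases ?_ (fun i => ?_) i <;> refine Fin.cases ?_ (fun j => ?_) j <;>
        simp only [Fin.cons_zero, Fin.cons_succ, or_self]
      · omega
      · intro a b
        have := rg j z b
        have := xm j
        omega
      · intro a b
        have := rg i y a
        have := xm i
        omega
      · exact K.cr i j y z
    · refine Fin.cases (.inl ?_) fun i => .inr ⟨F.sat.fl _ (xm i).2.2, F.ne _ (xm i).2.2⟩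
      exact Fin.cases N0.ne fun i => (xm i).1.ne
  set t' : Fin N → ℝ := fun j => t (h₁ + 1 + j) with ht'
  set y : Fin 3 → ℝ := fun i => (t (hh i) + t (hh i + 1)) / 2 with hy
  set τ : Rs → ℝ := fun k => d.τ k with hτ
  have tm : StrictMono t' := fun a b l => P.tm (by have : (a:ℕ) < b := l; omega)
  have arc : ∀ (j : Fin N) (k : ℤ) (s : ℝ), h₁ ≤ k → k < h₁ + N → t k < s → s < t (k + 1) →
      t' j - s < 2 * π ∧ s - t' j < 2 * π ∧ (h₁ + 1 + j ≤ k → t' j < s) ∧ (¬h₁ + 1 + j ≤ k → s < t' j) :=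
    fun j k s a b c e => by
      have := j.2
      have b1 := P.tm.monotone a
      have b2 := P.tm.monotone (show k + 1 ≤ h₁ + N by omega)
      have b3 := P.tm (show h₁ < h₁ + 1 + j by omega)
      have b4 := P.tm.monotone (show h₁ + 1 + j ≤ h₁ + N by omega)
      rw [P.tp] at b2 b4
      simp only [ht']
      exact ⟨by linarith, by linarith, fun l => (P.tm.monotone l).trans_lt c,
        fun l => e.trans_le (P.tm.monotone (by omega))⟩
  have ya : ∀ i, t (hh i) < y i ∧ y i < t (hh i + 1) := fun i => by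
    have := P.tm (lt_add_one (hh i))
    simp only [hy]
    constructor <;> linarith
  have ay := fun j i => arc j _ _ (hr i).1 (hr i).2.1 (ya i).1 (ya i).2
  have τm : ∀ k : Rs, h₁ ≤ k ∧ (k:ℤ) < h₁ + N ∧ d.R k := fun k => by
    have := mem_filter.1 k.2
    rw [mem_Ico] at this
    exact ⟨this.1.1, this.1.2, this.2⟩
  have aτ := fun j (k : Rs) => arc j _ _ (τm k).1 (τm k).2.1 (A.ar _ (τm k).2.2).1 (A.ar _ (τm k).2.2).2
  have w0 : Win t' := fun i j => by
    have := i.2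
    have b3 := P.tm (show h₁ < h₁ + 1 + j by omega)
    have b4 := P.tm.monotone (show h₁ + 1 + i ≤ h₁ + N by omega)
    rw [P.tp] at b4
    simp only [ht']; linarith
  have ym : StrictMono y := fun a b l =>
    (ya a).2.trans ((P.tm.monotone (hm l)).trans_lt (ya b).1)
  have w : Win (Sum.elim t' y) := by
    rintro (i | i) (j | j)
    · exact w0 i j
    · exact (ay i j).1
    · exact (ay j i).2.1
    · have b1 := P.tm.monotone (hr j).1
      have b2 := P.tm.monotone (show hh i + 1 ≤ h₁ + N by linarith [(hr i).2.1])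
      rw [P.tp] at b2
      simp only [Sum.elim_inr]
      linarith [ya i, ya j]
  have ne : ∀ {a b : ℝ} {p : Prop}, (p → a < b) ∧ (¬p → b < a) → a ≠ b := fun {a b p} h => by
    by_cases c : p
    exacts [(h.1 c).ne, (h.2 c).ne']
  have it : Function.Injective (Sum.elim t' y) :=
    tm.injective.sumElim ym.injective fun a b => ne (ay a b).2.2
  set σ : Fin N → ℤ → ℝ := fun j k => if h₁ + 1 + j ≤ k then -1 else 1 with hσ
  have σ2 : ∀ j k, σ j k * σ j k = 1 := fun j k => by simp only [hσ]; split_ifs <;> simp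
  have sg : ∀ (J : Finset (Fin 3)) j, 0 < (-1) ^ #Cs * (∏ i ∈ Jᶜ, σ j (hh i)) *
      (∏ k, q8_e (x k) (h₁ + 1 + j)) * (rho t' τ j * ∏ i ∈ J, sn (t' j - y i)) := fun J j => by
    have a1 : 0 < ∏ k : Rs, σ j k * sn (t' j - τ k) := prod_pos fun k _ =>
      br_sn (aτ j k).1 (aτ j k).2.1 (aτ j k).2.2.1 (aτ j k).2.2.2
    have a2 : 0 < ∏ i ∈ J, σ j (hh i) * sn (t' j - y i) := prod_pos fun i _ =>
      br_sn (ay j i).1 (ay j i).2.1 (ay j i).2.2.1 (ay j i).2.2.2
    have a3 : 0 < ∏ i ∈ univ.erase j, σ j (h₁ + i) * sn (t' j - t' i) := prod_pos fun i hi =>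
      br_sn (w0 _ _) (w0 _ _) (fun l => tm (by rw [Fin.lt_def]; omega)) fun l => tm (by
        have := Fin.val_ne_of_ne (ne_of_mem_erase hi)
        rw [Fin.lt_def]; omega)
    rw [prod_mul_distrib] at a1 a2 a3
    rw [prod_erase _ (by simp [hσ]), show ∏ i : Fin N, σ j (h₁ + i) = _ from
      br_win (M := Additive ℝ) (fun k => Additive.ofMul (σ j k)) h₁] at a3
    replace a3 : 0 < (∏ k ∈ Ico h₁ (h₁ + N), σ j k) * ∏ i ∈ univ.erase j, sn (t' j - t' i) := a3
    rw [split, ← prod_mul_prod_compl J] at a3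
    rw [prod_coe_sort Rs (σ j)] at a1
    have e : ∏ k, q8_e (x k) (h₁ + 1 + j) = (-1) ^ #Cs * ∏ k ∈ Cs, σ j k := by
      rw [xp fun k => q8_e k (h₁ + 1 + j), ← prod_const, ← prod_mul_distrib]
      refine prod_congr rfl fun k _ => ?_
      simp only [q8_e, hσ]
      split_ifs <;> first | omega | simp
    have s1 : (∏ k ∈ Rs, σ j k) * ∏ k ∈ Rs, σ j k = 1 := by simp [← prod_mul_distrib, σ2]
    have s2 : (∏ i ∈ J, σ j (hh i)) * ∏ i ∈ J, σ j (hh i) = 1 := by simp [← prod_mul_distrib, σ2]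
    have s3 : ((-1:ℝ) ^ #Cs) * (-1) ^ #Cs = 1 := by rw [← mul_pow]; simp
    have b0 : ∏ i ∈ univ.erase j, sn (t' j - t' i) ≠ 0 := right_ne_zero_of_mul a3.ne'
    rw [e, rho]
    refine (div_pos (mul_pos (mul_pos a1 a2) a3) (mul_self_pos.2 b0)).trans_eq ?_
    generalize (∏ k ∈ Rs, σ j k) = a at *
    generalize (∏ i ∈ J, σ j (hh i)) = b at *
    generalize ((-1:ℝ) ^ #Cs) = c at *
    generalize ∏ i ∈ univ.erase j, sn (t' j - t' i) = u at *
    generalize ∏ k ∈ Cs, σ j k = u1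
    generalize ∏ i ∈ Jᶜ, σ j (hh i) = u2
    generalize ∏ k, sn (t' j - τ k) = u3
    generalize ∏ i ∈ J, sn (t' j - y i) = u4
    field_simp
    linear_combination u1 * u2 * u3 * u4 * (b * b * s1 + s2 - s3)
  have μ0 : ∀ (J : Finset (Fin 3)) j, rho t' τ j * ∏ i ∈ J, sn (t' j - y i) ≠ 0 := fun J j =>
    right_ne_zero_of_mul (sg J j).ne'
  have pe : ∀ j, ee (t (j + N)) = ee (t j) := j1_eep P
  have vk : ∀ n : ℤ, ∑ j : Fin N, (starRingEnd ℂ) (Dv v (h₁ + 1 + j)) * ex (t' j) ^ n =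
      (starRingEnd ℂ) (Vk n N t v) := fun n => by
    rw [Vk, ← br_per P.N0 (fun j => by rw [q1_Dv F.sat.pv, pe]) (h₁ + 1), map_sum]
    exact sum_congr rfl fun j _ => by rw [map_mul, map_zpow₀, br_conj]
  have s0 : Vk 0 N t v = 0 := by simpa [Vk] using q1_sum0 F.sat.pv
  have exn : ∀ a b : ℝ, a - b < 2 * π → b - a < 2 * π → ex a = ex b → a = b := fun a b l1 l2 e =>
    j1_inj (by linarith) (by linarith) (by rwa [br_ex, br_ex])
  have τt : ∀ (k : Rs) j, ex (τ k) ≠ ex (t' j) := fun k j e =>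
    ne (aτ j k).2.2 (exn _ _ (aτ j k).2.1 (aτ j k).1 e).symm
  refine ⟨Rs, inferInstance, _, t', y, τ, fun j => (starRingEnd ℂ) (Dv v (h₁ + 1 + j)),
    fun i j => cr2 (x i) (d.a (x i)) (d.c (x i)) (d.θ (x i)) (h₁ + 1 + j), ⟨w, it,
    fun k l e => ?_, τt, ?_, by simpa [s0] using vk 0,
    by simpa [F.sat.g0, tp_ex_neg] using vk (-1), fun k => ?_, fun i => ?_, fun J => ?_, ?_⟩, vk⟩
  · have b : ∀ k l : Rs, d.τ k - d.τ l < 2 * π := fun k l => by
      have b1 := P.tm.monotone (τm l).1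
      have b2 := P.tm.monotone (show (k:ℤ) + 1 ≤ h₁ + N by linarith [(τm k).2.1])
      rw [P.tp] at b2
      linarith [A.ar _ (τm k).2.2, A.ar _ (τm l).2.2]
    have e := exn _ _ (b k l) (b l k) e
    have a1 := A.ar _ (τm k).2.2
    have a2 := A.ar _ (τm l).2.2
    have c1 := P.tm.lt_iff_lt.1 (a1.1.trans (e ▸ a2.2))
    have c2 := P.tm.lt_iff_lt.1 (a2.1.trans (e ▸ a1.2))
    exact Subtype.ext (by omega)
  · have := split (M := Multiplicative ℕ) fun _ => Multiplicative.ofAdd 1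
    simp only [prod_const, ← pow_add, Int.card_Ico, add_sub_cancel_left, Int.toNat_natCast, card_univ,
      Fintype.card_fin] at this
    have := congrArg Multiplicative.toAdd this
    simpa using this.symm
  · have z := F.sat.zr k (τm k).2.2
    have n : ∀ j, 1 - ee (-d.τ k) * ee (t j) ≠ 0 := fun j => by
      rw [j1_mul]; exact (j1_cot (P.sin_ne (A.ar _ (τm k).2.2).1 (A.ar _ (τm k).2.2).2 j)).1
    have z2 : ∑ j ∈ Ico (0:ℤ) N, Dv v j * ee (t j) / (1 - ee (-d.τ k) * ee (t j)) = 0 := by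
      refine (mul_eq_zero.1 (Eq.trans ?_ z)).resolve_right
        (prod_ne_zero_iff.2 fun j (_ : j ∈ Ico (0:ℤ) N) => n j)
      rw [q1_eval, sum_mul]
      refine sum_congr rfl fun j hj => ?_
      rw [← mul_prod_erase _ _ hj, ← mul_assoc, div_mul_cancel₀ _ (n j)]
    rw [← br_per P.N0 (fun j => by rw [q1_Dv F.sat.pv, pe]) (h₁ + 1)] at z2
    have z3 := congrArg (starRingEnd ℂ) z2
    have z4 := vk 0
    rw [map_sum, map_zero] at z3
    rw [s0, map_zero] at z4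
    have e0 := tp_ex_ne (τ k)
    refine mul_left_cancel₀ (mul_ne_zero e0 e0) ?_
    rw [mul_zero, ← add_zero 0, mul_sum]
    nth_rewrite 1 [← z3, ← mul_zero (ex (τ k)), ← z4]
    rw [mul_sum, ← sum_add_distrib]
    refine sum_congr rfl fun j _ => ?_
    have := sub_ne_zero.2 (τt k j)
    simp only [map_div₀, map_mul, map_sub, map_one, br_conj, tp_ex_neg, zpow_zero]
    simp only [hτ, ht'] at this e0 ⊢
    field_simp
    ring
  · have b1 := br_ch v (xm i).1.le (xm i).2.1.le (K.ra i).1 (K.ra i).2.1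
    have b2 := br_ch v (xm i).1.le (xm i).2.1.le (K.rc i).1 (K.rc i).2.1
    have b3 := F.sat.fl _ (xm i).2.2
    have : ∑ j : Fin N, (cr2 (x i) (d.a (x i)) (d.c (x i)) (d.θ (x i)) (h₁ + 1 + j) : ℂ) *
        Dv v (h₁ + 1 + j) = 0 := by
      simp only [cr2, Complex.real_smul, Dv] at b1 b2 ⊢
      push_cast
      simp only [add_mul, mul_assoc, sum_add_distrib, ← mul_sum, b1, b2]
      linear_combination -b3
    simpa using congrArg (starRingEnd ℂ) this
  · refine K.lev w0 tm _ (μ0 J)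
      (fun B => (-1) ^ #Cs * ∏ i ∈ Jᶜ, if x B ≤ hh i then -1 else 1) (fun B => ?_) fun B j h => ?_
    · rw [← mul_self_eq_one_iff, mul_mul_mul_comm, ← mul_pow, ← prod_mul_distrib]
      rw [prod_eq_one fun i _ => by split_ifs <;> simp]
      simp
    · convert sg J j using 5 with i
      have : ∃ z, (z = d.a (x B) ∨ z = d.c (x B)) ∧ ch (x B) z (h₁ + 1 + j) ≠ 0 := by
        by_contra c
        push Not at c
        exact h (by rw [cr2, c _ (.inl rfl), c _ (.inr rfl)]; simp)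
      obtain ⟨z, z1, z2⟩ := this
      have a1 := T.hv _ _ (hh i) (chd B z z1).2
      have a2 : x B ≠ hh i := fun e => (hr i).2.2.2.2 (e ▸ (xm B).2.2)
      have a3 : ¬(min (x B) z < hh i ∧ hh i < max (x B) z) := fun c => a1 c.1 c.2 (hr i).2.2.1
      have a4 : (x B < h₁ + 1 + j ∧ h₁ + 1 + j ≤ z) ∨ (z < h₁ + 1 + j ∧ h₁ + 1 + j ≤ x B) := by
        by_contra c
        exact z2 (by rw [ch, if_neg (by tauto), if_neg (by tauto)])
      simp only [hσ]
      split_ifs <;> first | rfl | omega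
  · have L := K'.lev w0 tm _ (μ0 univ) (fun _ => (-1) ^ #Cs) (fun _ => neg_one_pow_eq_or ℝ _)
      fun B j _ => by
        have := j.2
        rw [Fin.prod_univ_succ, Fin.cons_zero, q8_e, if_neg (by omega), one_mul]
        simpa using sg univ j
    have e : ∀ {f g : Fin (#Cs + 1) → Fin N → ℝ}, f = g → Pos t' f ∧ Zs t' f ≠ 0 →
      Pos t' g ∧ Zs t' g ≠ 0 := fun h => h ▸ id
    refine e ?_ L
    funext B j
    refine Fin.cases ?_ (fun B => rfl) B
    have := j.2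
    simp only [Fin.cons_zero, cr2, ch]
    rw [if_neg (by omega), if_pos (by omega)]
    ring

theorem Fd.a2 {h₁ h₂ h₃ : ℤ} (F : Fd N t Ed H d h₁ h₂ h₃ v) :
    ‖Vk 2 N t v‖ ≤ 5 * ‖Vk 1 N t v‖ := by
  obtain ⟨κ, _, m, t', y, τ, D, θ, A, vk⟩ := F.alg
  have := core2 A.w A.it A.iτ A.τt A.hc A.h0 A.hg A.hτ A.hθ A.s A.s4.1 A.s4.2
  have v1 := vk 1
  have v2 := vk 2
  simp only [zpow_ofNat, pow_one] at v1 v2
  rwa [v1, v2, Complex.norm_conj, Complex.norm_conj] at this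

end Pool.Agent.Lib.MP_9dc04a_an
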