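import Pool.Agent.Lib.MP_9dc04a_an.QSgn

set_option autoImplicit false

namespace Pool.Agent.Lib.MP_9dc04a_an

open Finset

theorem r3_mono {m : ℕ} (x a c q : Fin m → ℤ) (θ : Fin m → ℝ) (hx : StrictMono x) (hq : StrictMono q)
    (h0 : ∀ i, 0 ≤ θ i) (h1 : ∀ i, θ i ≤ 1) (na : ∀ i, x i ≠ a i) (nc : ∀ i, x i ≠ c i)
    (cr : ∀ i j y z, (y = a i ∨ y = c i) → (z = a j ∨ z = c j) →
      ¬(min (x i) y < min (x j) z ∧ min (x j) z < max (x i) y ∧ max (x i) y < max (x j) z)) :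
    0 ≤ (-1) ^ (m * (m + 1) / 2) * (∏ k, (-1 : ℝ) ^ #{i | x i < q k}) *
      (Matrix.of fun i k => θ i * ch (x i) (a i) (q k) + (1 - θ i) * ch (x i) (c i) (q k)).det := by
  have e := (Matrix.detRowAlternating (n := Fin m) (R := ℝ)).toMultilinearMap.map_add_univ
    (fun i k => θ i * ch (x i) (a i) (q k)) fun i k => (1 - θ i) * ch (x i) (c i) (q k)
  refine le_of_le_of_eq ?_ (congrArg (_ * ·) e.symm)
  rw [mul_sum]
  refine sum_nonneg fun s _ => ?_
  have e2 := (Matrix.detRowAlternating (n := Fin m) (R := ℝ)).toMultilinearMap.map_smul_univ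
    (fun i => if i ∈ s then θ i else 1 - θ i) fun i k => ch (x i) (if i ∈ s then a i else c i) (q k)
  have e3 : s.piecewise (fun i k => θ i * ch (x i) (a i) (q k)) (fun i k => (1 - θ i) * ch (x i) (c i) (q k)) =
      fun i => (if i ∈ s then θ i else 1 - θ i) • fun k => ch (x i) (if i ∈ s then a i else c i) (q k) := by
    funext i k
    by_cases h : i ∈ s <;> simp [h]
  have hy : ∀ i, (if i ∈ s then a i else c i) = a i ∨ (if i ∈ s then a i else c i) = c i := fun i => by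
    split_ifs <;> simp
  rw [e3, e2, smul_eq_mul, mul_left_comm]
  refine mul_nonneg (prod_nonneg fun i _ => ?_) (ch_sign x _ q hx hq (fun i => ?_) fun i j => cr i j _ _ (hy i) (hy j))
  · split_ifs <;> linarith [h0 i, h1 i]
  · split_ifs
    exacts [na i, nc i]

theorem ch2_sign {m : ℕ} (x a c : Fin m → ℤ) (θ : Fin m → ℝ) (hx : Function.Injective x)
    (h0 : ∀ i, 0 ≤ θ i) (h1 : ∀ i, θ i ≤ 1) (na : ∀ i, x i ≠ a i) (nc : ∀ i, x i ≠ c i)
    (cr : ∀ i j y z, (y = a i ∨ y = c i) → (z = a j ∨ z = c j) →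
      ¬(min (x i) y < min (x j) z ∧ min (x j) z < max (x i) y ∧ max (x i) y < max (x j) z)) :
    ∃ e : ℝ, (e = 1 ∨ e = -1) ∧ ∀ q : Fin m → ℤ, StrictMono q →
      0 ≤ e * (∏ k, (-1 : ℝ) ^ #{i | x i < q k}) *
        (Matrix.of fun i k => θ i * ch (x i) (a i) (q k) + (1 - θ i) * ch (x i) (c i) (q k)).det := by
  set σ := Tuple.sort x
  refine ⟨(-1) ^ (m * (m + 1) / 2) * ((Equiv.Perm.sign σ : ℤ) : ℝ), ?_, fun q hq => ?_⟩
  · rcases neg_one_pow_eq_or ℝ (m * (m + 1) / 2) with h | h <;>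
      rcases Int.units_eq_one_or (Equiv.Perm.sign σ) with h' | h' <;> simp [h, h']
  have h := r3_mono (x ∘ σ) (a ∘ σ) (c ∘ σ) q (θ ∘ σ)
    ((Tuple.monotone_sort x).strictMono_of_injective (hx.comp σ.injective)) hq (fun i => h0 _) (fun i => h1 _)
    (fun i => na _) (fun i => nc _) fun i j => cr _ _
  have e := Matrix.det_permute σ
    (Matrix.of fun i k => θ i * ch (x i) (a i) (q k) + (1 - θ i) * ch (x i) (c i) (q k))
  have k : ∀ k, #{i | (x ∘ σ) i < q k} = #{i | x i < q k} := fun k =>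
    card_equiv σ fun i => by simp
  simp only [k] at h
  refine le_of_le_of_eq h (((congrArg (_ * ·) e)).trans ?_)
  ring

end Pool.Agent.Lib.MP_9dc04a_an
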