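import Pool.Agent.Lib.MP_9dc04a_an.QDef

set_option autoImplicit false

namespace Pool.Agent.Lib.MP_9dc04a_an

open Finset Real

variable {N : ℕ} {v : ℤ → ℂ} {Ed : ℤ → ℤ → Prop} {H : ℤ → Prop} {ψ : ℤ → ℤ → ℝ}

lemma q2_pi (x : ℝ) : ee (-(x + π)) = -ee (-x) := by
  have : ee (-π) = -1 := by
    rw [ee, ← Complex.exp_pi_mul_I]; congr 1; push_cast; ring
  rw [neg_add, j1_ee_add, this]; ring

lemma q2_ang {r s x y : ℝ} (hr : 0 < r) (hs : 0 < s) (h : (r : ℂ) * ee (-x) = s * ee (-y))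
    (h1 : x < y + 2 * π) (h2 : y < x + 2 * π) : x = y := by
  have n := congrArg norm h
  rw [norm_mul, norm_mul, j1_ee_norm, j1_ee_norm, Complex.norm_real, Complex.norm_real,
    Real.norm_of_nonneg hr.le, Real.norm_of_nonneg hs.le, mul_one, mul_one] at n
  rw [n] at h
  have e := mul_left_cancel₀ (Complex.ofReal_ne_zero.2 hs.ne') h
  obtain ⟨k, hk⟩ := Complex.exp_eq_exp_iff_exists_int.1 e
  have hk' : x = y + k * (2 * π) := by simpa using congrArg Complex.im hk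
  have p := pi_pos
  have a1 : (k : ℝ) < 1 := by nlinarith
  have a2 : (-1 : ℝ) < k := by nlinarith
  have : k = 0 := by
    have b1 : k < 1 := by exact_mod_cast a1
    have b2 : -1 < k := by exact_mod_cast a2
    omega
  simpa [this] using hk'

lemma q2_out (T : Tr N Ed H) (G : Geo N Ed H v ψ) {b j j' : ℤ} (e : Ed b j) (e' : Ed b j')
    (h : j' ≤ j) : ψ b j ≤ ψ b j' := by
  obtain ⟨n, hn⟩ : ∃ n : ℕ, j - b ≤ n := ⟨_, Int.self_le_toNat _⟩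
  induction n generalizing j with
  | zero => have := T.lt _ _ e; omega
  | succ n ih =>
    rcases h.eq_or_lt with rfl | h
    · exact le_rfl
    have := T.lt _ _ e'
    obtain ⟨k, e1, e2⟩ := T.ap _ _ e (by omega)
    have := T.lt _ _ e1
    have := T.lt _ _ e2
    have : j' ≤ k := by
      by_contra c
      have := T.nc _ _ _ _ e' e2 (by omega) (by omega)
      omega
    exact (G.tri _ _ _ e1 e2 e).1.trans (ih e1 this (by omega))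

lemma q2_in (T : Tr N Ed H) (G : Geo N Ed H v ψ) {b i i' : ℤ} (e : Ed i b) (e' : Ed i' b)
    (h : i ≤ i') : ψ i' b ≤ ψ i b := by
  obtain ⟨n, hn⟩ : ∃ n : ℕ, b - i ≤ n := ⟨_, Int.self_le_toNat _⟩
  induction n generalizing i with
  | zero => have := T.lt _ _ e; omega
  | succ n ih =>
    rcases h.eq_or_lt with rfl | h
    · exact le_rfl
    have := T.lt _ _ e'
    obtain ⟨k, e1, e2⟩ := T.ap _ _ e (by omega)
    have := T.lt _ _ e1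
    have := T.lt _ _ e2
    have : k ≤ i' := by
      by_contra c
      have := T.nc _ _ _ _ e1 e' (by omega) (by omega)
      omega
    exact (ih e2 this (by omega)).trans (G.tri _ _ _ e1 e2 e).2.1

lemma q2_nb (T : Tr N Ed H) (j : ℤ) : Ed (j - 1) j := by simpa using T.nb (j - 1)

lemma q2_fst (T : Tr N Ed H) (G : Geo N Ed H v ψ) {b j : ℤ} (e : Ed b j) : ψ b j ≤ ψ b (b + 1) :=
  q2_out T G e (T.nb b) (T.lt _ _ e)

lemma q2_lst (T : Tr N Ed H) (G : Geo N Ed H v ψ) {b i : ℤ} (e : Ed i b) : ψ (b - 1) b ≤ ψ i b :=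
  q2_in T G e (q2_nb T b) (by have := T.lt _ _ e; omega)

lemma q2_apex (T : Tr N Ed H) {i j b : ℤ} (e : Ed i j) (h1 : i < b) (h2 : b < j) :
    ∃ a c, Ed a b ∧ Ed b c ∧ Ed a c := by
  obtain ⟨n, hn⟩ : ∃ n : ℕ, j - i ≤ n := ⟨_, Int.self_le_toNat _⟩
  induction n generalizing i j with
  | zero => omega
  | succ n ih =>
    obtain ⟨k, e1, e2⟩ := T.ap _ _ e (by omega)
    have := T.lt _ _ e1
    have := T.lt _ _ e2
    rcases lt_trichotomy b k with c | rfl | c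
    · exact ih e1 h1 c (by omega)
    · exact ⟨i, j, e1, e2, e⟩
    · exact ih e2 c h2 (by omega)

/-- the lid over `[j, j + 1]` -/
lemma q2_lid (T : Tr N Ed H) (j : ℤ) : ∃ a c, Con H a c ∧ a ≤ j ∧ j < c := by
  obtain ⟨h, hh⟩ := T.ex
  have N0 : (1 : ℤ) ≤ N := by exact_mod_cast T.N0
  have p := fun k => (per_mul T.ph k h).symm ▸ hh
  obtain ⟨a, ⟨a1, a2⟩, a3⟩ := Int.exists_greatest_of_bdd (P := fun x => x ≤ j ∧ H x)
    ⟨j, fun x hx => hx.1⟩ ⟨_, by nlinarith [le_abs_self (h - j), abs_nonneg (h - j)], p (-|h - j|)⟩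
  obtain ⟨c, ⟨c1, c2⟩, c3⟩ := Int.exists_least_of_bdd (P := fun x => j < x ∧ H x)
    ⟨j, fun x hx => hx.1.le⟩
    ⟨_, by nlinarith [neg_le_abs (h - j), abs_nonneg (h - j)], p (|h - j| + 1)⟩
  refine ⟨a, c, ⟨by omega, a2, c2, fun x x1 x2 hx => ?_⟩, a1, c1⟩
  rcases le_or_gt x j with d | d
  · have := a3 x ⟨d, hx⟩; omega
  · have := c3 x ⟨d, hx⟩; omega

lemma q2_lidu {a c a' c' j : ℤ} (h : Con H a c) (h' : Con H a' c') (a1 : a ≤ j) (c1 : j < c)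
    (a2 : a' ≤ j) (c2 : j < c') : a = a' ∧ c = c' := by
  have : a = a' := le_antisymm (h'.ge h.2.1 (by omega)) (h.ge h'.2.1 (by omega))
  subst this
  exact ⟨rfl, h.uniq h'⟩

lemma q2_two (T : Tr N Ed H) {x : ℤ} (h : H x) : ∃ a c, Con H a x ∧ Con H x c := by
  obtain ⟨a, c, k, a1, c1⟩ := q2_lid T (x - 1)
  obtain ⟨a', c', k', a2, c2⟩ := q2_lid T x
  have := k.le h (by omega)
  have := k'.ge h c2
  obtain rfl : c = x := by omega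
  obtain rfl : a' = c := by omega
  exact ⟨a, c', k, k'⟩

lemma q2_hul (T : Tr N Ed H) (G : Geo N Ed H v ψ) {i x j : ℤ} (h : H x) (e : Ed i x) (e' : Ed x j) :
    ψ i x ≤ ψ x j := by
  obtain ⟨a, c, k, k'⟩ := q2_two T h
  have a1 : a ≤ i := not_lt.1 fun d => T.hv _ _ _ e d k.1 k.2.1
  have c1 : j ≤ c := not_lt.1 fun d => T.hv _ _ _ e' k'.1 d k'.2.2.1
  exact ((q2_in T G (T.lid _ _ k) e a1).trans (G.hull _ _ _ k k')).trans
    (q2_out T G (T.lid _ _ k') e' c1)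

lemma q2_max (T : Tr N Ed H) {a x c : ℤ} (e1 : Ed a x) (e2 : Ed x c) (e : Ed a c) :
    (∀ i, Ed i x → a ≤ i) ∧ ∀ j, Ed x j → j ≤ c :=
  ⟨fun _ f => not_lt.1 fun d => (T.nc _ _ _ _ f e d (T.lt _ _ e1)).not_gt (T.lt _ _ e2),
    fun _ f => T.nc _ _ _ _ e f (T.lt _ _ e1) (T.lt _ _ e2)⟩

lemma q2_gen (T : Tr N Ed H) (G : Geo N Ed H v ψ) {i x j : ℤ} (e : Ed i x) (e' : Ed x j) :
    ψ i x ≤ ψ x j + π := by
  by_cases h : H x
  · linarith [q2_hul T G h e e', pi_pos]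
  obtain ⟨a, c, k, a1, c1⟩ := q2_lid T x
  obtain ⟨a, c, e1, e2, e3⟩ := q2_apex T (T.lid _ _ k)
    (a1.lt_of_ne fun d => h (d ▸ k.2.1)) c1
  have m := q2_max T e1 e2 e3
  linarith [q2_in T G e1 e (m.1 _ e), q2_out T G e2 e' (m.2 _ e'), (G.tri _ _ _ e1 e2 e3).2.2]

theorem Geo.lo (T : Tr N Ed H) (G : Geo N Ed H v ψ) (j : ℤ) : ψ (j - 1) j - π ≤ ψ j (j + 1) := by
  linarith [q2_gen T G (q2_nb T j) (T.nb j)]

theorem Geo.hlo (T : Tr N Ed H) (G : Geo N Ed H v ψ) {j : ℤ} (h : H j) :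
    ψ (j - 1) j ≤ ψ j (j + 1) := q2_hul T G h (q2_nb T j) (T.nb j)

/-- directions of positively proportional vectors -/
lemma q2_par (G : Geo N Ed H v ψ) {i j k l : ℤ} (e : Ed i j) (f : Ed k l) {s : ℝ} (hs : 0 < s)
    (h : v j - v i = s * (v l - v k)) (h1 : ψ i j ≤ ψ k l + π) (h2 : ψ k l ≤ ψ i j + π) :
    ψ i j = ψ k l := by
  obtain ⟨r, hr, e1⟩ := G.dir _ _ e
  obtain ⟨r', hr', e2⟩ := G.dir _ _ f
  refine q2_ang hr (mul_pos hs hr') ?_ (by linarith [pi_pos]) (by linarith [pi_pos])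
  rw [← e1, h, e2]; push_cast; ring

lemma q2_opp (G : Geo N Ed H v ψ) {i j k l : ℤ} (e : Ed i j) (f : Ed k l) {s : ℝ} (hs : 0 < s)
    (h : v j - v i = s * (v k - v l)) (h1 : ψ i j ≤ ψ k l + π) (h2 : ψ k l ≤ ψ i j) :
    ψ i j = ψ k l + π := by
  obtain ⟨r, hr, e1⟩ := G.dir _ _ e
  obtain ⟨r', hr', e2⟩ := G.dir _ _ f
  refine q2_ang hr (mul_pos hs hr') ?_ (by linarith [pi_pos]) (by linarith [pi_pos])
  rw [← e1, h, q2_pi, ← neg_sub, e2]; push_cast; ring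

variable {x a c : ℤ} {θ : ℝ}

lemma q2_f1 (G : Geo N Ed H v ψ) (e1 : Ed a x) (e2 : Ed x c) (h1 : ψ a x ≤ ψ x c + π)
    (h2 : ψ x c ≤ ψ a x + π) (f : Flat v x a c θ) : ψ a x = ψ x c := by
  obtain ⟨f0, f1, f2⟩ := f
  refine q2_par G e1 e2 (s := (1 - θ) / θ) (div_pos (by linarith) f0) ?_ h1 h2
  have : (θ : ℂ) ≠ 0 := Complex.ofReal_ne_zero.2 f0.ne'
  rw [f2]; push_cast; field_simp; ring

lemma q2_f2 (G : Geo N Ed H v ψ) (e1 : Ed x a) (e2 : Ed a c) (e3 : Ed x c) (f : Flat v x a c θ) :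
    ψ x a = ψ x c + π := by
  obtain ⟨f0, f1, f2⟩ := f
  obtain ⟨t1, t2, t3⟩ := G.tri _ _ _ e1 e2 e3
  refine q2_opp G e1 e3 (s := (1 - θ) / θ) (div_pos (by linarith) f0) ?_ (by linarith) t1
  have : (θ : ℂ) ≠ 0 := Complex.ofReal_ne_zero.2 f0.ne'
  rw [f2]; push_cast; field_simp; ring

lemma q2_f3 (G : Geo N Ed H v ψ) (e1 : Ed a c) (e2 : Ed c x) (e3 : Ed a x) (f : Flat v x a c θ) :
    ψ a x = ψ c x + π := by
  obtain ⟨f0, f1, f2⟩ := f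
  obtain ⟨t1, t2, t3⟩ := G.tri _ _ _ e1 e2 e3
  refine q2_opp G e3 e2 (s := (1 - θ) / θ) (div_pos (by linarith) f0) ?_ (by linarith) t2
  have : (θ : ℂ) ≠ 0 := Complex.ofReal_ne_zero.2 f0.ne'
  rw [f2]; push_cast; field_simp; ring

lemma q2_f1' (G : Geo N Ed H v ψ) (e1 : Ed a x) (e2 : Ed x c) (e3 : Ed a c) (f : Flat v x a c θ) :
    ψ a x = ψ x c := by
  obtain ⟨t1, t2, t3⟩ := G.tri _ _ _ e1 e2 e3
  exact q2_f1 G e1 e2 t3 (by linarith [pi_pos]) f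

theorem Geo.flat (T : Tr N Ed H) (G : Geo N Ed H v ψ) {x a c : ℤ} {θ : ℝ} (F : Face Ed H x a c)
    (f : Flat v x a c θ) : ψ (x - 1) x ≤ ψ x (x + 1) := by
  rcases F with ⟨e1, e2, e3⟩ | ⟨e1, e2, e3⟩ | ⟨e1, e2, e3⟩ | ⟨k, -⟩
  · linarith [q2_f1' G e1 e2 e3 f, q2_lst T G e1, q2_fst T G e2]
  · linarith [q2_f2 G e1 e2 e3 f, q2_fst T G e1, q2_gen T G (q2_nb T x) e3]
  · linarith [q2_f3 G e1 e2 e3 f, q2_lst T G e2, q2_gen T G e3 (T.nb x)]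
  · exact G.hlo T k.2.2.1

lemma q2_22 (T : Tr N Ed H) (G : Geo N Ed H v ψ) (up : ψ x (x + 1) < ψ (x - 1) x + π) {a' c' : ℤ}
    (e1 : Ed x a) (e3 : Ed x c) (g1 : Ed x a') (g2 : Ed a' c') (g3 : Ed x c')
    (p : ψ x a = ψ x c + π) (p' : ψ x a' = ψ x c' + π) : c' ≤ c := by
  by_contra d
  have : c ≤ a' := not_lt.1 fun b => d (T.nc _ _ _ _ e3 g2 (T.lt _ _ g1) b)
  linarith [q2_out T G g1 e3 this, q2_fst T G e1, q2_gen T G (q2_nb T x) g3]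

lemma q2_33 (T : Tr N Ed H) (G : Geo N Ed H v ψ) (up : ψ x (x + 1) < ψ (x - 1) x + π) {a' c' : ℤ}
    (e2 : Ed c x) (e3 : Ed a x) (g1 : Ed a' c') (g2 : Ed c' x) (g3 : Ed a' x)
    (p : ψ a x = ψ c x + π) (p' : ψ a' x = ψ c' x + π) : a ≤ a' := by
  by_contra d
  have : c' ≤ a := not_lt.1 fun b => (T.nc _ _ _ _ g1 e3 (not_le.1 d) b).not_gt (T.lt _ _ g2)
  linarith [q2_in T G g2 e3 this, q2_lst T G e2, q2_gen T G g3 (T.nb x)]

theorem Geo.uniq (T : Tr N Ed H) (G : Geo N Ed H v ψ) (up : ∀ j, ψ j (j + 1) < ψ (j - 1) j + π)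
    {x a c a' c' : ℤ} {θ θ' : ℝ} (F : Face Ed H x a c) (f : Flat v x a c θ) (F' : Face Ed H x a' c')
    (f' : Flat v x a' c' θ') : a = a' ∧ c = c' := by
  have u := up x
  have l := q2_nb T x
  have n := T.nb x
  rcases F with ⟨e1, e2, e3⟩ | ⟨e1, e2, e3⟩ | ⟨e1, e2, e3⟩ | ⟨k, k'⟩ <;>
    rcases F' with ⟨g1, g2, g3⟩ | ⟨g1, g2, g3⟩ | ⟨g1, g2, g3⟩ | ⟨m, m'⟩
  · exact ⟨le_antisymm ((q2_max T e1 e2 e3).1 _ g1) ((q2_max T g1 g2 g3).1 _ e1),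
      le_antisymm ((q2_max T g1 g2 g3).2 _ e2) ((q2_max T e1 e2 e3).2 _ g2)⟩
  · linarith [q2_f1' G e1 e2 e3 f, q2_f2 G g1 g2 g3 f', q2_fst T G g1, q2_lst T G e1,
      q2_out T G e2 g3 ((q2_max T e1 e2 e3).2 _ g3)]
  · linarith [q2_f1' G e1 e2 e3 f, q2_f3 G g1 g2 g3 f', q2_fst T G e2, q2_lst T G g2,
      q2_in T G e1 g3 ((q2_max T e1 e2 e3).1 _ g3)]
  · exact (T.hv _ _ _ e3 (T.lt _ _ e1) (T.lt _ _ e2) m.2.2.1).elim
  · linarith [q2_f1' G g1 g2 g3 f', q2_f2 G e1 e2 e3 f, q2_fst T G e1, q2_lst T G g1,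
      q2_out T G g2 e3 ((q2_max T g1 g2 g3).2 _ e3)]
  · have p := q2_f2 G e1 e2 e3 f
    have p' := q2_f2 G g1 g2 g3 f'
    obtain rfl := le_antisymm (q2_22 T G u e1 e3 g1 g2 g3 p p') (q2_22 T G u g1 g3 e1 e2 e3 p' p)
    exact ⟨le_antisymm
      (not_lt.1 fun d => (T.nc _ _ _ _ e1 g2 (T.lt _ _ g1) d).not_gt (T.lt _ _ e2))
      (not_lt.1 fun d => (T.nc _ _ _ _ g1 e2 (T.lt _ _ e1) d).not_gt (T.lt _ _ g2)), rfl⟩
  · linarith [q2_f2 G e1 e2 e3 f, q2_f3 G g1 g2 g3 f', q2_fst T G e1, q2_lst T G g2,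
      q2_gen T G g3 e3]
  · linarith [q2_f2 G e1 e2 e3 f, q2_fst T G e1, q2_hul T G m.2.2.1 l e3]
  · linarith [q2_f1' G g1 g2 g3 f', q2_f3 G e1 e2 e3 f, q2_fst T G g2, q2_lst T G e2,
      q2_in T G g1 e3 ((q2_max T g1 g2 g3).1 _ e3)]
  · linarith [q2_f2 G g1 g2 g3 f', q2_f3 G e1 e2 e3 f, q2_fst T G g1, q2_lst T G e2,
      q2_gen T G e3 g3]
  · have p := q2_f3 G e1 e2 e3 f
    have p' := q2_f3 G g1 g2 g3 f'
    obtain rfl := le_antisymm (q2_33 T G u e2 e3 g1 g2 g3 p p') (q2_33 T G u g2 g3 e1 e2 e3 p' p)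
    exact ⟨rfl, le_antisymm
      (not_lt.1 fun d => (T.nc _ _ _ _ e1 g2 (T.lt _ _ g1) d).not_gt (T.lt _ _ e2))
      (not_lt.1 fun d => (T.nc _ _ _ _ g1 e2 (T.lt _ _ e1) d).not_gt (T.lt _ _ g2))⟩
  · linarith [q2_f3 G e1 e2 e3 f, q2_lst T G e2, q2_hul T G m.2.2.1 e3 n]
  · exact (T.hv _ _ _ g3 (T.lt _ _ g1) (T.lt _ _ g2) k.2.2.1).elim
  · linarith [q2_f2 G g1 g2 g3 f', q2_fst T G g1, q2_hul T G k.2.2.1 l g3]
  · linarith [q2_f3 G g1 g2 g3 f', q2_lst T G g2, q2_hul T G k.2.2.1 g3 n]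
  · exact ⟨k.uniq' m, k'.uniq m'⟩

lemma q2_jump {Φ : ℤ → ℝ} (lo : ∀ j, Φ (j - 1) ≤ Φ j) (up : ∀ j, Φ j < Φ (j - 1) + π)
    (pp : ∀ j, Φ (j + N) = Φ j + 2 * π) : ∃ h₁ h₂ h₃ : ℤ, h₁ < h₂ ∧ h₂ < h₃ ∧ h₃ < h₁ + N ∧
      ∀ h, h = h₁ ∨ h = h₂ ∨ h = h₃ → Φ (h - 1) < Φ h := by
  have mo : Monotone Φ := monotone_int_of_le_succ fun j => by simpa using lo (j + 1)
  have nx : ∀ j, ∃ s, j < s ∧ Φ (s - 1) ≤ Φ j ∧ Φ j < Φ s := fun j => by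
    obtain ⟨s, s1, s2⟩ := Int.exists_least_of_bdd (P := fun x => Φ j < Φ x)
      ⟨j, fun x hx => (mo.reflect_lt hx).le⟩ ⟨j + N, by rw [pp]; linarith [pi_pos]⟩
    exact ⟨s, mo.reflect_lt s1, not_lt.1 fun d => by have := s2 _ d; omega, s1⟩
  obtain ⟨h₁, -, a2, a3⟩ := nx 0
  obtain ⟨h₂, b1, b2, b3⟩ := nx h₁
  obtain ⟨h₃, c1, c2, c3⟩ := nx h₂
  refine ⟨h₁, h₂, h₃, b1, c1, ?_, ?_⟩
  · have : h₃ - 1 < h₁ - 1 + N := mo.reflect_lt (by rw [pp]; linarith [up h₁, up h₂])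
    omega
  · rintro h (rfl | rfl | rfl) <;> linarith

theorem Geo.three (T : Tr N Ed H) (G : Geo N Ed H v ψ) (up : ∀ j, ψ j (j + 1) < ψ (j - 1) j + π) :
    ∃ h₁ h₂ h₃ : ℤ, h₁ < h₂ ∧ h₂ < h₃ ∧ h₃ < h₁ + N ∧ ∀ h, h = h₁ ∨ h = h₂ ∨ h = h₃ →
      H h ∧ ∀ a c θ, Face Ed H h a c → ¬Flat v h a c θ := by
  choose a c k a1 c1 using q2_lid T
  have nh : ∀ j, ¬H j → ψ (a (j - 1)) (c (j - 1)) = ψ (a j) (c j) := fun j h => by
    have h1 : a j ≠ j := fun d => h (d ▸ (k j).2.1)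
    have := a1 j
    have := c1 j
    obtain ⟨d1, d2⟩ := q2_lidu (k (j - 1)) (k j) (a1 _) (c1 _) (by omega) (by omega)
    rw [d1, d2]
  have hh : ∀ j, H j → c (j - 1) = j ∧ a j = j := fun j h => by
    have := a1 (j - 1)
    have := c1 (j - 1)
    have := a1 j
    have := (k (j - 1)).le h (by omega)
    have := (k j).ge h (c1 j)
    omega
  have hc : ∀ j, H j → Con H (a (j - 1)) j ∧ Con H j (c j) ∧
      ψ (a (j - 1)) (c (j - 1)) = ψ (a (j - 1)) j ∧ ψ (a j) (c j) = ψ j (c j) := fun j h => by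
    have p := k (j - 1)
    have q := k j
    rw [(hh j h).1] at p
    rw [(hh j h).2] at q
    exact ⟨p, q, by rw [(hh j h).1], by rw [(hh j h).2]⟩
  have lt : ∀ j, H j → ψ j (c j) < ψ (a (j - 1)) j + π := fun j h => by
    linarith [up j, q2_fst T G (T.lid _ _ (hc j h).2.1), q2_lst T G (T.lid _ _ (hc j h).1)]
  obtain ⟨h₁, h₂, h₃, o1, o2, o3, J⟩ := q2_jump (N := N) (Φ := fun j => ψ (a j) (c j))
    (fun j => by
      by_cases h : H j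
      · obtain ⟨p, q, r, s⟩ := hc j h
        linarith [G.hull _ _ _ p q]
      · exact (nh j h).le)
    (fun j => by
      by_cases h : H j
      · obtain ⟨p, q, r, s⟩ := hc j h
        linarith [lt j h]
      · linarith [nh j h, pi_pos])
    (fun j => by
      have s : Con H (a j + N) (c j + N) := ⟨by linarith [(k j).1],
        (T.ph _).mpr (k j).2.1, (T.ph _).mpr (k j).2.2.1, fun x x1 x2 hx => (k j).2.2.2 (x - N) (by omega) (by omega)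
          (by rw [← T.ph, sub_add_cancel]; exact hx)⟩
      obtain ⟨d1, d2⟩ := q2_lidu (k (j + N)) s (a1 _) (c1 _) (by linarith [a1 j]) (by linarith [c1 j])
      rw [d1, d2, G.pp _ _ (T.lid _ _ (k j))])
  refine ⟨h₁, h₂, h₃, o1, o2, o3, fun h hh' => ?_⟩
  have j : ψ (a (h - 1)) (c (h - 1)) < ψ (a h) (c h) := J h hh'
  have hH : H h := by_contra fun d => j.ne (nh h d)
  obtain ⟨p, q, r, s⟩ := hc h hH
  refine ⟨hH, fun a' c' θ F f => ?_⟩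
  rcases F with ⟨e1, e2, e3⟩ | ⟨e1, e2, e3⟩ | ⟨e1, e2, e3⟩ | ⟨m, m'⟩
  · exact T.hv _ _ _ e3 (T.lt _ _ e1) (T.lt _ _ e2) hH
  · linarith [up h, q2_f2 G e1 e2 e3 f, q2_fst T G e1, q2_hul T G hH (q2_nb T h) e3]
  · linarith [up h, q2_f3 G e1 e2 e3 f, q2_lst T G e2, q2_hul T G hH e3 (T.nb h)]
  · obtain rfl := m.uniq' p
    obtain rfl := m'.uniq q
    linarith [q2_f1 G (T.lid _ _ p) (T.lid _ _ q) (by linarith [pi_pos]) (lt h hH).le f]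

lemma q2_ray {i j k : ℤ} {r s : ℝ} {e : ℂ} (hr : 0 < r) (hs : 0 < s) (h1 : v j - v i = r * e)
    (h2 : v k - v i = s * e) (ne : v j ≠ v k) :
    (∃ θ, Flat v j i k θ ∧ Flat v j k i (1 - θ)) ∨ ∃ θ, Flat v k i j θ ∧ Flat v k j i (1 - θ) := by
  wlog h : r < s generalizing j k r s
  · refine (this hs hr h2 h1 ne.symm ((not_lt.1 h).lt_of_ne fun d => ne ?_)).symm
    rw [d, ← h1] at h2
    linear_combination -h2
  have q0 : 0 < r / s := div_pos hr hs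
  have q1 : r / s < 1 := (div_lt_one hs).2 h
  have s0 : (s : ℂ) ≠ 0 := Complex.ofReal_ne_zero.2 hs.ne'
  have e1 : v j = ((1 - r / s : ℝ) : ℂ) * v i + (1 - ((1 - r / s : ℝ) : ℂ)) * v k := by
    rw [eq_add_of_sub_eq h1, eq_add_of_sub_eq h2]; push_cast; field_simp; ring
  exact Or.inl ⟨1 - r / s, ⟨by linarith, by linarith, e1⟩, by linarith, by linarith,
    by rw [e1]; push_cast; ring⟩

lemma q2_ne (G : Geo N Ed H v ψ) {i j : ℤ} (e : Ed i j) : v j ≠ v i := fun d => by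
  obtain ⟨r, hr, h⟩ := G.dir _ _ e
  rw [d, sub_self] at h
  exact mul_ne_zero (Complex.ofReal_ne_zero.2 hr.ne') (j1_ee_ne _) h.symm

theorem Geo.tight (G : Geo N Ed H v ψ) {i k j : ℤ} (e1 : Ed i k) (e2 : Ed k j) (e3 : Ed i j)
    (h : ψ i j = ψ i k ∨ ψ k j = ψ i j ∨ ψ i k = ψ k j + π) :
    ∃ θ, Flat v k i j θ ∨ Flat v i k j θ ∨ Flat v j i k θ := by
  obtain ⟨r1, p1, d1⟩ := G.dir _ _ e1
  obtain ⟨r2, p2, d2⟩ := G.dir _ _ e2
  obtain ⟨r3, p3, d3⟩ := G.dir _ _ e3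
  rcases h with h | h | h
  · rw [h] at d3
    rcases q2_ray p1 p3 d1 d3 (q2_ne G e2).symm with ⟨θ, f, -⟩ | ⟨θ, f, -⟩
    · exact ⟨_, Or.inl f⟩
    · exact ⟨_, Or.inr (Or.inr f)⟩
  · rw [h] at d2
    rcases q2_ray (e := -ee (-ψ i j)) (i := j) (j := k) (k := i) p2 p3 (by linear_combination -d2)
      (by linear_combination -d3) (q2_ne G e1) with ⟨θ, -, f⟩ | ⟨θ, -, f⟩
    · exact ⟨_, Or.inl f⟩
    · exact ⟨_, Or.inr (Or.inl f)⟩
  · rw [h, q2_pi] at d1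
    rcases q2_ray (i := k) (j := i) (k := j) p1 p2 (by linear_combination -d1) d2
      (q2_ne G e3).symm with ⟨θ, f, -⟩ | ⟨θ, -, f⟩
    · exact ⟨_, Or.inr (Or.inl f)⟩
    · exact ⟨_, Or.inr (Or.inr f)⟩

theorem Geo.htight (T : Tr N Ed H) (G : Geo N Ed H v ψ) {i k j : ℤ} (c1 : Con H i k)
    (c2 : Con H k j) (h : ψ i k = ψ k j) : ∃ θ, Flat v k i j θ := by
  obtain ⟨r1, p1, d1⟩ := G.dir _ _ (T.lid _ _ c1)
  obtain ⟨r2, p2, d2⟩ := G.dir _ _ (T.lid _ _ c2)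
  have p : 0 < r1 + r2 := by linarith
  have s0 : (r1 : ℂ) + r2 ≠ 0 := by exact_mod_cast p.ne'
  refine ⟨r2 / (r1 + r2), div_pos p2 p, (div_lt_one p).2 (by linarith), ?_⟩
  rw [← h] at d2
  rw [eq_add_of_sub_eq d2, eq_add_of_sub_eq d1]; push_cast; field_simp; ring

end Pool.Agent.Lib.MP_9dc04a_an
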