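import Pool.Agent.Lib.MP_9dc04a_an.QAng
import Pool.Agent.Lib.MP_9dc04a_an.QStar

set_option autoImplicit false

namespace Pool.Agent.Lib.MP_9dc04a_an

open Finset Real Polynomial

variable {N : ℕ} {t : ℤ → ℝ} {v w : ℤ → ℂ} {Ed : ℤ → ℤ → Prop} {H : ℤ → Prop} {ψ : ℤ → ℤ → ℝ}
  {d : Cd}

lemma q3_add {α : Type} [AddCommGroup α] {f : ℤ → α} {c : α} (h : ∀ j, f (j + N) = f j + c)
    (k j : ℤ) : f (j + N * k) = f j + k • c := by
  induction k using Int.induction_on with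
  | zero => simp
  | succ k ih => rw [mul_add, mul_one, ← add_assoc, h, ih, add_smul, one_smul, add_assoc]
  | pred k ih =>
    have := h (j + N * (-k - 1))
    rw [show j + N * (-(k:ℤ) - 1) + N = j + N * (-k) by ring, ih] at this
    rw [sub_smul, one_smul, ← add_sub_assoc, this, add_sub_cancel_right]

lemma Tr.sh (T : Tr N Ed H) (k i j : ℤ) : Ed (i + N * k) (j + N * k) = Ed i j := by
  have := per_mul (N := N) (f := fun x => Ed x (x + (j - i)))
    (fun x => by rw [show x + N + (j - i) = x + (j - i) + N by ring, T.pe]) k i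
  simpa [show i + N * k + (j - i) = j + N * k by ring] using this

lemma Tr.csh (T : Tr N Ed H) {a b : ℤ} (h : Con H a b) (k : ℤ) : Con H (a + N * k) (b + N * k) := by
  refine ⟨by linarith [h.1], by rw [per_mul T.ph]; exact h.2.1, by rw [per_mul T.ph]; exact h.2.2.1,
    fun x h1 h2 hx => h.2.2.2 (x + N * (-k)) (by linarith) (by linarith) ?_⟩
  rwa [per_mul T.ph]

lemma Tr.fsh (T : Tr N Ed H) {x a c : ℤ} (F : Face Ed H x a c) (k : ℤ) :
    Face Ed H (x + N * k) (a + N * k) (c + N * k) := by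
  unfold Face
  simp only [T.sh]
  exact F.imp_right (Or.imp_right (Or.imp_right fun h => ⟨T.csh h.1 k, T.csh h.2 k⟩))

lemma Tr.len (T : Tr N Ed H) {i j : ℤ} (e : Ed i j) : j ≤ i + N := by
  obtain ⟨h, hh⟩ := T.ex
  obtain ⟨k, k1, k2⟩ := ex_win T.N0 h (i + 1)
  by_contra c
  exact T.hv i j (h + N * k) e (by linarith) (by linarith) (by rwa [per_mul T.ph])

lemma Geo.sh (T : Tr N Ed H) (G : Geo N Ed H v ψ) {i j : ℤ} (e : Ed i j) (k : ℤ) :
    ψ (i + N * k) (j + N * k) = ψ i j + 2 * π * k := by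
  induction k using Int.induction_on with
  | zero => simp
  | succ k ih =>
    rw [mul_add, mul_one, ← add_assoc, ← add_assoc, G.pp _ _ (by rwa [T.sh]), ih]
    push_cast; ring
  | pred k ih =>
    have := G.pp (i + N * (-k - 1)) (j + N * (-k - 1)) (by rwa [T.sh])
    rw [show i + N * (-(k:ℤ) - 1) + N = i + N * (-k) by ring,
      show j + N * (-(k:ℤ) - 1) + N = j + N * (-k) by ring, ih] at this
    push_cast at this ⊢
    linarith

lemma q3_Dv (s : ℂ) (j : ℤ) : Dv (fun j => v j + s * w j) j = Dv v j + s * Dv w j := by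
  simp only [Dv]; ring

lemma q3_Vk (n : ℤ) (s : ℂ) : Vk n N t (fun j => v j + s * w j) = Vk n N t v + s * Vk n N t w := by
  simp only [Vk, q3_Dv, mul_sum, ← sum_add_distrib]
  exact sum_congr rfl fun j _ => by ring

lemma q3_Vp (s : ℂ) : Vp N t (fun j => v j + s * w j) = Vp N t v + C s * Vp N t w := by
  simp only [Vp, q3_Dv, mul_sum, ← sum_add_distrib]
  exact sum_congr rfl fun j _ => by simp only [C_mul, C_add]; ring

lemma Sat.add (A : Sat N t d v) (B : Sat N t d w) (s : ℂ) : Sat N t d fun j => v j + s * w j :=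
  ⟨fun j => by rw [A.pv, B.pv], by rw [q3_Vk, A.g0, B.g0]; simp,
    fun j h => by rw [q3_Vp, eval_add, eval_mul, A.zr j h, B.zr j h]; simp,
    fun j h => by rw [A.fl j h, B.fl j h]; ring⟩

structure St (N : ℕ) (t : ℤ → ℝ) (Ed : ℤ → ℤ → Prop) (H : ℤ → Prop) (d : Cd) (v : ℤ → ℂ)
    (ψ : ℤ → ℤ → ℝ) : Prop where
  tr : Tr N Ed H
  cnd : Cnd N t Ed H d
  sat : Sat N t d v
  sp : Sp N t v
  geo : Geo N Ed H v ψ

open Classical in
noncomputable def cnt (N : ℕ) (d : Cd) : ℕ := #{j ∈ Ico (0:ℤ) N | d.R j ∨ d.C j}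

lemma St.ang (S : St N t Ed H d v ψ) (j : ℤ) :
    ψ j (j + 1) < ψ (j - 1) j + π ∧
    (∀ τ, t j < τ → τ < t (j + 1) → (Vp N t v).eval (ee (-τ)) = 0 → ψ j (j + 1) < ψ (j - 1) j) ∧
    ∀ τ τ', t j < τ → τ < t (j + 1) → t j < τ' → τ' < t (j + 1) →
      ¬(X - C (ee (-τ))) * (X - C (ee (-τ'))) ∣ Vp N t v := by
  have nb : ∀ j, Ed (j - 1) j := fun j => by simpa using S.tr.nb (j - 1)
  have := S.sp.angle (φ := fun j => ψ (j - 1) j) (fun j => S.geo.dir _ _ (nb j))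
    (fun j => by rw [show j + N - 1 = j - 1 + N by ring, S.geo.pp _ _ (nb j)])
    (fun j => by simpa using S.geo.lo S.tr j) j
  simpa using this

lemma St.flatC (S : St N t Ed H d v ψ) {j : ℤ} (h : d.C j) : Flat v j (d.a j) (d.c j) (d.θ j) :=
  ⟨(S.cnd.fc j h).2.1, (S.cnd.fc j h).2.2, S.sat.fl j h⟩

lemma cnt_lt (hN : 0 < N) {d d' : Cd} {b : ℤ} (pR : ∀ j, d.R (j + N) = d.R j)
    (pC : ∀ j, d.C (j + N) = d.C j) (h1 : ¬d.R b) (h2 : ¬d.C b)
    (h : ∀ j, d.R j ∨ d.C j ∨ (N:ℤ) ∣ j - b → d'.R j ∨ d'.C j) : cnt N d < cnt N d' := by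
  classical
  unfold cnt
  refine card_lt_card ⟨fun j hj => ?_, fun c => ?_⟩
  · rw [mem_filter] at hj ⊢
    exact ⟨hj.1, h j (by tauto)⟩
  · obtain ⟨k, k1, k2⟩ := ex_win hN b 0
    have := c (mem_filter.2 ⟨mem_Ico.2 ⟨k1, by simpa using k2⟩,
      h (b + N * k) (Or.inr (Or.inr ⟨k, by ring⟩))⟩)
    rw [mem_filter, per_mul pR, per_mul pC] at this
    tauto

lemma St.addR (S : St N t Ed H d v ψ) {b : ℤ} {τ : ℝ} (h1 : t b < τ) (h2 : τ < t (b + 1))
    (z : (Vp N t v).eval (ee (-τ)) = 0) (nR : ¬d.R b) :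
    ∃ d', St N t Ed H d' v ψ ∧ cnt N d < cnt N d' := by
  classical
  have A := S.cnd
  have nC : ¬d.C b := fun c => absurd (S.geo.flat S.tr (A.fc b c).1 (S.flatC c))
    (not_le.2 ((S.ang b).2.1 τ h1 h2 z))
  have N0 : (N:ℤ) ≠ 0 := by have := S.tr.N0; omega
  refine ⟨⟨fun j => d.R j ∨ (N:ℤ) ∣ j - b, d.C,
    fun j => if (N:ℤ) ∣ j - b then τ + 2 * π * ((j - b) / N : ℤ) else d.τ j, d.a, d.c, d.θ⟩,
    ⟨S.tr, ⟨fun j => by simp only [A.pR, dvd_sh'], A.pC, fun j => ?_, A.pa, A.pc, A.ph, fun j h c => ?_,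
      fun j h => ?_, A.fc⟩, ⟨S.sat.pv, S.sat.g0, fun j h => ?_, S.sat.fl⟩, S.sp, S.geo⟩,
    cnt_lt S.tr.N0 A.pR A.pC nR nC fun j h => by tauto⟩
  · simp only [dvd_sh']
    split_ifs with c
    · rw [show j + N - b = j - b + 1 * N by ring, Int.add_mul_ediv_right _ _ N0]
      push_cast; ring
    · exact A.pt j
  · rcases h with h | h
    · exact A.dj j h c
    · exact nC (per_dvd A.pC h ▸ c)
  · by_cases c : (N:ℤ) ∣ j - b
    · simp only [if_pos c]
      obtain ⟨k, hk⟩ := c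
      rw [hk, Int.mul_ediv_cancel_left _ N0, show j = b + N * k by linarith,
        show b + N * k + 1 = b + 1 + N * k by ring, S.sp.pol.mul, S.sp.pol.mul]
      constructor <;> linarith
    · simp only [if_neg c]
      exact A.ar j (h.resolve_right c)
  · by_cases c : (N:ℤ) ∣ j - b
    · simp only [if_pos c]
      rw [show -(τ + 2 * π * ((j - b) / N : ℤ)) = -τ + 2 * π * (-((j - b) / N) : ℤ) by push_cast; ring,
        j1_ee_per, z]
    · simp only [if_neg c]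
      exact S.sat.zr j (h.resolve_right c)

lemma St.addC (S : St N t Ed H d v ψ) {b a c : ℤ} {θ : ℝ} (F : Face Ed H b a c) (f : Flat v b a c θ)
    (n : ¬(d.C b ∧ d.a b = a ∧ d.c b = c)) : ∃ d', St N t Ed H d' v ψ ∧ cnt N d < cnt N d' := by
  classical
  have A := S.cnd
  have nC : ¬d.C b := fun h => n ⟨h, S.geo.uniq S.tr (fun j => (S.ang j).1) (A.fc b h).1
    (S.flatC h) F f⟩
  have nR : ¬d.R b := fun h => absurd (S.geo.flat S.tr F f)
    (not_le.2 ((S.ang b).2.1 _ (A.ar b h).1 (A.ar b h).2 (S.sat.zr b h)))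
  refine ⟨⟨d.R, fun j => d.C j ∨ (N:ℤ) ∣ j - b, d.τ,
    fun j => if (N:ℤ) ∣ j - b then a + (j - b) else d.a j,
    fun j => if (N:ℤ) ∣ j - b then c + (j - b) else d.c j,
    fun j => if (N:ℤ) ∣ j - b then θ else d.θ j⟩,
    ⟨S.tr, ⟨A.pR, fun j => by simp only [A.pC, dvd_sh'], A.pt, fun j => ?_, fun j => ?_, fun j => ?_,
      fun j h c => ?_, A.ar, fun j h => ?_⟩, ⟨S.sat.pv, S.sat.g0, S.sat.zr, fun j h => ?_⟩,
      S.sp, S.geo⟩, cnt_lt S.tr.N0 A.pR A.pC nR nC fun j h => by tauto⟩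
  · simp only [dvd_sh']
    split_ifs with c
    · ring
    · exact A.pa j
  · simp only [dvd_sh']
    split_ifs with c
    · ring
    · exact A.pc j
  · simp only [dvd_sh', A.ph]
  · rcases c with c | c
    · exact A.dj j h c
    · exact nR (per_dvd A.pR c ▸ h)
  · by_cases e : (N:ℤ) ∣ j - b
    · simp only [if_pos e]
      obtain ⟨k, hk⟩ := e
      rw [hk, show j = b + N * k by linarith]
      exact ⟨S.tr.fsh F k, f.1, f.2.1⟩
    · simp only [if_neg e]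
      exact A.fc j (h.resolve_right e)
  · by_cases e : (N:ℤ) ∣ j - b
    · simp only [if_pos e]
      obtain ⟨k, hk⟩ := e
      rw [hk, show j = b + N * k by linarith, per_mul S.sat.pv, per_mul S.sat.pv, per_mul S.sat.pv]
      exact f.2.2
    · simp only [if_neg e]
      exact S.sat.fl j (h.resolve_right e)

open Classical in
noncomputable def Tp (N : ℕ) (d : Cd) : ℂ[X] := ∏ j ∈ Ico (0:ℤ) N with d.R j, (X - C (ee (-d.τ j)))

lemma Sat.dvd (T : Pol N t) (A : Cnd N t Ed H d) (B : Sat N t d w) : Tp N d ∣ Vp N t w := by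
  classical
  refine Finset.prod_dvd_of_coprime (fun i hi j hj ne => ?_) fun j hj =>
    dvd_iff_isRoot.2 (B.zr j (mem_filter.1 hj).2)
  have key : ∀ i j, i ∈ {j ∈ Ico (0:ℤ) N | d.R j} → j ∈ {j ∈ Ico (0:ℤ) N | d.R j} → i < j →
      ee (-d.τ i) ≠ ee (-d.τ j) := fun i j hi hj lt e => by
    rw [mem_filter, mem_Ico] at hi hj
    have a1 := A.ar i hi.2
    have a2 := A.ar j hj.2
    have a3 := T.tm.monotone (show i + 1 ≤ j by omega)
    have a4 := T.tm.monotone (show j + 1 ≤ i + N by omega)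
    rw [T.tp] at a4
    have := j1_inj (x := d.τ i) (y := d.τ j) (by linarith [pi_pos]) (by linarith) e
    linarith
  refine isCoprime_X_sub_C_of_isUnit_sub (sub_ne_zero.2 ?_).isUnit
  rcases lt_or_gt_of_ne ne with l | l
  · exact key i j hi hj l
  · exact (key j i hj hi l).symm

lemma St.zero (S : St N t Ed H d v ψ) {E : ℂ[X]} (hE : Vp N t v = Tp N d * E) {z : ℂ} (hz : ‖z‖ ≤ 1)
    (h0 : E.eval z = 0) : ∃ d', St N t Ed H d' v ψ ∧ cnt N d < cnt N d' := by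
  classical
  have T := S.sp.pol
  have z0 : (Vp N t v).eval z = 0 := by rw [hE, eval_mul, h0, mul_zero]
  have z1 : ‖z‖ = 1 := hz.antisymm (not_lt.1 fun l => S.sp.nz z l z0)
  obtain ⟨τ, t1, t2, rfl⟩ : ∃ τ : ℝ, t 0 ≤ τ ∧ τ < t N ∧ z = ee (-τ) := by
    have e : z = ee (-z.arg) := by
      have := Complex.norm_mul_exp_arg_mul_I z
      rw [z1] at this
      simpa [ee] using this.symm
    have m := toIcoMod_mem_Ico two_pi_pos (t 0) z.arg
    have d := toIcoMod_add_toIcoDiv_zsmul two_pi_pos (t 0) z.arg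
    refine ⟨_, m.1, by simpa [← T.tp] using m.2, ?_⟩
    refine e.trans ((j1_ee_per _ (toIcoDiv two_pi_pos (t 0) z.arg)).symm.trans ?_)
    congr 1
    rw [zsmul_eq_mul] at d
    linarith
  obtain ⟨b, ⟨b0, b1⟩, b2⟩ := Int.exists_greatest_of_bdd (P := fun x => 0 ≤ x ∧ t x ≤ τ)
    ⟨N, fun x hx => (T.tm.lt_iff_lt.1 (hx.2.trans_lt t2)).le⟩ ⟨0, le_rfl, t1⟩
  have b3 : τ < t (b + 1) := not_le.1 fun c => by have := b2 (b + 1) ⟨by omega, c⟩; omega
  have b4 : b < N := T.tm.lt_iff_lt.1 (b1.trans_lt t2)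
  have b5 : t b < τ := b1.lt_of_ne fun e => by
    rw [← e, Vp_pole T S.sp.pv] at z0
    obtain ⟨r, r0, hr⟩ := S.geo.dir _ _ (show Ed (b - 1) b by simpa using S.tr.nb (b - 1))
    refine mul_ne_zero (mul_ne_zero ?_ (j1_ee_ne _)) (prod_ne_zero_iff.2 fun i hi => ?_) z0
    · rw [Dv, hr]
      exact mul_ne_zero (Complex.ofReal_ne_zero.2 r0.ne') (j1_ee_ne _)
    · rw [mem_Ioo] at hi
      exact j1_ne (T.tm hi.1) (T.tp b ▸ T.tm hi.2)
  refine S.addR b5 b3 z0 fun r => (S.ang b).2.2 _ τ (S.cnd.ar b r).1 (S.cnd.ar b r).2 b5 b3 ?_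
  rw [hE]
  exact mul_dvd_mul (dvd_prod_of_mem _ (mem_filter.2 ⟨mem_Ico.2 ⟨b0, b4⟩, r⟩)) (dvd_iff_isRoot.2 h0)

end Pool.Agent.Lib.MP_9dc04a_an
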