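import Pool.Agent.Lib.MP_9dc04a_an.A2Core2
import Pool.Agent.Lib.MP_9dc04a_an.A2Min
import Pool.Agent.Lib.MP_9dc04a_an.QSgn2
import Pool.Agent.Lib.MP_9dc04a_an.QSl0

set_option autoImplicit false

namespace Pool.Agent.Lib.MP_9dc04a_an

open Finset Real A2

variable {N m : ℕ}

lemma br_win {M : Type} [AddCommMonoid M] (f : ℤ → M) (a : ℤ) :
    ∑ j : Fin N, f (a + j) = ∑ j ∈ Ico a (a + N), f j := by
  refine sum_bij (fun j _ => a + j) (fun j _ => ?_) (fun i _ j _ h => ?_) (fun z hz => ?_) fun _ _ => rfl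
  · have := j.2
    rw [mem_Ico]; omega
  · exact Fin.ext (by omega)
  · rw [mem_Ico] at hz
    exact ⟨⟨(z - a).toNat, by omega⟩, mem_univ _, by simp only; omega⟩

lemma br_per {f : ℤ → ℂ} (hN : 0 < N) (h : ∀ j, f (j + N) = f j) (a : ℤ) :
    ∑ j : Fin N, f (a + j) = ∑ j ∈ Ico (0:ℤ) N, f j := by
  rw [br_win, ← j1_img hN a, sum_image fun x hx y hy h => j1_eq hN hx hy h]
  exact sum_congr rfl fun j _ => (j1_md h j).symm

lemma br_tel {V : Type} [AddCommGroup V] (f : ℤ → V) {a b : ℤ} (h : a ≤ b) :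
    ∑ j ∈ Ioc a b, (f j - f (j - 1)) = f b - f a := by
  induction b, h using Int.leInduction with
  | base => simp
  | succ b hb ih =>
    rw [← insert_Ioc_right_eq_Ioc_add_one hb, sum_insert (by simp), ih, add_sub_cancel_right]
    abel

lemma br_ch {V : Type} [AddCommGroup V] [Module ℝ V] (f : ℤ → V) {h x y : ℤ} (x1 : h ≤ x)
    (x2 : x ≤ h + N) (y1 : h ≤ y) (y2 : y ≤ h + N) :
    ∑ j : Fin N, ch x y (h + 1 + j) • (f (h + 1 + j) - f (h + 1 + j - 1)) = f y - f x := by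
  have key : ∀ x y : ℤ, h ≤ x → x ≤ y → y ≤ h + N → ∑ j ∈ Ico (h + 1) (h + 1 + N),
      (if x < j ∧ j ≤ y then (1:ℝ) else 0) • (f j - f (j - 1)) = f y - f x := fun x y a b c => by
    rw [← br_tel f b]
    simp only [ite_smul, one_smul, zero_smul, ← sum_filter]
    congr 1
    ext j
    simp only [mem_filter, mem_Ico, mem_Ioc]
    omega
  rw [br_win fun j => ch x y j • (f j - f (j - 1))]
  rcases le_total x y with l | l
  · rw [← key x y x1 l y2]
    refine sum_congr rfl fun j _ => ?_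
    rw [ch, if_neg (show ¬(y < j ∧ j ≤ x) by omega)]
  · rw [← neg_sub, ← key y x y1 l x2, ← sum_neg_distrib]
    refine sum_congr rfl fun j _ => ?_
    rw [ch, if_neg (show ¬(x < j ∧ j ≤ y) by omega)]
    split_ifs <;> simp

/-- maximum principle -/
lemma br_det (x a c : Fin m → ℤ) (θ : Fin m → ℝ) (v : ℤ → ℂ) (hx : Function.Injective x)
    (h0 : ∀ i, 0 < θ i) (h1 : ∀ i, θ i < 1)
    (h : ∀ i, (∀ k, a i ≠ x k) ∨ (v (x i) = θ i * v (a i) + (1 - θ i) * v (c i) ∧ v (a i) ≠ v (c i))) :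
    (Matrix.of fun i k => θ i * ((if a i = x k then (1:ℝ) else 0) - if x i = x k then 1 else 0) +
      (1 - θ i) * ((if c i = x k then (1:ℝ) else 0) - if x i = x k then 1 else 0)).det ≠ 0 := by
  classical
  intro d
  obtain ⟨u, u0, hu⟩ := Matrix.exists_mulVec_eq_zero_iff.2 d
  obtain ⟨i₀, hi₀⟩ := Function.ne_iff.1 u0
  obtain ⟨i₁, -, mx⟩ := exists_max_image univ (fun i => |u i|) ⟨i₀, mem_univ _⟩
  have M0 : 0 < |u i₁| := (abs_pos.2 hi₀).trans_le (mx _ (mem_univ _))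
  obtain ⟨i, hi, mv⟩ := exists_max_image {i | |u i| = |u i₁|} (fun i => ‖v (x i)‖) ⟨i₁, by simp⟩
  set w : ℤ → ℝ := fun z => ∑ k, (if z = x k then 1 else 0) * u k with hw
  have wx : ∀ k, w (x k) = u k := fun k => by simp [hw, hx.eq_iff]
  have wz : ∀ z, w z = 0 ∨ ∃ k, z = x k := fun z => by
    by_cases e : ∃ k, z = x k
    · exact .inr e
    · exact .inl (sum_eq_zero fun k _ => by rw [if_neg fun c => e ⟨k, c⟩, zero_mul])
  have wb : ∀ z, |w z| ≤ |u i₁| := fun z => by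
    rcases wz z with e | ⟨k, rfl⟩
    · rw [e, abs_zero]; exact M0.le
    · rw [wx]; exact mx _ (mem_univ _)
  have e : u i = θ i * w (a i) + (1 - θ i) * w (c i) := by
    have := congrFun hu i
    simp only [Matrix.mulVec, dotProduct, Matrix.of_apply, add_mul, sub_mul, mul_assoc, sum_add_distrib,
      ← mul_sum, sum_sub_distrib, Pi.zero_apply] at this
    rw [← wx]
    simp only [hw]
    linarith
  have e2 : |u i₁| ≤ θ i * |w (a i)| + (1 - θ i) * |w (c i)| := by
    rw [← (mem_filter.1 hi).2, e]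
    refine (abs_add_le _ _).trans (le_of_eq ?_)
    rw [abs_mul, abs_mul, abs_of_pos (h0 i), abs_of_pos (sub_pos.2 (h1 i))]
  have key : ∀ z, |w z| = |u i₁| → (∃ k, z = x k) ∧ ‖v z‖ ≤ ‖v (x i)‖ := fun z hz => by
    rcases wz z with e | ⟨k, rfl⟩
    · rw [e, abs_zero] at hz; exact absurd hz M0.ne
    · exact ⟨⟨k, rfl⟩, mv k (by simpa [wx] using hz)⟩
  have ka := key (a i) ((wb _).antisymm (by nlinarith [wb (c i), h0 i, h1 i]))
  have kc := key (c i) ((wb _).antisymm (by nlinarith [wb (a i), h0 i, h1 i]))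
  rcases h i with g | g
  · obtain ⟨k, hk⟩ := ka.1
    exact g k hk
  · have := norm_combo_lt_of_ne ka.2 kc.2 g.2 (h0 i) (sub_pos.2 (h1 i)) (by ring)
    rw [Complex.real_smul, Complex.real_smul, Complex.ofReal_sub, Complex.ofReal_one, ← g.1] at this
    exact lt_irrefl _ this

/-- two chord row -/
def cr2 (x a c : ℤ) (θ : ℝ) (z : ℤ) : ℝ := θ * ch x a z + (1 - θ) * ch x c z

structure Chs (N : ℕ) (h : ℤ) (x a c : Fin m → ℤ) (θ : Fin m → ℝ) (v : ℤ → ℂ) : Prop where
  inj : Function.Injective x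
  h0 : ∀ i, 0 < θ i
  h1 : ∀ i, θ i < 1
  rx : ∀ i, h < x i ∧ x i ≤ h + N
  ra : ∀ i, h ≤ a i ∧ a i ≤ h + N ∧ x i ≠ a i
  rc : ∀ i, h ≤ c i ∧ c i ≤ h + N ∧ x i ≠ c i
  cr : ∀ i j y z, (y = a i ∨ y = c i) → (z = a j ∨ z = c j) →
    ¬(min (x i) y < min (x j) z ∧ min (x j) z < max (x i) y ∧ max (x i) y < max (x j) z)
  mp : ∀ i, (∀ k, a i ≠ x k) ∨ (v (x i) = θ i * v (a i) + (1 - θ i) * v (c i) ∧ v (a i) ≠ v (c i))

lemma Chs.lev {h : ℤ} {x a c : Fin m → ℤ} {θ : Fin m → ℝ} {v : ℤ → ℂ} (K : Chs N h x a c θ v)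
    {t : Fin N → ℝ} (w : Win t) (tm : StrictMono t) (μ : Fin N → ℝ) (μ0 : ∀ j, μ j ≠ 0)
    (ε : Fin m → ℝ) (hε : ∀ i, ε i = 1 ∨ ε i = -1)
    (hμ : ∀ i (j : Fin N), cr2 (x i) (a i) (c i) (θ i) (h + 1 + j) ≠ 0 →
      0 < ε i * (∏ k, q8_e (x k) (h + 1 + j)) * μ j) :
    Pos t (fun i j => cr2 (x i) (a i) (c i) (θ i) (h + 1 + j) * μ j) ∧
      Zs t (fun i j => cr2 (x i) (a i) (c i) (θ i) (h + 1 + j) * μ j) ≠ 0 := by
  have pm : ∀ (n : ℕ) (f : Fin n → ℝ), (∀ i, f i = 1 ∨ f i = -1) → ∏ i, f i = 1 ∨ ∏ i, f i = -1 :=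
    fun n f hf => prod_induction _ (fun r => r = 1 ∨ r = -1)
      (by rintro _ _ (rfl | rfl) (rfl | rfl) <;> simp) (.inl rfl) fun i _ => hf i
  have p : Pos t fun i j => cr2 (x i) (a i) (c i) (θ i) (h + 1 + j) * μ j := by
    obtain ⟨e, he, hs⟩ := ch2_sign x a c θ K.inj (fun i => (K.h0 i).le) (fun i => (K.h1 i).le)
      (fun i => (K.ra i).2.2) (fun i => (K.rc i).2.2) K.cr
    refine pos_of_minor w tm _ (e := e * ∏ i, ε i) ?_ fun q hq => ?_
    · rcases he with rfl | rfl <;> rcases pm _ ε hε with g | g <;> rw [g] <;> simp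
    · have := hs (fun k => h + 1 + q k) fun a b l => by
        have : (q a : ℕ) < q b := hq l
        simp only; omega
      have e1 : (Matrix.of fun i k => cr2 (x i) (a i) (c i) (θ i) (h + 1 + q k) * μ (q k)) =
          Matrix.of fun i k => ε i * (Matrix.of fun i k => ((∏ l, q8_e (x l) (h + 1 + q k)) * |μ (q k)|) *
            (Matrix.of fun i k => θ i * ch (x i) (a i) (h + 1 + q k) +
              (1 - θ i) * ch (x i) (c i) (h + 1 + q k)) i k) i k := by
        ext i k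
        simp only [Matrix.of_apply]
        by_cases z : cr2 (x i) (a i) (c i) (θ i) (h + 1 + q k) = 0
        · rw [z, ← cr2, z]; simp
        · have b := hμ i (q k) z
          have s := pm _ (fun l => q8_e (x l) (h + 1 + q k)) fun l => by
            unfold q8_e; split_ifs <;> simp
          rw [← cr2]
          rcases hε i with g | g <;> rcases s with s | s <;> rw [g, s] at b ⊢
          · rw [abs_of_pos (by linarith)]; ring
          · rw [abs_of_neg (by linarith)]; ring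
          · rw [abs_of_neg (by linarith)]; ring
          · rw [abs_of_pos (by linarith)]; ring
      rw [e1, Matrix.det_mul_column, Matrix.det_mul_row, prod_mul_distrib]
      simp only [q8_pow] at this
      have b : (∏ i, ε i) * ∏ i, ε i = 1 := by rcases pm _ ε hε with g | g <;> rw [g] <;> simp
      have := mul_nonneg this (prod_nonneg fun k (_ : k ∈ univ) => abs_nonneg (μ (q k)))
      linear_combination (exp := 1) this - (e * (∏ k, ∏ l, q8_e (x l) (h + 1 + q k)) * (∏ k, |μ (q k)|) *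
        (Matrix.of fun i k => θ i * ch (x i) (a i) (h + 1 + q k) +
              (1 - θ i) * ch (x i) (c i) (h + 1 + q k)).det) * b
  refine ⟨p, p.zs_ne w tm.injective (fun j k => ((if h + 1 + j = x k then (1:ℝ) else 0) -
    if h + 1 + j - 1 = x k then 1 else 0) / μ j) ?_⟩
  convert br_det x a c θ v K.inj K.h0 K.h1 K.mp using 3
  funext i
  funext k
  rw [← br_ch (fun z => if z = x k then (1:ℝ) else 0) (K.rx i).1.le (K.rx i).2 (K.ra i).1 (K.ra i).2.1,
    ← br_ch (fun z => if z = x k then (1:ℝ) else 0) (K.rx i).1.le (K.rx i).2 (K.rc i).1 (K.rc i).2.1,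
    mul_sum, mul_sum, ← sum_add_distrib]
  refine sum_congr rfl fun j _ => ?_
  have := μ0 j
  simp only [cr2, smul_eq_mul]
  field_simp

end Pool.Agent.Lib.MP_9dc04a_an
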