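import Pool.Agent.Lib.MP_9dc04a_an.O3Fac

set_option autoImplicit false

namespace Pool.Agent.Lib.MP_9dc04a_an

open Finset Real Polynomial

/-- jump at pole `j`; `v j` is the value on arc `j = (t j, t (j+1))` -/
def Dv (v : ℤ → ℂ) (j : ℤ) : ℂ := v j - v (j - 1)

/-- `Vk n = c n a_n`, `Vk (-n) = - c n conj b_n` with `c = 2 pi i` -/
noncomputable def Vk (n : ℤ) (N : ℕ) (t : ℤ → ℝ) (v : ℤ → ℂ) : ℂ :=
  ∑ j ∈ Ico (0:ℤ) N, Dv v j * ee (t j) ^ n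

/-- numerator of the derivative of the analytic part -/
noncomputable def Vp (N : ℕ) (t : ℤ → ℝ) (v : ℤ → ℂ) : ℂ[X] :=
  ∑ j ∈ Ico (0:ℤ) N, C (Dv v j * ee (t j)) * ∏ i ∈ (Ico (0:ℤ) N).erase j, (1 - X * C (ee (t i)))

/-- sense preserving step map with `b₁ = 0` -/
structure Sp (N : ℕ) (t : ℤ → ℝ) (v : ℤ → ℂ) : Prop where
  pol : Pol N t
  pv : ∀ j, v (j + N) = v j
  g0 : Vk (-1) N t v = 0
  nz : ∀ z : ℂ, ‖z‖ < 1 → (Vp N t v).eval z ≠ 0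

/-- positive iff `p q r` is counterclockwise -/
noncomputable def ori (p q r : ℂ) : ℝ := ((starRingEnd ℂ) (q - p) * (r - p)).im

/-- simple closed polygon in general position -/
structure Sim (N : ℕ) (v : ℤ → ℂ) : Prop where
  N3 : 3 ≤ N
  pv : ∀ j, v (j + N) = v j
  gp : ∀ i j k : ℤ, i < j → j < k → k < i + N → ori (v i) (v j) (v k) ≠ 0
  nx : ∀ i j : ℤ, i + 1 < j → j + 1 < i + N →
    0 < ori (v i) (v (i + 1)) (v j) * ori (v i) (v (i + 1)) (v (j + 1)) ∨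
    0 < ori (v j) (v (j + 1)) (v i) * ori (v j) (v (j + 1)) (v (i + 1))

/-- clockwise triangulation of the polygon `w i, ..., w j` -/
inductive Tz (w : ℤ → ℂ) : ℤ → ℤ → Prop
  | nb (i : ℤ) : Tz w i (i + 1)
  | ap (i k j : ℤ) : Tz w i k → Tz w k j → ori (w i) (w k) (w j) < 0 → Tz w i j

/-- combinatorial triangulation of the pockets; `H` = hull vertices -/
structure Tr (N : ℕ) (Ed : ℤ → ℤ → Prop) (H : ℤ → Prop) : Prop where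
  N0 : 0 < N
  lt : ∀ i j, Ed i j → i < j
  pe : ∀ i j, Ed (i + N) (j + N) = Ed i j
  ph : ∀ j, H (j + N) = H j
  nb : ∀ j, Ed j (j + 1)
  nc : ∀ i j k l, Ed i j → Ed k l → i < k → k < j → l ≤ j
  ap : ∀ i j, Ed i j → i + 1 < j → ∃ k, Ed i k ∧ Ed k j
  hv : ∀ i j h, Ed i j → i < h → h < j → ¬H h
  lid : ∀ i j, Con H i j → Ed i j
  ex : ∃ h, H h

/-- lifted directions of all edges -/
structure Geo (N : ℕ) (Ed : ℤ → ℤ → Prop) (H : ℤ → Prop) (v : ℤ → ℂ) (ψ : ℤ → ℤ → ℝ) : Prop where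
  dir : ∀ i j, Ed i j → ∃ r : ℝ, 0 < r ∧ v j - v i = r * ee (-ψ i j)
  pp : ∀ i j, Ed i j → ψ (i + N) (j + N) = ψ i j + 2 * π
  tri : ∀ i k j, Ed i k → Ed k j → Ed i j → ψ i j ≤ ψ i k ∧ ψ k j ≤ ψ i j ∧ ψ i k ≤ ψ k j + π
  hull : ∀ i k j, Con H i k → Con H k j → ψ i k ≤ ψ k j

/-- `x, a, c` are the corners of a triangle, or consecutive hull vertices with `x` in the middle -/
def Face (Ed : ℤ → ℤ → Prop) (H : ℤ → Prop) (x a c : ℤ) : Prop :=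
  (Ed a x ∧ Ed x c ∧ Ed a c) ∨ (Ed x a ∧ Ed a c ∧ Ed x c) ∨ (Ed a c ∧ Ed c x ∧ Ed a x) ∨
    (Con H a x ∧ Con H x c)

/-- `v x` lies strictly between `v a` and `v c` -/
def Flat (v : ℤ → ℂ) (x a c : ℤ) (θ : ℝ) : Prop :=
  0 < θ ∧ θ < 1 ∧ v x = θ * v a + (1 - θ) * v c

/-- frozen conditions: zeros `τ j` in the arcs `j ∈ R`, flat faces at the vertices `j ∈ C` -/
structure Cd where
  R : ℤ → Prop
  C : ℤ → Prop
  τ : ℤ → ℝ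
  a : ℤ → ℤ
  c : ℤ → ℤ
  θ : ℤ → ℝ

structure Cnd (N : ℕ) (t : ℤ → ℝ) (Ed : ℤ → ℤ → Prop) (H : ℤ → Prop) (d : Cd) : Prop where
  pR : ∀ j, d.R (j + N) = d.R j
  pC : ∀ j, d.C (j + N) = d.C j
  pt : ∀ j, d.τ (j + N) = d.τ j + 2 * π
  pa : ∀ j, d.a (j + N) = d.a j + N
  pc : ∀ j, d.c (j + N) = d.c j + N
  ph : ∀ j, d.θ (j + N) = d.θ j
  dj : ∀ j, d.R j → ¬d.C j
  ar : ∀ j, d.R j → t j < d.τ j ∧ d.τ j < t (j + 1)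
  fc : ∀ j, d.C j → Face Ed H j (d.a j) (d.c j) ∧ 0 < d.θ j ∧ d.θ j < 1

/-- the complex linear conditions -/
structure Sat (N : ℕ) (t : ℤ → ℝ) (d : Cd) (v : ℤ → ℂ) : Prop where
  pv : ∀ j, v (j + N) = v j
  g0 : Vk (-1) N t v = 0
  zr : ∀ j, d.R j → (Vp N t v).eval (ee (-d.τ j)) = 0
  fl : ∀ j, d.C j → v j = d.θ j * v (d.a j) + (1 - d.θ j) * v (d.c j)

/-- final data -/
structure Fd (N : ℕ) (t : ℤ → ℝ) (Ed : ℤ → ℤ → Prop) (H : ℤ → Prop) (d : Cd) (h₁ h₂ h₃ : ℤ)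
    (v : ℤ → ℂ) : Prop where
  pol : Pol N t
  tr : Tr N Ed H
  cnd : Cnd N t Ed H d
  sat : Sat N t d v
  o12 : h₁ < h₂
  o23 : h₂ < h₃
  o31 : h₃ < h₁ + N
  hH : H h₁ ∧ H h₂ ∧ H h₃
  fR : ¬d.R h₁ ∧ ¬d.R h₂ ∧ ¬d.R h₃
  fC : ¬d.C h₁ ∧ ¬d.C h₂ ∧ ¬d.C h₃
  all : ∀ j, h₁ < j → j < h₁ + N → j ≠ h₂ → j ≠ h₃ → d.R j ∨ d.C j
  ne : ∀ j, d.C j → v (d.a j) ≠ v (d.c j)

end Pool.Agent.Lib.MP_9dc04a_an
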