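import Pool.Agent.Lib.MP_9dc04a_an.QDef

/-! A simple polygon in general position has a triangulation. -/

set_option autoImplicit false

namespace Pool.Agent.Lib.MP_9dc04a_an

open Finset Real

theorem q4_ori (p q r : ℂ) :
    ori p q r = (q.re - p.re) * (r.im - p.im) - (q.im - p.im) * (r.re - p.re) := by
  simp [ori]; ring

/-- proper crossing of two segments -/
def q4_X (p q r s : ℂ) : Prop := ori p q r * ori p q s < 0 ∧ ori r s p * ori r s q < 0

theorem q4_X.symm {p q r s : ℂ} (h : q4_X p q r s) : q4_X r s p q := ⟨h.2, h.1⟩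

theorem q4_X.flip {p q r s : ℂ} (h : q4_X p q r s) : q4_X q p r s := by
  obtain ⟨a, b⟩ := h
  simp only [q4_X, q4_ori] at *
  constructor <;> linarith

theorem q4_X.ne {p q r s : ℂ} (h : q4_X p q r s) : r ≠ p ∧ r ≠ q ∧ s ≠ p ∧ s ≠ q := by
  refine ⟨?_, ?_, ?_, ?_⟩ <;> rintro rfl <;> have := h.1 <;> simp only [q4_ori] at this <;>
    nlinarith

/-- the point of intersection -/
theorem q4_X.pt {p q r s : ℂ} (h : q4_X p q r s) : ∃ t l : ℝ, 0 < t ∧ t < 1 ∧ 0 < l ∧ l < 1 ∧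
    r.re + t * (s.re - r.re) = p.re + l * (q.re - p.re) ∧
    r.im + t * (s.im - r.im) = p.im + l * (q.im - p.im) := by
  have k : ∀ x y : ℝ, x * y < 0 → x - y ≠ 0 ∧ 0 < x / (x - y) ∧ x / (x - y) < 1 := fun x y e => by
    rcases mul_neg_iff.1 e with ⟨a, b⟩ | ⟨a, b⟩
    · exact ⟨by linarith, div_pos a (by linarith), (div_lt_one (by linarith)).2 (by linarith)⟩
    · exact ⟨by linarith, div_pos_of_neg_of_neg a (by linarith),
        (div_lt_one_of_neg (by linarith)).2 (by linarith)⟩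
  obtain ⟨a0, a1, a2⟩ := k _ _ h.1
  obtain ⟨-, b1, b2⟩ := k _ _ h.2
  have e : ori r s p - ori r s q = -(ori p q r - ori p q s) := by simp only [q4_ori]; ring
  refine ⟨_, _, a1, a2, b1, b2, ?_, ?_⟩ <;> rw [e] <;> field_simp <;> simp only [q4_ori] <;> ring

/-- periodic simple polygons -/
structure q4_P (N : ℕ) (w : ℤ → ℂ) : Prop where
  pv : ∀ j, w (j + N) = w j
  inj : ∀ k l : ℤ, k < l → l < k + N → w k ≠ w l
  gp : ∀ k l m, w k ≠ w l → w l ≠ w m → w k ≠ w m → ori (w k) (w l) (w m) ≠ 0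
  nx : ∀ k l, ¬q4_X (w k) (w (k + 1)) (w l) (w (l + 1))

/-- `b` is an extreme vertex -/
def q4_E (w : ℤ → ℂ) (b : ℤ) : Prop := ∃ u v : ℝ, ∀ j, w j ≠ w b →
  0 < u * ((w j).re - (w b).re) + v * ((w j).im - (w b).im)

variable {N : ℕ} {w w' : ℤ → ℂ} {i j b : ℤ}

theorem q4_per (pv : ∀ j, w (j + N) = w j) (j c : ℤ) : w (j + c * N) = w j :=
  (Function.Periodic.int_mul (c := (N : ℤ)) pv c) j

theorem q4_win (N0 : 0 < N) (b j : ℤ) : ∃ k c : ℤ, b ≤ k ∧ k < b + N ∧ j = k + c * N := by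
  have n : (0 : ℤ) < N := by exact_mod_cast N0
  refine ⟨b + (j - b) % N, (j - b) / N, ?_, ?_, ?_⟩
  · linarith [Int.emod_nonneg (j - b) n.ne']
  · linarith [Int.emod_lt_of_pos (j - b) n]
  · linarith [Int.emod_add_mul_ediv (j - b) N]

theorem q4_lt (h : Tz w i j) : i < j := by
  induction h with
  | nb => omega
  | ap => omega

theorem q4_tr (h : Tz w i j) (s : ℤ) (e : ∀ k l m, i ≤ k → k < l → l < m → m ≤ j →
    ori (w k) (w l) (w m) < 0 → ori (w' (k + s)) (w' (l + s)) (w' (m + s)) < 0) :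
    Tz w' (i + s) (j + s) := by
  induction h with
  | nb i => exact add_right_comm i s 1 ▸ .nb _
  | ap i k j a c o ih ih' =>
    have := q4_lt a
    have := q4_lt c
    exact .ap _ _ _ (ih fun k l m h1 h2 h3 h4 => e k l m h1 h2 h3 (by omega))
      (ih' fun k l m h1 h2 h3 h4 => e k l m (by omega) h2 h3 h4) (e _ _ _ le_rfl ‹_› ‹_› le_rfl o)

theorem q4_sh (pv : ∀ j, w (j + N) = w j) (h : Tz w i j) (c : ℤ) : Tz w (i + c * N) (j + c * N) :=
  q4_tr h _ fun k l m _ _ _ _ o => by simpa only [q4_per pv] using o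

theorem q4_rot (pv : ∀ j, w (j + N) = w j) (h : Tz w i j) (h' : Tz w j (i + N)) {r : ℤ} (h1 : i ≤ r)
    (h2 : r < j) : Tz w (r + 1) (r + N) := by
  induction h with
  | nb i => rwa [show r = i by omega]
  | ap i k j a c o ih ih' =>
    rcases lt_or_ge r k with e | e
    · exact ih (.ap _ _ _ c h' (by rw [pv]; simp only [q4_ori] at *; linarith)) h1 e
    · have := q4_sh pv a 1
      rw [one_mul] at this
      exact ih' (.ap _ _ _ h' this (by rw [pv, pv]; simp only [q4_ori] at *; linarith)) e h2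

/-- both sides of a diagonal give all roots -/
theorem q4_all (pv : ∀ j, w (j + N) = w j) (h : Tz w i j) (h' : Tz w j (i + N)) (r : ℤ) :
    Tz w r (r + N - 1) := by
  have := q4_lt h
  have := q4_lt h'
  obtain ⟨k, c, k1, k2, e⟩ := q4_win (N := N) (by omega) i (r - 1)
  have : Tz w (k + 1) (k + N) := by
    rcases lt_or_ge k j with e | e
    · exact q4_rot pv h h' k1 e
    · have := q4_sh pv h 1
      rw [one_mul] at this
      exact q4_rot pv h' this e k2
  convert q4_sh pv this c using 1 <;> linarith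

/-- the polygon `w i, ..., w (i + m - 1)` -/
def q4_r (w : ℤ → ℂ) (i : ℤ) (m : ℕ) (k : ℤ) : ℂ := w (i + (k - i) % m)

theorem q4_r_eq {m : ℕ} {k : ℤ} (h1 : i ≤ k) (h2 : k < i + m) : q4_r w i m k = w k := by
  rw [q4_r, Int.emod_eq_of_lt (by omega) (by omega), add_sub_cancel]

theorem q4_r_pv (w : ℤ → ℂ) (i : ℤ) (m : ℕ) (k : ℤ) : q4_r w i m (k + m) = q4_r w i m k := by
  rw [q4_r, q4_r, add_sub_right_comm, Int.add_emod_right]

theorem q4_P.sub (P : q4_P N w) (i : ℤ) {m : ℕ} (m0 : 0 < m) (hm : m ≤ N)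
    (d : ∀ k, i ≤ k → k + 1 < i + m → ¬q4_X (w (i + m - 1)) (w i) (w k) (w (k + 1))) :
    q4_P m (q4_r w i m) := by
  have pv := q4_r_pv w i m
  have ed : ∀ k, (∃ l, i ≤ l ∧ l + 1 < i + m ∧ q4_r w i m k = w l ∧ q4_r w i m (k + 1) = w (l + 1)) ∨
      (q4_r w i m k = w (i + m - 1) ∧ q4_r w i m (k + 1) = w i) := fun k => by
    obtain ⟨l, c, l1, l2, rfl⟩ := q4_win m0 i k
    rw [add_right_comm, q4_per pv, q4_per pv, q4_r_eq l1 l2]
    rcases lt_or_ge (l + 1) (i + m) with e | e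
    · exact .inl ⟨l, l1, e, rfl, q4_r_eq (by omega) e⟩
    · refine .inr ⟨congrArg w (by omega), ?_⟩
      rw [show l + 1 = i + m by omega, pv, q4_r_eq le_rfl (by omega)]
  refine ⟨pv, fun k l h1 h2 => ?_, fun k l m => P.gp _ _ _, fun k l => ?_⟩
  · obtain ⟨k, c, k1, k2, rfl⟩ := q4_win m0 i k
    obtain ⟨l, rfl⟩ : ∃ l', l = l' + c * m := ⟨l - c * m, by ring⟩
    rw [q4_per pv, q4_per pv, q4_r_eq k1 k2]
    rcases lt_or_ge l (i + m) with e | e
    · rw [q4_r_eq (by omega) e]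
      exact P.inj _ _ (by omega) (by omega)
    · rw [← sub_add_cancel l m, pv, q4_r_eq (by omega) (by omega)]
      exact (P.inj _ _ (by omega) (by omega)).symm
  · rcases ed k with ⟨k', k1, k2, a1, a2⟩ | ⟨a1, a2⟩ <;>
      rcases ed l with ⟨l', l1, l2, b1, b2⟩ | ⟨b1, b2⟩ <;> rw [a1, a2, b1, b2]
    exacts [P.nx _ _, fun x => d _ k1 k2 x.symm, d _ l1 l2, fun x => x.ne.1 rfl]

theorem q4_P.map (P : q4_P N w) {φ : ℂ → ℂ} {D : ℝ} (D0 : D ≠ 0)
    (e : ∀ p q r, ori (φ p) (φ q) (φ r) = D * ori p q r) : q4_P N fun k => φ (w k) := by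
  refine ⟨fun j => by rw [P.pv], fun k l h1 h2 c => ?_, fun k l m a b c => ?_, fun k l x => ?_⟩
  · have h3 := e (w k) (w l) (w k + Complex.I * (w l - w k))
    have h4 := Complex.normSq_pos.2 (sub_ne_zero.2 (P.inj k l h1 h2).symm)
    rw [c, q4_ori (φ _), sub_self, sub_self, zero_mul, zero_mul, sub_self, eq_comm,
      mul_eq_zero] at h3
    rw [Complex.normSq_apply] at h4
    simp [q4_ori, D0] at h3 h4
    linarith
  · rw [e]
    exact mul_ne_zero D0 (P.gp _ _ _ (fun x => a (congrArg φ x)) (fun x => b (congrArg φ x))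
      fun x => c (congrArg φ x))
  · have := mul_self_pos.2 D0
    simp only [q4_X, e] at x
    refine P.nx k l ⟨?_, ?_⟩ <;> by_contra c <;> nlinarith [x.1, x.2]

theorem q4_ex (N0 : 0 < N) (pv : ∀ j, w (j + N) = w j) : ∃ b, ∀ j, Complex.normSq (w j) ≤
    Complex.normSq (w b) := by
  obtain ⟨b, -, h⟩ := exists_max_image (Ico (0 : ℤ) (0 + N)) (fun j => Complex.normSq (w j))
    ⟨0, by simpa⟩
  refine ⟨b, fun j => ?_⟩
  obtain ⟨k, c, k1, k2, rfl⟩ := q4_win N0 0 j
  rw [q4_per pv]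
  exact h k (mem_Ico.2 ⟨k1, k2⟩)

theorem q4_ex2 (h : ∀ j, Complex.normSq (w j) ≤ Complex.normSq (w b)) : q4_E w b :=
  ⟨-(w b).re, -(w b).im, fun j e => by
    have h4 := Complex.normSq_pos.2 (sub_ne_zero.2 e)
    have := h j
    simp only [Complex.normSq_apply, Complex.sub_re, Complex.sub_im] at *
    nlinarith⟩

/-- a segment which leaves the triangle through the lower side -/
theorem q4_K {p1 p2 q1 q2 u v t D : ℝ} (u0 : 0 < u) (hp : 0 < u * p1 + v * p2)
    (hq : 0 < u * q1 + v * q2) (t0 : 0 ≤ t) (t1 : t ≤ 1) (y2 : 0 < p2 + t * (q2 - p2))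
    (y3 : p1 + t * (q1 - p1) + (p2 + t * (q2 - p2)) ≤ D) (s : p1 + p2 < D) (p0 : p2 < 0) :
    0 < q2 ∧ 0 < p1 * q2 - p2 * q1 ∧ p1 * q2 - p2 * q1 < D * (q2 - p2) := by
  have q0 : 0 < q2 := by by_contra c; nlinarith
  have t2 : 0 < t := by by_contra c; nlinarith
  refine ⟨q0, pos_of_mul_pos_left (b := u) ?_ u0.le, ?_⟩
  · nlinarith [mul_pos q0 hp, mul_pos (neg_pos.2 p0) hq]
  · refine lt_of_mul_lt_mul_left (a := t) ?_ t0
    nlinarith [mul_pos y2 (sub_pos.2 s), mul_nonneg (neg_pos.2 p0).le (sub_nonneg.2 y3)]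

/-- positive crossings of a ray are inherited from a counterclockwise triangle -/
theorem q4_step {p q r m : ℂ} (o : 0 < ori p r q) (h1 : p.re ≤ p.im) (h2 : q.im < q.re)
    (hm : m.re = m.im) (h3 : 0 < ori m p q ∨ (ori m p q = 0 ∧ p.re < p.im)) :
    (r.im < r.re ∧ 0 < ori m p r) ∨ (r.re ≤ r.im ∧ 0 < ori m r q) := by
  have e1 : ori p r q = ori m p r + ori m r q - ori m p q := by simp only [q4_ori]; ring
  have e2 : ori m p r * (q.re - q.im) = ori m r q * (p.im - p.re) + ori m p q * (r.re - r.im) := by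
    simp only [q4_ori, hm]; ring
  generalize ori m p r = x, ori m r q = y, ori m p q = z at *
  have z0 : 0 ≤ z := h3.elim le_of_lt fun h => h.1.ge
  rcases lt_or_ge r.im r.re with e | e
  · refine .inl ⟨e, not_le.1 fun c => ?_⟩
    have := mul_nonneg (neg_nonneg.2 c) (sub_pos.2 h2).le
    have y0 : 0 < y := by linarith
    rcases h3 with h | h
    · nlinarith [mul_nonneg y0.le (sub_nonneg.2 h1), mul_pos h (sub_pos.2 e)]
    · nlinarith [mul_pos y0 (sub_pos.2 h.2), mul_nonneg z0 (sub_pos.2 e).le]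
  · refine .inr ⟨e, not_le.1 fun c => ?_⟩
    have x0 : 0 < x := by linarith
    nlinarith [mul_pos x0 (sub_pos.2 h2), mul_nonneg (neg_nonneg.2 c) (sub_nonneg.2 h1),
      mul_nonneg z0 (sub_nonneg.2 e)]

theorem q4_ray {m : ℂ} (hm : m.re = m.im) (h : Tz (fun k => (starRingEnd ℂ) (w k)) i j)
    (h1 : (w i).re ≤ (w i).im) (h2 : (w j).im < (w j).re)
    (h3 : 0 < ori m (w i) (w j) ∨ (ori m (w i) (w j) = 0 ∧ (w i).re < (w i).im ∧ i + 1 < j)) :
    ∃ k, i ≤ k ∧ k < j ∧ (w k).re ≤ (w k).im ∧ (w (k + 1)).im < (w (k + 1)).re ∧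
      0 < ori m (w k) (w (k + 1)) := by
  induction h with
  | nb i => exact ⟨i, le_rfl, by omega, h1, h2, h3.resolve_right fun h => by omega⟩
  | ap i k j a c o ih ih' =>
    have := q4_lt a
    have := q4_lt c
    have o' : 0 < ori (w i) (w k) (w j) := by
      simp only [q4_ori, Complex.conj_re, Complex.conj_im] at o ⊢; linarith
    rcases q4_step o' h1 h2 hm (h3.imp_right fun h => ⟨h.1, h.2.1⟩) with e | e
    · exact (ih h1 e.1 (.inl e.2)).imp fun l h => ⟨h.1, by omega, h.2.2⟩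
    · exact (ih' e.1 h2 (.inl e.2)).imp fun l h => ⟨by omega, h.2⟩

/-- the statement for polygons with `N` vertices -/
def q4_T (N : ℕ) : Prop := ∀ w b, q4_P N w → q4_E w b → ori (w (b - 1)) (w b) (w (b + 1)) < 0 →
  ∀ r, Tz w r (r + N - 1)

theorem q4_or {m : ℕ} (T : q4_T m) (m3 : 3 ≤ m) (P : q4_P m w) (r : ℤ) :
    Tz w r (r + m - 1) ∨ Tz (fun k => (starRingEnd ℂ) (w k)) r (r + m - 1) := by
  obtain ⟨b, h⟩ := q4_ex (by omega) P.pv
  have e : ∀ p q r, ori ((starRingEnd ℂ) p) ((starRingEnd ℂ) q) ((starRingEnd ℂ) r) =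
      -1 * ori p q r := fun p q r => by simp only [q4_ori, Complex.conj_re, Complex.conj_im]; ring
  rcases lt_or_gt_of_ne (P.gp (b - 1) b (b + 1) (P.inj _ _ (by omega) (by omega))
    (P.inj _ _ (by omega) (by omega)) (P.inj _ _ (by omega) (by omega))) with o | o
  · exact .inl (T w b P (q4_ex2 h) o r)
  · exact .inr (T _ b (P.map (by norm_num) e) (q4_ex2 fun j => by simpa using h j)
      (by rw [e]; linarith) r)

section norm

variable {D u v : ℝ} (P : q4_P N w) (N4 : 4 ≤ N) (D0 : 0 < D) (e0 : w b = 0) (e1 : w (b - 1) = D)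
  (e2 : w (b + 1) = D * Complex.I) (u0 : 0 < u) (v0 : 0 < v)
  (lo : ∀ j, w j ≠ 0 → 0 < u * (w j).re + v * (w j).im)
include P N4 D0 e0 e1 e2 u0 v0 lo

/-- an edge which meets the triangle and has an end below its top side has this end inside -/
theorem q4_M {p q : ℂ} {k : ℤ} (hk : (p = w k ∧ q = w (k + 1)) ∨ (q = w k ∧ p = w (k + 1)))
    (p0 : p ≠ 0) (q0 : q ≠ 0) {t : ℝ} (t0 : 0 ≤ t) (t1 : t ≤ 1) (y1 : 0 < p.re + t * (q.re - p.re))
    (y2 : 0 < p.im + t * (q.im - p.im))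
    (y3 : p.re + t * (q.re - p.re) + (p.im + t * (q.im - p.im)) ≤ D) (s : p.re + p.im < D) :
    0 < p.re ∧ 0 < p.im := by
  obtain ⟨i, rfl⟩ : ∃ i, p = w i := hk.elim (fun h => ⟨_, h.1⟩) fun h => ⟨_, h.2⟩
  obtain ⟨j, rfl⟩ : ∃ j, q = w j := hk.elim (fun h => ⟨_, h.2⟩) fun h => ⟨_, h.1⟩
  have nx : ∀ l, ¬q4_X (w i) (w j) (w l) (w (l + 1)) := fun l x => hk.elim
    (fun h => P.nx k l (h.1 ▸ h.2 ▸ x)) fun h => P.nx k l (h.1 ▸ h.2 ▸ x.flip)
  have a := lo i p0
  have c := lo j q0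
  have D1 : (D : ℂ) ≠ 0 := Complex.ofReal_ne_zero.2 D0.ne'
  refine ⟨not_le.1 fun h => ?_, not_le.1 fun h => ?_⟩
  · have g := P.gp b (b + 1) i (P.inj _ _ (by omega) (by omega))
      (fun x => by rw [← x, e2] at s; simp at s) (e0 ▸ p0.symm)
    have h' : (w i).re < 0 := h.lt_of_ne fun x => g (by simp [e0, e2, q4_ori, x])
    obtain ⟨k1, k2, k3⟩ := q4_K v0 (a.trans_eq (add_comm _ _)) (c.trans_eq (add_comm _ _)) t0 t1 y1
      ((add_comm _ _).trans_le y3) ((add_comm _ _).trans_lt s) h'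
    refine nx b ⟨?_, ?_⟩ <;> simp [e0, e2, q4_ori]
    · exact mul_neg_of_neg_of_pos (by linarith) (by linarith)
    · nlinarith [mul_pos (mul_pos D0 D0) (mul_pos k1 (neg_pos.2 h'))]
  · have g := P.gp (b - 1) b i (P.inj _ _ (by omega) (by omega)) (e0 ▸ p0.symm)
      (fun x => by rw [← x, e1] at s; simp at s)
    have h' : (w i).im < 0 := h.lt_of_ne fun x => g (by simp [e0, e1, q4_ori, x])
    obtain ⟨k1, k2, k3⟩ := q4_K u0 a c t0 t1 y2 y3 s h'
    refine nx (b - 1) ⟨?_, ?_⟩ <;> simp [e0, e1, q4_ori]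
    · exact mul_neg_of_neg_of_pos (by linarith) (by linarith)
    · nlinarith [mul_pos (mul_pos D0 D0) (mul_pos k1 (neg_pos.2 h'))]

/-- the same for both ends -/
theorem q4_M2 {k : ℤ} (p0 : w k ≠ 0) (q0 : w (k + 1) ≠ 0) {t x y s : ℝ} (t0 : 0 ≤ t) (t1 : t ≤ 1)
    (hx : (w k).re + t * ((w (k + 1)).re - (w k).re) = x)
    (hy : (w k).im + t * ((w (k + 1)).im - (w k).im) = y) (x0 : 0 < x) (y0 : 0 < y) (h : x + y ≤ D)
    (hs : s ≤ D) (h' : x + y < s ∨ (w k).re + (w k).im < s ∨ (w (k + 1)).re + (w (k + 1)).im < s) :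
    ∃ l, 0 < (w l).re ∧ 0 < (w l).im ∧ (w l).re + (w l).im < s := by
  have : (w k).re + (w k).im < s ∨ (w (k + 1)).re + (w (k + 1)).im < s := by
    refine h'.elim (fun c => ?_) id
    by_contra n
    push Not at n
    nlinarith [mul_nonneg t0 (sub_nonneg.2 n.2), mul_nonneg (sub_nonneg.2 t1) (sub_nonneg.2 n.1)]
  rcases this with c | c
  · have := q4_M P N4 D0 e0 e1 e2 u0 v0 lo (.inl ⟨rfl, rfl⟩) p0 q0 t0 t1 (by linarith) (by linarith)
      (by linarith) (by linarith)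
    exact ⟨k, this.1, this.2, c⟩
  · have := q4_M P N4 D0 e0 e1 e2 u0 v0 lo (.inr ⟨rfl, rfl⟩) q0 p0 (t := 1 - t) (by linarith)
      (by linarith) (by linarith) (by linarith) (by linarith) (by linarith)
    exact ⟨k + 1, this.1, this.2, c⟩

theorem q4_norm (T : ∀ m < N, 3 ≤ m → q4_T m) (r : ℤ) : Tz w r (r + N - 1) := by
  classical
  have M := @q4_M2 N w b D u v P N4 D0 e0 e1 e2 u0 v0 lo
  have e3 : w (b + N) = 0 := by rw [P.pv, e0]
  have e4 : w (b + N - 1) = D := by rw [add_sub_right_comm, P.pv, e1]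
  have ex : ∀ (i : ℤ) (m : ℕ) (c : ℤ), q4_r w i m c = 0 → q4_E (q4_r w i m) c := fun i m c e =>
    ⟨u, v, fun j hj => by rw [e] at hj ⊢; simpa [q4_r] using lo _ hj⟩
  by_cases I : ∃ l, 0 < (w l).re ∧ 0 < (w l).im ∧ (w l).re + (w l).im < D
  · obtain ⟨d, d0, dm⟩ := exists_min_image ({l ∈ Ico b (b + N) | 0 < (w l).re ∧ 0 < (w l).im})
      (fun l => (w l).re + (w l).im) (by
        obtain ⟨l, a1, a2, -⟩ := I
        obtain ⟨k, c, k1, k2, rfl⟩ := q4_win (N := N) (by omega) b l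
        rw [q4_per P.pv] at a1 a2
        exact ⟨k, by simp [*]⟩)
    simp only [mem_filter, mem_Ico] at d0 dm
    obtain ⟨⟨d1, d2⟩, d3, d4⟩ := d0
    replace dm : ∀ l, 0 < (w l).re → 0 < (w l).im → (w d).re + (w d).im ≤ (w l).re + (w l).im :=
      fun l a1 a2 => by
        obtain ⟨k, c, k1, k2, rfl⟩ := q4_win (N := N) (by omega) b l
        rw [q4_per P.pv] at a1 a2 ⊢
        exact dm k ⟨⟨k1, k2⟩, a1, a2⟩
    have d5 : (w d).re + (w d).im < D := let ⟨l, a1, a2, a3⟩ := I; (dm l a1 a2).trans_lt a3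
    have n1 : d ≠ b := fun x => by simp [x, e0] at d3
    have n2 : d ≠ b + 1 := fun x => by simp [x, e2] at d3
    have n3 : d ≠ b + N - 1 := fun x => by simp [x, e4] at d4
    have dg : ∀ k, ¬q4_X 0 (w d) (w k) (w (k + 1)) := fun k x => by
      obtain ⟨t, l, t0, t1, l0, l1, a1, a2⟩ := x.pt
      simp only [Complex.zero_re, Complex.zero_im, zero_add, sub_zero] at a1 a2
      obtain ⟨l, c1, c2, c3⟩ := M x.ne.1 x.ne.2.2.1 t0.le t1.le a1 a2 (mul_pos l0 d3) (mul_pos l0 d4)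
        (by nlinarith) d5.le (.inl (by nlinarith))
      exact (dm l c1 c2).not_gt c3
    obtain ⟨m, rfl⟩ : ∃ m : ℕ, d = b + m - 1 := ⟨(d - b + 1).toNat, by omega⟩
    obtain ⟨m', hm⟩ : ∃ m' : ℕ, (m' : ℤ) + m = N + 2 := ⟨N + 2 - m, by omega⟩
    have a1 := T m (by omega) (by omega) _ b (P.sub b (by omega) (by omega) fun k _ _ x =>
      dg k (e0 ▸ x.flip)) (ex _ _ _ ((q4_r_eq le_rfl (by omega)).trans e0)) (by
        rw [← q4_r_pv, q4_r_eq (by omega) (by omega), q4_r_eq le_rfl (by omega),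
          q4_r_eq (by omega) (by omega), sub_add_eq_add_sub, e0, e2]
        simp [q4_ori]
        nlinarith [mul_pos D0 d3]) b
    have f : b + m - 1 + m' - 1 = b + N := by omega
    have a2 := T m' (by omega) (by omega) _ (b + N) (P.sub (b + m - 1) (by omega) (by omega)
      fun k _ _ x => dg k (by rwa [f, e3] at x))
      (ex _ _ _ ((q4_r_eq (by omega) (by omega)).trans e3)) (by
        rw [show b + N + 1 = b + m - 1 + m' by omega, q4_r_pv, q4_r_eq (by omega) (by omega),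
          q4_r_eq (by omega) (by omega), q4_r_eq le_rfl (by omega), e3, e4]
        simp [q4_ori]
        nlinarith [mul_pos D0 d4]) (b + m - 1)
    have c : ∀ {i j : ℤ} {m : ℕ}, j < i + m → Tz (q4_r w i m) i j → Tz w i j := fun h a => by
      simpa using q4_tr (w' := w) a 0 fun k l n h1 h2 h3 h4 o => by
        rwa [q4_r_eq h1 (by omega), q4_r_eq (by omega) (by omega), q4_r_eq (by omega) (by omega),
          ← add_zero k, ← add_zero l, ← add_zero n] at o
    rw [f] at a2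
    exact q4_all P.pv (c (by omega) a1) (c (by omega) a2) r
  · obtain ⟨m, hm⟩ : ∃ m : ℕ, N = m + 1 := ⟨N - 1, by omega⟩
    have f : b + 1 + m - 1 = b + N - 1 := by omega
    have z : ∀ k, b < k → k < b + N → w k ≠ 0 := fun k h1 h2 => e0 ▸ (P.inj _ _ h1 h2).symm
    have P' := P.sub (b + 1) (m := m) (by omega) (by omega) fun k k1 k2 x => by
      obtain ⟨t, l, t0, t1, l0, l1, a1, a2⟩ := x.pt
      have a3 := x.1
      rw [f, e4, e2] at a1 a2 a3
      simp [q4_ori] at a1 a2 a3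
      refine I (M (z k (by omega) (by omega)) (z _ (by omega) (by omega)) t0.le t1.le a1 a2
        (by nlinarith) (mul_pos l0 D0) (by linarith) le_rfl (.inr ?_))
      by_contra n
      push Not at n
      nlinarith [mul_nonneg (mul_pos D0 D0).le (mul_nonneg (sub_nonneg.2 n.1) (sub_nonneg.2 n.2))]
    have a1 : Tz w (b - 1) (b + 1) := .ap _ b _ (by simpa using Tz.nb (w := w) (b - 1)) (.nb _)
      (by simp [e0, e1, e2, q4_ori, D0])
    rcases q4_or (T m (by omega) (by omega)) (by omega) P' (b + 1) with a | a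
    · refine q4_all P.pv a1 ?_ r
      have := q4_tr (w' := w) a 0 fun k l n h1 h2 h3 h4 o => by
        rwa [q4_r_eq h1 (by omega), q4_r_eq (by omega) (by omega), q4_r_eq (by omega) (by omega),
          ← add_zero k, ← add_zero l, ← add_zero n] at o
      convert this using 1 <;> omega
    have g1 : q4_r w (b + 1) m (b + 1) = D * Complex.I := (q4_r_eq le_rfl (by omega)).trans e2
    have g2 : q4_r w (b + 1) m (b + 1 + m - 1) = D := by rw [q4_r_eq (by omega) (by omega), f, e4]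
    obtain ⟨k, k1, k2, k3, k4, k5⟩ := q4_ray (m := ⟨D / 2, D / 2⟩) rfl a (by simp [g1, D0.le])
      (by simp [g2, D0]) (.inr ⟨by simp [g1, g2, q4_ori]; ring, by simp [g1, D0], by omega⟩)
    rw [q4_r_eq (by omega) (by omega)] at k3 k4 k5
    rw [q4_r_eq (by omega) (by omega)] at k5
    have p0 := z k (by omega) (by omega)
    have q0 := z (k + 1) (by omega) (by omega)
    have l1 := lo _ p0
    have l2 := lo _ q0
    simp only [q4_ori] at k5
    obtain ⟨t, t0, t1, t2⟩ : ∃ t : ℝ, 0 ≤ t ∧ t ≤ 1 ∧ (w k).im - (w k).re =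
        t * ((w (k + 1)).re - (w (k + 1)).im + ((w k).im - (w k).re)) :=
      ⟨_ / _, div_nonneg (by linarith) (by linarith), div_le_one_of_le₀ (by linarith) (by linarith),
        (div_mul_cancel₀ _ (by linarith)).symm⟩
    obtain ⟨x, hx⟩ : ∃ x, (w k).re + t * ((w (k + 1)).re - (w k).re) = x := ⟨_, rfl⟩
    have hy : (w k).im + t * ((w (k + 1)).im - (w k).im) = x := by linarith
    have x0 : 0 < x := by
      refine pos_of_mul_pos_left (b := u + v) ?_ (by linarith)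
      have : x * (u + v) = (1 - t) * (u * (w k).re + v * (w k).im) +
          t * (u * (w (k + 1)).re + v * (w (k + 1)).im) := by
        rw [mul_add]; nth_rw 1 [← hx]; rw [← hy]; ring
      rcases t0.eq_or_lt with rfl | t3
      · linarith
      · nlinarith [mul_pos t3 l2, mul_nonneg (sub_nonneg.2 t1) l1.le]
    have x1 : x + x < D := by
      refine lt_of_mul_lt_mul_left (a := (w (k + 1)).re - (w (k + 1)).im + ((w k).im - (w k).re))
        ?_ (by linarith)
      have : x * ((w (k + 1)).re - (w (k + 1)).im + ((w k).im - (w k).re)) =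
          (w k).im * (w (k + 1)).re - (w k).re * (w (k + 1)).im := by
        linear_combination -hx * ((w (k + 1)).re - (w (k + 1)).im + ((w k).im - (w k).re)) -
          t2 * ((w (k + 1)).re - (w k).re)
      nlinarith
    exact (I (M p0 q0 t0 t1 hx hy x0 x0 x1.le le_rfl (.inl x1))).elim

end norm

theorem q4_main (N : ℕ) : 3 ≤ N → q4_T N := by
  induction N using Nat.strong_induction_on with
  | _ N ih =>
  intro N3 w b P ⟨u, v, lo⟩ o r
  rcases N3.eq_or_lt with rfl | N4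
  · refine q4_all P.pv (.ap _ b _ (by simpa using Tz.nb (w := w) (b - 1)) (.nb _) o) ?_ r
    convert Tz.nb (w := w) (b + 1) using 1
    push_cast
    ring
  have e : ∀ p q r : ℂ, ori ⟨-ori p (w b) (w (b + 1)), -ori (w (b - 1)) (w b) p⟩
      ⟨-ori q (w b) (w (b + 1)), -ori (w (b - 1)) (w b) q⟩
      ⟨-ori r (w b) (w (b + 1)), -ori (w (b - 1)) (w b) r⟩ =
      -ori (w (b - 1)) (w b) (w (b + 1)) * ori p q r := fun p q r => by simp only [q4_ori]; ring
  have := q4_norm (b := b) (P.map (neg_pos.2 o).ne' e) N4 (neg_pos.2 o)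
    (Complex.ext (by simp [q4_ori]) (by simp [q4_ori]; ring))
    (Complex.ext (by simp) (by simp [q4_ori])) (Complex.ext (by simp [q4_ori]) (by simp))
    (lo (b - 1) (P.inj _ _ (by omega) (by omega)))
    (lo (b + 1) (P.inj _ _ (by omega) (by omega)).symm)
    (fun j hj => by
      have := mul_pos (neg_pos.2 o) (lo j fun x => hj (by
        rw [x]; exact Complex.ext (by simp [q4_ori]) (by simp [q4_ori]; ring)))
      refine this.trans_eq ?_
      simp only [q4_ori]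
      ring) ih r
  simpa using q4_tr (w' := w) this 0 fun k l m _ _ _ _ c => by
    rw [e] at c
    simpa only [add_zero] using neg_of_mul_neg_right c (neg_pos.2 o).le

theorem Sim.q4_P (S : Sim N w) : q4_P N w := by
  have N3 := S.N3
  have inj : ∀ k l : ℤ, k < l → l < k + N → w k ≠ w l := fun k l h1 h2 e => by
    rcases (show k + 1 ≤ l from h1).eq_or_lt with rfl | c
    · exact S.gp k (k + 1) (k + 2) h1 (by omega) (by omega) (by simp [← e, q4_ori])
    · exact S.gp k (k + 1) l (by omega) c h2 (by simp [← e, q4_ori])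
  refine ⟨S.pv, inj, fun k l m a b c => ?_, fun k l x => ?_⟩
  · obtain ⟨l, _, l1, l2, rfl⟩ := q4_win (N := N) (by omega) k l
    obtain ⟨m, _, m1, m2, rfl⟩ := q4_win (N := N) (by omega) k m
    rw [q4_per S.pv, q4_per S.pv] at *
    have l3 := l1.lt_of_ne fun x => a (congrArg w x)
    have m3 := m1.lt_of_ne fun x => c (congrArg w x)
    rcases lt_or_gt_of_ne (fun x => b (congrArg w x) : l ≠ m) with e | e
    · exact S.gp _ _ _ l3 e m2
    · refine fun x => S.gp _ _ _ m3 e l2 ?_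
      simp only [q4_ori] at *
      linarith
  · obtain ⟨l, _, l1, l2, rfl⟩ := q4_win (N := N) (by omega) k l
    rw [add_right_comm l, q4_per S.pv, q4_per S.pv] at x
    have a := x.ne
    have l3 : l ≠ k := fun e => a.1 (congrArg w e)
    have l4 : l ≠ k + 1 := fun e => a.2.1 (congrArg w e)
    have l5 : l + 1 ≠ k + N := fun e => a.2.2.1 (e ▸ S.pv k)
    rcases S.nx k l (by omega) (by omega) with e | e
    exacts [e.not_gt x.1, e.not_gt x.2]

theorem Sim.tz {n : ℕ} {w : ℤ → ℂ} (S : Sim (n + 1) w) {b : ℤ}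
    (low : ∀ j, ¬((n + 1 : ℕ) : ℤ) ∣ j - b → (w b).im < (w j).im)
    (o : ori (w (b - 1)) (w b) (w (b + 1)) < 0) (i : ℤ) : Tz w i (i + n) := by
  convert q4_main _ S.N3 w b S.q4_P ⟨0, 1, fun j hj => ?_⟩ o i using 1
  · push_cast; ring
  · have := low j fun ⟨c, e⟩ => hj (by
      rw [← q4_per S.pv b c]; exact congrArg w (by linarith))
    linarith

end Pool.Agent.Lib.MP_9dc04a_an
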