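import Pool.Agent.Lib.MP_9dc04a_an.QExt1
import Pool.Agent.Lib.MP_9dc04a_an.QTri

set_option autoImplicit false

namespace Pool.Agent.Lib.MP_9dc04a_an

theorem Sim.ext {N : ℕ} {v : ℤ → ℂ} (S : Sim N v) : ∃ Ed H ψ, Tr N Ed H ∧ Geo N Ed H v ψ :=
  q5_ext (fun _ _ T _ low o i => T.tz low o i) S

end Pool.Agent.Lib.MP_9dc04a_an
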