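import Pool.Agent.Lib.MP_9dc04a_an.QDef

set_option autoImplicit false

namespace Pool.Agent.Lib.MP_9dc04a_an

open Finset Real Polynomial

variable {w : ℤ → ℂ} {E E' : ℤ → ℤ → Prop} {H H' : ℤ → Prop} {ψ ψ' : ℤ → ℤ → ℝ}

lemma q5_ori (p q r : ℂ) :
    ori p q r = (q.re - p.re) * (r.im - p.im) - (q.im - p.im) * (r.re - p.re) := by
  simp [ori]; ring

/-- `u` has lifted direction `x` -/
def q5D (u : ℂ) (x : ℝ) : Prop := ∃ r : ℝ, 0 < r ∧ u = r * ee (-x)

lemma q5_ee (x : ℝ) : (ee (-x)).re = cos x ∧ (ee (-x)).im = sin x := by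
  have : ee (-x) = Complex.exp (x * Complex.I) := by rw [ee]; congr 1; push_cast; ring
  rw [this]; exact ⟨Complex.exp_ofReal_mul_I_re x, Complex.exp_ofReal_mul_I_im x⟩

lemma q5_arg {u : ℂ} (h : u ≠ 0) : q5D u u.arg := ⟨‖u‖, norm_pos_iff.2 h, by
  rw [ee]; push_cast; rw [neg_mul, neg_neg, Complex.norm_mul_exp_arg_mul_I]⟩

lemma q5_rot {u : ℂ} {x : ℝ} (h : q5D u x) (c : ℝ) : q5D (u * ee (-c)) (x + c) := by
  obtain ⟨r, hr, rfl⟩ := h
  exact ⟨r, hr, by rw [neg_add, j1_ee_add, mul_assoc]⟩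

lemma q5_pi (c : ℝ) : ee (c + π) = -ee c ∧ ee (-π) = -1 := by
  have h : ee (-π) = -1 := Complex.ext (by simp [(q5_ee π).1]) (by simp [(q5_ee π).2])
  have h2 := j1_ee_neg π
  rw [h] at h2
  exact ⟨by rw [j1_ee_add]; linear_combination (-ee c) * h2, h⟩

lemma q5_mono {u u' : ℂ} {x x' : ℝ} (h : q5D u x) (h' : q5D u' x')
    (p : 0 < u.re * u'.im - u.im * u'.re) (b : x - π ≤ x') : x ≤ x' := by
  by_contra hc
  have s : sin (x' - x) ≤ 0 := sin_nonpos_of_nonpos_of_neg_pi_le (by linarith) (by linarith)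
  obtain ⟨r, hr, rfl⟩ := h
  obtain ⟨r', hr', rfl⟩ := h'
  simp only [Complex.re_ofReal_mul, Complex.im_ofReal_mul, (q5_ee _).1, (q5_ee _).2] at p
  rw [sin_sub] at s
  nlinarith [mul_nonneg (mul_pos hr hr').le (neg_nonneg.2 s)]

lemma q5_up {u : ℂ} (h : 0 < u.im) : ∃ x, q5D u x ∧ 0 ≤ x ∧ x ≤ π :=
  ⟨u.arg, q5_arg (by rintro rfl; simp at h), Complex.arg_nonneg_iff.2 h.le, Complex.arg_le_pi u⟩

lemma q5_orot (c : ℝ) (p q r : ℂ) : ori (ee c * p) (ee c * q) (ee c * r) = ori p q r := by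
  have h : (ee c).re ^ 2 + (ee c).im ^ 2 = 1 := by
    have := q5_ee (-c)
    rw [neg_neg] at this
    rw [this.1, this.2, cos_sq_add_sin_sq]
  simp only [q5_ori, Complex.mul_re, Complex.mul_im]
  linear_combination ((q.re - p.re) * (r.im - p.im) - (q.im - p.im) * (r.re - p.re)) * h

/-- lifted directions in a clockwise triangle -/
lemma q5_tri {A K B : ℂ} {x : ℝ} (o : ori A K B < 0) (h : q5D (B - A) x) :
    ∃ y z, q5D (K - A) y ∧ q5D (B - K) z ∧ x ≤ y ∧ z ≤ x ∧ y ≤ z + π := by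
  obtain ⟨r, hr, e⟩ := h
  have e1 := j1_ee_neg x
  obtain ⟨q, hq⟩ : ∃ q, q = ee x * K - ee x * A := ⟨_, rfl⟩
  have hB : ee x * B - ee x * A = r := by linear_combination ee x * e + r * e1
  have qi : 0 < q.im := by
    rw [← q5_orot x, ori, ← hq, hB] at o
    simp at o
    exact (pos_iff_pos_of_mul_pos o).2 hr
  obtain ⟨y, d, y0, y1⟩ := q5_up qi
  obtain ⟨z, d', z0, z1⟩ := q5_up (u := q - r) (by simpa using qi)
  have l : y ≤ z := q5_mono d d' (by simp; nlinarith [mul_pos qi hr]) (by linarith)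
  have f1 := q5_rot d x
  have f2 := q5_rot (q5_rot d' (-π)) x
  have g : ee (- -π) = -1 := by rw [neg_neg]; simpa [j1_ee_zero] using (q5_pi 0).1
  refine ⟨y + x, z + -π + x, ?_, ?_, by linarith, by linarith, by linarith⟩
  · rwa [show q * ee (-x) = K - A by rw [hq]; linear_combination (K - A) * e1] at f1
  · rwa [show (q - r) * ee (- -π) * ee (-x) = B - K by
      rw [g, hq, ← hB]; linear_combination (B - K) * e1] at f2

/-- triangulated piece over the interval `[a, p]` -/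
structure q5T (w : ℤ → ℂ) (a p : ℤ) (E : ℤ → ℤ → Prop) (ψ : ℤ → ℤ → ℝ) : Prop where
  rg : ∀ i j, E i j → a ≤ i ∧ i < j ∧ j ≤ p
  nb : ∀ j, a ≤ j → j < p → E j (j + 1)
  nc : ∀ i j k l, E i j → E k l → i < k → k < j → l ≤ j
  ap : ∀ i j, E i j → i + 1 < j → ∃ k, E i k ∧ E k j
  dir : ∀ i j, E i j → q5D (w j - w i) (ψ i j)
  tri : ∀ i k j, E i k → E k j → E i j → ψ i j ≤ ψ i k ∧ ψ k j ≤ ψ i j ∧ ψ i k ≤ ψ k j + π

lemma q5_glue {a k p : ℤ} (T : q5T w a k E ψ) (T' : q5T w k p E' ψ') (ak : a ≤ k) (kp : k ≤ p) :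
    ∃ φ, q5T w a p (fun i j => E i j ∨ E' i j) φ ∧ (∀ i j, E i j → φ i j = ψ i j) ∧
      ∀ i j, E' i j → φ i j = ψ' i j := by
  obtain ⟨φ, h1, h2⟩ : ∃ φ : ℤ → ℤ → ℝ, (∀ i j, E i j → φ i j = ψ i j) ∧
      ∀ i j, E' i j → φ i j = ψ' i j :=
    ⟨fun i j => if j ≤ k then ψ i j else ψ' i j, fun i j e => if_pos (T.rg i j e).2.2,
      fun i j e => if_neg (by have := T'.rg i j e; omega)⟩
  refine ⟨φ, ⟨?_, ?_, ?_, ?_, ?_, ?_⟩, h1, h2⟩
  · rintro i j (e | e)
    · have := T.rg i j e; omega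
    · have := T'.rg i j e; omega
  · intro j a1 a2
    by_cases h : j < k
    · exact Or.inl (T.nb j a1 h)
    · exact Or.inr (T'.nb j (by omega) a2)
  · rintro i j c l (e | e) (f | f) a1 a2
    · exact T.nc i j c l e f a1 a2
    · have := T.rg i j e; have := T'.rg c l f; omega
    · have := T'.rg i j e; have := T.rg c l f; omega
    · exact T'.nc i j c l e f a1 a2
  · rintro i j (e | e) a1
    · obtain ⟨c, f, g⟩ := T.ap i j e a1; exact ⟨c, Or.inl f, Or.inl g⟩
    · obtain ⟨c, f, g⟩ := T'.ap i j e a1; exact ⟨c, Or.inr f, Or.inr g⟩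
  · rintro i j (e | e)
    · rw [h1 i j e]; exact T.dir i j e
    · rw [h2 i j e]; exact T'.dir i j e
  · rintro i c j (e | e) (f | f) (g | g)
    · rw [h1 _ _ e, h1 _ _ f, h1 _ _ g]; exact T.tri i c j e f g
    · have := T.rg _ _ e; have := T.rg _ _ f; have := T'.rg _ _ g; omega
    · have := T.rg _ _ e; have := T'.rg _ _ f; have := T.rg _ _ g; omega
    · have := T.rg _ _ e; have := T'.rg _ _ f; have := T'.rg _ _ g; omega
    · have := T'.rg _ _ e; have := T.rg _ _ f; omega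
    · have := T'.rg _ _ e; have := T.rg _ _ f; omega
    · have := T'.rg _ _ e; have := T'.rg _ _ f; have := T.rg _ _ g; omega
    · rw [h2 _ _ e, h2 _ _ f, h2 _ _ g]; exact T'.tri i c j e f g

/-- one pocket -/
lemma q5_pocket {i j : ℤ} (h : Tz w i j) : ∀ x, q5D (w j - w i) x →
    ∃ E ψ, q5T w i j E ψ ∧ E i j ∧ ψ i j = x := by
  induction h with
  | nb i =>
    intro x d
    refine ⟨fun a b => a = i ∧ b = i + 1, fun _ _ => x, ⟨?_, ?_, ?_, ?_, ?_, ?_⟩, ⟨rfl, rfl⟩, rfl⟩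
    · intro a b e; omega
    · intro a a1 a2; omega
    · intro a b c l e f a1 a2; omega
    · intro a b e a1; omega
    · rintro a b ⟨rfl, rfl⟩; exact d
    · intro a c b e f g; omega
  | ap i k j _ _ o ih ih' =>
    intro x d
    obtain ⟨y, z, d1, d2, l1, l2, l3⟩ := q5_tri o d
    obtain ⟨E, ψ, T, e1, rfl⟩ := ih y d1
    obtain ⟨E', ψ', T', e2, rfl⟩ := ih' z d2
    have ik := (T.rg _ _ e1).2.1
    have kj := (T'.rg _ _ e2).2.1
    obtain ⟨φ, G, h1, h2⟩ := q5_glue T T' ik.le kj.le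
    obtain ⟨χ, g1, g2⟩ : ∃ χ : ℤ → ℤ → ℝ, χ i j = x ∧ ∀ a b, E a b ∨ E' a b → χ a b = φ a b := by
      refine ⟨fun a b => if a = i ∧ b = j then x else φ a b, if_pos ⟨rfl, rfl⟩, ?_⟩
      rintro a b (e | e)
      · exact if_neg (by have := T.rg a b e; omega)
      · exact if_neg (by have := T'.rg a b e; omega)
    have rg : ∀ a b, (E a b ∨ E' a b) ∨ (a = i ∧ b = j) → i ≤ a ∧ a < b ∧ b ≤ j := by
      rintro a b (e | e)
      · exact G.rg a b e
      · omega
    refine ⟨fun a b => (E a b ∨ E' a b) ∨ (a = i ∧ b = j), χ, ⟨rg, ?_, ?_, ?_, ?_, ?_⟩,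
      Or.inr ⟨rfl, rfl⟩, g1⟩
    · exact fun a a1 a2 => Or.inl (G.nb a a1 a2)
    · rintro a b c l (e | e) f a1 a2
      · rcases f with f | f
        · exact G.nc a b c l e f a1 a2
        · have := G.rg a b e; omega
      · have := rg c l f; omega
    · rintro a b (e | ⟨rfl, rfl⟩) a1
      · obtain ⟨c, f, g⟩ := G.ap a b e a1; exact ⟨c, Or.inl f, Or.inl g⟩
      · exact ⟨k, Or.inl (Or.inl e1), Or.inl (Or.inr e2)⟩
    · rintro a b (e | ⟨rfl, rfl⟩)
      · rw [g2 a b e]; exact G.dir a b e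
      · rw [g1]; exact d
    · intro a c b e f g
      have r1 := rg _ _ e
      have r2 := rg _ _ f
      have e' : E a c ∨ E' a c := e.resolve_right (by omega)
      have f' : E c b ∨ E' c b := f.resolve_right (by omega)
      rw [g2 _ _ e', g2 _ _ f']
      rcases g with g | ⟨rfl, rfl⟩
      · rw [g2 _ _ g]; exact G.tri a c b e' f' g
      · have e'' : E a c := e'.resolve_right fun h => by have := T'.rg _ _ h; omega
        have f'' : E' c b := f'.resolve_left fun h => by have := T.rg _ _ h; omega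
        obtain rfl : c = k := by have := T.rg _ _ e''; have := T'.rg _ _ f''; omega
        rw [g1, h1 _ _ e1, h2 _ _ e2]; exact ⟨l1, l2, l3⟩

/-- a chain of pockets over `[a, p]`, lids in `[lo, hi]` -/
structure q5S (w : ℤ → ℂ) (a p : ℤ) (E : ℤ → ℤ → Prop) (H : ℤ → Prop) (ψ : ℤ → ℤ → ℝ) (lo hi : ℝ) :
    Prop where
  T : q5T w a p E ψ
  hr : ∀ h, H h → a ≤ h ∧ h ≤ p
  ha : H a
  hp : H p
  hv : ∀ i j h, E i j → i < h → h < j → ¬H h
  lid : ∀ i j, Con H i j → E i j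
  hull : ∀ i k j, Con H i k → Con H k j → ψ i k ≤ ψ k j
  bd : ∀ i j, Con H i j → lo ≤ ψ i j ∧ ψ i j ≤ hi

lemma q5_one {i j : ℤ} (h : Tz w i j) {x lo hi : ℝ} (d : q5D (w j - w i) x) (l1 : lo ≤ x) (l2 : x ≤ hi) :
    ∃ E H ψ, q5S w i j E H ψ lo hi ∧ Con H i j := by
  obtain ⟨E, ψ, T, e, rfl⟩ := q5_pocket h x d
  have ij := (T.rg _ _ e).2.1
  have c : ∀ a b, Con (fun h => h = i ∨ h = j) a b → a = i ∧ b = j := by
    rintro a b ⟨a1, a2, a3, -⟩; omega
  refine ⟨E, fun h => h = i ∨ h = j, ψ, ⟨T, ?_, Or.inl rfl, Or.inr rfl, ?_, ?_, ?_, ?_⟩, ij, Or.inl rfl,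
    Or.inr rfl, ?_⟩
  · intro h a; omega
  · intro a b h f a1 a2 a3; have := T.rg a b f; omega
  · intro a b f; obtain ⟨rfl, rfl⟩ := c a b f; exact e
  · intro a k b f g; have := c _ _ f; have := c _ _ g; omega
  · intro a b f; obtain ⟨rfl, rfl⟩ := c a b f; exact ⟨l1, l2⟩
  · intro h a1 a2 a3; omega

lemma q5_cat {a k p : ℤ} {lo hi : ℝ} (S : q5S w a k E H ψ lo hi) (S' : q5S w k p E' H' ψ' lo hi)
    (hk : ∀ i j, Con H i k → Con H' k j → ψ i k ≤ ψ' k j) :
    ∃ E₂ H₂ φ, q5S w a p E₂ H₂ φ lo hi ∧ ∀ i j, Con H i j → Con H₂ i j := by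
  have ak := (S.hr k S.hp).1
  have kp := (S'.hr k S'.ha).2
  obtain ⟨φ, G, h1, h2⟩ := q5_glue S.T S'.T ak kp
  have c : ∀ i j, Con (fun h => H h ∨ H' h) i j → Con H i j ∨ Con H' i j := by
    intro i j f
    have ij := f.1
    by_cases h : j ≤ k
    · refine Or.inl ⟨ij, f.2.1.resolve_right fun g => by have := S'.hr i g; omega, ?_,
        fun x a1 a2 g => f.2.2.2 x a1 a2 (Or.inl g)⟩
      rcases f.2.2.1 with g | g
      · exact g
      · obtain rfl : j = k := by have := S'.hr j g; omega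
        exact S.hp
    · have ki : k ≤ i := f.ge (Or.inl S.hp) (by omega)
      refine Or.inr ⟨ij, ?_, f.2.2.1.resolve_left fun g => by have := S.hr j g; omega,
        fun x a1 a2 g => f.2.2.2 x a1 a2 (Or.inr g)⟩
      rcases f.2.1 with g | g
      · obtain rfl : i = k := by have := S.hr i g; omega
        exact S'.ha
      · exact g
  refine ⟨_, fun h => H h ∨ H' h, φ, ⟨G, ?_, Or.inl S.ha, Or.inr S'.hp, ?_, ?_, ?_, ?_⟩, ?_⟩
  · rintro h (g | g)
    · have := S.hr h g; omega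
    · have := S'.hr h g; omega
  · rintro i j h (e | e) a1 a2 (g | g)
    · exact S.hv i j h e a1 a2 g
    · have := S.T.rg i j e; have := S'.hr h g; omega
    · have := S'.T.rg i j e; have := S.hr h g; omega
    · exact S'.hv i j h e a1 a2 g
  · intro i j f
    exact (c i j f).imp (S.lid i j) (S'.lid i j)
  · intro i m j f g
    rcases c i m f with f | f <;> rcases c m j g with g | g
    · rw [h1 _ _ (S.lid _ _ f), h1 _ _ (S.lid _ _ g)]; exact S.hull i m j f g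
    · obtain rfl : m = k := by have := S.hr m f.2.2.1; have := S'.hr m g.2.1; omega
      rw [h1 _ _ (S.lid _ _ f), h2 _ _ (S'.lid _ _ g)]; exact hk i j f g
    · have := S'.hr i f.2.1; have := S.hr m g.2.1; have := f.1; omega
    · rw [h2 _ _ (S'.lid _ _ f), h2 _ _ (S'.lid _ _ g)]; exact S'.hull i m j f g
  · intro i j f
    rcases c i j f with f | f
    · rw [h1 _ _ (S.lid _ _ f)]; exact S.bd i j f
    · rw [h2 _ _ (S'.lid _ _ f)]; exact S'.bd i j f
  · intro i j f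
    refine ⟨f.1, Or.inl f.2.1, Or.inl f.2.2.1, ?_⟩
    rintro x a1 a2 (g | g)
    · exact f.2.2.2 x a1 a2 g
    · have := S'.hr x g; have := S.hr j f.2.2.1; omega

lemma q5_turn {v : ℤ → ℂ} {a p : ℤ} {c lo hi : ℝ} (S : q5S (fun j => ee c * v j) a p E H ψ 0 π)
    (l1 : lo ≤ c) (l2 : c + π ≤ hi) : q5S v a p E H (fun i j => ψ i j + c) lo hi := by
  refine ⟨⟨S.T.rg, S.T.nb, S.T.nc, S.T.ap, fun i j e => ?_, fun i k j e f g => ?_⟩, S.hr, S.ha, S.hp,
    S.hv, S.lid, fun i k j f g => ?_, fun i j f => ?_⟩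
  · have := q5_rot (S.T.dir i j e) c
    rwa [show (ee c * v j - ee c * v i) * ee (-c) = v j - v i by
      linear_combination (v j - v i) * j1_ee_neg c] at this
  · obtain ⟨a1, a2, a3⟩ := S.T.tri i k j e f g
    exact ⟨by linarith, by linarith, by linarith⟩
  · linarith [S.hull i k j f g]
  · obtain ⟨a1, a2⟩ := S.bd i j f
    exact ⟨by linarith, by linarith⟩

/-- convex ascending chain from `a` to `p` with first step `a → k` -/
inductive q5C (w : ℤ → ℂ) (p : ℤ) : ℤ → ℤ → Prop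
  | last (a : ℤ) : Tz w a p → (w a).im < (w p).im → q5C w p a p
  | cons (a k l : ℤ) : Tz w a k → (w a).im < (w k).im → q5C w p k l → 0 < ori (w a) (w k) (w l) →
      q5C w p a k

lemma q5_strip {p a k : ℤ} (h : q5C w p a k) : ∃ E H ψ, q5S w a p E H ψ 0 π ∧ Con H a k := by
  induction h with
  | last a t l =>
    obtain ⟨x, d, x0, x1⟩ := q5_up (u := w p - w a) (by simpa using l)
    exact q5_one t d x0 x1
  | cons a k l t m _ o ih =>
    obtain ⟨x, d, x0, x1⟩ := q5_up (u := w k - w a) (by simpa using m)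
    obtain ⟨E, H, ψ, S, c⟩ := q5_one t d x0 x1
    obtain ⟨E', H', ψ', S', c'⟩ := ih
    obtain ⟨E₂, H₂, φ, G, g⟩ := q5_cat S S' fun i j f f' => by
      obtain rfl := f.uniq' c
      obtain rfl := f'.uniq c'
      refine q5_mono (S.T.dir _ _ (S.lid _ _ c)) (S'.T.dir _ _ (S'.lid _ _ c')) ?_
        (by linarith [(S.bd _ _ c).2, (S'.bd _ _ c').1])
      rw [q5_ori] at o
      simp only [Complex.sub_re, Complex.sub_im]
      linarith
    exact ⟨E₂, H₂, φ, G, g _ _ c⟩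

lemma q5_lt {i j : ℤ} (h : Tz w i j) : i < j := by
  induction h with
  | nb i => omega
  | ap i k j _ _ _ a1 a2 => omega

lemma q5C.rg {p a k : ℤ} (h : q5C w p a k) : a < k ∧ k ≤ p := by
  induction h with
  | last a t l => exact ⟨q5_lt t, le_rfl⟩
  | cons a k l t m _ o ih => exact ⟨q5_lt t, by omega⟩

lemma q5_push {b p k l : ℤ} (gp : ∀ i j k, b ≤ i → i < j → j < k → k ≤ p → ori (w i) (w j) (w k) ≠ 0)
    (h : q5C w p k l) : ∀ a, b ≤ a → Tz w a k → (w a).im < (w k).im → ∃ m, q5C w p a m := by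
  induction h with
  | last k t m =>
    intro a ba s n
    rcases (gp a k p ba (q5_lt s) (q5_lt t) le_rfl).lt_or_gt with o | o
    · exact ⟨p, .last a (.ap a k p s t o) (n.trans m)⟩
    · exact ⟨k, .cons a k p s n (.last k t m) o⟩
  | cons k l l' t m c o' ih =>
    intro a ba s n
    rcases (gp a k l ba (q5_lt s) (q5_lt t) (by have := c.rg; omega)).lt_or_gt with o | o
    · exact ih a ba (.ap a k l s t o) (n.trans m)
    · exact ⟨k, .cons a k l s n (.cons k l l' t m c o') o⟩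

lemma q5_cong {w' : ℤ → ℂ} {i j : ℤ} (h : Tz w i j) :
    (∀ x, i ≤ x → x ≤ j → w x = w' x) → Tz w' i j := by
  induction h with
  | nb i => exact fun _ => .nb i
  | ap i k j s t o ih ih' =>
    intro e
    have := q5_lt s
    have := q5_lt t
    refine .ap i k j (ih fun x a1 a2 => e x a1 (by omega)) (ih' fun x a1 a2 => e x (by omega) a2) ?_
    rwa [← e i le_rfl (by omega), ← e k (by omega) (by omega), ← e j (by omega) le_rfl]

/-- the fan at the far point `R (p + 1)` -/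
lemma q5_fan {R : ℤ → ℂ} {b p : ℤ} (e : ∀ x, b ≤ x → x ≤ p → R x = w x)
    (gp : ∀ i j k, b ≤ i → i < j → j < k → k ≤ p → ori (w i) (w j) (w k) ≠ 0)
    (far : ∀ i j, b ≤ i → i < j → j ≤ p → ori (w i) (w j) (R (p + 1)) < 0 → (w i).im < (w j).im)
    {a q : ℤ} (h : Tz R a q) : q = p + 1 → b ≤ a → a = p ∨ ∃ m, q5C w p a m := by
  induction h with
  | nb i => intro a1 _; left; omega
  | ap i k j s t o _ ih' =>
    rintro rfl bi
    have ik := q5_lt s
    have kj := q5_lt t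
    have s' : Tz w i k := q5_cong s fun x a1 a2 => e x (by omega) (by omega)
    rw [e i bi (by omega), e k (by omega) (by omega)] at o
    have n := far i k bi ik (by omega) o
    right
    rcases ih' rfl (by omega) with rfl | ⟨m, c⟩
    · exact ⟨k, .last i s' n⟩
    · exact q5_push gp c i bi s' n

end Pool.Agent.Lib.MP_9dc04a_an
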