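import Pool.Agent.Lib.MP_9dc04a_an.QExt0

set_option autoImplicit false

namespace Pool.Agent.Lib.MP_9dc04a_an

open Finset Real Polynomial

variable {N : ℕ} {w : ℤ → ℂ} {E : ℤ → ℤ → Prop} {H : ℤ → Prop} {ψ : ℤ → ℤ → ℝ}

/-- the statement of `Sim.tz` -/
def q5Tz : Prop := ∀ (n : ℕ) (w : ℤ → ℂ), Sim (n + 1) w → ∀ b : ℤ,
  (∀ j, ¬((n + 1 : ℕ) : ℤ) ∣ j - b → (w b).im < (w j).im) →
  ori (w (b - 1)) (w b) (w (b + 1)) < 0 → ∀ i : ℤ, Tz w i (i + n)

lemma q5_far (w : ℤ → ℂ) (b p : ℤ) : ∃ F : ℂ, F.im = (w p).im ∧ ∀ x y, b ≤ x → x ≤ p → b ≤ y → y ≤ p →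
    (w x).im < (w y).im → ori (w x) (w y) F < 0 := by
  have h : ∀ᶠ X : ℝ in Filter.atTop, ∀ z ∈ Icc b p ×ˢ Icc b p,
      (w z.1).im < (w z.2).im → ori (w z.1) (w z.2) ⟨X, (w p).im⟩ < 0 := by
    rw [Filter.eventually_all_finset]
    intro z _
    by_cases l : (w z.1).im < (w z.2).im
    · filter_upwards [Filter.eventually_gt_atTop ((w z.1).re + ((w z.2).re - (w z.1).re) *
        ((w p).im - (w z.1).im) / ((w z.2).im - (w z.1).im))] with X hX _
      rw [← lt_sub_iff_add_lt', div_lt_iff₀ (sub_pos.2 l)] at hX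
      rw [q5_ori]; linarith
    · exact Filter.Eventually.of_forall fun X h => absurd h l
  obtain ⟨X, hX⟩ := h.exists
  exact ⟨⟨X, (w p).im⟩, rfl, fun x y a1 a2 a3 a4 =>
    hX (x, y) (mem_product.2 ⟨mem_Icc.2 ⟨a1, a2⟩, mem_Icc.2 ⟨a3, a4⟩⟩)⟩

lemma q5_perm (p q r : ℂ) : ori q r p = ori p q r ∧ ori q p r = -ori p q r ∧ ori p r q = -ori p q r := by
  simp only [q5_ori]; exact ⟨by ring, by ring, by ring⟩

/-- a polygon given on one window -/
lemma q5_sim {n : ℕ} {R : ℤ → ℂ} {b : ℤ} (n2 : 2 ≤ n) (pv : ∀ j, R (j + (n + 1 : ℕ)) = R j)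
    (gp : ∀ i j k, b ≤ i → i < j → j < k → k ≤ b + n → ori (R i) (R j) (R k) ≠ 0)
    (nx : ∀ i j, b ≤ i → i + 1 < j → j ≤ b + n → j + 1 < i + (n + 1) →
      0 < ori (R i) (R (i + 1)) (R j) * ori (R i) (R (i + 1)) (R (j + 1)) ∨
      0 < ori (R j) (R (j + 1)) (R i) * ori (R j) (R (j + 1)) (R (i + 1))) : Sim (n + 1) R := by
  have pv' : ∀ j k : ℤ, k = j + (n + 1) → R k = R j := by
    rintro j k rfl; simpa using pv j
  refine ⟨by omega, pv, fun i j k a1 a2 a3 => ?_, fun i j a1 a2 => ?_⟩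
  · obtain ⟨m, b1, b2⟩ := ex_win (N := n + 1) (by omega) i b
    rw [← per_mul pv m i, ← per_mul pv m j, ← per_mul pv m k]
    generalize ((n + 1 : ℕ) : ℤ) * m = s at *
    push_cast at a3 b2
    by_cases c1 : k + s ≤ b + n
    · exact gp _ _ _ b1 (by omega) (by omega) c1
    rw [pv' (k + s - (n + 1)) (k + s) (by ring)]
    by_cases c2 : j + s ≤ b + n
    · rw [(q5_perm _ _ _).1]; exact gp _ _ _ (by omega) (by omega) (by omega) c2
    · rw [pv' (j + s - (n + 1)) (j + s) (by ring), ← (q5_perm _ _ _).1]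
      exact gp _ _ _ (by omega) (by omega) (by omega) (by omega)
  · obtain ⟨m, b1, b2⟩ := ex_win (N := n + 1) (by omega) i b
    rw [← per_mul pv m i, ← per_mul pv m j, ← per_mul pv m (i + 1), ← per_mul pv m (j + 1),
      add_right_comm i, add_right_comm j]
    generalize ((n + 1 : ℕ) : ℤ) * m = s at *
    push_cast at a2 b2
    by_cases c1 : j + s ≤ b + n
    · exact nx _ _ b1 (by omega) c1 (by omega)
    · rw [pv' (j + s - (n + 1)) (j + s) (by ring), pv' (j + s - (n + 1) + 1) (j + s + 1) (by ring)]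
      exact (nx _ _ (by omega) (by omega) (by omega) (by omega)).symm

/-- the right half of the exterior -/
lemma q5_half (tz : q5Tz) (S : Sim N w) {b p : ℤ} (bp : b < p) (pb : p < b + N)
    (inj : ∀ i j : ℤ, i < j → j < i + N → (w i).im ≠ (w j).im) (lo : ∀ j, (w b).im ≤ (w j).im)
    (hi : ∀ j, (w j).im ≤ (w p).im) : ∃ E H ψ, q5S w b p E H ψ 0 π := by
  obtain ⟨F, Fi, hF⟩ := q5_far w b p
  obtain ⟨n, hn⟩ : ∃ n : ℕ, (n : ℤ) = p - b + 1 := ⟨(p - b + 1).toNat, by omega⟩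
  have lo' : ∀ j, b < j → j ≤ p → (w b).im < (w j).im :=
    fun j a1 a2 => (lo j).lt_of_ne (inj b j a1 (by omega))
  have hi' : ∀ j, b ≤ j → j < p → (w j).im < (w p).im :=
    fun j a1 a2 => (hi j).lt_of_ne (inj j p a2 (by omega))
  obtain ⟨R, pv, e, eF⟩ : ∃ R : ℤ → ℂ, (∀ j, R (j + (n + 1 : ℕ)) = R j) ∧
      (∀ x, b ≤ x → x ≤ p → R x = w x) ∧ R (p + 1) = F := by
    refine ⟨fun j => if (j - b) % (n + 1 : ℕ) = n then F else w (b + (j - b) % (n + 1 : ℕ)),
      fun j => ?_, fun x a1 a2 => ?_, ?_⟩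
    · simp only [add_sub_right_comm j, Int.add_emod_right]
    · have : (x - b) % (n + 1 : ℕ) = x - b := Int.emod_eq_of_lt (by omega) (by push_cast; omega)
      simp only [this]
      rw [if_neg (by omega), add_sub_cancel]
    · have : (p + 1 - b) % (n + 1 : ℕ) = n := by
        rw [Int.emod_eq_of_lt (by omega) (by push_cast; omega)]; omega
      simp only [this, if_true]
  have pv' : ∀ j k : ℤ, k = j + (n + 1) → R k = R j := by
    rintro j k rfl; simpa using pv j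
  have gp : ∀ i j k, b ≤ i → i < j → j < k → k ≤ p → ori (w i) (w j) (w k) ≠ 0 :=
    fun i j k a1 a2 a3 a4 => S.gp i j k a2 a3 (by omega)
  have far : ∀ i j, b ≤ i → i < j → j ≤ p → (w j).im < (w i).im ∧ 0 < ori (w i) (w j) F ∨
      (w i).im < (w j).im ∧ ori (w i) (w j) F < 0 := by
    intro i j a1 a2 a3
    rcases (inj i j a2 (by omega)).lt_or_gt with l | l
    · exact Or.inr ⟨l, hF i j a1 (by omega) (by omega) a3 l⟩
    · have := hF j i (by omega) a3 a1 (by omega) l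
      rw [(q5_perm _ _ _).2.1] at this
      exact Or.inl ⟨l, by linarith⟩
  have SR : Sim (n + 1) R := by
    refine q5_sim (b := b) (by omega) pv (fun i j k a1 a2 a3 a4 => ?_) fun i j a1 a2 a3 a4 => ?_
    · rw [e i a1 (by omega), e j (by omega) (by omega)]
      by_cases c : k ≤ p
      · rw [e k (by omega) c]; exact gp i j k a1 a2 a3 c
      · obtain rfl : k = p + 1 := by omega
        rw [eF]
        rcases far i j a1 a2 (by omega) with h | h
        exacts [h.2.ne', h.2.ne]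
    · rw [e i a1 (by omega), e (i + 1) (by omega) (by omega)]
      rcases lt_trichotomy j p with c | rfl | c
      · rw [e j (by omega) c.le, e (j + 1) (by omega) c]; exact S.nx i j a2 (by omega)
      · right
        rw [e j bp.le le_rfl, eF, (q5_perm _ _ _).1, (q5_perm (w (i + 1)) _ _).1]
        exact mul_pos_of_neg_of_neg (hF _ _ a1 (by omega) bp.le le_rfl (hi' i a1 (by omega)))
          (hF _ _ (by omega) (by omega) bp.le le_rfl (hi' _ (by omega) (by omega)))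
      · obtain rfl : j = p + 1 := by omega
        right
        rw [pv' b (p + 1 + 1) (by omega), e b le_rfl bp.le, eF, ← (q5_perm F _ _).1,
          ← (q5_perm F _ (w (i + 1))).1]
        exact mul_pos_of_neg_of_neg (hF _ _ le_rfl bp.le a1 (by omega) (lo' i (by omega) (by omega)))
          (hF _ _ le_rfl bp.le (by omega) (by omega) (lo' _ (by omega) (by omega)))
  have t := tz n R SR b (fun j hj => by
    obtain ⟨m, b1, b2⟩ := ex_win (N := n + 1) (by omega) j b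
    have ne : j + (n + 1 : ℕ) * m ≠ b := fun h => hj ⟨-m, by linarith⟩
    rw [← per_mul pv m j, e b le_rfl bp.le]
    generalize j + ((n + 1 : ℕ) : ℤ) * m = s at *
    push_cast at b2
    by_cases c : s ≤ p
    · rw [e s b1 c]; exact lo' s (by omega) c
    · obtain rfl : s = p + 1 := by omega
      rw [eF, Fi]; exact lo' p bp le_rfl) (by
    rw [← pv' (b - 1) (p + 1) (by omega), eF, e b le_rfl bp.le, e (b + 1) (by omega) bp,
      ← (q5_perm F _ _).1]
    exact hF _ _ le_rfl bp.le (by omega) bp (lo' _ (by omega) bp)) b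
  rcases q5_fan e gp (fun i j a1 a2 a3 o => by
    rw [eF] at o
    rcases far i j a1 a2 a3 with h | h
    exacts [absurd h.2 o.le.not_gt, h.1]) t (by omega) le_rfl with h | ⟨m, c⟩
  · omega
  · obtain ⟨E, H, ψ, G, -⟩ := q5_strip c
    exact ⟨E, H, ψ, G⟩

lemma q5_win (hN : 0 < N) {m m' x y b : ℤ} (a1 : b + N * m ≤ x) (a2 : x < b + N * m' + N)
    (a3 : b + N * m' ≤ y) (a4 : y < b + N * m + N) : m = m' := by
  have p : (0 : ℤ) < N := by exact_mod_cast hN
  have h1 : m < m' + 1 := lt_of_mul_lt_mul_left (a := (N : ℤ)) (by linarith) p.le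
  have h2 : m' < m + 1 := lt_of_mul_lt_mul_left (a := (N : ℤ)) (by linarith) p.le
  omega

/-- periodic extension of one period -/
lemma q5_per (hN : 0 < N) (pv : ∀ j, w (j + N) = w j) {b : ℤ} {c : ℝ}
    (S : q5S w b (b + N) E H ψ c (c + 2 * π)) : ∃ Ed H ψ, Tr N Ed H ∧ Geo N Ed H w ψ := by
  have p : (0 : ℤ) < N := by exact_mod_cast hN
  obtain ⟨φ, hφ⟩ : ∃ φ : ℤ → ℤ → ℝ, ∀ i j m, E (i - N * m) (j - N * m) →
      φ i j = ψ (i - N * m) (j - N * m) + 2 * π * m := by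
    refine ⟨fun i j => ψ (i - N * ((i - b) / N)) (j - N * ((i - b) / N)) + 2 * π * ((i - b) / N : ℤ),
      fun i j m e => ?_⟩
    obtain ⟨r1, r2, r3⟩ := S.T.rg _ _ e
    obtain rfl : m = (i - b) / N := q5_win (x := i) (y := i) (b := b) hN (by linarith)
      (by linarith [Int.emod_lt_of_pos (i - b) p, Int.emod_add_mul_ediv (i - b) N])
      (by linarith [Int.emod_nonneg (i - b) p.ne', Int.emod_add_mul_ediv (i - b) N]) (by linarith)
    rfl
  have hH : ∀ x m, (∃ m', H (x - N * m')) → b + N * m ≤ x → x ≤ b + N * m + N → H (x - N * m) := by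
    rintro x m ⟨m', h⟩ a1 a2
    obtain ⟨r1, r2⟩ := S.hr _ h
    rcases a1.eq_or_lt with rfl | a1
    · simpa using S.ha
    rcases a2.eq_or_lt with rfl | a2
    · rw [show b + N * m + N - N * m = b + N by ring]; exact S.hp
    obtain rfl : m = m' := q5_win (x := x - 1) (y := x) (b := b) hN (by linarith) (by linarith)
      (by linarith) a2
    exact h
  have hC : ∀ i j, Con (fun x => ∃ m, H (x - N * m)) i j → ∃ m, Con H (i - N * m) (j - N * m) := by
    intro i j f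
    obtain ⟨m, b1, b2⟩ := ex_win hN i b
    have l : j ≤ b + N * (-m) + N := f.le ⟨-m, by
      rw [show b + N * -m + N - N * -m = b + N by ring]; exact S.hp⟩ (by linarith)
    refine ⟨-m, by linarith [f.1], hH _ _ f.2.1 (by linarith) (by linarith),
      hH _ _ f.2.2.1 (by linarith [f.1]) l, fun x a1 a2 g => ?_⟩
    exact f.2.2.2 (x + N * -m) (by linarith) (by linarith) ⟨-m, by simpa using g⟩
  have sh : ∀ i m : ℤ, i + N - N * (m + 1) = i - N * m := fun i m => by ring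
  have sh' : ∀ i m : ℤ, i - N * (m - 1) = i + N - N * m := fun i m => by ring
  refine ⟨fun i j => ∃ m, E (i - N * m) (j - N * m), fun x => ∃ m, H (x - N * m), φ,
    ⟨hN, ?_, ?_, ?_, ?_, ?_, ?_, ?_, ?_, ⟨b, 0, by simpa using S.ha⟩⟩, ⟨?_, ?_, ?_, ?_⟩⟩
  · rintro i j ⟨m, e⟩; linarith [(S.T.rg _ _ e).2.1]
  · intro i j
    exact propext ⟨fun ⟨m, e⟩ => ⟨m - 1, by rwa [sh', sh']⟩, fun ⟨m, e⟩ => ⟨m + 1, by rwa [sh, sh]⟩⟩
  · intro j
    exact propext ⟨fun ⟨m, e⟩ => ⟨m - 1, by rwa [sh']⟩, fun ⟨m, e⟩ => ⟨m + 1, by rwa [sh]⟩⟩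
  · intro j
    obtain ⟨m, b1, b2⟩ := ex_win hN j b
    refine ⟨-m, ?_⟩
    rw [add_sub_right_comm]
    exact S.T.nb _ (by linarith) (by linarith)
  · rintro i j k l ⟨m, e⟩ ⟨m', f⟩ a1 a2
    obtain ⟨r1, r2, r3⟩ := S.T.rg _ _ e
    obtain ⟨s1, s2, s3⟩ := S.T.rg _ _ f
    obtain rfl : m = m' := q5_win (x := k) (y := k) (b := b) hN (by linarith) (by linarith)
      (by linarith) (by linarith)
    linarith [S.T.nc _ _ _ _ e f (by linarith) (by linarith)]
  · rintro i j ⟨m, e⟩ a1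
    obtain ⟨k, f, g⟩ := S.T.ap _ _ e (by linarith)
    exact ⟨k + N * m, ⟨m, by rwa [add_sub_cancel_right]⟩, ⟨m, by rwa [add_sub_cancel_right]⟩⟩
  · rintro i j h ⟨m, e⟩ a1 a2 g
    obtain ⟨r1, r2, r3⟩ := S.T.rg _ _ e
    exact S.hv _ _ (h - N * m) e (by linarith) (by linarith) (hH h m g (by linarith) (by linarith))
  · intro i j f
    obtain ⟨m, g⟩ := hC i j f
    exact ⟨m, S.lid _ _ g⟩
  · rintro i j ⟨m, e⟩
    obtain ⟨r, hr, d⟩ := S.T.dir _ _ e
    refine ⟨r, hr, ?_⟩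
    rw [hφ i j m e, ← per_mul pv (-m) i, ← per_mul pv (-m) j, ← j1_ee_per _ m, mul_neg,
      ← sub_eq_add_neg, ← sub_eq_add_neg, d]
    congr 2; ring
  · rintro i j ⟨m, e⟩
    rw [hφ i j m e, hφ (i + N) (j + N) (m + 1) (by rwa [sh, sh]), sh, sh]
    push_cast; ring
  · rintro i k j ⟨m1, e⟩ ⟨m2, f⟩ ⟨m, g⟩
    obtain ⟨r1, r2, r3⟩ := S.T.rg _ _ e
    obtain ⟨s1, s2, s3⟩ := S.T.rg _ _ f
    obtain ⟨t1, t2, t3⟩ := S.T.rg _ _ g
    obtain rfl : m = m1 := q5_win (x := i) (y := i) (b := b) hN (by linarith) (by linarith)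
      (by linarith) (by linarith)
    obtain rfl : m = m2 := q5_win (x := k) (y := k) (b := b) hN (by linarith) (by linarith)
      (by linarith) (by linarith)
    obtain ⟨a1, a2, a3⟩ := S.T.tri _ _ _ e f g
    rw [hφ _ _ m e, hφ _ _ m f, hφ _ _ m g]
    exact ⟨by linarith, by linarith, by linarith⟩
  · intro i k j f g
    obtain ⟨m, f'⟩ := hC i k f
    obtain ⟨m', g'⟩ := hC k j g
    rw [hφ _ _ m (S.lid _ _ f'), hφ _ _ m' (S.lid _ _ g')]
    obtain ⟨r1, r2, r3⟩ := S.T.rg _ _ (S.lid _ _ f')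
    obtain ⟨s1, s2, s3⟩ := S.T.rg _ _ (S.lid _ _ g')
    rcases r3.eq_or_lt with r3 | r3
    · obtain rfl : m + 1 = m' := q5_win (x := k) (y := k) (b := b) hN (by linarith) (by linarith)
        (by linarith) (by linarith)
      push_cast
      linarith [(S.bd _ _ f').2, (S.bd _ _ g').1]
    · obtain rfl : m = m' := q5_win (x := k) (y := k) (b := b) hN (by linarith) (by linarith)
        (by linarith) (by linarith)
      linarith [S.hull _ _ _ f' g']

lemma q5_rsim (S : Sim N w) (c : ℝ) : Sim N fun j => ee c * w j :=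
  ⟨S.N3, fun j => by rw [S.pv], fun i j k a1 a2 a3 => by rw [q5_orot]; exact S.gp i j k a1 a2 a3,
    fun i j a1 a2 => by simp only [q5_orot]; exact S.nx i j a1 a2⟩

lemma q5_ne (S : Sim N w) {i j : ℤ} (a1 : i < j) (a2 : j < i + N) : w j - w i ≠ 0 := by
  intro h
  have N3 : (3 : ℤ) ≤ N := by exact_mod_cast S.N3
  by_cases c : j + 1 < i + N
  · exact S.gp i j (j + 1) a1 (by omega) c (by simp [ori, h])
  · exact S.gp i (i + 1) j (by omega) (by omega) a2 (by simp [ori, h])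

/-- a direction in which all heights differ -/
lemma q5_gen (S : Sim N w) : ∃ c : ℝ, ∀ i j : ℤ, i < j → j < i + N →
    (ee c * w i).im ≠ (ee c * w j).im := by
  have N0 : 0 < N := by have := S.N3; omega
  obtain ⟨s, hs⟩ := Infinite.exists_notMem_finset ((Ico (0 : ℤ) N ×ˢ Ico (0 : ℤ) (N + N)).image
    fun z => -(w z.2 - w z.1).im / (w z.2 - w z.1).re)
  obtain ⟨r, hr, d⟩ := q5_arg (u := ⟨1, s⟩) (fun h => by simpa using congrArg Complex.re h)
  refine ⟨-Complex.arg ⟨1, s⟩, fun i j a1 a2 h => ?_⟩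
  obtain ⟨m, b1, b2⟩ := ex_win N0 i 0
  rw [← per_mul S.pv m i, ← per_mul S.pv m j] at h
  have ne := q5_ne S (i := i + N * m) (j := j + N * m) (by linarith) (by linarith)
  have z : ((⟨1, s⟩ : ℂ) * (w (j + N * m) - w (i + N * m))).im = 0 := by
    rw [d, mul_assoc, Complex.im_ofReal_mul, mul_sub, Complex.sub_im, h, sub_self, mul_zero]
  refine hs (mem_image.2 ⟨(i + N * m, j + N * m), mem_product.2 ⟨mem_Ico.2 ⟨b1, by linarith⟩,
    mem_Ico.2 ⟨by linarith, by linarith⟩⟩, ?_⟩)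
  generalize w (j + N * m) - w (i + N * m) = u at ne z ⊢
  rw [Complex.mul_im] at z
  have : u.re ≠ 0 := fun h0 => ne (Complex.ext h0 (by simpa [h0] using z))
  rw [div_eq_iff this]
  simp only [one_mul] at z
  linarith

lemma q5_min (hN : 0 < N) {f : ℤ → ℝ} (pf : ∀ j, f (j + N) = f j) (a : ℤ) :
    ∃ b, a ≤ b ∧ b < a + N ∧ ∀ j, f b ≤ f j := by
  have p : (0 : ℤ) < N := by exact_mod_cast hN
  obtain ⟨b, hb, h⟩ := exists_min_image (Ico a (a + N)) f ⟨a, mem_Ico.2 ⟨le_rfl, by linarith⟩⟩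
  refine ⟨b, (mem_Ico.1 hb).1, (mem_Ico.1 hb).2, fun j => ?_⟩
  obtain ⟨m, b1, b2⟩ := ex_win hN j a
  rw [← per_mul pf m j]
  exact h _ (mem_Ico.2 ⟨b1, b2⟩)

theorem q5_ext (tz : q5Tz) {v : ℤ → ℂ} (S : Sim N v) : ∃ Ed H ψ, Tr N Ed H ∧ Geo N Ed H v ψ := by
  have N3 : (3 : ℤ) ≤ N := by exact_mod_cast S.N3
  have N0 : 0 < N := by have := S.N3; omega
  obtain ⟨c, inj⟩ := q5_gen S
  obtain ⟨b, -, -, lo⟩ := q5_min N0 (f := fun j => (ee c * v j).im) (fun j => by rw [S.pv]) 0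
  obtain ⟨p, bp, pb, hi⟩ := q5_min N0 (f := fun j => -(ee c * v j).im) (fun j => by rw [S.pv]) b
  have bp' : b < p := bp.lt_of_ne fun h => inj b (b + 1) (by omega) (by omega)
    (le_antisymm (lo _) (by have := hi (b + 1); rw [← h] at this; linarith))
  have ng : ∀ j, (ee (c + π) * v j).im = -(ee c * v j).im := fun j => by
    rw [(q5_pi c).1, neg_mul, Complex.neg_im]
  obtain ⟨E, H, ψ, G⟩ := q5_half tz (q5_rsim S c) bp' pb inj lo fun j => neg_le_neg_iff.1 (hi j)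
  obtain ⟨E', H', ψ', G'⟩ := q5_half tz (q5_rsim S (c + π)) pb (b := p) (by omega)
    (fun i j a1 a2 => by rw [ng, ng]; exact fun h => inj i j a1 a2 (neg_inj.1 h))
    (fun j => by rw [ng, ng]; exact hi j) fun j => by rw [ng, ng, S.pv]; exact neg_le_neg (lo j)
  obtain ⟨E₂, H₂, φ, G₂, -⟩ := q5_cat (q5_turn G (lo := c) (hi := c + 2 * π) le_rfl (by linarith [pi_pos]))
    (q5_turn G' (by linarith [pi_pos]) (by linarith)) fun i j f g => by
      linarith [(G.bd _ _ f).2, (G'.bd _ _ g).1]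
  exact q5_per N0 S.pv G₂

end Pool.Agent.Lib.MP_9dc04a_an
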