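import Mathlib

set_option autoImplicit false

namespace Pool.Agent.Lib.MP_9dc04a_an

open Finset Real

/-- row of the chord x -> y: sum_j ch x y j * Dv v j = v y - v x -/
def ch (x y j : ℤ) : ℝ := if x < j ∧ j ≤ y then 1 else if y < j ∧ j ≤ x then -1 else 0

/-- the sign of the pair (start point, column) -/
def q8_e (x q : ℤ) : ℝ := if x < q then -1 else 1

theorem q8_pow {m : ℕ} (x : Fin m → ℤ) (q : ℤ) :
    (-1 : ℝ) ^ #{i | x i < q} = ∏ i, q8_e (x i) q := by
  unfold q8_e
  rw [Finset.prod_ite, Finset.prod_const, Finset.prod_const_one, mul_one]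

theorem q8_lt {n : ℕ} (p : Fin (n + 1)) :
    ∏ j : Fin n, (if p.succAbove j < p then (-1 : ℝ) else 1) = (-1) ^ (p : ℕ) := by
  rw [Finset.prod_ite, Finset.prod_const, Finset.prod_const_one, mul_one]
  have h : #{j : Fin n | p.succAbove j < p} = #{j : Fin n | (j : ℕ) < (p : ℕ)} := by
    congr 1
    ext j
    simp only [Finset.mem_filter, Finset.mem_univ, true_and]
    rw [Fin.succAbove_lt_iff_castSucc_lt, Fin.lt_def, Fin.val_castSucc]
  rw [h, Fin.card_filter_val_lt, min_eq_right (Nat.lt_succ_iff.mp p.2)]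

theorem q8_gt {n : ℕ} (p : Fin (n + 1)) :
    ∏ j : Fin n, (if p < p.succAbove j then (-1 : ℝ) else 1) = (-1) ^ n * (-1) ^ (p : ℕ) := by
  have h : ∀ j : Fin n, (if p < p.succAbove j then (-1 : ℝ) else 1) =
      (-1) * (if p.succAbove j < p then (-1 : ℝ) else 1) := by
    intro j
    rcases lt_or_gt_of_ne (Fin.succAbove_ne p j) with h | h
    · rw [if_neg (not_lt.mpr h.le), if_pos h]; norm_num
    · rw [if_pos h, if_neg (not_lt.mpr h.le)]; norm_num
  rw [Finset.prod_congr rfl fun j _ => h j, Finset.prod_mul_distrib, q8_lt]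
  simp

theorem q8_tri (n : ℕ) : (n + 1) * (n + 1 + 1) / 2 = n * (n + 1) / 2 + (n + 1) := by
  have h : (n + 1) * (n + 1 + 1) = n * (n + 1) + (n + 1) * 2 := by ring
  rw [h, Nat.add_mul_div_right _ _ (by norm_num : 0 < 2)]

theorem q8_main (m : ℕ) : ∀ (x y q : Fin m → ℤ), StrictMono x → StrictMono q → (∀ i, x i ≠ y i) →
    (∀ i j, ¬(min (x i) (y i) < min (x j) (y j) ∧ min (x j) (y j) < max (x i) (y i) ∧
      max (x i) (y i) < max (x j) (y j))) →
    0 ≤ (-1) ^ (m * (m + 1) / 2) * (∏ k, ∏ i, q8_e (x i) (q k)) *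
      (Matrix.of fun i k => ch (x i) (y i) (q k)).det := by
  induction m with
  | zero => intro x y q _ _ _ _; simp
  | succ n ih =>
    intro x y q hx hq ne nc
    obtain ⟨i, -, hi⟩ := Finset.exists_min_image (Finset.univ : Finset (Fin (n + 1)))
      (fun j => max (x j) (y j) - min (x j) (y j)) Finset.univ_nonempty
    -- no end point strictly inside the shortest chord
    have out : ∀ j, (x j ≤ min (x i) (y i) ∨ max (x i) (y i) ≤ x j) ∧
        (y j ≤ min (x i) (y i) ∨ max (x i) (y i) ≤ y j) := by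
      intro j
      have h1 := hi j (Finset.mem_univ j)
      have h2 := nc i j
      have h3 := nc j i
      have h4 := ne j
      have h5 := ne i
      omega
    by_cases h0 : ∃ k, min (x i) (y i) < q k ∧ q k ≤ max (x i) (y i)
    swap
    · rw [Matrix.det_eq_zero_of_row_eq_zero i, mul_zero]
      intro k
      have h : ¬(min (x i) (y i) < q k ∧ q k ≤ max (x i) (y i)) := fun h => h0 ⟨k, h⟩
      simp only [Matrix.of_apply, ch]
      rw [if_neg (by omega), if_neg (by omega)]
    obtain ⟨k, k1, k2⟩ := h0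
    by_cases h1 : ∃ l, l ≠ k ∧ min (x i) (y i) < q l ∧ q l ≤ max (x i) (y i)
    · obtain ⟨l, hl, l1, l2⟩ := h1
      rw [Matrix.det_zero_of_column_eq hl, mul_zero]
      intro j
      obtain ⟨o1, o2⟩ := out j
      simp only [Matrix.of_apply, ch]
      have e1 : (x j < q l ∧ q l ≤ y j) ↔ (x j < q k ∧ q k ≤ y j) := by omega
      have e2 : (y j < q l ∧ q l ≤ x j) ↔ (y j < q k ∧ q k ≤ x j) := by omega
      simp only [e1, e2]
    have oth : ∀ l, l ≠ k → q l ≤ min (x i) (y i) ∨ max (x i) (y i) < q l := by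
      intro l hl
      have h : ¬(min (x i) (y i) < q l ∧ q l ≤ max (x i) (y i)) := fun h => h1 ⟨l, hl, h⟩
      omega
    have IH := ih (fun j => x (i.succAbove j)) (fun j => y (i.succAbove j)) (fun l => q (k.succAbove l))
      (hx.comp (Fin.strictMono_succAbove i)) (hq.comp (Fin.strictMono_succAbove k))
      (fun j => ne _) (fun a b => nc _ _)
    have hd : (Matrix.of fun i k => ch (x i) (y i) (q k)).det =
        (-1) ^ ((i : ℕ) + (k : ℕ)) * ch (x i) (y i) (q k) *
          (Matrix.of fun a b => ch (x (i.succAbove a)) (y (i.succAbove a)) (q (k.succAbove b))).det := by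
      rw [Matrix.det_succ_row _ i, Finset.sum_eq_single k]
      · rfl
      · intro l _ hl
        have h := oth l hl
        simp only [Matrix.of_apply, ch]
        rw [if_neg (by omega), if_neg (by omega), mul_zero, zero_mul]
      · intro h; exact absurd (Finset.mem_univ k) h
    have hs : q8_e (x i) (q k) * ch (x i) (y i) (q k) = -1 := by
      have h5 := ne i
      unfold q8_e ch
      rcases lt_or_gt_of_ne h5 with h | h
      · rw [if_pos (by omega), if_pos (by omega)]; norm_num
      · rw [if_neg (by omega), if_neg (by omega), if_pos (by omega)]; norm_num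
    have hc : ∏ a : Fin n, q8_e (x (i.succAbove a)) (q k) = (-1) ^ (i : ℕ) := by
      rw [← q8_lt i]
      refine Finset.prod_congr rfl fun a _ => ?_
      have o := (out (i.succAbove a)).1
      unfold q8_e
      rcases lt_or_gt_of_ne (Fin.succAbove_ne i a) with h | h
      · have := hx h
        rw [if_pos (by omega), if_pos h]
      · have := hx h
        rw [if_neg (by omega), if_neg (not_lt.mpr h.le)]
    have hr : ∏ b : Fin n, q8_e (x i) (q (k.succAbove b)) = (-1) ^ n * (-1) ^ (k : ℕ) := by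
      rw [← q8_gt k]
      refine Finset.prod_congr rfl fun b _ => ?_
      have o := oth _ (Fin.succAbove_ne k b)
      unfold q8_e
      rcases lt_or_gt_of_ne (Fin.succAbove_ne k b) with h | h
      · have := hq h
        rw [if_neg (by omega), if_neg (not_lt.mpr h.le)]
      · have := hq h
        rw [if_pos (by omega), if_pos h]
    have hp : (∏ l, ∏ j, q8_e (x j) (q l)) =
        q8_e (x i) (q k) * (-1) ^ (i : ℕ) * ((-1) ^ n * (-1) ^ (k : ℕ) *
          ∏ b : Fin n, ∏ a : Fin n, q8_e (x (i.succAbove a)) (q (k.succAbove b))) := by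
      rw [Fin.prod_univ_succAbove _ k, Fin.prod_univ_succAbove _ i, hc, ← hr, ← Finset.prod_mul_distrib]
      congr 1
      exact Finset.prod_congr rfl fun b _ => Fin.prod_univ_succAbove _ i
    have s1 : ((-1 : ℝ) ^ (i : ℕ)) * (-1) ^ (i : ℕ) = 1 := by rw [← mul_pow]; simp
    have s2 : ((-1 : ℝ) ^ (k : ℕ)) * (-1) ^ (k : ℕ) = 1 := by rw [← mul_pow]; simp
    have s3 : ((-1 : ℝ) ^ n) * (-1) ^ n = 1 := by rw [← mul_pow]; simp
    rw [hd, hp, q8_tri, pow_add, pow_add, pow_add, pow_one]
    refine IH.trans_eq ?_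
    generalize (∏ b : Fin n, ∏ a : Fin n, q8_e (x (i.succAbove a)) (q (k.succAbove b))) = P
    generalize (Matrix.of fun a b =>
      ch (x (i.succAbove a)) (y (i.succAbove a)) (q (k.succAbove b))).det = D
    generalize (-1 : ℝ) ^ (n * (n + 1) / 2) = S
    calc S * P * D = S * P * D * -(q8_e (x i) (q k) * ch (x i) (y i) (q k)) *
          ((-1) ^ (i : ℕ) * (-1) ^ (i : ℕ)) * ((-1) ^ (k : ℕ) * (-1) ^ (k : ℕ)) *
            ((-1) ^ n * (-1) ^ n) := by rw [hs, s1, s2, s3]; ring
      _ = _ := by ring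

/-- SIGN LEMMA.  Induction on m: a shortest chord i has no endpoint of another chord strictly inside,
so all columns q in (lo, hi] are equal; none: zero row; two: equal columns; one: expand. -/
theorem ch_sign {m : ℕ} (x y q : Fin m → ℤ) (hx : StrictMono x) (hq : StrictMono q) (ne : ∀ i, x i ≠ y i)
    (nc : ∀ i j, ¬(min (x i) (y i) < min (x j) (y j) ∧ min (x j) (y j) < max (x i) (y i) ∧
      max (x i) (y i) < max (x j) (y j))) :
    0 ≤ (-1) ^ (m * (m + 1) / 2) * (∏ k, (-1 : ℝ) ^ #{i | x i < q k}) *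
      (Matrix.of fun i k => ch (x i) (y i) (q k)).det := by
  rw [Finset.prod_congr rfl fun k _ => q8_pow x (q k)]
  exact q8_main m x y q hx hq ne nc

end Pool.Agent.Lib.MP_9dc04a_an
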