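import Pool.Agent.Lib.MP_9dc04a_an.QSl0

set_option autoImplicit false

namespace Pool.Agent.Lib.MP_9dc04a_an

open Finset Real Polynomial Filter Topology

variable {N : ℕ} {t : ℤ → ℝ} {v w : ℤ → ℂ} {Ed : ℤ → ℤ → Prop} {H : ℤ → Prop} {ψ : ℤ → ℤ → ℝ}
  {d : Cd}

lemma q3_sol (hN : 0 < N) {ι : Type} [Fintype ι] (f : ι → (ℤ → ℂ) →ₗ[ℂ] ℂ)
    (h : Fintype.card ι < N) : ∃ w : ℤ → ℂ, w ≠ 0 ∧ (∀ j, w (j + N) = w j) ∧ ∀ i, f i w = 0 := by
  haveI : NeZero N := ⟨hN.ne'⟩
  let e : (ZMod N → ℂ) →ₗ[ℂ] (ℤ → ℂ) := LinearMap.funLeft ℂ ℂ fun j : ℤ => (j : ZMod N)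
  have := LinearMap.ker_ne_bot_of_finrank_lt (f := (LinearMap.pi f).comp e) (by simpa using h)
  obtain ⟨x, x1, x2⟩ := (Submodule.ne_bot_iff _).1 this
  refine ⟨e x, fun c => x2 (funext fun a => ?_), fun j => by simp [e, LinearMap.funLeft],
    fun i => congrFun (LinearMap.mem_ker.1 x1) i⟩
  obtain ⟨j, rfl⟩ := ZMod.intCast_surjective a
  exact congrFun c j

lemma St.dirn (S : St N t Ed H d v ψ) (h : cnt N d + 3 < N) :
    ∃ w, Sat N t d w ∧ Vk 1 N t w = 0 ∧ ∃ j, Dv w j ≠ 0 := by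
  classical
  have lk : ∀ n, IsLinearMap ℂ fun w => Vk n N t w := fun n =>
    ⟨fun x y => by simpa [Pi.add_def] using q3_Vk (v := x) (w := y) n 1,
      fun c x => by simpa [Vk, Dv] using q3_Vk (N := N) (t := t) (v := 0) (w := x) n c⟩
  have lp : ∀ z, IsLinearMap ℂ fun w => (Vp N t w).eval z := fun z =>
    ⟨fun x y => by simpa [Pi.add_def] using congrArg (eval z) (q3_Vp (v := x) (w := y) 1),
      fun c x => by
        have := congrArg (eval z) (q3_Vp (N := N) (t := t) (v := 0) (w := x) c)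
        rw [show Vp N t 0 = 0 by simp [Vp, Dv]] at this
        simpa [Pi.smul_def] using this⟩
  have lf : ∀ j, IsLinearMap ℂ fun w : ℤ → ℂ =>
      w j - (d.θ j * w (d.a j) + (1 - d.θ j) * w (d.c j)) := fun j =>
    ⟨fun x y => by simp only [Pi.add_apply]; ring,
      fun c x => by simp only [Pi.smul_apply, smul_eq_mul]; ring⟩
  obtain ⟨w, w0, pw, hw⟩ := q3_sol S.tr.N0 (ι := Fin 3 ⊕ {j ∈ Ico (0:ℤ) N | d.R j ∨ d.C j})
    (Sum.elim ![(lk 1).mk', (lk (-1)).mk', LinearMap.proj 0]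
      fun j => if d.R j then (lp (ee (-d.τ j))).mk' else (lf j).mk')
    (by rw [Fintype.card_sum, Fintype.card_fin, Fintype.card_coe]; unfold cnt at h; convert
      (show 3 + _ < N by rwa [add_comm] at h))
  have A := S.cnd
  refine ⟨w, ⟨pw, hw (.inl 1), fun j hj => ?_, fun j hj => ?_⟩, hw (.inl 0), ?_⟩
  · obtain ⟨k, k1, k2⟩ := ex_win S.tr.N0 j 0
    have r : d.R (j + N * k) := by rwa [per_mul A.pR]
    have := hw (.inr ⟨j + N * k, mem_filter.2 ⟨mem_Ico.2 ⟨k1, by simpa using k2⟩, .inl r⟩⟩)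
    simp only [Sum.elim_inr, if_pos r, IsLinearMap.mk'_apply, q3_add A.pt] at this
    rwa [show -(d.τ j + k • (2 * π)) = -d.τ j + 2 * π * (-k : ℤ) by
      rw [zsmul_eq_mul]; push_cast; ring, j1_ee_per] at this
  · obtain ⟨k, k1, k2⟩ := ex_win S.tr.N0 j 0
    have r : d.C (j + N * k) := by rwa [per_mul A.pC]
    have := hw (.inr ⟨j + N * k, mem_filter.2 ⟨mem_Ico.2 ⟨k1, by simpa using k2⟩, .inr r⟩⟩)
    simp only [Sum.elim_inr, if_neg fun c => A.dj _ c r, IsLinearMap.mk'_apply, q3_add A.pa,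
      q3_add A.pc, per_mul A.ph, per_mul pw, zsmul_eq_mul, Int.cast_id, mul_comm k] at this
    exact sub_eq_zero.1 this
  · by_contra c
    push Not at c
    have z : w 0 = 0 := hw (.inl 2)
    refine w0 (funext fun j => ?_)
    induction j using Int.induction_on with
    | zero => exact z
    | succ j ih => simpa [Dv, sub_eq_zero, ih] using c (j + 1)
    | pred j ih => simpa [Dv, sub_eq_zero, ih, eq_comm] using c (-j)

noncomputable def cc (v w : ℤ → ℂ) (i j : ℤ) : ℂ := (w j - w i) / (v j - v i)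

lemma q3_gen (T : Tr N Ed H) (pv : ∀ j, v (j + N) = v j) (pw : ∀ j, w (j + N) = w j) :
    ∃ u : ℂ, u ≠ 0 ∧ ∀ i j, Ed i j → u * cc v w i j = 0 ∨ (u * cc v w i j).im ≠ 0 := by
  classical
  obtain ⟨x, hx⟩ := Infinite.exists_notMem_finset ((Ico (0:ℤ) N ×ˢ Icc (0:ℤ) (2 * N)).image
    fun p => -(cc v w p.1 p.2).im / (cc v w p.1 p.2).re)
  refine ⟨1 + x * Complex.I, fun c => by simpa using congrArg Complex.re c, fun i j e => ?_⟩
  obtain ⟨k, k1, k2⟩ := ex_win T.N0 i 0
  have l1 := T.lt _ _ e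
  have l2 := T.len e
  have e1 : cc v w (i + N * k) (j + N * k) = cc v w i j := by simp only [cc, per_mul pv, per_mul pw]
  have n : -(cc v w i j).im / (cc v w i j).re ≠ x := fun c => hx (mem_image.2
    ⟨(i + N * k, j + N * k), mem_product.2 ⟨mem_Ico.2 ⟨k1, by simpa using k2⟩,
      mem_Icc.2 ⟨by simp only; linarith, by simp only; linarith⟩⟩, by simpa only [e1] using c⟩)
  set c := cc v w i j
  by_cases r : c.re = 0
  · by_cases m : c.im = 0
    · left; rw [show c = 0 from Complex.ext r m, mul_zero]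
    · right; simpa [r] using m
  · right
    intro h
    apply n
    simp only [Complex.mul_im, Complex.add_re, Complex.one_re, Complex.mul_re, Complex.ofReal_re,
      Complex.I_re, Complex.ofReal_im, Complex.I_im, Complex.add_im, Complex.one_im] at h
    field_simp
    linarith

noncomputable def Ps (v w : ℤ → ℂ) (ψ : ℤ → ℤ → ℝ) (s : ℝ) (i j : ℤ) : ℝ :=
  ψ i j + (1 + s * cc v w i j).arg

lemma q3_slit {c : ℂ} (h : c = 0 ∨ c.im ≠ 0) (s : ℝ) : 1 + s * c ∈ Complex.slitPlane := by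
  rcases h with h | h
  · simp [h]
  · rcases eq_or_ne s 0 with rfl | n
    · simp
    · exact Or.inr (by simpa using ⟨n, h⟩)

lemma q3_cont {i j : ℤ} (h : cc v w i j = 0 ∨ (cc v w i j).im ≠ 0) :
    Continuous fun s => Ps v w ψ s i j :=
  continuous_const.add (continuous_iff_continuousAt.2 fun s =>
    (Complex.continuousAt_arg (q3_slit h s)).comp (f := fun s : ℝ => 1 + s * cc v w i j)
      (by fun_prop))

lemma q3_fz {x a c : ℤ} {θ : ℝ} (f : Flat v x a c θ) (g : w x = θ * w a + (1 - θ) * w c) :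
    cc v w a x = cc v w a c ∧ cc v w x c = cc v w a c := by
  have h0 : (θ:ℂ) ≠ 0 := Complex.ofReal_ne_zero.2 f.1.ne'
  have h1 : (1 - θ:ℂ) ≠ 0 := by exact_mod_cast (sub_pos.2 f.2.1).ne'
  constructor
  · rw [cc, cc, f.2.2, g, ← mul_div_mul_left (w c - w a) _ h1]; congr 1 <;> ring
  · rw [cc, cc, f.2.2, g, ← mul_div_mul_left (w c - w a) _ h0]; congr 1 <;> ring

lemma cc_symm (i j : ℤ) : cc v w i j = cc v w j i := by
  rw [cc, cc, ← neg_div_neg_eq]; simp

/-- on a maximal feasible parameter a new condition appears -/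
lemma St.edge (S : St N t Ed H d v ψ) (W : Sat N t d w) (w1 : Vk 1 N t w = 0) {j₀ : ℤ}
    (w0 : Dv w j₀ ≠ 0) (g : ∀ i j, Ed i j → cc v w i j = 0 ∨ (cc v w i j).im ≠ 0) :
    ∃ s : ℝ, 0 ≤ s ∧ ∃ d' ψ', St N t Ed H d' (fun j => v j + s * w j) ψ' ∧ cnt N d < cnt N d' := by
  classical
  have T := S.tr
  have G := S.geo
  have P := S.sp.pol
  have v1 : Vk 1 N t v ≠ 0 := Vp_zero (N := N) (t := t) (v := v) ▸ S.sp.nz 0 (by simp)
  have k1 : ∀ s : ℝ, Vk 1 N t (fun j => v j + s * w j) = Vk 1 N t v := fun s => by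
    rw [q3_Vk, w1, mul_zero, add_zero]
  set I : Set ℝ := {s | St N t Ed H d (fun j => v j + s * w j) (Ps v w ψ s)} with hI
  have pc : ∀ i j k, cc v w (i + N * k) (j + N * k) = cc v w i j := fun i j k => by
    simp only [cc, per_mul S.sp.pv, per_mul W.pv]
  have mk : ∀ s : ℝ, (∀ z : ℂ, ‖z‖ < 1 → (Vp N t fun j => v j + s * w j).eval z ≠ 0) →
      (∀ i k j, Ed i k → Ed k j → Ed i j → Ps v w ψ s i j ≤ Ps v w ψ s i k ∧
        Ps v w ψ s k j ≤ Ps v w ψ s i j ∧ Ps v w ψ s i k ≤ Ps v w ψ s k j + π) →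
      (∀ i k j, Con H i k → Con H k j → Ps v w ψ s i k ≤ Ps v w ψ s k j) → s ∈ I :=
    fun s h1 h2 h3 => by
      have A := S.sat.add W s
      refine ⟨T, S.cnd, A, ⟨P, A.pv, A.g0, h1⟩, fun i j e => ?_, fun i j e => ?_, h2, h3⟩
      · obtain ⟨r, r0, hr⟩ := G.dir i j e
        have n := Complex.slitPlane_ne_zero (q3_slit (g i j e) s)
        have n' : v j - v i ≠ 0 := hr ▸ mul_ne_zero (Complex.ofReal_ne_zero.2 r0.ne') (j1_ee_ne _)
        refine ⟨r * ‖1 + s * cc v w i j‖, mul_pos r0 (norm_pos_iff.2 n), ?_⟩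
        have e1 : ee (-(1 + s * cc v w i j).arg) * ‖1 + s * cc v w i j‖ = 1 + s * cc v w i j := by
          have := Complex.norm_mul_exp_arg_mul_I (1 + s * cc v w i j)
          rw [mul_comm] at this
          simpa [ee] using this
        have e2 : v j + s * w j - (v i + s * w i) = (v j - v i) * (1 + s * cc v w i j) := by
          rw [cc]; field_simp; ring
        rw [e2, Ps, neg_add, j1_ee_add, hr]
        push_cast
        linear_combination (-(r:ℂ) * ee (-ψ i j)) * e1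
      · have := pc i j 1
        rw [mul_one] at this
        rw [Ps, Ps, G.pp i j e, this]; ring
  have cl : IsClosed I := by
    have e : I = {s : ℝ | ∀ z : ℂ, ‖z‖ < 1 → ‖Vk 1 N t v‖ * (1 - ‖z‖) ^ N ≤
        ‖(Vp N t v).eval z + s * (Vp N t w).eval z‖} ∩
        ({s | ∀ i k j, Ed i k → Ed k j → Ed i j → Ps v w ψ s i j ≤ Ps v w ψ s i k ∧
        Ps v w ψ s k j ≤ Ps v w ψ s i j ∧ Ps v w ψ s i k ≤ Ps v w ψ s k j + π} ∩
        {s | ∀ i k j, Con H i k → Con H k j → Ps v w ψ s i k ≤ Ps v w ψ s k j}) := by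
      ext s
      refine ⟨fun h => ⟨fun z hz => ?_, h.geo.tri, h.geo.hull⟩,
        fun h => mk s (fun z hz c => ?_) h.2.1 h.2.2⟩
      · simpa [k1, q3_Vp] using h.sp.low z hz
      · have := h.1 z hz
        rw [q3_Vp, eval_add, eval_mul, eval_C] at c
        rw [c, norm_zero] at this
        exact absurd this (not_le.2 (mul_pos (norm_pos_iff.2 v1) (pow_pos (by linarith) _)))
    rw [e]
    simp only [Set.ofPred_forall]
    refine IsClosed.inter ?_ (IsClosed.inter ?_ ?_)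
    · exact isClosed_iInter fun _ => isClosed_iInter fun _ => isClosed_le (by fun_prop) (by fun_prop)
    · exact isClosed_iInter fun _ => isClosed_iInter fun _ => isClosed_iInter fun _ =>
        isClosed_iInter fun a => isClosed_iInter fun b => isClosed_iInter fun c =>
        (isClosed_le (q3_cont (g _ _ c)) (q3_cont (g _ _ a))).inter
        ((isClosed_le (q3_cont (g _ _ b)) (q3_cont (g _ _ c))).inter
        (isClosed_le (q3_cont (g _ _ a)) ((q3_cont (g _ _ b)).add continuous_const)))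
    · exact isClosed_iInter fun _ => isClosed_iInter fun _ => isClosed_iInter fun _ =>
        isClosed_iInter fun a => isClosed_iInter fun b =>
        isClosed_le (q3_cont (g _ _ (T.lid _ _ a))) (q3_cont (g _ _ (T.lid _ _ b)))
  have bd : BddAbove I := by
    obtain ⟨M, hM⟩ := Sp.bdd P
    refine ⟨(M * ‖Vk 1 N t v‖ + ‖Dv v j₀‖) / ‖Dv w j₀‖, fun s hs => ?_⟩
    have := hM _ hs.sp j₀
    rw [k1, q3_Dv] at this
    rw [le_div_iff₀ (norm_pos_iff.2 w0)]
    have a := norm_sub_le (Dv v j₀ + s * Dv w j₀) (Dv v j₀)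
    rw [add_sub_cancel_left, norm_mul, Complex.norm_real] at a
    nlinarith [le_abs_self s, norm_nonneg (Dv w j₀), Real.norm_eq_abs s]
  have z : (0:ℝ) ∈ I := mk 0 (by simpa using S.sp.nz) (by simpa [Ps] using G.tri)
    (by simpa [Ps] using G.hull)
  obtain ⟨s, hs, mx⟩ : ∃ s ∈ I, ∀ s' ∈ I, s' ≤ s :=
    ⟨_, cl.csSup_mem ⟨0, z⟩ bd, fun s' h => le_csSup bd h⟩
  refine ⟨s, mx 0 z, ?_⟩
  by_contra no
  have S' : St N t Ed H d (fun j => v j + s * w j) (Ps v w ψ s) := hs
  have no' : ¬∃ d', St N t Ed H d' (fun j => v j + s * w j) (Ps v w ψ s) ∧ cnt N d < cnt N d' :=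
    fun ⟨d', h⟩ => no ⟨d', _, h⟩
  have fz : ∀ x a c θ, Face Ed H x a c → Flat (fun j => v j + s * w j) x a c θ →
      cc v w a x = cc v w a c ∧ cc v w x c = cc v w a c := fun x a c θ F f => by
    by_cases n : d.C x ∧ d.a x = a ∧ d.c x = c
    · obtain ⟨n, rfl, rfl⟩ := n
      exact q3_fz (S.flatC n) (W.fl x n)
    · exact absurd (S'.addC F f n) no'
  have e1 : ∀ᶠ s' : ℝ in 𝓝 s, ∀ z : ℂ, ‖z‖ < 1 → (Vp N t fun j => v j + s' * w j).eval z ≠ 0 := by
    obtain ⟨Ev, hv⟩ := S.sat.dvd P S.cnd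
    obtain ⟨Ew, hw⟩ := W.dvd P S.cnd
    have e : ∀ s' : ℝ, (Vp N t fun j => v j + s' * w j) = Tp N d * (Ev + C (s':ℂ) * Ew) := fun s' => by
      rw [q3_Vp, hv, hw]; ring
    have := (isCompact_closedBall (0:ℂ) 1).eventually_forall_of_forall_eventually
      (x₀ := s) (P := fun (s' : ℝ) z => Ev.eval z + s' * Ew.eval z ≠ 0) fun z hz =>
      ContinuousAt.eventually_ne (g := fun p : ℝ × ℂ => Ev.eval p.2 + p.1 * Ew.eval p.2)
        (by fun_prop) fun c => no' (S'.zero (e s) (mem_closedBall_zero_iff.1 hz) (by simpa using c))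
    filter_upwards [this] with s' h z hz
    rw [e, eval_mul]
    refine mul_ne_zero ?_ (by simpa using h z (mem_closedBall_zero_iff.2 hz.le))
    rw [Tp, eval_prod]
    refine prod_ne_zero_iff.2 fun j _ c => ?_
    rw [eval_sub, eval_X, eval_C, sub_eq_zero] at c
    rw [c, j1_ee_norm] at hz
    exact lt_irrefl _ hz
  have e2 : ∀ i k j, Ed i k → Ed k j → Ed i j → ∀ᶠ s' : ℝ in 𝓝 s, Ps v w ψ s' i j ≤ Ps v w ψ s' i k ∧
      Ps v w ψ s' k j ≤ Ps v w ψ s' i j ∧ Ps v w ψ s' i k ≤ Ps v w ψ s' k j + π :=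
    fun i k j a b c => by
      by_cases h : Ps v w ψ s i j = Ps v w ψ s i k ∨ Ps v w ψ s k j = Ps v w ψ s i j ∨
        Ps v w ψ s i k = Ps v w ψ s k j + π
      · have e : cc v w i k = cc v w i j ∧ cc v w k j = cc v w i j := by
          obtain ⟨θ, f | f | f⟩ := S'.geo.tight a b c h
          · exact fz _ _ _ _ (.inl ⟨a, b, c⟩) f
          · have := fz _ _ _ _ (.inr (.inl ⟨a, b, c⟩)) f
            rw [cc_symm k i] at this
            exact ⟨this.1.trans this.2.symm, this.2.symm⟩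
          · have := fz _ _ _ _ (.inr (.inr (.inl ⟨a, b, c⟩))) f
            rw [cc_symm j k] at this
            exact ⟨this.1.symm, this.2.trans this.1.symm⟩
        refine .of_forall fun s' => ?_
        have := G.tri i k j a b c
        simp only [Ps, e.1, e.2]
        refine ⟨?_, ?_, ?_⟩ <;> linarith [this.1, this.2.1, this.2.2]
      · push Not at h
        have m := S'.geo.tri i k j a b c
        have c1 := q3_cont (ψ := ψ) (g _ _ a)
        have c2 := q3_cont (ψ := ψ) (g _ _ b)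
        have c3 := q3_cont (ψ := ψ) (g _ _ c)
        filter_upwards [c3.continuousAt.eventually_lt c1.continuousAt (m.1.lt_of_ne h.1),
          c2.continuousAt.eventually_lt c3.continuousAt (m.2.1.lt_of_ne h.2.1),
          c1.continuousAt.eventually_lt (c2.add continuous_const).continuousAt
            (m.2.2.lt_of_ne h.2.2)] with s' a1 a2 a3 using ⟨a1.le, a2.le, a3.le⟩
  have e3 : ∀ i k j, Con H i k → Con H k j → ∀ᶠ s' : ℝ in 𝓝 s, Ps v w ψ s' i k ≤ Ps v w ψ s' k j :=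
    fun i k j a b => by
      by_cases h : Ps v w ψ s i k = Ps v w ψ s k j
      · obtain ⟨θ, f⟩ := S'.geo.htight T a b h
        have e := fz _ _ _ _ (.inr (.inr (.inr ⟨a, b⟩))) f
        refine .of_forall fun s' => ?_
        simp only [Ps, e.1, e.2]
        linarith [G.hull i k j a b]
      · exact ((q3_cont (g _ _ (T.lid _ _ a))).continuousAt.eventually_lt
          (q3_cont (g _ _ (T.lid _ _ b))).continuousAt
          ((S'.geo.hull i k j a b).lt_of_ne h)).mono fun _ h => h.le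
  have ps : ∀ s' i j k, Ed i j → Ps v w ψ s' (i + N * k) (j + N * k) = Ps v w ψ s' i j + 2 * π * k :=
    fun s' i j k e => by rw [Ps, Ps, pc, G.sh T e]; ring
  have win : ∀ p : ℝ → ℤ → ℤ → ℤ → Prop, (∀ i k j, ∀ᶠ s' in 𝓝 s, p s' i k j) →
      (∀ s' i k j q, p s' (i + N * q) (k + N * q) (j + N * q) → p s' i k j) →
      ∀ᶠ s' in 𝓝 s, ∀ i k j : ℤ, i < k → k < j → j ≤ i + 2 * N → p s' i k j := fun p h sh => by
    have := (eventually_all_finset (Ico (0:ℤ) N ×ˢ Icc (0:ℤ) (3 * N) ×ˢ Icc (0:ℤ) (3 * N))).2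
      fun x _ => h x.1 x.2.1 x.2.2
    filter_upwards [this] with s' a i k j l1 l2 l3
    obtain ⟨q, q1, q2⟩ := ex_win T.N0 i 0
    exact sh s' i k j q (a (i + N * q, k + N * q, j + N * q) (by
      simp only [mem_product, mem_Ico, mem_Icc]
      refine ⟨⟨q1, ?_⟩, ⟨?_, ?_⟩, ?_, ?_⟩ <;> linarith))
  have f2 := win (fun s' i k j => Ed i k → Ed k j → Ed i j → Ps v w ψ s' i j ≤ Ps v w ψ s' i k ∧
      Ps v w ψ s' k j ≤ Ps v w ψ s' i j ∧ Ps v w ψ s' i k ≤ Ps v w ψ s' k j + π)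
    (fun i k j => by simpa only [eventually_imp_distrib_left] using e2 i k j)
    fun s' i k j q h a b c => by
      have := h (by rwa [T.sh]) (by rwa [T.sh]) (by rwa [T.sh])
      rw [ps _ _ _ _ a, ps _ _ _ _ b, ps _ _ _ _ c] at this
      refine ⟨?_, ?_, ?_⟩ <;> linarith [this.1, this.2.1, this.2.2]
  have f3 := win (fun s' i k j => Con H i k → Con H k j → Ps v w ψ s' i k ≤ Ps v w ψ s' k j)
    (fun i k j => by simpa only [eventually_imp_distrib_left] using e3 i k j)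
    fun s' i k j q h a b => by
      have := h (T.csh a q) (T.csh b q)
      rw [ps _ _ _ _ (T.lid _ _ a), ps _ _ _ _ (T.lid _ _ b)] at this
      linarith
  have ev : ∀ᶠ s' in 𝓝 s, s' ∈ I := by
    filter_upwards [e1, f2, f3] with s' a1 a2 a3
    have N0 : (0:ℤ) ≤ N := by omega
    exact mk s' a1 (fun i k j a b c => a2 i k j (T.lt _ _ a) (T.lt _ _ b) (by linarith [T.len c]) a b c)
      fun i k j a b => a3 i k j a.1 b.1
        (by linarith [T.len (T.lid _ _ a), T.len (T.lid _ _ b)]) a b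
  obtain ⟨s', a1, a2⟩ := ((ev.filter_mono nhdsWithin_le_nhds).and
    (self_mem_nhdsWithin : Set.Ioi s ∈ 𝓝[>] s)).exists
  exact absurd (mx s' a1) (not_le.2 a2)

lemma St.final (S : St N t Ed H d v ψ) (h : ¬cnt N d + 3 < N) :
    ∃ h₁ h₂ h₃, Fd N t Ed H d h₁ h₂ h₃ v := by
  classical
  obtain ⟨a, b, c, l1, l2, l3, hh⟩ := S.geo.three S.tr fun j => (S.ang j).1
  have A := S.cnd
  have fr : ∀ x, x = a ∨ x = b ∨ x = c → ¬d.R x ∧ ¬d.C x := fun x hx =>
    ⟨fun r => absurd (S.geo.hlo S.tr (hh x hx).1)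
      (not_le.2 ((S.ang x).2.1 _ (A.ar x r).1 (A.ar x r).2 (S.sat.zr x r))),
      fun r => (hh x hx).2 _ _ _ (A.fc x r).1 (S.flatC r)⟩
  have fa := fr a (by tauto)
  have fb := fr b (by tauto)
  have fc := fr c (by tauto)
  refine ⟨a, b, c, S.sp.pol, S.tr, A, S.sat, l1, l2, l3,
    ⟨(hh a (by tauto)).1, (hh b (by tauto)).1, (hh c (by tauto)).1⟩, ⟨fa.1, fb.1, fc.1⟩,
    ⟨fa.2, fb.2, fc.2⟩, fun j j1 j2 j3 j4 => by_contra fun n => h ?_, fun j hj e => ?_⟩
  · have e : (cnt N d : ℝ) = #{j ∈ Ico a (a + N) | d.R j ∨ d.C j} := by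
      rw [cnt, card_filter, card_filter]
      push_cast
      convert j1_sum (f := fun j => if d.R j ∨ d.C j then 1 else 0) S.tr.N0
        (fun j => by simp only [A.pR, A.pC]) a
    have s : {j ∈ Ico a (a + N) | d.R j ∨ d.C j} ⊆ Ico a (a + N) \ {a, b, c, j} := fun x hx => by
      rw [mem_filter] at hx
      refine mem_sdiff.2 ⟨hx.1, fun m => ?_⟩
      simp only [mem_insert, mem_singleton] at m
      rcases m with rfl | rfl | rfl | rfl <;> tauto
    have s2 : ({a, b, c, j} : Finset ℤ) ⊆ Ico a (a + N) := fun x m => by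
      simp only [mem_insert, mem_singleton] at m
      rw [mem_Ico]
      rcases m with rfl | rfl | rfl | rfl <;> omega
    have c4 : #({a, b, c, j} : Finset ℤ) = 4 := by
      rw [card_insert_of_notMem, card_insert_of_notMem, card_pair j4.symm] <;>
        simp only [mem_insert, mem_singleton] <;> omega
    have := card_le_card s
    have := card_sdiff_add_card_eq_card s2
    rw [Nat.cast_inj] at e
    simp only [Int.card_Ico, add_sub_cancel_left, Int.toNat_natCast] at this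
    omega
  · have f := S.flatC hj
    have nz : ∀ i k, Ed i k → v k ≠ v i := fun i k e c => by
      obtain ⟨r, r0, hr⟩ := S.geo.dir i k e
      exact mul_ne_zero (Complex.ofReal_ne_zero.2 r0.ne') (j1_ee_ne _) (hr.symm.trans (sub_eq_zero.2 c))
    rcases (A.fc j hj).1 with F | F | F | F
    · exact nz _ _ F.2.2 e.symm
    · exact nz _ _ F.2.1 e.symm
    · exact nz _ _ F.1 e.symm
    · refine nz _ _ (S.tr.lid _ _ F.1) ?_
      rw [f.2.2, ← e]; ring

theorem slide (n : ℤ) (B : ℝ)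
    (hF : ∀ d h₁ h₂ h₃ v, Fd N t Ed H d h₁ h₂ h₃ v → ‖Vk n N t v‖ ≤ B * ‖Vk 1 N t v‖)
    (S : Sp N t v) (T : Tr N Ed H) (G : Geo N Ed H v ψ) : ‖Vk n N t v‖ ≤ B * ‖Vk 1 N t v‖ := by
  have main : ∀ k : ℕ, ∀ d v ψ, St N t Ed H d v ψ → N ≤ cnt N d + k →
      ‖Vk n N t v‖ ≤ B * ‖Vk 1 N t v‖ := by
    intro k
    induction k with
    | zero =>
      intro d v ψ S h
      obtain ⟨a, b, c, F⟩ := S.final (by omega)
      exact hF _ _ _ _ _ F
    | succ k ih =>
      intro d v ψ S h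
      by_cases c : cnt N d + 3 < N
      swap
      · obtain ⟨a, b, c, F⟩ := S.final c
        exact hF _ _ _ _ _ F
      obtain ⟨w, W, w1, j, wj⟩ := S.dirn c
      obtain ⟨u, u0, hu⟩ := q3_gen S.tr S.sp.pv W.pv
      have z : Sat N t d fun _ => 0 :=
        ⟨fun _ => rfl, by simp [Vk, Dv], fun _ _ => by simp [Vp, Dv], fun _ _ => by simp⟩
      have key : ∀ σ : ℝ, σ ≠ 0 → ∃ s : ℝ, 0 ≤ s ∧
          ‖Vk n N t v + s * σ * (u * Vk n N t w)‖ ≤ B * ‖Vk 1 N t v‖ := fun σ hσ => by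
        have σ0 : (σ:ℂ) ≠ 0 := Complex.ofReal_ne_zero.2 hσ
        have vk : ∀ m, Vk m N t (fun j => 0 + σ * u * w j) = σ * u * Vk m N t w := fun m => by
          rw [q3_Vk]; simp [Vk, Dv]
        obtain ⟨s, s0, d', ψ', S', lt⟩ := S.edge (z.add W (σ * u)) (by rw [vk, w1, mul_zero]) (j₀ := j)
          (by rw [q3_Dv]; simpa [Dv, σ0, u0] using wj) fun i j e => by
            have : cc v (fun j => 0 + σ * u * w j) i j = σ * (u * cc v w i j) := by
              simp only [cc]; ring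
            rw [this]
            exact (hu i j e).imp (fun h => by rw [h, mul_zero]) fun h => by
              rw [Complex.im_ofReal_mul]; exact mul_ne_zero hσ h
        have := ih d' _ ψ' S' (by omega)
        rw [q3_Vk, vk, q3_Vk, vk, w1] at this
        exact ⟨s, s0, by simpa [mul_assoc] using this⟩
      obtain ⟨s, s0, a⟩ := key 1 one_ne_zero
      obtain ⟨r, r0, b⟩ := key (-1) (by norm_num)
      set x := Vk n N t v
      set y := u * Vk n N t w
      rcases (add_nonneg s0 r0).eq_or_lt with e | e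
      · simpa [show s = 0 by linarith] using a
      · have e1 : ((s + r : ℝ) : ℂ) * x = r * (x + s * (1:ℝ) * y) + s * (x + r * (-1:ℝ) * y) := by
          push_cast; ring
        have := norm_add_le ((r:ℂ) * (x + s * (1:ℝ) * y)) (s * (x + r * (-1:ℝ) * y))
        rw [← e1, norm_mul, norm_mul, norm_mul, Complex.norm_real, Complex.norm_real, Complex.norm_real,
          Real.norm_of_nonneg e.le, Real.norm_of_nonneg r0, Real.norm_of_nonneg s0] at this
        refine le_of_mul_le_mul_left ?_ e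
        nlinarith [mul_le_mul_of_nonneg_left a r0, mul_le_mul_of_nonneg_left b s0]
  exact main N ⟨fun _ => False, fun _ => False, fun j => 2 * π * j / N, id, id, 0⟩ v ψ
    ⟨T, ⟨fun _ => rfl, fun _ => rfl, fun j => by
      have : (N:ℝ) ≠ 0 := by exact_mod_cast T.N0.ne'
      push_cast; field_simp, fun _ => rfl, fun _ => rfl, fun _ => rfl, fun _ h => h.elim,
      fun _ h => h.elim, fun _ h => h.elim⟩, ⟨S.pv, S.g0, fun _ h => h.elim, fun _ h => h.elim⟩, S, G⟩
    (by omega)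

end Pool.Agent.Lib.MP_9dc04a_an
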