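import Pool.Agent.Lib.MP_9dc04a_an.QSl
import Pool.Agent.Lib.MP_9dc04a_an.QExt
import Pool.Agent.Lib.MP_9dc04a_an.QApp0
import Pool.Agent.Lib.MP_9dc04a_an.QApp1

set_option autoImplicit false

namespace Pool.Agent.Lib.MP_9dc04a_an

open Finset Real

/-- reduction of the coefficient problem to final data -/
theorem reduce {h g : ℂ → ℂ} (hh : DifferentiableOn ℂ h (Metric.ball 0 1))
    (hg : DifferentiableOn ℂ g (Metric.ball 0 1)) (h1 : deriv h 0 = 1) (g1 : deriv g 0 = 0)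
    (inj : Set.InjOn (fun z => h z + (starRingEnd ℂ) (g z)) (Metric.ball 0 1))
    (jac : ∀ z ∈ Metric.ball (0:ℂ) 1, ‖deriv g z‖ < ‖deriv h z‖) {n : ℕ} (hn : 2 ≤ n) {B : ℝ}
    (hB : 0 ≤ B) :
    ((∀ N t Ed H d h₁ h₂ h₃ v, Fd N t Ed H d h₁ h₂ h₃ v → ‖Vk n N t v‖ ≤ n * B * ‖Vk 1 N t v‖) →
      ‖iteratedDeriv n h 0 / (n.factorial : ℂ)‖ ≤ B) ∧
    ((∀ N t Ed H d h₁ h₂ h₃ v, Fd N t Ed H d h₁ h₂ h₃ v → ‖Vk (-n) N t v‖ ≤ n * B * ‖Vk 1 N t v‖) →
      ‖iteratedDeriv n g 0 / (n.factorial : ℂ)‖ ≤ B) := by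
  have n0 : (0:ℝ) < n := by exact_mod_cast (by omega : 0 < n)
  have key : ∀ {x : ℝ}, (∀ ε > 0, x ≤ B * (1 + ε) + ε) → x ≤ B := fun {x} h =>
    le_of_forall_pos_le_add fun ε e => by
      have := h (ε / (B + 1)) (by positivity)
      have e2 : B * (1 + ε / (B + 1)) + ε / (B + 1) = B + ε := by field_simp; ring
      linarith
  constructor <;> refine fun hF => key fun ε e => ?_
  all_goals
    obtain ⟨p, q, p1, q1, j, i, a, b⟩ := app_poly hh hg h1 g1 inj jac n e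
    obtain ⟨N, t, v, S, M, v1, vp, vq⟩ := app_step p1 q1 j i hn e
    obtain ⟨Ed, H, ψ, T, G⟩ := M.ext
    have := (slide _ _ (hF N t Ed H) S T G).trans (mul_le_mul_of_nonneg_left v1 (by positivity))
    simp only [vp, vq, mul_assoc] at this
    linarith [le_of_mul_le_mul_left this n0]

end Pool.Agent.Lib.MP_9dc04a_an
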