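import Pool.Agent.Lib.MP_9dc04a_an.Ext

set_option autoImplicit false

namespace Pool.Agent.Lib.MP_9dc04a_an

open Complex Metric Finset Filter Topology
open scoped Real ComplexConjugate

lemma sq_cast (a b : ℂ) : ((‖a‖ ^ 2 - ‖b‖ ^ 2 : ℝ) : ℂ) = a * conj a - b * conj b := by
  rw [mul_conj, mul_conj, normSq_eq_norm_sq, normSq_eq_norm_sq]; push_cast; ring

lemma Cls.pos {h g : ℂ → ℂ} (c : Cls h g) {z : ℂ} (hz : z ∈ ball (0:ℂ) 1) :
    0 < ‖deriv h z‖ ^ 2 - ‖deriv g z‖ ^ 2 := by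
  nlinarith [c.jac z hz, norm_nonneg (deriv g z)]

lemma comp_der {F φ : ℂ → ℂ} (dF : DifferentiableOn ℂ F (ball 0 1))
    (dφ : DifferentiableOn ℂ φ (ball 0 1)) (m : Set.MapsTo φ (ball 0 1) (ball 0 1)) {z : ℂ}
    (hz : z ∈ ball (0:ℂ) 1) : deriv (fun w => F (φ w)) z = deriv F (φ z) * deriv φ z :=
  ((dF.differentiableAt (isOpen_ball.mem_nhds (m hz))).hasDerivAt.comp z
    (dφ.differentiableAt (isOpen_ball.mem_nhds hz)).hasDerivAt).deriv

lemma comp_der2 {F φ : ℂ → ℂ} (dF : DifferentiableOn ℂ F (ball 0 1))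
    (dφ : DifferentiableOn ℂ φ (ball 0 1)) (m : Set.MapsTo φ (ball 0 1) (ball 0 1)) {z : ℂ}
    (hz : z ∈ ball (0:ℂ) 1) : deriv (deriv fun w => F (φ w)) z =
      deriv (deriv F) (φ z) * deriv φ z * deriv φ z + deriv F (φ z) * deriv (deriv φ) z := by
  have n := isOpen_ball.mem_nhds hz
  have e : deriv (fun w => F (φ w)) =ᶠ[𝓝 z] fun w => deriv F (φ w) * deriv φ w := by
    filter_upwards [n] with w hw using comp_der dF dφ m hw
  rw [e.deriv_eq]
  exact ((((dF.deriv isOpen_ball).differentiableAt (isOpen_ball.mem_nhds (m hz))).hasDerivAt.comp z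
    (dφ.differentiableAt n).hasDerivAt).fun_mul
      ((dφ.deriv isOpen_ball).differentiableAt n).hasDerivAt).deriv

lemma Cls.comp {h g φ : ℂ → ℂ} (c : Cls h g) (dφ : DifferentiableOn ℂ φ (ball 0 1))
    (m : Set.MapsTo φ (ball 0 1) (ball 0 1)) (i : Set.InjOn φ (ball 0 1))
    (n : ∀ z ∈ ball (0:ℂ) 1, deriv φ z ≠ 0) :
    Cls (fun w => h (φ w)) (fun w => g (φ w)) ∧ ∀ z ∈ ball (0:ℂ) 1,
      PP (fun w => h (φ w)) (fun w => g (φ w)) z =
        PP h g (φ z) * deriv φ z + deriv (deriv φ) z / deriv φ z := by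
  refine ⟨⟨c.dh.comp dφ m, c.dg.comp dφ m, fun z hz w hw e => i hz hw (c.inj (m hz) (m hw) e),
    fun z hz => ?_⟩, fun z hz => ?_⟩
  · rw [comp_der c.dh dφ m hz, comp_der c.dg dφ m hz, norm_mul, norm_mul]
    exact mul_lt_mul_of_pos_right (c.jac _ (m hz)) (norm_pos_iff.2 (n z hz))
  · have p : deriv h (φ z) * conj (deriv h (φ z)) - deriv g (φ z) * conj (deriv g (φ z)) ≠ 0 := by
      rw [← sq_cast]; exact_mod_cast (c.pos (m hz)).ne'
    have a := n z hz
    have a' : conj (deriv φ z) ≠ 0 := by simpa using a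
    rw [PP, PP, comp_der2 c.dh dφ m hz, comp_der2 c.dg dφ m hz, comp_der c.dh dφ m hz,
      comp_der c.dg dφ m hz, sq_cast, sq_cast, map_mul, map_mul]
    have e : deriv h (φ z) * deriv φ z * (conj (deriv h (φ z)) * conj (deriv φ z)) -
        deriv g (φ z) * deriv φ z * (conj (deriv g (φ z)) * conj (deriv φ z)) =
        (deriv h (φ z) * conj (deriv h (φ z)) - deriv g (φ z) * conj (deriv g (φ z))) *
          deriv φ z * conj (deriv φ z) := by ring
    rw [e]
    generalize hD : deriv h (φ z) * conj (deriv h (φ z)) - deriv g (φ z) * conj (deriv g (φ z)) =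
      D at p ⊢
    field_simp
    rw [← hD]; ring

lemma lin_der {F G : ℂ → ℂ} (a b : ℂ) (dF : DifferentiableOn ℂ F (ball 0 1))
    (dG : DifferentiableOn ℂ G (ball 0 1)) {z : ℂ} (hz : z ∈ ball (0:ℂ) 1) :
    deriv (fun w => a * F w + b * G w) z = a * deriv F z + b * deriv G z :=
  (((dF.differentiableAt (isOpen_ball.mem_nhds hz)).hasDerivAt.const_mul a).fun_add
    ((dG.differentiableAt (isOpen_ball.mem_nhds hz)).hasDerivAt.const_mul b)).deriv

lemma lin_der2 {F G : ℂ → ℂ} (a b : ℂ) (dF : DifferentiableOn ℂ F (ball 0 1))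
    (dG : DifferentiableOn ℂ G (ball 0 1)) {z : ℂ} (hz : z ∈ ball (0:ℂ) 1) :
    deriv (deriv fun w => a * F w + b * G w) z =
      a * deriv (deriv F) z + b * deriv (deriv G) z := by
  have e : deriv (fun w => a * F w + b * G w) =ᶠ[𝓝 z]
      fun w => a * deriv F w + b * deriv G w := by
    filter_upwards [isOpen_ball.mem_nhds hz] with w hw using lin_der a b dF dG hw
  rw [e.deriv_eq, lin_der a b (dF.deriv isOpen_ball) (dG.deriv isOpen_ball) hz]

lemma Cls.aff {h g : ℂ → ℂ} (c : Cls h g) {a b : ℂ} (ab : ‖b‖ < ‖a‖) :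
    Cls (fun w => a * h w + b * g w) (fun w => conj b * h w + conj a * g w) ∧
      ∀ z ∈ ball (0:ℂ) 1,
        PP (fun w => a * h w + b * g w) (fun w => conj b * h w + conj a * g w) z = PP h g z := by
  have q : 0 < ‖a‖ ^ 2 - ‖b‖ ^ 2 := by nlinarith [norm_nonneg b]
  have key : ∀ x y : ℂ, ((‖a * x + b * y‖ ^ 2 - ‖conj b * x + conj a * y‖ ^ 2 : ℝ) : ℂ) =
      ((‖a‖ ^ 2 - ‖b‖ ^ 2 : ℝ) : ℂ) * ((‖x‖ ^ 2 - ‖y‖ ^ 2 : ℝ) : ℂ) := fun x y => by
    rw [sq_cast, sq_cast, sq_cast]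
    simp only [map_add, map_mul, conj_conj]
    ring
  refine ⟨⟨(c.dh.const_mul _).add (c.dg.const_mul _), (c.dh.const_mul _).add (c.dg.const_mul _),
    fun z hz w hw e => c.inj hz hw ?_, fun z hz => ?_⟩, fun z hz => ?_⟩
  · set d := (h z + conj (g z)) - (h w + conj (g w)) with hd
    have e1 : a * d = -(b * conj d) := by
      simp only [map_add, map_mul, conj_conj, hd, map_sub] at e ⊢
      linear_combination e
    have e2 := congrArg norm e1
    rw [norm_neg, norm_mul, norm_mul, Complex.norm_conj] at e2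
    have : ‖d‖ = 0 := by
      by_contra hne
      have := mul_lt_mul_of_pos_right ab (lt_of_le_of_ne (norm_nonneg d) (Ne.symm hne))
      linarith
    exact sub_eq_zero.1 (norm_eq_zero.1 this)
  · rw [lin_der _ _ c.dh c.dg hz, lin_der _ _ c.dh c.dg hz]
    have k := key (deriv h z) (deriv g z)
    have k' : ‖a * deriv h z + b * deriv g z‖ ^ 2 - ‖conj b * deriv h z + conj a * deriv g z‖ ^ 2 =
      (‖a‖ ^ 2 - ‖b‖ ^ 2) * (‖deriv h z‖ ^ 2 - ‖deriv g z‖ ^ 2) := by exact_mod_cast k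
    have := mul_pos q (c.pos hz)
    exact lt_of_pow_lt_pow_left₀ 2 (norm_nonneg _) (by linarith)
  · rw [PP, PP, lin_der _ _ c.dh c.dg hz, lin_der _ _ c.dh c.dg hz, lin_der2 _ _ c.dh c.dg hz,
      lin_der2 _ _ c.dh c.dg hz, key]
    have q' : ((‖a‖ ^ 2 - ‖b‖ ^ 2 : ℝ) : ℂ) ≠ 0 := by exact_mod_cast q.ne'
    rw [← mul_div_mul_left _ ((‖deriv h z‖ ^ 2 - ‖deriv g z‖ ^ 2 : ℝ) : ℂ) q']
    congr 1
    rw [sq_cast]
    simp only [map_add, map_mul, conj_conj]
    ring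

lemma ext1 {h g : ℂ → ℂ} {A : ℝ} (c : Cls h g) (h2 : PP h g 0 = A) (hA : 13 ≤ A)
    (hQ : ∀ z ∈ ball (0:ℂ) 1, ‖QQ h g z‖ ≤ A) : False := by
  have z0 : (0:ℂ) ∈ ball (0:ℂ) 1 := by simp
  have p := c.pos z0
  set J := ‖deriv h 0‖ ^ 2 - ‖deriv g 0‖ ^ 2 with hJ
  have J0 : (J:ℂ) ≠ 0 := by exact_mod_cast p.ne'
  have ab : ‖-conj (deriv g 0) / J‖ < ‖conj (deriv h 0) / J‖ := by
    rw [norm_div, norm_div, norm_neg, Complex.norm_conj, Complex.norm_conj]
    exact div_lt_div_of_pos_right (c.jac 0 z0) (norm_pos_iff.2 J0)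
  obtain ⟨c', e⟩ := c.aff ab
  have h1 : deriv (fun w => conj (deriv h 0) / J * h w + -conj (deriv g 0) / J * g w) 0 = 1 := by
    rw [lin_der _ _ c.dh c.dg z0]
    field_simp
    rw [hJ, sq_cast]; ring
  have g0 : deriv (fun w => conj (-conj (deriv g 0) / J) * h w +
      conj (conj (deriv h 0) / J) * g w) 0 = 0 := by
    rw [lin_der _ _ c.dh c.dg z0]
    simp only [map_div₀, map_neg, conj_conj, conj_ofReal]
    ring
  refine ext c' h1 g0 ?_ hA fun z hz => ?_
  · rw [← h2, ← e 0 z0, PP, h1, g0]; simp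
  · have := hQ z hz
    rw [QQ] at this ⊢
    rwa [e z hz]

lemma ext2 {h g : ℂ → ℂ} (c : Cls h g) {a : ℂ} (ha : ‖a‖ < 1)
    (hQ : ∀ z ∈ ball (0:ℂ) 1, ‖QQ h g z‖ ≤ ‖QQ h g a‖) : ‖QQ h g a‖ < 13 := by
  by_contra hA
  rw [not_lt] at hA
  set q := QQ h g a with hq
  have q0 : (‖q‖ : ℂ) ≠ 0 := by
    have : ‖q‖ ≠ 0 := by linarith
    exact_mod_cast this
  set u : ℂ := conj q / ‖q‖ with hu
  have u1 : ‖u‖ = 1 := by
    rw [hu, norm_div, Complex.norm_conj, Complex.norm_real, norm_norm, div_self (by linarith)]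
  have uq : u * q = ‖q‖ := by
    rw [hu, div_mul_eq_mul_div, mul_comm, mul_conj, normSq_eq_norm_sq]
    push_cast; field_simp
  have u0 : u ≠ 0 := by rw [← norm_ne_zero_iff, u1]; norm_num
  have uu : u * conj u = 1 := by rw [mul_conj, normSq_eq_norm_sq, u1]; simp
  have nu : ∀ w : ℂ, ‖u * w‖ = ‖w‖ := fun w => by rw [norm_mul, u1, one_mul]
  have lt : ∀ w ∈ ball (0:ℂ) 1, ‖u * w‖ < 1 := fun w hw => by
    rw [nu]; exact mem_ball_zero_iff.1 hw
  have k0 : ((1 - ‖a‖ ^ 2 : ℝ) : ℂ) ≠ 0 := by exact_mod_cast (one_sub_sq_pos ha).ne'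
  have d1 : ∀ w ∈ ball (0:ℂ) 1, HasDerivAt (fun w => mob a (u * w))
      (((1 - ‖a‖ ^ 2 : ℝ) : ℂ) / (1 + conj a * (u * w)) ^ 2 * u) w := fun w hw => by
    have := (mob_deriv ha (lt w hw)).comp w ((hasDerivAt_id' w).const_mul u)
    rw [mul_one] at this
    exact this
  have d2 : ∀ w ∈ ball (0:ℂ) 1, deriv (deriv fun w => mob a (u * w)) w =
      -2 * ((1 - ‖a‖ ^ 2 : ℝ) : ℂ) * conj a * u ^ 2 / (1 + conj a * (u * w)) ^ 3 := fun w hw => by
    have e : deriv (fun w => mob a (u * w)) =ᶠ[𝓝 w]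
        fun w => ((1 - ‖a‖ ^ 2 : ℝ) : ℂ) / (1 + conj a * (u * w)) ^ 2 * u := by
      filter_upwards [isOpen_ball.mem_nhds hw] with v hv using (d1 v hv).deriv
    rw [e.deriv_eq]
    have D0 := mob_den ha (lt w hw)
    have b : HasDerivAt (fun w => 1 + conj a * (u * w)) (conj a * (u * 1)) w :=
      (((hasDerivAt_id' w).const_mul u).const_mul (conj a)).const_add 1
    have := (((hasDerivAt_const w ((1 - ‖a‖ ^ 2 : ℝ) : ℂ)).fun_div (b.fun_pow 2)
      (pow_ne_zero 2 D0)).mul_const u).deriv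
    rw [this]
    generalize 1 + conj a * (u * w) = D at D0 ⊢
    field_simp
    push_cast
    ring
  obtain ⟨c', e⟩ := c.comp (φ := fun w => mob a (u * w))
    (fun w hw => (d1 w hw).differentiableAt.differentiableWithinAt)
    (fun w hw => mem_ball_zero_iff.2 (mob_lt ha (lt w hw)))
    (fun z hz w hw e => by
      have D1 := mob_den ha (lt z hz)
      have D2 := mob_den ha (lt w hw)
      simp only [mob] at e
      rw [div_eq_div_iff D1 D2] at e
      have aa : ((1 - ‖a‖ ^ 2 : ℝ) : ℂ) = 1 - a * conj a := by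
        rw [mul_conj, normSq_eq_norm_sq]; push_cast; ring
      apply mul_left_cancel₀ u0
      apply mul_left_cancel₀ k0
      rw [aa]
      linear_combination e)
    (fun w hw => by
      rw [(d1 w hw).deriv]
      exact mul_ne_zero (div_ne_zero k0 (pow_ne_zero 2 (mob_den ha (lt w hw)))) u0)
  have main : ∀ w ∈ ball (0:ℂ) 1, QQ (fun w => h (mob a (u * w))) (fun w => g (mob a (u * w))) w =
      u * (conj (1 + conj a * (u * w)) / (1 + conj a * (u * w))) * QQ h g (mob a (u * w)) :=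
    fun w hw => by
      have D0 := mob_den ha (lt w hw)
      have D1 : conj (1 + conj a * (u * w)) ≠ 0 := by
        rw [← norm_ne_zero_iff, Complex.norm_conj]; exact norm_ne_zero_iff.2 D0
      rw [QQ, QQ, e w hw, d2 w hw, (d1 w hw).deriv, mob_sq ha (lt w hw), nu]
      have ww : ((1 - ‖w‖ ^ 2 : ℝ) : ℂ) = 1 - w * conj w := by
        rw [mul_conj, normSq_eq_norm_sq]; push_cast; ring
      have cm : conj (mob a (u * w)) = (conj u * conj w + conj a) / conj (1 + conj a * (u * w)) := by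
        rw [mob, map_div₀, map_add, map_mul]
      rw [ofReal_div, ofReal_mul, ← normSq_eq_norm_sq (1 + conj a * (u * w)), ← mul_conj, cm, ww]
      generalize ((1 - ‖a‖ ^ 2 : ℝ) : ℂ) = K at k0 ⊢
      generalize conj (1 + conj a * (u * w)) = E at D1 ⊢
      generalize hD : 1 + conj a * (u * w) = D at D0 ⊢
      field_simp
      rw [← hD]
      linear_combination (2 * conj w * (1 + conj a * (u * w))) * uu
  refine ext1 c' (A := ‖q‖) ?_ hA fun w hw => ?_
  · have := main 0 (by simp)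
    simp only [mul_zero, add_zero, map_one, div_one, mul_one] at this
    rw [QQ] at this
    have m0 : mob a 0 = a := by simp [mob]
    rw [m0, ← hq, uq] at this
    simpa using this
  · rw [main w hw, norm_mul, norm_mul, u1, norm_div, Complex.norm_conj,
      div_self (norm_ne_zero_iff.2 (mob_den ha (lt w hw))), one_mul, one_mul]
    exact hQ _ (mem_ball_zero_iff.2 (mob_lt ha (lt w hw)))

lemma Cls.cont {h g : ℂ → ℂ} (c : Cls h g) : ContinuousOn (PP h g) (ball 0 1) := by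
  have a := (c.dh.deriv isOpen_ball).continuousOn
  have b := (c.dg.deriv isOpen_ball).continuousOn
  have a2 := ((c.dh.deriv isOpen_ball).deriv isOpen_ball).continuousOn
  have b2 := ((c.dg.deriv isOpen_ball).deriv isOpen_ball).continuousOn
  refine ((a2.mul (continuous_conj.comp_continuousOn a)).sub
    (b2.mul (continuous_conj.comp_continuousOn b))).div
    (continuous_ofReal.comp_continuousOn ((a.norm.pow 2).sub (b.norm.pow 2))) fun z hz => ?_
  exact_mod_cast (c.pos hz).ne'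

theorem thmA {h g : ℂ → ℂ} (c : Cls h g) {z : ℂ} (hz : z ∈ ball (0:ℂ) 1) : ‖QQ h g z‖ ≤ 13 := by
  have step : ∀ ρ : ℝ, 0 < ρ → ρ < 1 →
      ‖((1 - ‖z‖ ^ 2 : ℝ) : ℂ) * (PP h g (ρ * z) * ρ) - 2 * conj z‖ ≤ 13 := fun ρ r0 r1 => by
    have ρ0 : (ρ:ℂ) ≠ 0 := by exact_mod_cast r0.ne'
    have m : ∀ w ∈ closedBall (0:ℂ) 1, (ρ:ℂ) * w ∈ ball (0:ℂ) 1 := fun w hw => by
      rw [mem_closedBall_zero_iff] at hw
      rw [mem_ball_zero_iff, norm_mul, Complex.norm_real, Real.norm_of_nonneg r0.le]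
      nlinarith [norm_nonneg w]
    have d : deriv (fun w : ℂ => (ρ:ℂ) * w) = fun _ => (ρ:ℂ) := by
      funext w; simp
    obtain ⟨c', e⟩ := c.comp (φ := fun w => (ρ:ℂ) * w) (by fun_prop)
      (fun w hw => m w (ball_subset_closedBall hw)) (fun z _ w _ e => mul_left_cancel₀ ρ0 e)
      (fun w _ => by rw [d]; exact ρ0)
    set F : ℂ → ℝ := fun w => ‖((1 - ‖w‖ ^ 2 : ℝ) : ℂ) * (PP h g (ρ * w) * ρ) - 2 * conj w‖ with hF
    have eF : ∀ w ∈ ball (0:ℂ) 1, ‖QQ (fun w => h (ρ * w)) (fun w => g (ρ * w)) w‖ = F w :=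
      fun w hw => by rw [QQ, e w hw, d]; simp [hF]
    have cF : ContinuousOn F (closedBall 0 1) := by
      have := c.cont.comp (f := fun w : ℂ => (ρ:ℂ) * w) (s := closedBall 0 1) (by fun_prop) m
      refine ContinuousOn.norm (ContinuousOn.sub (ContinuousOn.mul (by fun_prop)
        (this.mul continuousOn_const)) (by fun_prop))
    obtain ⟨a, ha, hm⟩ := (isCompact_closedBall (0:ℂ) 1).exists_isMaxOn ⟨0, by simp⟩ cF
    refine (hm (ball_subset_closedBall hz)).trans ?_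
    rcases (mem_closedBall_zero_iff.1 ha).eq_or_lt with a1 | a1
    · simp [hF, a1]; norm_num
    · rw [← eF a (mem_ball_zero_iff.2 a1)]
      refine (ext2 c' a1 fun w hw => ?_).le
      rw [eF w hw, eF a (mem_ball_zero_iff.2 a1)]
      exact hm (ball_subset_closedBall hw)
  have ct : ContinuousAt (fun ρ : ℝ =>
      ‖((1 - ‖z‖ ^ 2 : ℝ) : ℂ) * (PP h g (ρ * z) * ρ) - 2 * conj z‖) 1 := by
    have : ContinuousAt (fun ρ : ℝ => PP h g (ρ * z)) 1 :=
      ContinuousAt.comp (g := PP h g)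
        (by simpa using c.cont.continuousAt (isOpen_ball.mem_nhds hz)) (by fun_prop)
    fun_prop
  have := le_of_tendsto (ct.tendsto.mono_left (nhdsWithin_le_nhds (s := Set.Iio 1)))
    (b := 13) (by filter_upwards [Ioo_mem_nhdsLT one_pos] with ρ hρ using step ρ hρ.1 hρ.2)
  simpa [QQ] using this

end Pool.Agent.Lib.MP_9dc04a_an
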