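import Mathlib

set_option autoImplicit false

namespace Pool.Agent.Lib.MP_9dc04a_an

open Complex Metric Finset Filter Topology Polynomial
open scoped Real

/-- enumeration of the reciprocal roots -/
def En (d : ℕ) (R : ℂ[X]) (w : Fin d → ℂ) : Prop := ∀ z, R.eval z = ∏ i, (1 - w i * z)

lemma En.ex : ∀ (d : ℕ) (R : ℂ[X]), R.natDegree ≤ d → R.eval 0 = 1 → ∃ w, En d R w := by
  intro d
  induction d with
  | zero =>
    intro R h h0
    refine ⟨fun _ => 0, fun z => ?_⟩
    rw [eq_C_of_natDegree_le_zero h] at h0 ⊢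
    simpa using h0
  | succ d ih =>
    intro R h h0
    by_cases hd : R.degree = 0
    · refine ⟨fun _ => 0, fun z => ?_⟩
      rw [eq_C_of_degree_eq_zero hd] at h0 ⊢
      simpa using h0
    · obtain ⟨z0, hz⟩ := IsAlgClosed.exists_root R hd
      have z0ne : z0 ≠ 0 := by
        rintro rfl
        rw [IsRoot.def, h0] at hz
        exact one_ne_zero hz
      have R0 : R ≠ 0 := by rintro rfl; simp at h0
      obtain ⟨R1, rfl⟩ := dvd_iff_isRoot.2 hz
      have R10 : R1 ≠ 0 := right_ne_zero_of_mul R0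
      rw [natDegree_mul (X_sub_C_ne_zero z0) R10, natDegree_X_sub_C] at h
      obtain ⟨w, hw⟩ := ih (C (-z0) * R1) ((natDegree_C_mul_le _ _).trans (by omega))
        (by simpa using h0)
      refine ⟨Fin.cons z0⁻¹ w, fun z => ?_⟩
      rw [Fin.prod_univ_succ]
      simp only [Fin.cons_zero, Fin.cons_succ]
      rw [← hw z]
      simp only [eval_mul, eval_sub, eval_X, eval_C]
      field_simp
      ring

lemma En.eq {d : ℕ} {R : ℂ[X]} {w : Fin d → ℂ} (h : En d R w) :
    R = ∏ i, (1 + C (-w i) * X) := by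
  apply Polynomial.funext
  intro z
  rw [h z, eval_prod]
  refine prod_congr rfl fun i _ => ?_
  simp; ring

lemma En.esymm {d : ℕ} {R : ℂ[X]} {w : Fin d → ℂ} (h : En d R w) (k : ℕ) :
    MvPolynomial.aeval w (MvPolynomial.esymm (Fin d) ℂ k) = (-1) ^ k * R.coeff k := by
  rw [h.eq, prod_one_add, finset_sum_coeff, MvPolynomial.esymm, map_sum, mul_sum,
    powersetCard_eq_filter, sum_filter]
  refine sum_congr rfl fun t _ => ?_
  rw [prod_mul_distrib, prod_const, ← map_prod, coeff_C_mul, coeff_X_pow]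
  by_cases ht : #t = k
  · subst ht
    simp only [if_true, map_prod, MvPolynomial.aeval_X, mul_one]
    rw [← prod_const, ← prod_mul_distrib]
    simp
  · rw [if_neg ht, if_neg (Ne.symm ht)]; simp

lemma En.perm {d : ℕ} {R : ℂ[X]} {w w' : Fin d → ℂ} (h : En d R w) (h' : En d R w') :
    ∃ e : Equiv.Perm (Fin d), ∀ i, w' (e i) = w i := by
  have k : ∀ u : Fin d → ℂ, En d R u → ∀ x : ℂ, x ≠ 0 →
      (∏ i, (X - C (u i))).eval x = x ^ d * R.eval x⁻¹ := by
    intro u hu x hx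
    rw [hu, eval_prod]
    have : x ^ d = ∏ _i : Fin d, x := by simp
    rw [this, ← prod_mul_distrib]
    refine prod_congr rfl fun i _ => ?_
    simp; field_simp
  have e1 : (∏ i, (X - C (w i))) = ∏ i, (X - C (w' i)) := by
    apply eq_of_infinite_eval_eq
    refine (Set.Finite.infinite_compl (Set.finite_singleton (0:ℂ))).mono fun x hx => ?_
    simp only [Set.mem_setOf_eq]
    rw [k w h x hx, k w' h' x hx]
  have e2 : (univ.val.map w) = univ.val.map w' := by
    have a := roots_multiset_prod_X_sub_C (univ.val.map w)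
    have b := roots_multiset_prod_X_sub_C (univ.val.map w')
    rw [Multiset.map_map] at a b
    rw [← a, ← b]
    exact congrArg _ e1
  have e3 : ∀ c, Fintype.card {i // w i = c} = Fintype.card {i // w' i = c} := by
    intro c
    have a := congrArg (Multiset.count c) e2
    rw [Multiset.count_map, Multiset.count_map] at a
    rw [Fintype.card_subtype, Fintype.card_subtype]
    simp only [@eq_comm _ c] at a
    exact a
  refine ⟨Equiv.ofFiberEquiv (f := w) (g := w') fun c => Fintype.equivOfCardEq (e3 c), fun i => ?_⟩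
  exact Equiv.ofFiberEquiv_map _ i

lemma ne_sets (d k : ℕ) : ((univ : Finset (Finset (Fin d))).filter (fun I => #I ≤ k)).Nonempty :=
  ⟨∅, by simp⟩

/-- sum of the `k` largest values of `log⁺ ‖w i‖` -/
noncomputable def GG {d : ℕ} (k : ℕ) (w : Fin d → ℂ) : ℝ :=
  ((univ : Finset (Finset (Fin d))).filter (fun I => #I ≤ k)).sup' (ne_sets d k)
    (fun I => ∑ i ∈ I, Real.posLog ‖w i‖)

lemma le_GG {d k : ℕ} (w : Fin d → ℂ) {I : Finset (Fin d)} (hI : #I ≤ k) :
    ∑ i ∈ I, Real.posLog ‖w i‖ ≤ GG k w :=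
  le_sup' (fun I => ∑ i ∈ I, Real.posLog ‖w i‖) (by simpa using hI)

lemma GG_ex {d : ℕ} (k : ℕ) (w : Fin d → ℂ) :
    ∃ I : Finset (Fin d), #I ≤ k ∧ GG k w = ∑ i ∈ I, Real.posLog ‖w i‖ := by
  obtain ⟨I, hI, e⟩ := exists_mem_eq_sup' (ne_sets d k) (fun I => ∑ i ∈ I, Real.posLog ‖w i‖)
  exact ⟨I, by simpa using hI, e⟩

lemma GG_nonneg {d : ℕ} (k : ℕ) (w : Fin d → ℂ) : 0 ≤ GG k w := by
  simpa using le_GG (k := k) w (I := ∅) (by simp)

lemma GG_mono {d k l : ℕ} (h : k ≤ l) (w : Fin d → ℂ) : GG k w ≤ GG l w := by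
  obtain ⟨I, hI, e⟩ := GG_ex k w
  rw [e]; exact le_GG w (hI.trans h)

lemma GG_top {d : ℕ} (w : Fin d → ℂ) : GG d w = ∑ i, Real.posLog ‖w i‖ := by
  refine le_antisymm ?_ (le_GG w (by simp))
  obtain ⟨I, -, e⟩ := GG_ex d w
  rw [e]
  exact sum_le_sum_of_subset_of_nonneg (subset_univ _) fun _ _ _ => Real.posLog_nonneg

lemma GG_cont {d : ℕ} (k : ℕ) : Continuous (GG (d := d) k) := by
  unfold GG
  refine Continuous.finset_sup'_apply _ fun I _ => ?_
  exact continuous_finset_sum _ fun i _ => Real.continuous_posLog.comp (by fun_prop)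

lemma GG_perm {d k : ℕ} {w w' : Fin d → ℂ} (e : Equiv.Perm (Fin d)) (h : ∀ i, w' (e i) = w i) :
    GG k w ≤ GG k w' := by
  obtain ⟨I, hI, he⟩ := GG_ex k w
  rw [he]
  have := le_GG (k := k) w' (I := I.map e.toEmbedding) (by simpa using hI)
  simpa [h] using this

lemma En.GG_eq {d : ℕ} {R : ℂ[X]} {w w' : Fin d → ℂ} (h : En d R w) (h' : En d R w') (k : ℕ) :
    GG k w = GG k w' := by
  obtain ⟨e, he⟩ := h.perm h'
  obtain ⟨e', he'⟩ := h'.perm h
  exact le_antisymm (GG_perm e he) (GG_perm e' he')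

lemma GG_sorted {d : ℕ} (hd : 2 ≤ d) (w : Fin d → ℂ) : ∃ i j, i ≠ j ∧
    GG 1 w = Real.posLog ‖w i‖ ∧ GG 2 w = Real.posLog ‖w i‖ + Real.posLog ‖w j‖ ∧
    Real.posLog ‖w j‖ ≤ Real.posLog ‖w i‖ ∧ ∀ l, l ≠ i → Real.posLog ‖w l‖ ≤ Real.posLog ‖w j‖ := by
  set p : Fin d → ℝ := fun i => Real.posLog ‖w i‖ with hp
  have p0 : ∀ i, 0 ≤ p i := fun _ => Real.posLog_nonneg
  obtain ⟨i, -, hi⟩ := exists_max_image univ p ⟨⟨0, by omega⟩, mem_univ _⟩
  have ne : (univ.erase i).Nonempty := by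
    rw [← card_pos, card_erase_of_mem (mem_univ _)]; simp; omega
  obtain ⟨j, hj, hj'⟩ := exists_max_image (univ.erase i) p ne
  have ji : j ≠ i := ne_of_mem_erase hj
  have hl : ∀ l, l ≠ i → p l ≤ p j := fun l hl => hj' l (by simpa using hl)
  have hi' : ∀ l, p l ≤ p i := fun l => hi l (mem_univ _)
  refine ⟨i, j, ji.symm, le_antisymm ?_ ?_, le_antisymm ?_ ?_, hi' j, hl⟩
  · obtain ⟨I, hI, e⟩ := GG_ex 1 w
    rw [e]
    rcases I.eq_empty_or_nonempty with rfl | ⟨a, ha⟩
    · simpa using p0 i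
    · obtain rfl : I = {a} := eq_singleton_iff_unique_mem.2 ⟨ha, fun x hx => card_le_one.1 hI x hx a ha⟩
      simpa using hi' a
  · simpa using le_GG (k := 1) w (I := {i}) (by simp)
  · obtain ⟨I, hI, e⟩ := GG_ex 2 w
    rw [e]
    have a1 : ∑ l ∈ I.erase i, p l ≤ #(I.erase i) • p j :=
      sum_le_card_nsmul _ _ _ fun l hl' => hl l (ne_of_mem_erase hl')
    rw [nsmul_eq_mul] at a1
    by_cases hiI : i ∈ I
    · rw [← add_sum_erase I _ hiI]
      have : (#(I.erase i) : ℝ) ≤ 1 := by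
        rw [card_erase_of_mem hiI]; exact_mod_cast (by omega : #I - 1 ≤ 1)
      have := p0 j
      change p i + ∑ l ∈ I.erase i, p l ≤ p i + p j
      nlinarith
    · rw [erase_eq_of_notMem hiI] at a1
      have : (#I : ℝ) ≤ 2 := by exact_mod_cast hI
      have := p0 j
      have := hi' j
      change ∑ l ∈ I, p l ≤ p i + p j
      nlinarith
  · have := le_GG (k := 2) w (I := {i, j}) card_le_two
    rwa [sum_pair ji.symm] at this

end Pool.Agent.Lib.MP_9dc04a_an
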