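import Mathlib

set_option autoImplicit false

namespace Pool.Agent.Lib.MP_9dc04a_an

open Complex Metric Filter Topology Real MeasureTheory Set
open scoped Real

structure SD (F1 F2 F3 : ℂ → ℝ) : Prop where
  c1 : Continuous F1
  c2 : Continuous F2
  c3 : Continuous F3
  p1 : ∀ σ, F1 (σ + 2 * π * I) = F1 σ
  p2 : ∀ σ, F2 (σ + 2 * π * I) = F2 σ
  p3 : ∀ σ, F3 (σ + 2 * π * I) = F3 σ
  s1 : ∀ c R, 0 < R → F1 c ≤ circleAverage F1 c R
  s2 : ∀ c R, 0 < R → F2 c ≤ circleAverage F2 c R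
  s3 : ∀ c R, 0 < R → F3 c ≤ circleAverage F3 c R
  n1 : ∀ σ, 0 ≤ F1 σ
  l12 : ∀ σ, F1 σ ≤ F2 σ
  l21 : ∀ σ, F2 σ ≤ 2 * F1 σ
  l23 : ∀ σ, F2 σ ≤ F3 σ
  ax1 : ∀ s : ℝ, F3 (s + (π / 2 : ℝ) * I) = F2 (s + (π / 2 : ℝ) * I)
  ax2 : ∀ s : ℝ, F3 (s + (-(π / 2) : ℝ) * I) = F2 (s + (-(π / 2) : ℝ) * I)

structure Wt where
  a : ℝ → ℝ
  b : ℝ → ℝ
  c : ℝ → ℝ

structure Pre (e : Wt) : Prop where
  ma : Measurable e.a
  mb : Measurable e.b
  mc : Measurable e.c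
  pa : Function.Periodic e.a (2 * π)
  pb : Function.Periodic e.b (2 * π)
  pc : Function.Periodic e.c (2 * π)
  c0 : ∀ θ, 0 ≤ e.c θ
  cb : ∀ θ, e.c θ ≤ e.b θ
  ba : ∀ θ, e.b θ ≤ e.a θ
  a1 : ∀ θ, e.a θ ≤ 1

structure Adm (e : Wt) : Prop extends Pre e where
  ev : ∀ θ, e.c (π - θ) = e.c θ

noncomputable def WW (F1 F2 F3 : ℂ → ℝ) (e : Wt) (θ : ℝ) (σ : ℂ) : ℝ :=
  (e.a θ - e.b θ) * F1 σ + (e.b θ - e.c θ) * F2 σ + e.c θ * F3 σ

noncomputable def val (F1 F2 F3 : ℂ → ℝ) (e : Wt) (s : ℝ) : ℝ :=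
  ∫ θ in (0:ℝ)..2 * π, WW F1 F2 F3 e θ (s + θ * I)

noncomputable def cost (e : Wt) : ℝ := ∫ θ in (0:ℝ)..2 * π, (e.a θ + e.b θ + e.c θ / 2)

noncomputable def vv (F1 F2 F3 : ℂ → ℝ) (s t : ℝ) : ℝ :=
  sSup {x | ∃ e, Adm e ∧ cost e ≤ 2 * t ∧ val F1 F2 F3 e s = x}

lemma ii_bd {g : ℝ → ℝ} (hg : Measurable g) {C : ℝ} (h : ∀ x, |g x| ≤ C) (a b : ℝ) :
    IntervalIntegrable g volume a b :=
  (intervalIntegrable_const (c := C)).mono_fun' hg.aestronglyMeasurable (ae_of_all _ h)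

variable {F1 F2 F3 : ℂ → ℝ}

lemma Pre.ia {e : Wt} (h : Pre e) (a b : ℝ) : IntervalIntegrable e.a volume a b :=
  ii_bd h.ma (C := 1) (fun x => abs_le.2 ⟨by linarith [h.c0 x, h.cb x, h.ba x], h.a1 x⟩) a b

lemma Pre.ib {e : Wt} (h : Pre e) (a b : ℝ) : IntervalIntegrable e.b volume a b :=
  ii_bd h.mb (C := 1) (fun x => abs_le.2 ⟨by linarith [h.c0 x, h.cb x],
    by linarith [h.a1 x, h.ba x]⟩) a b

lemma Pre.ic {e : Wt} (h : Pre e) (a b : ℝ) : IntervalIntegrable e.c volume a b :=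
  ii_bd h.mc (C := 1) (fun x => abs_le.2 ⟨by linarith [h.c0 x],
    by linarith [h.a1 x, h.ba x, h.cb x]⟩) a b

lemma Pre.icost {e : Wt} (h : Pre e) (a b : ℝ) :
    IntervalIntegrable (fun θ => e.a θ + e.b θ + e.c θ / 2) volume a b :=
  ((h.ia a b).add (h.ib a b)).add ((h.ic a b).div_const 2)

lemma SD.iW (S : SD F1 F2 F3) {e : Wt} (h : Pre e) {σ : ℝ → ℂ} (hσ : Continuous σ) (a b : ℝ) :
    IntervalIntegrable (fun θ => WW F1 F2 F3 e θ (σ θ)) volume a b :=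
  ((((h.ia a b).sub (h.ib a b)).mul_continuousOn (S.c1.comp hσ).continuousOn).add
    (((h.ib a b).sub (h.ic a b)).mul_continuousOn (S.c2.comp hσ).continuousOn)).add
    ((h.ic a b).mul_continuousOn (S.c3.comp hσ).continuousOn)

lemma SD.ival (S : SD F1 F2 F3) {e : Wt} (h : Pre e) (s a b : ℝ) :
    IntervalIntegrable (fun θ : ℝ => WW F1 F2 F3 e θ (s + θ * I)) volume a b :=
  S.iW h (by fun_prop) a b

lemma SD.W0 (S : SD F1 F2 F3) {e : Wt} (h : Pre e) (θ : ℝ) (σ : ℂ) : 0 ≤ WW F1 F2 F3 e θ σ := by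
  have := S.n1 σ; have := S.l12 σ; have := S.l23 σ
  have := h.c0 θ; have := h.cb θ; have := h.ba θ
  unfold WW
  have : 0 ≤ (e.a θ - e.b θ) * F1 σ := mul_nonneg (by linarith) (by linarith)
  have : 0 ≤ (e.b θ - e.c θ) * F2 σ := mul_nonneg (by linarith) (by linarith)
  have : 0 ≤ e.c θ * F3 σ := mul_nonneg (by linarith) (by linarith)
  linarith

lemma SD.Wle (S : SD F1 F2 F3) {e : Wt} (h : Pre e) (θ : ℝ) (σ : ℂ) :
    WW F1 F2 F3 e θ σ ≤ e.a θ * F3 σ := by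
  have := S.l12 σ; have := S.l23 σ
  have := h.cb θ; have := h.ba θ
  unfold WW
  have : (e.a θ - e.b θ) * F1 σ ≤ (e.a θ - e.b θ) * F3 σ :=
    mul_le_mul_of_nonneg_left (by linarith) (by linarith)
  have : (e.b θ - e.c θ) * F2 σ ≤ (e.b θ - e.c θ) * F3 σ :=
    mul_le_mul_of_nonneg_left (by linarith) (by linarith)
  linarith

lemma SD.n3 (S : SD F1 F2 F3) (σ : ℂ) : 0 ≤ F3 σ := by
  linarith [S.n1 σ, S.l12 σ, S.l23 σ]

lemma SD.Wle' (S : SD F1 F2 F3) {e : Wt} (h : Pre e) (θ : ℝ) (σ : ℂ) :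
    WW F1 F2 F3 e θ σ ≤ F3 σ :=
  (S.Wle h θ σ).trans (mul_le_of_le_one_left (S.n3 σ) (h.a1 θ))

lemma Pre.cost0 {e : Wt} (h : Pre e) : 0 ≤ cost e :=
  intervalIntegral.integral_nonneg (by positivity) fun θ _ => by
    linarith [h.c0 θ, h.cb θ, h.ba θ]

lemma adm_const {a b c : ℝ} (h0 : 0 ≤ c) (h1 : c ≤ b) (h2 : b ≤ a) (h3 : a ≤ 1) :
    Adm ⟨fun _ => a, fun _ => b, fun _ => c⟩ :=
  ⟨⟨measurable_const, measurable_const, measurable_const, fun _ => rfl, fun _ => rfl,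
    fun _ => rfl, fun _ => h0, fun _ => h1, fun _ => h2, fun _ => h3⟩, fun _ => rfl⟩

lemma cost_const (a b c : ℝ) :
    cost ⟨fun _ => a, fun _ => b, fun _ => c⟩ = 2 * π * (a + b + c / 2) := by
  simp [cost]; ring

lemma SD.le_v (S : SD F1 F2 F3) {e : Wt} (h : Adm e) {t : ℝ} (ht : cost e ≤ 2 * t) (s : ℝ) :
    val F1 F2 F3 e s ≤ vv F1 F2 F3 s t := by
  refine le_csSup ⟨∫ θ in (0:ℝ)..2 * π, F3 (s + θ * I), ?_⟩ ⟨e, h, ht, rfl⟩
  rintro _ ⟨e, h, -, rfl⟩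
  exact intervalIntegral.integral_mono_on (by positivity) (S.ival h.toPre _ _ _)
    ((S.c3.comp (by fun_prop)).intervalIntegrable _ _) fun θ _ => S.Wle' h.toPre _ _

lemma v_le {t s b : ℝ} (ht : 0 ≤ t) (h : ∀ e, Adm e → cost e ≤ 2 * t → val F1 F2 F3 e s ≤ b) :
    vv F1 F2 F3 s t ≤ b := by
  refine csSup_le ⟨_, _, adm_const le_rfl le_rfl le_rfl zero_le_one, ?_, rfl⟩ ?_
  · rw [cost_const]; linarith
  · rintro _ ⟨e, he, hc, rfl⟩
    exact h e he hc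

lemma SD.v_mono (S : SD F1 F2 F3) (s : ℝ) {t t' : ℝ} (ht : 0 ≤ t) (h : t ≤ t') :
    vv F1 F2 F3 s t ≤ vv F1 F2 F3 s t' :=
  v_le ht fun _ he hc => S.le_v he (by linarith) s

lemma SD.v0 (S : SD F1 F2 F3) (s : ℝ) {t : ℝ} (ht : 0 ≤ t) : 0 ≤ vv F1 F2 F3 s t := by
  have := S.le_v (adm_const le_rfl le_rfl le_rfl zero_le_one) (t := t)
    (by rw [cost_const]; linarith) s
  simpa [val, WW] using this

def cmb (p q : ℝ) (e f : Wt) : Wt :=
  ⟨fun θ => p * e.a θ + q * f.a θ, fun θ => p * e.b θ + q * f.b θ, fun θ => p * e.c θ + q * f.c θ⟩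

lemma Adm.cmb {e f : Wt} (he : Adm e) (hf : Adm f) {p q : ℝ} (hp : 0 ≤ p) (hq : 0 ≤ q)
    (h : p + q ≤ 1) : Adm (cmb p q e f) := by
  refine ⟨⟨(he.ma.const_mul p).add (hf.ma.const_mul q), (he.mb.const_mul p).add (hf.mb.const_mul q),
    (he.mc.const_mul p).add (hf.mc.const_mul q), fun θ => ?_, fun θ => ?_, fun θ => ?_,
    fun θ => ?_, fun θ => ?_, fun θ => ?_, fun θ => ?_⟩, fun θ => ?_⟩ <;>
    simp only [Pool.Agent.Lib.MP_9dc04a_an.cmb]
  · rw [he.pa, hf.pa]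
  · rw [he.pb, hf.pb]
  · rw [he.pc, hf.pc]
  · have := he.c0 θ; have := hf.c0 θ; positivity
  · nlinarith [he.cb θ, hf.cb θ]
  · nlinarith [he.ba θ, hf.ba θ]
  · nlinarith [he.a1 θ, hf.a1 θ]
  · rw [he.ev, hf.ev]

lemma cost_cmb {e f : Wt} (he : Pre e) (hf : Pre f) (p q : ℝ) :
    cost (cmb p q e f) = p * cost e + q * cost f := by
  unfold cost
  rw [← intervalIntegral.integral_const_mul, ← intervalIntegral.integral_const_mul,
    ← intervalIntegral.integral_add ((he.icost _ _).const_mul p) ((hf.icost _ _).const_mul q)]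
  congr 1; funext θ; simp only [cmb]; ring

lemma SD.val_cmb (S : SD F1 F2 F3) {e f : Wt} (he : Pre e) (hf : Pre f) (p q s : ℝ) :
    val F1 F2 F3 (cmb p q e f) s = p * val F1 F2 F3 e s + q * val F1 F2 F3 f s := by
  unfold val
  rw [← intervalIntegral.integral_const_mul, ← intervalIntegral.integral_const_mul,
    ← intervalIntegral.integral_add ((S.ival he _ _ _).const_mul p) ((S.ival hf _ _ _).const_mul q)]
  congr 1; funext θ; simp only [cmb, WW]; ring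

lemma SD.v_conc (S : SD F1 F2 F3) (s : ℝ) {t t' p q : ℝ} (ht : 0 ≤ t) (ht' : 0 ≤ t') (hp : 0 ≤ p)
    (hq : 0 ≤ q) (h : p + q = 1) :
    p * vv F1 F2 F3 s t + q * vv F1 F2 F3 s t' ≤ vv F1 F2 F3 s (p * t + q * t') := by
  rcases hp.eq_or_lt with rfl | hp
  · obtain rfl : q = 1 := by linarith
    simp
  rcases hq.eq_or_lt with rfl | hq
  · obtain rfl : p = 1 := by linarith
    simp
  have a : vv F1 F2 F3 s t ≤ (vv F1 F2 F3 s (p * t + q * t') - q * vv F1 F2 F3 s t') / p := by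
    refine v_le ht fun e he hc => ?_
    have b : vv F1 F2 F3 s t' ≤ (vv F1 F2 F3 s (p * t + q * t') - p * val F1 F2 F3 e s) / q := by
      refine v_le ht' fun f hf hc' => ?_
      have := S.le_v (he.cmb hf hp.le hq.le h.le) (t := p * t + q * t')
        (by rw [cost_cmb he.toPre hf.toPre]; nlinarith) s
      rw [S.val_cmb he.toPre hf.toPre] at this
      rw [le_div_iff₀ hq]; linarith
    rw [le_div_iff₀ hq] at b
    rw [le_div_iff₀ hp]; linarith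
  rw [le_div_iff₀ hp] at a
  linarith

lemma SD.v_sym (S : SD F1 F2 F3) (s : ℝ) {t x δ : ℝ} (h0 : 0 ≤ δ) (h1 : δ ≤ x) (h2 : x ≤ t) :
    vv F1 F2 F3 s (t + x) + vv F1 F2 F3 s (t - x) ≤
      vv F1 F2 F3 s (t + δ) + vv F1 F2 F3 s (t - δ) := by
  rcases (h0.trans h1).eq_or_lt with e | hx
  · obtain rfl : δ = x := by linarith
    exact le_rfl
  have p0 : 0 ≤ (x + δ) / (2 * x) := by positivity
  have q0 : 0 ≤ (x - δ) / (2 * x) := div_nonneg (by linarith) (by positivity)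
  have pq : (x + δ) / (2 * x) + (x - δ) / (2 * x) = 1 := by field_simp; ring
  have a := S.v_conc s (t := t + x) (t' := t - x) (by linarith) (by linarith) p0 q0 pq
  have b := S.v_conc s (t := t + x) (t' := t - x) (by linarith) (by linarith) q0 p0 (by linarith)
  rw [show (x + δ) / (2 * x) * (t + x) + (x - δ) / (2 * x) * (t - x) = t + δ by
    field_simp; ring] at a
  rw [show (x - δ) / (2 * x) * (t + x) + (x + δ) / (2 * x) * (t - x) = t - δ by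
    field_simp; ring] at b
  have : (x - δ) / (2 * x) = 1 - (x + δ) / (2 * x) := by linarith
  rw [this] at a b
  linarith

lemma SD.val_le (S : SD F1 F2 F3) {e : Wt} (h : Pre e) {s C : ℝ}
    (hC : ∀ θ ∈ Icc (0:ℝ) (2 * π), F3 (s + θ * I) ≤ C) : val F1 F2 F3 e s ≤ C * cost e := by
  unfold val cost
  rw [← intervalIntegral.integral_const_mul]
  refine intervalIntegral.integral_mono_on (by positivity) (S.ival h _ _ _)
    ((h.icost _ _).const_mul C) fun θ hθ => (S.Wle h _ _).trans ?_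
  have := hC θ hθ; have := S.n3 (s + θ * I)
  have := h.c0 θ; have := h.cb θ; have := h.ba θ
  nlinarith

lemma SD.v_zero (S : SD F1 F2 F3) (s : ℝ) : vv F1 F2 F3 s 0 = 0 := by
  refine le_antisymm (v_le le_rfl fun e he hc => ?_) (S.v0 s le_rfl)
  obtain ⟨C, hC⟩ := (isCompact_Icc (a := (0:ℝ)) (b := 2 * π)).bddAbove_image
    (f := fun θ : ℝ => F3 (s + θ * I)) (S.c3.comp (by fun_prop)).continuousOn
  have := S.val_le he.toPre (s := s) (C := C) fun θ hθ => hC ⟨θ, hθ, rfl⟩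
  rwa [le_antisymm (by simpa using hc) he.cost0, mul_zero] at this

lemma SD.v_lip (S : SD F1 F2 F3) {s C t t' : ℝ} (ht : 0 ≤ t) (h : t ≤ t')
    (hC : ∀ θ ∈ Icc (0:ℝ) (2 * π), F3 (s + θ * I) ≤ C) :
    vv F1 F2 F3 s t' ≤ vv F1 F2 F3 s t + 2 * C * (t' - t) := by
  have C0 : 0 ≤ C := (S.n3 _).trans (hC 0 ⟨le_rfl, by positivity⟩)
  rcases (ht.trans h).eq_or_lt with e | ht'
  · obtain rfl : t = t' := by linarith
    simp
  have a : vv F1 F2 F3 s t' ≤ C * (2 * t') :=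
    v_le ht'.le fun e he hc => (S.val_le he.toPre hC).trans (mul_le_mul_of_nonneg_left hc C0)
  have p0 : 0 ≤ t / t' := by positivity
  have q0 : 0 ≤ (t' - t) / t' := div_nonneg (by linarith) ht'.le
  have b := S.v_conc s (t := t') (t' := 0) ht'.le le_rfl p0 q0 (by field_simp; ring)
  rw [S.v_zero, mul_zero, add_zero, add_zero, div_mul_cancel₀ _ ht'.ne'] at b
  have c := mul_le_mul_of_nonneg_left a q0
  rw [show (t' - t) / t' * (C * (2 * t')) = 2 * C * (t' - t) by field_simp] at c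
  have : t / t' = 1 - (t' - t) / t' := by field_simp; ring
  rw [this] at b
  linarith

lemma SD.v_s (S : SD F1 F2 F3) {s s' ε t : ℝ} (ht : 0 ≤ t)
    (h : ∀ θ ∈ Icc (0:ℝ) (2 * π), F1 (s + θ * I) ≤ F1 (s' + θ * I) + ε ∧
      F2 (s + θ * I) ≤ F2 (s' + θ * I) + ε ∧ F3 (s + θ * I) ≤ F3 (s' + θ * I) + ε) (hε : 0 ≤ ε) :
    vv F1 F2 F3 s t ≤ vv F1 F2 F3 s' t + 2 * π * ε := by
  refine v_le ht fun e he hc => le_trans ?_ (add_le_add_left (S.le_v he hc s') _)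
  have : val F1 F2 F3 e s' + 2 * π * ε =
      ∫ θ in (0:ℝ)..2 * π, (WW F1 F2 F3 e θ (s' + θ * I) + ε) := by
    rw [intervalIntegral.integral_add (S.ival he.toPre _ _ _) intervalIntegrable_const]
    simp [val]
  rw [this]
  refine intervalIntegral.integral_mono_on (by positivity) (S.ival he.toPre _ _ _)
    ((S.ival he.toPre _ _ _).add intervalIntegrable_const) fun θ hθ => ?_
  obtain ⟨a, b, c⟩ := h θ hθ
  have := mul_le_mul_of_nonneg_left a (sub_nonneg.2 (he.ba θ))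
  have := mul_le_mul_of_nonneg_left b (sub_nonneg.2 (he.cb θ))
  have := mul_le_mul_of_nonneg_left c (he.c0 θ)
  have := mul_le_of_le_one_left hε (he.a1 θ)
  unfold WW
  linarith

lemma tube {F : ℂ → ℝ} (hF : Continuous F) (s0 : ℝ) {ε : ℝ} (hε : 0 < ε) :
    ∀ᶠ s : ℝ in 𝓝 s0, ∀ θ ∈ Icc (0:ℝ) (2 * π), |F (s + θ * I) - F (s0 + θ * I)| < ε := by
  refine isCompact_Icc.eventually_forall_of_forall_eventually fun θ _ => ?_
  have c : Continuous fun x : ℝ × ℝ => |F (x.1 + x.2 * I) - F (s0 + x.2 * I)| := by fun_prop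
  exact c.continuousAt.eventually_lt continuousAt_const (by simpa using hε)

lemma SD.v_cont (S : SD F1 F2 F3) :
    ContinuousOn (fun x : ℝ × ℝ => vv F1 F2 F3 x.1 x.2) {x | 0 ≤ x.2} := by
  rintro ⟨s0, t0⟩ (ht0 : 0 ≤ t0)
  refine Metric.tendsto_nhds.2 fun ε hε => ?_
  obtain ⟨C, hC⟩ := (isCompact_Icc (a := (0:ℝ)) (b := 2 * π)).bddAbove_image
    (f := fun θ : ℝ => F3 (s0 + θ * I)) (S.c3.comp (by fun_prop)).continuousOn
  have hC' : ∀ θ ∈ Icc (0:ℝ) (2 * π), F3 (s0 + θ * I) ≤ C := fun θ hθ => hC ⟨θ, hθ, rfl⟩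
  have C0 : 0 ≤ C := (S.n3 _).trans (hC' 0 ⟨le_rfl, by positivity⟩)
  have e0 : 0 < ε / (8 * π) := by positivity
  have u := ((tube S.c1 s0 e0).and (tube S.c2 s0 e0)).and (tube S.c3 s0 e0)
  have u1 := (continuous_fst.tendsto (s0, t0)).eventually u
  have c : Continuous fun x : ℝ × ℝ => 2 * C * |x.2 - t0| := by fun_prop
  have u2 : ∀ᶠ x in 𝓝 (s0, t0), 2 * C * |x.2 - t0| < ε / 2 :=
    c.continuousAt.eventually_lt continuousAt_const (by simpa using hε)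
  filter_upwards [self_mem_nhdsWithin, nhdsWithin_le_nhds u1, nhdsWithin_le_nhds u2]
  rintro ⟨s, t⟩ (ht : 0 ≤ t) ⟨⟨a1, a2⟩, a3⟩ b
  simp only at a1 a2 a3 b ⊢
  have k1 := S.v_s (s := s) (s' := s0) ht (fun θ hθ => ⟨by linarith [(abs_lt.1 (a1 θ hθ)).2],
    by linarith [(abs_lt.1 (a2 θ hθ)).2], by linarith [(abs_lt.1 (a3 θ hθ)).2]⟩) e0.le
  have k2 := S.v_s (s := s0) (s' := s) ht (fun θ hθ => ⟨by linarith [(abs_lt.1 (a1 θ hθ)).1],
    by linarith [(abs_lt.1 (a2 θ hθ)).1], by linarith [(abs_lt.1 (a3 θ hθ)).1]⟩) e0.le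
  rw [show 2 * π * (ε / (8 * π)) = ε / 4 by field_simp; ring] at k1 k2
  rw [Real.dist_eq, abs_lt]
  rcases le_total t t0 with h | h
  · have := S.v_lip ht h hC'
    have := S.v_mono s0 ht h
    rw [abs_of_nonpos (by linarith)] at b
    constructor <;> linarith
  · have := S.v_lip ht0 h hC'
    have := S.v_mono s0 ht0 h
    rw [abs_of_nonneg (by linarith)] at b
    constructor <;> linarith

end Pool.Agent.Lib.MP_9dc04a_an
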