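import Pool.Agent.Lib.MP_9dc04a_an.Star1

set_option autoImplicit false

namespace Pool.Agent.Lib.MP_9dc04a_an

open Complex hiding sin cos sin_add_two_pi cos_add_two_pi exp log
open Metric Filter Topology Real MeasureTheory Set
open scoped Real

variable {F1 F2 F3 : ℂ → ℝ}

def sh (e : Wt) (δ : ℝ) : Wt := ⟨fun θ => e.a (θ - δ), fun θ => e.b (θ - δ), fun θ => e.c (θ - δ)⟩

def up (e : Wt) (δ : ℝ) : Wt := ⟨fun θ => max (e.a (θ - δ)) (e.a (θ + δ)),
  fun θ => max (e.b (θ - δ)) (e.b (θ + δ)), fun θ => max (e.c (θ - δ)) (e.c (θ + δ))⟩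

def dn (e : Wt) (δ : ℝ) : Wt := ⟨fun θ => min (e.a (θ - δ)) (e.a (θ + δ)),
  fun θ => min (e.b (θ - δ)) (e.b (θ + δ)), fun θ => min (e.c (θ - δ)) (e.c (θ + δ))⟩

lemma per_sub {g : ℝ → ℝ} (h : Function.Periodic g (2 * π)) (θ δ : ℝ) :
    g (θ + 2 * π - δ) = g (θ - δ) := by rw [← h (θ - δ)]; congr 1; ring

lemma per_add {g : ℝ → ℝ} (h : Function.Periodic g (2 * π)) (θ δ : ℝ) :
    g (θ + 2 * π + δ) = g (θ + δ) := by rw [← h (θ + δ)]; congr 1; ring

lemma Pre.sh {e : Wt} (h : Pre e) (δ : ℝ) : Pre (sh e δ) :=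
  ⟨h.ma.comp (measurable_sub_const δ), h.mb.comp (measurable_sub_const δ),
    h.mc.comp (measurable_sub_const δ), fun θ => per_sub h.pa θ δ, fun θ => per_sub h.pb θ δ,
    fun θ => per_sub h.pc θ δ, fun _ => h.c0 _, fun _ => h.cb _, fun _ => h.ba _, fun _ => h.a1 _⟩

lemma Adm.up {e : Wt} (h : Adm e) (δ : ℝ) : Adm (up e δ) := by
  refine ⟨⟨(h.ma.comp (measurable_sub_const δ)).max (h.ma.comp (measurable_add_const δ)),
    (h.mb.comp (measurable_sub_const δ)).max (h.mb.comp (measurable_add_const δ)),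
    (h.mc.comp (measurable_sub_const δ)).max (h.mc.comp (measurable_add_const δ)),
    fun θ => ?_, fun θ => ?_, fun θ => ?_, fun θ => le_max_of_le_left (h.c0 _),
    fun θ => max_le_max (h.cb _) (h.cb _), fun θ => max_le_max (h.ba _) (h.ba _),
    fun θ => max_le (h.a1 _) (h.a1 _)⟩, fun θ => ?_⟩ <;>
    simp only [Pool.Agent.Lib.MP_9dc04a_an.up]
  · rw [per_sub h.pa, per_add h.pa]
  · rw [per_sub h.pb, per_add h.pb]
  · rw [per_sub h.pc, per_add h.pc]
  · rw [max_comm, ← h.ev (θ - δ), ← h.ev (θ + δ)]; congr 2 <;> ring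

lemma Adm.dn {e : Wt} (h : Adm e) (δ : ℝ) : Adm (dn e δ) := by
  refine ⟨⟨(h.ma.comp (measurable_sub_const δ)).min (h.ma.comp (measurable_add_const δ)),
    (h.mb.comp (measurable_sub_const δ)).min (h.mb.comp (measurable_add_const δ)),
    (h.mc.comp (measurable_sub_const δ)).min (h.mc.comp (measurable_add_const δ)),
    fun θ => ?_, fun θ => ?_, fun θ => ?_, fun θ => le_min (h.c0 _) (h.c0 _),
    fun θ => min_le_min (h.cb _) (h.cb _), fun θ => min_le_min (h.ba _) (h.ba _),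
    fun θ => min_le_of_left_le (h.a1 _)⟩, fun θ => ?_⟩ <;>
    simp only [Pool.Agent.Lib.MP_9dc04a_an.dn]
  · rw [per_sub h.pa, per_add h.pa]
  · rw [per_sub h.pb, per_add h.pb]
  · rw [per_sub h.pc, per_add h.pc]
  · rw [min_comm, ← h.ev (θ - δ), ← h.ev (θ + δ)]; congr 2 <;> ring

lemma int_shift {g : ℝ → ℝ} (h : Function.Periodic g (2 * π)) (δ : ℝ) :
    ∫ θ in (0:ℝ)..2 * π, g (θ - δ) = ∫ θ in (0:ℝ)..2 * π, g θ := by
  rw [intervalIntegral.integral_comp_sub_right]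
  have := h.intervalIntegral_add_eq (0 - δ) 0
  rw [zero_add] at this
  rw [← this]; congr 1; ring

lemma int_refl {g : ℝ → ℝ} (h : Function.Periodic g (2 * π)) (δ : ℝ) :
    ∫ θ in (0:ℝ)..2 * π, g (δ - θ) = ∫ θ in (0:ℝ)..2 * π, g θ := by
  rw [intervalIntegral.integral_comp_sub_left]
  have := h.intervalIntegral_add_eq (δ - 2 * π) 0
  rw [zero_add] at this
  rw [← this]; congr 1; ring

lemma cost_sh {e : Wt} (h : Pre e) (δ : ℝ) : cost (sh e δ) = cost e :=
  int_shift (g := fun θ => e.a θ + e.b θ + e.c θ / 2) (fun θ => by simp only [h.pa θ, h.pb θ, h.pc θ]) δ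

lemma cost_up_dn {e : Wt} (h : Adm e) (δ : ℝ) : cost (up e δ) + cost (dn e δ) = 2 * cost e := by
  have : cost (up e δ) + cost (dn e δ) = cost (sh e δ) + cost (sh e (-δ)) := by
    unfold cost
    rw [← intervalIntegral.integral_add ((h.up δ).icost _ _) ((h.dn δ).icost _ _),
      ← intervalIntegral.integral_add ((h.toPre.sh δ).icost _ _) ((h.toPre.sh (-δ)).icost _ _)]
    congr 1; funext θ
    simp only [up, dn, sh, sub_neg_eq_add]
    linarith [max_add_min (e.a (θ - δ)) (e.a (θ + δ)), max_add_min (e.b (θ - δ)) (e.b (θ + δ)),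
      max_add_min (e.c (θ - δ)) (e.c (θ + δ))]
  rw [this, cost_sh h.toPre, cost_sh h.toPre]; ring

lemma SD.val_up_dn (S : SD F1 F2 F3) {e : Wt} (h : Adm e) (δ s : ℝ) :
    val F1 F2 F3 (up e δ) s + val F1 F2 F3 (dn e δ) s =
      val F1 F2 F3 (sh e δ) s + val F1 F2 F3 (sh e (-δ)) s := by
  unfold val
  rw [← intervalIntegral.integral_add (S.ival (h.up δ).toPre _ _ _) (S.ival (h.dn δ).toPre _ _ _),
    ← intervalIntegral.integral_add (S.ival (h.toPre.sh δ) _ _ _) (S.ival (h.toPre.sh (-δ)) _ _ _)]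
  congr 1; funext θ
  simp only [up, dn, sh, sub_neg_eq_add, WW]
  have a := max_add_min (e.a (θ - δ)) (e.a (θ + δ))
  have b := max_add_min (e.b (θ - δ)) (e.b (θ + δ))
  have c := max_add_min (e.c (θ - δ)) (e.c (θ + δ))
  linear_combination (F1 (s + θ * I)) * (a - b) + (F2 (s + θ * I)) * (b - c) + (F3 (s + θ * I)) * c

lemma SD.Wper (S : SD F1 F2 F3) {e : Wt} (h : Pre e) (s : ℝ) :
    Function.Periodic (fun θ : ℝ => WW F1 F2 F3 e θ (s + θ * I)) (2 * π) := by
  intro θ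
  have : (s:ℂ) + ((θ + 2 * π : ℝ) : ℂ) * I = s + θ * I + 2 * π * I := by push_cast; ring
  simp only [WW, this, S.p1, S.p2, S.p3, h.pa θ, h.pb θ, h.pc θ]

lemma SD.key_avg (S : SD F1 F2 F3) {e : Wt} (h : Adm e) (s0 : ℝ) {r : ℝ} (hr : 0 < r) {n : ℝ → ℝ}
    (hn : Continuous n) (H : ∀ φ, val F1 F2 F3 (up e (r * sin φ)) (s0 + r * cos φ) +
      val F1 F2 F3 (dn e (r * sin φ)) (s0 + r * cos φ) ≤ n φ) :
    4 * π * val F1 F2 F3 e s0 ≤ ∫ φ in (0:ℝ)..2 * π, n φ := by
  have p2 : (0:ℝ) ≤ 2 * π := by positivity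
  set K : ℝ → ℝ → ℝ := fun θ φ => WW F1 F2 F3 e θ (circleMap (s0 + θ * I) r φ) with hK
  have cm : Continuous fun x : ℝ × ℝ => circleMap (s0 + x.1 * I) r x.2 := by
    unfold circleMap; fun_prop
  have mK : Measurable (Function.uncurry K) := by
    have a : Measurable fun x : ℝ × ℝ => e.a x.1 := h.ma.comp measurable_fst
    have b : Measurable fun x : ℝ × ℝ => e.b x.1 := h.mb.comp measurable_fst
    have c : Measurable fun x : ℝ × ℝ => e.c x.1 := h.mc.comp measurable_fst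
    exact (((a.sub b).mul (S.c1.comp cm).measurable).add
      ((b.sub c).mul (S.c2.comp cm).measurable)).add (c.mul (S.c3.comp cm).measurable)
  have iK : Integrable (Function.uncurry K)
      ((volume.restrict (Ioc 0 (2 * π))).prod (volume.restrict (Ioc 0 (2 * π)))) := by
    refine Integrable.mono' (g := fun x : ℝ × ℝ => F3 (circleMap (s0 + x.1 * I) r x.2)) ?_
      mK.aestronglyMeasurable (ae_of_all _ fun x => ?_)
    · rw [Measure.prod_restrict]
      exact ((S.c3.comp cm).continuousOn.integrableOn_compact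
        (isCompact_Icc.prod isCompact_Icc)).mono_set (prod_mono Ioc_subset_Icc_self Ioc_subset_Icc_self)
    · exact (Real.norm_of_nonneg (S.W0 h.toPre _ _)).trans_le (S.Wle' h.toPre _ _)
  have step1 : ∀ θ : ℝ, 2 * π * WW F1 F2 F3 e θ (s0 + θ * I) ≤ ∫ φ in Ioc 0 (2 * π), K θ φ := by
    intro θ
    have i : ∀ F : ℂ → ℝ, Continuous F → IntervalIntegrable
        (fun φ => F (circleMap (s0 + θ * I) r φ)) volume 0 (2 * π) := fun F hF =>
      (hF.comp (continuous_circleMap _ _)).intervalIntegrable _ _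
    have j : ∀ F : ℂ → ℝ, F (s0 + θ * I) ≤ circleAverage F (s0 + θ * I) r →
        2 * π * F (s0 + θ * I) ≤ ∫ φ in (0:ℝ)..2 * π, F (circleMap (s0 + θ * I) r φ) := by
      intro F hF
      rwa [circleAverage_def, smul_eq_mul, le_inv_mul_iff₀ (by positivity)] at hF
    rw [← intervalIntegral.integral_of_le p2]
    simp only [hK, WW]
    rw [intervalIntegral.integral_add (((i _ S.c1).const_mul _).add ((i _ S.c2).const_mul _))
      ((i _ S.c3).const_mul _), intervalIntegral.integral_add ((i _ S.c1).const_mul _)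
      ((i _ S.c2).const_mul _), intervalIntegral.integral_const_mul,
      intervalIntegral.integral_const_mul, intervalIntegral.integral_const_mul]
    have a := mul_le_mul_of_nonneg_left (j _ (S.s1 _ _ hr)) (sub_nonneg.2 (h.ba θ))
    have b := mul_le_mul_of_nonneg_left (j _ (S.s2 _ _ hr)) (sub_nonneg.2 (h.cb θ))
    have c := mul_le_mul_of_nonneg_left (j _ (S.s3 _ _ hr)) (h.c0 θ)
    linarith
  set J : ℝ → ℝ := fun φ => val F1 F2 F3 (sh e (r * sin φ)) (s0 + r * cos φ) with hJ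
  have eJ : ∀ φ, ∫ θ in Ioc 0 (2 * π), K θ φ = J φ := by
    intro φ
    rw [← intervalIntegral.integral_of_le p2, hJ]
    simp only [val]
    rw [← int_shift (S.Wper (h.toPre.sh (r * sin φ)) (s0 + r * cos φ)) (-(r * sin φ))]
    congr 1; funext θ
    have : circleMap (s0 + θ * I) r φ =
        ((s0 + r * cos φ : ℝ) : ℂ) + ((θ - -(r * sin φ) : ℝ) : ℂ) * I := by
      rw [circleMap, exp_mul_I]; push_cast; ring
    simp only [hK, WW, sh, this]
    rw [show θ - -(r * sin φ) - r * sin φ = θ by ring]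
  have iJ : IntervalIntegrable J volume 0 (2 * π) := by
    rw [intervalIntegrable_iff_integrableOn_Ioc_of_le p2]
    have := iK.integral_prod_right
    simp only [Function.uncurry, eJ] at this
    exact this
  have step2 : 2 * π * val F1 F2 F3 e s0 ≤ ∫ φ in (0:ℝ)..2 * π, J φ := by
    have sw := integral_integral_swap iK
    simp only [eJ] at sw
    rw [intervalIntegral.integral_of_le p2, ← sw, val, ← intervalIntegral.integral_const_mul,
      intervalIntegral.integral_of_le p2]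
    refine integral_mono ?_ iK.integral_prod_left step1
    exact (intervalIntegrable_iff_integrableOn_Ioc_of_le p2).1 ((S.ival h.toPre _ _ _).const_mul _)
  have pJ : Function.Periodic J (2 * π) := fun φ => by simp only [hJ, sin_add_two_pi, cos_add_two_pi]
  have iJ' : IntervalIntegrable (fun φ => J (0 - φ)) volume 0 (2 * π) := by
    have := (pJ.intervalIntegrable (t := 0) (by positivity) (by simpa using iJ) 0
      (0 - 2 * π)).comp_sub_left 0
    simpa using this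
  have step3 := int_refl pJ 0
  have step4 : ∫ φ in (0:ℝ)..2 * π, (J φ + J (0 - φ)) ≤ ∫ φ in (0:ℝ)..2 * π, n φ := by
    refine intervalIntegral.integral_mono_on p2 (iJ.add iJ') (hn.intervalIntegrable _ _)
      fun φ _ => le_trans (le_of_eq ?_) (H φ)
    rw [S.val_up_dn h]
    simp [hJ]
  rw [intervalIntegral.integral_add iJ iJ', step3] at step4
  linarith

lemma cost_dn_le_up {e : Wt} (h : Adm e) (δ : ℝ) : cost (dn e δ) ≤ cost (up e δ) :=
  intervalIntegral.integral_mono_on (by positivity) ((h.dn δ).icost _ _) ((h.up δ).icost _ _)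
    fun θ _ => by
      simp only [up, dn]
      have := min_le_max (a := e.a (θ - δ)) (b := e.a (θ + δ))
      have := min_le_max (a := e.b (θ - δ)) (b := e.b (θ + δ))
      have := min_le_max (a := e.c (θ - δ)) (b := e.c (θ + δ))
      linarith

lemma SD.up_dn_le (S : SD F1 F2 F3) {e : Wt} (h : Adm e) (δ s : ℝ) {t y : ℝ} (ht : cost e = 2 * t)
    (y0 : 0 ≤ y) (hy : cost (dn e δ) + 4 * y ≤ cost (up e δ)) :
    val F1 F2 F3 (up e δ) s + val F1 F2 F3 (dn e δ) s ≤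
      vv F1 F2 F3 s (t + y) + vv F1 F2 F3 s (t - y) := by
  have a := cost_up_dn h δ
  have b := (h.dn δ).cost0
  set x := (cost (up e δ) - cost (dn e δ)) / 4 with hx
  have c := S.le_v (h.up δ) (t := t + x) (by linarith) s
  have d := S.le_v (h.dn δ) (t := t - x) (by linarith) s
  have := S.v_sym s (t := t) (x := x) (δ := y) y0 (by linarith) (by linarith)
  linarith

lemma SD.v_cont_s (S : SD F1 F2 F3) {t : ℝ} (ht : 0 ≤ t) :
    Continuous fun s => vv F1 F2 F3 s t :=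
  S.v_cont.comp_continuous (f := fun s => (s, t)) (by fun_prop) fun _ => ht

/-- convexity in `s`, in averaged form -/
lemma SD.conv (S : SD F1 F2 F3) (s0 : ℝ) {t r : ℝ} (ht : 0 ≤ t) (hr : 0 < r) :
    2 * π * vv F1 F2 F3 s0 t ≤ ∫ φ in (0:ℝ)..2 * π, vv F1 F2 F3 (s0 + r * cos φ) t := by
  rw [← le_div_iff₀' (by positivity)]
  refine v_le ht fun e he hc => ?_
  have := S.key_avg he s0 hr (n := fun φ => 2 * vv F1 F2 F3 (s0 + r * cos φ) t)
    (((S.v_cont_s ht).comp (by fun_prop)).const_smul (2:ℝ)) fun φ => by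
      have a := S.up_dn_le he (r * sin φ) (s0 + r * cos φ) (t := cost e / 2) (y := 0) (by ring)
        le_rfl (by simpa using cost_dn_le_up he _)
      have b := S.v_mono (s0 + r * cos φ) (t := cost e / 2) (t' := t)
        (by linarith [he.cost0]) (by linarith)
      simp only [add_zero, sub_zero] at a
      linarith
  rw [intervalIntegral.integral_const_mul] at this
  rw [le_div_iff₀' (by positivity)]
  linarith

def Jump (e : Wt) : Prop :=
  ∃ δ0 > 0, ∀ δ, |δ| < δ0 → cost (dn e δ) + 4 * |δ| ≤ cost (up e δ)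

lemma SD.circ (S : SD F1 F2 F3) {e : Wt} (h : Adm e) (j : Jump e) (s0 : ℝ) {t : ℝ}
    (ht : cost e = 2 * t) : ∃ r0 > 0, ∀ r, 0 < r → r < r0 → ∀ n : ℝ → ℝ, Continuous n →
      (∀ φ, vv F1 F2 F3 (s0 + r * cos φ) (t + r * sin φ) +
        vv F1 F2 F3 (s0 + r * cos φ) (t - r * sin φ) ≤ n φ) →
      4 * π * val F1 F2 F3 e s0 ≤ ∫ φ in (0:ℝ)..2 * π, n φ := by
  obtain ⟨δ0, h0, hδ⟩ := j
  refine ⟨δ0, h0, fun r hr hr' n hn H => S.key_avg h s0 hr hn fun φ => le_trans ?_ (H φ)⟩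
  have : |r * sin φ| < δ0 := by
    rw [abs_mul, abs_of_pos hr]
    exact lt_of_le_of_lt (mul_le_of_le_one_right hr.le (abs_sin_le_one φ)) hr'
  refine (S.up_dn_le h _ _ ht (abs_nonneg _) (hδ _ this)).trans (le_of_eq ?_)
  rcases abs_cases (r * sin φ) with ⟨e, -⟩ | ⟨e, -⟩ <;> rw [e]
  rw [add_comm, sub_neg_eq_add, ← sub_eq_add_neg]

lemma jump1 {g : ℝ → ℝ} (hg : ∀ a b, IntervalIntegrable g volume a b) {α β δ0 x y δ : ℝ}
    (hab : α ≤ β) (ha : ∀ θ, |θ - α| < δ0 → g θ = x) (hb : ∀ θ, |θ - β| < δ0 → g θ = y)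
    (hδ : |δ| < δ0) : 2 * |δ| * |y - x| ≤ ∫ θ in α..β, |g (θ - δ) - g (θ + δ)| := by
  refine le_trans (le_of_eq ?_) (intervalIntegral.abs_integral_le_integral_abs hab)
  have k : ∀ c z : ℝ, (∀ θ, |θ - c| < δ0 → g θ = z) → ∫ θ in (c - δ)..(c + δ), g θ = 2 * δ * z := by
    intro c z hz
    rw [intervalIntegral.integral_congr (g := fun _ => z) fun θ hθ => hz θ ?_]
    · rw [intervalIntegral.integral_const, smul_eq_mul]; ring
    · refine lt_of_le_of_lt ?_ hδ
      rcases mem_uIcc.1 hθ with ⟨a, b⟩ | ⟨a, b⟩ <;> rw [abs_le] <;>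
        constructor <;> linarith [le_abs_self δ, neg_abs_le δ]
  have i1 : IntervalIntegrable (fun θ => g (θ - δ)) volume α β := by
    simpa using (hg (α - δ) (β - δ)).comp_sub_right δ
  have i2 : IntervalIntegrable (fun θ => g (θ + δ)) volume α β := by
    simpa using (hg (α + δ) (β + δ)).comp_add_right δ
  rw [intervalIntegral.integral_sub i1 i2, intervalIntegral.integral_comp_sub_right,
    intervalIntegral.integral_comp_add_right,
    intervalIntegral.integral_interval_sub_interval_comm (hg _ _) (hg _ _) (hg _ _),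
    k α x ha, k β y hb, ← mul_sub, abs_mul, abs_mul, abs_two, abs_sub_comm]

lemma cost_diff {e : Wt} (h : Adm e) (δ a : ℝ) : cost (up e δ) - cost (dn e δ) =
    (∫ θ in a..a + 2 * π, |e.a (θ - δ) - e.a (θ + δ)|) +
    (∫ θ in a..a + 2 * π, |e.b (θ - δ) - e.b (θ + δ)|) +
    (∫ θ in a..a + 2 * π, |e.c (θ - δ) - e.c (θ + δ)|) / 2 := by
  have i : ∀ g : ℝ → ℝ, (∀ a b, IntervalIntegrable g volume a b) → ∀ a b,
      IntervalIntegrable (fun θ => |g (θ - δ) - g (θ + δ)|) volume a b := by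
    intro g hg a b
    have i1 : IntervalIntegrable (fun θ => g (θ - δ)) volume a b := by
      simpa using (hg (a - δ) (b - δ)).comp_sub_right δ
    have i2 : IntervalIntegrable (fun θ => g (θ + δ)) volume a b := by
      simpa using (hg (a + δ) (b + δ)).comp_add_right δ
    exact (i1.sub i2).abs
  have p : ∀ g : ℝ → ℝ, Function.Periodic g (2 * π) →
      ∫ θ in a..a + 2 * π, |g (θ - δ) - g (θ + δ)| =
        ∫ θ in (0:ℝ)..2 * π, |g (θ - δ) - g (θ + δ)| := by
    intro g hg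
    have : Function.Periodic (fun θ => |g (θ - δ) - g (θ + δ)|) (2 * π) := fun θ => by
      simp only [per_sub hg, per_add hg]
    simpa using this.intervalIntegral_add_eq a 0
  rw [p _ h.pa, p _ h.pb, p _ h.pc, cost, cost,
    ← intervalIntegral.integral_sub ((h.up δ).icost _ _) ((h.dn δ).icost _ _),
    ← intervalIntegral.integral_div, ← intervalIntegral.integral_add (i _ h.ia _ _) (i _ h.ib _ _),
    ← intervalIntegral.integral_add ((i _ h.ia _ _).add (i _ h.ib _ _))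
      ((i _ h.ic _ _).div_const 2)]
  congr 1; funext θ
  simp only [up, dn, ← max_sub_min_eq_abs']
  ring

lemma iabs {g : ℝ → ℝ} (hg : ∀ a b, IntervalIntegrable g volume a b) (δ a b : ℝ) :
    IntervalIntegrable (fun θ => |g (θ - δ) - g (θ + δ)|) volume a b := by
  have i1 : IntervalIntegrable (fun θ => g (θ - δ)) volume a b := by
    simpa using (hg (a - δ) (b - δ)).comp_sub_right δ
  have i2 : IntervalIntegrable (fun θ => g (θ + δ)) volume a b := by
    simpa using (hg (a + δ) (b + δ)).comp_add_right δ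
  exact (i1.sub i2).abs

lemma jump2 {g : ℝ → ℝ} (hg : ∀ a b, IntervalIntegrable g volume a b)
    (pg : Function.Periodic g (2 * π)) {α β : ℝ} (ha : ∀ᶠ θ in 𝓝 α, g θ = 0)
    (hb : ∀ᶠ θ in 𝓝 β, g θ = 1) : ∃ δ0 > 0, ∀ δ, |δ| < δ0 →
      4 * |δ| ≤ ∫ θ in α..α + 2 * π, |g (θ - δ) - g (θ + δ)| := by
  obtain ⟨δ1, h1, ha⟩ := Metric.eventually_nhds_iff.1 ha
  obtain ⟨δ2, h2, hb⟩ := Metric.eventually_nhds_iff.1 hb
  have p2 : (0:ℝ) < 2 * π := by positivity
  set β' := toIcoMod p2 α β with hβ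
  have m := toIcoMod_mem_Ico p2 α β
  have hb' : ∀ θ, |θ - β'| < min δ1 δ2 → g θ = 1 := by
    intro θ hθ
    rw [← pg.zsmul (toIcoDiv p2 α β) θ]
    refine hb ?_
    rw [Real.dist_eq, show θ + toIcoDiv p2 α β • (2 * π) - β = θ - β' by
      linarith [toIcoMod_add_toIcoDiv_zsmul p2 α β]]
    exact hθ.trans_le (min_le_right _ _)
  have ha1 : ∀ θ, |θ - α| < min δ1 δ2 → g θ = 0 := fun θ hθ =>
    ha (hθ.trans_le (min_le_left _ _))
  have ha2 : ∀ θ, |θ - (α + 2 * π)| < min δ1 δ2 → g θ = 0 := fun θ hθ => by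
    rw [← pg.sub_eq θ]; exact ha1 _ (by rwa [show θ - 2 * π - α = θ - (α + 2 * π) by ring])
  refine ⟨min δ1 δ2, lt_min h1 h2, fun δ hδ => ?_⟩
  have a := jump1 hg m.1 ha1 hb' hδ
  have b := jump1 hg m.2.le hb' ha2 hδ
  rw [← intervalIntegral.integral_add_adjacent_intervals (iabs hg δ α β') (iabs hg δ β' _)]
  norm_num at a b
  linarith

lemma abs_int_nonneg (g : ℝ → ℝ) (δ a : ℝ) :
    0 ≤ ∫ θ in a..a + 2 * π, |g (θ - δ) - g (θ + δ)| :=
  intervalIntegral.integral_nonneg (by linarith [pi_pos]) fun _ _ => abs_nonneg _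

lemma Adm.jump_a {e : Wt} (h : Adm e) {α β : ℝ} (ha : ∀ᶠ θ in 𝓝 α, e.a θ = 0)
    (hb : ∀ᶠ θ in 𝓝 β, e.a θ = 1) : Jump e := by
  obtain ⟨δ0, h0, H⟩ := jump2 h.ia h.pa ha hb
  refine ⟨δ0, h0, fun δ hδ => ?_⟩
  linarith [H δ hδ, cost_diff h δ α, abs_int_nonneg e.b δ α, abs_int_nonneg e.c δ α]

lemma Adm.jump_b {e : Wt} (h : Adm e) {α β : ℝ} (ha : ∀ᶠ θ in 𝓝 α, e.b θ = 0)
    (hb : ∀ᶠ θ in 𝓝 β, e.b θ = 1) : Jump e := by
  obtain ⟨δ0, h0, H⟩ := jump2 h.ib h.pb ha hb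
  refine ⟨δ0, h0, fun δ hδ => ?_⟩
  linarith [H δ hδ, cost_diff h δ α, abs_int_nonneg e.a δ α, abs_int_nonneg e.c δ α]

lemma Adm.jump_c {e : Wt} (h : Adm e) {β : ℝ} (ha : ∀ᶠ θ in 𝓝 (π / 2), e.c θ = 0)
    (ha' : ∀ᶠ θ in 𝓝 (-(π / 2)), e.c θ = 0) (hb : ∀ᶠ θ in 𝓝 β, e.c θ = 1) : Jump e := by
  obtain ⟨δ1, h1, ha⟩ := Metric.eventually_nhds_iff.1 (ha)
  obtain ⟨δ2, h2, ha'⟩ := Metric.eventually_nhds_iff.1 (ha')
  obtain ⟨δ3, h3, hb⟩ := Metric.eventually_nhds_iff.1 hb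
  have p2 : (0:ℝ) < 2 * π := by positivity
  set δ0 := min (min δ1 δ2) δ3 with hδ0
  obtain ⟨γ, g1, g2, hγ⟩ : ∃ γ, -(π / 2) ≤ γ ∧ γ ≤ π / 2 ∧ ∀ θ, |θ - γ| < δ0 → e.c θ = 1 := by
    set β' := toIcoMod p2 (-(π / 2)) β with hβ
    have m := toIcoMod_mem_Ico p2 (-(π / 2)) β
    have hb' : ∀ θ, |θ - β'| < δ0 → e.c θ = 1 := by
      intro θ hθ
      rw [← h.pc.zsmul (toIcoDiv p2 (-(π / 2)) β) θ]
      refine hb ?_
      rw [Real.dist_eq, show θ + toIcoDiv p2 (-(π / 2)) β • (2 * π) - β = θ - β' by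
        linarith [toIcoMod_add_toIcoDiv_zsmul p2 (-(π / 2)) β]]
      exact hθ.trans_le (min_le_right _ _)
    rcases le_total β' (π / 2) with c | c
    · exact ⟨β', m.1, c, hb'⟩
    · refine ⟨π - β', by linarith [m.2], by linarith, fun θ hθ => ?_⟩
      rw [← h.ev]; exact hb' _ (by rwa [show π - θ - β' = -(θ - (π - β')) by ring, abs_neg])
  have hγ' : ∀ θ, |θ - (π - γ)| < δ0 → e.c θ = 1 := fun θ hθ => by
    rw [← h.ev]; exact hγ _ (by rwa [show π - θ - γ = -(θ - (π - γ)) by ring, abs_neg])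
  have a1 : ∀ θ, |θ - π / 2| < δ0 → e.c θ = 0 := fun θ hθ =>
    ha (hθ.trans_le ((min_le_left _ _).trans (min_le_left _ _)))
  have a2 : ∀ θ, |θ - -(π / 2)| < δ0 → e.c θ = 0 := fun θ hθ =>
    ha' (hθ.trans_le ((min_le_left _ _).trans (min_le_right _ _)))
  have a3 : ∀ θ, |θ - (-(π / 2) + 2 * π)| < δ0 → e.c θ = 0 := fun θ hθ => by
    rw [← h.pc.sub_eq θ]
    exact a2 _ (by rwa [show θ - 2 * π - -(π / 2) = θ - (-(π / 2) + 2 * π) by ring])
  refine ⟨δ0, lt_min (lt_min h1 h2) h3, fun δ hδ => ?_⟩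
  have b1 := jump1 h.ic g1 a2 hγ hδ
  have b2 := jump1 h.ic g2 hγ a1 hδ
  have b3 := jump1 h.ic (by linarith : π / 2 ≤ π - γ) a1 hγ' hδ
  have b4 := jump1 h.ic (by linarith : π - γ ≤ -(π / 2) + 2 * π) hγ' a3 hδ
  have c := cost_diff h δ (-(π / 2))
  rw [← intervalIntegral.integral_add_adjacent_intervals (iabs h.ic δ _ γ) (iabs h.ic δ γ _),
    ← intervalIntegral.integral_add_adjacent_intervals (iabs h.ic δ γ (π / 2)) (iabs h.ic δ _ _),
    ← intervalIntegral.integral_add_adjacent_intervals (iabs h.ic δ (π / 2) (π - γ))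
      (iabs h.ic δ _ _)] at c
  simp only [sub_zero, zero_sub, abs_neg, abs_one, mul_one] at b1 b2 b3 b4
  linarith [abs_int_nonneg e.a δ (-(π / 2)), abs_int_nonneg e.b δ (-(π / 2))]

end Pool.Agent.Lib.MP_9dc04a_an
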