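import Pool.Agent.Lib.MP_9dc04a_an.Rt

set_option autoImplicit false

namespace Pool.Agent.Lib.MP_9dc04a_an

open Complex Metric Finset Filter Topology Polynomial Real
open scoped Real

structure PD (d : ℕ) (P D : ℂ[X]) : Prop where
  hP : P.natDegree ≤ d
  hD : D.natDegree ≤ d
  P0 : P.eval 0 = 1
  D0 : D.eval 0 = 0

noncomputable def rt (d : ℕ) (P D : ℂ[X]) (μ : ℂ) : Fin d → ℂ :=
  Classical.epsilon (En d (P - C μ * D))

lemma PD.en {d : ℕ} {P D : ℂ[X]} (h : PD d P D) (μ : ℂ) : En d (P - C μ * D) (rt d P D μ) := by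
  refine Classical.epsilon_spec (p := En d (P - C μ * D)) (En.ex d _ ?_ (by simp [h.P0, h.D0]))
  exact (natDegree_sub_le _ _).trans (max_le h.hP ((natDegree_C_mul_le _ _).trans h.hD))

lemma PD.ev {d : ℕ} {P D : ℂ[X]} (h : PD d P D) (μ z : ℂ) :
    P.eval z - μ * D.eval z = ∏ i, (1 - rt d P D μ i * z) := by
  simpa using h.en μ z

lemma PD.root {d : ℕ} {P D : ℂ[X]} (h : PD d P D) (μ : ℂ) (i : Fin d) (hi : rt d P D μ i ≠ 0) :
    P.eval (rt d P D μ i)⁻¹ = μ * D.eval (rt d P D μ i)⁻¹ := by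
  rw [← sub_eq_zero, h.ev]
  exact prod_eq_zero (mem_univ i) (by rw [mul_inv_cancel₀ hi, sub_self])

lemma PD.cont {d : ℕ} {P D : ℂ[X]} (h : PD d P D) (k : ℕ) :
    Continuous fun μ => GG k (rt d P D μ) := by
  refine continuous_iff_seqContinuous.2 fun u μ hu => ?_
  have c : Continuous fun x : ℂ × ℂ => P.eval x.2 - x.1 * D.eval x.2 := by fun_prop
  have e1 : ∀ᶠ x in 𝓝 ((μ, 0) : ℂ × ℂ), P.eval x.2 - x.1 * D.eval x.2 ≠ 0 :=
    c.continuousAt.eventually_ne (by simp [h.P0, h.D0])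
  rw [nhds_prod_eq] at e1
  obtain ⟨pa, ha, pb, hb, hab⟩ := eventually_prod_iff.1 e1
  obtain ⟨ρ, ρ0, hρ⟩ := Metric.eventually_nhds_iff.1 hb
  have bd : ∀ᶠ n in atTop, rt d P D (u n) ∈ closedBall (0 : Fin d → ℂ) ρ⁻¹ := by
    filter_upwards [hu.eventually ha] with n hn
    rw [mem_closedBall_zero_iff, pi_norm_le_iff_of_nonneg (by positivity)]
    intro i
    by_contra hc
    push Not at hc
    have w0 : 0 < ‖rt d P D (u n) i‖ := lt_trans (by positivity) hc
    have := hab hn (hρ (y := (rt d P D (u n) i)⁻¹) (by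
      rw [dist_zero_right, norm_inv]; exact inv_lt_of_inv_lt₀ ρ0 hc))
    exact this (by simpa [sub_eq_zero] using h.root _ i (norm_pos_iff.1 w0))
  refine tendsto_of_subseq_tendsto fun ns hns => ?_
  obtain ⟨w, -, ms, hms, hw⟩ := (isCompact_closedBall (0 : Fin d → ℂ) ρ⁻¹).tendsto_subseq'
    (x := fun n => rt d P D (u (ns n))) (hns.eventually bd).frequently
  refine ⟨ms, ?_⟩
  have en : En d (P - C μ * D) w := by
    intro z
    have t1 : Tendsto (fun n => P.eval z - u (ns (ms n)) * D.eval z) atTop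
        (𝓝 (P.eval z - μ * D.eval z)) :=
      (((hu.comp hns).comp hms.tendsto_atTop).mul_const _).const_sub _
    have c2 : Continuous fun w : Fin d → ℂ => ∏ i, (1 - w i * z) := by fun_prop
    have t2 := (c2.tendsto w).comp hw
    have t3 : Tendsto (fun n => P.eval z - u (ns (ms n)) * D.eval z) atTop
        (𝓝 (∏ i, (1 - w i * z))) := t2.congr fun n => (h.ev _ _).symm
    simpa using tendsto_nhds_unique t1 t3
  rw [(h.en μ).GG_eq en]
  exact ((GG_cont k).tendsto w).comp hw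

lemma dirichlet {ι : Type} [Fintype ι] (x : ι → ℂ) (n0 : ℕ) :
    ∃ n, n0 ≤ n ∧ ∀ i, ‖x i‖ ^ n / 2 ≤ (x i ^ n).re := by
  set u : ι → ℂ := fun i => cexp (arg (x i) * I) with hu
  have nu : ∀ i, ‖u i‖ = 1 := fun i => norm_exp_ofReal_mul_I _
  obtain ⟨a, -, φ, hφ, ha⟩ := (isCompact_closedBall (0 : ι → ℂ) 1).tendsto_subseq
    (x := fun n i => u i ^ n) (fun n => by
      rw [mem_closedBall_zero_iff, pi_norm_le_iff_of_nonneg zero_le_one]
      intro i; simp [nu])
  obtain ⟨K, hK⟩ := Metric.tendsto_atTop.1 ha (1 / 4) (by norm_num)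
  have m : φ K + n0 ≤ φ (K + n0) := by
    have := hφ.add_le_nat n0 K
    rw [add_comm n0 K] at this; omega
  refine ⟨φ (K + n0) - φ K, by omega, fun i => ?_⟩
  set n := φ (K + n0) - φ K with hn
  have a1 := (dist_le_pi_dist _ _ i).trans_lt (hK K le_rfl)
  have a2 := (dist_le_pi_dist _ _ i).trans_lt (hK (K + n0) (by omega))
  simp only [Function.comp] at a1 a2
  have a3 : ‖u i ^ n - 1‖ < 1 / 2 := by
    have : ‖u i ^ n - 1‖ = dist (u i ^ φ (K + n0)) (u i ^ φ K) := by
      rw [dist_eq_norm, show φ (K + n0) = n + φ K by omega, pow_add, ← sub_one_mul, norm_mul,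
        norm_pow, nu]; simp
    rw [this]
    linarith [dist_triangle_right (u i ^ φ (K + n0)) (u i ^ φ K) (a i)]
  have a4 : 1 / 2 ≤ (u i ^ n).re := by
    have := (abs_re_le_norm (u i ^ n - 1)).trans a3.le
    rw [sub_re, one_re, abs_le] at this
    linarith [this.1]
  have a5 : x i ^ n = ((‖x i‖ ^ n : ℝ) : ℂ) * u i ^ n := by
    conv_lhs => rw [← norm_mul_exp_arg_mul_I (x i), mul_pow]
    push_cast; rfl
  rw [a5, re_ofReal_mul]
  have : 0 ≤ ‖x i‖ ^ n := by positivity
  nlinarith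

lemma log_norm_le_avg {f : ℂ → ℂ} (hf : Differentiable ℂ f) {c : ℂ} (h0 : f c ≠ 0) {R : ℝ}
    (hR : 0 < R) : Real.log ‖f c‖ ≤ circleAverage (fun z => Real.log ‖f z‖) c R := by
  have an : AnalyticOnNhd ℂ f (closedBall c |R|) := fun z _ => hf.analyticAt z
  rw [an.circleAverage_log_norm hR.ne' h0, le_add_iff_nonneg_left]
  refine finsum_nonneg fun u => ?_
  by_cases hu : u ∈ closedBall c |R|
  · refine mul_nonneg (by exact_mod_cast MeromorphicOn.AnalyticOnNhd.divisor_nonneg an u) ?_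
    by_cases huc : u = c
    · simp [huc]
    · refine Real.log_nonneg ?_
      rw [← div_eq_mul_inv, one_le_div (norm_pos_iff.2 (sub_ne_zero.2 (Ne.symm huc)))]
      rwa [mem_closedBall, abs_of_pos hR, dist_comm, dist_eq_norm] at hu
  · simp [Function.locallyFinsuppWithin.apply_eq_zero_of_notMem _ hu]

lemma diff_aeval {d : ℕ} (T : MvPolynomial (Fin d) ℂ) {f : Fin d → ℂ → ℂ}
    (hf : ∀ i, Differentiable ℂ (f i)) :
    Differentiable ℂ fun μ => MvPolynomial.aeval (fun i => f i μ) T := by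
  induction T using MvPolynomial.induction_on with
  | C a => simp
  | add p q hp hq => simp only [map_add]; exact hp.add hq
  | mul_X p i hp => simp only [map_mul, MvPolynomial.aeval_X]; exact hp.mul (hf i)

lemma PD.sym {d : ℕ} {P D : ℂ[X]} (h : PD d P D) {S : MvPolynomial (Fin d) ℂ}
    (hS : S.IsSymmetric) : Differentiable ℂ fun μ => MvPolynomial.aeval (rt d P D μ) S := by
  obtain ⟨T, hT⟩ := MvPolynomial.esymmAlgHom_surjective ℂ (σ := Fin d) (n := d) (by simp) ⟨S, hS⟩
  have e : S = MvPolynomial.aeval (fun i : Fin d => MvPolynomial.esymm (Fin d) ℂ (i + 1)) T := by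
    rw [← MvPolynomial.esymmAlgHom_apply, hT]
  have : (fun μ => MvPolynomial.aeval (rt d P D μ) S) = fun μ => MvPolynomial.aeval
      (fun i : Fin d => (-1) ^ (i.1 + 1) * (P.coeff (i + 1) - μ * D.coeff (i + 1))) T := by
    funext μ
    rw [e, ← AlgHom.comp_apply, MvPolynomial.comp_aeval]
    congr 2
    funext i
    rw [(h.en μ).esymm]; simp
  rw [this]
  exact diff_aeval T fun i => by fun_prop

lemma norm_prod_le {d k : ℕ} (w : Fin d → ℂ) {I : Finset (Fin d)} (hI : #I ≤ k) :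
    ‖∏ i ∈ I, w i‖ ≤ Real.exp (GG k w) := by
  refine le_trans ?_ (Real.exp_le_exp.2 (le_GG w hI))
  rw [norm_prod, Real.exp_sum]
  refine prod_le_prod (fun _ _ => norm_nonneg _) fun i _ => ?_
  rcases (norm_nonneg (w i)).eq_or_lt with e | e
  · rw [← e]; positivity
  · rw [← Real.log_le_iff_le_exp e]; exact le_max_right _ _

lemma norm_prod_ex {d : ℕ} (k : ℕ) (w : Fin d → ℂ) :
    ∃ I : Finset (Fin d), #I ≤ k ∧ ‖∏ i ∈ I, w i‖ = Real.exp (GG k w) := by
  obtain ⟨I, hI, e⟩ := GG_ex k w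
  refine ⟨I.filter (fun i => 1 ≤ ‖w i‖), (card_filter_le _ _).trans hI, ?_⟩
  rw [e, norm_prod, Real.exp_sum, prod_filter]
  refine prod_congr rfl fun i _ => ?_
  split_ifs with h
  · rw [posLog_eq_log (by rwa [abs_norm]), Real.exp_log (by linarith)]
  · rw [(posLog_eq_zero_iff _).2 (by rw [abs_norm]; linarith), Real.exp_zero]

lemma PD.sub {d : ℕ} {P D : ℂ[X]} (h : PD d P D) (k : ℕ) {m : ℂ → ℂ} (hm : Differentiable ℂ m)
    (c : ℂ) {R : ℝ} (hR : 0 < R) :
    GG k (rt d P D (m c)) ≤ circleAverage (fun σ => GG k (rt d P D (m σ))) c R := by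
  set 𝓘 := (univ : Finset (Finset (Fin d))).filter (fun I => #I ≤ k) with h𝓘
  set S : ℕ → MvPolynomial (Fin d) ℂ := fun n => ∑ I ∈ 𝓘, (∏ i ∈ I, MvPolynomial.X i) ^ n with hS
  have sym : ∀ n, (S n).IsSymmetric := by
    intro n e
    simp only [hS, map_sum, map_pow, map_prod, MvPolynomial.rename_X]
    refine sum_nbij' (fun I => I.map e.toEmbedding) (fun I => I.map e.symm.toEmbedding)
      ?_ ?_ ?_ ?_ ?_
    · intro I hI; simpa [h𝓘] using hI
    · intro I hI; simpa [h𝓘] using hI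
    · intro I _; simp [Finset.map_map]
    · intro I _; simp [Finset.map_map]
    · intro I _; simp
  have ev : ∀ n (w : Fin d → ℂ), MvPolynomial.aeval w (S n) = ∑ I ∈ 𝓘, (∏ i ∈ I, w i) ^ n := by
    intro n w; simp [hS]
  set F : ℂ → ℝ := fun σ => GG k (rt d P D (m σ)) with hF
  have Fc : Continuous F := (h.cont k).comp hm.continuous
  have Fi : CircleIntegrable F c R := Fc.continuousOn.circleIntegrable hR.le
  have Fi2 : ∀ n : ℕ, CircleIntegrable (fun z => (n:ℝ) • F z) c R := fun n =>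
    (Fc.const_smul (n:ℝ)).continuousOn.circleIntegrable hR.le
  have c1 : (1:ℝ) ≤ #𝓘 := by exact_mod_cast card_pos.2 (ne_sets d k)
  have key : ∀ n0 : ℕ, ∃ n : ℕ, n0 ≤ n ∧
      n * F c - Real.log 2 ≤ Real.log #𝓘 + n * circleAverage F c R := by
    intro n0
    obtain ⟨n, hn, hx⟩ := dirichlet (fun I : Finset (Fin d) => ∏ i ∈ I, rt d P D (m c) i) n0
    refine ⟨n, hn, ?_⟩
    set f : ℂ → ℂ := fun σ => MvPolynomial.aeval (rt d P D (m σ)) (S n) with hf
    have df : Differentiable ℂ f := (h.sym (sym n)).comp hm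
    obtain ⟨I, hI, e⟩ := norm_prod_ex k (rt d P D (m c))
    have l1 : Real.exp (F c) ^ n / 2 ≤ ‖f c‖ := by
      refine le_trans ?_ (re_le_norm _)
      simp only [hf, ev, re_sum]
      rw [hF, ← e]
      refine (hx I).trans (single_le_sum (f := fun I : Finset (Fin d) =>
        ((∏ i ∈ I, rt d P D (m c) i) ^ n).re) (fun J _ => le_trans (by positivity) (hx J))
        (by simpa [h𝓘] using hI))
    have p : 0 < Real.exp (F c) ^ n / 2 := by positivity
    have l2 := Real.log_le_log p l1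
    rw [Real.log_div (by positivity) two_ne_zero, Real.log_pow, Real.log_exp] at l2
    refine l2.trans ((log_norm_le_avg df (norm_pos_iff.1 (p.trans_le l1)) hR).trans ?_)
    have an : MeromorphicOn f (sphere c |R|) := fun z _ => (df.analyticAt z).meromorphicAt
    refine (circleAverage_mono (f₂ := fun z => Real.log #𝓘 + (n:ℝ) • F z)
      an.circleIntegrable_log_norm ((circleIntegrable_const _ _ _).add (Fi2 n))
      fun z _ => ?_).trans (le_of_eq ?_)
    · have g0 : 0 ≤ F z := GG_nonneg _ _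
      rcases (norm_nonneg (f z)).eq_or_lt with e0 | e0
      · rw [← e0, Real.log_zero]
        have := Real.log_nonneg c1
        rw [smul_eq_mul]; positivity
      · have : ‖f z‖ ≤ #𝓘 * Real.exp (F z) ^ n := by
          simp only [hf, ev]
          refine (norm_sum_le _ _).trans ?_
          rw [← nsmul_eq_mul]
          refine sum_le_card_nsmul _ _ _ fun J hJ => ?_
          rw [norm_pow]
          exact pow_le_pow_left₀ (norm_nonneg _) (norm_prod_le _ (by simpa [h𝓘] using hJ)) n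
        have := Real.log_le_log e0 this
        rwa [Real.log_mul (by positivity) (by positivity), Real.log_pow, Real.log_exp] at this
    · rw [circleAverage_fun_add (circleIntegrable_const _ _ _) (Fi2 n),
        circleAverage_const, circleAverage_fun_smul, smul_eq_mul]
  by_contra hc
  push Not at hc
  obtain ⟨n0, hn0⟩ := exists_nat_gt ((Real.log #𝓘 + Real.log 2) / (F c - circleAverage F c R))
  obtain ⟨n, hn, hk⟩ := key n0
  rw [div_lt_iff₀ (by linarith)] at hn0
  have : (n0:ℝ) ≤ n := by exact_mod_cast hn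
  nlinarith

end Pool.Agent.Lib.MP_9dc04a_an
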