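import Pool.Agent.Lib.MP_9dc04a_an.Star3

set_option autoImplicit false

namespace Pool.Agent.Lib.MP_9dc04a_an

open Complex hiding sin cos exp log log_one log_exp log_mul log_inv exp_log
open Metric Filter Topology Real Set
open scoped Real

variable {F1 F2 F3 : ℂ → ℝ}

lemma int_n (A B C : ℝ) :
    ∫ φ in (0:ℝ)..2 * π, (A + B * cos φ + C * sin φ ^ 2) = 2 * π * A + π * C := by
  rw [intervalIntegral.integral_add (Continuous.intervalIntegrable (by fun_prop) _ _)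
    (Continuous.intervalIntegrable (by fun_prop) _ _),
    intervalIntegral.integral_add (Continuous.intervalIntegrable (by fun_prop) _ _)
    (Continuous.intervalIntegrable (by fun_prop) _ _), intervalIntegral.integral_const_mul,
    intervalIntegral.integral_const_mul, integral_cos, integral_sin_sq]
  simp; ring

lemma nrm_c {r : ℝ} (hr : 0 ≤ r) (φ : ℝ) : ‖(⟨r * cos φ, r * sin φ⟩ : ℂ)‖ = r ∧
    ‖(⟨r * cos φ, -(r * sin φ)⟩ : ℂ)‖ = r := by
  constructor <;> rw [norm_eq_sqrt_sq_add_sq, Real.sqrt_eq_iff_mul_self_eq (by positivity) hr] <;>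
    simp only <;> nlinarith [Real.sin_sq_add_cos_sq φ]

lemma ev_im {P : ℂ → Prop} (h : ∀ᶠ ζ in 𝓝 (0:ℂ), P ζ) : ∀ᶠ x in 𝓝 (0:ℝ), P ⟨0, x⟩ := by
  have : Continuous fun x : ℝ => (⟨0, x⟩ : ℂ) := by
    have : (fun x : ℝ => (⟨0, x⟩ : ℂ)) = fun x : ℝ => x * I := by
      funext x; apply Complex.ext <;> simp
    rw [this]; fun_prop
  exact (this.tendsto 0).eventually h

lemma nrm_i (x : ℝ) : ‖(⟨0, x⟩ : ℂ)‖ = |x| := by
  rw [norm_eq_sqrt_sq_add_sq]; simp [Real.sqrt_sq_eq_abs]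

lemma SD.touchG (S : SD F1 F2 F3) {s t α b δ : ℝ} {c : ℂ} (t0 : 0 < t) (t1 : t ≠ π)
    (t2 : t ≠ 2 * π) (hb : 0 < b) (hδ : 0 < δ) (hc : 0 ≤ c.re)
    (H : ∀ᶠ ζ in 𝓝 (0:ℂ), vv F1 F2 F3 (s + ζ.re) (t + ζ.im) ≤ vv F1 F2 F3 s t + α * ζ.re +
      b * ζ.im + (c * ζ ^ 2).re + δ / 4 * ‖ζ‖ ^ 2 - δ * ζ.im ^ 2) : False := by
  refine (S.touch (s := s) (Λ := b / 2) (by linarith) t0 ?_ ?_).elim (fun h => t1 h.1)
    fun h => t2 h.1
  · filter_upwards [self_mem_nhdsWithin, nhdsWithin_le_nhds (ev_im H)] with x hx h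
    simp only [nrm_i, add_zero, mul_zero, sq_abs, sq, mul_re, mul_im, zero_sub, zero_mul,
      abs_mul_abs_self] at h
    have : 0 < x * x := mul_self_pos.2 hx
    nlinarith [mul_nonneg hc this.le, mul_pos hδ this]
  · intro r0 h0
    obtain ⟨ρ, ρ0, hρ⟩ := Metric.eventually_nhds_iff.1 H
    have m := lt_min h0 ρ0
    set r := min r0 ρ / 2 with hr
    have r1 : 0 < r := by positivity
    have r2 : r < ρ := by linarith [min_le_right r0 ρ]
    refine ⟨r, r1, by linarith [min_le_left r0 ρ], fun φ => (2 * vv F1 F2 F3 s t + 2 * c.re * r ^ 2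
      + δ / 2 * r ^ 2) + (2 * α * r) * cos φ + (-4 * c.re * r ^ 2 - 2 * δ * r ^ 2) * sin φ ^ 2,
      by fun_prop, fun φ => ?_, ?_⟩
    · have a := hρ (y := ⟨r * cos φ, r * sin φ⟩) (by rwa [dist_zero_right, (nrm_c r1.le φ).1])
      have a' := hρ (y := ⟨r * cos φ, -(r * sin φ)⟩) (by rwa [dist_zero_right, (nrm_c r1.le φ).2])
      rw [(nrm_c r1.le φ).1] at a
      rw [(nrm_c r1.le φ).2] at a'
      simp only [sq (⟨_, _⟩ : ℂ), mul_re, mul_im, ← sub_eq_add_neg] at a a'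
      have e : c.re * r ^ 2 * (sin φ ^ 2 + cos φ ^ 2) = c.re * r ^ 2 := by
        rw [Real.sin_sq_add_cos_sq, mul_one]
      linarith
    · rw [int_n]
      nlinarith [mul_pos pi_pos (mul_pos hδ (pow_pos r1 2))]

lemma SD.touchK (S : SD F1 F2 F3)
    (H1 : ∀ lo hi s : ℝ, 0 < lo → lo < hi →
      (∀ θ : ℝ, hi ≤ F1 (s + θ * I) ∧ F2 (s + θ * I) - F1 (s + θ * I) ≤ lo) → False)
    (H2 : ∀ Λ s : ℝ, 0 < Λ → (∀ θ : ℝ, Λ < F2 (s + θ * I) - F1 (s + θ * I) ∧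
      F3 (s + θ * I) - F2 (s + θ * I) < Λ) → ∫ θ in (0:ℝ)..2 * π, F2 (s + θ * I) = -2 * π * s)
    {s t α b η : ℝ} (t0 : 0 < t) (hη : 0 < η) (hb : η ≤ b)
    (H : ∀ᶠ ζ in 𝓝 (0:ℂ), vv F1 F2 F3 (s + ζ.re) (t + ζ.im) ≤ vv F1 F2 F3 s t + α * ζ.re +
      b * ζ.im - η * |ζ.im| + η / 4 * ‖ζ‖) :
    t = 2 * π ∧ vv F1 F2 F3 s t = -2 * π * s ∧ ∀ᶠ s' in 𝓝 s, -2 * π * s' ≤ vv F1 F2 F3 s' t := by
  have c : Circ F1 F2 F3 s t := by
    intro r0 h0
    obtain ⟨ρ, ρ0, hρ⟩ := Metric.eventually_nhds_iff.1 H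
    have m := lt_min h0 ρ0
    set r := min r0 ρ / 2 with hr
    have r1 : 0 < r := by positivity
    have r2 : r < ρ := by linarith [min_le_right r0 ρ]
    refine ⟨r, r1, by linarith [min_le_left r0 ρ], fun φ => (2 * vv F1 F2 F3 s t + η / 2 * r) +
      (2 * α * r) * cos φ + (-2 * η * r) * sin φ ^ 2, by fun_prop, fun φ => ?_, ?_⟩
    · have a := hρ (y := ⟨r * cos φ, r * sin φ⟩) (by rwa [dist_zero_right, (nrm_c r1.le φ).1])
      have a' := hρ (y := ⟨r * cos φ, -(r * sin φ)⟩) (by rwa [dist_zero_right, (nrm_c r1.le φ).2])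
      rw [(nrm_c r1.le φ).1] at a
      rw [(nrm_c r1.le φ).2] at a'
      simp only [← sub_eq_add_neg, abs_neg, abs_mul, abs_of_pos r1] at a a'
      have e : sin φ ^ 2 ≤ |sin φ| := by
        rw [← sq_abs]; nlinarith [abs_sin_le_one φ, abs_nonneg (sin φ)]
      have := mul_le_mul_of_nonneg_left e (mul_pos hη r1).le
      linarith
    · rw [int_n]
      nlinarith [mul_pos pi_pos (mul_pos hη r1)]
  have k : ∀ y, |y| ≤ η / 2 → ∀ᶠ x in 𝓝[≠] (0:ℝ),
      vv F1 F2 F3 s (t + x) < vv F1 F2 F3 s t + 2 * ((b + y) / 2) * x := by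
    intro y hy
    filter_upwards [self_mem_nhdsWithin, nhdsWithin_le_nhds (ev_im H)] with x hx h
    simp only [nrm_i, add_zero, mul_zero] at h
    have p : 0 < |x| := abs_pos.2 hx
    have := neg_abs_le (y * x)
    rw [abs_mul] at this
    nlinarith [mul_pos hη p, mul_le_mul_of_nonneg_right hy p.le]
  have a1 := S.touch (Λ := (b + -(η / 2)) / 2) (by linarith) t0
    (k _ (by rw [abs_neg, abs_of_pos (by linarith)])) c
  have a2 := S.touch (Λ := (b + η / 2) / 2) (by linarith) t0 (k _ (by rw [abs_of_pos (by linarith)])) c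
  rcases a1 with a1 | a1 <;> rcases a2 with a2 | a2
  · exact (H1 ((b + -(η / 2)) / 2) ((b + η / 2) / 2) s (by linarith) (by linarith)
      fun θ => ⟨(a2.2 θ).1, (a1.2 θ).2⟩).elim
  · linarith [a1.1, a2.1, pi_pos]
  · linarith [a1.1, a2.1, pi_pos]
  refine ⟨a1.1, ?_, ?_⟩
  · rw [a1.2.1]
    exact H2 (b / 2) s (by linarith) fun θ => ⟨by linarith [(a2.2.2 θ).1], by linarith [(a1.2.2 θ).2]⟩
  · have e0 : 0 < η / 8 := by positivity
    filter_upwards [tube S.c1 s e0, tube S.c2 s e0, tube S.c3 s e0] with s' b1 b2 b3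
    have p2 : (0:ℝ) < 2 * π := by positivity
    rw [← H2 (b / 2) s' (by linarith) fun θ => ?_]
    · have := S.le_v (adm_const le_rfl zero_le_one le_rfl le_rfl) (t := t)
        (by rw [cost_const, a1.1]; linarith) s'
      simpa [val, WW] using this
    · set ϑ := toIcoMod p2 0 θ with hϑ
      have m : ϑ ∈ Icc 0 (2 * π) := Ico_subset_Icc_self (toIcoMod_mem_Ico' p2 θ)
      have e : ∀ F : ℂ → ℝ, (∀ σ, F (σ + 2 * π * I) = F σ) → F (s' + θ * I) = F (s' + ϑ * I) :=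
        fun F hF => by
          have := (per_F hF s').zsmul (toIcoDiv p2 0 θ) ϑ
          rwa [hϑ, toIcoMod_add_toIcoDiv_zsmul] at this
      rw [e _ S.p1, e _ S.p2, e _ S.p3]
      have c1 := abs_lt.1 (b1 ϑ m)
      have c2 := abs_lt.1 (b2 ϑ m)
      have c3 := abs_lt.1 (b3 ϑ m)
      constructor <;> linarith [(a2.2.2 ϑ).1, (a1.2.2 ϑ).2, c1.1, c1.2, c2.1, c2.2, c3.1, c3.2]

noncomputable def qq (ε t : ℝ) : ℝ := ε * t - ε / 200 * t ^ 2 - ε / 10 * (|t - π| + |t - 2 * π|)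

lemma qq_bd {ε t : ℝ} (hε : 0 < ε) (h0 : 0 ≤ t) (h1 : t ≤ 8 * π) : |qq ε t| ≤ 40 * ε := by
  have p := pi_lt_d2
  have p' := pi_pos
  have a : |t - π| ≤ 26 := abs_le.2 ⟨by linarith, by linarith⟩
  have b : |t - 2 * π| ≤ 26 := abs_le.2 ⟨by linarith, by linarith⟩
  have c : t ^ 2 ≤ 26 ^ 2 := pow_le_pow_left₀ h0 (by linarith) 2
  have := abs_nonneg (t - π)
  have := abs_nonneg (t - 2 * π)
  have := sq_nonneg t
  unfold qq
  rw [abs_le]; constructor <;> nlinarith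

lemma abs_sub_grad (y : ℝ) : ∃ σ : ℝ, |σ| ≤ 1 ∧ ∀ x, |y| + σ * x ≤ |y + x| := by
  rcases le_total 0 y with h | h
  · exact ⟨1, by simp, fun x => by rw [abs_of_nonneg h, one_mul]; exact le_abs_self _⟩
  · exact ⟨-1, by simp, fun x => by rw [abs_of_nonpos h]; linarith [neg_abs_le (y + x)]⟩

lemma qq_inc {ε t : ℝ} (hε : 0 < ε) (h1 : t ≤ 8 * π) :
    ∃ b, ε / 2 ≤ b ∧ ∀ x, qq ε (t + x) - qq ε t ≤ b * x - ε / 200 * x ^ 2 := by
  obtain ⟨σ, a1, a2⟩ := abs_sub_grad (t - π)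
  obtain ⟨τ, b1, b2⟩ := abs_sub_grad (t - 2 * π)
  refine ⟨ε - ε / 100 * t - ε / 10 * (σ + τ), ?_, fun x => ?_⟩
  · nlinarith [pi_lt_d2, le_abs_self σ, le_abs_self τ]
  · have := a2 x
    have := b2 x
    unfold qq
    rw [show t + x - π = t - π + x by ring, show t + x - 2 * π = t - 2 * π + x by ring]
    nlinarith

lemma qq_kink {ε t : ℝ} (hε : 0 < ε) (h1 : t = π ∨ t = 2 * π) :
    ∃ b, ε / 2 ≤ b ∧ ∀ x, qq ε (t + x) - qq ε t ≤ b * x - ε / 10 * |x| := by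
  have p := pi_lt_d2
  rcases h1 with h | h
  · obtain ⟨τ, b1, b2⟩ := abs_sub_grad (t - 2 * π)
    refine ⟨ε - ε / 100 * t - ε / 10 * τ, ?_, fun x => ?_⟩
    · rw [h]; nlinarith [le_abs_self τ]
    · have := b2 x
      unfold qq
      rw [show t + x - π = x by rw [h]; ring, show t + x - 2 * π = t - 2 * π + x by ring,
        show t - π = 0 by rw [h]; ring, abs_zero]
      nlinarith [mul_nonneg hε.le (sq_nonneg x)]
  · obtain ⟨τ, b1, b2⟩ := abs_sub_grad (t - π)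
    refine ⟨ε - ε / 100 * t - ε / 10 * τ, ?_, fun x => ?_⟩
    · rw [h]; nlinarith [le_abs_self τ]
    · have := b2 x
      unfold qq
      rw [show t + x - 2 * π = x by rw [h]; ring, show t + x - π = t - π + x by ring,
        show t - 2 * π = 0 by rw [h]; ring, abs_zero]
      nlinarith [mul_nonneg hε.le (sq_nonneg x)]

end Pool.Agent.Lib.MP_9dc04a_an
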