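import Pool.Agent.Lib.MP_9dc04a_an.WkInt

set_option autoImplicit false

namespace Pool.Agent.Lib.MP_9dc04a_an

open Complex Metric Set MeasureTheory
open scoped Real ComplexConjugate

lemma wf_coef {G : ℂ → ℂ} (d : DifferentiableOn ℂ G (ball 0 1)) {r : ℝ} (r0 : 0 < r) (r1 : r < 1)
    (n : ℕ) : 2 * π * (‖co n G‖ * r ^ n) ≤ ∫ θ in (0:ℝ)..2 * π, ‖G (circleMap 0 r θ)‖ := by
  refine le_of_mul_le_mul_right ?_ (pow_pos r0 n)
  have : 2 * π * (‖co n G‖ * r ^ n) * r ^ n = ‖2 * π * co n G * (r:ℂ) ^ (2 * n)‖ := by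
    simp only [norm_mul, norm_pow, Complex.norm_ofNat, Complex.norm_real, Real.norm_eq_abs,
      abs_of_pos r0, abs_of_pos Real.pi_pos]
    ring
  rw [this, ← key d r0 r1 n, ← intervalIntegral.integral_mul_const]
  refine (intervalIntegral.norm_integral_le_integral_norm (by positivity)).trans (le_of_eq ?_)
  refine intervalIntegral.integral_congr fun θ _ => ?_
  simp only [norm_mul, Complex.norm_conj, norm_pow, norm_circleMap_zero, abs_of_pos r0]

lemma wf_pow (m : ℕ) (hm : 1 ≤ m) : 1 / 3 ≤ (1 - 1 / ((m:ℝ) + 1)) ^ m := by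
  have m0 : (0:ℝ) < m := by exact_mod_cast hm
  have a : (1 / (m:ℝ) + 1) ^ m ≤ 3 := by
    refine (pow_le_pow_left₀ (by positivity) (Real.add_one_le_exp _) m).trans ?_
    rw [← Real.exp_nat_mul, mul_one_div_cancel m0.ne']
    exact Real.exp_one_lt_d9.le.trans (by norm_num)
  rw [show 1 - 1 / ((m:ℝ) + 1) = 1 / (1 / m + 1) by field_simp; ring, one_div_pow]
  exact one_div_le_one_div_of_le (by positivity) a

lemma QCls.rot {h g : ℂ → ℂ} (c : QCls h g) {μ : ℂ} (hμ : ‖μ‖ = 1) :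
    QCls (fun z => μ * h z) (fun z => conj μ * g z) :=
  ⟨c.dh.const_mul μ, c.dg.const_mul _, fun z hz w hw e => c.inj hz hw (mul_left_cancel₀ (a := μ)
    (norm_ne_zero_iff.1 (by simp [hμ])) (by simpa [mul_add] using e)), fun z hz => by
      simpa [hμ] using c.jac z hz⟩

lemma wf_co {h g : ℂ → ℂ} (c : QCls h g) (a b : ℂ) (m : ℕ) :
    co m (fun z => a * deriv h z + b * deriv g z) =
      (m + 1) * (a * co (m + 1) h + b * co (m + 1) g) := by
  have an := isOpen_ball.mem_nhds (mem_ball_self (x := (0:ℂ)) one_pos)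
  have e : ∀ (l : ℂ) (k : ℂ → ℂ), co m (fun z => l * k z) = l * co m k := fun l k => by
    rw [co, co, iteratedDeriv_const_mul_field, mul_div_assoc]
  rw [co_add (((c.dh.deriv isOpen_ball).const_mul a).analyticAt an)
    (((c.dg.deriv isOpen_ball).const_mul b).analyticAt an), e, e, co_deriv, co_deriv]
  ring

theorem wk_int' (O : J9Ord) : ∃ C : ℝ, 0 < C ∧ ∀ {h g : ℂ → ℂ}, QCls h g → h 0 = 0 → g 0 = 0 →
    deriv h 0 = 1 → deriv g 0 = 0 → ∀ {μ : ℂ}, ‖μ‖ = 1 → ∀ {r t : ℝ}, 1 / 2 ≤ r → r < 1 → 1 ≤ t →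
      ∫ θ in (0:ℝ)..2 * π, min ((1 - r) * ‖μ * deriv h (circleMap 0 r θ) +
        conj μ * deriv g (circleMap 0 r θ)‖) (t ^ 3) ≤ C * t ^ 2 := by
  obtain ⟨C, C0, hC⟩ := wk_int O
  refine ⟨C, C0, fun {h g} c h0 g0 h1 g1 {μ} hμ {r t} r0 r1 t1 => ?_⟩
  simpa using hC (c.rot hμ) (by simp [h0, g0]) (by simp [h1, g1, hμ]) r0 r1 t1

theorem wk_sharp (O : J9Ord) : ∃ C : ℝ, ∀ {h g : ℂ → ℂ}, QCls h g → h 0 = 0 → g 0 = 0 →
    deriv h 0 = 1 → deriv g 0 = 0 → ∀ n : ℕ, 2 ≤ n → ‖co n h‖ + ‖co n g‖ ≤ C * n ^ 2 := by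
  obtain ⟨C, C0, hC⟩ := wk_int' O
  refine ⟨4 * C, fun {h g} c h0 g0 h1 g1 n hn => ?_⟩
  obtain ⟨m, rfl⟩ : ∃ m, n = m + 1 := ⟨n - 1, by omega⟩
  have m1 : (1:ℝ) ≤ m := by exact_mod_cast (by omega : 1 ≤ m)
  have A : ∀ μ : ℂ, ‖μ‖ = 1 → ‖μ * co (m + 1) h + conj μ * co (m + 1) g‖ ≤
      2 * C * (m + 1) ^ 2 := fun μ hμ => by
    set s : ℝ := 1 / (m + 1) with hs
    have s0 : 0 < s := by positivity
    have s1 : s ≤ 1 / 2 := one_div_le_one_div_of_le two_pos (by linarith)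
    have q := (c.rot hμ).qg O (l := 1) (by simp)
    have a1 := hC c h0 g0 h1 g1 hμ (r := 1 - s) (t := 2 * (m + 1)) (by linarith) (by linarith)
      (by linarith)
    have a2 := wf_coef q.d (r := 1 - s) (by linarith) (by linarith) m
    rw [intervalIntegral.integral_congr (g := fun θ => s * ‖μ * deriv h (circleMap 0 (1 - s) θ) +
      conj μ * deriv g (circleMap 0 (1 - s) θ)‖) fun θ _ => by
        have n : ‖circleMap 0 (1 - s) θ‖ = 1 - s := by
          rw [norm_circleMap_zero, abs_of_pos (by linarith)]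
        have := q.dist' (by simp [h1, g1, hμ]) (z := circleMap 0 (1 - s) θ) (by linarith)
        simp only [n, deriv_const_mul_field', one_mul, sub_sub_cancel] at this ⊢
        refine min_eq_left ((mul_le_mul_of_nonneg_left this s0.le).trans ?_)
        rw [show s * (4 / s ^ 4) = 4 * (m + 1) ^ 3 by rw [hs]; field_simp]
        nlinarith [pow_pos (show (0:ℝ) < m + 1 by linarith) 3],
      intervalIntegral.integral_const_mul] at a1
    simp only [deriv_const_mul_field', one_mul] at a2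
    rw [wf_co c, norm_mul, show ‖(m:ℂ) + 1‖ = m + 1 by exact_mod_cast Complex.norm_natCast (m + 1)]
      at a2
    have a3 := (mul_le_mul_of_nonneg_left a2 s0.le).trans a1
    have a4 := mul_le_mul Real.pi_gt_three.le (wf_pow m (by omega)) (by norm_num) Real.pi_pos.le
    have a5 : s * (m + 1) = 1 := by rw [hs]; field_simp
    rw [← hs] at a4
    have a6 := mul_le_mul_of_nonneg_right a4
      (norm_nonneg (μ * co (m + 1) h + conj μ * co (m + 1) g))
    linear_combination a3 / 2 + a6 -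
      π * (1 - s) ^ m * ‖μ * co (m + 1) h + conj μ * co (m + 1) g‖ * a5
  have b1 := A 1 (by simp)
  have b2 := A I (by simp)
  simp only [map_one, one_mul] at b1
  rw [conj_I, neg_mul, ← sub_eq_add_neg, ← mul_sub, norm_mul, norm_I, one_mul] at b2
  generalize co (m + 1) h = a at *
  generalize co (m + 1) g = b at *
  have e1 := norm_add_le (a + b) (a - b)
  have e2 := norm_sub_le (a + b) (a - b)
  rw [show a + b + (a - b) = 2 * a by ring, norm_mul, Complex.norm_ofNat] at e1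
  rw [show a + b - (a - b) = 2 * b by ring, norm_mul, Complex.norm_ofNat] at e2
  push_cast
  linarith

end Pool.Agent.Lib.MP_9dc04a_an
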