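import Mathlib

set_option autoImplicit false

namespace Pool.Agent.Lib.MP_9dc04a_an

open Complex Metric Set
open scoped ComplexConjugate

def WR : Set ℂ := {ξ | -1 ≤ ξ.re ∧ ξ.re ≤ 2 ∧ 0 ≤ ξ.im ∧ ξ.im ≤ 2}

structure WkS (W F : ℂ → ℂ) : Prop where
  dW : ∀ ξ : ℂ, 0 ≤ ξ.im → DifferentiableAt ℂ W ξ
  h2 : ∀ ξ : ℂ, 0 < ξ.im → ξ.im ≤ 2 → ξ.im * ‖deriv (deriv W) ξ‖ ≤ 26 * ‖deriv W ξ‖
  cF : ContinuousOn F WR
  iF : InjOn F WR
  re : ∀ ξ, (F ξ).re = (W ξ).re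

noncomputable def wP (W : ℂ → ℂ) (ξ : ℂ) : ℝ := |(W ξ).re| + ξ.im * ‖deriv W ξ‖

noncomputable def wE : ℝ := 1 + 7 * Real.exp 78

lemma wE_one : 1 ≤ wE := le_add_of_nonneg_right (by positivity)

variable {W F : ℂ → ℂ}

lemma wP_abs {ξ : ℂ} (h : 0 ≤ ξ.im) : |(W ξ).re| ≤ wP W ξ := le_add_of_nonneg_right (by positivity)

lemma WkS.d2 (K : WkS W F) {ξ : ℂ} (h : 0 < ξ.im) : DifferentiableAt ℂ (deriv W) ξ := by
  have o : IsOpen {ξ : ℂ | 0 < ξ.im} := isOpen_lt continuous_const continuous_im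
  exact (DifferentiableOn.deriv (fun w (hw : 0 < w.im) => (K.dW w hw.le).differentiableWithinAt)
    o).differentiableAt (o.mem_nhds h)

lemma WkS.gron (K : WkS W F) {m : ℝ} (m0 : 0 < m) {ξ w : ℂ} (h1 : m ≤ ξ.im) (h2 : ξ.im ≤ 2)
    (h3 : m ≤ w.im) (h4 : w.im ≤ 2) :
    ‖deriv W w‖ ≤ ‖deriv W ξ‖ * Real.exp (26 * ‖w - ξ‖ / m) := by
  have b : ∀ t ∈ Icc (0:ℝ) 1, m ≤ (ξ + t * (w - ξ)).im ∧ (ξ + t * (w - ξ)).im ≤ 2 := fun t ht => by
    simp only [add_im, mul_im, ofReal_re, ofReal_im, sub_im, zero_mul, add_zero]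
    constructor <;> nlinarith [ht.1, ht.2]
  have d : ∀ t ∈ Icc (0:ℝ) 1, HasDerivAt (fun t : ℝ => deriv W (ξ + t * (w - ξ)))
      ((w - ξ) * deriv (deriv W) (ξ + t * (w - ξ))) t := fun t ht =>
    (K.d2 (m0.trans_le (b t ht).1)).hasDerivAt.scomp (h := fun t : ℝ => ξ + t * (w - ξ)) t
      (by simpa using ((ofRealCLM.hasDerivAt (x := t)).mul_const (w - ξ)).const_add ξ)
  have := norm_le_gronwallBound_of_norm_deriv_right_le (δ := ‖deriv W ξ‖) (K := 26 * ‖w - ξ‖ / m)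
    (ε := 0) (a := 0) (b := 1) (fun t ht => (d t ht).continuousAt.continuousWithinAt)
    (fun t ht => (d t (Ico_subset_Icc_self ht)).hasDerivWithinAt) (by simp) (fun t ht => by
      have q := b t (Ico_subset_Icc_self ht)
      have := K.h2 _ (m0.trans_le q.1) q.2
      rw [add_zero, norm_mul, div_mul_eq_mul_div, le_div_iff₀ m0]
      nlinarith [mul_le_mul_of_nonneg_left this (norm_nonneg (w - ξ)), mul_le_mul_of_nonneg_left q.1
        (mul_nonneg (norm_nonneg (w - ξ)) (norm_nonneg (deriv (deriv W) (ξ + t * (w - ξ)))))])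
    1 (right_mem_Icc.2 zero_le_one)
  simpa [gronwallBound_ε0] using this

lemma WkS.har (K : WkS W F) {m : ℝ} (m0 : 0 < m) {ξ w : ℂ} (h1 : m ≤ ξ.im) (h2 : ξ.im ≤ 2)
    (h3 : m ≤ w.im) (h4 : w.im ≤ 2) (h : ‖w - ξ‖ ≤ 3 * m) : wP W w ≤ wE * wP W ξ := by
  have g : ∀ v ∈ closedBall ξ (3 * m) ∩ ({v : ℂ | m ≤ v.im} ∩ {v : ℂ | v.im ≤ 2}),
      ‖deriv W v‖ ≤ ‖deriv W ξ‖ * Real.exp 78 := fun v hv =>
    (K.gron m0 h1 h2 hv.2.1 hv.2.2).trans (mul_le_mul_of_nonneg_left (Real.exp_le_exp.2 (by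
      rw [div_le_iff₀ m0]; linarith [mem_closedBall_iff_norm.1 hv.1])) (norm_nonneg _))
  have hw : w ∈ closedBall ξ (3 * m) ∩ ({v : ℂ | m ≤ v.im} ∩ {v : ℂ | v.im ≤ 2}) :=
    ⟨mem_closedBall_iff_norm.2 h, h3, h4⟩
  have a := Convex.norm_image_sub_le_of_norm_deriv_le (fun v hv => K.dW v (m0.le.trans hv.2.1)) g
    ((convex_closedBall _ _).inter ((convex_halfSpace_im_ge m).inter (convex_halfSpace_im_le 2)))
    ⟨mem_closedBall_self (by positivity), h1, h2⟩ hw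
  have a1 := abs_re_le_norm (W w - W ξ)
  have a2 := abs_le.1 (abs_im_le_norm (w - ξ))
  rw [sub_re] at a1
  rw [sub_im] at a2
  have a3 := abs_sub_abs_le_abs_sub (W w).re (W ξ).re
  have e0 := Real.exp_pos 78
  have D0 : 0 ≤ ‖deriv W ξ‖ * Real.exp 78 := by positivity
  have a4 := mul_le_mul (show w.im ≤ 4 * ξ.im by linarith) (g w hw) (norm_nonneg _) (by linarith)
  have a5 := mul_le_mul_of_nonneg_left (h.trans (show 3 * m ≤ 3 * ξ.im by linarith)) D0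
  have a6 := mul_nonneg e0.le (abs_nonneg (W ξ).re)
  have a7 := mul_nonneg (m0.le.trans h1) (norm_nonneg (deriv W ξ))
  simp only [wP, wE]
  nlinarith

lemma WkS.ball (K : WkS W F) {ξ : ℂ} (h0 : 0 < ξ.im) (h1 : ξ.im ≤ 1) :
    ∃ ζ, ‖ζ - ξ‖ ≤ ξ.im / 4 ∧ ∀ w, ‖w - ζ‖ ≤ ξ.im / 8000 → wP W ξ / 8000 ≤ |(W w).re| := by
  set y := ξ.im with hy
  set d := deriv W ξ with hd
  have b : ∀ v ∈ closedBall ξ (y / 1000), y / 2 ≤ v.im ∧ v.im ≤ 2 := fun v hv => by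
    have := abs_le.1 ((abs_im_le_norm (v - ξ)).trans (mem_closedBall_iff_norm.1 hv))
    rw [sub_im] at this
    constructor <;> linarith
  have c0 := mem_closedBall_self (x := ξ) (show 0 ≤ y / 1000 by positivity)
  have g2 : ∀ v ∈ closedBall ξ (y / 1000), ‖deriv (deriv W) v‖ ≤ 156 * ‖d‖ / y := fun v hv => by
    have a1 := K.gron (ξ := ξ) (half_pos h0) (by linarith) (by linarith) (b v hv).1 (b v hv).2
    have a2 : Real.exp (26 * ‖v - ξ‖ / (y / 2)) ≤ 3 :=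
      (Real.exp_le_exp.2 (by
        rw [div_le_one (by positivity)]; linarith [mem_closedBall_iff_norm.1 hv])).trans
        (Real.exp_one_lt_d9.le.trans (by norm_num))
    have a3 := K.h2 v (by linarith [(b v hv).1]) (b v hv).2
    rw [le_div_iff₀ h0]
    nlinarith [mul_le_mul_of_nonneg_left a2 (norm_nonneg d),
      mul_le_mul_of_nonneg_right (b v hv).1 (norm_nonneg (deriv (deriv W) v))]
  have g1 : ∀ v ∈ closedBall ξ (y / 1000), ‖deriv W v - d‖ ≤ ‖d‖ / 4 := fun v hv =>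
    (Convex.norm_image_sub_le_of_norm_deriv_le (fun v hv => K.d2 (by linarith [(b v hv).1])) g2
      (convex_closedBall _ _) c0 hv).trans ((mul_le_mul_of_nonneg_left
        (mem_closedBall_iff_norm.1 hv) (by positivity)).trans (by
          rw [show 156 * ‖d‖ / y * (y / 1000) = 156 / 1000 * ‖d‖ by field_simp]
          linarith [norm_nonneg d]))
  have g0 : ∀ v ∈ closedBall ξ (y / 1000), ‖W v - d * v - (W ξ - d * ξ)‖ ≤ ‖d‖ / 4 * ‖v - ξ‖ :=
    fun v hv => Convex.norm_image_sub_le_of_norm_hasDerivWithin_le (f := fun v => W v - d * v)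
      (fun v hv => ((K.dW v (by linarith [(b v hv).1])).hasDerivAt.sub
        (by simpa using (hasDerivAt_id' v).const_mul d)).hasDerivWithinAt) g1
      (convex_closedBall _ _) c0 hv
  obtain ⟨σ, s1, s2⟩ : ∃ σ : ℝ, |σ| = 1 ∧ σ * (W ξ).re = |(W ξ).re| := by
    rcases le_total 0 (W ξ).re with h | h
    · exact ⟨1, abs_one, by rw [one_mul, abs_of_nonneg h]⟩
    · exact ⟨-1, by simp, by rw [neg_one_mul, abs_of_nonpos h]⟩
  obtain ⟨e, e1, e2⟩ : ∃ e : ℂ, ‖e‖ ≤ 1 ∧ σ * (d * e).re = ‖d‖ := by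
    refine ⟨σ * conj d / ‖d‖, by simp [s1, div_le_one_of_le₀], ?_⟩
    rcases eq_or_ne d 0 with h | h
    · simp [h]
    have : (‖d‖ : ℂ) ≠ 0 := by simpa using h
    rw [show d * (σ * conj d / ‖d‖) = (σ * ‖d‖ : ℝ) by
      rw [← mul_div_assoc, mul_left_comm, mul_conj, normSq_eq_norm_sq]; push_cast; field_simp,
      ofReal_re, ← mul_assoc, ← sq, ← sq_abs, s1]
    ring
  have n1 : ‖((y / 2000 : ℝ) : ℂ) * e‖ ≤ y / 2000 := by
    rw [norm_mul, Complex.norm_real, Real.norm_of_nonneg (by positivity)]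
    exact mul_le_of_le_one_right (by positivity) e1
  refine ⟨ξ + (y / 2000 : ℝ) * e, by rw [add_sub_cancel_left]; linarith, fun w hw => ?_⟩
  set v := w - (ξ + (y / 2000 : ℝ) * e) with hv
  have e3 : w - ξ = v + (y / 2000 : ℝ) * e := by rw [hv]; ring
  have n2 : ‖w - ξ‖ ≤ y / 1600 := by rw [e3]; linarith [norm_add_le v ((y / 2000 : ℝ) * e)]
  have a1 := g0 w (mem_closedBall_iff_norm.2 (by linarith))
  have sg : ∀ q : ℂ, |σ * q.re| ≤ ‖q‖ := fun q => by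
    rw [abs_mul, s1, one_mul]; exact abs_re_le_norm q
  have a2 := abs_le.1 ((sg _).trans (a1.trans (mul_le_mul_of_nonneg_left n2 (by positivity))))
  have a3 := abs_le.1 ((sg (d * v)).trans ((norm_mul d v).le.trans
    (mul_le_mul_of_nonneg_left hw (norm_nonneg d))))
  rw [show W w - d * w - (W ξ - d * ξ) = W w - W ξ - (d * v + (y / 2000 : ℝ) * (d * e)) by
    linear_combination (-d) * e3, sub_re, sub_re, add_re, re_ofReal_mul] at a2
  have a4 : σ * (W w).re ≤ |(W w).re| := by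
    have := le_abs_self (σ * (W w).re)
    rwa [abs_mul, s1, one_mul] at this
  have a5 : σ * (y / 2000 * (d * e).re) = y / 2000 * ‖d‖ := by rw [← e2]; ring
  have a6 := mul_nonneg h0.le (norm_nonneg d)
  simp only [wP, ← hy, ← hd]
  nlinarith [abs_nonneg (W ξ).re]

end Pool.Agent.Lib.MP_9dc04a_an
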