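import Pool.Agent.Lib.MP_9dc04a_an.WkSum
import Pool.Agent.Lib.MP_9dc04a_an.O3Cor

set_option autoImplicit false

namespace Pool.Agent.Lib.MP_9dc04a_an

open Complex Metric Set MeasureTheory
open scoped Real ComplexConjugate

structure QG (G : ℂ → ℂ) : Prop where
  d : DifferentiableOn ℂ G (ball 0 1)
  o : ∀ a : ℂ, ‖a‖ < 1 →
    ‖((1 - ‖a‖ ^ 2 : ℝ) : ℂ) * deriv G a - 2 * conj a * G a‖ ≤ 6 * ‖G a‖

lemma wi_at {G : ℂ → ℂ} (d : DifferentiableOn ℂ G (ball 0 1)) {a : ℂ} (ha : ‖a‖ < 1) :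
    HasDerivAt G (deriv G a) a :=
  (d.differentiableAt (isOpen_ball.mem_nhds (mem_ball_zero_iff.2 ha))).hasDerivAt

lemma QCls.qg (O : J9Ord) {h g : ℂ → ℂ} (c : QCls h g) {l : ℂ} (hl : ‖l‖ ≤ 1) :
    QG fun z => deriv h z + l * deriv g z :=
  ⟨(c.dh.deriv isOpen_ball).add ((c.dg.deriv isOpen_ball).const_mul l), fun a ha => by
    rw [((wi_at (c.dh.deriv isOpen_ball) ha).fun_add
      ((wi_at (c.dg.deriv isOpen_ball) ha).const_mul l)).deriv]
    exact qc_inv O c hl ha⟩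

lemma wi_ray {G : ℂ → ℂ} (d : DifferentiableOn ℂ G (ball 0 1)) {e : ℂ} (he : ‖e‖ ≤ 1) {t : ℝ}
    (ht : t ∈ Ico (0:ℝ) 1) : HasDerivAt (fun t : ℝ => G (t * e)) (e * deriv G (t * e)) t :=
  (wi_at d (by
    rw [norm_mul, Complex.norm_real, Real.norm_of_nonneg ht.1]
    exact (mul_le_of_le_one_right ht.1 he).trans_lt ht.2)).scomp (h := fun t : ℝ => t * e) t
      (by simpa using (ofRealCLM.hasDerivAt (x := t)).mul_const e)

lemma QG.anti {G : ℂ → ℂ} (q : QG G) {e : ℂ} (he : ‖e‖ = 1) :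
    AntitoneOn (fun t : ℝ => (1 - t) ^ 4 / (1 + t) ^ 2 * ‖G (t * e)‖) (Ico 0 1) := by
  have D : ∀ t ∈ Ico (0:ℝ) 1, ∃ D, HasDerivAt
      (fun t : ℝ => (1 - t) ^ 8 / (1 + t) ^ 4 * ‖G (t * e)‖ ^ 2) D t ∧ D ≤ 0 := fun t ht => by
    have p : 0 < 1 + t := by linarith [ht.1]
    have p' : 0 < 1 - t := by linarith [ht.2]
    have nt : ‖(t:ℂ) * e‖ = t := by
      rw [norm_mul, he, mul_one, Complex.norm_real, Real.norm_of_nonneg ht.1]
    refine ⟨_, ((((hasDerivAt_id' t).const_sub 1).fun_pow 8).div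
      (((hasDerivAt_id' t).const_add 1).fun_pow 4) (pow_ne_zero _ p.ne')).mul
        (wi_ray q.d he.le ht).norm_sq, ?_⟩
    have o := q.o (t * e) (by rw [nt]; exact ht.2)
    rw [nt] at o
    generalize G (t * e) = a at o ⊢
    generalize deriv G (t * e) = b at o ⊢
    have ee : e * conj e = 1 := by rw [mul_conj, normSq_eq_norm_sq, he]; simp
    have a1 := real_inner_le_norm a (e * (((1 - t ^ 2 : ℝ) : ℂ) * b - 2 * conj (t * e) * a))
    rw [norm_mul, he, one_mul, show e * (((1 - t ^ 2 : ℝ) : ℂ) * b - 2 * conj (t * e) * a) =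
      (1 - t ^ 2) • (e * b) - (2 * t) • a by
        simp only [map_mul, conj_ofReal, real_smul]; push_cast; linear_combination (-2 * t * a) * ee,
      inner_sub_right, inner_smul_right, inner_smul_right, real_inner_self_eq_norm_sq] at a1
    have a2 := mul_le_mul_of_nonneg_left o (norm_nonneg a)
    have a3 := mul_le_mul_of_nonneg_left (a1.trans a2)
      (show 0 ≤ 2 * (1 - t) ^ 7 / (1 + t) ^ 5 by positivity)
    simp only [Pi.div_apply]
    refine le_of_eq_of_le ?_ (sub_nonpos.2 a3)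
    field_simp
    ring
  choose! D hD using D
  have := antitoneOn_of_deriv_nonpos (convex_Ico 0 1)
    (fun t ht => (hD t ht).1.continuousAt.continuousWithinAt)
    (fun t ht => (hD t (interior_subset ht)).1.differentiableAt.differentiableWithinAt)
    (fun t ht => by rw [(hD t (interior_subset ht)).1.deriv]; exact (hD t (interior_subset ht)).2)
  intro s hs t ht st
  refine le_of_pow_le_pow_left₀ two_ne_zero (by positivity) ?_
  have := this hs ht st
  simp only [mul_pow, div_pow, ← pow_mul]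
  exact this

lemma wi_pol (z : ℂ) : ∃ e : ℂ, ‖e‖ = 1 ∧ z = (‖z‖ : ℝ) * e :=
  ⟨exp (arg z * I), norm_exp_ofReal_mul_I _, (norm_mul_exp_arg_mul_I z).symm⟩

lemma QG.dist {G : ℂ → ℂ} (q : QG G) {z : ℂ} (hz : ‖z‖ < 1) :
    (1 - ‖z‖) ^ 4 * ‖G z‖ ≤ (1 + ‖z‖) ^ 2 * ‖G 0‖ := by
  obtain ⟨e, he, ez⟩ := wi_pol z
  have := q.anti he (left_mem_Ico.2 one_pos) ⟨norm_nonneg z, hz⟩ (norm_nonneg z)
  simp only [← ez] at this
  rw [div_mul_eq_mul_div, div_le_iff₀ (by positivity)] at this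
  simpa [mul_comm] using this

lemma QG.dist' {G : ℂ → ℂ} (q : QG G) (G0 : ‖G 0‖ ≤ 1) {z : ℂ} (hz : ‖z‖ < 1) :
    ‖G z‖ ≤ 4 / (1 - ‖z‖) ^ 4 := by
  rw [le_div_iff₀ (pow_pos (sub_pos.2 hz) 4), mul_comm]
  refine (q.dist hz).trans ((mul_le_of_le_one_right (by positivity) G0).trans ?_)
  nlinarith [norm_nonneg z]

lemma wi_grow {U : ℂ → ℂ} (d : DifferentiableOn ℂ U (ball 0 1)) (U0 : U 0 = 0)
    (b : ∀ z : ℂ, ‖z‖ < 1 → ‖deriv U z‖ ≤ 4 / (1 - ‖z‖) ^ 4) {z : ℂ} (hz : ‖z‖ < 1) :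
    ‖U z‖ ≤ 4 / (1 - ‖z‖) ^ 4 * (1 - ‖z‖) := by
  obtain ⟨e, he, ez⟩ := wi_pol z
  have m : ∀ t ∈ Icc 0 ‖z‖, t ∈ Ico (0:ℝ) 1 := fun t ht => ⟨ht.1, ht.2.trans_lt hz⟩
  have dB : ∀ t ∈ Icc 0 ‖z‖, HasDerivAt (fun t : ℝ => 4 / (1 - t) ^ 3) (12 / (1 - t) ^ 4) t :=
    fun t ht => by
      have p : 1 - t ≠ 0 := (sub_pos.2 (m t ht).2).ne'
      refine ((hasDerivAt_const t 4).fun_div (((hasDerivAt_id' t).const_sub 1).fun_pow 3)
        (pow_ne_zero _ p)).congr_deriv ?_
      field_simp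
      norm_num
      ring
  have := image_norm_le_of_norm_deriv_right_le_deriv_boundary' (f := fun t : ℝ => U (t * e))
    (fun t ht => (wi_ray d he.le (m t ht)).continuousAt.continuousWithinAt)
    (fun t ht => (wi_ray d he.le (m t (Ico_subset_Icc_self ht))).hasDerivWithinAt)
    (B := fun t : ℝ => 4 / (1 - t) ^ 3) (by simp [U0])
    (fun t ht => (dB t ht).continuousAt.continuousWithinAt)
    (fun t ht => (dB t (Ico_subset_Icc_self ht)).hasDerivWithinAt) (fun t ht => by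
      have nt : ‖(t:ℂ) * e‖ = t := by
        rw [norm_mul, he, mul_one, Complex.norm_real, Real.norm_of_nonneg ht.1]
      have := b (t * e) (by rw [nt]; exact ht.2.trans hz)
      rw [norm_mul, he, one_mul]
      rw [nt] at this
      exact this.trans (div_le_div_of_nonneg_right (by norm_num) (by positivity)))
    (right_mem_Icc.2 (norm_nonneg z))
  simp only [← ez] at this
  refine this.trans (le_of_eq ?_)
  have p : 1 - ‖z‖ ≠ 0 := (sub_pos.2 hz).ne'
  field_simp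

lemma wi_exp (y : ℝ) : y ≤ (1 + y) * (1 - Real.exp (-y)) := by
  have := mul_le_mul_of_nonneg_right (Real.add_one_le_exp y) (Real.exp_pos (-y)).le
  rw [← Real.exp_add, add_neg_cancel, Real.exp_zero] at this
  linarith

theorem wi_wk (O : J9Ord) {h g : ℂ → ℂ} (c : QCls h g) {ρ : ℝ} (ρ0 : 0 < ρ) (ρ1 : ρ < 1) (x : ℝ) :
    WkS (fun ζ => h (ρ * exp ((ζ + x) * I)) + g (ρ * exp ((ζ + x) * I)))
      (fun ζ => h (ρ * exp ((ζ + x) * I)) + conj (g (ρ * exp ((ζ + x) * I)))) ∧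
    ∀ ζ : ℂ, 0 ≤ ζ.im → deriv (fun ζ => h (ρ * exp ((ζ + x) * I)) + g (ρ * exp ((ζ + x) * I))) ζ =
      ρ * exp ((ζ + x) * I) * I *
        (deriv h (ρ * exp ((ζ + x) * I)) + 1 * deriv g (ρ * exp ((ζ + x) * I))) := by
  set Z : ℂ → ℂ := fun ζ => ρ * exp ((ζ + x) * I) with hZ
  have q := c.qg O (l := 1) (by simp)
  set G : ℂ → ℂ := fun z => deriv h z + 1 * deriv g z with hG
  have nZ : ∀ ζ, ‖Z ζ‖ = ρ * Real.exp (-ζ.im) := fun ζ => by
    simp [hZ, norm_exp, abs_of_pos ρ0]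
  have Z1 : ∀ ζ : ℂ, 0 ≤ ζ.im → ‖Z ζ‖ < 1 := fun ζ h => by
    rw [nZ]
    exact (mul_le_of_le_one_right ρ0.le (Real.exp_le_one_iff.2 (by linarith))).trans_lt ρ1
  have dZ : ∀ ζ, HasDerivAt Z (Z ζ * I) ζ := fun ζ => by
    simpa [hZ, mul_assoc] using ((((hasDerivAt_id' ζ).add_const (x:ℂ)).mul_const I).cexp).const_mul (ρ:ℂ)
  have d1 : ∀ ζ : ℂ, 0 ≤ ζ.im → HasDerivAt (fun ζ => h (Z ζ) + g (Z ζ)) (Z ζ * I * G (Z ζ)) ζ :=
    fun ζ hζ => (((wi_at c.dh (Z1 ζ hζ)).comp ζ (dZ ζ)).add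
      ((wi_at c.dg (Z1 ζ hζ)).comp ζ (dZ ζ))).congr_deriv (by simp only [hG]; ring)
  refine ⟨⟨fun ζ hζ => (d1 ζ hζ).differentiableAt, fun ζ y0 y2 => ?_, fun ζ hζ => ?_,
    fun ζ hζ ξ hξ e => ?_, fun ζ => by simp⟩, fun ζ hζ => (d1 ζ hζ).deriv⟩
  · have e : deriv (fun ζ => h (Z ζ) + g (Z ζ)) =ᶠ[nhds ζ] fun ζ => Z ζ * I * G (Z ζ) := by
      filter_upwards [(isOpen_lt continuous_const continuous_im).mem_nhds y0] with w hw
      exact (d1 w (le_of_lt hw)).deriv
    have d2 : HasDerivAt (fun ζ => Z ζ * I * G (Z ζ)) _ ζ := ((dZ ζ).mul_const I).fun_mul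
      ((wi_at q.d (Z1 ζ y0.le)).comp ζ (dZ ζ))
    rw [e.deriv_eq, (d1 ζ y0.le).deriv, d2.deriv]
    have o := q.o _ (Z1 ζ y0.le)
    have z1 := Z1 ζ y0.le
    have z2 : ζ.im ≤ 3 * (1 - ‖Z ζ‖ ^ 2) := by
      have := wi_exp ζ.im
      have : ‖Z ζ‖ ≤ Real.exp (-ζ.im) := by
        rw [nZ]; exact mul_le_of_le_one_left (Real.exp_pos _).le ρ1.le
      have : Real.exp (-ζ.im) ≤ 1 := Real.exp_le_one_iff.2 (by linarith)
      nlinarith [norm_nonneg (Z ζ)]
    generalize Z ζ = z at *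
    generalize G z = a at *
    generalize deriv G z = b at *
    have k0 : 0 ≤ 1 - ‖z‖ ^ 2 := by nlinarith [norm_nonneg z]
    have a1 := norm_le_norm_sub_add (((1 - ‖z‖ ^ 2 : ℝ) : ℂ) * b) (2 * conj z * a)
    rw [norm_mul, norm_mul, norm_mul, Complex.norm_real, Real.norm_of_nonneg k0,
      Complex.norm_conj, Complex.norm_ofNat] at a1
    have a2 := norm_add_le (z * I * I * a) (z * I * (b * (z * I)))
    simp only [norm_mul, norm_I, mul_one] at a2 ⊢
    have a3 : ζ.im * ‖b‖ ≤ 24 * ‖a‖ := by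
      nlinarith [mul_le_mul_of_nonneg_right z2 (norm_nonneg b),
        mul_le_mul_of_nonneg_right z1.le (norm_nonneg a)]
    have a4 : ζ.im * (‖b‖ * ‖z‖) ≤ 24 * ‖a‖ := by
      nlinarith [mul_le_mul_of_nonneg_left z1.le (mul_nonneg y0.le (norm_nonneg b))]
    nlinarith [mul_le_mul_of_nonneg_left a2 y0.le, mul_le_mul_of_nonneg_left a4 (norm_nonneg z),
      mul_le_mul_of_nonneg_right y2 (mul_nonneg (norm_nonneg z) (norm_nonneg a))]
  · exact (((wi_at c.dh (Z1 ζ hζ.2.2.1)).comp ζ (dZ ζ)).continuousAt.add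
      (continuous_conj.continuousAt.comp
        ((wi_at c.dg (Z1 ζ hζ.2.2.1)).comp ζ (dZ ζ)).continuousAt)).continuousWithinAt
  · have := c.inj (mem_ball_zero_iff.2 (Z1 ζ hζ.2.2.1)) (mem_ball_zero_iff.2 (Z1 ξ hξ.2.2.1)) e
    obtain ⟨n, hn⟩ := exp_eq_exp_iff_exists_int.1
      (mul_left_cancel₀ (ofReal_ne_zero.2 ρ0.ne') this)
    have e2 : ζ = ξ + n * (2 * π) := by
      refine mul_right_cancel₀ I_ne_zero ?_
      linear_combination hn
    have e3 : ζ.re = ξ.re + n * (2 * π) := by simpa using congrArg re e2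
    have : n = 0 := by
      have p := Real.pi_gt_three
      have a1 : (n:ℝ) < 1 := by
        by_contra c
        nlinarith [hζ.1, hζ.2.1, hξ.1, hξ.2.1]
      have a2 : -1 < (n:ℝ) := by
        by_contra c
        nlinarith [hζ.1, hζ.2.1, hξ.1, hξ.2.1]
      have : n < 1 := by exact_mod_cast a1
      have : -1 < n := by exact_mod_cast a2
      omega
    simpa [this] using e2

theorem wk_int (O : J9Ord) : ∃ C : ℝ, 0 < C ∧ ∀ {h g : ℂ → ℂ}, QCls h g → h 0 + g 0 = 0 →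
    ‖deriv h 0 + 1 * deriv g 0‖ ≤ 1 → ∀ {r t : ℝ}, 1 / 2 ≤ r → r < 1 → 1 ≤ t →
      ∫ θ in (0:ℝ)..2 * π, min ((1 - r) *
        ‖deriv h (circleMap 0 r θ) + 1 * deriv g (circleMap 0 r θ)‖) (t ^ 3) ≤ C * t ^ 2 := by
  obtain ⟨D, D0, hD⟩ := wk_sum
  have E1 := wE_one
  refine ⟨7 * (4 * wE * D * 128), by positivity, fun {h g} c U0 G0 {r t} r0 r1 t1 => ?_⟩
  have q := c.qg O (l := 1) (by simp)
  set G : ℂ → ℂ := fun z => deriv h z + 1 * deriv g z with hG
  obtain ⟨n, n1, n2⟩ := exists_nat_pow_near_of_lt_one (sub_pos.2 r1) (by linarith)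
    (show (0:ℝ) < 1 / 2 by norm_num) (by norm_num)
  rw [show n = n + 1 - 1 from rfl] at n2
  have L1 : 1 ≤ n + 1 := by omega
  generalize n + 1 = L at n1 n2 L1
  rw [one_div_pow] at n1
  set y : ℝ := 1 / 2 ^ L with hy
  have y0 : 0 < y := by positivity
  have y1 : 1 - r ≤ 2 * y := n2.trans (le_of_eq (by
    obtain ⟨L, rfl⟩ := Nat.exists_eq_add_of_le' L1
    rw [hy, Nat.add_sub_cancel, one_div_pow, pow_succ]; field_simp))
  set ρ := r * Real.exp y with hρ
  have ρ0 : 0 < ρ := by positivity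
  have er : ρ * Real.exp (-y) = r := by rw [hρ, mul_assoc, ← Real.exp_add]; simp
  have ρ1 : ρ < 1 := by
    refine lt_of_mul_lt_mul_right ?_ (Real.exp_pos (-y)).le
    linarith [Real.add_one_le_exp (-y)]
  set φ : ℝ → ℝ := fun θ => min ((1 - r) * ‖G (circleMap 0 r θ)‖) (t ^ 3) with hφ
  have cφ : Continuous φ :=
    (continuous_const.mul (cont_cm q.d (by linarith) r1).norm).min continuous_const
  have unit : ∀ x : ℝ, ∫ θ in x..x + 1, φ θ ≤ 4 * wE * D * 128 * t ^ 2 := fun x => by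
    obtain ⟨K, dW⟩ := wi_wk O c ρ0 ρ1 x
    set W := fun ζ : ℂ => h (ρ * exp ((ζ + x) * I)) + g (ρ * exp ((ζ + x) * I)) with hW
    have nZ : ∀ ζ : ℂ, ‖ρ * exp ((ζ + x) * I)‖ = ρ * Real.exp (-ζ.im) := fun ζ => by
      simp [norm_exp, abs_of_pos ρ0]
    have S := hD K (A := 128) (by norm_num) (fun k m _ => by
      have a0 : (0:ℝ) < 1 / 2 ^ k := by positivity
      have a1 : (1:ℝ) / 2 ^ k ≤ 1 := by simpa using wr_mono (Nat.zero_le k)
      have a2 := wi_exp (1 / 2 ^ k)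
      have a3 := nZ (wN k m)
      have a4 := Real.exp_le_one_iff.2 (neg_nonpos.2 a0.le)
      have a8 : (8:ℝ) ^ k * (1 / 2 ^ k) ^ 3 = 1 := by
        rw [one_div_pow, ← pow_mul, mul_comm k, pow_mul]; norm_num
      have im : (wN k m).im = 1 / 2 ^ k := rfl
      rw [wP, dW _ (by rw [im]; exact a0.le), im]
      rw [im] at a3
      change |(h _ + g _).re| + _ * ‖_ * G _‖ ≤ _
      generalize ρ * exp ((wN k m + x) * I) = z at a3 ⊢
      generalize (1:ℝ) / 2 ^ k = v at *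
      have z1 : v ≤ 2 * (1 - ‖z‖) := by
        have := mul_le_of_le_one_left (Real.exp_pos (-v)).le ρ1.le
        nlinarith
      have z2 : ‖z‖ < 1 := by linarith
      have b1 := q.dist' G0 z2
      have b2 := wi_grow (U := fun z => h z + g z) (c.dh.add c.dg) U0 (fun w hw => by
        rw [((wi_at c.dh hw).fun_add (wi_at c.dg hw)).deriv, ← one_mul (deriv g w)]
        exact q.dist' G0 hw) z2
      have b3 : 4 / (1 - ‖z‖) ^ 4 * (1 - ‖z‖) ≤ 32 * 8 ^ k := by
        have p : 0 < 1 - ‖z‖ := by linarith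
        rw [div_mul_eq_mul_div, div_le_iff₀ (by positivity)]
        have := mul_le_mul_of_nonneg_left (pow_le_pow_left₀ a0.le z1 3)
          (show 0 ≤ 4 * 8 ^ k * (1 - ‖z‖) by positivity)
        linear_combination this - 4 * (1 - ‖z‖) * a8
      have b4 := abs_re_le_norm (h z + g z)
      have b5 := mul_le_mul z1 ((mul_le_of_le_one_left (norm_nonneg _) z2.le).trans b1)
        (by positivity) (by linarith)
      rw [norm_mul, norm_mul, norm_I, mul_one]
      have : (0:ℝ) < 8 ^ k := by positivity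
      linarith) L t1
    have sm := intervalIntegral.sum_integral_adjacent_intervals (μ := volume) (f := φ)
      (a := fun j : ℕ => x + j * y) (n := 2 ^ L) fun _ _ => cφ.intervalIntegrable _ _
    have yL : 2 ^ L * y = 1 := by rw [hy]; field_simp
    simp only [Nat.cast_zero, zero_mul, add_zero, Nat.cast_pow, Nat.cast_ofNat, yL] at sm
    rw [← sm]
    refine (Finset.sum_le_sum (g := fun j => y * (4 * wE * min (wP W (wN L j)) (128 * t ^ 3)))
      fun j _ => ?_).trans ?_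
    · refine (intervalIntegral.integral_mono_on (by push_cast; linarith)
        (cφ.intervalIntegrable _ _) (intervalIntegrable_const (c := 4 * wE *
          min (wP W (wN L j)) (128 * t ^ 3))) fun θ hθ => ?_).trans (le_of_eq (by
            rw [intervalIntegral.integral_const, smul_eq_mul]; push_cast; ring))
      rw [mul_min_of_nonneg _ _ (by positivity)]
      have t0 : 0 < t ^ 3 := by positivity
      refine min_le_min ?_ (by nlinarith)
      have a1 := K.har y0 (ξ := wN L j) (w := ⟨θ - x, y⟩) le_rfl (show y ≤ 2 by linarith) le_rfl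
        (show y ≤ 2 by linarith) ((wr_norm _ (a := y) (b := 0) (by
          have h1 := hθ.1
          have h2 := hθ.2
          have : (j:ℝ) / 2 ^ L = j * y := by rw [hy]; ring
          push_cast at h2
          simp only [wN, sub_re, this]
          exact abs_le.2 ⟨by linarith, by linarith⟩) (by simp [wN, hy])).trans (by linarith))
      have a2 : (ρ:ℂ) * exp (((⟨θ - x, y⟩ : ℂ) + x) * I) = circleMap 0 r θ := by
        rw [← er, mk_eq_add_mul_I, circleMap, zero_add]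
        push_cast
        rw [mul_assoc, ← exp_add]
        congr 2
        linear_combination (y:ℂ) * I_mul_I
      rw [wP, dW _ y0.le, a2, norm_mul, norm_mul, norm_I, mul_one, norm_circleMap_zero,
        abs_of_pos (show 0 < r by linarith)] at a1
      change _ + y * (r * ‖G _‖) ≤ _ at a1
      have a3 := abs_nonneg (W ⟨θ - x, y⟩).re
      have a4 := mul_nonneg y0.le (norm_nonneg (G (circleMap 0 r θ)))
      nlinarith [mul_le_mul_of_nonneg_right y1 (norm_nonneg (G (circleMap 0 r θ)))]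
    · rw [← Finset.mul_sum, ← Finset.mul_sum]
      have := mul_le_mul_of_nonneg_left S (show 0 ≤ y * (4 * wE) by positivity)
      linear_combination this + 4 * wE * D * 128 * t ^ 2 * yL
  have sm := intervalIntegral.sum_integral_adjacent_intervals (μ := volume) (f := φ)
    (a := fun j : ℕ => (j:ℝ)) (n := 7) fun _ _ => cφ.intervalIntegrable _ _
  have p7 : 2 * π ≤ (7:ℕ) := by push_cast; linarith [Real.pi_lt_d2]
  refine (intervalIntegral.integral_mono_interval (c := (0:ℕ)) (by simp) (by positivity) p7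
    (Filter.Eventually.of_forall fun θ => le_min (by have := sub_pos.2 r1; positivity)
      (by positivity)) (cφ.intervalIntegrable _ _)).trans ?_
  rw [← sm]
  refine (Finset.sum_le_card_nsmul _ _ _ fun j _ => by simpa using unit j).trans (le_of_eq ?_)
  simp
  ring

end Pool.Agent.Lib.MP_9dc04a_an
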