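import Pool.Agent.Lib.MP_9dc04a_an.WkTop

set_option autoImplicit false

namespace Pool.Agent.Lib.MP_9dc04a_an

open Complex Metric Set Filter Topology

lemma WStrip.neg (u : ℂ → ℝ) (D : Set ℂ) (a b : ℝ) :
    WStrip (fun ξ => -u ξ) D a b = WStrip u D b a := by
  ext ξ; simp only [WStrip, mem_ofPred_eq]
  exact ⟨fun h => ⟨h.1, by linarith [h.2.2], by linarith [h.2.1]⟩,
    fun h => ⟨h.1, by linarith [h.2.2], by linarith [h.2.1]⟩⟩

lemma WRch.neg {u : ℂ → ℝ} {D : Set ℂ} {z : ℂ} {a b c : ℝ} :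
    WRch (fun ξ => -u ξ) D z a b c ↔ WRch u D z b a (-c) := by
  simp only [WRch, WStrip.neg, neg_eq_iff_eq_neg]

lemma wk_open {u : ℂ → ℝ} {D : Set ℂ} (oD : IsOpen D) (cu : ContinuousOn u D) (a b : ℝ) :
    IsOpen (WStrip u D a b) := cu.isOpen_inter_preimage oD (isOpen_Ioo (a := -a) (b := b))

lemma wk_rch {u : ℂ → ℝ} {D : Set ℂ} (oD : IsOpen D) (cu : ContinuousOn u D) {a b : ℝ} {z ξ : ℂ}
    (ab : -a < b) (hξ : ξ ∈ closure (connectedComponentIn (WStrip u D a b) z)) (hD : ξ ∈ D)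
    (e : u ξ = b) : WRch u D z a b b := by
  have n1 : {w | w ∈ D ∧ -a < u w} ∈ 𝓝 ξ :=
    inter_mem (oD.mem_nhds hD) ((cu.continuousAt (oD.mem_nhds hD)).eventually
      (lt_mem_nhds (by rwa [e])))
  obtain ⟨ε, ε0, hε⟩ := Metric.mem_nhds_iff.1 n1
  obtain ⟨w, hw, wc⟩ := mem_closure_iff.1 hξ _ isOpen_ball (mem_ball_self ε0)
  have ws := connectedComponentIn_subset _ _ wc
  have zs : z ∈ WStrip u D a b := connectedComponentIn_nonempty_iff.1 ⟨w, wc⟩
  have j1 : JoinedIn (WStrip u D a b) z w :=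
    ((((wk_open oD cu a b).connectedComponentIn.isConnected_iff_isPathConnected).1
      (isConnected_connectedComponentIn_iff.2 zs)).joinedIn z (mem_connectedComponentIn zs)
        w wc).mono (connectedComponentIn_subset _ _)
  have m : ∀ t ∈ Icc (0:ℝ) 1, w + t • (ξ - w) ∈ ball ξ ε := fun t ht =>
    (convex_ball ξ ε).add_smul_sub_mem hw (mem_ball_self ε0) ht
  have cg : ContinuousOn (fun t : ℝ => u (w + t • (ξ - w))) (Icc 0 1) :=
    cu.comp (by fun_prop) fun t ht => (hε (m t ht)).1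
  obtain ⟨s, ⟨hs, es⟩, ls⟩ := (isCompact_Icc.of_isClosed_subset
    (cg.preimage_isClosed_of_isClosed isClosed_Icc (isClosed_singleton (x := b)))
      inter_subset_left).exists_isLeast ⟨1, right_mem_Icc.2 zero_le_one, by simpa using e⟩
  refine ⟨_, (hε (m s hs)).1, es, (j1.mono (subset_insert _ _)).trans
    (JoinedIn.of_segment_subset ?_)⟩
  rw [segment_eq_image']
  rintro _ ⟨t, ht, rfl⟩
  rcases ht.2.eq_or_lt with rfl | t1
  · left; simp
  right
  have ts : t * s ∈ Icc (0:ℝ) 1 := ⟨mul_nonneg ht.1 hs.1, mul_le_one₀ ht.2 hs.1 hs.2⟩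
  have s0 : 0 < s := hs.1.lt_of_ne fun h => by
    subst h; simp only [mem_preimage, zero_smul, add_zero, mem_singleton_iff] at es
    exact ws.2.2.ne es
  simp only [add_sub_cancel_left, smul_smul]
  refine ⟨(hε (m _ ts)).1, (hε (m _ ts)).2, ?_⟩
  by_contra hc
  obtain ⟨r, hr, er⟩ := intermediate_value_Icc ts.1 (cg.mono (Icc_subset_Icc_right ts.2))
    (show b ∈ Icc _ _ from ⟨by simpa using ws.2.2.le, not_lt.1 hc⟩)
  have := ls ⟨⟨hr.1, hr.2.trans ts.2⟩, er⟩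
  nlinarith [hr.2]

lemma wk_clo {u : ℂ → ℝ} {D : Set ℂ} (cu : ContinuousOn u (closure D)) {a b : ℝ} {z ξ : ℂ}
    (hξ : ξ ∈ closure (connectedComponentIn (WStrip u D a b) z)) :
    ξ ∈ closure D ∧ -a ≤ u ξ ∧ u ξ ≤ b := by
  have s : connectedComponentIn (WStrip u D a b) z ⊆ closure D ∩ u ⁻¹' Icc (-a) b := fun w hw =>
    let h := connectedComponentIn_subset _ _ hw
    ⟨subset_closure h.1, h.2.1.le, h.2.2.le⟩
  exact closure_minimal s (cu.preimage_isClosed_of_isClosed isClosed_closure isClosed_Icc) hξ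

lemma wk_front {u : ℂ → ℝ} {D : Set ℂ} (oD : IsOpen D) (cu : ContinuousOn u (closure D))
    {a b : ℝ} {z ξ : ℂ} (ab : -a < b)
    (hξ : ξ ∈ frontier (connectedComponentIn (WStrip u D a b) z)) (hD : ξ ∈ D) :
    u ξ = b ∧ WRch u D z a b b ∨ u ξ = -a ∧ WRch u D z a b (-a) := by
  have cu' := cu.mono subset_closure
  have h := wk_clo cu hξ.1
  rcases h.2.2.eq_or_lt with e | h2
  · exact Or.inl ⟨e, wk_rch oD cu' ab hξ.1 hD e⟩
  rcases h.2.1.eq_or_lt with e | h1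
  · exact Or.inr ⟨e.symm, WRch.neg.1 (wk_rch (u := fun ξ => -u ξ) oD cu'.neg (by linarith) (ξ := ξ)
      (by rw [WStrip.neg]; exact hξ.1) hD (by simp only [← e, neg_neg]))⟩
  exfalso
  obtain ⟨w, wc⟩ : (connectedComponentIn (WStrip u D a b) z).Nonempty :=
    closure_nonempty_iff.1 ⟨ξ, hξ.1⟩
  have zs : z ∈ WStrip u D a b := connectedComponentIn_nonempty_iff.1 ⟨w, wc⟩
  refine hξ.2 ?_
  rw [(wk_open oD cu' a b).connectedComponentIn.interior_eq]
  exact (isPreconnected_connectedComponentIn.subset_closure (subset_insert ξ _)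
    (insert_subset hξ.1 subset_closure)).subset_connectedComponentIn
      (mem_insert_of_mem _ (mem_connectedComponentIn zs))
      (insert_subset (show ξ ∈ WStrip u D a b from ⟨hD, h1, h2⟩) (connectedComponentIn_subset _ _)) (mem_insert _ _)

structure WPot (W G : ℂ → ℂ) (D : Set ℂ) (T M : ℝ) : Prop where
  op : IsOpen D
  bd : Bornology.IsBounded D
  dW : ∀ ξ ∈ closure D, DifferentiableAt ℂ W ξ
  dG : ∀ ξ ∈ closure D, |(W ξ).re| ≤ T → DifferentiableAt ℂ G ξ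
  up : ∀ ξ ∈ D, |(W ξ).re| ≤ T → ‖G ξ‖ ≤ Real.exp M
  ze : ∀ ξ ∈ closure D, ξ ∉ D → |(W ξ).re| ≤ T → ‖G ξ‖ ≤ 1

variable {W G : ℂ → ℂ} {D : Set ℂ} {T M : ℝ}

lemma WPot.cu (P : WPot W G D T M) : ContinuousOn (fun ξ => (W ξ).re) (closure D) :=
  continuous_re.comp_continuousOn fun ξ h => (P.dW ξ h).continuousAt.continuousWithinAt

lemma WPot.neg (P : WPot W G D T M) : WPot (fun ξ => -W ξ) G D T M :=
  ⟨P.op, P.bd, fun ξ h => (P.dW ξ h).neg, fun ξ h e => P.dG ξ h (by simpa using e),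
    fun ξ h e => P.up ξ h (by simpa using e), fun ξ h h' e => P.ze ξ h h' (by simpa using e)⟩

lemma WPot.mp (P : WPot W G D T M) {a b : ℝ} (ha : a ≤ T) (hb : b ≤ T) (ab : -a < b) {z : ℂ}
    {α β : ℝ} (h0 : ∀ x, -a ≤ x → x ≤ b → 0 ≤ α * x + β)
    (h1 : ∀ ξ ∈ closure (connectedComponentIn (WStrip (fun ξ => (W ξ).re) D a b) z), ξ ∈ D →
      (W ξ).re = b → WRch (fun ξ => (W ξ).re) D z a b b → ‖G ξ‖ ≤ Real.exp (α * b + β))
    (h2 : ∀ ξ ∈ D, (W ξ).re = -a → WRch (fun ξ => (W ξ).re) D z a b (-a) →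
      ‖G ξ‖ ≤ Real.exp (α * -a + β)) {ξ : ℂ}
    (hξ : ξ ∈ closure (connectedComponentIn (WStrip (fun ξ => (W ξ).re) D a b) z)) :
    ‖G ξ‖ ≤ Real.exp (α * (W ξ).re + β) := by
  set C := connectedComponentIn (WStrip (fun ξ => (W ξ).re) D a b) z with hC
  have cl : ∀ ξ ∈ closure C, ξ ∈ closure D ∧ -a ≤ (W ξ).re ∧ (W ξ).re ≤ b := fun ξ h =>
    wk_clo P.cu h
  have ab' : ∀ ξ ∈ closure C, |(W ξ).re| ≤ T := fun ξ h =>
    abs_le.2 ⟨by linarith [(cl ξ h).2.1], (cl ξ h).2.2.trans hb⟩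
  have e : ∀ ξ, ‖G ξ * exp (-(α * W ξ + β))‖ ≤ 1 ↔ ‖G ξ‖ ≤ Real.exp (α * (W ξ).re + β) := fun ξ => by
    rw [norm_mul, Complex.norm_exp, neg_re, Real.exp_neg, ← div_eq_mul_inv,
      div_le_one (Real.exp_pos _)]
    simp
  refine (e ξ).1 (Complex.norm_le_of_forall_mem_frontier_norm_le
    (P.bd.subset fun w hw => (connectedComponentIn_subset _ _ hw).1)
    (DifferentiableOn.diffContOnCl fun w hw => ((P.dG w (cl w hw).1 (ab' w hw)).mul
      ((((P.dW w (cl w hw).1).const_mul _).add_const _).neg.cexp)).differentiableWithinAt)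
    (fun w hw => (e w).2 ?_) hξ)
  by_cases hD : w ∈ D
  · rcases wk_front P.op P.cu ab hw hD with h | h
    · rw [h.1]; exact h1 w hw.1 hD h.1 h.2
    · rw [h.1]; exact h2 w hD h.1 h.2
  · exact (P.ze w (cl w hw.1).1 hD (ab' w hw.1)).trans
      (Real.one_le_exp (h0 _ (cl w hw.1).2.1 (cl w hw.1).2.2))

lemma WPot.side (P : WPot W G D T M) (M0 : 0 ≤ M) {a h θ : ℝ} {N : ℕ} (a0 : 0 < a) (h0 : 0 ≤ h)
    (hT : a + N * h = T) (t1 : 2 * a ≤ θ * T) (t2 : h ≤ θ * a) {z : ℂ} (hz : z ∈ D)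
    (uz : |(W z).re| < a) (l0 : ¬WRch (fun ξ => (W ξ).re) D z a a (-a))
    (nt : ∀ i ≤ N, WRch (fun ξ => (W ξ).re) D z a (a + i * h) (-a) →
      ¬WRch (fun ξ => (W ξ).re) D z a (a + i * h) (a + i * h)) : ‖G z‖ ≤ Real.exp (M * θ) := by
  have uz' := abs_lt.1 uz
  have p : ∀ i : ℕ, 0 ≤ i * h := fun i => by positivity
  have le : ∀ i ≤ N, a + i * h ≤ T := fun i hi => by
    have : (i:ℝ) ≤ N := by exact_mod_cast hi
    nlinarith
  have aT : a ≤ T := by linarith [p N]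
  have θ0 : 0 ≤ θ := by nlinarith
  have zc : ∀ i : ℕ, z ∈ closure
      (connectedComponentIn (WStrip (fun ξ => (W ξ).re) D a (a + i * h)) z) := fun i =>
    subset_closure (mem_connectedComponentIn ⟨hz, uz'.1, by linarith [p i]⟩)
  have ind : ∀ i ≤ N, ¬WRch (fun ξ => (W ξ).re) D z a (a + i * h) (-a) ∨
      ‖G z‖ ≤ Real.exp (M * θ) := by
    intro i
    induction i with
    | zero => exact fun _ => Or.inl (by simpa using l0)
    | succ i ih =>
      intro hi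
      refine (ih (by omega)).elim (fun n1 => ?_) Or.inr
      refine or_iff_not_imp_left.2 fun n2 => ?_
      have n3 := nt _ hi (not_not.1 n2)
      have q := p i
      set b : ℝ := a + (i + 1 : ℕ) * h with hb
      have eb : b = a + i * h + h := by rw [hb]; push_cast; ring
      have s0 : 0 < b + a := by linarith
      have m2 := fun ξ hξ => P.mp aT (le _ hi) (by linarith) (z := z) (α := -(M / (b + a)))
        (β := M / (b + a) * b) (ξ := ξ)
        (fun x _ h2 => by nlinarith [div_nonneg M0 s0.le])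
        (fun _ _ _ _ r => absurd r n3)
        (fun ξ hξ e _ => (P.up ξ hξ (by rw [e, abs_neg, abs_of_pos a0]; exact aT)).trans
          (le_of_eq (by congr 1; field_simp; ring))) hξ
      have := P.mp aT (le i (by omega)) (by linarith) (z := z) (α := 0) (β := M * θ)
        (fun _ _ _ => by rw [zero_mul, zero_add]; positivity)
        (fun ξ hξ _ e _ => (m2 ξ (closure_mono (connectedComponentIn_mono z fun w hw =>
          And.intro hw.1 ⟨hw.2.1, by linarith [hw.2.2]⟩) hξ)).trans (Real.exp_le_exp.2 (by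
            rw [e, show -(M / (b + a)) * (a + i * h) + M / (b + a) * b = M * (h / (b + a)) by
              rw [eb]; ring, zero_mul, zero_add]
            refine mul_le_mul_of_nonneg_left ?_ M0
            rw [div_le_iff₀ s0]
            nlinarith)))
        (fun _ _ _ r => absurd r n1) (zc i)
      simpa using this
  refine (ind N le_rfl).elim (fun n1 => ?_) id
  have s0 : 0 < T + a := by linarith
  have zN := zc N
  rw [hT] at n1 zN
  refine (P.mp aT le_rfl (by linarith) (α := M / (T + a)) (β := M / (T + a) * a)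
    (fun x h1 _ => by nlinarith [div_nonneg M0 s0.le])
    (fun ξ _ hξ e _ => (P.up ξ hξ (by rw [e, abs_of_pos (by linarith)])).trans
      (le_of_eq (by congr 1; field_simp))) (fun _ _ _ r => absurd r n1) zN).trans
    (Real.exp_le_exp.2 ?_)
  rw [show M / (T + a) * (W z).re + M / (T + a) * a = M * (((W z).re + a) / (T + a)) by ring]
  refine mul_le_mul_of_nonneg_left ?_ M0
  rw [div_le_iff₀ s0]
  nlinarith

def WTwo (u : ℂ → ℝ) (D : Set ℂ) (z : ℂ) (a b : ℝ) : Prop :=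
  WRch u D z a b (-a) ∧ WRch u D z a b b

theorem WPot.loc (P : WPot W G D T M) (M0 : 0 ≤ M) {a h θ : ℝ} {N : ℕ} (a0 : 0 < a) (h0 : 0 ≤ h)
    (hT : a + N * h = T) (t1 : 2 * a ≤ θ * T) (t2 : h ≤ θ * a) {z : ℂ} (hz : z ∈ D)
    (uz : |(W z).re| < a)
    (nt : ∀ i ≤ N, ¬WTwo (fun ξ => (W ξ).re) D z a (a + i * h) ∧
      ¬WTwo (fun ξ => (W ξ).re) D z (a + i * h) a) : ‖G z‖ ≤ Real.exp (M * θ) := by
  by_cases l0 : WRch (fun ξ => (W ξ).re) D z a a (-a)
  · refine P.neg.side M0 a0 h0 hT t1 t2 hz (by simpa using uz) (fun r => ?_) fun i hi r1 r2 => ?_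
    · simp only [neg_re, WRch.neg, neg_neg] at r
      exact (nt 0 (Nat.zero_le _)).1 (by simpa [WTwo] using ⟨l0, r⟩)
    · simp only [neg_re, WRch.neg, neg_neg] at r1 r2
      exact (nt i hi).2 ⟨r2, r1⟩
  · exact P.side M0 a0 h0 hT t1 t2 hz uz l0 fun i hi r1 r2 => (nt i hi).1 ⟨r1, r2⟩

end Pool.Agent.Lib.MP_9dc04a_an
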