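import Mathlib

set_option autoImplicit false

namespace Pool.Agent.Lib.MP_9dc04a_an

open Complex Finset
open scoped ComplexConjugate

lemma wg_sq {ξ ζ : ℂ} (h : ξ ≠ ζ) :
    ‖(ξ - conj ζ) / (ξ - ζ)‖ ^ 2 = 1 + 4 * ξ.im * ζ.im / ‖ξ - ζ‖ ^ 2 := by
  have := norm_pos_iff.2 (sub_ne_zero.2 h)
  rw [norm_div, div_pow]
  field_simp
  simp only [Complex.sq_norm, normSq_apply, sub_re, sub_im, conj_re, conj_im]
  ring

lemma wg_up {ξ ζ : ℂ} (h : ξ ≠ ζ) :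
    ‖(ξ - conj ζ) / (ξ - ζ)‖ ≤ Real.exp (2 * ξ.im * ζ.im / ‖ξ - ζ‖ ^ 2) := by
  refine le_of_pow_le_pow_left₀ two_ne_zero (Real.exp_pos _).le ?_
  rw [wg_sq h, ← Real.exp_nat_mul, add_comm]
  exact (Real.add_one_le_exp _).trans (le_of_eq (by congr 1; push_cast; ring))

lemma wg_lo {ξ ζ : ℂ} (h : ξ ≠ ζ) {s : ℝ} (s0 : 0 ≤ s) (s1 : 2 * s ≤ 1)
    (hs : s * ‖ξ - ζ‖ ^ 2 ≤ ξ.im * ζ.im) : Real.exp s ≤ ‖(ξ - conj ζ) / (ξ - ζ)‖ := by
  have := norm_pos_iff.2 (sub_ne_zero.2 h)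
  refine le_of_pow_le_pow_left₀ two_ne_zero (norm_nonneg _) ?_
  have e := abs_le.1 (Real.abs_exp_sub_one_le (x := 2 * s) (by rwa [abs_of_nonneg (by linarith)]))
  rw [abs_of_nonneg (by linarith)] at e
  have : 4 * s ≤ 4 * ξ.im * ζ.im / ‖ξ - ζ‖ ^ 2 := by
    rw [le_div_iff₀ (by positivity)]; linarith
  rw [wg_sq h, ← Real.exp_nat_mul]
  push_cast
  linarith [e.2]

lemma wg_tel {y ε : ℝ} (y0 : 0 < y) (e0 : 0 ≤ ε) (α : ℝ) :
    ε * y / ((|α| + y) * (|α + ε| + y)) ≤ (α + ε) / (|α + ε| + y) - α / (|α| + y) := by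
  have p1 : 0 < |α| + y := by positivity
  have p2 : 0 < |α + ε| + y := by positivity
  rw [div_sub_div _ _ p2.ne' p1.ne', mul_comm (|α + ε| + y) (|α| + y)]
  refine div_le_div_of_nonneg_right ?_ (mul_pos p1 p2).le
  rcases le_total 0 α with h | h
  · rw [abs_of_nonneg h, abs_of_nonneg (add_nonneg h e0)]; nlinarith
  · rw [abs_of_nonpos h]
    rcases le_total 0 (α + ε) with h' | h'
    · rw [abs_of_nonneg h']; nlinarith
    · rw [abs_of_nonpos h']; nlinarith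

lemma wg_sum {y ε : ℝ} (y0 : 0 < y) (e0 : 0 ≤ ε) (x : ℝ) (S : Finset ℕ) :
    ∑ j ∈ S, ε * y / ((|j * ε - x| + y) * (|j * ε - x + ε| + y)) ≤ 2 := by
  obtain ⟨J, hJ⟩ := S.exists_nat_subset_range
  set φ : ℕ → ℝ := fun j => (j * ε - x) / (|j * ε - x| + y) with hφ
  have b : ∀ j, |φ j| ≤ 1 := fun j => by
    rw [hφ, abs_div, abs_of_pos (show 0 < |j * ε - x| + y by positivity),
      div_le_one (by positivity)]
    linarith
  refine (sum_le_sum_of_subset_of_nonneg hJ fun j _ _ => by positivity).trans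
    ((sum_le_sum (g := fun j => φ (j + 1) - φ j) fun j _ => ?_).trans ?_)
  · refine (wg_tel y0 e0 _).trans (le_of_eq ?_)
    simp only [hφ]
    rw [show ((j + 1 : ℕ) : ℝ) * ε - x = j * ε - x + ε by push_cast; ring]
  · rw [sum_range_sub]
    linarith [abs_le.1 (b J), abs_le.1 (b 0)]

theorem wk_pot (S : Finset ℕ) (n : ℕ → ℕ) (η : ℕ → ℝ) (ζ : ℕ → ℂ) {ε a c x : ℝ} (e0 : 0 < ε)
    (a0 : 0 < a) (c0 : 0 < c)
    (h : ∀ j ∈ S, n j * η j = 1 ∧ ε ≤ η j ∧ η j ≤ a ∧ |(ζ j).re - j * ε| ≤ 5 / 4 * η j ∧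
      3 / 4 * η j ≤ (ζ j).im ∧ (ζ j).im ≤ 5 / 4 * η j ∧ |(ζ j).re - x| ≤ 5 / 4 * a) :
    ∃ G : ℂ → ℂ, (∀ ξ, (∀ j ∈ S, ξ ≠ ζ j) → DifferentiableAt ℂ G ξ) ∧
      (∀ ξ : ℂ, 0 < ξ.im → (∀ j ∈ S, c * η j ≤ ‖ξ - ζ j‖) →
        ‖G ξ‖ ≤ Real.exp (5 * (2 + 4 / c) ^ 2 / ε)) ∧
      (∀ ξ : ℂ, 0 ≤ ξ.im → (∀ j ∈ S, ξ ≠ ζ j) → (ξ.im = 0 ∨ ∀ j ∈ S, 4 * a ≤ ‖ξ - ζ j‖) →
        ‖G ξ‖ ≤ 1) ∧
      ((∀ j ∈ S, (⟨x, a⟩ : ℂ) ≠ ζ j) → Real.exp (S.card * (3 / 32 / a)) ≤ ‖G ⟨x, a⟩‖) := by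
  set G : ℂ → ℂ := fun ξ => ∏ j ∈ S,
    ((ξ - conj (ζ j)) / (ξ - ζ j) * exp (I * ((ζ j).im / (8 * a ^ 2) : ℝ) * ξ)) ^ n j with hG
  have nG : ∀ ξ, ‖G ξ‖ = ∏ j ∈ S, (‖(ξ - conj (ζ j)) / (ξ - ζ j)‖ *
      Real.exp (-((ζ j).im / (8 * a ^ 2) * ξ.im))) ^ n j := fun ξ => by
    simp only [hG, norm_prod, norm_pow, norm_mul, Complex.norm_exp]
    refine prod_congr rfl fun j _ => ?_
    congr 3
    simp only [mul_re, mul_im, I_re, I_im, ofReal_re, ofReal_im]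
    ring
  have up : ∀ ξ : ℂ, (∀ j ∈ S, ξ ≠ ζ j) → ‖G ξ‖ ≤ Real.exp (∑ j ∈ S, n j *
      (2 * ξ.im * (ζ j).im / ‖ξ - ζ j‖ ^ 2 - (ζ j).im / (8 * a ^ 2) * ξ.im)) := fun ξ hξ => by
    rw [nG, Real.exp_sum]
    refine prod_le_prod (fun j _ => by positivity) fun j hj => ?_
    rw [Real.exp_nat_mul, sub_eq_add_neg _ (_ * _), Real.exp_add]
    exact pow_le_pow_left₀ (by positivity)
      (mul_le_mul_of_nonneg_right (wg_up (hξ j hj)) (Real.exp_pos _).le) _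
  refine ⟨G, fun ξ hξ => ?_, fun ξ y0 hξ => ?_, fun ξ y0 hξ hb => ?_, fun hz => ?_⟩
  · refine DifferentiableAt.fun_finsetProd fun j hj => DifferentiableAt.pow ?_ _
    have := sub_ne_zero.2 (hξ j hj)
    fun_prop (disch := assumption)
  · have d0 : ∀ j ∈ S, 0 < ‖ξ - ζ j‖ := fun j hj =>
      (mul_pos c0 (e0.trans_le (h j hj).2.1)).trans_le (hξ j hj)
    refine (up ξ fun j hj => sub_ne_zero.1 (norm_pos_iff.1 (d0 j hj))).trans
      (Real.exp_le_exp.2 (le_trans (b := ∑ j ∈ S, 5 / 2 * (2 + 4 / c) ^ 2 / ε *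
        (ε * ξ.im / ((|j * ε - ξ.re| + ξ.im) * (|j * ε - ξ.re + ε| + ξ.im))))
          (sum_le_sum fun j hj => ?_) ?_))
    · obtain ⟨h1, h2, -, h4, h5, h6, -⟩ := h j hj
      have d := d0 j hj
      have η0 := e0.trans_le h2
      have r1 := (abs_re_le_norm (ξ - ζ j))
      have r2 := abs_le.1 (abs_im_le_norm (ξ - ζ j))
      rw [sub_re] at r1
      rw [sub_im] at r2
      have hη : η j ≤ ‖ξ - ζ j‖ / c := by rw [le_div_iff₀ c0]; linarith [hξ j hj]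
      have q : (2 + 4 / c) * ‖ξ - ζ j‖ = 2 * ‖ξ - ζ j‖ + 4 * (‖ξ - ζ j‖ / c) := by ring
      have b1 : |j * ε - ξ.re| + ξ.im ≤ (2 + 4 / c) * ‖ξ - ζ j‖ := by
        have : |j * ε - ξ.re| ≤ ‖ξ - ζ j‖ + 5 / 4 * η j :=
          abs_le.2 ⟨by linarith [abs_le.1 r1, abs_le.1 h4], by linarith [abs_le.1 r1, abs_le.1 h4]⟩
        linarith
      have b2 : |j * ε - ξ.re + ε| + ξ.im ≤ (2 + 4 / c) * ‖ξ - ζ j‖ := by
        have : |j * ε - ξ.re + ε| ≤ ‖ξ - ζ j‖ + 9 / 4 * η j :=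
          abs_le.2 ⟨by linarith [abs_le.1 r1, abs_le.1 h4], by linarith [abs_le.1 r1, abs_le.1 h4]⟩
        linarith
      have n0 : (0:ℝ) ≤ n j := by positivity
      have i0 : 0 ≤ (ζ j).im := by linarith
      have ni : n j * (ζ j).im ≤ 5 / 4 := by nlinarith
      calc _ ≤ n j * (2 * ξ.im * (ζ j).im / ‖ξ - ζ j‖ ^ 2) :=
            mul_le_mul_of_nonneg_left (sub_le_self _ (by positivity)) n0
        _ = n j * (ζ j).im * (2 * ξ.im / ‖ξ - ζ j‖ ^ 2) := by ring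
        _ ≤ 5 / 4 * (2 * ξ.im / ‖ξ - ζ j‖ ^ 2) := mul_le_mul_of_nonneg_right ni (by positivity)
        _ = 5 / 2 * (2 + 4 / c) ^ 2 / ε *
            (ε * ξ.im / (((2 + 4 / c) * ‖ξ - ζ j‖) * ((2 + 4 / c) * ‖ξ - ζ j‖))) := by
            field_simp; ring
        _ ≤ _ := by gcongr
    · rw [← mul_sum]
      exact (mul_le_mul_of_nonneg_left (wg_sum y0 e0.le _ S) (by positivity)).trans
        (le_of_eq (by ring))
  · refine (up ξ hξ).trans (Real.exp_le_one_iff.2 (sum_nonpos fun j hj => ?_))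
    refine mul_nonpos_of_nonneg_of_nonpos (by positivity) ?_
    rcases hb with e | hb
    · simp [e]
    obtain ⟨-, h2, -, -, h5, -⟩ := h j hj
    have i0 : 0 ≤ (ζ j).im := by linarith
    have : 2 * ξ.im * (ζ j).im / ‖ξ - ζ j‖ ^ 2 ≤ 2 * ξ.im * (ζ j).im / (4 * a) ^ 2 := by
      gcongr; exact hb j hj
    rw [sub_nonpos]
    exact this.trans (le_of_eq (by field_simp; ring))
  · rw [nG, Real.exp_nat_mul, ← prod_const]
    refine prod_le_prod (fun j _ => by positivity) fun j hj => ?_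
    obtain ⟨h1, h2, h3, -, h5, h6, h7⟩ := h j hj
    have i0 : 0 ≤ (ζ j).im := by linarith
    have lo := wg_lo (hz j hj) (s := (ζ j).im / (4 * a)) (by positivity)
      (by rw [← mul_div_assoc, div_le_one (by positivity)]; linarith) (by
        rw [div_mul_eq_mul_div, div_le_iff₀ (by positivity), Complex.sq_norm, normSq_apply]
        simp only [sub_re, sub_im]
        have b1 : (x - (ζ j).re) * (x - (ζ j).re) ≤ (5 / 4 * a) ^ 2 := by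
          nlinarith [abs_le.1 h7]
        have b2 : (a - (ζ j).im) * (a - (ζ j).im) ≤ a ^ 2 := by nlinarith
        nlinarith [mul_le_mul_of_nonneg_left (add_le_add b1 b2) i0, mul_nonneg i0 (sq_nonneg a)])
    refine le_trans ?_ (pow_le_pow_left₀ (by positivity)
      (mul_le_mul_of_nonneg_right lo (Real.exp_pos _).le) _)
    rw [← Real.exp_add, ← Real.exp_nat_mul, Real.exp_le_exp,
      show (ζ j).im / (4 * a) + -((ζ j).im / (8 * a ^ 2) * a) = (ζ j).im / 8 / a by field_simp; ring,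
      ← mul_div_assoc]
    refine div_le_div_of_nonneg_right ?_ a0.le
    nlinarith [mul_le_mul_of_nonneg_left h5 (show (0:ℝ) ≤ n j by positivity)]

end Pool.Agent.Lib.MP_9dc04a_an
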