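import Pool.Agent.Lib.MP_9dc04a_an.WkMax
import Pool.Agent.Lib.MP_9dc04a_an.WkPot
import Pool.Agent.Lib.MP_9dc04a_an.WkHar

set_option autoImplicit false

namespace Pool.Agent.Lib.MP_9dc04a_an

open Complex Metric Set
open scoped Classical

noncomputable def wN (k m : ℕ) : ℂ := ⟨m / 2 ^ k, 1 / 2 ^ k⟩

def wB (k m : ℕ) : Set ℂ :=
  {ξ | |ξ.re - m / 2 ^ k| < 6 * (1 / 2 ^ k) ∧ 0 < ξ.im ∧ ξ.im < 6 * (1 / 2 ^ k)}

def wH (W : ℂ → ℂ) (K : ℕ) (τ : ℝ) (j : ℕ) : Prop := ∃ k ≤ K, τ ≤ wP W (wN k (j / 2 ^ (K - k)))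

def wS (W : ℂ → ℂ) (τ : ℝ) (k m : ℕ) : Prop := ∀ l < k, wP W (wN l (m / 2 ^ (k - l))) < τ

lemma wr_anc {l k K : ℕ} (h1 : l ≤ k) (h2 : k ≤ K) (j : ℕ) :
    j / 2 ^ (K - k) / 2 ^ (k - l) = j / 2 ^ (K - l) := by
  rw [Nat.div_div_eq_div_mul, ← pow_add]; congr 2; omega

lemma wr_pos {k K : ℕ} (h : k ≤ K) (j : ℕ) :
    ((j / 2 ^ (K - k) : ℕ) : ℝ) / 2 ^ k ≤ j / 2 ^ K ∧
      (j:ℝ) / 2 ^ K ≤ ((j / 2 ^ (K - k) : ℕ) : ℝ) / 2 ^ k + 1 / 2 ^ k := by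
  obtain ⟨d, rfl⟩ := Nat.exists_eq_add_of_le h
  rw [Nat.add_sub_cancel_left, ← add_div, pow_add, mul_comm, ← div_div]
  have p : (0:ℝ) < 2 ^ d := by positivity
  have a1 : ((j / 2 ^ d : ℕ) : ℝ) * 2 ^ d ≤ j := by exact_mod_cast Nat.div_mul_le_self j (2 ^ d)
  have a2 : (j:ℝ) ≤ ((j / 2 ^ d : ℕ) + 1) * 2 ^ d := by
    have := (Nat.lt_div_mul_add (a := j) (show 0 < 2 ^ d by positivity)).le
    rw [add_mul, one_mul]; exact_mod_cast this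
  constructor <;> refine div_le_div_of_nonneg_right ?_ (by positivity)
  · rwa [le_div_iff₀ p]
  · rwa [div_le_iff₀ p]

lemma wr_mono {l k : ℕ} (h : l ≤ k) : (1:ℝ) / 2 ^ k ≤ 1 / 2 ^ l :=
  one_div_le_one_div_of_le (by positivity) (pow_le_pow_right₀ one_le_two h)

lemma wr_lev {y : ℝ} (y1 : y ≤ 1) : ∀ k : ℕ, 1 / 2 ^ (k + 1) ≤ y →
    ∃ l ≤ k, 1 / 2 ^ (l + 1) ≤ y ∧ y ≤ 1 / 2 ^ l
  | 0, h => ⟨0, le_rfl, h, by simpa using y1⟩
  | k + 1, h => by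
    rcases le_total y (1 / 2 ^ (k + 1)) with h' | h'
    · exact ⟨k + 1, le_rfl, h, h'⟩
    · obtain ⟨l, hl, e⟩ := wr_lev y1 k h'
      exact ⟨l, by omega, e⟩

variable {W F : ℂ → ℂ}

lemma wr_norm (ξ : ℂ) {a b : ℝ} (h1 : |ξ.re| ≤ a) (h2 : |ξ.im| ≤ b) : ‖ξ‖ ≤ a + b :=
  (norm_le_abs_re_add_abs_im ξ).trans (add_le_add h1 h2)

lemma WkS.col (K : WkS W F) {τ : ℝ} {k m : ℕ} (k1 : 1 ≤ k) (S : wS W τ k m) {ξ : ℂ}
    (e : ξ.re = m / 2 ^ k) (h1 : 1 / 2 ^ k ≤ ξ.im) (h2 : ξ.im ≤ 1) : |(W ξ).re| ≤ wE * τ := by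
  obtain ⟨k, rfl⟩ := Nat.exists_eq_add_of_le' k1
  obtain ⟨l, hl, a1, a2⟩ := wr_lev h2 k h1
  have b := wr_pos (show l ≤ k + 1 by omega) m
  have q : (1:ℝ) / 2 ^ l = 2 * (1 / 2 ^ (l + 1)) := by rw [pow_succ]; field_simp
  have p : (0:ℝ) < 1 / 2 ^ (l + 1) := by positivity
  have q1 := wr_mono (Nat.zero_le l)
  refine (wP_abs (by linarith)).trans ((K.har p (ξ := wN l (m / 2 ^ (k + 1 - l)))
    (by simp only [wN]; linarith) (by simp only [wN]; norm_num at q1 ⊢; linarith) a1 (by linarith)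
    ((wr_norm _ (a := 2 * (1 / 2 ^ (l + 1))) (b := 1 / 2 ^ (l + 1)) ?_ ?_).trans
      (by linarith))).trans
    (mul_le_mul_of_nonneg_left (S l (by omega)).le (by linarith [wE_one])))
  · simp only [sub_re, wN, e]; exact abs_le.2 ⟨by linarith [b.1], by linarith [b.2]⟩
  · simp only [sub_im, wN]; exact abs_le.2 ⟨by linarith, by linarith⟩

lemma WkS.back (K : WkS W F) {τ a b : ℝ} {k m k' m' : ℕ} (k1 : 1 ≤ k) (k3 : 3 ≤ k') (hm : m < 2 ^ k)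
    (S : wS W τ k m) (ha : wE * τ ≤ a) (hb : wE * τ ≤ b)
    (sep : 6 * (1 / 2 ^ k') ≤ |(m:ℝ) / 2 ^ k - m' / 2 ^ k'|) :
    JoinedIn {ξ | ξ ∈ WR ∧ ξ ∉ wB k' m' ∧ -a ≤ (F ξ).re ∧ (F ξ).re ≤ b} (wN k m) I := by
  have x0 : (0:ℝ) ≤ m / 2 ^ k := by positivity
  have x1 : (m:ℝ) / 2 ^ k ≤ 1 := by
    rw [div_le_one (by positivity)]; exact_mod_cast hm.le
  have p : (0:ℝ) < 1 / 2 ^ k := by positivity
  have q := wr_mono (Nat.zero_le k)
  have q3 := wr_mono k3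
  rw [pow_zero, div_one] at q
  have fin : ∀ ξ : ℂ, |(W ξ).re| ≤ wE * τ → -a ≤ (F ξ).re ∧ (F ξ).re ≤ b := fun ξ h => by
    rw [K.re]; exact ⟨by linarith [abs_le.1 h], by linarith [abs_le.1 h]⟩
  refine (JoinedIn.of_segment_subset (y := ⟨m / 2 ^ k, 1⟩) ?_).trans (JoinedIn.of_segment_subset ?_)
  · rintro _ ⟨s, t, hs, ht, st, rfl⟩
    set ξ := s • wN k m + t • (⟨m / 2 ^ k, 1⟩ : ℂ) with hξ
    have e1 : ξ.re = m / 2 ^ k := by
      simp only [hξ, add_re, smul_re, smul_eq_mul, wN]; linear_combination (m:ℝ) / 2 ^ k * st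
    have e2 : ξ.im = s * (1 / 2 ^ k) + t := by simp [hξ, wN]
    have e3 : 1 / 2 ^ k ≤ ξ.im := by nlinarith
    have e4 : ξ.im ≤ 1 := by nlinarith
    exact ⟨⟨by linarith, by linarith, by linarith, by linarith⟩,
      fun h => absurd h.1 (by rw [e1]; exact not_lt.2 sep), fin _ (K.col k1 S e1 e3 e4)⟩
  · rintro _ ⟨s, t, hs, ht, st, rfl⟩
    set ξ := s • (⟨m / 2 ^ k, 1⟩ : ℂ) + t • I with hξ
    have e1 : ξ.re = s * (m / 2 ^ k) := by simp [hξ]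
    have e2 : ξ.im = 1 := by simp [hξ, st]
    have e3 : 0 ≤ ξ.re := by rw [e1]; positivity
    have e4 : ξ.re ≤ 1 := by nlinarith
    refine ⟨⟨by linarith, by linarith, by linarith, by linarith⟩,
      fun h => by have := h.2.2; norm_num at q3 this; linarith, fin _ ?_⟩
    refine (wP_abs (by linarith)).trans ((K.har one_pos (ξ := wN 0 (m / 2 ^ (k - 0)))
      (by simp [wN]) (by simp [wN]) e2.ge (by linarith)
      ((wr_norm _ (a := 1) (b := 0) ?_ ?_).trans (by linarith))).trans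
      (mul_le_mul_of_nonneg_left (S 0 k1).le (by linarith [wE_one])))
    · simp only [sub_re, wN, Nat.sub_zero, Nat.div_eq_of_lt hm]
      exact abs_le.2 ⟨by simp; linarith, by simpa using e4⟩
    · simp [wN, e2]

noncomputable def wC : ℝ := 10 ^ 16 * wE

lemma WkS.cnt (K : WkS W F) {τ : ℝ} (τ0 : 0 < τ) {X : ℕ} (hX : 32000 * wE ≤ X) {k m L : ℕ}
    (k1 : 1 ≤ k) (kL : k ≤ L) (S : wS W τ k m)
    (nt : ∀ i ≤ X ^ 2, ¬WTwo (fun ξ => (W ξ).re) (wB k m) (wN k m) (2 * wE * τ)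
        (2 * wE * τ + i * ((X * τ / 16000 - 2 * wE * τ) / (X ^ 2 : ℕ))) ∧
      ¬WTwo (fun ξ => (W ξ).re) (wB k m) (wN k m)
        (2 * wE * τ + i * ((X * τ / 16000 - 2 * wE * τ) / (X ^ 2 : ℕ))) (2 * wE * τ))
    (Z : Finset ℕ) (hZ : ∀ j ∈ Z, j / 2 ^ (L - k) = m ∧ wH W L (X * τ) j) :
    (Z.card : ℝ) ≤ wC / X * 2 ^ (L - k) := by
  have E1 := wE_one
  have X0 : (0:ℝ) < X := by linarith
  have p : (0:ℝ) < 1 / 2 ^ k := by positivity
  have ex : ∀ j ∈ Z, ∃ s : ℕ, ∃ ζ : ℂ, (((2 ^ s : ℕ) : ℝ) * (1 / 2 ^ s) = 1 ∧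
      (1:ℝ) / 2 ^ L ≤ 1 / 2 ^ s ∧ (1:ℝ) / 2 ^ s ≤ 1 / 2 ^ k ∧
      |ζ.re - j * (1 / 2 ^ L)| ≤ 5 / 4 * (1 / 2 ^ s) ∧ 3 / 4 * (1 / 2 ^ s) ≤ ζ.im ∧
      ζ.im ≤ 5 / 4 * (1 / 2 ^ s) ∧ |ζ.re - m / 2 ^ k| ≤ 5 / 4 * (1 / 2 ^ k)) ∧
      ∀ w, |(W w).re| ≤ X * τ / 16000 → 1 / 8000 * (1 / 2 ^ s) ≤ ‖w - ζ‖ := fun j hj => by
    obtain ⟨e, s, sL, hs⟩ := hZ j hj
    have ks : k ≤ s := not_lt.1 fun h => by
      have := S s h
      rw [← e, wr_anc h.le kL] at this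
      nlinarith
    have q := wr_mono ks
    have q0 := wr_mono (Nat.zero_le s)
    rw [pow_zero, div_one] at q0
    obtain ⟨ζ, z1, z2⟩ := K.ball (ξ := wN s (j / 2 ^ (L - s))) (by simp [wN]) q0
    have b1 := wr_pos sL j
    have b2 := wr_pos kL j
    have b3 := wr_pos ks (j / 2 ^ (L - s))
    rw [wr_anc ks sL] at b3
    rw [e] at b2 b3
    have r1 := abs_le.1 ((abs_re_le_norm _).trans z1)
    have r2 := abs_le.1 ((abs_im_le_norm _).trans z1)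
    simp only [wN, sub_re, sub_im] at r1 r2 z2
    refine ⟨s, ζ, ⟨by push_cast; field_simp, wr_mono sL, q, ?_, by linarith, by linarith, ?_⟩,
      fun w hw => not_lt.1 fun h => ?_⟩
    · rw [mul_one_div]; exact abs_le.2 ⟨by linarith, by linarith⟩
    · exact abs_le.2 ⟨by linarith, by linarith⟩
    · have := z2 w (by linarith)
      simp only [wN] at hs
      nlinarith
  choose! s ζ h1 h2 using ex
  obtain ⟨G, g1, g2, g3, g4⟩ := wk_pot Z (fun j => 2 ^ s j) (fun j => 1 / 2 ^ s j) ζ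
    (ε := 1 / 2 ^ L) (c := 1 / 8000) (by positivity) p (by norm_num) h1
  have ne : ∀ w, |(W w).re| ≤ X * τ / 16000 → ∀ j ∈ Z, w ≠ ζ j := fun w hw j hj e => by
    have := h2 j hj w hw
    rw [e, sub_self, norm_zero] at this
    exact absurd this (not_le.2 (by positivity))
  have cr : Continuous fun ξ : ℂ => |ξ.re - m / 2 ^ k| := by fun_prop
  have cl : ∀ ξ ∈ closure (wB k m), |ξ.re - m / 2 ^ k| ≤ 6 * (1 / 2 ^ k) ∧ 0 ≤ ξ.im ∧
      ξ.im ≤ 6 * (1 / 2 ^ k) := fun ξ h =>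
    closure_minimal (t := {ξ : ℂ | |ξ.re - m / 2 ^ k| ≤ 6 * (1 / 2 ^ k) ∧ 0 ≤ ξ.im ∧
      ξ.im ≤ 6 * (1 / 2 ^ k)}) (fun _ h => ⟨h.1.le, h.2.1.le, h.2.2.le⟩)
      ((isClosed_le cr continuous_const).and ((isClosed_le continuous_const
        continuous_im).and (isClosed_le continuous_im continuous_const))) h
  have P : WPot W G (wB k m) (X * τ / 16000) (5 * (2 + 4 / (1 / 8000)) ^ 2 / (1 / 2 ^ L)) := by
    refine ⟨(isOpen_lt cr continuous_const).and ((isOpen_lt continuous_const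
      continuous_im).and (isOpen_lt continuous_im continuous_const)),
      (isBounded_closedBall (x := ((m / 2 ^ k : ℝ) : ℂ))
        (r := 6 * (1 / 2 ^ k) + 6 * (1 / 2 ^ k))).subset fun ξ h => mem_closedBall_iff_norm.2
          (wr_norm _ (by rw [sub_re, ofReal_re]; exact h.1.le)
            (by rw [sub_im, ofReal_im, sub_zero, abs_of_pos h.2.1]; exact h.2.2.le)),
      fun ξ h => K.dW ξ (cl ξ h).2.1, fun ξ _ h => g1 ξ (ne ξ h),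
      fun ξ h h' => g2 ξ h.2.1 fun j hj => h2 j hj ξ h',
      fun ξ h h' h'' => g3 ξ (cl ξ h).2.1 (ne ξ h'') ?_⟩
    refine or_iff_not_imp_left.2 fun i0 j hj => ?_
    obtain ⟨-, -, a3, -, -, a6, a7⟩ := h1 j hj
    have r1 := abs_re_le_norm (ξ - ζ j)
    have r2 := abs_le.1 (abs_im_le_norm (ξ - ζ j))
    rw [sub_re] at r1
    rw [sub_im] at r2
    by_contra hc
    refine h' ⟨?_, (cl ξ h).2.1.lt_of_ne' i0, by linarith⟩
    exact abs_lt.2 ⟨by linarith [abs_le.1 r1, abs_le.1 a7], by linarith [abs_le.1 r1, abs_le.1 a7]⟩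
  have uz := K.col k1 S (ξ := wN k m) rfl le_rfl (by simpa [wN] using wr_mono (Nat.zero_le k))
  have Eτ : 0 < wE * τ := by positivity
  have h0 : 0 ≤ X * τ / 16000 - 2 * wE * τ := by nlinarith
  have lo := P.loc (by positivity) (a := 2 * wE * τ) (θ := 64000 * wE / X) (N := X ^ 2)
    (by positivity) (div_nonneg h0 (by positivity)) (by push_cast; field_simp; ring)
    (le_of_eq (by field_simp; ring)) (by
      push_cast
      rw [div_le_iff₀ (by positivity), show 64000 * wE / X * (2 * wE * τ) * X ^ 2 =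
        128000 * (wE * wE) * (X * τ) by field_simp; ring]
      nlinarith [mul_pos X0 τ0, mul_le_mul E1 E1 zero_le_one (by linarith)])
    (z := wN k m) ⟨by simp [wN], p, by simp only [wN]; linarith⟩ (by linarith) nt
  have := Real.exp_le_exp.1 ((g4 (ne _ (by
    change |(W (wN k m)).re| ≤ _; linarith))).trans lo)
  obtain ⟨d, rfl⟩ := Nat.exists_eq_add_of_le kL
  rw [Nat.add_sub_cancel_left]
  rw [show 5 * (2 + 4 / (1 / 8000)) ^ 2 / (1 / 2 ^ (k + d)) * (64000 * wE / X) =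
    (32 / 3 * 5 * 32002 ^ 2 * 64000 * (wE / X * 2 ^ d)) * (3 / 32 / (1 / 2 ^ k)) by
      rw [pow_add]; field_simp; ring] at this
  refine (le_of_mul_le_mul_right this (by positivity)).trans ?_
  rw [wC, mul_div_assoc, mul_assoc (10 ^ 16)]
  exact mul_le_mul_of_nonneg_right (by norm_num) (by positivity)

end Pool.Agent.Lib.MP_9dc04a_an
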