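import Pool.Agent.Lib.MP_9dc04a_an.WkRec

set_option autoImplicit false

namespace Pool.Agent.Lib.MP_9dc04a_an

open Complex Metric Finset
open scoped Classical

variable {W F : ℂ → ℂ}

lemma ws_gap (Z : Finset ℕ) (g : ℕ)
    (h : ∀ i ∈ Z, ∀ j ∈ Z, ∀ k ∈ Z, i + g ≤ j → j + g ≤ k → False) : Z.card ≤ 2 * g := by
  rcases Z.eq_empty_or_nonempty with rfl | ne
  · simp
  have : Z ⊆ Ico (Z.min' ne) (Z.min' ne + g) ∪ Ico (Z.max' ne + 1 - g) (Z.max' ne + 1) :=
    fun j hj => by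
      have a1 := h _ (Z.min'_mem ne) j hj _ (Z.max'_mem ne)
      have a2 : Z.min' ne ≤ j := Z.min'_le j hj
      have a3 : j ≤ Z.max' ne := Z.le_max' j hj
      simp only [mem_union, mem_Ico]
      by_contra c
      exact a1 (by omega) (by omega)
  refine (card_le_card this).trans ((card_union_le _ _).trans ?_)
  rw [Nat.card_Ico, Nat.card_Ico]
  omega

lemma ws_fib {ι : Type} [DecidableEq ι] (A B : Finset ℕ) (ν : ℕ → ι) {θ : ℝ} (θ0 : 0 ≤ θ)
    (h : ∀ j ∈ B, ((B.filter fun i => ν i = ν j).card : ℝ) ≤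
      θ * (A.filter fun i => ν i = ν j).card) : (B.card : ℝ) ≤ θ * A.card := by
  rw [card_eq_sum_card_fiberwise (f := ν) (t := B.image ν) fun j hj => mem_image_of_mem ν hj]
  have := sum_card_fiberwise_eq_card_filter A (B.image ν) ν
  refine le_trans ?_ (mul_le_mul_of_nonneg_left
    (Nat.cast_le.2 (this.le.trans (card_filter_le _ _))) θ0)
  push_cast
  rw [mul_sum]
  refine sum_le_sum fun v hv => ?_
  obtain ⟨j, hj, rfl⟩ := mem_image.1 hv
  exact h j hj

lemma ws_lt {k L j : ℕ} (h : k ≤ L) (hj : j < 2 ^ L) : j / 2 ^ (L - k) < 2 ^ k := by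
  rw [Nat.div_lt_iff_lt_mul (by positivity), ← pow_add, Nat.add_sub_cancel' h]
  exact hj

lemma WkS.exc (K : WkS W F) {τ a b : ℝ} (τ0 : 0 < τ) (ha : wE * τ ≤ a) (hb : wE * τ ≤ b) {L k₂ : ℕ}
    (k3 : 3 ≤ k₂) (σ : ℕ → ℕ) (Z : Finset ℕ)
    (hZ : ∀ j ∈ Z, j < 2 ^ L ∧ k₂ ≤ σ j ∧ σ j ≤ L ∧ wS W τ (σ j) (j / 2 ^ (L - σ j)) ∧
      WTwo (fun ξ => (W ξ).re) (wB (σ j) (j / 2 ^ (L - σ j))) (wN (σ j) (j / 2 ^ (L - σ j))) a b) :
    Z.card ≤ 2 * (13 * 2 ^ (L - k₂)) := by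
  refine ws_gap Z _ fun i hi j hj k hk ij jk => ?_
  have E0 : 0 < wE * τ := mul_pos (by linarith [wE_one]) τ0
  have cp : IsCompact WR := by
    refine isCompact_of_isClosed_isBounded ((isClosed_le continuous_const continuous_re).and
      ((isClosed_le continuous_re continuous_const).and ((isClosed_le continuous_const
        continuous_im).and (isClosed_le continuous_im continuous_const))))
      ((isBounded_closedBall (x := (0:ℂ)) (r := 2 + 2)).subset fun ξ h =>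
        mem_closedBall_zero_iff.2 (wr_norm _ (abs_le.2 ⟨by linarith [h.1], h.2.1⟩)
          (abs_le.2 ⟨by linarith [h.2.2.1], h.2.2.2⟩)))
  obtain ⟨H, hH⟩ := cp.exists_bound_of_continuousOn K.cF
  have eu : (fun ξ => (W ξ).re) = fun ξ => (F ξ).re := funext fun ξ => (K.re ξ).symm
  rw [eu] at hZ
  have g0 : 0 < 2 ^ (L - k₂) := by positivity
  set x : ℕ → ℝ := fun j => ((j / 2 ^ (L - σ j) : ℕ) : ℝ) / 2 ^ σ j with hx
  have sp : ∀ i ∈ Z, ∀ j ∈ Z, i + 13 * 2 ^ (L - k₂) ≤ j →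
      x i + 6 * (1 / 2 ^ σ i) + 6 * (1 / 2 ^ σ j) ≤ x j := fun i hi j hj h => by
    obtain ⟨-, a1, a2, -⟩ := hZ i hi
    obtain ⟨-, b1, b2, -⟩ := hZ j hj
    have c1 := (wr_pos a2 i).1
    have c2 := (wr_pos b2 j).2
    have c3 := wr_mono a1
    have c4 := wr_mono b1
    have c5 : (i:ℝ) / 2 ^ L + 13 * (1 / 2 ^ k₂) ≤ j / 2 ^ L := by
      have : (i:ℝ) + 13 * 2 ^ (L - k₂) ≤ j := by exact_mod_cast h
      refine le_trans (le_of_eq ?_) (div_le_div_of_nonneg_right this (by positivity))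
      rw [pow_sub₀ _ two_ne_zero (a1.trans a2)]
      field_simp
    simp only [hx]
    linarith
  have pp : ∀ n : ℕ, (0:ℝ) < 1 / 2 ^ n := fun n => by positivity
  refine wk_three K.cF K.iF (fun ξ h => (abs_im_le_norm _).trans (hH ξ h)) (by linarith)
    (D := fun j => wB (σ j) (j / 2 ^ (L - σ j))) (z := fun j => wN (σ j) (j / 2 ^ (L - σ j)))
    (o := I) (T := {n | n ∈ Z ∧ (n = i ∨ n = j ∨ n = k)}) (fun n hn ξ h => ?_)
    (fun n hn => (hZ n hn.1).2.2.2.2.1) (fun n hn => (hZ n hn.1).2.2.2.2.2)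
    (fun n hn l hl ne => ?_) ⟨hi, by simp⟩ ⟨hj, by simp⟩ ⟨hk, by simp⟩ (by omega) (by omega)
    (by omega)
  · obtain ⟨a0, a1, a2, -⟩ := hZ n hn.1
    have c1 := wr_mono (k3.trans a1)
    have c2 : 0 ≤ x n := by positivity
    have c3 : x n ≤ 1 := by
      rw [hx, div_le_one (by positivity)]; exact_mod_cast (ws_lt a2 a0).le
    have c4 := abs_lt.1 h.1
    have c5 := h.2.2
    simp only [hx] at c2 c3
    norm_num at c1 c4 c5
    exact ⟨by linarith, by linarith, h.2.1.le, by linarith⟩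
  · have sep : 6 * (1 / 2 ^ σ n) + 6 * (1 / 2 ^ σ l) ≤ |x n - x l| := by
      rcases (show n + 13 * 2 ^ (L - k₂) ≤ l ∨ l + 13 * 2 ^ (L - k₂) ≤ n by
        have := hn.2; have := hl.2; omega) with h | h
      · linarith [sp n hn.1 l hl.1 h, neg_abs_le (x n - x l)]
      · linarith [sp l hl.1 n hn.1 h, le_abs_self (x n - x l)]
    obtain ⟨a0, a1, a2, a3, -⟩ := hZ n hn.1
    refine ⟨Set.disjoint_left.2 fun ξ h h' => ?_, K.back (by omega) (k3.trans (hZ l hl.1).2.1)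
      (ws_lt a2 a0) a3 ha hb (by linarith [pp (σ n)])⟩
    have := abs_sub_le (x n) ξ.re (x l)
    rw [abs_sub_comm (x n) ξ.re] at this
    linarith [h.1, h'.1]

theorem WkS.step (K : WkS W F) {τ : ℝ} (τ0 : 0 < τ) {X : ℕ} (hX : 32000 * wE ≤ X) {L k₂ : ℕ}
    (k3 : 3 ≤ k₂) (hk : ∀ k m, m < 2 ^ k → τ ≤ wP W (wN k m) → k₂ ≤ k) :
    (((range (2 ^ L)).filter (wH W L (X * τ))).card : ℝ) ≤
      wC / X * ((range (2 ^ L)).filter (wH W L τ)).card + 52 * (X ^ 2 + 1) * 2 ^ (L - k₂) := by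
  have E1 := wE_one
  set A := (range (2 ^ L)).filter (wH W L τ) with hA
  set B := (range (2 ^ L)).filter (wH W L (X * τ)) with hB
  have ex : ∀ j, wH W L τ j → ∃ k, k ≤ L ∧ τ ≤ wP W (wN k (j / 2 ^ (L - k))) ∧
      wS W τ k (j / 2 ^ (L - k)) := fun j hj =>
    ⟨Nat.find hj, (Nat.find_spec hj).1, (Nat.find_spec hj).2, fun l hl => by
      rw [wr_anc hl.le (Nat.find_spec hj).1]
      exact not_le.1 fun h => Nat.find_min hj hl ⟨hl.le.trans (Nat.find_spec hj).1, h⟩⟩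
  choose! σ s1 s2 s3 using ex
  have BA : ∀ j ∈ B, j < 2 ^ L ∧ wH W L τ j := fun j hj => by
    obtain ⟨h1, k, h2, h3⟩ := mem_filter.1 hj
    exact ⟨mem_range.1 h1, k, h2, le_trans (by nlinarith) h3⟩
  have s4 : ∀ j ∈ B, k₂ ≤ σ j := fun j hj =>
    hk _ _ (ws_lt (s1 j (BA j hj).2) (BA j hj).1) (s2 j (BA j hj).2)
  set a := 2 * wE * τ with ha
  set h := (X * τ / 16000 - a) / (X ^ 2 : ℕ) with hh
  have h0 : 0 ≤ h := div_nonneg (by nlinarith) (by positivity)
  set Tw : ℝ → ℝ → ℕ → Prop := fun a b j => WTwo (fun ξ => (W ξ).re)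
    (wB (σ j) (j / 2 ^ (L - σ j))) (wN (σ j) (j / 2 ^ (L - σ j))) a b with hT
  have e1 : ∀ a b, wE * τ ≤ a → wE * τ ≤ b → (B.filter (Tw a b)).card ≤ 2 * (13 * 2 ^ (L - k₂)) :=
    fun a b ha hb => K.exc τ0 ha hb k3 σ _ fun j hj =>
      let m := mem_filter.1 hj
      ⟨(BA j m.1).1, s4 j m.1, s1 j (BA j m.1).2, s3 j (BA j m.1).2, m.2⟩
  set Ex := (range (X ^ 2 + 1)).biUnion fun i =>
    B.filter (Tw a (a + i * h)) ∪ B.filter (Tw (a + i * h) a) with hE
  have e2 : Ex.card ≤ (X ^ 2 + 1) * (52 * 2 ^ (L - k₂)) := by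
    refine (card_biUnion_le_card_mul _ _ _ fun i _ => (card_union_le _ _).trans ?_).trans
      (by rw [card_range])
    have p : 0 ≤ i * h := by positivity
    have q : wE * τ ≤ a := by nlinarith
    have := e1 a (a + i * h) q (by linarith)
    have := e1 (a + i * h) a (by linarith) q
    omega
  have e3 := ws_fib A (B \ Ex) (fun j => (σ j, j / 2 ^ (L - σ j))) (θ := wC / X)
    (by rw [wC]; positivity) fun j hj => by
      obtain ⟨jB, jE⟩ := mem_sdiff.1 hj
      obtain ⟨j1, j2⟩ := BA j jB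
      refine (K.cnt τ0 hX (by linarith [s4 j jB]) (s1 j j2) (s3 j j2) (fun i hi => ?_) _
        fun i hi => ?_).trans (mul_le_mul_of_nonneg_left ?_ (by rw [wC]; positivity))
      · exact not_or.1 fun t => jE (mem_biUnion.2 ⟨i, mem_range.2 (by omega), mem_union.2
          (t.imp (fun t => mem_filter.2 ⟨jB, t⟩) fun t => mem_filter.2 ⟨jB, t⟩)⟩)
      · obtain ⟨i1, i2⟩ := mem_filter.1 hi
        obtain ⟨e, e'⟩ := Prod.mk.inj i2
        exact ⟨by rw [← e', e], (mem_filter.1 (mem_sdiff.1 i1).1).2⟩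
      · set k := σ j with hk'
        set m := j / 2 ^ (L - k) with hm
        have : Ico (m * 2 ^ (L - k)) (m * 2 ^ (L - k) + 2 ^ (L - k)) ⊆
            A.filter fun i => (σ i, i / 2 ^ (L - σ i)) = (k, m) := fun i hi => by
          obtain ⟨i1, i2⟩ := mem_Ico.1 hi
          have e : i / 2 ^ (L - k) = m :=
            Nat.div_eq_of_lt_le i1 (by rw [add_mul, one_mul]; exact i2)
          have iH : wH W L τ i := ⟨k, s1 j j2, e ▸ s2 j j2⟩
          have ek : σ i = k := by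
            rcases lt_trichotomy (σ i) k with c | c | c
            · have := s3 j j2 _ c
              rw [← hk', ← hm, ← e, wr_anc c.le (s1 j j2)] at this
              linarith [s2 i iH]
            · exact c
            · have := s3 i iH _ c
              rw [wr_anc c.le (s1 i iH), e] at this
              linarith [s2 j j2]
          refine mem_filter.2 ⟨mem_filter.2 ⟨mem_range.2 ?_, iH⟩, by rw [ek, e]⟩
          have := ws_lt (s1 j j2) j1
          calc i < (m + 1) * 2 ^ (L - k) := by rw [add_mul, one_mul]; exact i2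
            _ ≤ 2 ^ k * 2 ^ (L - k) := Nat.mul_le_mul_right _ this
            _ = 2 ^ L := by rw [← pow_add, Nat.add_sub_cancel' (s1 j j2)]
        have := card_le_card this
        rw [Nat.card_Ico, Nat.add_sub_cancel_left] at this
        exact_mod_cast this
  have e4 : (B.card : ℝ) ≤ (B \ Ex).card + Ex.card := by exact_mod_cast card_le_card_sdiff_add_card
  have e5 : (Ex.card : ℝ) ≤ (X ^ 2 + 1) * (52 * 2 ^ (L - k₂)) := by exact_mod_cast e2
  linarith

end Pool.Agent.Lib.MP_9dc04a_an
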