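import Pool.Agent.Lib.MP_9dc04a_an.WkStep

set_option autoImplicit false

namespace Pool.Agent.Lib.MP_9dc04a_an

open Complex Finset
open scoped Classical

theorem wk_sum : ∃ D : ℝ, 0 < D ∧ ∀ {W F : ℂ → ℂ}, WkS W F → ∀ {A : ℝ}, 0 < A →
    (∀ k m, m < 2 ^ k → wP W (wN k m) ≤ A * 8 ^ k) → ∀ (L : ℕ) {t : ℝ}, 1 ≤ t →
      ∑ j ∈ range (2 ^ L), min (wP W (wN L j)) (A * t ^ 3) ≤ D * A * t ^ 2 * 2 ^ L := by
  have E1 := wE_one
  obtain ⟨s, hs⟩ := pow_unbounded_of_one_lt (2 * wC) (one_lt_two (α := ℝ))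
  set Y : ℝ := 2 ^ s with hY
  have C1 : wC = 10 ^ 16 * wE := rfl
  have Y2 : 2 ≤ Y := by linarith
  have Y0 : 0 < Y := by linarith
  have X3 : ((8 ^ s : ℕ) : ℝ) = Y ^ 3 := by
    rw [hY, ← pow_mul, mul_comm, pow_mul]; norm_num
  set B := 13 * ((Y ^ 3) ^ 2 + 1) * Y with hB
  have B1 : 1 ≤ B := by nlinarith [sq_nonneg (Y ^ 3)]
  have Y3 : Y ≤ Y ^ 3 := le_self_pow₀ (by linarith) three_ne_zero
  refine ⟨65 * B * Y ^ 3 * Y ^ 2, by positivity, fun {W F} K {A} A0 hA L {t} t1 => ?_⟩
  set τ : ℕ → ℝ := fun l => 65 * A * (Y ^ l) ^ 3 with hτ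
  have τ0 : ∀ l, 0 < τ l := fun l => by positivity
  have τ1 : ∀ l, τ (l + 1) = (8 ^ s : ℕ) * τ l := fun l => by simp only [hτ, X3]; ring
  have hk : ∀ l k m, m < 2 ^ k → τ l ≤ wP W (wN k m) → 3 + s * l ≤ k := fun l k m hm h => by
    by_contra c
    have a1 : (8:ℝ) ^ k ≤ 8 ^ (2 + s * l) := pow_le_pow_right₀ (by norm_num) (by omega)
    have a2 : (8:ℝ) ^ (2 + s * l) = 64 * (Y ^ l) ^ 3 := by
      rw [pow_add, pow_mul, ← pow_mul Y, mul_comm l, pow_mul Y, ← X3]; norm_num
    have a3 := mul_le_mul_of_nonneg_left (a1.trans a2.le) A0.le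
    have a4 := τ0 l
    have := hA k m hm
    simp only [hτ] at h a4
    linarith
  have hP : ∀ l, (((range (2 ^ L)).filter (wH W L (τ l))).card : ℝ) * Y ^ l ≤ B * 2 ^ L := by
    intro l
    induction l with
    | zero =>
      have : (((range (2 ^ L)).filter (wH W L (τ 0))).card : ℝ) ≤ 2 ^ L := by
        exact_mod_cast (card_filter_le _ _).trans (card_range _).le
      rw [pow_zero, mul_one]
      exact this.trans (le_mul_of_one_le_left (by positivity) B1)
    | succ l ih =>
      rcases lt_or_ge L (3 + s * l) with c | c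
      · rw [filter_false_of_mem fun j hj ⟨k, h1, h2⟩ => by
          have := hk _ _ _ (ws_lt h1 (mem_range.1 hj)) h2
          rw [mul_add] at this
          omega]
        simp only [card_empty, Nat.cast_zero, zero_mul]
        positivity
      have := K.step (τ0 l) (X := 8 ^ s) (by rw [X3]; linarith) (L := L) (k₂ := 3 + s * l)
        (by omega) (hk l)
      rw [← τ1, X3] at this
      have e : (2:ℝ) ^ (L - (3 + s * l)) * (8 * Y ^ l) = 2 ^ L := by
        rw [hY, ← pow_mul, show (8:ℝ) = 2 ^ 3 by norm_num, ← pow_add, ← pow_add,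
          Nat.sub_add_cancel c]
      have a1 : wC / Y ^ 3 * Y ≤ 1 / 2 := by
        rw [div_mul_eq_mul_div, div_le_iff₀ (by positivity)]
        nlinarith [mul_le_mul_of_nonneg_left hs.le Y0.le, mul_le_mul_of_nonneg_left Y2
          (sq_nonneg Y)]
      have a2 := mul_le_mul a1 ih (by positivity) (by norm_num)
      have a3 := mul_le_mul_of_nonneg_right this (pow_pos Y0 (l + 1)).le
      rw [pow_succ] at a3 ⊢
      rw [← e, hB] at a2 ⊢
      linear_combination a3 + a2
  have hS : ∀ l, ∑ j ∈ range (2 ^ L), min (wP W (wN L j)) (τ l) ≤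
      65 * B * Y ^ 3 * A * (Y ^ l) ^ 2 * 2 ^ L := by
    intro l
    induction l with
    | zero =>
      refine (sum_le_card_nsmul _ _ _ fun j _ => min_le_right _ _).trans ?_
      have : 1 * 1 ≤ B * Y ^ 3 := mul_le_mul B1 (by linarith) zero_le_one (by linarith)
      have := mul_le_mul_of_nonneg_left this (show 0 ≤ 65 * A * 2 ^ L by positivity)
      simp only [hτ, card_range, nsmul_eq_mul]
      push_cast
      linarith
    | succ l ih =>
      have a1 : ∑ j ∈ range (2 ^ L), min (wP W (wN L j)) (τ (l + 1)) ≤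
          ∑ j ∈ range (2 ^ L), (min (wP W (wN L j)) (τ l) +
            if wH W L (τ l) j then τ (l + 1) else 0) := sum_le_sum fun j _ => by
        have p : 0 ≤ wP W (wN L j) := (abs_nonneg _).trans (wP_abs (by simp [wN]))
        split_ifs with h
        · exact (min_le_right _ _).trans (le_add_of_nonneg_left (le_min p (τ0 l).le))
        · have : wP W (wN L j) ≤ τ l := (not_le.1 fun c => h ⟨L, le_rfl, by simpa using c⟩).le
          rw [add_zero, min_eq_left this]
          exact min_le_left _ _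
      rw [sum_add_distrib, ← sum_filter, sum_const, nsmul_eq_mul] at a1
      have a2 := mul_le_mul_of_nonneg_left (hP l)
        (show 0 ≤ 65 * A * Y ^ 3 * (Y ^ l) ^ 2 by positivity)
      have a3 := mul_le_mul_of_nonneg_left (show 2 ≤ Y ^ 2 by nlinarith)
        (show 0 ≤ 65 * B * Y ^ 3 * A * (Y ^ l) ^ 2 * 2 ^ L by positivity)
      simp only [hτ, pow_succ Y l] at a1 ih ⊢
      linear_combination a1 + a2 + a3 + ih
  obtain ⟨n, n1, n2⟩ := exists_nat_pow_near t1 (show 1 < Y by linarith)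
  refine (sum_le_sum fun j _ => min_le_min_left _ ?_).trans ((hS (n + 1)).trans ?_)
  · have := mul_le_mul_of_nonneg_left (pow_le_pow_left₀ (by linarith) n2.le 3) A0.le
    have := τ0 (n + 1)
    simp only [hτ] at this ⊢
    linarith
  · have := mul_le_mul_of_nonneg_left (pow_le_pow_left₀ (by positivity) n1 2)
      (show 0 ≤ 65 * B * Y ^ 3 * Y ^ 2 * A * 2 ^ L by positivity)
    rw [pow_succ Y n]
    linear_combination this

end Pool.Agent.Lib.MP_9dc04a_an
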