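import Mathlib

set_option autoImplicit false

namespace Pool.Agent.Lib.MP_9dc04a_an

open Complex Metric Set
open scoped Real

lemma wk_half {θ : ℝ → ℝ} (hθ : Continuous θ) (h : ∀ s, 0 ≤ Real.cos (θ s)) :
    ∃ n : ℤ, ∀ s, |θ s - n * (2 * π)| ≤ π / 2 := by
  have p := Real.pi_pos
  have key : ∀ (n : ℤ) (s : ℝ), |θ s - n * (2 * π)| ≤ π → |θ s - n * (2 * π)| ≤ π / 2 := by
    intro n s hs
    by_contra hc
    have := Real.cos_neg_of_pi_div_two_lt_of_lt (not_le.1 hc) (by linarith)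
    rw [Real.cos_abs, Real.cos_sub_int_mul_two_pi] at this
    linarith [h s]
  refine ⟨round (θ 0 / (2 * π)), fun s => key _ s ?_⟩
  set n := round (θ 0 / (2 * π))
  have h0 : |θ 0 - n * (2 * π)| ≤ π := by
    have := abs_sub_round (θ 0 / (2 * π))
    rw [show θ 0 - n * (2 * π) = (θ 0 / (2 * π) - n) * (2 * π) by field_simp, abs_mul,
      abs_of_pos (by positivity : 0 < 2 * π)]
    nlinarith
  by_contra hc
  obtain ⟨t, ht⟩ := intermediate_value_univ 0 s (f := fun s => |θ s - n * (2 * π)|) (by fun_prop)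
    ⟨h0, (not_le.1 hc).le⟩
  have := key n t (le_of_eq ht)
  simp only at ht
  linarith

lemma wk_cross0 {P Q : ℝ → ℂ} (hP : Continuous P) (hQ : Continuous Q)
    (h1 : ∀ t, (P 0).im ≤ (Q t).im ∧ (Q t).im ≤ (P 1).im)
    (h2 : ∀ s, (Q 0).re ≤ (P s).re ∧ (P s).re ≤ (Q 1).re) : ∃ s t, P s = Q t := by
  by_contra hn
  push Not at hn
  have hsc : IsSimplyConnected (univ : Set (ℝ × ℝ)) := by
    have := (convex_univ (𝕜 := ℝ) (E := ℝ × ℝ)).contractibleSpace univ_nonempty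
    exact SimplyConnectedSpace.ofContractible _
  obtain ⟨l, hl, he⟩ := exists_continuousOn_eqOn_exp_comp hsc isOpen_univ
    (g := fun q : ℝ × ℝ => P q.1 - Q q.2) (by fun_prop)
    (by rintro ⟨x, -, h⟩; exact hn _ _ (sub_eq_zero.1 h))
  have hl' : Continuous l := continuousOn_univ.1 hl
  have er : ∀ s t, Real.exp (l (s, t)).re * Real.cos (l (s, t)).im = (P s).re - (Q t).re :=
    fun s t => by rw [← exp_re, ← sub_re]; exact congrArg re (he (mem_univ (s, t)))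
  have ei : ∀ s t, Real.exp (l (s, t)).re * Real.sin (l (s, t)).im = (P s).im - (Q t).im :=
    fun s t => by rw [← exp_im, ← sub_im]; exact congrArg im (he (mem_univ (s, t)))
  have ps : ∀ {a b : ℝ}, 0 ≤ Real.exp a * b → 0 ≤ b := fun h =>
    le_of_mul_le_mul_left (by simpa using h) (Real.exp_pos _)
  obtain ⟨n0, g0⟩ := wk_half (θ := fun s => (l (s, 0)).im) (by fun_prop) fun s =>
    ps (by rw [er]; linarith [(h2 s).1])
  obtain ⟨n1, g1⟩ := wk_half (θ := fun t => (l (1, t)).im - π / 2) (by fun_prop) fun t => by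
    rw [Real.cos_sub_pi_div_two]; exact ps (by rw [ei]; linarith [(h1 t).2])
  obtain ⟨n2, g2⟩ := wk_half (θ := fun s => (l (s, 1)).im - π) (by fun_prop) fun s => by
    rw [Real.cos_sub_pi]; exact ps (by rw [mul_neg, er]; linarith [(h2 s).2])
  obtain ⟨n3, g3⟩ := wk_half (θ := fun t => (l (0, t)).im + π / 2) (by fun_prop) fun t => by
    rw [Real.cos_add_pi_div_two]; exact ps (by rw [mul_neg, ei]; linarith [(h1 t).1])
  have p := Real.pi_pos
  have k : ∀ m n : ℤ, (m : ℝ) * (2 * π) < (n + 1) * (2 * π) → m ≤ n := fun m n h =>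
    Int.lt_add_one_iff.1 (by exact_mod_cast lt_of_mul_lt_mul_right h (by positivity))
  have a0 := abs_le.1 (g0 0)
  have b0 := abs_le.1 (g0 1)
  have a1 := abs_le.1 (g1 0)
  have b1 := abs_le.1 (g1 1)
  have a2 := abs_le.1 (g2 0)
  have b2 := abs_le.1 (g2 1)
  have a3 := abs_le.1 (g3 0)
  have b3 := abs_le.1 (g3 1)
  have e1 := k n0 n1 (by linarith)
  have e2 := k n1 n2 (by linarith)
  have e3 := k (n2 + 1) n3 (by push_cast; linarith)
  have e4 := k n3 n0 (by linarith)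
  omega

lemma wk_cross {A B : Set ℂ} {p p' q q' : ℂ} (hA : JoinedIn A p p') (hB : JoinedIn B q q')
    (h1 : ∀ z ∈ B, p.im ≤ z.im ∧ z.im ≤ p'.im) (h2 : ∀ z ∈ A, q.re ≤ z.re ∧ z.re ≤ q'.re) :
    ∃ z ∈ A, z ∈ B := by
  obtain ⟨a, ha⟩ := hA
  obtain ⟨b, hb⟩ := hB
  have ma : ∀ s, a.extend s ∈ A := fun s => ha _
  have mb : ∀ s, b.extend s ∈ B := fun s => hb _
  obtain ⟨s, t, e⟩ := wk_cross0 a.continuous_extend b.continuous_extend
    (fun t => by simpa using h1 _ (mb t)) (fun s => by simpa using h2 _ (ma s))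
  exact ⟨_, ma s, e ▸ mb t⟩

def WStrip (u : ℂ → ℝ) (D : Set ℂ) (a b : ℝ) : Set ℂ := {ξ | ξ ∈ D ∧ -a < u ξ ∧ u ξ < b}

def WRch (u : ℂ → ℝ) (D : Set ℂ) (z : ℂ) (a b c : ℝ) : Prop :=
  ∃ L ∈ D, u L = c ∧ JoinedIn (insert L (WStrip u D a b)) z L

lemma wk_mid {F : ℂ → ℂ} {R D : Set ℂ} {H a b : ℝ} (cF : ContinuousOn F R) (iF : InjOn F R)
    (hH : ∀ ξ ∈ R, |(F ξ).im| ≤ H) (DR : D ⊆ R) (ab : -a < b) {z L p r : ℂ} (hL : L ∈ D)
    (uL : (F L).re = -a) (jL : JoinedIn (insert L (WStrip (fun ξ => (F ξ).re) D a b)) z L)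
    (jM : WRch (fun ξ => (F ξ).re) D z a b b) (up : (F p).re = -a) (ur : (F r).re = -a)
    (h1 : (F p).im < (F L).im) (h2 : (F L).im < (F r).im)
    (j : JoinedIn {ξ | ξ ∈ R ∧ ξ ∉ D ∧ -a ≤ (F ξ).re ∧ (F ξ).re ≤ b} p r) : False := by
  obtain ⟨M, hM, uM, jM⟩ := jM
  set S := WStrip (fun ξ => (F ξ).re) D a b with hS
  have TD : insert L (insert M S) ⊆ D := insert_subset hL (insert_subset hM fun _ h => h.1)
  have jB := ((jL.mono (insert_subset_insert (subset_insert M S))).symm.trans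
    (jM.mono (subset_insert L _))).map_continuousOn (cF.mono (TD.trans DR))
  set B := F '' insert L (insert M S) with hB
  have hb : ∀ w ∈ B, w.re = -a → w.im = (F L).im := by
    rintro _ ⟨ξ, rfl | rfl | h, rfl⟩ e
    · rfl
    · simp only at uM; linarith
    · linarith [h.2.1]
  set A : Set ℂ := {w | -a ≤ w.re ∧ w.re ≤ b ∧ w ∉ B} with hA
  have seg : ∀ x y : ℂ, x.re = -a → y.re = -a → (x.im < (F L).im ∧ y.im < (F L).im ∨
      (F L).im < x.im ∧ (F L).im < y.im) → JoinedIn A x y := by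
    intro x y hx hy h
    refine JoinedIn.of_segment_subset ?_
    rintro _ ⟨s, t, hs, ht, st, rfl⟩
    have e : (s • x + t • y).re = -a := by
      simp only [add_re, smul_re, smul_eq_mul, hx, hy]; linear_combination -a * st
    refine ⟨e.ge, by linarith, fun hc => ?_⟩
    have := hb _ hc e
    simp only [add_im, smul_im, smul_eq_mul] at this
    have e2 : s * (x.im - (F L).im) + t * (y.im - (F L).im) = 0 := by
      linear_combination this - (F L).im * st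
    rcases h with h | h
    · rcases hs.eq_or_lt with rfl | h0
      · rw [zero_add] at st; subst st; linarith
      · nlinarith [mul_nonneg ht (sub_nonneg.2 h.2.le), mul_pos h0 (sub_pos.2 h.1)]
    · rcases hs.eq_or_lt with rfl | h0
      · rw [zero_add] at st; subst st; linarith
      · nlinarith [mul_nonneg ht (sub_nonneg.2 h.2.le), mul_pos h0 (sub_pos.2 h.1)]
  have b1 := abs_le.1 (hH p j.source_mem.1)
  have b2 := abs_le.1 (hH r j.target_mem.1)
  have jA : JoinedIn A ⟨-a, -H⟩ ⟨-a, H⟩ :=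
    ((seg _ _ rfl up (Or.inl ⟨by simp only; linarith, h1⟩)).trans
      ((j.map_continuousOn (cF.mono fun _ h => h.1)).mono (by
        rintro _ ⟨ξ, h, rfl⟩
        refine ⟨h.2.2.1, h.2.2.2, ?_⟩
        rintro ⟨ξ', h', e⟩
        exact h.2.1 (iF (DR (TD h')) h.1 e ▸ TD h')))).trans
      (seg _ _ ur rfl (Or.inr ⟨h2, by simp only; linarith⟩))
  obtain ⟨w, wa, wb⟩ := wk_cross jA jB (by
    rintro _ ⟨ξ, h, rfl⟩
    exact abs_le.1 (hH ξ (DR (TD h)))) (fun w h => ⟨uL ▸ h.1, by simp only at uM; rw [uM]; exact h.2.1⟩)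
  exact wa.2.2 wb

theorem wk_three {ι : Type} {F : ℂ → ℂ} {R : Set ℂ} {H a b : ℝ} (cF : ContinuousOn F R)
    (iF : InjOn F R) (hH : ∀ ξ ∈ R, |(F ξ).im| ≤ H) (ab : -a < b) {D : ι → Set ℂ} {z : ι → ℂ}
    {o : ℂ} {T : Set ι} (hD : ∀ i ∈ T, D i ⊆ R)
    (hl : ∀ i ∈ T, WRch (fun ξ => (F ξ).re) (D i) (z i) a b (-a))
    (hr : ∀ i ∈ T, WRch (fun ξ => (F ξ).re) (D i) (z i) a b b)
    (hS : ∀ i ∈ T, ∀ k ∈ T, i ≠ k → Disjoint (D i) (D k) ∧
      JoinedIn {ξ | ξ ∈ R ∧ ξ ∉ D k ∧ -a ≤ (F ξ).re ∧ (F ξ).re ≤ b} (z i) o)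
    {i j k : ι} (hi : i ∈ T) (hj : j ∈ T) (hk : k ∈ T) (ij : i ≠ j) (jk : j ≠ k) (ik : i ≠ k) :
    False := by
  choose! L hL uL jL using hl
  have hto : ∀ i ∈ T, ∀ k ∈ T, i ≠ k →
      JoinedIn {ξ | ξ ∈ R ∧ ξ ∉ D k ∧ -a ≤ (F ξ).re ∧ (F ξ).re ≤ b} (L i) o := fun i hi k hk ne =>
    ((jL i hi).symm.mono (by
      have d := Set.disjoint_left.1 (hS i hi k hk ne).1
      rintro ξ (rfl | h)
      · exact ⟨hD i hi (hL i hi), d (hL i hi), (uL i hi).ge, (uL i hi).le.trans ab.le⟩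
      · exact ⟨hD i hi h.1, d h.1, h.2.1.le, h.2.2.le⟩)).trans (hS i hi k hk ne).2
  have key : ∀ i ∈ T, ∀ j ∈ T, ∀ k ∈ T, (F (L i)).im < (F (L j)).im →
      (F (L j)).im < (F (L k)).im → False := fun i hi j hj k hk h1 h2 =>
    wk_mid cF iF hH (hD j hj) ab (hL j hj) (uL j hj) (jL j hj) (hr j hj) (uL i hi) (uL k hk) h1 h2
      ((hto i hi j hj fun e => by rw [e] at h1; exact lt_irrefl _ h1).trans
        (hto k hk j hj fun e => by rw [e] at h2; exact lt_irrefl _ h2).symm)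
  have ne : ∀ i ∈ T, ∀ k ∈ T, i ≠ k → (F (L i)).im < (F (L k)).im ∨ (F (L k)).im < (F (L i)).im :=
    fun i hi k hk h => lt_or_gt_of_ne fun e =>
      Set.disjoint_left.1 (hS i hi k hk h).1 (hL i hi)
        (iF (hD i hi (hL i hi)) (hD k hk (hL k hk))
          (Complex.ext ((uL i hi).trans (uL k hk).symm) e) ▸ hL k hk)
  rcases ne i hi j hj ij with h1 | h1 <;> rcases ne j hj k hk jk with h2 | h2 <;>
    rcases ne i hi k hk ik with h3 | h3
  · exact key i hi j hj k hk h1 h2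
  · linarith
  · exact key i hi k hk j hj h3 h2
  · exact key k hk i hi j hj h3 h1
  · exact key j hj i hi k hk h1 h3
  · exact key j hj k hk i hi h2 h3
  · linarith
  · exact key k hk j hj i hi h2 h1

end Pool.Agent.Lib.MP_9dc04a_an
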